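import Pool.Agent.Work.MP_8f87b2_h73.T4S
import Pool.Agent.Work.MP_8f87b2_mid.OrdT

/-!
# The assembly: from the groups of the middle to the theorem

`asm4`: `k = n + 7`. `G` : the groups of the T-cycles of the heights `3 .. k - 5`, all merges done. With the order (`step`,
`inner`), the fields of the types, the word matrix (`dis`), the rows against the top and the layer `k - 4` (`top`, `topI`) and
the row against the bottom (`bot`): `2 k + 1` lies in the compression set of the odd graph. `asmT`: the order by kinds.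
-/

set_option autoImplicit false

namespace Pool.OddHC

open Finset Equiv Pool.Agent.Work.MP_8f87b2_co

/-- the middle: heights `3 .. k - 5` -/
abbrev NM (n : ℕ) : Set (Cyc (n + 2 + 5)) := {c | 3 ≤ htc c ∧ htc c < n + 3}

/-- everything above the middle -/
abbrev OM (n : ℕ) : Set (Cyc (n + 2 + 5)) := {c | n + 3 ≤ htc c}

/-- a word which is neither in the top (heights `≥ k - 3`) nor in the layer `k - 4`, whatever the layer is -/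
def FreeTop (n : ℕ) (w : X (n + 2 + 5)) : Prop :=
  ∀ (ι : Q3 (n + 2) → Q3 (n + 2)) (W4 : Set (X (n + 2 + 5))), T4.Lay n ι W4 → w ∉ topW8' (n + 2) ι ∧ w ∉ W4

/-- the usual way: not in the list `WAll`, except the word `oX` for `n + 3 ≢ 1 mod 4` -/
theorem FreeTop.of {n : ℕ} {w : X (n + 2 + 5)} (h : ∀ ι : Q3 (n + 2) → Q3 (n + 2), w ∉ topW8' (n + 2) ι)
    (h' : w ∈ T4.WAll n → w = T4.oX n ∧ (n + 3) % 4 ≠ 1) : FreeTop n w := by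
  intro ι W4 hL
  refine ⟨h ι, fun hw => ?_⟩
  obtain ⟨e, h1⟩ := h' (hL.all hw)
  exact hL.oX h1 (e ▸ hw)

section

variable {k : ℕ} {τ : Type} {O N : Set (Cyc k)} {G : Set (Set (Cyc k))}
  {P : τ → Set (Cyc k) → DG k → Prop}

/-- `GrpOK.planR` where only the old words must lie in `O ∪ N` -/
theorem GrpOK.planR' [Nonempty τ] {L : Type} [Preorder L] (h : GrpOK N G P)
    (pri : τ → ℕ) (mu : τ → Set (Cyc k) → L)
    (hON : ∀ F ∈ G, ∀ t g, Fst P pri t F g → ∀ w ∈ g.B, cyc w ∉ F → cyc w ∉ O → cyc w ∈ N)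
    (step : ∀ F ∈ G, ∀ t g, Fst P pri t F g → ∀ w ∈ g.B, cyc w ∉ F → cyc w ∉ O →
      ∀ F' ∈ G, cyc w ∈ F' → ∀ t' g', Fst P pri t' F' g' → mu t' F' < mu t F) :
    ∃ (tt : Set (Cyc k) → τ) (gg : Set (Cyc k) → DG k),
      (∀ F ∈ G, Fst P pri (tt F) F (gg F)) ∧
      PlanR O N G (SelP G P tt gg) (cntR G (fun F => mu (tt F) F)) := by
  obtain ⟨tt, gg, h1⟩ := h.sel pri
  refine ⟨tt, gg, h1, h.ne, h.sub, h.cov, h.one,
    fun F hF => ⟨tt F, gg F, hF, rfl, rfl, (h1 F hF).1⟩, ?_⟩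
  rintro t F hF g ⟨-, rfl, rfl, -⟩ w hw
  by_cases hwF : cyc w ∈ F
  · exact Or.inl hwF
  · by_cases hwO : cyc w ∈ O
    · exact Or.inr (Or.inl hwO)
    · have hwN : cyc w ∈ N := hON F hF _ _ (h1 F hF) w hw hwF hwO
      obtain ⟨F', hF', hwF'⟩ := h.cov _ hwN
      exact Or.inr (Or.inr ⟨F', hF', hwF', cntR_lt hF'
        (step F hF _ _ (h1 F hF) w hw hwF hwO F' hF' hwF' _ _ (h1 F' hF'))⟩)

/-- **THE SYSTEM FROM THE GROUPS**, as `GrpOK.hasSys`, where only the old words must lie in `O ∪ N`; `W`, `I` : any sets with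
the words and the inner words of the selected gadgets -/
theorem GrpOK.hasSys' [Nonempty τ] {L : Type} [Preorder L] (h : GrpOK N G P)
    (hNO : ∀ c ∈ N, c ∉ O) (pri : τ → ℕ)
    (mu : τ → Set (Cyc k) → L) (inn : X k × X k → Set (X k))
    (hON : ∀ F ∈ G, ∀ t g, Fst P pri t F g → ∀ w ∈ g.B, cyc w ∉ F → cyc w ∉ O → cyc w ∈ N)
    (hF : ∀ t F g, P t F g → ∀ w, w ∈ g.F ↔ cyc w ∈ F)
    (new : ∀ t F g, P t F g → ∀ c ∈ F, ∃ u ∈ g.B, cyc u = c)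
    (old : ∀ t F g, P t F g → ∃ u ∈ g.B, cyc u ∉ F)
    (path : ∀ t F g, P t F g → ∀ a ∈ g.arcs, ∃ n : ℕ, (TT ^ (n + 1)) a.1 = a.2 ∧
      a.1 ∈ g.B ∧ ∀ i < n, (TT ^ (i + 1)) a.1 ∉ g.B ∧ (TT ^ (i + 1)) a.1 ∈ inn a)
    (abs : ∀ t F g, P t F g → g.Abs)
    (dis : ∀ F ∈ G, ∀ F' ∈ G, F ≠ F' → ∀ t g, Fst P pri t F g → ∀ t' g', Fst P pri t' F' g' →
      ∀ w ∈ g.B, w ∉ g'.B)
    (step : ∀ F ∈ G, ∀ t g, Fst P pri t F g → ∀ w ∈ g.B, cyc w ∉ F → cyc w ∉ O →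
      ∀ F' ∈ G, cyc w ∈ F' → ∀ t' g', Fst P pri t' F' g' → mu t' F' < mu t F)
    (inner : ∀ F ∈ G, ∀ F' ∈ G, F ≠ F' → ∀ t g, Fst P pri t F g → ∀ t' g', Fst P pri t' F' g' →
      ∀ a ∈ g.arcs, ∀ w ∈ inn a, cyc w ∉ F → w ∈ g'.B → mu t F < mu t' F')
    (W I : Set (X k)) (hW : ∀ F ∈ G, ∀ t g, Fst P pri t F g → ∀ w ∈ g.B, w ∈ W)
    (hI : ∀ F ∈ G, ∀ t g, Fst P pri t F g → ∀ a ∈ g.arcs, ∀ w ∈ inn a, w ∈ I) :
    HasSys O N W I := by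
  obtain ⟨tt, gg, h1, h2⟩ := h.planR' pri mu hON step
  have hP : ∀ t F g, SelP G P tt gg t F g → P t F g := fun t F g h => h.2.2.2
  refine (h2.sys inn (fun t F _ g hg => hF t F g (hP t F g hg))
    (fun t F _ g hg => new t F g (hP t F g hg)) (fun t F _ g hg => old t F g (hP t F g hg)) ?_
    (fun t F _ g hg => path t F g (hP t F g hg)) ?_
    (fun t F _ g hg => abs t F g (hP t F g hg))).mono ?_ ?_
  · rintro t F hFG g ⟨-, rfl, rfl, -⟩ t' F' hFG' g' ⟨-, rfl, rfl, -⟩ hne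
    exact dis F hFG F' hFG' hne _ _ (h1 F hFG) _ _ (h1 F' hFG')
  · rintro t F hFG g ⟨-, rfl, rfl, -⟩ a ha w hw t' F' hFG' g' ⟨-, rfl, rfl, -⟩ hne hle hw'
    have h3 : mu (tt F) F < mu (tt F') F' := by
      by_cases hwF : cyc w ∈ F
      · exact step F' hFG' _ _ (h1 F' hFG') w hw' (fun h4 => hne (h.one F hFG F' hFG' _ hwF h4))
          (hNO _ (h.sub F hFG _ hwF)) F hFG hwF _ _ (h1 F hFG)
      · exact inner F hFG F' hFG' hne _ _ (h1 F hFG) _ _ (h1 F' hFG') a ha w hw hwF hw'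
    exact absurd hle (not_le.2 (cntR_lt (m := fun F => mu (tt F) F) hFG h3))
  · rintro w ⟨t, F, hFG, g, ⟨-, rfl, rfl, -⟩, hw⟩
    exact hW F hFG _ _ (h1 F hFG) w hw
  · rintro w ⟨t, F, hFG, g, ⟨-, rfl, rfl, -⟩, a, ha, hw⟩
    exact hI F hFG _ _ (h1 F hFG) a ha w hw

end

/-- **ASSEMBLY, `k = n + 7`**, any measure `mu` of the groups -/
theorem asm4 {n : ℕ} (hn : 3 ≤ n) (s : Bool) {τ : Type} [Nonempty τ] {L : Type} [Preorder L]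
    {P : τ → Set (Cyc (n + 2 + 5)) → DG (n + 2 + 5) → Prop} {G : Set (Set (Cyc (n + 2 + 5)))}
    (hG : GrpOK (NM n) G P) (inn : X (n + 2 + 5) × X (n + 2 + 5) → Set (X (n + 2 + 5)))
    {pri : τ → ℕ} (mu : τ → Set (Cyc (n + 2 + 5)) → L)
    (h3 : ∀ F ∈ G, ∀ t g, Fst P pri t F g → ∀ w ∈ g.B, cyc w ∈ F ∨ 3 ≤ htc (cyc w))
    (hF : ∀ t F g, P t F g → ∀ w, w ∈ g.F ↔ cyc w ∈ F)
    (new : ∀ t F g, P t F g → ∀ c ∈ F, ∃ u ∈ g.B, cyc u = c)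
    (old : ∀ t F g, P t F g → ∃ u ∈ g.B, cyc u ∉ F)
    (path : ∀ t F g, P t F g → ∀ a ∈ g.arcs, ∃ n' : ℕ, (TT ^ (n' + 1)) a.1 = a.2 ∧
      a.1 ∈ g.B ∧ ∀ i < n', (TT ^ (i + 1)) a.1 ∉ g.B ∧ (TT ^ (i + 1)) a.1 ∈ inn a)
    (abs : ∀ t F g, P t F g → g.Abs)
    (dis : ∀ F ∈ G, ∀ F' ∈ G, F ≠ F' → ∀ t g, Fst P pri t F g → ∀ t' g', Fst P pri t' F' g' →
      ∀ w ∈ g.B, w ∉ g'.B)
    (step : ∀ F ∈ G, ∀ t g, Fst P pri t F g → ∀ w ∈ g.B, cyc w ∉ F → cyc w ∉ OM n →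
      ∀ F' ∈ G, cyc w ∈ F' → ∀ t' g', Fst P pri t' F' g' → mu t' F' < mu t F)
    (inner : ∀ F ∈ G, ∀ F' ∈ G, F ≠ F' → ∀ t g, Fst P pri t F g → ∀ t' g', Fst P pri t' F' g' →
      ∀ a ∈ g.arcs, ∀ w ∈ inn a, cyc w ∉ F → w ∈ g'.B → mu t F < mu t' F')
    (top : ∀ F ∈ G, ∀ t g, Fst P pri t F g → ∀ w ∈ g.B, FreeTop n w)
    (topI : ∀ F ∈ G, ∀ t g, Fst P pri t F g → ∀ a ∈ g.arcs, ∀ w ∈ inn a, FreeTop n w)
    (bot : ∀ F ∈ G, ∀ t g, Fst P pri t F g → ∀ w ∈ g.B, w ∉ botW (n + 2 + 5) s) :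
    2 * (n + 2 + 5) + 1 ∈ compressionSet (oddGraph (n + 2 + 5)) := by
  obtain ⟨ι, W4, h4⟩ := T4.exists_layer hn
  have hS : HasSys (OM n) (NM n)
      {w | ∃ F ∈ G, ∃ t g, Fst P pri t F g ∧ w ∈ g.B}
      {w | ∃ F ∈ G, ∃ t g, Fst P pri t F g ∧ ∃ a ∈ g.arcs, w ∈ inn a} := by
    refine hG.hasSys' (fun c hc hc' => ?_) pri mu inn ?_ hF new old path abs dis step inner _ _ ?_ ?_
    · have h1 : n + 3 ≤ htc c := hc'
      have h2 := hc.2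
      omega
    · intro F hFG t g hg w hw hwF hwO
      rcases h3 F hFG t g hg w hw with h5 | h5
      · exact absurd h5 hwF
      · exact ⟨h5, not_le.1 hwO⟩
    · exact fun F hFG t g hg w hw => ⟨F, hFG, t, g, hg, hw⟩
    · exact fun F hFG t g hg a ha w hw => ⟨F, hFG, t, g, hg, a, ha, hw⟩
  refine T4.ham_of_middle4 hn s h4 hS ?_ ?_ ?_ ?_ ?_
  · rintro w hw ⟨F, hFG, t, g, hg, hw'⟩
    exact (top F hFG t g hg w hw' ι W4 h4).1 hw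
  · rintro w hw ⟨F, hFG, t, g, hg, a, ha, hw'⟩
    exact (topI F hFG t g hg a ha w hw' ι W4 h4).1 hw
  · rintro w hw ⟨F, hFG, t, g, hg, hw'⟩
    exact (top F hFG t g hg w hw' ι W4 h4).2 hw
  · rintro w hw ⟨F, hFG, t, g, hg, a, ha, hw'⟩
    exact (topI F hFG t g hg a ha w hw' ι W4 h4).2 hw
  · rintro w ⟨F, hFG, t, g, hg, hw'⟩
    exact bot F hFG t g hg w hw'

/-- **ASSEMBLY with kinds, `k = n + 7`** -/
theorem asmT {n : ℕ} (hn : 3 ≤ n) (s : Bool) {τ : Type} [Nonempty τ]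
    {P : τ → Set (Cyc (n + 2 + 5)) → DG (n + 2 + 5) → Prop} {G : Set (Set (Cyc (n + 2 + 5)))}
    (hG : GrpOK (NM n) G P) (inn : X (n + 2 + 5) × X (n + 2 + 5) → Set (X (n + 2 + 5)))
    {pri : τ → ℕ} {LP LJ : Set (Cyc (n + 2 + 5)) → Prop} {r : Set (Cyc (n + 2 + 5)) → ℤ}
    {lw : Set (Cyc (n + 2 + 5)) → List ℤ} {vw : τ → Set (Cyc (n + 2 + 5)) → List ℤ} {kd : τ → Ke}
    (hK : KindT (OM n) G P pri LP LJ r lw vw kd)
    (hF : ∀ t F g, P t F g → ∀ w, w ∈ g.F ↔ cyc w ∈ F)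
    (new : ∀ t F g, P t F g → ∀ c ∈ F, ∃ u ∈ g.B, cyc u = c)
    (old : ∀ t F g, P t F g → ∃ u ∈ g.B, cyc u ∉ F)
    (path : ∀ t F g, P t F g → ∀ a ∈ g.arcs, ∃ n' : ℕ, (TT ^ (n' + 1)) a.1 = a.2 ∧
      a.1 ∈ g.B ∧ ∀ i < n', (TT ^ (i + 1)) a.1 ∉ g.B ∧ (TT ^ (i + 1)) a.1 ∈ inn a)
    (abs : ∀ t F g, P t F g → g.Abs)
    (dis : ∀ F ∈ G, ∀ F' ∈ G, F ≠ F' → ∀ t g, Fst P pri t F g → ∀ t' g', Fst P pri t' F' g' →
      ∀ w ∈ g.B, w ∉ g'.B)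
    (inner : ∀ F ∈ G, ∀ F' ∈ G, F ≠ F' → ∀ t g, Fst P pri t F g → ∀ t' g', Fst P pri t' F' g' →
      (mc F).sup ≤ (mc F').sup → ∀ a ∈ g.arcs, ∀ w ∈ inn a, cyc w ∉ F → w ∈ g'.B →
        muT LP LJ r lw vw kd t F < muT LP LJ r lw vw kd t' F')
    (top : ∀ F ∈ G, ∀ t g, Fst P pri t F g → ∀ w ∈ g.B, FreeTop n w)
    (topI : ∀ F ∈ G, ∀ t g, Fst P pri t F g → ∀ a ∈ g.arcs, ∀ w ∈ inn a, FreeTop n w)
    (bot : ∀ F ∈ G, ∀ t g, Fst P pri t F g → ∀ w ∈ g.B, w ∉ botW (n + 2 + 5) s) :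
    2 * (n + 2 + 5) + 1 ∈ compressionSet (oddGraph (n + 2 + 5)) := by
  refine asm4 hn s hG inn (muT LP LJ r lw vw kd) ?_ hF new old path abs dis hK.step ?_ top topI bot
  · intro F hFG t g hg w hw
    obtain ⟨c, hc⟩ := hG.ne F hFG
    have h2 := hK.top F hFG t g hg c hc
    have h3 := (hG.sub F hFG c hc).1
    rcases hK.le F hFG t g hg w hw with h1 | h1 | h1
    · exact Or.inl h1
    · right
      have h4 : n + 3 ≤ htc (cyc w) := h1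
      omega
    · right
      omega
  · intro F hF' F' hF'' hne t g hg t' g' hg' a ha w hw hwF hw'
    rcases lt_or_ge (mc F').sup (mc F).sup with h1 | h1
    · exact muT_ht h1
    · exact inner F hF' F' hF'' hne t g hg t' g' hg' h1 a ha w hw hwF hw'

end Pool.OddHC
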