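import Pool.Agent.Work.MP_8f87b2_fin.R1b

/-!
# The classes over one `V`: basics

`ov_data`: the data `(a, m)` of a T-cycle over `V`. `fam_zero`: families without beads. `r2_cls`: the class `(V; a, 0)`.
`ev`: beads at two gaps. `k_link`: the K link over a phase `v` of `V` with `a` squares at the end.
-/

set_option autoImplicit false

namespace Pool.OddHC

open Finset BinaryTree Multiset Pool.OddHop

variable {i j j2 k : ℕ}

/-- the number of beads of the reduced cycle -/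
noncomputable def aa (p : Cyc k) : ℕ := (contc (Rd p).2).count 1

theorem pkc_eq (p : Cyc k) : pkc p = pkc (Rd p).2 + (contc p).count 1 := by
  have h := congrArg Multiset.card (contc_eq p)
  rw [Multiset.card_add, Multiset.card_map, Multiset.card_replicate] at h
  exact h

theorem ov_data {V : Cyc j2} {p : Cyc k} (h : Rd (Rd p).2 = ⟨j2, V⟩) :
    ∃ (j : ℕ) (U : Cyc j), Rd p = ⟨j, U⟩ ∧ Rd U = ⟨j2, V⟩ ∧ (contc U).count 1 = aa p ∧
      j = j2 + pkc V + aa p ∧ pkc U = pkc V + aa p ∧ j + pkc U + (contc p).count 1 = k := by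
  refine ⟨(Rd p).1, (Rd p).2, rfl, h, rfl, ?_, ?_, Rd_size p⟩
  · have h1 := Rd_size (Rd p).2
    rw [h] at h1
    exact h1.symm
  · have h1 := pkc_eq (Rd p).2
    rw [h] at h1
    exact h1

theorem ov_total {V : Cyc j2} {p : Cyc k} (h : Rd (Rd p).2 = ⟨j2, V⟩) :
    j2 + 2 * pkc V + 2 * aa p + (contc p).count 1 = k := by
  obtain ⟨j, U, _, _, _, h4, h5, h6⟩ := ov_data h
  omega

theorem ov_cl {V : Cyc j2} {p q : Cyc k} (hp : Rd (Rd p).2 = ⟨j2, V⟩) (hq : Rd (Rd q).2 = ⟨j2, V⟩) :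
    cl p = cl q ↔ aa p = aa q := by
  rw [cl_iff]
  obtain ⟨j, U, a1, _, _, a4, _, _⟩ := ov_data hp
  obtain ⟨j', U', b1, _, _, b4, _, _⟩ := ov_data hq
  rw [hp, hq, a1, b1]
  constructor
  · rintro ⟨h, _⟩
    change j = j' at h
    omega
  · intro h
    refine ⟨?_, rfl⟩
    change j = j'
    omega

theorem cl_ov {V : Cyc j2} {p q : Cyc k} (hp : Rd (Rd p).2 = ⟨j2, V⟩) (h : cl q = cl p) :
    Rd (Rd q).2 = ⟨j2, V⟩ := by
  have h1 := congrArg Prod.fst h
  change Rd (Rd q).2 = Rd (Rd p).2 at h1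
  rw [h1, hp]

/-- a family without beads has one member -/
theorem fam_zero {p q : Cyc k} (h : Rd p = Rd q) (h0 : (contc p).count 1 = 0) : p = q := by
  obtain ⟨u, hu⟩ : ∃ u : X (Rd q).1, cyc u = (Rd q).2 := Quotient.exists_rep _
  have hq : Rd q = ⟨(Rd q).1, cyc u⟩ := by rw [hu]
  have hp : Rd p = ⟨(Rd q).1, cyc u⟩ := by rw [h, hu]
  obtain ⟨i, e, w, hw, he, hwe, h1, h2⟩ := Rd_fibre u hp
  obtain ⟨i', e', w', hw', he', hwe', h1', h2'⟩ := Rd_fibre u hq
  have h3 : (contc q).count 1 = 0 := by rw [← Rd_count h]; exact h0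
  have key : ∀ e : List ℕ, e.length = 2 * (Rd q).1 + 1 → e.sum = 0 →
      e = lf (fun _ : ZMod (2 * (Rd q).1 + 1) => 0) := by
    intro e he hs
    rw [lf_zero, List.eq_replicate_iff]
    refine ⟨he, fun x hx => ?_⟩
    have := List.single_le_sum (by simp) x hx
    omega
  rw [key e he (by omega)] at hwe
  rw [key e' he' (by omega)] at hwe'
  have e1 : ∀ (n : ℕ) (w : X k), w.1 = ins ((TT ^ n) u).1 (lf (fun _ : ZMod (2 * (Rd q).1 + 1) => 0)) →
      ∃ w0 : X k, w0.1 = ins u.1 (lf (fun _ : ZMod (2 * (Rd q).1 + 1) => 0)) ∧ cyc w0 = cyc w := by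
    intro n w hw
    obtain ⟨w0, hw0⟩ : ∃ w0 : X k, w0.1 = ins u.1 (lf (fun _ : ZMod (2 * (Rd q).1 + 1) => 0)) := by
      have h4 := (ins_num u.1 (lf (fun _ : ZMod (2 * (Rd q).1 + 1) => 0)) (by rw [lf_length, X_num])).1
      rw [lf_sum, X_num, Finset.sum_const_zero] at h4
      exact ⟨⟨_, mem_treesOfNumNodesEq.2 (by rw [h4]; omega)⟩, rfl⟩
    refine ⟨w0, hw0, ?_⟩
    rw [← cyc_pow' w0 n]
    congr 1
    apply Subtype.ext
    rw [word_pow hw0, hw]
  obtain ⟨w0, g1, g2⟩ := e1 i w hwe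
  obtain ⟨w0', g1', g2'⟩ := e1 i' w' hwe'
  rw [← hw, ← hw', ← g2, ← g2']
  congr 1
  exact Subtype.ext (g1.trans g1'.symm)

variable {τp τw : Type} {Pp : τp → Set (Cyc k) → DG k → Prop} {Pw : τw → Set (Cyc k) → DG k → Prop}
  {AE : Cyc k → Cyc k → Prop}

/-- **THE CLASS `(V; a, 0)`**: pairs over the hops of the second level, at most one guest over `U0` -/
theorem r2_cls {p0 : Cyc k} {U1 : Cyc j} (hp0 : Rd p0 = ⟨j, U1⟩) (hk : j + pkc U1 = k) (Xs : Set (Cyc k))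
    (jv : ∀ U U' : Cyc j, Rd U = Rd U1 → Rd U' = Rd U1 → U ≠ U' → HopC U U' →
      ∃ p q : Cyc k, Rd p = ⟨j, U⟩ ∧ Rd q = ⟨j, U'⟩ ∧ Typd Pp Pw {p, q})
    (U0 : Cyc j) (hU0 : Rd U0 = Rd U1) (h2 : (contc U0).count 1 = 2 → oddF (Rd U0).1 2 → IsTwo U0)
    (hX : ∀ c, cl c = cl p0 → (c ∈ Xs ↔ Rd c = ⟨j, U0⟩ ∧ oddF (Rd U0).1 ((contc U0).count 1))) :
    ∃ Gp Gw, ClsOK AE (cl p0) Xs Gp Gw Pp Pw := by
  obtain ⟨I, hI⟩ := remOK_lo (Rd U0) U0 rfl h2
  rw [hU0] at hI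
  have hc0 : ∀ (p : Cyc k) (U : Cyc j), Rd p = ⟨j, U⟩ → Rd U = Rd U1 → (contc p).count 1 = 0 := by
    intro p U hp hU
    exact count_class (m := 0) hp0 (by omega) hp hU
  have hmem : ∀ U, Rd U = Rd U1 → I U ≠ U → ∀ c, Rd c = ⟨j, U⟩ → c ∉ Xs := by
    intro U hU hne c hc h
    obtain ⟨h3, h4⟩ := (hX c (cl_same hp0 hc hU)).1 h
    rw [hc] at h3
    have h5 : U = U0 := eq_of_heq (Sigma.mk.inj_iff.1 h3).2
    apply hne
    rw [(hI U hU).2.2.2]
    change U = U0 ∧ _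
    rw [← hU0]
    exact ⟨h5, h4⟩
  refine cls_of_inv' hp0 Xs I (fun U hU => ⟨(hI U hU).1, (hI U hU).2.1⟩) ?_ ?_
  · intro U hU hne
    obtain ⟨e1, e2, e3, e4⟩ := hI U hU
    have hne' : I (I U) ≠ I U := by
      rw [e2]
      exact fun h => hne h.symm
    have hhop : HopC U (I U) := by
      rcases e3 with e3 | e3
      · exact absurd e3 hne
      · exact e3
    obtain ⟨p, q, hp, hq, hty⟩ := jv U (I U) hU e1 (fun h => hne h.symm) hhop
    refine Or.inr ⟨p, q, hp, hq, hmem U hU hne p hp, hmem (I U) e1 hne' q hq, hty, ?_, ?_⟩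
    · apply remA_all
      intro c hc
      exact Or.inl (fam_zero (hc.trans hp.symm) (hc0 c U hc hU))
    · apply remA_all
      intro c hc
      exact Or.inl (fam_zero (hc.trans hq.symm) (hc0 c _ hc e1))
  · intro U hU hf
    have h3 := (hI U hU).2.2.2.1 hf
    change U = U0 ∧ _ at h3
    rw [← hU0] at h3
    obtain ⟨rfl, h4⟩ := h3
    refine ⟨∅, fun F h => absurd h (Set.notMem_empty _), fun F h => absurd h (Set.notMem_empty _), ?_⟩
    rw [inG_empty', Set.empty_union]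
    apply remA_all
    intro c hc
    exact (hX c (cl_same hp0 hc hU)).2 ⟨hc, h4⟩

/-! ### Beads at two gaps -/

/-- `a` beads in the gap number `x`, `b` in the gap number `y` -/
def ev {n : ℕ} (x a y b : ℕ) : ZMod n → ℕ := fun z => (if z.val = x then a else 0) +
  if z.val = y then b else 0

theorem ev_append {x a y b : ℕ} (hx : x < 2 * i + 1) (hy : y < 2 * i + 1) :
    lf (ev x a y b : ZMod (2 * i + 1) → ℕ) ++ [0, 0] =
      lf (ev x a y b : ZMod (2 * (i + 1) + 1) → ℕ) := by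
  apply lf_of_getD
  · rw [List.length_append, lf_length]
    simp
    ring
  · intro z
    have hz := ZMod.val_lt z
    rcases Nat.lt_or_ge z.val (2 * i + 1) with h | h
    · rw [List.getD_append _ _ _ _ (by rw [lf_length]; exact h)]
      have h1 : ((z.val : ℕ) : ZMod (2 * i + 1)).val = z.val := ZMod.val_natCast_of_lt h
      have h2 := lf_getD (ev x a y b : ZMod (2 * i + 1) → ℕ) ((z.val : ℕ) : ZMod (2 * i + 1))
      rw [h1] at h2
      rw [h2]
      unfold ev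
      rw [h1]
    · rw [List.getD_append_right _ _ _ _ (by rw [lf_length]; exact h), lf_length]
      unfold ev
      rw [if_neg (by omega), if_neg (by omega)]
      have h3 : z.val - (2 * i + 1) = 0 ∨ z.val - (2 * i + 1) = 1 := by omega
      rcases h3 with h3 | h3
      · rw [h3]; rfl
      · rw [h3]; rfl

theorem ev_cast {n : ℕ} (x a y b : ℕ) (hx : x < 2 * n + 1) (hy : y < 2 * n + 1) :
    (ev x a y b : ZMod (2 * n + 1) → ℕ) = fun z => (if z = (x : ZMod (2 * n + 1)) then a else 0) +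
      if z = (y : ZMod (2 * n + 1)) then b else 0 := by
  funext z
  unfold ev
  simp only [val_eq_iff z hx, val_eq_iff z hy]

theorem ev_sum {n : ℕ} (x a y b : ℕ) (hx : x < 2 * n + 1) (hy : y < 2 * n + 1) :
    ∑ z, (ev x a y b : ZMod (2 * n + 1) → ℕ) z = a + b := by
  rw [ev_cast x a y b hx hy, Finset.sum_add_distrib, Finset.sum_ite_eq' univ _ (fun _ => a),
    Finset.sum_ite_eq' univ _ (fun _ => b), if_pos (mem_univ _), if_pos (mem_univ _)]

/-- one more square at the end -/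
theorem sq_back (v : X j2) (a : ℕ) :
    ins v.1 (lf fun z : ZMod (2 * j2 + 1) => if z = -1 then a + 1 else 0) =
      app (ins v.1 (lf fun z : ZMod (2 * j2 + 1) => if z = -1 then a else 0)) (.nil △ .nil) := by
  rw [← ins_back]
  congr 2
  funext z
  by_cases h : z = -1
  · simp [h]
  · simp [h]

/-- **THE K LINK** over `r = C(v, a δ_(-1))` with the beads `e` -/
theorem k_link (v : X j2) (a : ℕ) (hi : 1 ≤ i) (r : X i)
    (hr : r.1 = ins v.1 (lf fun z : ZMod (2 * j2 + 1) => if z = -1 then a else 0))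
    {x b y c : ℕ} (hx : x < 2 * i + 1) (hy : y < 2 * i + 1) (hk : i + pkn r.1 + (b + c) + 2 = k) :
    ∃ (r' : X (i + 1)) (wz wt : X k) (g : DG k),
      r'.1 = ins v.1 (lf fun z : ZMod (2 * j2 + 1) => if z = -1 then a + 1 else 0) ∧
      cyc wz ≠ cyc wt ∧ TyK (ins r.1 (lf (ev x b y c : ZMod (2 * i + 1) → ℕ))) {cyc wz, cyc wt} g ∧
      wz.1 = ins r'.1 (lf (ev x b y c : ZMod (2 * (i + 1) + 1) → ℕ)) ∧
      wt.1 = ins r.1 (lf fun z : ZMod (2 * i + 1) => (ev x b y c : ZMod (2 * i + 1) → ℕ) z +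
        if z = 0 then 2 else 0) ∧
      Rd (cyc wz) = ⟨i + 1, cyc r'⟩ ∧ Rd (cyc wt) = ⟨i, cyc r⟩ ∧ Rd (cyc r') = ⟨j2, cyc v⟩ ∧
      Rd (cyc r) = ⟨j2, cyc v⟩ := by
  obtain ⟨wz, wt, g, h1, h2, h3, h4, _⟩ := k_words (k := k) hi r (ev x b y c)
    (by rw [ev_sum x b y c hx hy]; exact hk)
  obtain ⟨r', hr'⟩ : ∃ r' : X (i + 1), r'.1 = app r.1 (.nil △ .nil) :=
    ⟨⟨_, mem_treesOfNumNodesEq.2 (by rw [num_app, X_num]; rfl)⟩, rfl⟩
  have hr2 : r'.1 = ins v.1 (lf fun z : ZMod (2 * j2 + 1) => if z = -1 then a + 1 else 0) := by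
    rw [sq_back, hr', hr]
  rw [← hr', ev_append hx hy] at h3
  exact ⟨r', wz, wt, g, hr2, h1, h2, h3, h4, Rd_ins (lf_length _) h3, Rd_ins (lf_length _) h4,
    Rd_ins (lf_length _) hr2, Rd_ins (lf_length _) hr⟩

end Pool.OddHC
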