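import Pool.Agent.Work.MP_8f87b2_fin.ClsInv
import Pool.Agent.Work.MP_8f87b2_mid.Rank3

/-!
# The frame of the final instance (for `PlanR`)

`ClsReg P K`: the T-cycles of the classes of `K` are cut into groups with a type of `P`. `RegOK P S`: all classes over a set
`S` of doubly reduced T-cycles. `iUnion`: regions put together. `grp`: `GrpOK N G P`, the part of `PlanR` without the rank.
-/

set_option autoImplicit false

namespace Pool.OddHC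

open Finset Equiv Pool.Agent.Work.MP_8f87b2_co

variable {k : ℕ} {τ : Type}

/-- a pair with a type -/
def AEP (P : τ → Set (Cyc k) → DG k → Prop) (p q : Cyc k) : Prop := p ≠ q ∧ ∃ t g, P t {p, q} g

/-- **A SET OF CLASSES**. `Xs`: the groups over several classes -/
def ClsReg (P : τ → Set (Cyc k) → DG k → Prop) (K : Set (RD × Multiset ℕ)) : Prop :=
  ∃ Xs : Set (Set (Cyc k)), (∀ F ∈ Xs, F.Nonempty ∧ Typd P P F ∧ ∀ c ∈ F, cl c ∈ K) ∧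
    (∀ F ∈ Xs, ∀ F' ∈ Xs, ∀ c, c ∈ F → c ∈ F' → F = F') ∧
    ∀ p0 : Cyc k, cl p0 ∈ K → ∃ Gp Gw, ClsOK (AEP P) (cl p0) (inG Xs) Gp Gw P P

/-- **A REGION**: a set `S` of doubly reduced T-cycles -/
def RegOK (P : τ → Set (Cyc k) → DG k → Prop) (S : Set RD) : Prop := ClsReg P {κ | κ.1 ∈ S}

variable {P : τ → Set (Cyc k) → DG k → Prop}

theorem ClsOK.congr {τp τw : Type} {AE : Cyc k → Cyc k → Prop} {κ : RD × Multiset ℕ}
    {X X' : Set (Cyc k)} {Gp Gw : Set (Set (Cyc k))} {Pp : τp → Set (Cyc k) → DG k → Prop}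
    {Pw : τw → Set (Cyc k) → DG k → Prop} (h : ClsOK AE κ X Gp Gw Pp Pw)
    (hX : ∀ c, cl c = κ → (c ∈ X ↔ c ∈ X')) : ClsOK AE κ X' Gp Gw Pp Pw := by
  refine ⟨h.ne, fun F hF c hc => ?_, h.one, h.pw, h.exp, h.exw, fun p hp => ?_⟩
  · obtain ⟨h1, h2⟩ := h.sub F hF c hc
    exact ⟨h1, fun h3 => h2 ((hX c h1).2 h3)⟩
  · refine (h.rem p hp).congr fun q hq => ?_
    have h1 := hX q ((cl_fam hq).trans hp)
    constructor
    · rintro (h2 | h2)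
      · exact Or.inl h2
      · exact Or.inr (h1.1 h2)
    · rintro (h2 | h2)
      · exact Or.inl h2
      · exact Or.inr (h1.2 h2)

/-- **sets of classes put together** -/
theorem ClsReg.iUnion {ι : Type} {K : ι → Set (RD × Multiset ℕ)}
    (hd : ∀ i i' d, d ∈ K i → d ∈ K i' → i = i')
    (h : ∀ i, ClsReg P (K i)) : ClsReg P {d | ∃ i, d ∈ K i} := by
  choose Xs h1 h2 h3 using h
  refine ⟨{F | ∃ i, F ∈ Xs i}, ?_, ?_, ?_⟩
  · rintro F ⟨i, hF⟩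
    obtain ⟨a1, a2, a3⟩ := h1 i F hF
    exact ⟨a1, a2, fun c hc => ⟨i, a3 c hc⟩⟩
  · rintro F ⟨i, hF⟩ F' ⟨i', hF'⟩ c hc hc'
    have e1 := (h1 i F hF).2.2 c hc
    have e2 := (h1 i' F' hF').2.2 c hc'
    obtain rfl := hd i i' _ e1 e2
    exact h2 i F hF F' hF' c hc hc'
  · rintro p0 ⟨i, hi⟩
    obtain ⟨Gp, Gw, hC⟩ := h3 i p0 hi
    refine ⟨Gp, Gw, hC.congr fun c hc => ?_⟩
    rw [← hc] at hi
    constructor
    · rintro ⟨F, hF, hcF⟩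
      exact ⟨F, ⟨i, hF⟩, hcF⟩
    · rintro ⟨F, ⟨i', hF⟩, hcF⟩
      obtain rfl := hd i i' _ hi ((h1 i' F hF).2.2 c hcF)
      exact ⟨F, hF, hcF⟩

/-- only the classes which occur matter -/
theorem ClsReg.congr {K K' : Set (RD × Multiset ℕ)} (h : ClsReg P K)
    (hK : ∀ p : Cyc k, cl p ∈ K ↔ cl p ∈ K') : ClsReg P K' := by
  obtain ⟨Xs, h1, h2, h3⟩ := h
  refine ⟨Xs, fun F hF => ?_, h2, fun p0 hp0 => h3 p0 ((hK p0).2 hp0)⟩
  obtain ⟨a1, a2, a3⟩ := h1 F hF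
  exact ⟨a1, a2, fun c hc => (hK c).1 (a3 c hc)⟩

/-- two sets of classes -/
theorem ClsReg.union {K K' : Set (RD × Multiset ℕ)} (h : ClsReg P K) (h' : ClsReg P K')
    (hd : ∀ κ ∈ K, κ ∉ K') : ClsReg P (K ∪ K') := by
  refine (ClsReg.iUnion (P := P) (K := fun b : Bool => if b then K else K') ?_ ?_).congr ?_
  · rintro (_ | _) (_ | _) d h1 h2
    · rfl
    · exact absurd h1 (hd d h2)
    · exact absurd h2 (hd d h1)
    · rfl
  · rintro (_ | _)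
    · exact h'
    · exact h
  · intro p
    constructor
    · rintro ⟨_ | _, h1⟩
      · exact Or.inr h1
      · exact Or.inl h1
    · rintro (h1 | h1)
      · exact ⟨true, h1⟩
      · exact ⟨false, h1⟩

/-- classes without groups over several classes -/
theorem ClsReg.single {K : Set (RD × Multiset ℕ)}
    (h : ∀ p0 : Cyc k, cl p0 ∈ K → ∃ Gp Gw, ClsOK (AEP P) (cl p0) ∅ Gp Gw P P) : ClsReg P K := by
  refine ⟨∅, fun F hF => absurd hF (Set.notMem_empty _), fun F hF => absurd hF (Set.notMem_empty _),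
    fun p0 hp0 => ?_⟩
  obtain ⟨Gp, Gw, hC⟩ := h p0 hp0
  refine ⟨Gp, Gw, hC.congr fun c _ => ?_⟩
  constructor
  · intro h1
    exact absurd h1 (Set.notMem_empty _)
  · rintro ⟨F, hF, _⟩
    exact absurd hF (Set.notMem_empty _)

/-- **regions put together** -/
theorem RegOK.iUnion {ι : Type} {S : ι → Set RD} (hd : ∀ i i' d, d ∈ S i → d ∈ S i' → i = i')
    (h : ∀ i, RegOK P (S i)) : RegOK P {d | ∃ i, d ∈ S i} :=
  ClsReg.iUnion (K := fun i => {κ | κ.1 ∈ S i}) (fun i i' d h1 h2 => hd i i' d.1 h1 h2) h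

/-- **the groups of the plan** without the rank -/
structure GrpOK (N : Set (Cyc k)) (G : Set (Set (Cyc k))) (P : τ → Set (Cyc k) → DG k → Prop) : Prop where
  ne : ∀ F ∈ G, F.Nonempty
  sub : ∀ F ∈ G, ∀ c ∈ F, c ∈ N
  cov : ∀ c ∈ N, ∃ F ∈ G, c ∈ F
  one : ∀ F ∈ G, ∀ F' ∈ G, ∀ c, c ∈ F → c ∈ F' → F = F'
  ex : ∀ F ∈ G, ∃ t g, P t F g

/-- **from a set of classes to the groups** -/
theorem ClsReg.grp {K : Set (RD × Multiset ℕ)} (h : ClsReg P K) :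
    ∃ G, GrpOK {p : Cyc k | cl p ∈ K} G P := by
  classical
  obtain ⟨Xs, h1, h2, h3⟩ := h
  obtain ⟨N, hN⟩ : ∃ N, N = {p : Cyc k | cl p ∈ K} := ⟨_, rfl⟩
  rw [← hN]
  have hN' : ∀ p, p ∈ N ↔ cl p ∈ K := by
    intro p
    rw [hN]
    exact Iff.rfl
  -- the groups of a class
  have h3' : ∀ κ : RD × Multiset ℕ, ∃ G : Set (Set (Cyc k)), (∃ p0 : Cyc k, cl p0 = κ ∧ p0 ∈ N) →
      (∀ F ∈ G, F.Nonempty ∧ (∃ t g, P t F g) ∧ ∀ c ∈ F, cl c = κ ∧ c ∉ inG Xs) ∧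
      (∀ F ∈ G, ∀ F' ∈ G, ∀ c, c ∈ F → c ∈ F' → F = F') ∧
      ∀ p : Cyc k, cl p = κ → RemA (AEP P) (Rd p) (inG G ∪ inG Xs) := by
    intro κ
    by_cases hκ : ∃ p0, cl p0 = κ ∧ p0 ∈ N
    · obtain ⟨p0, rfl, hp0⟩ := hκ
      obtain ⟨Gp, Gw, hC⟩ := h3 p0 ((hN' p0).1 hp0)
      refine ⟨Gp ∪ Gw, fun _ => ⟨fun F hF => ⟨hC.ne F hF, ?_, hC.sub F hF⟩, hC.one, hC.rem⟩⟩
      rcases hF with hF | hF
      · exact hC.exp F hF
      · exact hC.exw F hF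
    · exact ⟨∅, fun h => absurd h hκ⟩
  choose G hG using h3'
  -- all groups which are no pairs of a family
  let A : Set (Set (Cyc k)) := Xs ∪ {F | ∃ p ∈ N, F ∈ G (cl p)}
  have hclN : ∀ p q : Cyc k, cl p = cl q → p ∈ N → q ∈ N := by
    intro p q hpq hp
    rw [hN'] at hp ⊢
    rw [← hpq]
    exact hp
  have hA : ∀ F ∈ A, F.Nonempty ∧ (∃ t g, P t F g) ∧ ∀ c ∈ F, c ∈ N := by
    rintro F (hF | ⟨p, hp, hF⟩)
    · obtain ⟨a1, a2, a3⟩ := h1 F hF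
      refine ⟨a1, ?_, fun c hc => (hN' c).2 (a3 c hc)⟩
      rcases a2 with a2 | a2
      · exact a2
      · exact a2
    · obtain ⟨a1, a2, a3⟩ := (hG (cl p) ⟨p, rfl, hp⟩).1 F hF
      exact ⟨a1, a2, fun c hc => hclN p c (a3 c hc).1.symm hp⟩
  have hcls : ∀ F, ∀ p ∈ N, F ∈ G (cl p) → ∀ c ∈ F, F ∈ G (cl c) ∧ c ∉ inG Xs := by
    intro F p hp hF c hc
    obtain ⟨a1, a2, a3⟩ := (hG (cl p) ⟨p, rfl, hp⟩).1 F hF
    rw [(a3 c hc).1]
    exact ⟨hF, (a3 c hc).2⟩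
  have hAone : ∀ F ∈ A, ∀ F' ∈ A, ∀ c, c ∈ F → c ∈ F' → F = F' := by
    rintro F (hF | ⟨p, hp, hF⟩) F' (hF' | ⟨p', hp', hF'⟩) c hc hc'
    · exact h2 F hF F' hF' c hc hc'
    · exact absurd ⟨F, hF, hc⟩ (hcls F' p' hp' hF' c hc').2
    · exact absurd ⟨F', hF', hc'⟩ (hcls F p hp hF c hc).2
    · have e1 := (hcls F p hp hF c hc).1
      have e2 := (hcls F' p' hp' hF' c hc').1
      have hcN : c ∈ N := (hA F (Or.inr ⟨p, hp, hF⟩)).2.2 c hc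
      exact (hG (cl c) ⟨c, rfl, hcN⟩).2.1 F e1 F' e2 c hc hc'
  -- the involution
  have hr : ∀ d : RD, ∃ ι : Cyc k → Cyc k, (∃ p ∈ N, Rd p = d) → ∀ p, Rd p = d → Rd (ι p) = d ∧
      ι (ι p) = p ∧ (ι p = p ∨ AEP P p (ι p)) ∧ (ι p = p ↔ p ∈ inG A) := by
    intro d
    by_cases hd : ∃ p ∈ N, Rd p = d
    · obtain ⟨p, hp, rfl⟩ := hd
      have h4 := (hG (cl p) ⟨p, rfl, hp⟩).2.2 p rfl
      obtain ⟨ι, hι⟩ := h4.congr (D' := inG A) (fun q hq => by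
        have hcq : cl q = cl p := cl_fam hq
        constructor
        · rintro (⟨F, hF, hqF⟩ | ⟨F, hF, hqF⟩)
          · exact ⟨F, Or.inr ⟨p, hp, hF⟩, hqF⟩
          · exact ⟨F, Or.inl hF, hqF⟩
        · rintro ⟨F, hF | ⟨p', hp', hF⟩, hqF⟩
          · exact Or.inr ⟨F, hF, hqF⟩
          · have e1 := (hcls F p' hp' hF q hqF).1
            rw [hcq] at e1
            exact Or.inl ⟨F, e1, hqF⟩)
      exact ⟨ι, fun _ => hι⟩
    · exact ⟨id, fun h => absurd h hd⟩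
  choose I hI using hr
  let ι : Cyc k → Cyc k := fun p => I (Rd p) p
  have key : ∀ p ∈ N, Rd (ι p) = Rd p ∧ ι (ι p) = p ∧ (ι p = p ∨ AEP P p (ι p)) ∧
      (ι p = p ↔ p ∈ inG A) := by
    intro p hp
    obtain ⟨h1, h2, h3, h4⟩ := hI (Rd p) ⟨p, hp, rfl⟩ p rfl
    refine ⟨h1, ?_, h3, h4⟩
    change I (Rd (ι p)) (I (Rd p) p) = p
    rw [show Rd (ι p) = Rd p from h1]
    exact h2
  have hιN : ∀ p ∈ N, ι p ∈ N := fun p hp => hclN p (ι p) (cl_fam (key p hp).1.symm) hp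
  let E : Set (Set (Cyc k)) := {F | ∃ p ∈ N, p ∉ inG A ∧ F = {p, ι p}}
  have hEN : ∀ F ∈ E, ∀ c ∈ F, c ∈ N ∧ c ∉ inG A ∧ F = {c, ι c} := by
    rintro F ⟨p, hp, hpG, rfl⟩ c (rfl | rfl)
    · exact ⟨hp, hpG, rfl⟩
    · obtain ⟨h1, h2, h3, h4⟩ := key p hp
      obtain ⟨_, _, _, h5⟩ := key _ (hιN p hp)
      refine ⟨hιN p hp, ?_, ?_⟩
      · intro hc
        have h6 := h5.2 hc
        rw [h2] at h6
        exact hpG (h4.1 h6.symm)
      · rw [h2, Set.pair_comm]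
  refine ⟨A ∪ E, ?_, ?_, ?_, ?_, ?_⟩
  · rintro F (hF | ⟨p, hp, _, rfl⟩)
    · exact (hA F hF).1
    · exact ⟨p, Or.inl rfl⟩
  · rintro F (hF | hF) c hc
    · exact (hA F hF).2.2 c hc
    · exact (hEN F hF c hc).1
  · intro c hc
    by_cases hcG : c ∈ inG A
    · obtain ⟨F, hF, hcF⟩ := hcG
      exact ⟨F, Or.inl hF, hcF⟩
    · exact ⟨{c, ι c}, Or.inr ⟨c, hc, hcG, rfl⟩, Or.inl rfl⟩
  · rintro F (hF | hF) F' (hF' | hF') c hc hc'
    · exact hAone F hF F' hF' c hc hc'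
    · exact absurd ⟨F, hF, hc⟩ (hEN F' hF' c hc').2.1
    · exact absurd ⟨F', hF', hc'⟩ (hEN F hF c hc).2.1
    · rw [(hEN F hF c hc).2.2, (hEN F' hF' c hc').2.2]
  · rintro F (hF | ⟨p, hp, hpG, rfl⟩)
    · exact (hA F hF).2.1
    · obtain ⟨h1, h2, h3, h4⟩ := key p hp
      rcases h3 with h3 | ⟨_, h5⟩
      · exact absurd (h4.1 h3) hpG
      · exact h5

theorem RegOK.grp {S : Set RD} (h : RegOK P S) : ∃ G, GrpOK {p : Cyc k | Rd (Rd p).2 ∈ S} G P :=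
  ClsReg.grp h

end Pool.OddHC
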