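import Pool.Agent.Work.MP_8f87b2_fin.Blk1
import Pool.Agent.Work.MP_8f87b2_fin.Frame

/-!
# The classes over one `V`: interfaces

`vcl k V a`: the class `(V; a, m)`, `j2 + 2 |V| + 2 a + m = k`. `NodeW`: a window pile over pile. `JVC`: the class `(V; a, 0)`
with a prescribed set left to other groups. `TopJ`: a group of the classes `(V; a, 2)`, `(V; a+1, 0)` with an edge of the rows
0, 1 (J3V, J5V). `KPh`: a phase of `V` with a K link.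
-/

set_option autoImplicit false

namespace Pool.OddHC

open Finset BinaryTree Multiset Pool.OddHop

variable {i j j2 k : ℕ} {τ : Type}

/-- the class over `V` with `a` beads on the second level -/
def vcl (k : ℕ) (V : Cyc j2) (a : ℕ) : Set (RD × Multiset ℕ) :=
  {κ | ∃ p : Cyc k, cl p = κ ∧ Rd (Rd p).2 = ⟨j2, V⟩ ∧ aa p = a}

theorem mem_vcl {V : Cyc j2} {p : Cyc k} {a : ℕ} :
    cl p ∈ vcl k V a ↔ Rd (Rd p).2 = ⟨j2, V⟩ ∧ aa p = a := by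
  constructor
  · rintro ⟨q, h1, h2, h3⟩
    have h4 := cl_ov h2 h1.symm
    exact ⟨h4, ((ov_cl h4 h2).1 h1.symm).trans h3⟩
  · rintro ⟨h1, h2⟩
    exact ⟨p, rfl, h1, h2⟩

theorem vcl_iff {V : Cyc j2} {p : Cyc k} {U : Cyc j} {a : ℕ} (hp : Rd p = ⟨j, U⟩)
    (hU : Rd U = ⟨j2, V⟩) : cl p ∈ vcl k V a ↔ j = j2 + pkc V + a := by
  have h0 : Rd (Rd p).2 = ⟨j2, V⟩ := by rw [hp]; exact hU
  obtain ⟨j', U', a1, a2, a3, a4, a5, a6⟩ := ov_data h0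
  rw [hp] at a1
  obtain ⟨rfl, _⟩ := Sigma.mk.inj_iff.1 a1
  rw [mem_vcl]
  constructor
  · rintro ⟨_, h⟩
    omega
  · intro h
    exact ⟨h0, by omega⟩

/-- the data of a member of the class -/
theorem vcl_data {V : Cyc j2} {p : Cyc k} {a m : ℕ} (hk : j2 + 2 * pkc V + 2 * a + m = k)
    (h : cl p ∈ vcl k V a) (hj : j = j2 + pkc V + a) : ∃ U : Cyc j, Rd p = ⟨j, U⟩ ∧
      Rd U = ⟨j2, V⟩ ∧ (contc U).count 1 = a ∧ pkc U = pkc V + a ∧ j + pkc U + m = k := by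
  obtain ⟨h1, h2⟩ := mem_vcl.1 h
  obtain ⟨j', U', a1, a2, a3, a4, a5, a6⟩ := ov_data h1
  obtain rfl : j' = j := by omega
  exact ⟨U', a1, a2, by omega, by omega, by omega⟩

theorem vcl_same {V : Cyc j2} {p q : Cyc k} {a : ℕ} (hp : cl p ∈ vcl k V a) :
    cl q = cl p ↔ cl q ∈ vcl k V a := by
  constructor
  · intro h
    rw [h]
    exact hp
  · intro h
    obtain ⟨h1, h2⟩ := mem_vcl.1 hp
    obtain ⟨h3, h4⟩ := mem_vcl.1 h
    exact (ov_cl h3 h1).2 (h4.trans h2.symm)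

/-- **A WINDOW, PILE OVER PILE**: one group `{cyc w}` -/
def NodeW (k : ℕ) (V : Cyc j2) (Ty : Set (Cyc k) → Prop) (a m : ℕ) : Prop :=
  ∃ (j : ℕ) (v : X j2) (x2 : ZMod (2 * j2 + 1)) (u : X j) (x : ZMod (2 * j + 1)) (w : X k),
    cyc v = V ∧ u.1 = ins v.1 (lf fun y => if y = x2 then a else 0) ∧
    w.1 = ins u.1 (lf fun y => if y = x then m else 0) ∧ Ty {cyc w}

/-- **the class `(V; a, 0)`** with the T-cycles of `X` left to other groups -/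
def JVC (P : τ → Set (Cyc k) → DG k → Prop) (V : Cyc j2) (a : ℕ) (Y : Set (Cyc k)) : Prop :=
  ∀ (p0 : Cyc k) (Xs : Set (Cyc k)), cl p0 ∈ vcl k V a → (∀ c, cl c = cl p0 → (c ∈ Xs ↔ c ∈ Y)) →
    ∃ Gp Gw, ClsOK (AEP P) (cl p0) Xs Gp Gw P P

/-- **the class `(V; a, 0)` for K links**: any T-cycle `z` over a pile of `a` beads may be left out (`|F(V, a)|` odd) -/
def JVK (P : τ → Set (Cyc k) → DG k → Prop) (V : Cyc j2) (a : ℕ) : Prop :=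
  ∀ (j : ℕ) (v : X j2) (x : ZMod (2 * j2 + 1)) (u : X j) (z : Cyc k), cyc v = V →
    u.1 = ins v.1 (lf fun y => if y = x then a else 0) → Rd z = ⟨j, cyc u⟩ → oddF j2 a → JVC P V a {z}

/-- **J3V / J5V**: one group of the classes `(V; a, 2)` and `(V; a+1, 0)` -/
def TopJ (P : τ → Set (Cyc k) → DG k → Prop) (V : Cyc j2) (a : ℕ) : Prop :=
  ∃ (F : Set (Cyc k)) (j : ℕ) (u : X j) (hk : j + pkn u.1 + 2 = k) (x : ZMod (2 * j + 1)) (s : Bool),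
    Typd P P F ∧ (∀ c ∈ F, cl c ∈ vcl k V a ∪ vcl k V (a + 1)) ∧
    Rd (cyc u) = ⟨j2, V⟩ ∧ j = j2 + pkc V + a ∧ ((contc (cyc u)).count 1 = 2 → IsTwo (cyc u)) ∧
    (∀ c, cl c ∈ vcl k V a → (c ∈ F ↔ c = tc u hk x 0 ∨ c = tc u hk (mate s x) 1)) ∧
    JVC P V (a + 1) F

/-- **a phase of `V` for a K link** `S = C(r, e)`, `r = C(v, a δ_(-1))`, `b` beads in the gap `x`, `c` beads in the gap `y` -/
def KPh (V : Cyc j2) (KS : BinaryTree Unit → Prop) (a x b y c : ℕ) : Prop :=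
  ∃ v : X j2, cyc v = V ∧ KS (ins (ins v.1 (lf fun z : ZMod (2 * j2 + 1) => if z = -1 then a else 0))
    (lf (ev x b y c : ZMod (2 * (j2 + pkc V + a) + 1) → ℕ)))

/-- the near pile over every phase -/
def KNr (V : Cyc j2) (KS : BinaryTree Unit → Prop) (m : ℕ) : Prop :=
  ∀ v : X j2, cyc v = V → KS (ins (ins v.1 (lf fun z : ZMod (2 * j2 + 1) => if z = -1 then 0 else 0))
    (lf (ev (2 * (j2 + pkc V) - 1) 1 (2 * (j2 + pkc V)) (m - 1) : ZMod (2 * (j2 + pkc V + 0) + 1) → ℕ)))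

/-- **what is needed over one `V`** -/
structure NodeEnv (P : τ → Set (Cyc k) → DG k → Prop) (V : Cyc j2) (KS : BinaryTree Unit → Prop) : Prop where
  /-- hops of the families are E pairs, L pairs have a type -/
  env : ∀ p0 : Cyc k, Rd (Rd p0).2 = ⟨j2, V⟩ → ClsEnv (AEP P) P P (cl p0)
  /-- windows -/
  win : ∀ a m, 1 ≤ a → 1 ≤ m → j2 + 2 * pkc V + 2 * a + m = k → NodeW k V (Typd P P) a m
  /-- K links have a type -/
  kty : ∀ S F g, KS S → TyK S F g → (∀ c ∈ F, Rd (Rd c).2 = ⟨j2, V⟩) → Typd P P F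
  /-- K0, `M = 2` -/
  k0 : j2 + 2 * pkc V + 2 = k → oddF (j2 + pkc V) 2 → KPh V KS 0 0 0 0 0
  /-- K1, `M = 3` -/
  k1 : j2 + 2 * pkc V + 3 = k → oddF (j2 + pkc V) 3 →
    ∃ x, x < 2 * (j2 + pkc V) + 1 ∧ KPh V KS 0 x 1 0 0
  /-- K2', `M = 4` : level at least 2 -/
  k2 : j2 + 2 * pkc V + 4 = k → oddF (j2 + pkc V) 4 → oddF (j2 + pkc V + 1) 2 →
    ∃ x l, 1 ≤ l ∧ 2 * l ≤ j2 + pkc V + 1 ∧ x + 2 * l = 2 * (j2 + pkc V) ∧
      KPh V KS 0 x 1 (2 * (j2 + pkc V)) 1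
  /-- K2, `M ≥ 5` -/
  kp : ∀ m, 3 ≤ m → j2 + 2 * pkc V + m + 2 = k → oddF (j2 + pkc V) (m + 2) →
    oddF (j2 + pkc V + 1) m → ∃ x b y c, x < 2 * (j2 + pkc V) + 1 ∧ y < 2 * (j2 + pkc V) + 1 ∧
      b + c = m ∧ KPh V KS 0 x b y c
  /-- K3, `M ≥ 4` -/
  kn : ∀ m, 2 ≤ m → j2 + 2 * pkc V + m + 2 = k → oddF (j2 + pkc V) (m + 2) →
    ¬ oddF (j2 + pkc V + 1) m → KNr V KS m
  /-- K4 -/
  k4 : ∀ a, 1 ≤ a → j2 + 2 * pkc V + 2 * a + 2 = k → oddF j2 (a + 1) → KPh V KS a 0 0 0 0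
  /-- the class `(V; a, 0)` -/
  jvk : ∀ a, 1 ≤ a → j2 + 2 * pkc V + 2 * a = k → JVK P V a
  jv0 : ∀ a, 1 ≤ a → j2 + 2 * pkc V + 2 * a = k → ¬ oddF j2 a → JVC P V a ∅
  /-- J3V or J5V -/
  j3 : ∀ a, j2 + 2 * pkc V + 2 * a + 2 = k → oddF j2 (a + 1) →
    (a = 0 → ¬ oddF (j2 + pkc V) 2) → (2 ≤ a → ¬ (oddF j2 a ∧ oddF (j2 + pkc V + a) 2)) →
    (a = 1 → (oddF j2 a ∧ oddF (j2 + pkc V + a) 2 ↔ oddF (j2 + pkc V) 4)) → TopJ P V a

variable {P : τ → Set (Cyc k) → DG k → Prop} {V : Cyc j2}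

/-- sizes in `NodeW` -/
theorem NodeW.data {Ty : Set (Cyc k) → Prop} {a m : ℕ} (h : NodeW k V Ty a m) (hj : j = j2 + pkc V + a) :
    ∃ (v : X j2) (x2 : ZMod (2 * j2 + 1)) (u : X j) (x : ZMod (2 * j + 1)) (w : X k),
      cyc v = V ∧ u.1 = ins v.1 (lf fun y => if y = x2 then a else 0) ∧
      w.1 = ins u.1 (lf fun y => if y = x then m else 0) ∧ Ty {cyc w} ∧ Rd (cyc w) = ⟨j, cyc u⟩ ∧
      Rd (cyc u) = ⟨j2, V⟩ ∧ IsPile (cyc u) ∧ IsPile (cyc w) := by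
  obtain ⟨j', v, x2, u, x, w, h1, h2, h3, h4⟩ := h
  have h5 := word_phi h2
  rw [Finset.sum_ite_eq' univ x2 (fun _ => a), if_pos (mem_univ _)] at h5
  have h6 : pkn v.1 = pkc V := by rw [← pkc_cyc, h1]
  obtain rfl : j' = j := by omega
  exact ⟨v, x2, u, x, w, h1, h2, h3, h4, Rd_ins (lf_length _) h3,
    by rw [← h1]; exact Rd_ins (lf_length _) h2, ⟨j2, v, x2, a, u, rfl, h2⟩, ⟨j', u, x, m, w, rfl, h3⟩⟩

/-- **PART: one class with a window or nothing** -/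
theorem part_win (a m : ℕ) (ha : 1 ≤ a) (hm : 1 ≤ m) (hk : j2 + 2 * pkc V + 2 * a + m = k)
    (env : ∀ p0 : Cyc k, Rd (Rd p0).2 = ⟨j2, V⟩ → ClsEnv (AEP P) P P (cl p0))
    (win : NodeW k V (Typd P P) a m) : ClsReg P (vcl k V a : Set (RD × Multiset ℕ)) := by
  refine ClsReg.single fun p0 hp0 => ?_
  obtain ⟨U1, a1, a2, a3, a4, a5⟩ := vcl_data (j := j2 + pkc V + a) hk hp0 rfl
  obtain ⟨v, x2, u, x, w, b1, b2, b3, b4, b5, b6, b7, b8⟩ := win.data (j := j2 + pkc V + a) rfl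
  have hE := env p0 (mem_vcl.1 hp0).1
  have hRU : Rd (cyc u) = Rd U1 := by rw [b6, a2]
  refine r1_win hE a1 hm a5 (fun c hc => absurd hc (Set.notMem_empty _)) (cyc w) (cyc u) hRU b5
    (fun h => b7.two h) (fun h => b8.two ?_) b4
  rw [count_class a1 a5 b5 hRU, h]

/-- **PART: the class `(V; 0, m)` of even size** -/
theorem part_even (m : ℕ) (hm : 1 ≤ m) (hk : j2 + 2 * pkc V + m = k)
    (env : ∀ p0 : Cyc k, Rd (Rd p0).2 = ⟨j2, V⟩ → ClsEnv (AEP P) P P (cl p0))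
    (ho : ¬ oddF (j2 + pkc V) m) : ClsReg P (vcl k V 0 : Set (RD × Multiset ℕ)) := by
  refine ClsReg.single fun p0 hp0 => ?_
  obtain ⟨U1, a1, a2, a3, a4, a5⟩ := vcl_data (j := j2 + pkc V) (m := m) (by omega) hp0 rfl
  have hE := env p0 (mem_vcl.1 hp0).1
  refine r1_set_even hE a1 hm a5 ho ∅ U1 rfl (fun c hc => absurd hc (Set.notMem_empty _))
    (fun c _ => Iff.rfl) (fun h => by omega) ∅ (fun c hc => absurd hc (Set.notMem_empty _)) (Or.inl rfl) ?_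
  rw [Set.empty_union]
  exact remOK_even _ m (fun p hp => count_class a1 a5 hp rfl) ho

end Pool.OddHC
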