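import Pool.Agent.Work.MP_8f87b2_fin.PartM4

/-!
# The classes `(V; 0, m+2)` (odd) and `(V; 1, m)` (even): K3

`part_k3`: window `cyc w` at the pile of the class `(V; 1, m)`, the K link whose member `z` is the near pile, `t` in the class
`(V; 0, m+2)`.
-/

set_option autoImplicit false

namespace Pool.OddHC

open Finset BinaryTree Multiset Pool.OddHop

variable {i j j2 k : ℕ} {τ : Type} {P : τ → Set (Cyc k) → DG k → Prop} {V : Cyc j2}
  {KS : BinaryTree Unit → Prop}

/-- pile and near pile are different, `m ≥ 3` -/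
theorem cyc_pile_ne_near {m : ℕ} (hj : 1 ≤ j) {u : X j} (hm : 3 ≤ m) {x y : ZMod (2 * j + 1)} (hy : y ≠ x)
    {p q : X k} (hp : p.1 = ins u.1 (lf fun z => if z = x then m else 0))
    (hq : q.1 = ins u.1 (lf fun z => (if z = x then m - 1 else 0) + if z = y then 1 else 0)) :
    cyc p ≠ cyc q := by
  have hk : j + pkn u.1 + m = k := by
    have h0 := word_phi hp
    have h1 : ∑ z : ZMod (2 * j + 1), (if z = x then m else 0) = m := (pileMs m x).2
    rwa [h1] at h0
  obtain ⟨g, hg, F, hinj, hF, -, -, -, -⟩ := family_rem hj u m hk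
  have e1 : F (Quotient.mk _ (pileMs m x)) = cyc p := hF _ _ hp
  have e2 : F (Quotient.mk _ (nearMs (by omega) x y)) = cyc q := hF _ _ hq
  intro h
  rw [← e1, ← e2] at h
  exact pile_ne_near hg hm x y hy (hinj h)

/-- **PART K3**: the class `(V; 0, m+2)` is odd, the class `(V; 1, m)` is even -/
theorem part_k3 (m : ℕ) (hm : 2 ≤ m) (hk : j2 + 2 * pkc V + m + 2 = k) (hi : 1 ≤ j2 + pkc V)
    (env : ∀ p0 : Cyc k, Rd (Rd p0).2 = ⟨j2, V⟩ → ClsEnv (AEP P) P P (cl p0))
    (kty : ∀ S F g, KS S → TyK S F g → (∀ c ∈ F, Rd (Rd c).2 = ⟨j2, V⟩) → Typd P P F)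
    (h1 : oddF (j2 + pkc V) (m + 2)) (h2 : ¬ oddF (j2 + pkc V + 1) m) (kn : KNr V KS m)
    (win : NodeW k V (Typd P P) 1 m) :
    ClsReg P (vcl k V 0 ∪ vcl k V 1 : Set (RD × Multiset ℕ)) := by
  obtain ⟨v, x2, u, x, w, b1, b2, b3, b4, b5, b6, b7, b8⟩ := win.data (j := j2 + pkc V + 1) rfl
  obtain ⟨t, v', u', hv', hu', hu1, hx⟩ := bead_phase v u 1 x2 b2 x (-3)
  have hcv : cyc v' = V := by rw [hv', cyc_pow', b1]
  have hcu : cyc u' = cyc u := by rw [hu', cyc_pow']
  obtain ⟨w', hw'⟩ : ∃ w' : X k, w' = (TT ^ t) w := ⟨_, rfl⟩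
  have hcw : cyc w' = cyc w := by rw [hw', cyc_pow']
  have hw1 : w'.1 = ins u'.1 (lf fun z : ZMod (2 * (j2 + pkc V + 1) + 1) => if z = -3 then m else 0) := by
    rw [hw', word_pow b3, ← hu']
    congr 2
    funext z
    have : (z + sp u t = x) ↔ z = -3 := by
      rw [← hx]
      constructor
      · intro h
        linear_combination h
      · intro h
        rw [h]
        ring
    simp only [this]
  obtain ⟨r, r', wz, wt, g1, g2, g3, g4, g5, g6, g7, g8, g9, g10, g11, g12⟩ :=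
    k_group (k := k) (P := P) (a := 0) (x := 2 * (j2 + pkc V) - 1) (b := 1) (y := 2 * (j2 + pkc V))
      (c := m - 1) (m := m) (by omega) (by omega) (by omega) (by omega) (by omega) v' hcv (kn v' hcv) kty
  have hru : r' = u' := by
    apply Subtype.ext
    rw [g2, hu1]
  subst hru
  -- the near pile
  have e3 : ((2 * (j2 + pkc V) : ℕ) : ZMod (2 * (j2 + pkc V + 1) + 1)) = -3 := by
    have h3 : ((2 * (j2 + pkc V) + 3 : ℕ) : ZMod (2 * (j2 + pkc V + 1) + 1)) = 0 := by
      have h4 : 2 * (j2 + pkc V) + 3 = 2 * (j2 + pkc V + 1) + 1 := by ring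
      rw [h4]
      exact ZMod.natCast_self _
    rw [Nat.cast_add] at h3
    have h5 : ((3 : ℕ) : ZMod (2 * (j2 + pkc V + 1) + 1)) = 3 := by norm_num
    rw [h5] at h3
    linear_combination h3
  have e4 : ((2 * (j2 + pkc V) - 1 : ℕ) : ZMod (2 * (j2 + pkc V + 1) + 1)) = -3 - 1 := by
    have h3 : ((2 * (j2 + pkc V) - 1 + 1 : ℕ) : ZMod (2 * (j2 + pkc V + 1) + 1)) = -3 := by
      rw [← e3]
      congr 1
      omega
    rw [Nat.cast_add, Nat.cast_one] at h3
    linear_combination h3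
  have hwz : wz.1 = ins r'.1 (lf fun z : ZMod (2 * (j2 + pkc V + 1) + 1) =>
      (if z = -3 then m - 1 else 0) + if z = -3 - 1 then 1 else 0) := by
    rw [g3, ev_cast _ _ _ _ (by omega) (by omega), e3, e4]
    congr 2
    funext z
    exact add_comm _ _
  have hone : (-3 - 1 : ZMod (2 * (j2 + pkc V + 1) + 1)) ≠ -3 := by
    intro h
    haveI : Fact (1 < 2 * (j2 + pkc V + 1) + 1) := ⟨by omega⟩
    have h3 : (1 : ZMod (2 * (j2 + pkc V + 1) + 1)) = 0 := by linear_combination -h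
    exact one_ne_zero h3
  have hRu : Rd (cyc r') = ⟨j2, V⟩ := g7
  have hRw : Rd (cyc w) = ⟨j2 + pkc V + 1, cyc r'⟩ := by rw [b5, hcu]
  -- removal set and inequality
  have hrem : cyc w ≠ cyc wz ∧ RemOK ⟨j2 + pkc V + 1, cyc r'⟩ ({cyc w} ∪ {cyc wz}) := by
    rcases Nat.lt_or_ge m 3 with h3 | h3
    · obtain rfl : m = 2 := by omega
      have hkr : (j2 + pkc V + 1) + pkn r'.1 + 2 = k := by
        have h4 := word_phi hw1
        rw [Finset.sum_ite_eq' univ _ (fun _ => 2), if_pos (mem_univ _)] at h4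
        exact h4
      have hjo : (j2 + pkc V + 1) % 2 = 1 := by
        by_contra h
        exact h2 (oddF_two_iff.2 (by omega))
      have hz : cyc wz = tc r' hkr ((2 * (j2 + pkc V) - 1 : ℕ) : ZMod (2 * (j2 + pkc V + 1) + 1)) 1 :=
        ev_tc hkr (by omega) (by omega) g3
      have hwt : cyc w = tc r' hkr (-3) 0 := by
        rw [← hcw]
        refine tc_word r' hkr _ _ ?_
        rw [hw1]
        congr 2
        funext z
        by_cases hz : z = -3
        · simp [hz]
        · simp [hz]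
      rw [hwt, hz]
      refine ⟨tc_ne (by omega) hkr hkr (by omega) (by omega) (by norm_num), ?_⟩
      rw [Set.singleton_union]
      exact rem_ab (by omega) r' hkr hjo _ _
    · rw [← hcw]
      refine ⟨cyc_pile_ne_near (by omega) h3 hone hw1 hwz, ?_⟩
      rw [Set.singleton_union]
      exact remOK_py (by omega) h3 (Or.inr rfl) hw1 hwz h2
  refine two_classes (by norm_num) g9 g10 g12 ?_ ?_
  · intro p0 hp0 hX
    exact cls_t0 (m := m + 2) (by omega) (by omega) env h1 g6 g8 (fun h => by omega) hp0 hX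
  · intro p0 hp0 hX
    obtain ⟨U1, a1, a2, a3, a4, a5⟩ := vcl_data (j := j2 + pkc V + 1) (m := m) (by omega) hp0 rfl
    have hRU : Rd (cyc r') = Rd U1 := by rw [hRu, a2]
    refine r1_set_even (env p0 (mem_vcl.1 hp0).1) a1 (by omega) a5 h2 {cyc wz} (cyc r') hRU ?_ ?_ ?_
      {cyc w} ?_ (Or.inr ⟨cyc w, rfl, hRw, b4⟩) hrem.2
    · rintro c rfl
      exact g5
    · intro q hq
      rw [hX q hq]
      exact Iff.rfl
    · intro h
      rw [Rd_contc hRU, a3] at h
      exact absurd h (by norm_num)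
    · rintro c rfl h
      exact hrem.1 h

end Pool.OddHC
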