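import Pool.Agent.Work.MP_8f87b2_fin.Blk2

/-!
# The classes `(V; a, 2)` and `(V; a + 1, 0)` over one `V`

`part_k4`: the K link over `C(v, a δ_(-1))` without beads, `a ≥ 1`. `part_k0`: the same with `a = 0`. `part_j`: an edge of the
rows 0, 1 (J3V, J5V).
-/

set_option autoImplicit false

namespace Pool.OddHC

open Finset BinaryTree Multiset Pool.OddHop

variable {i j j2 k : ℕ} {τ : Type}

variable {P : τ → Set (Cyc k) → DG k → Prop} {V : Cyc j2} {KS : BinaryTree Unit → Prop}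

/-- two classes over one `V` are different -/
theorem vcl_ne {p q : Cyc k} {a b : ℕ} (hp : cl p ∈ vcl k V a) (hq : cl q ∈ vcl k V b) (hab : a ≠ b) :
    cl p ≠ cl q := by
  intro h
  rw [h] at hp
  exact hab ((mem_vcl.1 hp).2.symm.trans (mem_vcl.1 hq).2)

/-- **PART: the K link without beads**, any `a` -/
theorem part_ktop (a : ℕ) (hi : 1 ≤ j2 + pkc V + a) (hk : j2 + 2 * pkc V + 2 * a + 2 = k)
    (env : ∀ p0 : Cyc k, Rd (Rd p0).2 = ⟨j2, V⟩ → ClsEnv (AEP P) P P (cl p0))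
    (kty : ∀ S F g, KS S → TyK S F g → (∀ c ∈ F, Rd (Rd c).2 = ⟨j2, V⟩) → Typd P P F)
    (h1 : oddF j2 (a + 1)) (h2 : oddF j2 a ∧ oddF (j2 + pkc V + a) 2) (k4 : KPh V KS a 0 0 0 0)
    (jvk : JVK P V (a + 1)) :
    ClsReg P (vcl k V a ∪ vcl k V (a + 1) : Set (RD × Multiset ℕ)) := by
  obtain ⟨v, hv, hS⟩ := k4
  have hpv : pkn v.1 = pkc V := by rw [← pkc_cyc, hv]
  have hsum : ∑ z : ZMod (2 * j2 + 1), (if z = -1 then a else 0) = a := by
    rw [Finset.sum_ite_eq' univ (-1 : ZMod (2 * j2 + 1)) (fun _ => a), if_pos (mem_univ _)]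
  have hnum := ins_num v.1 (lf fun z : ZMod (2 * j2 + 1) => if z = -1 then a else 0)
    (by rw [lf_length, X_num])
  rw [lf_sum, hsum, X_num, hpv] at hnum
  obtain ⟨r, hr⟩ : ∃ r : X (j2 + pkc V + a),
      r.1 = ins v.1 (lf fun z : ZMod (2 * j2 + 1) => if z = -1 then a else 0) :=
    ⟨⟨_, mem_treesOfNumNodesEq.2 hnum.1⟩, rfl⟩
  have hpr : pkn r.1 = pkc V + a := by rw [hr, hnum.2]
  obtain ⟨r', wz, wt, g, b1, b2, b3, b4, b5, b6, b7, b8, b9⟩ :=
    k_link (k := k) v a hi r hr (x := 0) (b := 0) (y := 0) (c := 0) (by omega) (by omega)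
      (by rw [hpr]; omega)
  rw [hv] at b8 b9
  rw [← hr] at hS
  have cz : cl (cyc wz) ∈ vcl k V (a + 1) := (vcl_iff b6 b8).2 (by omega)
  have ct : cl (cyc wt) ∈ vcl k V a := (vcl_iff b7 b9).2 rfl
  have hmem : ∀ c, c ∈ ({cyc wz, cyc wt} : Set (Cyc k)) ↔ c = cyc wz ∨ c = cyc wt := fun c => Iff.rfl
  have hty : Typd P P {cyc wz, cyc wt} := by
    refine kty _ _ g hS b3 ?_
    rintro c (rfl | rfl)
    · exact (mem_vcl.1 cz).1
    · exact (mem_vcl.1 ct).1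
  have hpt : IsPile (cyc wt) := by
    refine ⟨_, r, 0, 2, wt, rfl, ?_⟩
    rw [b5]
    congr 2
    funext z
    simp [ev]
  have hpr' : IsPile (cyc r) := ⟨j2, v, -1, a, r, rfl, hr⟩
  refine ⟨{{cyc wz, cyc wt}}, ?_, ?_, ?_⟩
  · intro F hF
    rw [Set.mem_singleton_iff] at hF
    subst hF
    refine ⟨⟨cyc wz, Or.inl rfl⟩, hty, ?_⟩
    rintro c (rfl | rfl)
    · exact Or.inr cz
    · exact Or.inl ct
  · intro F hF F' hF' c _ _
    rw [Set.mem_singleton_iff] at hF hF'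
    rw [hF, hF']
  · rw [inG_single]
    rintro p0 (hp0 | hp0)
    · obtain ⟨U1, a1, a2, a3, a4, a5⟩ := vcl_data (j := j2 + pkc V + a) hk hp0 rfl
      have hE := env p0 (mem_vcl.1 hp0).1
      have hRU : Rd (cyc r) = Rd U1 := by rw [b9, a2]
      have hcr : (contc (cyc r)).count 1 = a := by rw [Rd_count hRU, a3]
      refine r1_guest hE a1 (m := 2) (by norm_num) a5 h2.2 (cyc wt) (cyc r) hRU b7 ?_ ?_
        (fun h => hpr'.two h) (fun _ => hpt.two ?_)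
      · rw [b9, hcr]
        exact h2.1
      · intro c hc
        rw [hmem]
        constructor
        · rintro (rfl | rfl)
          · exact absurd hc (vcl_ne cz hp0 (by omega))
          · rfl
        · intro h
          exact Or.inr h
      · exact count_class a1 a5 b7 hRU
    · refine jvk (j2 + pkc V + a + 1) v (-1) r' (cyc wz) hv b1 b6 h1 p0 _ hp0 ?_
      intro c hc
      rw [hmem, Set.mem_singleton_iff]
      constructor
      · rintro (rfl | rfl)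
        · rfl
        · exact absurd hc (vcl_ne ct hp0 (by omega))
      · intro h
        exact Or.inl h

/-- **PART K4**: both levels odd, `a ≥ 1` -/
theorem part_k4 (a : ℕ) (ha : 1 ≤ a) (hk : j2 + 2 * pkc V + 2 * a + 2 = k)
    (env : ∀ p0 : Cyc k, Rd (Rd p0).2 = ⟨j2, V⟩ → ClsEnv (AEP P) P P (cl p0))
    (kty : ∀ S F g, KS S → TyK S F g → (∀ c ∈ F, Rd (Rd c).2 = ⟨j2, V⟩) → Typd P P F)
    (h1 : oddF j2 (a + 1)) (h2 : oddF j2 a ∧ oddF (j2 + pkc V + a) 2) (k4 : KPh V KS a 0 0 0 0)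
    (jvk : JVK P V (a + 1)) :
    ClsReg P (vcl k V a ∪ vcl k V (a + 1) : Set (RD × Multiset ℕ)) :=
  part_ktop a (by omega) hk env kty h1 h2 k4 jvk

/-- **PART J3V / J5V**: an edge of the rows 0, 1, the class `(V; a, 2)` is even -/
theorem part_j (a : ℕ) (hj : 1 ≤ j2 + pkc V + a) (hk : j2 + 2 * pkc V + 2 * a + 2 = k)
    (env : ∀ p0 : Cyc k, Rd (Rd p0).2 = ⟨j2, V⟩ → ClsEnv (AEP P) P P (cl p0))
    (h2 : ¬ (oddF (j2 + pkc V + a) 2 ∧ oddF j2 a)) (hT : TopJ P V a) :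
    ClsReg P (vcl k V a ∪ vcl k V (a + 1) : Set (RD × Multiset ℕ)) := by
  obtain ⟨F, j, u, hku, x, s, hty, hsub, hRu, rfl, htwo, hF, hJ⟩ := hT
  have hc0 : ∀ y d, cl (tc u hku y d) ∈ vcl k V a := fun y d => (vcl_iff (Rd_tc u hku y d) hRu).2 rfl
  refine ⟨{F}, ?_, ?_, ?_⟩
  · intro F' hF'
    rw [Set.mem_singleton_iff] at hF'
    subst hF'
    exact ⟨⟨tc u hku x 0, (hF _ (hc0 x 0)).2 (Or.inl rfl)⟩, hty, hsub⟩
  · intro F' hF' F'' hF'' c _ _
    rw [Set.mem_singleton_iff] at hF' hF''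
    rw [hF', hF'']
  · rw [inG_single]
    rintro p0 (hp0 | hp0)
    · obtain ⟨U1, a1, a2, a3, a4, a5⟩ := vcl_data (j := j2 + pkc V + a) hk hp0 rfl
      have hE := env p0 (mem_vcl.1 hp0).1
      refine r1_edge hE a1 hj a5 ?_ u (by rw [hRu, a2]) hku x s htwo ?_
      · rw [a2, a3]
        exact h2
      · intro c hc
        refine hF c ?_
        rw [hc]
        exact hp0
    · exact hJ p0 F hp0 (fun c _ => Iff.rfl)

/-- **PART K0**: `M = 2`, the level `j2 + pkc V` is even -/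
theorem part_k0 (hi : 1 ≤ j2 + pkc V) (hk : j2 + 2 * pkc V + 2 = k)
    (env : ∀ p0 : Cyc k, Rd (Rd p0).2 = ⟨j2, V⟩ → ClsEnv (AEP P) P P (cl p0))
    (kty : ∀ S F g, KS S → TyK S F g → (∀ c ∈ F, Rd (Rd c).2 = ⟨j2, V⟩) → Typd P P F)
    (h1 : oddF (j2 + pkc V) 2) (k0 : KPh V KS 0 0 0 0 0) (jvk : JVK P V 1) :
    ClsReg P (vcl k V 0 ∪ vcl k V 1 : Set (RD × Multiset ℕ)) := by
  have h0 : oddF j2 1 := by
    unfold oddF
    have e1 : Nat.card (Ms (2 * j2 + 1) 1) = 2 * j2 + 1 := by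
      have e2 : Nat.card (Ms (2 * j2 + 1) 1) = Nat.card (Sym (ZMod (2 * j2 + 1)) 1) :=
        (Nat.card_congr (Sym.equivNatSumOfFintype (ZMod (2 * j2 + 1)) 1)).symm
      rw [e2, Nat.card_eq_fintype_card, Sym.card_sym_eq_choose, ZMod.card]
      simp
    rw [e1]
    exact ⟨j2, rfl⟩
  exact part_ktop 0 (by omega) (by omega) env kty h0 ⟨oddF_zero j2, h1⟩ k0 jvk

end Pool.OddHC
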