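import Pool.Agent.Work.MP_8f87b2_fin.Blk2

/-!
# The class `(V; a, 0)` from its hops

`jvk_of_hops`: `|F(V, a)|` odd, any T-cycle over a pile may be left out. `jv0_of_hops`: `|F(V, a)|` even.
-/

set_option autoImplicit false

namespace Pool.OddHC

open Finset BinaryTree Multiset Pool.OddHop

variable {j2 k : ℕ} {τ : Type} {P : τ → Set (Cyc k) → DG k → Prop} {V : Cyc j2}

/-- **the class `(V; a, 0)` with one member over a pile left out** -/
theorem jvk_of_hops (a : ℕ) (_ha : 1 ≤ a) (hk : j2 + 2 * pkc V + 2 * a = k)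
    (jv : ∀ (j : ℕ) (U U' : Cyc j), Rd U = ⟨j2, V⟩ → Rd U' = ⟨j2, V⟩ → j = j2 + pkc V + a → U ≠ U' →
      HopC U U' → ∃ p q : Cyc k, Rd p = ⟨j, U⟩ ∧ Rd q = ⟨j, U'⟩ ∧ Typd P P {p, q}) : JVK P V a := by
  intro j v x u z hv hu hz ho p0 Xs hp0 hX
  have h5 := word_phi hu
  rw [Finset.sum_ite_eq' univ x (fun _ => a), if_pos (mem_univ _)] at h5
  have h6 : pkn v.1 = pkc V := by rw [← pkc_cyc, hv]
  have hj : j = j2 + pkc V + a := by omega
  have hRu : Rd (cyc u) = ⟨j2, V⟩ := by rw [← hv]; exact Rd_ins (lf_length _) hu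
  have hP : IsPile (cyc u) := ⟨j2, v, x, a, u, rfl, hu⟩
  obtain ⟨U1, a1, a2, a3, a4, a5⟩ := vcl_data (j := j) (m := 0) (by omega) hp0 hj
  have hRU : Rd (cyc u) = Rd U1 := by rw [hRu, a2]
  have hcu : (contc (cyc u)).count 1 = a := (Rd_count hRU).trans a3
  refine r2_cls a1 (by omega) Xs
    (fun U U' hU hU' hne hh => jv j U U' (hU.trans a2) (hU'.trans a2) hj hne hh) (cyc u) hRU
    (fun h _ => hP.two h) ?_
  intro c hc
  rw [hX c hc, Set.mem_singleton_iff]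
  constructor
  · rintro rfl
    refine ⟨hz, ?_⟩
    rw [hRu, hcu]
    exact ho
  · rintro ⟨h1, _⟩
    exact fam_zero (h1.trans hz.symm) (count_class (m := 0) a1 (by omega) h1 hRU)

/-- **the class `(V; a, 0)` of even size** -/
theorem jv0_of_hops (a : ℕ) (_ha : 1 ≤ a) (hk : j2 + 2 * pkc V + 2 * a = k)
    (jv : ∀ (j : ℕ) (U U' : Cyc j), Rd U = ⟨j2, V⟩ → Rd U' = ⟨j2, V⟩ → j = j2 + pkc V + a → U ≠ U' →
      HopC U U' → ∃ p q : Cyc k, Rd p = ⟨j, U⟩ ∧ Rd q = ⟨j, U'⟩ ∧ Typd P P {p, q})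
    (ho : ¬ oddF j2 a) : JVC P V a ∅ := by
  intro p0 Xs hp0 hX
  obtain ⟨v, hv⟩ : ∃ v : X j2, cyc v = V := Quotient.exists_rep _
  obtain ⟨j, hj⟩ : ∃ j, j = j2 + pkc V + a := ⟨_, rfl⟩
  have h6 : pkn v.1 = pkc V := by rw [← pkc_cyc, hv]
  have hn := ins_num v.1 (lf fun y : ZMod (2 * j2 + 1) => if y = 0 then a else 0)
    (by rw [lf_length, X_num])
  have hs : (lf fun y : ZMod (2 * j2 + 1) => if y = 0 then a else 0).sum = a := by
    rw [lf_sum, Finset.sum_ite_eq' univ (0 : ZMod (2 * j2 + 1)) (fun _ => a), if_pos (mem_univ _)]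
  rw [hs, X_num, h6] at hn
  obtain ⟨u, hu⟩ : ∃ u : X j, u.1 = ins v.1 (lf fun y : ZMod (2 * j2 + 1) => if y = 0 then a else 0) :=
    ⟨⟨_, mem_treesOfNumNodesEq.2 (by rw [hj]; exact hn.1)⟩, rfl⟩
  have hRu : Rd (cyc u) = ⟨j2, V⟩ := by rw [← hv]; exact Rd_ins (lf_length _) hu
  have hP : IsPile (cyc u) := ⟨j2, v, 0, a, u, rfl, hu⟩
  obtain ⟨U1, a1, a2, a3, a4, a5⟩ := vcl_data (j := j) (m := 0) (by omega) hp0 hj
  have hRU : Rd (cyc u) = Rd U1 := by rw [hRu, a2]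
  have hcu : (contc (cyc u)).count 1 = a := (Rd_count hRU).trans a3
  refine r2_cls a1 (by omega) Xs
    (fun U U' hU hU' hne hh => jv j U U' (hU.trans a2) (hU'.trans a2) hj hne hh) (cyc u) hRU
    (fun h _ => hP.two h) ?_
  intro c hc
  rw [hX c hc]
  constructor
  · intro h
    exact absurd h (Set.notMem_empty _)
  · rintro ⟨_, h⟩
    rw [hRu, hcu] at h
    exact absurd h ho

end Pool.OddHC
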