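import Pool.Agent.Work.MP_8f87b2_fin.PartM4
import Pool.Agent.Work.MP_8f87b2_fin.PartTop
import Pool.Agent.Work.MP_8f87b2_fin.PartK3
import Pool.Agent.Work.MP_8f87b2_fin.Jvk
import Pool.Agent.Work.MP_8f87b2_h42.PartW0

/-!
# All classes over one `V`, `M = k - j2 - 2 |V| ≥ 2` (windows for every `m ≥ 0`)

`VEnv`: what is needed over one `V`. `VEnv.reg`: the region `{V}`. The classes `(V; a, m)`, `a ≥ 1`, have the window pile over
pile, `(V; 0, M)` odd is linked with `(V; 1, M - 2)` by K0, K1, K2, K3.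
-/

set_option autoImplicit false

namespace Pool.OddHC

open Finset BinaryTree Multiset Pool.OddHop

variable {i j j2 k : ℕ} {τ : Type} {P : τ → Set (Cyc k) → DG k → Prop} {V : Cyc j2}
  {KS : BinaryTree Unit → Prop}

/-- **what is needed over one `V`** -/
structure VEnv (P : τ → Set (Cyc k) → DG k → Prop) (V : Cyc j2) (KS : BinaryTree Unit → Prop) : Prop where
  /-- hops of the families are E pairs, L pairs exist -/
  env : ∀ p0 : Cyc k, Rd (Rd p0).2 = ⟨j2, V⟩ → ClsEnv (AEP P) P P (cl p0)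
  /-- windows, `m ≥ 0` -/
  win : ∀ a m, 1 ≤ a → j2 + 2 * pkc V + 2 * a + m = k → NodeW k V (Typd P P) a m
  /-- K links have a type -/
  kty : ∀ S F g, KS S → TyK S F g → (∀ c ∈ F, Rd (Rd c).2 = ⟨j2, V⟩) → Typd P P F
  /-- K0, `M = 2` -/
  k0 : j2 + 2 * pkc V + 2 = k → oddF (j2 + pkc V) 2 → KPh V KS 0 0 0 0 0
  /-- K1, `M = 3` -/
  k1 : j2 + 2 * pkc V + 3 = k → oddF (j2 + pkc V) 3 →
    ∃ x, x < 2 * (j2 + pkc V) + 1 ∧ KPh V KS 0 x 1 0 0
  /-- K2', `M = 4` : level at least 2 -/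
  k2 : j2 + 2 * pkc V + 4 = k → oddF (j2 + pkc V) 4 → oddF (j2 + pkc V + 1) 2 →
    ∃ x l, 1 ≤ l ∧ 2 * l ≤ j2 + pkc V + 1 ∧ x + 2 * l = 2 * (j2 + pkc V) ∧
      KPh V KS 0 x 1 (2 * (j2 + pkc V)) 1
  /-- K2, `M ≥ 5` -/
  kp : ∀ m, 3 ≤ m → j2 + 2 * pkc V + m + 2 = k → oddF (j2 + pkc V) (m + 2) →
    oddF (j2 + pkc V + 1) m → ∃ x b y c, x < 2 * (j2 + pkc V) + 1 ∧ y < 2 * (j2 + pkc V) + 1 ∧
      b + c = m ∧ KPh V KS 0 x b y c
  /-- K3, `M ≥ 4` -/
  kn : ∀ m, 2 ≤ m → j2 + 2 * pkc V + m + 2 = k → oddF (j2 + pkc V) (m + 2) →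
    ¬ oddF (j2 + pkc V + 1) m → KNr V KS m
  /-- the class `(V; a, 0)` -/
  jv : ∀ (a j : ℕ) (U U' : Cyc j), 1 ≤ a → j2 + 2 * pkc V + 2 * a = k → Rd U = ⟨j2, V⟩ →
    Rd U' = ⟨j2, V⟩ → j = j2 + pkc V + a → U ≠ U' → HopC U U' →
    ∃ p q : Cyc k, Rd p = ⟨j, U⟩ ∧ Rd q = ⟨j, U'⟩ ∧ Typd P P {p, q}

theorem vcl_no {a b : ℕ} (h : a ≠ b) {κ : RD × Multiset ℕ} (h1 : κ ∈ vcl k V a)
    (h2 : κ ∈ vcl k V b) : False := by
  obtain ⟨p, rfl, -⟩ := id h1
  exact h ((mem_vcl.1 h1).2.symm.trans (mem_vcl.1 h2).2)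

/-- **the classes `(V; a, m)`, `lo ≤ a ≤ hi`, `m ≥ 1`** -/
theorem VEnv.wins (E : VEnv P V KS) (lo hi : ℕ) (h0 : 1 ≤ lo)
    (h : j2 + 2 * pkc V + 2 * hi + 1 ≤ k ∨ hi < lo) :
    ClsReg P ({κ | ∃ a, lo ≤ a ∧ a ≤ hi ∧ κ ∈ vcl k V a} : Set (RD × Multiset ℕ)) := by
  refine ClsReg.single fun p0 hp0 => ?_
  obtain ⟨a, ha1, ha2, hp0⟩ := hp0
  have h' : j2 + 2 * pkc V + 2 * hi + 1 ≤ k := by
    rcases h with h | h
    · exact h
    · omega
  obtain ⟨m, hm⟩ : ∃ m, j2 + 2 * pkc V + 2 * a + m = k := ⟨k - (j2 + 2 * pkc V + 2 * a), by omega⟩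
  have hm1 : 1 ≤ m := by omega
  obtain ⟨U1, a1, a2, a3, a4, a5⟩ := vcl_data (j := j2 + pkc V + a) hm hp0 rfl
  obtain ⟨v, x2, u, x, w, b1, b2, b3, b4, b5, b6, b7, b8⟩ :=
    (E.win a m (by omega) hm).data (j := j2 + pkc V + a) rfl
  have hRU : Rd (cyc u) = Rd U1 := by rw [b6, a2]
  refine r1_win (E.env p0 (mem_vcl.1 hp0).1) a1 hm1 a5 (fun c hc => absurd hc (Set.notMem_empty _))
    (cyc w) (cyc u) hRU b5 (fun h => b7.two h) (fun h => b8.two ?_) b4
  rw [count_class a1 a5 b5 hRU, h]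

/-- the class `(V; a, 0)` -/
theorem VEnv.top (E : VEnv P V KS) (a : ℕ) (ha : 1 ≤ a) (hk : j2 + 2 * pkc V + 2 * a = k) :
    ClsReg P (vcl k V a : Set (RD × Multiset ℕ)) := by
  have jv := fun (j : ℕ) (U U' : Cyc j) h1 h2 h3 h4 h5 => E.jv a j U U' ha hk h1 h2 h3 h4 h5
  by_cases hC : oddF j2 a
  · exact cls_w0 hk hC (E.win a 0 ha (by omega)) (jvk_of_hops a ha hk jv)
  · refine ClsReg.single fun p0 hp0 => ?_
    exact jv0_of_hops a ha hk jv hC p0 ∅ hp0 fun _ _ => Iff.rfl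

/-- **the low block**: the classes `(V; 0, m + 2)`, `(V; 1, m)`, `m ≥ 1` -/
theorem VEnv.low (E : VEnv P V KS) (hi : 1 ≤ j2 + pkc V) (m : ℕ) (hm : 1 ≤ m)
    (hk : j2 + 2 * pkc V + m + 2 = k) :
    ClsReg P (vcl k V 0 ∪ vcl k V 1 : Set (RD × Multiset ℕ)) := by
  by_cases hA : oddF (j2 + pkc V) (m + 2)
  · by_cases hB : oddF (j2 + pkc V + 1) m
    · obtain rfl | rfl | hm3 : m = 1 ∨ m = 2 ∨ 3 ≤ m := by omega
      · obtain ⟨x, hx, hph⟩ := E.k1 (by omega) hA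
        exact part_kk 1 le_rfl (by omega) hi E.env E.kty hA hB hx (y := 0) (by omega) rfl hph
          (fun h => by omega)
      · obtain ⟨x, l, hl, hlj, hxl, hph⟩ := E.k2 (by omega) hA hB
        exact part_kk 2 (by norm_num) (by omega) hi E.env E.kty hA hB (by omega) (by omega) rfl hph
          (fun _ => ⟨rfl, rfl, l, hlj, hxl⟩)
      · obtain ⟨x, b, y, c, hx, hy, hbc, hph⟩ := E.kp m hm3 (by omega) hA hB
        exact part_kk m hm (by omega) hi E.env E.kty hA hB hx hy hbc hph (fun h => by omega)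
    · have hm2 : 2 ≤ m := by
        by_contra h
        obtain rfl : m = 1 := by omega
        exact hB (oddF_one _)
      exact part_k3 m hm2 (by omega) hi E.env E.kty hA hB (E.kn m hm2 (by omega) hA hB)
        (E.win 1 m le_rfl (by omega))
  · refine (part_even (m + 2) (by omega) (by omega) E.env hA).union
      (part_win 1 m le_rfl hm (by omega) E.env (E.win 1 m le_rfl (by omega))) ?_
    intro κ h1 h2
    exact vcl_no (by norm_num) h1 h2

/-- `M = 2` -/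
theorem VEnv.two (E : VEnv P V KS) (hi : 1 ≤ j2 + pkc V) (hk : j2 + 2 * pkc V + 2 = k) :
    ClsReg P (vcl k V 0 ∪ vcl k V 1 : Set (RD × Multiset ℕ)) := by
  have jv := fun (j : ℕ) (U U' : Cyc j) h1 h2 h3 h4 h5 =>
    E.jv 1 j U U' le_rfl (by omega) h1 h2 h3 h4 h5
  by_cases hA : oddF (j2 + pkc V) 2
  · exact part_k0 hi hk E.env E.kty hA (E.k0 hk hA) (jvk_of_hops 1 le_rfl (by omega) jv)
  · exact part_w0 0 (by omega) E.env (oddF_one _) (fun _ => hA) (fun h => by omega)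
      (E.win 1 0 le_rfl (by omega)) (jvk_of_hops 1 le_rfl (by omega) jv)

/-- **ALL CLASSES OVER `V`** -/
theorem VEnv.reg (E : VEnv P V KS) (hi : 1 ≤ j2 + pkc V) (hk : j2 + 2 * pkc V + 2 ≤ k) :
    RegOK P ({⟨j2, V⟩} : Set RD) := by
  obtain ⟨M, hM⟩ : ∃ M, j2 + 2 * pkc V + M = k := ⟨k - (j2 + 2 * pkc V), by omega⟩
  have hM2 : 2 ≤ M := by omega
  have hcase : ∀ p : Cyc k, Rd (Rd p).2 = ⟨j2, V⟩ → cl p ∈ vcl k V (aa p) ∧ 2 * aa p ≤ M := by
    intro p hp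
    have := ov_total hp
    exact ⟨mem_vcl.2 ⟨hp, rfl⟩, by omega⟩
  obtain rfl | h4 : M = 2 ∨ M ≠ 2 := by omega
  · refine (E.two hi (by omega)).congr fun p => ?_
    constructor
    · rintro (h | h)
      · exact (mem_vcl.1 h).1
      · exact (mem_vcl.1 h).1
    · intro h
      obtain ⟨h1, h2⟩ := hcase p h
      obtain h3 | h3 : aa p = 0 ∨ aa p = 1 := by omega
      · rw [h3] at h1; exact Or.inl h1
      · rw [h3] at h1; exact Or.inr h1
  · obtain ⟨m, rfl⟩ : ∃ m, M = m + 2 := ⟨M - 2, by omega⟩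
    have hlow := E.low hi m (by omega) (by omega)
    rcases Nat.even_or_odd' m with ⟨c, rfl | rfl⟩
    · -- `M` even
      have h1 := hlow.union (E.wins 2 c (by norm_num) (by omega)) ?_
      · have h2 := h1.union (E.top (c + 1) (by omega) (by omega)) ?_
        · refine h2.congr fun p => ?_
          constructor
          · rintro (((h | h) | ⟨a, _, _, h⟩) | h)
            · exact (mem_vcl.1 h).1
            · exact (mem_vcl.1 h).1
            · exact (mem_vcl.1 h).1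
            · exact (mem_vcl.1 h).1
          · intro h
            obtain ⟨h3, h4⟩ := hcase p h
            obtain h5 | h5 | h5 | h5 : aa p = 0 ∨ aa p = 1 ∨ (2 ≤ aa p ∧ aa p ≤ c) ∨
              aa p = c + 1 := by omega
            · rw [h5] at h3; exact Or.inl (Or.inl (Or.inl h3))
            · rw [h5] at h3; exact Or.inl (Or.inl (Or.inr h3))
            · exact Or.inl (Or.inr ⟨aa p, h5.1, h5.2, h3⟩)
            · rw [h5] at h3; exact Or.inr h3
        · rintro κ ((h1 | h1) | ⟨a, ha1, ha2, h1⟩) h2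
          · exact vcl_no (by omega) h1 h2
          · exact vcl_no (by omega) h1 h2
          · exact vcl_no (by omega) h1 h2
      · rintro κ (h1 | h1) ⟨a, ha1, ha2, h2⟩
        · exact vcl_no (by omega) h1 h2
        · exact vcl_no (by omega) h1 h2
    · -- `M` odd
      have h1 := hlow.union (E.wins 2 (c + 1) (by norm_num) (by omega)) ?_
      · refine h1.congr fun p => ?_
        constructor
        · rintro ((h | h) | ⟨a, _, _, h⟩)
          · exact (mem_vcl.1 h).1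
          · exact (mem_vcl.1 h).1
          · exact (mem_vcl.1 h).1
        · intro h
          obtain ⟨h3, h4⟩ := hcase p h
          obtain h5 | h5 | h5 : aa p = 0 ∨ aa p = 1 ∨ (2 ≤ aa p ∧ aa p ≤ c + 1) := by omega
          · rw [h5] at h3; exact Or.inl (Or.inl h3)
          · rw [h5] at h3; exact Or.inl (Or.inr h3)
          · exact Or.inr ⟨aa p, h5.1, h5.2, h3⟩
      · rintro κ (h1 | h1) ⟨a, ha1, ha2, h2⟩
        · exact vcl_no (by omega) h1 h2
        · exact vcl_no (by omega) h1 h2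

end Pool.OddHC
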