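import Pool.Agent.Work.MP_8f87b2_fin.Groups

/-!
# The plan class by class

The class of `p` : `cl p = (Rd (Rd p).2, contc p)` (the doubly reduced T-cycle and the content), a union of families.
`Xp`, `Xw` : the groups which meet several classes (links and so on). `ClsOK κ X Gp Gw` : the class `κ` minus the T-cycles
`X` (used by `Xp`, `Xw`) is cut into the groups `Gp`, `Gw` inside the class and `AE`-pairs. `gok_of_classes`: the whole plan.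
-/

set_option autoImplicit false

namespace Pool.OddHC

open Finset Equiv Pool.Agent.Work.MP_8f87b2_co

variable {k : ℕ}

/-- the class of a T-cycle -/
noncomputable def cl (p : Cyc k) : RD × Multiset ℕ := (Rd (Rd p).2, contc p)

theorem cl_fam {p q : Cyc k} (h : Rd p = Rd q) : cl p = cl q := by
  have h1 : contc p = contc q := contc_of_Rd (by rw [h]) (by rw [h])
  unfold cl
  rw [h, h1]

/-- **ONE CLASS.** `AE` : the pairs inside the families; `X` : the T-cycles used by groups over several classes -/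
structure ClsOK {τp τw : Type} (AE : Cyc k → Cyc k → Prop) (κ : RD × Multiset ℕ) (X : Set (Cyc k))
    (Gp Gw : Set (Set (Cyc k))) (Pp : τp → Set (Cyc k) → DG k → Prop)
    (Pw : τw → Set (Cyc k) → DG k → Prop) : Prop where
  ne : ∀ F ∈ Gp ∪ Gw, F.Nonempty
  sub : ∀ F ∈ Gp ∪ Gw, ∀ c ∈ F, cl c = κ ∧ c ∉ X
  one : ∀ F ∈ Gp ∪ Gw, ∀ F' ∈ Gp ∪ Gw, ∀ c, c ∈ F → c ∈ F' → F = F'
  pw : ∀ F ∈ Gp, F ∉ Gw
  exp : ∀ F ∈ Gp, ∃ t g, Pp t F g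
  exw : ∀ F ∈ Gw, ∃ t g, Pw t F g
  rem : ∀ p : Cyc k, cl p = κ → RemA AE (Rd p) (inG (Gp ∪ Gw) ∪ X)

variable {τp τw : Type} {O N : Set (Cyc k)} {Xp Xw : Set (Set (Cyc k))}
  {Pp : τp → Set (Cyc k) → DG k → Prop} {Pw : τw → Set (Cyc k) → DG k → Prop}

/-- **THE PLAN CLASS BY CLASS** -/
theorem gok_of_classes (fam : ∀ p q : Cyc k, Rd p = Rd q → p ∈ N → q ∈ N)
    (up : ∀ p ∈ N, ∀ q, htc p < htc q → q ∈ O ∨ q ∈ N)
    (hcl : ∀ p q : Cyc k, cl p = cl q → p ∈ N → q ∈ N)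
    -- the groups over several classes
    (xne : ∀ F ∈ Xp ∪ Xw, F.Nonempty) (xsub : ∀ F ∈ Xp ∪ Xw, ∀ c ∈ F, c ∈ N)
    (xone : ∀ F ∈ Xp ∪ Xw, ∀ F' ∈ Xp ∪ Xw, ∀ c, c ∈ F → c ∈ F' → F = F')
    (xpw : ∀ F ∈ Xp, F ∉ Xw) (xexp : ∀ F ∈ Xp, ∃ t g, Pp t F g) (xexw : ∀ F ∈ Xw, ∃ t g, Pw t F g)
    -- the classes
    (Gp Gw : RD × Multiset ℕ → Set (Set (Cyc k)))
    (hC : ∀ κ, (∃ p ∈ N, cl p = κ) → ClsOK (fun p q => p ≠ q ∧ ∃ t g, Pp t {p, q} g) κ (inG (Xp ∪ Xw))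
      (Gp κ) (Gw κ) Pp Pw)
    -- heights
    (htp : ∀ t F g, Pp t F g → ∀ c ∈ F, ∀ d ∈ F, htc c = htc d)
    (htw : ∀ t F g, Pw t F g → ∀ c ∈ F, ∀ d ∈ F, htc c = htc d)
    (rkp : ∀ t F g, Pp t F g → ∀ w ∈ g.B, cyc w ∈ F ∨ ∀ c ∈ F, htc c < htc (cyc w))
    (ord : Set (Cyc k) → ℕ) (Om : ℕ) (om : ∀ F, ord F < Om)
    (rkw : ∀ t, ∀ F ∈ Xw ∪ {F | ∃ κ, (∃ p ∈ N, cl p = κ) ∧ F ∈ Gw κ}, ∀ g, Pw t F g → ∀ w ∈ g.B,
      cyc w ∈ F ∨ (∀ c ∈ F, htc c < htc (cyc w)) ∨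
      ((∀ c ∈ F, htc c = htc (cyc w)) ∧ cyc w ∈ N ∧
        ∀ F' ∈ Xw ∪ {F | ∃ κ, (∃ p ∈ N, cl p = κ) ∧ F ∈ Gw κ}, cyc w ∈ F' → ord F' < ord F)) :
    GOK O N (Xp ∪ {F | ∃ κ, (∃ p ∈ N, cl p = κ) ∧ F ∈ Gp κ})
      (Xw ∪ {F | ∃ κ, (∃ p ∈ N, cl p = κ) ∧ F ∈ Gw κ}) Pp Pw ord Om := by
  classical
  -- the groups of the classes
  have hin : ∀ F, (∃ κ, (∃ p ∈ N, cl p = κ) ∧ F ∈ Gp κ ∪ Gw κ) → F.Nonempty ∧
      (∀ c ∈ F, c ∈ N ∧ c ∉ inG (Xp ∪ Xw)) ∧ ∀ c ∈ F, F ∈ Gp (cl c) ∪ Gw (cl c) := by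
    rintro F ⟨κ, hκ, hF⟩
    have h1 := hC κ hκ
    obtain ⟨p, hp, hpκ⟩ := hκ
    refine ⟨h1.ne F hF, fun c hc => ?_, fun c hc => ?_⟩
    · obtain ⟨e1, e2⟩ := h1.sub F hF c hc
      exact ⟨hcl p c (by rw [hpκ, e1]) hp, e2⟩
    · obtain ⟨e1, e2⟩ := h1.sub F hF c hc
      rw [e1]
      exact hF
  have hcase : ∀ F, F ∈ (Xp ∪ {F | ∃ κ, (∃ p ∈ N, cl p = κ) ∧ F ∈ Gp κ}) ∪
      (Xw ∪ {F | ∃ κ, (∃ p ∈ N, cl p = κ) ∧ F ∈ Gw κ}) →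
      F ∈ Xp ∪ Xw ∨ ∃ κ, (∃ p ∈ N, cl p = κ) ∧ F ∈ Gp κ ∪ Gw κ := by
    rintro F ((hF | ⟨κ, hκ, hF⟩) | (hF | ⟨κ, hκ, hF⟩))
    · exact Or.inl (Or.inl hF)
    · exact Or.inr ⟨κ, hκ, Or.inl hF⟩
    · exact Or.inl (Or.inr hF)
    · exact Or.inr ⟨κ, hκ, Or.inr hF⟩
  constructor
  · exact fam
  · exact up
  · intro F hF
    rcases hcase F hF with h | h
    · exact xne F h
    · exact (hin F h).1
  · intro F hF c hc
    rcases hcase F hF with h | h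
    · exact xsub F h c hc
    · exact ((hin F h).2.1 c hc).1
  · intro F hF F' hF' c hc hc'
    rcases hcase F hF with h | h
    · rcases hcase F' hF' with h' | h'
      · exact xone F h F' h' c hc hc'
      · exact absurd ⟨F, h, hc⟩ ((hin F' h').2.1 c hc').2
    · rcases hcase F' hF' with h' | h'
      · exact absurd ⟨F', h', hc'⟩ ((hin F h).2.1 c hc).2
      · have e1 := (hin F h).2.2 c hc
        have e2 := (hin F' h').2.2 c hc'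
        exact (hC (cl c) ⟨c, ((hin F h).2.1 c hc).1, rfl⟩).one F e1 F' e2 c hc hc'
  · rintro F (hF | ⟨κ, hκ, hF⟩) (hF' | ⟨κ', hκ', hF'⟩)
    · exact xpw F hF hF'
    · obtain ⟨c, hc⟩ := xne F (Or.inl hF)
      exact ((hin F ⟨κ', hκ', Or.inr hF'⟩).2.1 c hc).2 ⟨F, Or.inl hF, hc⟩
    · obtain ⟨c, hc⟩ := xne F (Or.inr hF')
      exact ((hin F ⟨κ, hκ, Or.inl hF⟩).2.1 c hc).2 ⟨F, Or.inr hF', hc⟩
    · obtain ⟨c, hc⟩ := (hin F ⟨κ, hκ, Or.inl hF⟩).1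
      have e1 := ((hC κ hκ).sub F (Or.inl hF) c hc).1
      have e2 := ((hC κ' hκ').sub F (Or.inr hF') c hc).1
      rw [← e2, e1] at hF'
      exact (hC κ hκ).pw F hF hF'
  · rintro F (hF | ⟨κ, hκ, hF⟩)
    · exact xexp F hF
    · exact (hC κ hκ).exp F hF
  · rintro F (hF | ⟨κ, hκ, hF⟩)
    · exact xexw F hF
    · exact (hC κ hκ).exw F hF
  · exact fun F _ => om F
  · intro p hp
    refine ((hC (cl p) ⟨p, hp, rfl⟩).rem p rfl).congr fun q hq => ?_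
    have hclq : cl q = cl p := cl_fam hq
    constructor
    · rintro (⟨F, hF, hqF⟩ | ⟨F, hF, hqF⟩)
      · rcases hF with hF | hF
        · exact ⟨F, Or.inl (Or.inr ⟨cl p, ⟨p, hp, rfl⟩, hF⟩), hqF⟩
        · exact ⟨F, Or.inr (Or.inr ⟨cl p, ⟨p, hp, rfl⟩, hF⟩), hqF⟩
      · rcases hF with hF | hF
        · exact ⟨F, Or.inl (Or.inl hF), hqF⟩
        · exact ⟨F, Or.inr (Or.inl hF), hqF⟩
    · rintro ⟨F, hF, hqF⟩
      rcases hcase F hF with h | h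
      · exact Or.inr ⟨F, h, hqF⟩
      · have e1 := (hin F h).2.2 q hqF
        rw [hclq] at e1
        exact Or.inl ⟨F, e1, hqF⟩
  · exact htp
  · rintro F hF
    have h1 : ∃ t g, Pw t F g := by
      rcases hF with hF | ⟨κ, hκ, hF⟩
      · exact xexw F hF
      · exact (hC κ hκ).exw F hF
    obtain ⟨t, g, hg⟩ := h1
    exact htw t F g hg
  · exact rkp
  · exact rkw

end Pool.OddHC
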