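import Pool.Agent.Work.MP_8f87b2_fin.Classes

/-!
# A class from an involution of its reduced T-cycles

`cls_of_inv`: the class of `p0`; `I` : involution of the reduced T-cycles `U` of the class. Over a moved pair `U, I U`: nothing
or one pair group `{p, q}`; over a fixed `U` : a set of groups inside the family of `U`.
-/

set_option autoImplicit false

namespace Pool.OddHC

open Finset Equiv Pool.Agent.Work.MP_8f87b2_co

variable {k : ℕ}

/-- the size of the reduced T-cycle is determined by the content -/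
theorem Rd_fst (p : Cyc k) : (Rd p).1 + Multiset.card (contc p) = k := by
  have h1 := Rd_size p
  have h2 := congrArg Multiset.card (contc_eq p)
  unfold pkc at h1
  rw [Multiset.card_add, Multiset.card_map, Multiset.card_replicate] at h2
  omega

/-- the class of `p0` by the reduced T-cycles -/
theorem cl_iff {p0 p : Cyc k} : cl p = cl p0 ↔ (Rd p).1 = (Rd p0).1 ∧ Rd (Rd p).2 = Rd (Rd p0).2 := by
  unfold cl
  rw [Prod.mk.injEq]
  constructor
  · rintro ⟨h1, h2⟩
    refine ⟨?_, h1⟩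
    have h3 := Rd_fst p
    have h4 := Rd_fst p0
    rw [h2] at h3
    omega
  · rintro ⟨h1, h2⟩
    refine ⟨h2, contc_of_Rd h1 ?_⟩
    -- the contents of the reduced T-cycles
    have key : ∀ (j j' : ℕ) (U : Cyc j) (U' : Cyc j'), j = j' → Rd U = Rd U' → contc U = contc U' := by
      rintro j j' U U' rfl h
      exact contc_of_Rd (by rw [h]) (by rw [h])
    exact key _ _ _ _ h1 h2

variable {τp τw : Type} {Pp : τp → Set (Cyc k) → DG k → Prop} {Pw : τw → Set (Cyc k) → DG k → Prop}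
  {AE : Cyc k → Cyc k → Prop}

/-- a group with a type -/
def Typd (Pp : τp → Set (Cyc k) → DG k → Prop) (Pw : τw → Set (Cyc k) → DG k → Prop)
    (F : Set (Cyc k)) : Prop := (∃ t g, Pp t F g) ∨ ∃ t g, Pw t F g

/-- a set of typed groups gives `ClsOK` -/
theorem cls_of_set {κ : RD × Multiset ℕ} {X : Set (Cyc k)} (G : Set (Set (Cyc k)))
    (ne : ∀ F ∈ G, F.Nonempty) (sub : ∀ F ∈ G, ∀ c ∈ F, cl c = κ ∧ c ∉ X)
    (one : ∀ F ∈ G, ∀ F' ∈ G, ∀ c, c ∈ F → c ∈ F' → F = F') (ty : ∀ F ∈ G, Typd Pp Pw F)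
    (rem : ∀ p : Cyc k, cl p = κ → RemA AE (Rd p) (inG G ∪ X)) :
    ∃ Gp Gw, Gp ∪ Gw = G ∧ ClsOK AE κ X Gp Gw Pp Pw := by
  classical
  refine ⟨{F | F ∈ G ∧ ∃ t g, Pp t F g}, {F | F ∈ G ∧ ¬ ∃ t g, Pp t F g}, ?_, ?_⟩
  · ext F
    constructor
    · rintro (h | h)
      · exact h.1
      · exact h.1
    · intro h
      by_cases h' : ∃ t g, Pp t F g
      · exact Or.inl ⟨h, h'⟩
      · exact Or.inr ⟨h, h'⟩
  · have hG : ∀ F, F ∈ {F | F ∈ G ∧ ∃ t g, Pp t F g} ∪ {F | F ∈ G ∧ ¬ ∃ t g, Pp t F g} ↔ F ∈ G := by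
      intro F
      constructor
      · rintro (h | h)
        · exact h.1
        · exact h.1
      · intro h
        by_cases h' : ∃ t g, Pp t F g
        · exact Or.inl ⟨h, h'⟩
        · exact Or.inr ⟨h, h'⟩
    constructor
    · intro F hF
      exact ne F ((hG F).1 hF)
    · intro F hF
      exact sub F ((hG F).1 hF)
    · intro F hF F' hF'
      exact one F ((hG F).1 hF) F' ((hG F').1 hF')
    · rintro F ⟨_, h⟩ ⟨_, h'⟩
      exact h' h
    · rintro F ⟨_, h⟩
      exact h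
    · rintro F ⟨h1, h⟩
      rcases ty F h1 with h2 | h2
      · exact absurd h2 h
      · exact h2
    · intro p hp
      refine (rem p hp).congr fun q _ => ?_
      constructor
      · rintro (⟨F, hF, hq⟩ | h)
        · exact Or.inl ⟨F, (hG F).2 hF, hq⟩
        · exact Or.inr h
      · rintro (⟨F, hF, hq⟩ | h)
        · exact Or.inl ⟨F, (hG F).1 hF, hq⟩
        · exact Or.inr h

/-- **A CLASS FROM AN INVOLUTION** -/
theorem cls_of_inv (p0 : Cyc k) (X : Set (Cyc k)) (I : Cyc (Rd p0).1 → Cyc (Rd p0).1)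
    (hI : ∀ U, Rd U = Rd (Rd p0).2 → Rd (I U) = Rd (Rd p0).2 ∧ I (I U) = U)
    (mv : ∀ U, Rd U = Rd (Rd p0).2 → I U ≠ U →
      (RemA AE ⟨(Rd p0).1, U⟩ X ∧ RemA AE ⟨(Rd p0).1, I U⟩ X) ∨
      ∃ p q : Cyc k, Rd p = ⟨(Rd p0).1, U⟩ ∧ Rd q = ⟨(Rd p0).1, I U⟩ ∧ p ∉ X ∧ q ∉ X ∧
        Typd Pp Pw {p, q} ∧ RemA AE ⟨(Rd p0).1, U⟩ ({p} ∪ X) ∧ RemA AE ⟨(Rd p0).1, I U⟩ ({q} ∪ X))
    (fx : ∀ U, Rd U = Rd (Rd p0).2 → I U = U → ∃ G : Set (Set (Cyc k)), (∀ F ∈ G, F.Nonempty ∧
      Typd Pp Pw F ∧ ∀ c ∈ F, Rd c = ⟨(Rd p0).1, U⟩ ∧ c ∉ X) ∧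
      (∀ F ∈ G, ∀ F' ∈ G, ∀ c, c ∈ F → c ∈ F' → F = F') ∧ RemA AE ⟨(Rd p0).1, U⟩ (inG G ∪ X)) :
    ∃ Gp Gw, ClsOK AE (cl p0) X Gp Gw Pp Pw := by
  classical
  obtain ⟨j, hj⟩ : ∃ j, j = (Rd p0).1 := ⟨_, rfl⟩
  obtain ⟨V, hV⟩ : ∃ V, V = Rd (Rd p0).2 := ⟨_, rfl⟩
  have hcl : ∀ p : Cyc k, cl p = cl p0 ↔ (Rd p).1 = j ∧ Rd (Rd p).2 = V := by
    intro p
    rw [cl_iff, hj, hV]
  revert I
  rw [← hV, ← hj]
  intro I hI mv fx
  -- symmetric choice over the moved pairs
  let good : Cyc k → Cyc k → Cyc j → Cyc j → Prop := fun p q U U' => Rd p = ⟨j, U⟩ ∧ Rd q = ⟨j, U'⟩ ∧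
    p ∉ X ∧ q ∉ X ∧ Typd Pp Pw {p, q} ∧ RemA AE ⟨j, U⟩ ({p} ∪ X) ∧ RemA AE ⟨j, U'⟩ ({q} ∪ X)
  -- the involution on all reduced T-cycles of this size
  let J : Cyc j → Cyc j := fun U => if Rd U = V then I U else U
  have hJ : ∀ U, J (J U) = U := by
    intro U
    by_cases h : Rd U = V
    · have h1 := hI U h
      simp only [J, if_pos h, if_pos h1.1, h1.2]
    · simp only [J, if_neg h]
  have hJ1 : ∀ U, Rd U = V → J U = I U := fun U h => if_pos h
  have hJ2 : ∀ U, J U ≠ U → Rd U = V ∧ I U ≠ U := by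
    intro U h
    by_cases h1 : Rd U = V
    · rw [hJ1 U h1] at h
      exact ⟨h1, h⟩
    · exact absurd (if_neg h1) h
  obtain ⟨Fc, hF1, hF2⟩ := exists_sym (D := Option (Cyc k × Cyc k)) J hJ
    (fun x U U' => match x with
      | none => RemA AE ⟨j, U⟩ X ∧ RemA AE ⟨j, U'⟩ X
      | some (p, q) => good p q U U') (by
      intro U hU
      obtain ⟨h1, h2⟩ := hJ2 U hU
      rw [hJ1 U h1]
      rcases mv U h1 h2 with h | ⟨p, q, h⟩
      · exact ⟨none, Or.inl h⟩
      · exact ⟨some (p, q), Or.inl h⟩)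
  choose! GU hGU using fx
  -- the groups
  let G : Set (Set (Cyc k)) := {F | (∃ U p q, J U ≠ U ∧ Fc U = some (p, q) ∧ F = {p, q}) ∨
    ∃ U, Rd U = V ∧ I U = U ∧ F ∈ GU U}
  have hsomeP : ∀ U p q, J U ≠ U → Fc U = some (p, q) → good p q U (J U) ∨ good p q (J U) U := by
    intro U p q hU hF
    have := hF2 U hU
    rw [hF] at this
    exact this
  have hnone : ∀ U, J U ≠ U → Fc U = none → RemA AE ⟨j, U⟩ X := by
    intro U hU hF
    have := hF2 U hU
    rw [hF] at this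
    rcases this with h | h
    · exact h.1
    · exact h.2
  have hmvJ : ∀ U, J U ≠ U → J (J U) ≠ J U := by
    intro U h h'
    rw [hJ] at h'
    exact h h'.symm
  -- over `U` the pair group has exactly one member
  have hpair : ∀ U, J U ≠ U → ∀ p q, Fc U = some (p, q) → ∃ r, r ∈ ({p, q} : Set (Cyc k)) ∧
      Rd r = ⟨j, U⟩ ∧ RemA AE ⟨j, U⟩ ({r} ∪ X) ∧
      ∀ c ∈ ({p, q} : Set (Cyc k)), Rd c = ⟨j, U⟩ → c = r := by
    intro U hU p q hF
    have hne : ∀ {c : Cyc k}, Rd c = ⟨j, U⟩ → Rd c = ⟨j, J U⟩ → False := by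
      intro c h1 h2
      have := eq_of_heq (Sigma.mk.inj_iff.1 (h1.symm.trans h2)).2
      exact hU this.symm
    rcases hsomeP U p q hU hF with ⟨a1, a2, a3, a4, a5, a6, a7⟩ | ⟨a1, a2, a3, a4, a5, a6, a7⟩
    · refine ⟨p, Or.inl rfl, a1, a6, ?_⟩
      rintro c (rfl | rfl) hc
      · rfl
      · exact absurd a2 (fun h => hne hc h)
    · refine ⟨q, Or.inr rfl, a2, a7, ?_⟩
      rintro c (rfl | rfl) hc
      · exact absurd a1 (fun h => hne hc h)
      · rfl
  have hpty : ∀ U p q, J U ≠ U → Fc U = some (p, q) → Typd Pp Pw {p, q} ∧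
      ∀ c ∈ ({p, q} : Set (Cyc k)), c ∉ X ∧ (Rd c = ⟨j, U⟩ ∨ Rd c = ⟨j, J U⟩) := by
    intro U p q hU hF
    rcases hsomeP U p q hU hF with ⟨a1, a2, a3, a4, a5, a6, a7⟩ | ⟨a1, a2, a3, a4, a5, a6, a7⟩
    · refine ⟨a5, ?_⟩
      rintro c (rfl | rfl)
      · exact ⟨a3, Or.inl a1⟩
      · exact ⟨a4, Or.inr a2⟩
    · refine ⟨a5, ?_⟩
      rintro c (rfl | rfl)
      · exact ⟨a3, Or.inr a1⟩
      · exact ⟨a4, Or.inl a2⟩
  have hVJ : ∀ U, J U ≠ U → Rd U = V ∧ Rd (J U) = V := by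
    intro U hU
    have h1 := (hJ2 U hU).1
    exact ⟨h1, by rw [hJ1 U h1]; exact (hI U h1).1⟩
  obtain ⟨Gp, Gw, -, hC⟩ := cls_of_set (Pp := Pp) (Pw := Pw) (AE := AE) (κ := cl p0) (X := X) G
    (by
      rintro F (⟨U, p, q, hU, hF, rfl⟩ | ⟨U, h1, h2, hF⟩)
      · exact ⟨p, Or.inl rfl⟩
      · exact ((hGU U h1 h2).1 F hF).1)
    (by
      rintro F (⟨U, p, q, hU, hF, rfl⟩ | ⟨U, h1, h2, hF⟩) c hc
      · obtain ⟨e1, e2⟩ := (hpty U p q hU hF).2 c hc
        refine ⟨(hcl c).2 ?_, e1⟩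
        obtain ⟨v1, v2⟩ := hVJ U hU
        rcases e2 with e2 | e2
        · rw [e2]; exact ⟨rfl, v1⟩
        · rw [e2]; exact ⟨rfl, v2⟩
      · obtain ⟨e1, e2⟩ := ((hGU U h1 h2).1 F hF).2.2 c hc
        refine ⟨(hcl c).2 ?_, e2⟩
        rw [e1]
        exact ⟨rfl, h1⟩)
    (by
      -- a group is determined by a member
      have key : ∀ F ∈ G, ∀ c ∈ F, ∀ U, Rd c = ⟨j, U⟩ →
          (J U ≠ U ∧ ∃ p q, Fc U = some (p, q) ∧ F = {p, q}) ∨ (Rd U = V ∧ I U = U ∧ F ∈ GU U) := by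
        rintro F (⟨U', p, q, hU, hF, rfl⟩ | ⟨U', h1, h2, hF⟩) c hc U hcU
        · left
          rcases ((hpty U' p q hU hF).2 c hc).2 with e2 | e2
          · have : U' = U := eq_of_heq (Sigma.mk.inj_iff.1 (e2.symm.trans hcU)).2
            subst this
            exact ⟨hU, p, q, hF, rfl⟩
          · have : J U' = U := eq_of_heq (Sigma.mk.inj_iff.1 (e2.symm.trans hcU)).2
            subst this
            exact ⟨hmvJ U' hU, p, q, by rw [hF1]; exact hF, rfl⟩
        · right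
          have e1 := (((hGU U' h1 h2).1 F hF).2.2 c hc).1
          have : U' = U := eq_of_heq (Sigma.mk.inj_iff.1 (e1.symm.trans hcU)).2
          subst this
          exact ⟨h1, h2, hF⟩
      intro F hF F' hF' c hc hc'
      have hcj : (Rd c).1 = j := by
        rcases hF with ⟨U, p, q, hU, hF, rfl⟩ | ⟨U, h1, h2, hF⟩
        · rcases ((hpty U p q hU hF).2 c hc).2 with e | e
          · rw [e]
          · rw [e]
        · rw [(((hGU U h1 h2).1 F hF).2.2 c hc).1]
      obtain ⟨U, hU⟩ : ∃ U : Cyc j, Rd c = ⟨j, U⟩ := by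
        rcases hRc : Rd c with ⟨j', U'⟩
        rw [hRc] at hcj
        change j' = j at hcj
        subst hcj
        exact ⟨U', rfl⟩
      rcases key F hF c hc U hU with ⟨a1, p, q, a2, a3⟩ | ⟨a1, a2, a3⟩
      · rcases key F' hF' c hc' U hU with ⟨b1, p', q', b2, b3⟩ | ⟨b1, b2, b3⟩
        · rw [a2] at b2
          obtain ⟨rfl, rfl⟩ : p = p' ∧ q = q' := by simpa using b2
          rw [a3, b3]
        · exact absurd (by rw [hJ1 U b1]; exact b2) a1
      · rcases key F' hF' c hc' U hU with ⟨b1, p', q', b2, b3⟩ | ⟨b1, b2, b3⟩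
        · exact absurd (by rw [hJ1 U a1]; exact a2) b1
        · exact (hGU U a1 a2).2.1 F a3 F' b3 c hc hc')
    (by
      rintro F (⟨U, p, q, hU, hF, rfl⟩ | ⟨U, h1, h2, hF⟩)
      · exact (hpty U p q hU hF).1
      · exact ((hGU U h1 h2).1 F hF).2.1)
    (by
      intro p hp
      obtain ⟨e1, e2⟩ := (hcl p).1 hp
      obtain ⟨U, hU⟩ : ∃ U : Cyc j, Rd p = ⟨j, U⟩ := by
        rcases hRc : Rd p with ⟨j', U'⟩
        rw [hRc] at e1
        change j' = j at e1
        subst e1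
        exact ⟨U', rfl⟩
      rw [hU] at e2
      change Rd U = V at e2
      rw [hU]
      by_cases hm : J U = U
      · have h2 : I U = U := by rw [← hJ1 U e2]; exact hm
        refine ((hGU U e2 h2).2.2).congr fun c hc => ?_
        constructor
        · rintro (⟨F, hF, hcF⟩ | h)
          · exact Or.inl ⟨F, Or.inr ⟨U, e2, h2, hF⟩, hcF⟩
          · exact Or.inr h
        · rintro (⟨F, hF, hcF⟩ | h)
          · rcases hF with ⟨U', p', q', hU', hF', rfl⟩ | ⟨U', h1', h2', hF'⟩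
            · exfalso
              rcases ((hpty U' p' q' hU' hF').2 c hcF).2 with e3 | e3
              · have : U' = U := eq_of_heq (Sigma.mk.inj_iff.1 (e3.symm.trans hc)).2
                subst this
                exact hU' hm
              · have : J U' = U := eq_of_heq (Sigma.mk.inj_iff.1 (e3.symm.trans hc)).2
                subst this
                exact hmvJ U' hU' hm
            · have e3 := (((hGU U' h1' h2').1 F hF').2.2 c hcF).1
              have : U' = U := eq_of_heq (Sigma.mk.inj_iff.1 (e3.symm.trans hc)).2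
              subst this
              exact Or.inl ⟨F, hF', hcF⟩
          · exact Or.inr h
      · have hGc : ∀ c : Cyc k, Rd c = ⟨j, U⟩ → (c ∈ inG G ↔ ∃ p q, Fc U = some (p, q) ∧
            c ∈ ({p, q} : Set (Cyc k))) := by
          intro c hc
          constructor
          · rintro ⟨F, hF, hcF⟩
            rcases hF with ⟨U', p', q', hU', hF', rfl⟩ | ⟨U', h1', h2', hF'⟩
            · rcases ((hpty U' p' q' hU' hF').2 c hcF).2 with e3 | e3
              · have : U' = U := eq_of_heq (Sigma.mk.inj_iff.1 (e3.symm.trans hc)).2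
                subst this
                exact ⟨p', q', hF', hcF⟩
              · have : J U' = U := eq_of_heq (Sigma.mk.inj_iff.1 (e3.symm.trans hc)).2
                subst this
                exact ⟨p', q', by rw [hF1]; exact hF', hcF⟩
            · exfalso
              have e3 := (((hGU U' h1' h2').1 F hF').2.2 c hcF).1
              have : U' = U := eq_of_heq (Sigma.mk.inj_iff.1 (e3.symm.trans hc)).2
              subst this
              exact hm (by rw [hJ1 _ h1']; exact h2')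
          · rintro ⟨p', q', h1, h2⟩
            exact ⟨{p', q'}, Or.inl ⟨U, p', q', hm, h1, rfl⟩, h2⟩
        obtain ⟨x, hx⟩ : ∃ x, Fc U = x := ⟨_, rfl⟩
        rcases x with _ | ⟨p', q'⟩
        · refine (hnone U hm hx).congr fun c hc => ?_
          constructor
          · exact Or.inr
          · rintro (h | h)
            · obtain ⟨p', q', h1, _⟩ := (hGc c hc).1 h
              rw [hx] at h1
              simp at h1
            · exact h
        · obtain ⟨r, hr1, hr2, hr3, hr4⟩ := hpair U hm p' q' hx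
          refine hr3.congr fun c hc => ?_
          constructor
          · rintro (h | h)
            · rw [Set.mem_singleton_iff] at h
              subst h
              exact Or.inl ((hGc c hc).2 ⟨p', q', hx, hr1⟩)
            · exact Or.inr h
          · rintro (h | h)
            · obtain ⟨p'', q'', h1, h2⟩ := (hGc c hc).1 h
              rw [hx] at h1
              obtain ⟨rfl, rfl⟩ : p' = p'' ∧ q' = q'' := by simpa using h1
              exact Or.inl (hr4 c h2 hc)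
            · exact Or.inr h)
  exact ⟨Gp, Gw, hC⟩

end Pool.OddHC
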