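import Pool.Agent.Work.MP_8f87b2_fin.RegH
import Pool.Agent.Work.MP_8f87b2_h38.PartDnV
import Pool.Agent.Work.MP_8f87b2_h20.S5Reg

/-!
# All T-cycles of one height from the regions (C6)

`OneV n`: the doubly reduced T-cycles `(n)`, `(n, 1)`. `RestV k h`: the other ones of height `h - 2` with a bead, `BareZ k h`:
the bare T-cycles over the others. `cover6`: the groups of height `h = n + 2` from the region `OneV n` and the region of
`BareZ`, `RestV`. `cover6_dn`: the same from single regions and the cross links `D z d`.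
-/

set_option autoImplicit false

namespace Pool.OddHC

open Finset BinaryTree Multiset Pool.OddHop

variable {k n j2 : ℕ} {τ : Type} {Q : τ → Set (Cyc k) → DG k → Prop}

/-- one soliton `n`, and the two solitons `(n, 1)` -/
def OneV (n : ℕ) : Set RD := {(⟨n, cyc (pwX n)⟩ : RD), (⟨n + 1, cyc (S5.vX n)⟩ : RD)}

/-- the other doubly reduced T-cycles with at least one bead above -/
def RestV (k h : ℕ) : Set RD :=
  {d | htc d.2 + 2 = h ∧ 2 ≤ pkc d.2 ∧ d.1 + 2 * pkc d.2 + 1 ≤ k ∧ d ∉ OneV (h - 2)}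

/-- the bare T-cycles over the others -/
def BareZ (k h : ℕ) : Set (Cyc k) :=
  {z | htc z = h ∧ 1 ∉ contc z ∧ 2 ∉ contc z ∧ Rd (Rd z).2 ∉ OneV (h - 2)}

/-- one soliton -/
theorem one_of_pkc (V : Cyc j2) (h : pkc V = 1) : (⟨j2, V⟩ : RD) = ⟨htc V, cyc (pwX (htc V))⟩ := by
  obtain ⟨v, rfl⟩ := Quotient.exists_rep V
  have h1 : Multiset.card (contc (cyc v)) = 1 := h
  obtain ⟨x, hx⟩ := Multiset.card_eq_one.1 h1
  have h2 : (contc (cyc v)).sum = j2 := by
    rw [contc_cyc]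
    exact (cont_sum v.1).trans (X_num v)
  have h3 : htc (cyc v) = x := by
    have : htc (cyc v) = (contc (cyc v)).sup := rfl
    rw [this, hx, Multiset.sup_singleton]
  rw [hx, Multiset.sum_singleton] at h2
  subst h2
  have hx1 : 1 ≤ x := by
    have h4 : x ∈ cont v.1 := by
      rw [← contc_cyc, hx]
      exact Multiset.mem_singleton_self _
    exact cont_pos _ _ h4
  change (⟨x, cyc v⟩ : RD) = ⟨htc (cyc v), cyc (pwX (htc (cyc v)))⟩
  rw [h3, S5.Uq_ch x hx1 (cyc v) _ hx (S5.cont_pwX hx1)]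

/-- the heights of `OneV` -/
theorem oneV_htc (hn : 2 ≤ n) {d : RD} (hd : d ∈ OneV n) : htc d.2 = n := by
  have h0 : htc d.2 = (contc d.2).sup := rfl
  rcases hd with rfl | hd
  · rw [h0]
    change (contc (cyc (pwX n))).sup = n
    rw [S5.cont_pwX (by omega), Multiset.sup_singleton]
  · obtain rfl := hd
    rw [h0]
    change (contc (cyc (S5.vX n))).sup = n
    rw [contc_cyc, S5.c_vX (by omega), Multiset.sup_add, Multiset.sup_singleton, Multiset.sup_singleton]
    exact sup_eq_left.2 (by omega)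

/-- **THE COVER OF THE HEIGHT `n + 2`** -/
theorem cover6 (hp : ∀ t F g, Q t F g → ∀ c ∈ F, ∀ d ∈ F, htc c = htc d) (hn : 2 ≤ n)
    (one : RegOK Q (OneV n))
    (rest : ClsReg Q ({κ | ∃ z ∈ BareZ k (n + 2), cl z = κ} ∪ {κ | κ.1 ∈ RestV k (n + 2)} :
      Set (RD × Multiset ℕ))) :
    ∃ G, GrpOK {p : Cyc k | htc p = n + 2} G Q := by
  have hn2 : n + 2 - 2 = n := by omega
  have r1 : ClsReg Q ({κ | κ.1 ∈ OneV n} : Set (RD × Multiset ℕ)) := one
  obtain ⟨G, hG⟩ := ((r1.union rest (by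
    rintro κ h1 (⟨z, h2, rfl⟩ | h2)
    · have h3 := h2.2.2.2
      rw [hn2] at h3
      exact h3 h1
    · have h3 := h2.2.2.2
      rw [hn2] at h3
      exact h3 h1)).restr hp (fun h => h = n + 2)).grp
  refine ⟨G, ?_⟩
  have e : {p : Cyc k | htc p = n + 2} = {p : Cyc k | cl p ∈ {κ : RD × Multiset ℕ |
      κ ∈ ({κ | κ.1 ∈ OneV n} ∪ ({κ | ∃ z ∈ BareZ k (n + 2), cl z = κ} ∪
        {κ | κ.1 ∈ RestV k (n + 2)}) : Set (RD × Multiset ℕ)) ∧ κ.2.sup = n + 2}} := by
    ext p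
    constructor
    · intro h1
      have h1 : htc p = n + 2 := h1
      refine ⟨?_, h1⟩
      by_cases h2 : Rd (Rd p).2 ∈ OneV n
      · exact Or.inl h2
      obtain ⟨j2, V, hV⟩ : ∃ j2, ∃ V : Cyc j2, Rd (Rd p).2 = ⟨j2, V⟩ := ⟨_, _, rfl⟩
      have h3 := htc_Rd2 p (by omega)
      have h4 := ov_total hV
      rw [hV] at h3 h2
      change htc p = htc V + 2 at h3
      have h5 : pkc V ≠ 0 := by
        intro h4
        have h5 : contc V = 0 := Multiset.card_eq_zero.1 h4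
        have h6 : htc V = (contc V).sup := rfl
        rw [h5, Multiset.sup_zero] at h6
        change htc V = 0 at h6
        omega
      have h6 : pkc V ≠ 1 := by
        intro h6
        apply h2
        rw [one_of_pkc V h6]
        left
        have h7 : htc V = n := by omega
        rw [h7]
      by_cases h7 : 2 * aa p + (contc p).count 1 = 0
      · refine Or.inr (Or.inl ⟨p, ⟨h1, ?_, ?_, ?_⟩, rfl⟩)
        · exact Multiset.count_eq_zero.1 (by omega)
        · have h8 : (contc p).count 2 = aa p := by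
            have h9 := contc_eq p
            rw [h9, Multiset.count_add, Multiset.count_replicate, if_neg (by norm_num), add_zero]
            exact Multiset.count_map_eq_count' (· + 1) _ (add_left_injective 1) 1
          exact Multiset.count_eq_zero.1 (by omega)
        · rw [hn2, hV]
          exact h2
      · refine Or.inr (Or.inr ?_)
        have h8 : (cl p).1 = ⟨j2, V⟩ := hV
        change (cl p).1 ∈ RestV k (n + 2)
        rw [h8]
        refine ⟨?_, ?_, ?_, ?_⟩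
        · change htc V + 2 = n + 2
          omega
        · change 2 ≤ pkc V
          omega
        · change j2 + 2 * pkc V + 1 ≤ k
          omega
        · rw [hn2]
          exact h2
    · rintro ⟨_, h1⟩
      exact h1
  rw [e]
  exact hG

/-- **THE COVER OF THE HEIGHT `n + 2` FROM THE REGIONS AND THE CROSS LINKS** -/
theorem cover6_dn (hp : ∀ t F g, Q t F g → ∀ c ∈ F, ∀ d ∈ F, htc c = htc d) (hn : 2 ≤ n)
    (one : RegOK Q (OneV n)) (D : Cyc k → RD → Prop)
    (hD : ∀ z d, D z d → z ∈ BareZ k (n + 2) ∧ d ∈ RestV k (n + 2))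
    (hD1 : ∀ z z' d, D z d → D z' d → z = z') (hD2 : ∀ z d d', D z d → D z d' → d = d')
    (hg : ∀ z d, D z d → ClsReg Q ({cl z} ∪ {κ | κ.1 = d} : Set (RD × Multiset ℕ)))
    (hw : ∀ z ∈ BareZ k (n + 2), (∀ d, ¬ D z d) → ClsReg Q ({cl z} : Set (RD × Multiset ℕ)))
    (r1 : ∀ (j2 : ℕ) (V : Cyc j2), htc V = n → 2 ≤ pkc V → j2 + 2 * pkc V + 1 = k →
      (⟨j2, V⟩ : RD) ∉ OneV n → (∀ z, ¬ D z ⟨j2, V⟩) → RegOK Q ({⟨j2, V⟩} : Set RD))
    (r2 : ∀ (j2 : ℕ) (V : Cyc j2), htc V = n → 2 ≤ pkc V → j2 + 2 * pkc V + 2 ≤ k →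
      (⟨j2, V⟩ : RD) ∉ OneV n → (∀ z, ¬ D z ⟨j2, V⟩) → RegOK Q ({⟨j2, V⟩} : Set RD)) :
    ∃ G, GrpOK {p : Cyc k | htc p = n + 2} G Q := by
  refine cover6 hp hn one (reg_dn (P := Q) (BareZ k (n + 2)) (RestV k (n + 2)) D ?_ ?_ hD hD1 hD2 hg hw ?_)
  · rintro z ⟨_, h1, h2, _⟩
    exact ⟨h1, h2⟩
  · rintro z ⟨_, h1, h2, _⟩ h3
    have h4 := bare_M0 h1 h2
    have h5 := h3.2.2.1
    omega
  · rintro ⟨j2, V⟩ ⟨h1, h2, h3, h4⟩ h5
    change htc V + 2 = n + 2 at h1
    change 2 ≤ pkc V at h2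
    change j2 + 2 * pkc V + 1 ≤ k at h3
    have h6 : n + 2 - 2 = n := by omega
    rw [h6] at h4
    rcases Nat.lt_or_ge (j2 + 2 * pkc V + 1) k with h7 | h7
    · exact r2 j2 V (by omega) h2 (by omega) h4 h5
    · exact r1 j2 V (by omega) h2 (by omega) h4 h5

end Pool.OddHC
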