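import Pool.Agent.Work.MP_8f87b2_fin.Asm

/-!
# The last theorem

`MidData n` : all data of the middle for `k = n + 7`. `final_of` : `2 k + 1` lies in the compression set for every `k > 12`.
-/

set_option autoImplicit false

namespace Pool.OddHC

open Finset Equiv Pool.Agent.Work.MP_8f87b2_co

/-- **all data of the middle** for `k = n + 7` -/
structure MidData (n : ℕ) where
  τ : Type
  ne : Nonempty τ
  P : τ → Set (Cyc (n + 2 + 5)) → DG (n + 2 + 5) → Prop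
  G : Set (Set (Cyc (n + 2 + 5)))
  s : Bool
  grp : GrpOK (NM n) G P
  inn : X (n + 2 + 5) × X (n + 2 + 5) → Set (X (n + 2 + 5))
  pri : τ → ℕ
  LP : Set (Cyc (n + 2 + 5)) → Prop
  LJ : Set (Cyc (n + 2 + 5)) → Prop
  r : Set (Cyc (n + 2 + 5)) → ℤ
  lw : Set (Cyc (n + 2 + 5)) → List ℤ
  vw : τ → Set (Cyc (n + 2 + 5)) → List ℤ
  kd : τ → Ke
  kind : KindT (OM n) G P pri LP LJ r lw vw kd
  hF : ∀ t F g, P t F g → ∀ w, w ∈ g.F ↔ cyc w ∈ F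
  new : ∀ t F g, P t F g → ∀ c ∈ F, ∃ u ∈ g.B, cyc u = c
  old : ∀ t F g, P t F g → ∃ u ∈ g.B, cyc u ∉ F
  path : ∀ t F g, P t F g → ∀ a ∈ g.arcs, ∃ n' : ℕ, (TT ^ (n' + 1)) a.1 = a.2 ∧
    a.1 ∈ g.B ∧ ∀ i < n', (TT ^ (i + 1)) a.1 ∉ g.B ∧ (TT ^ (i + 1)) a.1 ∈ inn a
  abs : ∀ t F g, P t F g → g.Abs
  dis : ∀ F ∈ G, ∀ F' ∈ G, F ≠ F' → ∀ t g, Fst P pri t F g → ∀ t' g', Fst P pri t' F' g' →
    ∀ w ∈ g.B, w ∉ g'.B
  inner : ∀ F ∈ G, ∀ F' ∈ G, F ≠ F' → ∀ t g, Fst P pri t F g → ∀ t' g', Fst P pri t' F' g' →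
    (mc F).sup ≤ (mc F').sup → ∀ a ∈ g.arcs, ∀ w ∈ inn a, cyc w ∉ F → w ∈ g'.B →
      muT LP LJ r lw vw kd t F < muT LP LJ r lw vw kd t' F'
  top : ∀ F ∈ G, ∀ t g, Fst P pri t F g → ∀ w ∈ g.B, FreeTop n w
  topI : ∀ F ∈ G, ∀ t g, Fst P pri t F g → ∀ a ∈ g.arcs, ∀ w ∈ inn a, FreeTop n w
  bot : ∀ F ∈ G, ∀ t g, Fst P pri t F g → ∀ w ∈ g.B, w ∉ botW (n + 2 + 5) s

theorem MidData.thm {n : ℕ} (h : MidData n) (hn : 3 ≤ n) :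
    2 * (n + 2 + 5) + 1 ∈ compressionSet (oddGraph (n + 2 + 5)) := by
  haveI := h.ne
  exact asmT hn h.s h.grp h.inn h.kind h.hF h.new h.old h.path h.abs h.dis h.inner h.top h.topI h.bot

/-- **FINAL** -/
theorem final_of (h : ∀ n, 6 ≤ n → Nonempty (MidData n)) (k : ℕ) (hk : 12 < k) :
    2 * k + 1 ∈ compressionSet (oddGraph k) := by
  obtain ⟨n, rfl⟩ : ∃ n, k = n + 2 + 5 := ⟨k - 7, by omega⟩
  obtain ⟨d⟩ := h n (by omega)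
  exact d.thm (by omega)

end Pool.OddHC
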