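import Pool.Agent.Work.MP_8f87b2_end.Mid2
import Pool.Agent.Work.MP_8f87b2_mid.Rank2

/-!
# The final instance, general part

`GOK`: a set `G` of groups (everything but the E-pairs) such that in every family the T-cycles outside the groups are
perfectly matched by `AE`-pairs. `GOK.plan`: the plan. Plain groups: the `AE`-pairs and `Gp`; windows: `Gw`.
-/

set_option autoImplicit false

namespace Pool.OddHC

open Finset Equiv Pool.Agent.Work.MP_8f87b2_co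

variable {k : ℕ}

/-- types with the groups they are used for -/
def PG {τp τw : Type} (Qp Qw : Set (Set (Cyc k))) (Pp : τp → Set (Cyc k) → DG k → Prop)
    (Pw : τw → Set (Cyc k) → DG k → Prop) : τp ⊕ τw → Set (Cyc k) → DG k → Prop
  | .inl t, F, g => F ∈ Qp ∧ Pp t F g
  | .inr t, F, g => F ∈ Qw ∧ Pw t F g

/-- the T-cycles which lie in a group -/
def inG (G : Set (Set (Cyc k))) : Set (Cyc k) := {p | ∃ F ∈ G, p ∈ F}

/-- the groups of a region or of the whole plan: `Gp` plain groups, `Gw` windows -/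
structure GOK {τp τw : Type} (O N : Set (Cyc k)) (Gp Gw : Set (Set (Cyc k)))
    (Pp : τp → Set (Cyc k) → DG k → Prop) (Pw : τw → Set (Cyc k) → DG k → Prop)
    (ord : Set (Cyc k) → ℕ) (Om : ℕ) : Prop where
  /-- `N` is closed under the families -/
  fam : ∀ p q : Cyc k, Rd p = Rd q → p ∈ N → q ∈ N
  /-- higher T-cycles are old or in `N` -/
  up : ∀ p ∈ N, ∀ q, htc p < htc q → q ∈ O ∨ q ∈ N
  ne : ∀ F ∈ Gp ∪ Gw, F.Nonempty
  sub : ∀ F ∈ Gp ∪ Gw, ∀ c ∈ F, c ∈ N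
  one : ∀ F ∈ Gp ∪ Gw, ∀ F' ∈ Gp ∪ Gw, ∀ c, c ∈ F → c ∈ F' → F = F'
  pw : ∀ F ∈ Gp, F ∉ Gw
  exp : ∀ F ∈ Gp, ∃ t g, Pp t F g
  exw : ∀ F ∈ Gw, ∃ t g, Pw t F g
  om : ∀ F ∈ Gw, ord F < Om
  /-- outside the groups: pairs -/
  rem : ∀ p ∈ N, RemA (fun p q => p ≠ q ∧ ∃ t g, Pp t {p, q} g) (Rd p) (inG (Gp ∪ Gw))
  htp : ∀ t F g, Pp t F g → ∀ c ∈ F, ∀ d ∈ F, htc c = htc d
  htw : ∀ F ∈ Gw, ∀ c ∈ F, ∀ d ∈ F, htc c = htc d
  /-- plain: every old word is higher -/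
  rkp : ∀ t F g, Pp t F g → ∀ w ∈ g.B, cyc w ∈ F ∨ ∀ c ∈ F, htc c < htc (cyc w)
  /-- windows: every old word is higher or of the same height, not in a window or in an older one -/
  rkw : ∀ t, ∀ F ∈ Gw, ∀ g, Pw t F g → ∀ w ∈ g.B, cyc w ∈ F ∨ (∀ c ∈ F, htc c < htc (cyc w)) ∨
    ((∀ c ∈ F, htc c = htc (cyc w)) ∧ cyc w ∈ N ∧ ∀ F' ∈ Gw, cyc w ∈ F' → ord F' < ord F)

variable {τp τw : Type} {O N : Set (Cyc k)} {Gp Gw : Set (Set (Cyc k))}
  {Pp : τp → Set (Cyc k) → DG k → Prop} {Pw : τw → Set (Cyc k) → DG k → Prop}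
  {ord : Set (Cyc k) → ℕ} {Om : ℕ}

open Classical in
/-- the height of a group -/
noncomputable def hgF (F : Set (Cyc k)) : ℕ := if h : F.Nonempty then htc h.choose else 0

theorem hgF_eq {F : Set (Cyc k)} (h : ∀ c ∈ F, ∀ d ∈ F, htc c = htc d) {c : Cyc k} (hc : c ∈ F) :
    hgF F = htc c := by
  have hn : F.Nonempty := ⟨c, hc⟩
  unfold hgF
  rw [dif_pos hn]
  exact h _ hn.choose_spec _ hc

/-- **THE PLAN** -/
theorem GOK.plan (h : GOK O N Gp Gw Pp Pw ord Om) : ∃ E : Set (Set (Cyc k)),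
    (∀ F ∈ E, ∃ p q, F = {p, q} ∧ p ≠ q ∧ p ∉ inG (Gp ∪ Gw) ∧ q ∉ inG (Gp ∪ Gw) ∧ Rd p = Rd q ∧
      p ∈ N ∧ ∃ t g, Pp t {p, q} g) ∧
    PlanO O N (E ∪ Gp) Gw (PG (E ∪ Gp) Gw Pp Pw) hgF ord Om := by
  classical
  -- the involution
  have hr : ∀ d : RD, ∃ ι : Cyc k → Cyc k, (∃ p ∈ N, Rd p = d) → ∀ p, Rd p = d → Rd (ι p) = d ∧
      ι (ι p) = p ∧ (ι p = p ∨ (p ≠ ι p ∧ ∃ t g, Pp t {p, ι p} g)) ∧
      (ι p = p ↔ p ∈ inG (Gp ∪ Gw)) := by
    intro d
    by_cases hd : ∃ p ∈ N, Rd p = d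
    · obtain ⟨p, hp, rfl⟩ := hd
      obtain ⟨ι, hι⟩ := h.rem p hp
      exact ⟨ι, fun _ => hι⟩
    · exact ⟨id, fun h => absurd h hd⟩
  choose I hI using hr
  let ι : Cyc k → Cyc k := fun p => I (Rd p) p
  have key : ∀ p ∈ N, Rd (ι p) = Rd p ∧ ι (ι p) = p ∧
      (ι p = p ∨ (p ≠ ι p ∧ ∃ t g, Pp t {p, ι p} g)) ∧ (ι p = p ↔ p ∈ inG (Gp ∪ Gw)) := by
    intro p hp
    obtain ⟨h1, h2, h3, h4⟩ := hI (Rd p) ⟨p, hp, rfl⟩ p rfl
    refine ⟨h1, ?_, h3, h4⟩
    change I (Rd (ι p)) (I (Rd p) p) = p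
    rw [show Rd (ι p) = Rd p from h1]
    exact h2
  have hιN : ∀ p ∈ N, ι p ∈ N := fun p hp => h.fam p (ι p) (key p hp).1.symm hp
  let E : Set (Set (Cyc k)) := {F | ∃ p ∈ N, p ∉ inG (Gp ∪ Gw) ∧ F = {p, ι p}}
  have hEN : ∀ F ∈ E, ∀ c ∈ F, c ∈ N ∧ c ∉ inG (Gp ∪ Gw) ∧ F = {c, ι c} := by
    rintro F ⟨p, hp, hpG, rfl⟩ c (rfl | rfl)
    · exact ⟨hp, hpG, rfl⟩
    · obtain ⟨h1, h2, h3, h4⟩ := key p hp
      obtain ⟨_, _, _, h5⟩ := key _ (hιN p hp)
      refine ⟨hιN p hp, ?_, ?_⟩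
      · intro hc
        have h6 := h5.2 hc
        rw [h2] at h6
        exact hpG (h4.1 h6.symm)
      · rw [h2, Set.pair_comm]
  have hEex : ∀ F ∈ E, ∃ t g, Pp t F g := by
    rintro F ⟨p, hp, hpG, rfl⟩
    obtain ⟨h1, h2, h3, h4⟩ := key p hp
    rcases h3 with h3 | ⟨h3, h5⟩
    · exact absurd (h4.1 h3) hpG
    · exact h5
  have hne : ∀ F ∈ (E ∪ Gp) ∪ Gw, F.Nonempty := by
    rintro F ((hF | hF) | hF)
    · obtain ⟨p, hp, _, rfl⟩ := hF
      exact ⟨p, Or.inl rfl⟩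
    · exact h.ne F (Or.inl hF)
    · exact h.ne F (Or.inr hF)
  have hht : ∀ F ∈ (E ∪ Gp) ∪ Gw, ∀ c ∈ F, ∀ d ∈ F, htc c = htc d := by
    rintro F ((hF | hF) | hF)
    · obtain ⟨t, g, hg⟩ := hEex F hF
      exact h.htp t F g hg
    · obtain ⟨t, g, hg⟩ := h.exp F hF
      exact h.htp t F g hg
    · exact h.htw F hF
  refine ⟨E, ?_, ?_⟩
  · rintro F ⟨p, hp, hpG, rfl⟩
    obtain ⟨h1, h2, h3, h4⟩ := key p hp
    have h5 := (hEN {p, ι p} ⟨p, hp, hpG, rfl⟩ (ι p) (Or.inr rfl)).2.1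
    rcases h3 with h3 | ⟨h3, h6⟩
    · exact absurd (h4.1 h3) hpG
    · exact ⟨p, ι p, rfl, h3, hpG, h5, h1.symm, hp, h6⟩
  · constructor
    · exact hne
    · rintro F ((hF | hF) | hF) c hc
      · exact (hEN F hF c hc).1
      · exact h.sub F (Or.inl hF) c hc
      · exact h.sub F (Or.inr hF) c hc
    · intro c hc
      by_cases hcG : c ∈ inG (Gp ∪ Gw)
      · obtain ⟨F, hF, hcF⟩ := hcG
        rcases hF with hF | hF
        · exact ⟨F, Or.inl (Or.inr hF), hcF⟩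
        · exact ⟨F, Or.inr hF, hcF⟩
      · exact ⟨{c, ι c}, Or.inl (Or.inl ⟨c, hc, hcG, rfl⟩), Or.inl rfl⟩
    · intro F hF F' hF' c hc hc'
      have key2 : ∀ F, F ∈ (E ∪ Gp) ∪ Gw → F ∈ E ∨ F ∈ Gp ∪ Gw := by
        rintro F ((hF | hF) | hF)
        · exact Or.inl hF
        · exact Or.inr (Or.inl hF)
        · exact Or.inr (Or.inr hF)
      rcases key2 F hF with h1 | h1
      · obtain ⟨e1, e2, e3⟩ := hEN F h1 c hc
        rcases key2 F' hF' with h2 | h2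
        · rw [e3, (hEN F' h2 c hc').2.2]
        · exact absurd ⟨F', h2, hc'⟩ e2
      · rcases key2 F' hF' with h2 | h2
        · exact absurd ⟨F, h1, hc⟩ (hEN F' h2 c hc').2.1
        · exact h.one F h1 F' h2 c hc hc'
    · rintro F (hF | hF) hF'
      · obtain ⟨c, hc⟩ := hne F (Or.inl (Or.inl hF))
        exact (hEN F hF c hc).2.1 ⟨F, Or.inr hF', hc⟩
      · exact h.pw F hF hF'
    · rintro F (hF | hF)
      · have h1 : ∃ t g, Pp t F g := by
          rcases hF with hF | hF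
          · exact hEex F hF
          · exact h.exp F hF
        obtain ⟨t, g, hg⟩ := h1
        exact ⟨.inl t, g, hF, hg⟩
      · obtain ⟨t, g, hg⟩ := h.exw F hF
        exact ⟨.inr t, g, hF, hg⟩
    · intro F hF c hc
      exact (hgF_eq (hht F hF) hc).symm
    · exact h.om
    · rintro t F hF g hg w hw
      rcases t with t | t
      · rcases h.rkp t F g hg.2 w hw with h1 | h1
        · exact Or.inl h1
        · obtain ⟨c, hc⟩ := hne F (Or.inl hF)
          have hcN : c ∈ N := by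
            rcases hF with hF | hF
            · exact (hEN F hF c hc).1
            · exact h.sub F (Or.inl hF) c hc
          right
          rcases h.up c hcN _ (h1 c hc) with h2 | h2
          · exact Or.inl h2
          · refine Or.inr ⟨h2, ?_⟩
            rw [hgF_eq (hht F (Or.inl hF)) hc]
            exact h1 c hc
      · obtain ⟨c, hc⟩ := hne F (Or.inl hF)
        exfalso
        rcases hF with hF | hF
        · exact (hEN F hF c hc).2.1 ⟨F, Or.inr hg.1, hc⟩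
        · exact h.pw F hF hg.1
    · rintro t F hF g hg w hw
      rcases t with t | t
      · obtain ⟨c, hc⟩ := hne F (Or.inr hF)
        exfalso
        rcases hg.1 with hF2 | hF2
        · exact (hEN F hF2 c hc).2.1 ⟨F, Or.inr hF, hc⟩
        · exact h.pw F hF2 hF
      · obtain ⟨c, hc⟩ := hne F (Or.inr hF)
        have hcN := h.sub F (Or.inr hF) c hc
        have hhc := hgF_eq (hht F (Or.inr hF)) hc
        rcases h.rkw t F hF g hg.2 w hw with h1 | h1 | ⟨h1, h2, h3⟩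
        · exact Or.inl h1
        · right
          rcases h.up c hcN _ (h1 c hc) with h2 | h2
          · exact Or.inl h2
          · exact Or.inr (Or.inl ⟨h2, by rw [hhc]; exact h1 c hc⟩)
        · right; right; right
          by_cases hcG : cyc w ∈ inG (Gp ∪ Gw)
          · obtain ⟨F', hF', hwF⟩ := hcG
            have h4 : hgF F' = hgF F := by
              rw [hhc, h1 c hc, hgF_eq (hht F' (by
                rcases hF' with h5 | h5
                · exact Or.inl (Or.inr h5)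
                · exact Or.inr h5)) hwF]
            rcases hF' with hF' | hF'
            · exact Or.inl ⟨F', Or.inr hF', hwF, h4⟩
            · exact Or.inr ⟨F', hF', hwF, h4, h3 F' hF' hwF⟩
          · refine Or.inl ⟨{cyc w, ι (cyc w)}, Or.inl ⟨cyc w, h2, hcG, rfl⟩, Or.inl rfl, ?_⟩
            rw [hhc, h1 c hc]
            exact hgF_eq (hht _ (Or.inl (Or.inl ⟨cyc w, h2, hcG, rfl⟩))) (Or.inl rfl)

end Pool.OddHC
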