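import Pool.Agent.Work.MP_8f87b2_fin.R1
import Pool.Agent.Work.MP_8f87b2_h62.Drift

/-!
# K links: words

`k_words`: over `r : X i`, beads `e`, `S = C(r, e)`: the triple K with `z = S(())` over `r()`, `t = ()()S` over `r`.
`bead_phase`: in the cycle of `u = C(v, a δ_y)` there is a time at which the star of `v` stands behind the gap `y` and the
gap `x` of `u` stands at any prescribed gap.
-/

set_option autoImplicit false

namespace Pool.OddHC

open Finset BinaryTree Multiset Pool.OddHop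

variable {i j k : ℕ}

theorem lf_head' {n : ℕ} (a : ZMod (n + 1) → ℕ) :
    lf a = a 0 :: (List.range n).map (fun m : ℕ => a ((m + 1 : ℕ) : ZMod (n + 1))) := by
  unfold lf
  rw [List.range_succ_eq_map, List.map_cons, List.map_map]
  congr 1

/-- `c` more beads in the first gap -/
theorem ins_first (t : BinaryTree Unit) {n : ℕ} (a : ZMod (2 * n + 1) → ℕ) (c : ℕ) :
    ins t (lf fun x => a x + if x = 0 then c else 0) = lv c (ins t (lf a)) := by
  have h1 := lf_head' (n := 2 * n) (fun x => a x + if x = 0 then c else 0)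
  have h2 := lf_head' (n := 2 * n) a
  rw [h1, h2, if_pos rfl]
  have h3 : (List.range (2 * n)).map (fun m : ℕ => a ((m + 1 : ℕ) : ZMod (2 * n + 1)) +
      if ((m + 1 : ℕ) : ZMod (2 * n + 1)) = 0 then c else 0) =
      (List.range (2 * n)).map (fun m : ℕ => a ((m + 1 : ℕ) : ZMod (2 * n + 1))) := by
    apply List.map_congr_left
    intro m hm
    rw [List.mem_range] at hm
    have h4 : ¬ ((m + 1 : ℕ) : ZMod (2 * n + 1)) = 0 := by
      intro h
      rw [ZMod.natCast_eq_zero_iff] at h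
      have := Nat.le_of_dvd (by omega) h
      omega
    rw [if_neg h4, add_zero]
  rw [h3, add_comm (a 0) c, ins_lv, ins_lv _ (a 0), lv_add]

/-- the beads of `r()`: those of `r`, none in the last two gaps -/
theorem ins_leaf_back (r : BinaryTree Unit) (e : List ℕ) (he : e.length = 2 * r.numNodes + 1) :
    ins (app r (.nil △ .nil)) (e ++ [0, 0]) = app (ins r e) ((.nil △ .nil) △ .nil) := by
  rw [ins_app _ _ _ _ he]
  rfl

/-- **THE WORDS OF A K LINK** -/
theorem k_words (hi : 1 ≤ i) (r : X i) (e : ZMod (2 * i + 1) → ℕ)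
    (hk : i + pkn r.1 + ∑ x, e x + 2 = k) :
    ∃ (wz wt : X k) (g : DG k), cyc wz ≠ cyc wt ∧ TyK (ins r.1 (lf e)) {cyc wz, cyc wt} g ∧
      wz.1 = ins (app r.1 (.nil △ .nil)) (lf e ++ [0, 0]) ∧
      wt.1 = ins r.1 (lf fun x => e x + if x = 0 then 2 else 0) ∧ htc (cyc wz) = htc (cyc wt) := by
  obtain ⟨S, hS⟩ : ∃ S, S = ins r.1 (lf e) := ⟨_, rfl⟩
  have hrn : r.1 ≠ .nil := by
    intro h
    have := X_num r
    rw [h] at this
    change 0 = i at this
    omega
  have hhS : 2 ≤ ht S := by rw [hS]; exact ht_ins_ge r.1 (lf e) hrn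
  have hnum : S.numNodes + 2 = k := by
    have h1 := (ins_num r.1 (lf e) (by rw [lf_length, X_num])).1
    rw [← hS, lf_sum, X_num] at h1
    omega
  obtain ⟨a, ha⟩ : ∃ a : X k, a.1 = w1 .nil S (.nil △ .nil) := ⟨⟨_, mem_treesOfNumNodesEq.2 (by
    change S.numNodes + 1 + 1 = k
    omega)⟩, rfl⟩
  obtain ⟨b, hb⟩ : ∃ b : X k, b.1 = w1 S (.nil △ .nil) .nil := ⟨⟨_, mem_treesOfNumNodesEq.2 (by
    change (app S ((.nil △ .nil) △ .nil)).numNodes = k
    rw [num_app]
    change S.numNodes + (1 + 0 + 1) = k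
    omega)⟩, rfl⟩
  obtain ⟨c, hc⟩ : ∃ c : X k, c.1 = w1 (.nil △ .nil) .nil S := ⟨⟨_, mem_treesOfNumNodesEq.2 (by
    change 0 + (0 + S.numNodes + 1) + 1 = k
    omega)⟩, rfl⟩
  have e1 : ht b.1 = ht S := by
    rw [hb]
    change ht (app S ((.nil △ .nil) △ .nil)) = _
    rw [ht_app]
    have : ht (((.nil : BinaryTree Unit) △ .nil) △ .nil) = 2 := rfl
    omega
  have e2 : ht c.1 = ht S := by
    rw [hc]
    change ht (.nil △ (.nil △ S)) = _
    rw [ht_node, ht_node]
    have : ht (.nil : BinaryTree Unit) = 0 := rfl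
    omega
  have e3 : ht a.1 = ht S + 1 := by
    rw [ha]
    change ht (S △ (.nil △ .nil)) = _
    rw [ht_node]
    have : ht ((.nil : BinaryTree Unit) △ .nil) = 1 := rfl
    omega
  have hne : cyc b ≠ cyc c := by
    intro h
    have h1 : contc (cyc b) = contc (cyc c) := by rw [h]
    rw [contc_cyc, contc_cyc, hb, hc] at h1
    have h2 : cont (w1 S (.nil △ .nil) .nil) = cont S + {2} := by
      change cont (app S ((.nil △ .nil) △ .nil)) = _
      rw [cont_app]
      rfl
    have h3 : cont (w1 (.nil △ .nil) .nil S) = {1} + ({1} + cont S) := by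
      change cont (.nil △ (.nil △ S)) = _
      rw [cont_node, cont_node]
      rfl
    rw [h2, h3] at h1
    have h4 := congrArg Multiset.card h1
    rw [Multiset.card_add, Multiset.card_add, Multiset.card_add, Multiset.card_singleton,
      Multiset.card_singleton] at h4
    omega
  refine ⟨b, c, pDG {a, b, c} (cyc b) (cyc c) ∅, hne, ?_, ?_, ?_, ?_⟩
  · rw [← hS]
    exact ⟨a, b, c, ha, hb, hc, hne, by rw [htc_cyc, htc_cyc, e1, e2],
      by rw [htc_cyc, htc_cyc, e1, e3]; omega, rfl, rfl⟩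
  · rw [hb, ins_leaf_back _ _ (by rw [lf_length, X_num]), ← hS]
    rfl
  · rw [hc, ins_first, ← hS]
    rfl
  · rw [htc_cyc, htc_cyc, e1, e2]

/-- the star of `v` behind `y`, the gap `x` of `u` at the gap `g`, at the same time -/
theorem bead_phase (v : X i) (u : X j) (a : ℕ) (y : ZMod (2 * i + 1))
    (hu : u.1 = ins v.1 (lf fun z => if z = y then a else 0)) (x g : ZMod (2 * j + 1)) :
    ∃ (t : ℕ) (v' : X i) (u' : X j), v' = (TT ^ t) v ∧ u' = (TT ^ t) u ∧
      u'.1 = ins v'.1 (lf fun z : ZMod (2 * i + 1) => if z = -1 then a else 0) ∧ x - sp u t = g := by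
  obtain ⟨t, h1, h2⟩ := indep1 v (lf fun z => if z = y then a else 0) (lf_length _) u hu (y + 1) (x - g)
  refine ⟨t, (TT ^ t) v, (TT ^ t) u, rfl, rfl, ?_, by rw [h2]; ring⟩
  have hk : i + pkn v.1 + ∑ z : ZMod (2 * i + 1), (if z = y then a else 0) = j := word_phi hu
  have e1 : u = phi v (fun z => if z = y then a else 0) hk := Subtype.ext hu
  rw [e1, pow_phi]
  change ins _ (lf _) = _
  congr 2
  funext z
  rw [h1]
  have : (z + (y + 1) = y) ↔ z = -1 := by
    constructor
    · intro h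
      linear_combination h
    · rintro rfl
      ring
  simp only [this]

/-- the beads over `u` at the time `t` -/
theorem word_pow {u : X j} {w : X k} {b : ZMod (2 * j + 1) → ℕ} (hw : w.1 = ins u.1 (lf b)) (t : ℕ) :
    ((TT ^ t) w).1 = ins ((TT ^ t) u).1 (lf fun x => b (x + sp u t)) := by
  have hk := word_phi hw
  have e1 : w = phi u b hk := Subtype.ext hw
  rw [e1, pow_phi]
  rfl

theorem cyc_pow' (w : X k) (t : ℕ) : cyc ((TT ^ t) w) = cyc w :=
  cyc_eq.2 ⟨-(t : ℤ), by rw [← zpow_natCast, ← Equiv.Perm.mul_apply, ← zpow_add]; simp⟩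

end Pool.OddHC
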