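import Pool.Agent.Work.MP_8f87b2_fin.MatR
import Pool.Agent.Work.MP_8f87b2_h84.JEW2
import Pool.Agent.Work.MP_8f87b2_h84.JEW3
import Pool.Agent.Work.MP_8f87b2_h90.J3S5
import Pool.Agent.Work.MP_8f87b2_h10.EdJ
import Pool.Agent.Work.MP_8f87b2_h43.JVW

/-!
# Rows of the word matrix: the gadgets J3V, JE, JV against the plain triples (helper36)

The side conditions are the negations of helper4's, helper84's and helper43's lists of common words, for SOME data of the two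
groups.
-/

set_option autoImplicit false

namespace Pool.OddHC

open Finset Equiv BinaryTree Pool.Agent.Work.MP_8f87b2_co

namespace MW

open J3

variable {k : ℕ} {F F' : Set (Cyc k)} {g g' : DG k}

/-- the data of a group of type J3V -/
def J3D (F : Set (Cyc k)) (g : DG k) (R B S : BinaryTree Unit) : Prop :=
  ∃ w0 : X k, SqD k R B S ∧ F = {cyc (sX R B S w0 0), cyc (sX R B S w0 1), cyc (sX R B S w0 2)} ∧
    g = gadS (sX R B S w0)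

theorem ins_ne' {R' : BinaryTree Unit} (e : List ℕ) (h1 : R' ≠ .nil) : ins R' e ≠ .nil := by
  have h6 := ht_ins_ge R' e h1
  intro e0
  rw [e0, OddHC.ht] at h6
  omega

/-- `X` is not `(R)`, `(S)B`, `S(B)` -/
def sJ3V_E (F F' : Set (Cyc k)) (g g' : DG k) : Prop :=
  ∃ Y R B S, IsTri .nil Y .nil F g ∧ J3D F' g' R B S ∧
    ¬ (Y = R △ .nil ∨ Y = S △ B ∨ Y = app S (B △ .nil))

theorem r_E_J3V (hd : ∀ c ∈ F, c ∉ F') (hs : sJ3V_E F F' g g') : NC g g' := by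
  obtain ⟨Y, R, B, S, ht, ⟨w0, h1, rfl, rfl⟩, hn⟩ := hs
  intro w hw hw'
  obtain ⟨i, hi, h9, rfl⟩ := mem_gadS.1 hw'
  refine hn (h1.eW (w0 := w0) ht ?_ hw hi h9 (h1.word w0 hi))
  intro c hc
  constructor
  · rintro rfl
    exact hd _ hc (Or.inr (Or.inl rfl))
  · rintro rfl
    exact hd _ hc (Or.inr (Or.inr rfl))

def sJ3V_L (F F' : Set (Cyc k)) (g g' : DG k) : Prop :=
  ∃ Y R B S, Y ≠ .nil ∧ H1.fb Y = false ∧ H1.lastB Y = false ∧ IsTri (lp 1) Y (lp 1) F g ∧ J3D F' g' R B S ∧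
    ¬ (R = Y △ .nil ∨ (B = .nil ∧ S = Y △ .nil) ∨
    (∃ Y', Y = S △ Y' ∧ B = app Y' ((.nil △ .nil) △ .nil)) ∨
    (B ≠ .nil ∧ ∃ S', S = (.nil △ .nil) △ S' ∧ Y = app S' (B △ .nil)))

theorem r_L_J3V (hs : sJ3V_L F F' g g') : NC g g' := by
  obtain ⟨Y, R, B, S, h1, h2, h3, ht, ⟨w0, h5, rfl, rfl⟩, hn⟩ := hs
  intro w hw hw'
  obtain ⟨i, hi, h9, rfl⟩ := mem_gadS.1 hw'
  refine hn ?_
  rcases h5.lW ht h1 h2 h3 hw hi h9 (h5.word w0 hi) with q | q | q | q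
  · exact Or.inl q.2
  · exact Or.inr (Or.inl q.2)
  · exact Or.inr (Or.inr (Or.inl q.2))
  · exact Or.inr (Or.inr (Or.inr q.2))

def sJ3V_K (F F' : Set (Cyc k)) (g g' : DG k) : Prop :=
  ∃ Y R B S, Y ≠ .nil ∧ TyK Y F g ∧ J3D F' g' R B S ∧
    ¬ ((∃ R', R = app R' ((.nil △ .nil) △ .nil) ∧ Y = (.nil △ .nil) △ R') ∨
    (∃ R', R = app R' ((.nil △ .nil) △ .nil) ∧ Y = .nil △ (.nil △ R')) ∨
    (∃ B', B = app B' ((.nil △ .nil) △ .nil) ∧ Y = (.nil △ S) △ B') ∨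
    (∃ B', B = app B' ((.nil △ .nil) △ .nil) ∧ Y = .nil △ (S △ B')))

theorem hd01 {F : Set (Cyc k)} {a b c : Cyc k} (hd : ∀ x ∈ F, x ∉ ({a, b, c} : Set (Cyc k))) :
    ∀ x ∈ F, x ≠ a ∧ x ≠ b := by
  intro x hx
  constructor
  · rintro rfl
    exact hd _ hx (Or.inl rfl)
  · rintro rfl
    exact hd _ hx (Or.inr (Or.inl rfl))

theorem r_K_J3V (hd : ∀ c ∈ F, c ∉ F') (hs : sJ3V_K F F' g g') : NC g g' := by
  obtain ⟨Y, R, B, S, h1, ht, ⟨w0, h5, rfl, rfl⟩, hn⟩ := hs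
  intro w hw hw'
  obtain ⟨i, hi, h9, rfl⟩ := mem_gadS.1 hw'
  refine hn ?_
  rcases h5.kW (w0 := w0) ht h1 (hd01 hd) hw hi h9 (h5.word w0 hi) with q | q | q | q
  · exact Or.inl q.2
  · exact Or.inr (Or.inl q.2)
  · exact Or.inr (Or.inr (Or.inl q.2))
  · exact Or.inr (Or.inr (Or.inr q.2))

def sJ3V_Km (F F' : Set (Cyc k)) (g g' : DG k) : Prop :=
  ∃ Y R B S, Y ≠ .nil ∧ TyK' Y F g ∧ J3D F' g' R B S ∧
    ¬ ((∃ S', S = (.nil △ .nil) △ S' ∧ Y = app S' ((app B (.nil △ .nil)) △ .nil)) ∨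
    (∃ S', S = (.nil △ .nil) △ S' ∧ Y = app S' (B △ (.nil △ .nil))))

theorem r_Km_J3V (hd : ∀ c ∈ F, c ∉ F') (hs : sJ3V_Km F F' g g') : NC g g' := by
  obtain ⟨Y, R, B, S, h1, ht, ⟨w0, h5, rfl, rfl⟩, hn⟩ := hs
  intro w hw hw'
  obtain ⟨i, hi, h9, rfl⟩ := mem_gadS.1 hw'
  refine hn ?_
  rcases h5.kmW (w0 := w0) ht h1 (hd01 hd) hw hi h9 (h5.word w0 hi) with q | q
  · exact Or.inl q.2
  · exact Or.inr q.2

def sJ3V_Cr (F F' : Set (Cyc k)) (g g' : DG k) : Prop :=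
  ∃ c Y R B S, 2 ≤ c ∧ c + 1 ≤ OddHC.ht Y ∧ Odd c ∧ TyC c Y F g ∧ J3D F' g' R B S ∧
    ¬ ((B = H1.ch c ∧ Y = .nil △ S) ∨
    (∃ R', R = app R' (H1.ch c △ .nil) ∧ Y = (.nil △ .nil) △ R') ∨
    (∃ R', R = app R' (H1.ch c △ .nil) ∧ Y = .nil △ (.nil △ R')) ∨
    (∃ B', B = app B' (H1.ch c △ .nil) ∧ Y = (.nil △ S) △ B') ∨
    (∃ B', B = app B' (H1.ch c △ .nil) ∧ Y = .nil △ (S △ B')))

theorem r_Cr_J3V (hd : ∀ c ∈ F, c ∉ F') (hs : sJ3V_Cr F F' g g') : NC g g' := by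
  obtain ⟨c, Y, R, B, S, h1, h2, h3, ht, ⟨w0, h5, rfl, rfl⟩, hn⟩ := hs
  intro w hw hw'
  obtain ⟨i, hi, h9, rfl⟩ := mem_gadS.1 hw'
  refine hn ?_
  rcases h5.crW (w0 := w0) h1 h2 h3 ht (hd01 hd) hw hi h9 (h5.word w0 hi) with q | q | q | q | q | q
  · exact Or.inl q.2
  · exact Or.inl q.2
  · exact Or.inr (Or.inl q.2)
  · exact Or.inr (Or.inr (Or.inl q.2))
  · exact Or.inr (Or.inr (Or.inr (Or.inl q.2)))
  · exact Or.inr (Or.inr (Or.inr (Or.inr q.2)))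

def sJ3V_Cl (F F' : Set (Cyc k)) (g g' : DG k) : Prop :=
  ∃ c Y R B S, 2 ≤ c ∧ c + 1 ≤ OddHC.ht Y ∧ TyC' c Y F g ∧ J3D F' g' R B S ∧
    ¬ ((c = 2 ∧ R = Y △ .nil) ∨ (c = 2 ∧ B = .nil ∧ S = Y △ .nil) ∨
    (∃ S', S = H1.ch c △ S' ∧ Y = app S' ((app B (.nil △ .nil)) △ .nil)) ∨
    (∃ S', S = H1.ch c △ S' ∧ Y = app S' (B △ (.nil △ .nil))))

theorem r_Cl_J3V (hd : ∀ c ∈ F, c ∉ F') (hs : sJ3V_Cl F F' g g') : NC g g' := by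
  obtain ⟨c, Y, R, B, S, h1, h2, ht, ⟨w0, h5, rfl, rfl⟩, hn⟩ := hs
  intro w hw hw'
  obtain ⟨i, hi, h9, rfl⟩ := mem_gadS.1 hw'
  refine hn ?_
  rcases h5.clW (w0 := w0) h1 h2 ht (hd01 hd) hw hi h9 (h5.word w0 hi) with q | q | q | q
  · exact Or.inl q.2
  · exact Or.inr (Or.inl q.2)
  · exact Or.inr (Or.inr (Or.inl q.2))
  · exact Or.inr (Or.inr (Or.inr q.2))

theorem r_Ed_J3V (h : TyEd F g) (h' : TyJ3V F' g') (hd : ∀ c ∈ F, c ∉ F')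
    (hs : (∀ c ∈ F', 2 ≤ (contc c).count 2 ∧ 4 ≤ htc c) ∨ sJ3V_E F F' g g') : NC g g' := by
  rcases hs with hs | hs
  · exact NC.symm (h'.disj_Ed hs h)
  · exact r_E_J3V hd hs

theorem r_S5_J3V (h : TyS5l F g) (h' : TyJ3V F' g') (hd : ∀ c ∈ F, c ∉ F')
    (hV : ∀ c ∈ F', 2 ≤ (contc c).countP (3 ≤ ·)) : NC g g' :=
  NC.symm (h'.w_S5 h.toS5 hV (dsymm hd))

/-- the gadget JE, any `R` -/
def JES (F : Set (Cyc k)) (g : DG k) : Prop := ∃ R : BinaryTree Unit, TyJE R F g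

def sJE_E (F F' : Set (Cyc k)) (g g' : DG k) : Prop :=
  ∃ Y R, Y ≠ .nil ∧ IsTri .nil Y .nil F g ∧ TyJE R F' g' ∧ ¬ (Y = R △ .nil ∨ Y = (Tsq.sq R).1 △ (Tsq.sq R).2)

theorem r_E_JE (hd : ∀ c ∈ F, c ∉ F') (hs : sJE_E F F' g g') : NC g g' := by
  obtain ⟨Y, R, h0, ht, h1, hn⟩ := hs
  intro w hw hw'
  exact hn (h1.eW ht h0 hd hw' hw)

def sJE_L (F F' : Set (Cyc k)) (g g' : DG k) : Prop :=
  ∃ Y R, Y ≠ .nil ∧ H1.fb Y = false ∧ H1.lastB Y = false ∧ IsTri (lp 1) Y (lp 1) F g ∧ TyJE R F' g' ∧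
    ¬ (R = Y △ .nil ∨
    (∃ Y', Y = (Tsq.sq R).1 △ Y' ∧ (Tsq.sq R).2 = app Y' ((.nil △ .nil) △ .nil)))

theorem r_L_JE (hs : sJE_L F F' g g') : NC g g' := by
  obtain ⟨Y, R, h1, h2, h3, ht, h5, hn⟩ := hs
  intro w hw hw'
  exact hn (h5.lW ht h1 h2 h3 hw' hw)

def sJE_K (F F' : Set (Cyc k)) (g g' : DG k) : Prop :=
  ∃ Y R, Y ≠ .nil ∧ TyK Y F g ∧ TyJE R F' g' ∧ ¬ (
    (∃ R', R = app R' ((.nil △ .nil) △ .nil) ∧ Y = (.nil △ .nil) △ R') ∨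
    (∃ R', R = app R' ((.nil △ .nil) △ .nil) ∧ Y = .nil △ (.nil △ R')) ∨
    (∃ B', (Tsq.sq R).2 = app B' ((.nil △ .nil) △ .nil) ∧ Y = .nil △ ((Tsq.sq R).1 △ B')))

theorem r_K_JE (hd : ∀ c ∈ F, c ∉ F') (hs : sJE_K F F' g g') : NC g g' := by
  obtain ⟨Y, R, h1, ht, h5, hn⟩ := hs
  intro w hw hw'
  exact hn (h5.kW ht h1 hd hw' hw)

theorem r_Km_JE (h : KmS F g) (h' : JES F' g') (hd : ∀ c ∈ F, c ∉ F') : NC g g' := by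
  obtain ⟨Y, h1, _, _, _, _, ht⟩ := h
  obtain ⟨R, h5⟩ := h'
  have h7 : Y ≠ .nil := by
    rintro rfl
    rw [OddHC.ht] at h1
    omega
  intro w hw hw'
  exact h5.kmW ht h7 hd hw' hw

def sJE_Cr (F F' : Set (Cyc k)) (g g' : DG k) : Prop :=
  ∃ c Y R, 2 ≤ c ∧ c + 1 ≤ OddHC.ht Y ∧ Odd c ∧ TyC c Y F g ∧ TyJE R F' g' ∧ ¬ (
    (∃ R', R = app R' (H1.ch c △ .nil) ∧ Y = (.nil △ .nil) △ R') ∨
    (∃ R', R = app R' (H1.ch c △ .nil) ∧ Y = .nil △ (.nil △ R')) ∨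
    (∃ B', (Tsq.sq R).2 = app B' (H1.ch c △ .nil) ∧ Y = .nil △ ((Tsq.sq R).1 △ B')))

theorem r_Cr_JE (hd : ∀ c ∈ F, c ∉ F') (hs : sJE_Cr F F' g g') : NC g g' := by
  obtain ⟨c, Y, R, h1, h2, h3, ht, h5, hn⟩ := hs
  intro w hw hw'
  exact hn (h5.crW h1 h2 h3 ht hd hw' hw)

def sJE_Cl (F F' : Set (Cyc k)) (g g' : DG k) : Prop :=
  ∃ c Y R, 2 ≤ c ∧ c + 1 ≤ OddHC.ht Y ∧ TyC' c Y F g ∧ TyJE R F' g' ∧ ¬ (c = 2 ∧ R = Y △ .nil)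

theorem r_Cl_JE (hd : ∀ c ∈ F, c ∉ F') (hs : sJE_Cl F F' g g') : NC g g' := by
  obtain ⟨c, Y, R, h1, h2, ht, h5, hn⟩ := hs
  intro w hw hw'
  exact hn (h5.clW h1 h2 ht hd hw' hw)

theorem r_T_JE (h : TyT F g) (h' : JES F' g') : NC g g' := by
  obtain ⟨R, h5⟩ := h'
  exact NC.symm (h5.disT h)

theorem r_J1_JE (hk : 11 ≤ k) (h : J1.TyJs F g) (h' : JES F' g') (hd : ∀ c ∈ F, c ∉ F') : NC g g' := by
  obtain ⟨R, h5⟩ := h'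
  exact NC.symm (h5.dis_Js hk h (dsymm hd))

/-! ### JV -/

theorem nbc_of {Z : BinaryTree Unit} (h : (OddHC.cont Z).count 1 = 0) : JVW.NBc Z := by
  induction Z with
  | nil =>
    intro A hA
    simp [comps] at hA
  | node _ A C _ ihC =>
    change (OddHC.cont (A △ C)).count 1 = 0 at h
    rw [cont_node, Multiset.count_add] at h
    intro D hD
    change D ∈ A :: comps C at hD
    rcases List.mem_cons.1 hD with rfl | hD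
    · rintro rfl
      rw [cont_nil, raise_zero, Multiset.count_singleton_self] at h
      omega
    · exact ihC (by omega) D hD

/-- the data of a group of type JV -/
def JVD (F : Set (Cyc k)) (g : DG k) (Z : BinaryTree Unit) : Prop :=
  (OddHC.cont Z).count 1 = 0 ∧ Is9 .nil .nil Z F g

theorem JVS.d (h : JVS F g) : ∃ Z, JVD F g Z := by
  obtain ⟨Z, h1, _, h2⟩ := h
  exact ⟨Z, h1, h2⟩

def sJV_E (F F' : Set (Cyc k)) (g g' : DG k) : Prop :=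
  ∃ X Z, X ≠ .nil ∧ IsTri .nil X .nil F g ∧ JVD F' g' Z ∧ X ≠ .nil △ Z ∧ X ≠ Z △ .nil ∧ X ≠ app Z (.nil △ .nil) ∧
    X ≠ xT Z

theorem r_E_JV (hd : ∀ c ∈ F, c ∉ F') (hs : sJV_E F F' g g') : NC g g' := by
  obtain ⟨X, Z, h0, h1, ⟨h2, h3⟩, a1, a2, a3, a4⟩ := hs
  exact JVW.eW h1 h0 h3 (nbc_of h2) hd a1 a2 a3 a4

def sJV_L (F F' : Set (Cyc k)) (g g' : DG k) : Prop :=
  ∃ Y Z, Y ≠ .nil ∧ IsTri (lp 1) Y (lp 1) F g ∧ JVD F' g' Z ∧ xT Z ≠ app Y ((.nil △ .nil) △ .nil)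

theorem r_L_JV (hd : ∀ c ∈ F, c ∉ F') (hs : sJV_L F F' g g') : NC g g' := by
  obtain ⟨X, Z, h0, h1, ⟨h2, h3⟩, a1⟩ := hs
  exact JVW.lW h1 h0 h3 (nbc_of h2) hd a1

def sJV_K (F F' : Set (Cyc k)) (g g' : DG k) : Prop :=
  ∃ Y Z, Y ≠ .nil ∧ TyK Y F g ∧ JVD F' g' Z ∧ (∀ V, Y ≠ .nil △ V) ∧ xT Z ≠ Y △ .nil

theorem r_K_JV (hd : ∀ c ∈ F, c ∉ F') (hs : sJV_K F F' g g') : NC g g' := by
  obtain ⟨X, Z, h0, h1, ⟨h2, h3⟩, a1, a2⟩ := hs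
  exact JVW.kW h1 h0 h3 (nbc_of h2) hd a1 a2

def sJV_Km (F F' : Set (Cyc k)) (g g' : DG k) : Prop :=
  ∃ Y Z, Y ≠ .nil ∧ TyK' Y F g ∧ JVD F' g' Z ∧ xT Z ≠ Y △ .nil

theorem r_Km_JV (hd : ∀ c ∈ F, c ∉ F') (hs : sJV_Km F F' g g') : NC g g' := by
  obtain ⟨X, Z, h0, h1, ⟨h2, h3⟩, a1⟩ := hs
  exact JVW.kmW h1 h0 h3 (nbc_of h2) hd a1

theorem r_Cr_JV (h : CrS F g) (h' : JVS F' g') (hd : ∀ c ∈ F, c ∉ F') : NC g g' := by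
  obtain ⟨c, Y, h1, h2, h3, _, _, h4, _, ht⟩ := h
  obtain ⟨Z, h5, h6⟩ := h'.d
  refine JVW.crW ht h1 h2 h6 (nbc_of h5) hd ?_ ?_
  · rintro rfl
    exact absurd h3 (by decide)
  · rintro V rfl
    exact absurd (show true = false from h4) (by decide)

def sJV_Cl (F F' : Set (Cyc k)) (g g' : DG k) : Prop :=
  ∃ c Y Z, 2 ≤ c ∧ c + 1 ≤ OddHC.ht Y ∧ TyC' c Y F g ∧ JVD F' g' Z ∧ (c = 2 → ∀ A, Z ≠ A △ .nil)

theorem r_Cl_JV (hd : ∀ c ∈ F, c ∉ F') (hs : sJV_Cl F F' g g') : NC g g' := by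
  obtain ⟨c, Y, Z, h1, h2, ht, ⟨h3, h4⟩, h5⟩ := hs
  exact JVW.clW ht h1 h2 h4 (nbc_of h3) hd h5

theorem r_JV_JV (h : JVS F g) (h' : JVS F' g') (hd : ∀ c ∈ F, c ∉ F') : NC g g' := by
  obtain ⟨Z, h1, h2⟩ := h.d
  obtain ⟨Z', h1', h2'⟩ := h'.d
  exact JVW.dj_JV h2 (nbc_of h1) h2' (nbc_of h1') hd

end MW

end Pool.OddHC
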