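import Pool.Agent.Work.MP_8f87b2_fin.MatR
import Pool.Agent.Work.MP_8f87b2_h59.R3J1
import Pool.Agent.Work.MP_8f87b2_h20.S5Cont

/-!
# Rows of the word matrix: S5 and the gadgets J1, J1 mirrored (helper36)
-/

set_option autoImplicit false

namespace Pool.OddHC

open Finset Equiv BinaryTree Pool.Agent.Work.MP_8f87b2_co

namespace MW

variable {k : ℕ} {F F' : Set (Cyc k)} {g g' : DG k}

theorem js_isJ1 (h : J1.TyJs F g) : ∃ s, 4 ≤ s ∧ s + 5 = k ∧ ∀ w ∈ g.B, J.IsJ1 s 3 w.1 := by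
  obtain ⟨n, w0, h1, h2, h3, rfl, rfl⟩ := h
  have hk := h2.num
  refine ⟨n + 1, by omega, ?_, ?_⟩
  · change (app (H1.ch (n + 1)) (H1.ch 3)).numNodes + 2 = k at hk
    rw [num_app, Ring1.ch_num, Ring1.ch_num] at hk
    omega
  · intro w hw
    obtain ⟨i, hi, rfl⟩ := J1.mem_gadJA.1 hw
    exact ⟨i, hi, J1.jX_eq h2 w0 hi⟩

theorem jt_isJ1M (h : J1.TyJt F g) : ∃ s, 5 ≤ s ∧ s + 6 = k ∧ ∀ w ∈ g.B, J.IsJ1M s 4 w.1 := by
  obtain ⟨n, w0, h1, h2, h3, rfl, rfl⟩ := h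
  have hk := h2.num
  refine ⟨n + 1, by omega, ?_, ?_⟩
  · change (app (H1.ch (n + 1)) (H1.ch 4)).numNodes + 2 = k at hk
    rw [num_app, Ring1.ch_num, Ring1.ch_num] at hk
    omega
  · intro w hw
    obtain ⟨i, hi, rfl⟩ := J1.mem_gadJAM.1 hw
    exact ⟨i, hi, by rw [J1.jY_val h2 w0 hi, Tsq.mir_mir]⟩

/-- the words of the links of section 5 have at least three beads in their groups -/
theorem s5_cnt (h : TyS5l F g) : ∀ c ∈ F, 3 ≤ (contc c).count 1 := by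
  obtain ⟨s, n, hs, hn, h | ⟨hn3, h⟩⟩ := h
  · obtain ⟨a, b, c, ha, hb, hc, h1, h2, h3, rfl, rfl⟩ := h
    rintro d (rfl | rfl)
    · change 3 ≤ (cont b.1).count 1
      rw [hb, w1, cont_app, cont_node, Multiset.count_add, Multiset.count_add, S5.c_lp, Multiset.count_replicate_self]
      omega
    · change 3 ≤ (cont c.1).count 1
      rw [hc, w1, cont_app, cont_node, Multiset.count_add, Multiset.count_add, S5.c_lp,
        show n + 2 = (n + 1) + 1 from rfl, S5.raise_lp, Multiset.count_add, Multiset.count_replicate_self]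
      omega
  · obtain ⟨a, b, c, ha, hb, hc, h1, h2, h3, rfl, rfl⟩ := h
    rintro d (rfl | rfl)
    · change 3 ≤ (cont b.1).count 1
      rw [hb, w1, cont_app, cont_app, Multiset.count_add, Multiset.count_add, S5.c_lp, Multiset.count_replicate_self]
      omega
    · change 3 ≤ (cont c.1).count 1
      rw [hc, w1, cont_app, cont_node, cont_app, Multiset.count_add, Multiset.count_add, Multiset.count_add, S5.c_lp n,
        Multiset.count_replicate_self]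
      omega

theorem r_S5_J1 (h : TyS5l F g) (h' : J1.TyJs F' g') : NC g g' := by
  obtain ⟨s, h1, _, h2⟩ := js_isJ1 h'
  exact J.S5.disj_J1 (by omega) le_rfl h.toS5 (s5_cnt h) h2

theorem r_S5_J4 (h : TyS5l F g) (h' : J1.TyJt F' g') : NC g g' := by
  obtain ⟨s, h1, _, h2⟩ := jt_isJ1M h'
  exact J.S5.disj_J1M (by omega) (by omega) h.toS5 (s5_cnt h) h2

theorem r_J1_J4 (h : J1.TyJs F g) (h' : J1.TyJt F' g') : NC g g' := by
  obtain ⟨s, h1, h2, h3⟩ := js_isJ1 h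
  obtain ⟨s', h1', h2', h3'⟩ := jt_isJ1M h'
  obtain rfl : s = s' + 1 := by omega
  exact J.disj_J1_J1M h1' h3 h3'

theorem r_J1_J1 (h : J1.TyJs F g) (h' : J1.TyJs F' g') (hd : ∀ c ∈ F, c ∉ F') : NC g g' := by
  obtain ⟨n, w0, h1, h2, h3, rfl, rfl⟩ := h
  obtain ⟨n', w0', h1', h2', h3', rfl, rfl⟩ := h'
  have hk := h2.num
  have hk' := h2'.num
  change (app (H1.ch (n + 1)) (H1.ch 3)).numNodes + 2 = k at hk
  change (app (H1.ch (n' + 1)) (H1.ch 3)).numNodes + 2 = k at hk'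
  rw [num_app, Ring1.ch_num, Ring1.ch_num] at hk hk'
  obtain rfl : n = n' := by omega
  exfalso
  apply hd _ rfl
  change cyc _ = cyc _
  apply congrArg
  apply Subtype.ext
  rw [J1.jX_eq h2 w0 (by norm_num), J1.jX_eq h2 w0' (by norm_num)]

theorem r_J4_J4 (h : J1.TyJt F g) (h' : J1.TyJt F' g') (hd : ∀ c ∈ F, c ∉ F') : NC g g' := by
  obtain ⟨n, w0, h1, h2, h3, rfl, rfl⟩ := h
  obtain ⟨n', w0', h1', h2', h3', rfl, rfl⟩ := h'
  have hk := h2.num
  have hk' := h2'.num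
  change (app (H1.ch (n + 1)) (H1.ch 4)).numNodes + 2 = k at hk
  change (app (H1.ch (n' + 1)) (H1.ch 4)).numNodes + 2 = k at hk'
  rw [num_app, Ring1.ch_num, Ring1.ch_num] at hk hk'
  obtain rfl : n = n' := by omega
  exfalso
  apply hd _ rfl
  change cyc _ = cyc _
  apply congrArg
  apply Subtype.ext
  rw [J1.jY_val h2 w0 (by norm_num), J1.jY_val h2 w0' (by norm_num)]

theorem r_R3_J1 (h : TyR3 F g) (h' : J1.TyJs F' g') : NC g g' := by
  obtain ⟨s, h1, _, h2⟩ := js_isJ1 h'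
  exact h.dis_J1 h1 h2

theorem r_S3_J1 (h : TyS3 F g) (h' : J1.TyJs F' g') : NC g g' := by
  obtain ⟨s, h1, _, h2⟩ := js_isJ1 h'
  exact h.dis_J1 h1 h2

theorem r_R3_J4 (h : TyR3 F g) (h' : J1.TyJt F' g') : NC g g' := by
  obtain ⟨s, h1, _, h2⟩ := jt_isJ1M h'
  exact h.dis_J1M (by omega) h2

theorem r_S3_J4 (h : TyS3 F g) (h' : J1.TyJt F' g') : NC g g' := by
  obtain ⟨s, h1, _, h2⟩ := jt_isJ1M h'
  exact h.dis_J1M (by omega) h2

end MW

end Pool.OddHC
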