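import Pool.Agent.Work.MP_8f87b2_fin.KLink

/-!
# The classes `(V; a, 2)` with an edge of the rows 0, 1 as a guest (type J3V)

`r1_edge`: the class is even, the edge is the only guest. `r1_guest_edge`: one more guest in an even row `≥ 2`, both levels odd.
-/

set_option autoImplicit false

namespace Pool.OddHC

open Finset BinaryTree Multiset Pool.OddHop

variable {i j k : ℕ}

variable {τp τw : Type} {Pp : τp → Set (Cyc k) → DG k → Prop} {Pw : τw → Set (Cyc k) → DG k → Prop}
  {AE : Cyc k → Cyc k → Prop}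

variable {p0 : Cyc k} {U1 : Cyc j} {Xs : Set (Cyc k)}

theorem oddF_two_iff : oddF j 2 ↔ j % 2 = 0 := by
  have h1 : Nat.card (Ms (2 * j + 1) 2) = (2 * j + 1) * (j + 1) := by
    have e1 : Nat.card (Ms (2 * j + 1) 2) = Nat.card (Sym (ZMod (2 * j + 1)) 2) :=
      (Nat.card_congr (Sym.equivNatSumOfFintype (ZMod (2 * j + 1)) 2)).symm
    rw [e1, Nat.card_eq_fintype_card, Sym.card_sym_eq_choose, ZMod.card, Nat.choose_two_right]
    have e2 : (2 * j + 1 + 2 - 1) * (2 * j + 1 + 2 - 1 - 1) = 2 * ((2 * j + 1) * (j + 1)) := by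
      have e3 : 2 * j + 1 + 2 - 1 = 2 * (j + 1) := by omega
      have e4 : 2 * (j + 1) - 1 = 2 * j + 1 := by omega
      rw [e3, e4]
      ring
    rw [e2, Nat.mul_div_cancel_left _ (by norm_num)]
  unfold oddF
  rw [h1, Nat.odd_mul]
  constructor
  · rintro ⟨_, h⟩
    obtain ⟨c, hc⟩ := h
    omega
  · intro h
    exact ⟨⟨j, rfl⟩, ⟨j / 2, by omega⟩⟩

/-- words over another phase -/
theorem tc_phase {u u' : X j} (hu : cyc u' = cyc u) (hk : j + pkn u.1 + 2 = k)
    (hk' : j + pkn u'.1 + 2 = k) :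
    ∃ t : ZMod (2 * j + 1), ∀ x d, tc u' hk' x d = tc u hk (x + t) d := by
  obtain ⟨t, ht⟩ := sameCycle_nat (cyc_eq.1 hu.symm)
  refine ⟨sp u t, fun x d => ?_⟩
  obtain ⟨w, hw, hw1⟩ := tc_exists u hk (x + sp u t) d
  rw [← hw, ← cyc_pow' w t]
  symm
  apply tc_word
  rw [word_pow hw1, ht]
  congr 2
  funext z
  have e1 : (z + sp u t = x + sp u t) ↔ z = x := add_left_inj _
  have e2 : (z + sp u t = x + sp u t + (d : ZMod (2 * j + 1))) ↔ z = x + (d : ZMod (2 * j + 1)) := by
    constructor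
    · intro h
      linear_combination h
    · rintro rfl
      ring
  simp only [e1, e2]

theorem topTwo_tc {p : Cyc k} (h : TopTwo p) {u : X j} (hp : Rd p = ⟨j, cyc u⟩)
    (hk : j + pkn u.1 + 2 = k) : ∃ c, p = tc u hk c j := by
  obtain ⟨j', u', x, w, h1, h2, h3⟩ := h
  have h4 : Rd p = ⟨j', cyc u'⟩ := by
    rw [← h2]
    exact Rd_ins (lf_length _) h3
  rw [hp] at h4
  obtain ⟨rfl, h5⟩ := Sigma.mk.inj_iff.1 h4
  have h6 : cyc u' = cyc u := (eq_of_heq h5).symm
  have hk' : j + pkn u'.1 + 2 = k := by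
    have e1 : pkn u'.1 = pkn u.1 := by rw [← pkc_cyc, h6, pkc_cyc]
    rw [e1]
    exact hk
  obtain ⟨t, ht⟩ := tc_phase h6 hk hk'
  refine ⟨x + t, ?_⟩
  rw [← ht, ← h2]
  exact tc_word u' hk' x j h3

/-- **the edge is the only guest**, the class is even -/
theorem r1_edge (hEnv : ClsEnv AE Pp Pw (cl p0)) (hp0 : Rd p0 = ⟨j, U1⟩) (hj : 1 ≤ j)
    (hk1 : j + pkc U1 + 2 = k) (hev : ¬ (oddF j 2 ∧ oddF (Rd U1).1 ((contc U1).count 1)))
    (u : X j) (hu : Rd (cyc u) = Rd U1) (hk : j + pkn u.1 + 2 = k) (x : ZMod (2 * j + 1)) (s : Bool)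
    (h2 : (contc (cyc u)).count 1 = 2 → IsTwo (cyc u))
    (hX : ∀ c, cl c = cl p0 → (c ∈ Xs ↔ c = tc u hk x 0 ∨ c = tc u hk (mate s x) 1)) :
    ∃ Gp Gw, ClsOK AE (cl p0) Xs Gp Gw Pp Pw := by
  have hR := Rd_tc u hk
  have hcu : (contc (cyc u)).count 1 = (contc U1).count 1 := by rw [Rd_contc hu]
  by_cases ho : oddF j 2
  · have ho2 : ¬ oddF (Rd (cyc u)).1 ((contc (cyc u)).count 1) := by
      rw [hu, hcu]
      exact fun h => hev ⟨ho, h⟩
    have hjo := oddF_two_even ho
    refine r1_core hEnv hp0 (m := 2) (by norm_num) hk1 (cyc u) ?_ (cyc u) hu (fun h _ => h2 h) ?_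
      (fun h => absurd h ho2)
    · intro c hc U h hU
      have h3 := (hX c (cl_same hp0 h hU)).1 hc
      have h4 : Rd c = ⟨j, cyc u⟩ := by
        rcases h3 with rfl | rfl
        · exact hR _ _
        · exact hR _ _
      rw [h] at h4
      exact eq_of_heq (Sigma.mk.inj_iff.1 h4).2
    · intro _ _
      refine ⟨fun h => absurd ho h, fun _ p hp hT => ?_⟩
      obtain ⟨c, rfl⟩ := topTwo_tc (hT rfl) hp hk
      obtain ⟨hF1, hF2, hF3, hF4⟩ := two_family hj u hk
      have hj2 : 2 ≤ j := by omega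
      constructor
      · intro h3
        rcases (hX _ (cl_same hp0 (hR _ _) hu)).1 h3 with h4 | h4
        · have := hF2 _ _ _ _ le_rfl (by omega) h4
          omega
        · have := hF2 _ _ _ _ le_rfl (by omega) h4
          omega
      · refine (hEnv.rem hp0 hu (rem_top_edge hj u hk hjo c x s)).congr fun q hq => ?_
        have h3 := hX q (cl_same hp0 hq hu)
        constructor
        · rintro (h | h)
          · exact Or.inl h
          · exact Or.inr (h3.2 h)
        · rintro (h | h)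
          · exact Or.inl h
          · exact Or.inr (h3.1 h)
  · have hjo : j % 2 = 1 := by
      by_contra h
      exact ho (oddF_two_iff.2 (by omega))
    refine r1_set_even hEnv hp0 (by norm_num) hk1 ho {tc u hk x 0, tc u hk (mate s x) 1} (cyc u) hu
      ?_ hX h2 ∅ (fun c hc => absurd hc (Set.notMem_empty _)) (Or.inl rfl) ?_
    · rintro c (rfl | rfl)
      · exact hR _ _
      · exact hR _ _
    · rw [Set.empty_union]
      exact rem_edge hj u hk hjo x s

/-- **edge and one more guest in an even row `≥ 2`**, both levels odd -/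
theorem r1_guest_edge (hEnv : ClsEnv AE Pp Pw (cl p0)) (hp0 : Rd p0 = ⟨j, U1⟩) (hj : 1 ≤ j)
    (hk1 : j + pkc U1 + 2 = k) (ho : oddF j 2) (ho2 : oddF (Rd U1).1 ((contc U1).count 1))
    (u : X j) (hu : Rd (cyc u) = Rd U1) (hk : j + pkn u.1 + 2 = k) (x : ZMod (2 * j + 1)) (s : Bool)
    (u0 : X j) (hu0 : Rd (cyc u0) = Rd U1) (hk0 : j + pkn u0.1 + 2 = k) (a : ZMod (2 * j + 1)) {l : ℕ}
    (hl : 1 ≤ l) (hlj : 2 * l ≤ j)
    (h2 : (contc (cyc u0)).count 1 = 2 → IsTwo (cyc u0))
    (hX : ∀ c, cl c = cl p0 → (c ∈ Xs ↔ c = tc u0 hk0 a (2 * l) ∨ c = tc u hk x 0 ∨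
      c = tc u hk (mate s x) 1)) :
    ∃ Gp Gw, ClsOK AE (cl p0) Xs Gp Gw Pp Pw := by
  have hR := Rd_tc u hk
  have hR0 := Rd_tc u0 hk0
  have hcu : (contc (cyc u0)).count 1 = (contc U1).count 1 := by rw [Rd_contc hu0]
  have hjo := oddF_two_even ho
  obtain ⟨hF1, hF2, hF3, hF4⟩ := two_family hj u hk
  refine r1_gen hp0 Xs (m := 2) (by norm_num) hk1 hEnv.l (cyc u0) hu0 (fun h _ => h2 h) ?_ ?_
  · intro U hU hne
    have hU0 : U ≠ cyc u0 := by
      rintro rfl
      exact hne ⟨rfl, by rw [hu0, hcu]; exact ho2⟩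
    by_cases hUf : U = cyc u
    · subst hUf
      refine ⟨fun h => absurd ho h, fun _ p hp hT => ?_⟩
      obtain ⟨c, rfl⟩ := topTwo_tc (hT rfl) hp hk
      have hne0 : ∀ q : Cyc k, Rd q = ⟨j, cyc u⟩ → q ≠ tc u0 hk0 a (2 * l) := by
        rintro q hq rfl
        rw [hR0] at hq
        exact hU0 (eq_of_heq (Sigma.mk.inj_iff.1 hq).2).symm
      constructor
      · intro h3
        rcases (hX _ (cl_same hp0 (hR _ _) hu)).1 h3 with h4 | h4 | h4
        · exact hne0 _ hp h4
        · have := hF2 _ _ _ _ le_rfl (by omega) h4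
          omega
        · have := hF2 _ _ _ _ le_rfl (by omega) h4
          omega
      · refine (hEnv.rem hp0 hu (rem_top_edge hj u hk hjo c x s)).congr fun q hq => ?_
        have h3 := hX q (cl_same hp0 hq hu)
        constructor
        · rintro (h | h)
          · exact Or.inl h
          · exact Or.inr (h3.2 (Or.inr h))
        · rintro (h | h)
          · exact Or.inl h
          · exact Or.inr ((h3.1 h).resolve_left (hne0 q hq))
    · have h3 := rem_plain (X := Xs) hEnv hp0 hk1 hU (fun c hc h => by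
        rcases (hX c (cl_same hp0 h hU)).1 hc with rfl | rfl | rfl
        · rw [hR0] at h
          exact hU0 (eq_of_heq (Sigma.mk.inj_iff.1 h).2).symm
        · rw [hR] at h
          exact hUf (eq_of_heq (Sigma.mk.inj_iff.1 h).2).symm
        · rw [hR] at h
          exact hUf (eq_of_heq (Sigma.mk.inj_iff.1 h).2).symm)
      exact ⟨h3.1, fun ho p hp hT => h3.2 ho p hp (fun h => (hT h).two)⟩
  · intro _
    refine ⟨∅, fun F h => absurd h (Set.notMem_empty _), fun F h => absurd h (Set.notMem_empty _), ?_⟩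
    rw [inG_empty', Set.empty_union]
    by_cases hUf : cyc u0 = cyc u
    · obtain ⟨t, ht⟩ := tc_phase hUf hk hk0
      refine RemA.congr (D := {tc u hk (a + t) (2 * l), tc u hk x 0, tc u hk (mate s x) 1}) ?_ ?_
      · rw [hUf]
        exact hEnv.rem hp0 hu (rem_mid_edge hj u hk hjo hl hlj (a + t) x s)
      · intro q hq
        rw [hX q (cl_same hp0 hq hu0), ht]
        exact Iff.rfl
    · refine RemA.congr (D := {tc u0 hk0 a (2 * l)}) ?_ ?_
      · have h3 := count_class hp0 hk1 (hR0 a (2 * l)) hu0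
        refine (hEnv.rem hp0 hu0 (remOK_lo ⟨j, cyc u0⟩ (tc u0 hk0 a (2 * l)) (hR0 _ _)
          (fun _ _ => ?_))).congr fun q _ => ?_
        · obtain ⟨w, hw, hw1⟩ := tc_exists u0 hk0 a (2 * l)
          exact ⟨j, u0, a, 2 * l, w, hlj, by omega, hw, hw1⟩
        · rw [Set.mem_setOf_eq, h3]
          exact ⟨fun h => h.1, fun h => ⟨h, ho⟩⟩
      · intro q hq
        rw [hX q (cl_same hp0 hq hu0)]
        constructor
        · intro h
          exact Or.inl h
        · rintro (h | h | h)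
          · exact h
          · rw [h, hR] at hq
            exact absurd (eq_of_heq (Sigma.mk.inj_iff.1 hq).2).symm hUf
          · rw [h, hR] at hq
            exact absurd (eq_of_heq (Sigma.mk.inj_iff.1 hq).2).symm hUf

end Pool.OddHC
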