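import Pool.Agent.Work.MP_8f87b2_fin.ClsInv
import Pool.Agent.Work.MP_8f87b2_end.Fam2
import Pool.Agent.Work.MP_8f87b2_end.PairL

/-!
# The window of a node

`lf_of_getD`, `holeL_lf`: the list of a pile. `node_pile`: the word of the node `(V; a, m)` as a pile over a pile.
`win_A`: the window of type A at the pile over the pile, `V` with at least two parts, one of them at least 2.
-/

set_option autoImplicit false

namespace Pool.OddHC

open Finset BinaryTree Multiset Pool.OddHop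

variable {j k : ℕ}

/-- a list with given entries -/
theorem lf_of_getD {n : ℕ} [NeZero n] {e : List ℕ} (he : e.length = n) {a : ZMod n → ℕ}
    (h : ∀ z : ZMod n, e.getD z.val 0 = a z) : e = lf a := by
  obtain ⟨b, rfl⟩ := exists_lf he
  congr 1
  funext z
  rw [← h, lf_getD]

theorem val_eq_iff {j : ℕ} (z : ZMod (2 * j + 1)) {x : ℕ} (hx : x < 2 * j + 1) :
    z.val = x ↔ z = (x : ZMod (2 * j + 1)) := by
  constructor
  · intro h
    rw [← h, ZMod.natCast_zmod_val]
  · rintro rfl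
    exact ZMod.val_natCast_of_lt hx

/-- one entry `n` at the place `x` -/
theorem pile_getD (x y n z : ℕ) :
    (List.replicate x 0 ++ n :: List.replicate y 0).getD z 0 = if z = x then n else 0 := by
  rcases lt_trichotomy z x with h | h | h
  · rw [List.getD_append _ _ _ _ (by simpa using h), List.getD_replicate _ h, if_neg (by omega)]
  · subst h
    rw [List.getD_append_right _ _ _ _ (by simp)]
    simp
  · rw [List.getD_append_right _ _ _ _ (by simp; omega), List.length_replicate, if_neg (by omega)]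
    obtain ⟨t, ht⟩ : ∃ t, z - x = t + 1 := ⟨z - x - 1, by omega⟩
    rw [ht, List.getD_cons_succ]
    by_cases h2 : t < y
    · rw [List.getD_replicate _ h2]
    · rw [List.getD_eq_default]
      simpa using h2

/-- the list of a pile -/
theorem pile_lf {j : ℕ} {x y n : ℕ} (h : x + 1 + y = 2 * j + 1) :
    List.replicate x 0 ++ n :: List.replicate y 0 =
      lf (fun z : ZMod (2 * j + 1) => if z = (x : ZMod (2 * j + 1)) then n else 0) := by
  apply lf_of_getD
  · rw [List.length_append, List.length_cons, List.length_replicate, List.length_replicate]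
    omega
  · intro z
    rw [pile_getD]
    simp only [val_eq_iff z (show x < 2 * j + 1 by omega)]

theorem holeL_lf {j : ℕ} {B1 s B : BinaryTree Unit} (h : (app B1 (s △ B)).numNodes = j) (n : ℕ) :
    holeL B1 s B n = lf (fun z : ZMod (2 * j + 1) =>
      if z = ((2 * B1.numNodes + 1 : ℕ) : ZMod (2 * j + 1)) then n else 0) := by
  rw [num_app] at h
  change B1.numNodes + (s.numNodes + B.numNodes + 1) = j at h
  rw [← pile_lf (x := 2 * B1.numNodes + 1) (y := 2 * s.numNodes + (2 * B.numNodes + 1)) (by omega)]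
  unfold holeL
  rw [List.replicate_append_replicate]

/-- **the word of the node `(V; a, m)`** as a pile over a pile -/
theorem node_pile {j2 j1 k : ℕ} (z : X j2) {c a m : ℕ} (hc : c + 1 ∈ cont z.1)
    (hmin : ∀ x ∈ cont z.1, c + 1 ≤ x) (h2 : 2 ≤ pkn z.1) (e1 : j2 + pkn z.1 + a = j1)
    (e0 : j1 + (pkn z.1 + a) + m = k) :
    ∃ (R0 B1 s B : BinaryTree Unit) (w2 : X j2) (w1 : X j1) (w : X k) (x2 : ZMod (2 * j2 + 1))
      (x1 : ZMod (2 * j1 + 1)),
      Tall R0 B1 s B ∧
      cont R0 = ((cont z.1).erase (c + 1)).map (· + 2) ∧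
      (TT : Equiv.Perm (X j2)).SameCycle z w2 ∧
      w1.1 = ins w2.1 (lf fun y => if y = x2 then a else 0) ∧
      w.1 = ins w1.1 (lf fun y => if y = x1 then m else 0) ∧
      w.1 = app (app B1 (lv m (lv2 a s) △ B)) (pc (c + 3)) := by
  obtain ⟨w2, r, hs, hw⟩ := exists_end c z hc hmin
  have hcr : cont r = (cont z.1).erase (c + 1) := by
    rw [cont_same hs, hw, cont_app, cont_pc, add_comm, Multiset.singleton_add,
      Multiset.erase_cons_head]
  have hr : r ≠ .nil := by
    rintro rfl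
    have h3 := congrArg Multiset.card hcr
    rw [cont_nil, Multiset.card_zero, Multiset.card_erase_of_mem hc, cont_card] at h3
    change 0 = pkn z.1 - 1 at h3
    omega
  obtain ⟨C1, t, C, h3, h4, h5⟩ := exists_tall hr
  have hw' : w2.1 = app C1 (t △ app C (pc (c + 1))) := by
    rw [hw, h3, app_assoc']
    rfl
  have hp2 : pkn w2.1 = pkn z.1 := by rw [← cont_card, ← cont_same hs, cont_card]
  obtain ⟨f, hf⟩ : ∃ f, f = holeL C1 t (app C (pc (c + 1))) a := ⟨_, rfl⟩
  have hf1 : f.length = 2 * w2.1.numNodes + 1 := by rw [hf, holeL_length, ← hw']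
  have hf2 : f.sum = a := by rw [hf, holeL_sum]
  have g1 := ins_num w2.1 f hf1
  rw [hf2, X_num, hp2] at g1
  obtain ⟨w1, hw1⟩ : ∃ w1 : X j1, w1.1 = ins w2.1 f :=
    ⟨⟨_, mem_treesOfNumNodesEq.2 (g1.1.trans e1)⟩, rfl⟩
  have hw1' : w1.1 = app (inf C1) (lv a (inf1 t) △ app (inf C) (pc (c + 2))) := by
    rw [hw1, hf, hw', ins_hole, inf_app, inf_pc (by omega)]
  obtain ⟨e, he⟩ : ∃ e, e = holeL (inf C1) (lv a (inf1 t)) (app (inf C) (pc (c + 2))) m := ⟨_, rfl⟩
  have he1 : e.length = 2 * w1.1.numNodes + 1 := by rw [he, holeL_length, ← hw1']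
  have he2 : e.sum = m := by rw [he, holeL_sum]
  have g2 := ins_num w1.1 e he1
  rw [he2, X_num] at g2
  have g3 : pkn w1.1 = pkn z.1 + a := by rw [hw1]; exact g1.2
  rw [g3] at g2
  obtain ⟨w, hw0⟩ : ∃ w : X k, w.1 = ins w1.1 e :=
    ⟨⟨_, mem_treesOfNumNodesEq.2 (g2.1.trans e0)⟩, rfl⟩
  have hT : Tall r C1 t C := ⟨h3, h4, h5⟩
  refine ⟨inf (inf r), inf (inf C1), inf1 (inf1 t), inf (inf C), w2, w1, w,
    ((2 * C1.numNodes + 1 : ℕ) : ZMod (2 * j2 + 1)),
    ((2 * (inf C1).numNodes + 1 : ℕ) : ZMod (2 * j1 + 1)), hT.inf.inf, ?_, hs, ?_, ?_, ?_⟩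
  · rw [cont_inf, cont_inf, hcr, Multiset.map_map]
    rfl
  · rw [hw1, hf, holeL_lf (by rw [← hw', X_num])]
  · rw [hw0, he, holeL_lf (by rw [← hw1', X_num])]
  · rw [hw0, he, hw1', ins_hole, inf_app, inf_pc (by omega),
      inf1_eq (lv_ne_nil (inf1_ne_nil t)), inf_lv, inf1_inf1, app_assoc']
    rfl

/-- a least part -/
theorem exists_min {s : Multiset ℕ} (h : s ≠ 0) : ∃ x ∈ s, ∀ y ∈ s, x ≤ y := by
  classical
  obtain ⟨x, hx, hm⟩ := Finset.exists_min_image s.toFinset id (by
    obtain ⟨y, hy⟩ := Multiset.exists_mem_of_ne_zero h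
    exact ⟨y, Multiset.mem_toFinset.2 hy⟩)
  exact ⟨x, Multiset.mem_toFinset.1 hx, fun y hy => hm y (Multiset.mem_toFinset.2 hy)⟩

/-- **THE WINDOW OF TYPE A** at the pile over the pile -/
theorem win_A {j2 : ℕ} (V : Cyc j2) {a m : ℕ} (h2 : 2 ≤ pkc V) (hq : ∃ x ∈ contc V, 2 ≤ x)
    (ham : 0 < a + m) (e1 : j2 + pkc V + a = j) (e0 : j + (pkc V + a) + m = k) :
    ∃ (v : X j2) (x2 : ZMod (2 * j2 + 1)) (u : X j) (x : ZMod (2 * j + 1)) (w : X k) (g : DG k),
      cyc v = V ∧ u.1 = ins v.1 (lf fun y => if y = x2 then a else 0) ∧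
      w.1 = ins u.1 (lf fun y => if y = x then m else 0) ∧ TyA {cyc w} g := by
  obtain ⟨z, rfl⟩ : ∃ z : X j2, cyc z = V := Quotient.exists_rep V
  rw [pkc_cyc] at h2 e1 e0
  rw [contc_cyc] at hq
  have hne : cont z.1 ≠ 0 := by
    obtain ⟨x, hx, _⟩ := hq
    intro h
    rw [h] at hx
    exact absurd hx (Multiset.notMem_zero _)
  obtain ⟨b, hb, hmin⟩ := exists_min hne
  have hb1 : 1 ≤ b := cont_pos _ _ hb
  obtain ⟨c, rfl⟩ : ∃ c, b = c + 1 := ⟨b - 1, by omega⟩
  obtain ⟨R0, B1, s, B, w2, w1, w, x2, x1, g1, g2, g3, g4, g5, g6⟩ :=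
    node_pile (k := k) z hb hmin h2 e1 e0
  have hN : H1.NodeA k c a m R0 B1 s B := by
    refine ⟨g1, ?_, ?_, ham, ?_⟩
    · intro x hx
      rw [g2, Multiset.mem_map] at hx
      obtain ⟨y, hy, rfl⟩ := hx
      have := hmin y (Multiset.mem_of_mem_erase hy)
      omega
    · have h3 : ∃ y ∈ (cont z.1).erase (c + 1), 2 ≤ y := by
        rcases Nat.lt_or_ge 1 (c + 1) with h4 | h4
        · have h5 : 0 < Multiset.card ((cont z.1).erase (c + 1)) := by
            rw [Multiset.card_erase_of_mem hb, cont_card]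
            change 0 < pkn z.1 - 1
            omega
          obtain ⟨y, hy⟩ := Multiset.card_pos_iff_exists_mem.1 h5
          have := hmin y (Multiset.mem_of_mem_erase hy)
          exact ⟨y, hy, by omega⟩
        · obtain ⟨y, hy, hy2⟩ := hq
          exact ⟨y, (Multiset.mem_erase_of_ne (by omega)).2 hy, hy2⟩
      obtain ⟨y, hy, hy2⟩ := h3
      have h4 : y + 2 ∈ cont R0 := by
        rw [g2]
        exact Multiset.mem_map_of_mem _ hy
      have h5 : y + 2 ≤ (cont R0).sup := Multiset.le_sup h4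
      have h6 : (cont R0).sup = ht R0 := (OddHC.ht_eq R0).symm
      omega
    · have h3 := X_num w
      rw [g6, num_app, pc_num] at h3
      change _ + (c + 3) = k at h3
      unfold H1.nR
      omega
  refine ⟨w2, x2, w1, x1, w, gad20 (H1.gX c B1 (lv m (lv2 a .nil)) s B w), (cyc_eq.2 g3).symm, g4, g5,
    c, B1, lv m (lv2 a .nil), s, B, w, hN.toG, ?_, rfl⟩
  have h3 := hN.toG.word w (i := 0) (by norm_num)
  have h4 : w = H1.gX c B1 (lv m (lv2 a .nil)) s B w 0 := by
    apply Subtype.ext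
    rw [h3, g6]
    change _ = app (H1.gR B1 (lv m (lv2 a .nil)) s B) (H1.ch (c + 3))
    rw [H1.ch_eq]
    congr 1
    exact H1.nR_eq B1 s B a m
  rw [← h4]

end Pool.OddHC
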