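import Pool.Agent.Work.MP_8f87b2_fin.MatJ2
import Pool.Agent.Work.MP_8f87b2_h40.HRow
import Pool.Agent.Work.MP_8f87b2_h3.L1W
import Pool.Agent.Work.MP_8f87b2_h63.BWg
import Pool.Agent.Work.MP_8f87b2_h59.RqEJ

/-!
# The word matrix: column H, right windows against J1, J4, L1 (helper36)
-/

set_option autoImplicit false

namespace Pool.OddHC

open Finset Equiv BinaryTree Pool.Agent.Work.MP_8f87b2_co

namespace MW

open Hole2

variable {k : ℕ} {F F' : Set (Cyc k)} {g g' : DG k}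

/-! ### right windows against J1, J4, L1: no condition -/

theorem r_R_J1c (hk : 13 ≤ k) (h : RqS F g) (h' : J1.TyJs F' g') : NC g g' := by
  rcases h with h | ⟨q, hq, h⟩
  · exact r_R3_J1 h.toR3 h'
  · exact (h.pw hq).dis_Js hk h'

theorem r_R_J4c (hk : 13 ≤ k) (h : RqS F g) (h' : J1.TyJt F' g') : NC g g' := by
  rcases h with h | ⟨q, hq, h⟩
  · exact r_R3_J4 h.toR3 h'
  · exact (h.pw hq).dis_Jt hk h'

theorem r_R_L1 (h : RqS F g) (h' : TyL1 F' g') : NC g g' := by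
  obtain ⟨q, h⟩ := h.rq
  exact h.disj_L1 h'

theorem r_RE_L1 (h : RES F g) (h' : TyL1 F' g') : NC g g' := by
  obtain ⟨q, h⟩ := h
  exact h.disj_L1 h'

/-! ### column H -/

theorem c_K_H (h' : TyH F' g') (hs : sH_K F' F g) : NC g g' := NC.symm (r_H_K h' hs)

theorem r_H_R (h : TyH F g) (h' : RqS F' g') : NC g g' := by
  obtain ⟨q, h'⟩ := h'.rq
  exact r_H_Rq h h'

theorem r_H_RE (h : TyH F g) (h' : RES F' g') : NC g g' := by
  obtain ⟨q, h'⟩ := h'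
  obtain ⟨n, hn, P, U, M, hj⟩ := h.jg
  exact NC.symm (h'.dis_JG hn hj).1

/-- the words of a group of type H are words of windows with `Q = ()`, mirrored or not -/
theorem H_wds (h : TyH F g) : ∀ w ∈ g.B, ∃ (R B S : BinaryTree Unit) (i : ℕ), i < 20 ∧
    (w.1 = H1.W R .nil B S i ∨ w.1 = Tsq.mir (H1.W R .nil B S i)) := by
  obtain ⟨n, hn, P, U, M, hj⟩ := h.jg
  intro w hw
  rcases hj w hw with ⟨Φ, -, i, hi, -, -, e⟩ | ⟨G, -, h1, e⟩ | ⟨Ψ, -, t, D, u, i, -, -, -, -, hi, e⟩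
  · exact ⟨_, _, _, i, by omega, Or.inl e⟩
  · obtain ⟨D, -, h2⟩ := J.RF_shape hn G
    rcases Nat.eq_zero_or_pos (G (-1)) with h3 | h3
    · obtain ⟨p, hp⟩ : ∃ p, G 0 = p + 1 := ⟨G 0 - 1, by omega⟩
      refine ⟨J.RR p D (G (-1)), .nil, .nil, 4, by norm_num, Or.inl ?_⟩
      rw [e, h2, hp]
      exact (J.pw_4 p D (G (-1))).symm
    · obtain ⟨p, hp⟩ : ∃ p, G (-1) = p + 1 := ⟨G (-1) - 1, by omega⟩
      refine ⟨J.RR (G 0) D p, .nil, .nil, 0, by norm_num, Or.inl ?_⟩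
      rw [e, h2, hp]
      exact (J.pw_0 (G 0) D p).symm
  · exact ⟨_, _, _, i, hi, Or.inr e⟩

theorem r_Fz_H (h : TyFz F g) (h' : TyH F' g') : NC g g' := by
  intro w hw hw'
  obtain ⟨R, B, S, i, hi, e | e⟩ := H_wds h' w hw'
  · exact (h.fyp w hw).not_W hi e
  · exact (h.fyp w hw).not_Wm hi e

theorem r_J2_H (h : J2S F g) (h' : TyH F' g') : NC g g' := by
  obtain ⟨R, B, S, ⟨v, hv, h1⟩, h4, h2⟩ := h
  obtain ⟨F0, g0, h5, h6, -⟩ := h1.base
  obtain ⟨n, hn, P, U, M, hj⟩ := h'.jg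
  intro w hw
  exact h5.dis_JG h4 h2 hn hj w ((h6 w).1 hw)

end MW

end Pool.OddHC
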