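import Pool.Agent.Work.MP_8f87b2_fin.MatN
import Pool.Agent.Work.MP_8f87b2_fin.MatJ
import Pool.Agent.Work.MP_8f87b2_fin.MatS
import Pool.Agent.Work.MP_8f87b2_h2.KHi
import Pool.Agent.Work.MP_8f87b2_h3.A0T
import Pool.Agent.Work.MP_8f87b2_h25.JETy
import Pool.Agent.Work.MP_8f87b2_h27.S5D
import Pool.Agent.Work.MP_8f87b2_h27.Flat
import Pool.Agent.Work.MP_8f87b2_h29.EdWin
import Pool.Agent.Work.MP_8f87b2_h33.InJV
import Pool.Agent.Work.MP_8f87b2_h60.InRT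
import Pool.Agent.Work.MP_8f87b2_h74.InJs

/-!
# MP_8f87b2_co: the inner words of the windows `A` against all types
-/

set_option autoImplicit false

namespace Pool.OddHC

open Finset Equiv BinaryTree Pool.Agent.Work.MP_8f87b2_co

namespace MW

variable {k : ℕ} {F F' : Set (Cyc k)} {g g' : DG k}

/-- the inner words of a window are `TT` of the words 0, 1, 3, 6, 8, 9 -/
theorem NI_A {q : ℕ} {B1 H s B : BinaryTree Unit} {w0 : X k}
    (key : ∀ i ∈ [0, 1, 3, 6, 8, 9], TT (H1.gX q B1 H s B w0 i) ∉ g'.B) :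
    NI (gad20 (H1.gX q B1 H s B w0)) g' := by
  intro p hp w hw
  obtain ⟨i, hi, e⟩ := arcs_cases hp
  rw [e] at hw
  have e1 : w = TT (H1.gX q B1 H s B w0 i) := hw
  rw [e1]
  exact key i hi

theorem A_ht' {q : ℕ} {B1 H s B : BinaryTree Unit} {w0 : X k} (h : H1.NodeG k q B1 H s B) :
    htc (cyc (H1.gX q B1 H s B w0 0)) = OddHC.ht s + 1 := by
  have e : OddHC.ht (H1.gX q B1 H s B w0 0).1 = max (OddHC.ht s + 1) (({q + 3} : Multiset ℕ).sup) := by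
    rw [OddHC.ht_eq, h.cont0, sup_add', ← OddHC.ht_eq, h.ht]
  rw [htc_cyc, e, Multiset.sup_singleton]
  exact max_eq_left h.big

theorem A_ht {q : ℕ} {B1 H s B : BinaryTree Unit} {w0 : X k} (h : H1.NodeG k q B1 H s B) :
    OddHC.ht s + 1 ≤ htc (cyc (H1.gX q B1 H s B w0 0)) := (A_ht' h).ge

/-- the side condition of `A` against `E` -/
def siA_E (F : Set (Cyc k)) (g g' : DG k) : Prop :=
  ∃ (q : ℕ) (B1 H s B : BinaryTree Unit) (w0 : X k), H1.NodeG k q B1 H s B ∧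
    F = {cyc (H1.gX q B1 H s B w0 0)} ∧ g = gad20 (H1.gX q B1 H s B w0) ∧
    (1 ≤ (cont (H1.gR B1 H s B)).count 2 ∨
      ∃ H' s', app H s = app H' s' ∧ H1.hg 4 s' ∧ s' ≠ .nil ∧ OddHC.ht H' < OddHC.ht s' ∧
        (1 ≤ (cont (H1.gR B1 H s B)).count 3 ∨ q = 1 ∨ (q = 2 ∧ TT (H1.gX q B1 H s B w0 6) ∉ g'.B)))

theorem i_A_E (h' : TyE F' g') (hle : ∀ c ∈ F, ∀ d ∈ F', htc c ≤ htc d) (hs : siA_E F g g') : NI g g' := by
  obtain ⟨q, B1, H, s, B, w0, h1, rfl, rfl, h2⟩ := hs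
  have hh : ∀ c ∈ F', OddHC.ht s + 1 ≤ htc c := fun c hc => le_trans (A_ht (w0 := w0) h1) (hle _ rfl c hc)
  apply NI_A
  intro i hi
  rcases h2 with h2 | ⟨H', s', e, h3, h4, h5, h6⟩
  · exact h1.innerE2 h2 w0 hi h'
  · rcases h6 with h6 | rfl | ⟨rfl, h6⟩
    · exact h1.innerE3 e h3 h4 h5 h6 w0 hi h'
    · by_cases h0 : i = 0 ∨ i = 1
      · exact h1.innerE01 w0 h0 h' hh
      · refine h1.innerE4 e h3 h4 h5 w0 (Or.inl ⟨rfl, ?_⟩) h'
        simp only [List.mem_cons, List.not_mem_nil, or_false] at hi ⊢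
        omega
    · by_cases h0 : i = 0 ∨ i = 1
      · exact h1.innerE01 w0 h0 h' hh
      · by_cases h7 : i = 6
        · rw [h7]; exact h6
        · refine h1.innerE4 e h3 h4 h5 w0 (Or.inr ⟨rfl, ?_⟩) h'
          simp only [List.mem_cons, List.not_mem_nil, or_false] at hi ⊢
          omega

theorem i_A_En (h' : TyEn F' g') (hle : ∀ c ∈ F, ∀ d ∈ F', htc c ≤ htc d) (hs : siA_E F g g') : NI g g' :=
  i_A_E h'.toE hle hs

/-- the side condition of `A` against deep `E` -/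
def siA_Ed (F : Set (Cyc k)) (g g' : DG k) : Prop :=
  (∀ c ∈ F, 2 ∈ contc c) ∨
  ∃ (q : ℕ) (B1 H s B : BinaryTree Unit) (w0 : X k), H1.NodeG k q B1 H s B ∧
    F = {cyc (H1.gX q B1 H s B w0 0)} ∧ g = gad20 (H1.gX q B1 H s B w0) ∧
    (2 ∈ cont (H1.gR B1 H s B) ∨ 3 ∈ cont (H1.gR B1 H s B) ∨ q = 1 ∨
      ∀ i ∈ [3, 6, 8, 9], TT (H1.gX q B1 H s B w0 i) ∉ g'.B)

theorem i_A_Ed (h : TyA F g) (h' : TyEd F' g') (hle : ∀ c ∈ F, ∀ d ∈ F', htc c ≤ htc d) (hs : siA_Ed F g g') :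
    NI g g' := by
  rcases hs with h2 | ⟨q, B1, H, s, B, w0, h1, rfl, rfl, h2⟩
  · exact fun p hp w hw => h.inner_Ed h' h2 hp w hw
  · have hh : ∀ c ∈ F', OddHC.ht s + 1 ≤ htc c := fun c hc => le_trans (A_ht (w0 := w0) h1) (hle _ rfl c hc)
    apply NI_A
    intro i hi
    by_cases h0 : i = 0 ∨ i = 1
    · exact h1.not_Ed w0 hi h' (Or.inr (Or.inr (Or.inr (Or.inr ⟨h0, hh⟩))))
    rcases h2 with h2 | h2 | rfl | h2
    · exact h1.not_Ed w0 hi h' (Or.inl h2)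
    · exact h1.not_Ed w0 hi h' (Or.inr (Or.inl h2))
    · exact h1.not_Ed w0 hi h' (Or.inr (Or.inr (Or.inl ⟨rfl, by omega⟩)))
    · apply h2
      simp only [List.mem_cons, List.not_mem_nil, or_false] at hi ⊢
      omega

theorem i_A_L (h : TyA F g) (h' : TyL F' g') : NI g g' := by
  obtain ⟨q, B1, H, s, B, w0, h1, rfl, rfl⟩ := h
  obtain ⟨R', e, _, _, _, _, h2⟩ := h'
  apply NI_A
  intro i hi
  exact h1.innerL w0 hi (a := 0) (b := 0) h2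

/-- the beads of a window: at least one, not exactly one bead and one square -/
def siA_K (F : Set (Cyc k)) : Prop :=
  ∀ c ∈ F, 1 ≤ (contc c).count 1 ∧ ¬ ((contc c).count 1 = 1 ∧ (contc c).count 2 = 1)

theorem i_A_K (h : TyA F g) (h' : TyKh F' g') (hs : siA_K F) : NI g g' :=
  fun _ hp w hw => h.inner_Kh h' hs hp w hw

theorem i_A_Km (h : TyA F g) (h' : KmS F' g') : NI g g' := by
  obtain ⟨S, _, _, _, _, _, h2⟩ := h'
  exact fun p hp w hw => h.inner_K' h2 hp w hw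

/-- the shape of a right content link: beads at the end, or flat -/
def siA_Cr (F' : Set (Cyc k)) (g' : DG k) : Prop :=
  (∃ (S0 : BinaryTree Unit) (c m : ℕ), 3 ≤ c ∧ H1.hv S0 ∧ S0 ≠ .nil ∧ TyC c (app S0 (lp m)) F' g') ∨
    ∃ (c : ℕ) (S : BinaryTree Unit), H1.fl S ∧ TyC c S F' g'

theorem i_A_C (h : TyA F g) (hd : ∀ c ∈ F, c ∉ F') (hle : ∀ c ∈ F, ∀ d ∈ F', htc c ≤ htc d)
    (hs : siA_Cr F' g') : NI g g' := by
  rcases hs with ⟨S0, c, m, h1, h2, h3, h4⟩ | ⟨c, S, h1, h2⟩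
  · exact fun p hp w hw => h.inner_Cr h4 h2 h3 h1 hp w hw
  · exact fun p hp w hw => h.inner_C h2 h1 hd hle hp w hw

/-- the shape of a left content link: beads at the end, or flat -/
def siA_Cl (F' : Set (Cyc k)) (g' : DG k) : Prop :=
  (∃ (S0 : BinaryTree Unit) (c m : ℕ), 2 ≤ c ∧ c ≠ 3 ∧ c + 1 ≤ OddHC.ht (app S0 (lp m)) ∧ H1.hv S0 ∧ S0 ≠ .nil ∧
    TyC' c (app S0 (lp m)) F' g') ∨
    ∃ (c : ℕ) (S : BinaryTree Unit), H1.fl S ∧ TyC' c S F' g'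

theorem i_A_C' (h : TyA F g) (hd : ∀ c ∈ F, c ∉ F') (hle : ∀ c ∈ F, ∀ d ∈ F', htc c ≤ htc d)
    (hs : siA_Cl F' g') : NI g g' := by
  rcases hs with ⟨S0, c, m, h1, h1', h5, h2, h3, h4⟩ | ⟨c, S, h1, h2⟩
  · exact fun p hp w hw => h.inner_Cl h4 h2 h3 h1 h1' h5 hp w hw
  · exact fun p hp w hw => h.inner_C' h2 h1 hd hle hp w hw

theorem i_A_S5 (h : TyA F g) (h' : TyS5l F' g') (hd : ∀ c ∈ F, c ∉ F')
    (hle : ∀ c ∈ F, ∀ d ∈ F', htc c ≤ htc d) : NI g g' :=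
  fun _ hp w hw => h.inner_S5 h'.toS5 hd hle hp w hw

/-- windows against windows (also the same window) -/
theorem i_A_A (hk : 11 ≤ k) (h : TyA F g) (h' : TyA F' g') (hle : ∀ c ∈ F, ∀ d ∈ F', htc c ≤ htc d) : NI g g' := by
  obtain ⟨q, B1, H, s, B, w0, h1, rfl, rfl⟩ := h
  obtain ⟨q', B1', H', s', B', w0', h1', rfl, rfl⟩ := h'
  apply NI_A
  intro i hi hw
  obtain ⟨j, hj, e⟩ := mem_gad20.1 hw
  have e0 : H1.gX q' B1' H' s' B' w0' j = H1.gX q' B1' H' s' B' w0 j := by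
    apply Subtype.ext
    rw [h1'.word w0' hj, h1'.word w0 hj]
  rw [e0] at e
  refine h1.inner_all h1' w0 hk (Or.inr ?_) hi hj e.symm
  have e1 := hle _ rfl _ rfl
  rw [A_ht' h1, A_ht' h1'] at e1
  omega

theorem i_A_self (hk : 11 ≤ k) (h : TyA F g) : NI g g := by
  refine i_A_A hk h h ?_
  obtain ⟨q, B1, H, s, B, w0, h1, rfl, rfl⟩ := h
  rintro c rfl d rfl
  exact le_rfl

/-- the phase condition of `JV` and a part 1 in the window -/
def siA_JV (F F' : Set (Cyc k)) (g' : DG k) : Prop :=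
  (∀ c ∈ F, 1 ∈ contc c) ∧ ∃ Z : BinaryTree Unit, JVw Z ∧ Is9 .nil .nil Z F' g'

theorem i_A_JV (h : TyA F g) (hle : ∀ c ∈ F, ∀ d ∈ F', htc c ≤ htc d) (hs : siA_JV F F' g') : NI g g' := by
  obtain ⟨h1, Z, h2, h3⟩ := hs
  exact fun p hp w hw => h.inner_JV h3 h2 h1 hle hp w hw

end MW

end Pool.OddHC
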