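import Pool.Agent.Work.MP_8f87b2_fin.MatZ
import Pool.Agent.Work.MP_8f87b2_h14.P5J
import Pool.Agent.Work.MP_8f87b2_h14.P5R
import Pool.Agent.Work.MP_8f87b2_h14.P5T
import Pool.Agent.Work.MP_8f87b2_h14.P5V
import Pool.Agent.Work.MP_8f87b2_h15.P5E

/-!
# The word matrix: columns P5, P5m (helper36)
-/

set_option autoImplicit false

namespace Pool.OddHC

open Finset Equiv BinaryTree Pool.Agent.Work.MP_8f87b2_co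

namespace MW

variable {k : ℕ} {F F' : Set (Cyc k)} {g g' : DG k}


theorem r_E_P5 (h : TyE F g) (h' : P5DS F' g') (hd : ∀ c ∈ F, c ∉ F') : NC g g' := by
  obtain ⟨S, h'⟩ := h'
  exact NC.symm (h'.disj_E h (dsymm hd))

theorem r_Ed_P5 (h : TyEd F g) (h' : P5DS F' g') (hd : ∀ c ∈ F, c ∉ F') : NC g g' := by
  obtain ⟨S, h'⟩ := h'
  exact NC.symm (h'.disj_Ed h (dsymm hd))

theorem r_L_P5 (h : TyL F g) (h' : P5DS F' g') (hd : ∀ c ∈ F, c ∉ F') : NC g g' := by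
  obtain ⟨S, h'⟩ := h'
  exact NC.symm (h'.disj_L h (dsymm hd))

theorem r_K_P5 (h : TyKh F g) (h' : P5DS F' g') (hd : ∀ c ∈ F, c ∉ F') : NC g g' := by
  obtain ⟨S, h'⟩ := h'
  obtain ⟨U, _, h⟩ := h
  exact NC.symm (h'.disj_K h (dsymm hd))

theorem r_Km_P5 (h : KmS F g) (h' : P5DS F' g') (hd : ∀ c ∈ F, c ∉ F') : NC g g' := by
  obtain ⟨S, h'⟩ := h'
  obtain ⟨U, _, _, _, _, _, h⟩ := h
  exact NC.symm (h'.disj_K' h (dsymm hd))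

theorem r_Cr_P5 (h : TyCr F g) (h' : P5DS F' g') (hd : ∀ c ∈ F, c ∉ F') : NC g g' := by
  obtain ⟨S, h'⟩ := h'
  exact NC.symm (h'.disj_Cr h (dsymm hd))

theorem r_Cl_P5 (h : TyCl F g) (h' : P5DS F' g') (hd : ∀ c ∈ F, c ∉ F') : NC g g' := by
  obtain ⟨S, h'⟩ := h'
  exact NC.symm (h'.disj_Cl h (dsymm hd))

theorem r_Dn_P5 (h : TyDn F g) (h' : P5DS F' g') (hd : ∀ c ∈ F, c ∉ F') : NC g g' := by
  obtain ⟨S, h'⟩ := h'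
  obtain ⟨U, _, h⟩ := h
  exact NC.symm (h'.disj_C (by norm_num) h (dsymm hd))

theorem r_Fz_P5 (h : TyFz F g) (h' : P5DS F' g') (hd : ∀ c ∈ F, c ∉ F') : NC g g' := by
  obtain ⟨S, h'⟩ := h'
  obtain ⟨c, U, h1, h⟩ := h
  exact NC.symm (h'.disj_C (by have := h1.c3; omega) h (dsymm hd))

theorem r_A_P5 (h : TyA F g) (h' : P5DS F' g') (hd : ∀ c ∈ F, c ∉ F') (hs : EdIn F' g ∧ A3 F) : NC g g' := by
  obtain ⟨S, h'⟩ := h'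
  exact NC.symm (h'.r_A h (dsymm hd) hs.1 hs.2)

theorem r_R_P5 (h : RqS F g) (h' : P5DS F' g') (hd : ∀ c ∈ F, c ∉ F') (hs : EdIn F' g) : NC g g' := by
  obtain ⟨S, h'⟩ := h'
  obtain ⟨q, h⟩ := h.rq
  exact NC.symm (h'.r_Rq h (dsymm hd) hs)

theorem r_RE_P5 (h : RES F g) (h' : P5DS F' g') (hd : ∀ c ∈ F, c ∉ F') (hs : EdIn F' g) : NC g g' := by
  obtain ⟨c, g1, h1, ⟨q, h2, h3⟩, h4⟩ := h.toR
  have h5 : EdIn F' g1 := fun FE gE h6 h7 w hw hw' => hs FE gE h6 h7 w hw ((h4 w).2 hw')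
  intro w hw
  exact r_R_P5 (Or.inr ⟨q, h2, h3⟩) h' (single_hd h1 hd) h5 w ((h4 w).1 hw)

theorem r_T_P5 (h : TyT F g) (h' : P5DS F' g') (hd : ∀ c ∈ F, c ∉ F') : NC g g' := by
  obtain ⟨S, h'⟩ := h'
  refine NC.symm (h'.r_T h (dsymm hd) ?_)
  intro FE gE h1 h2
  exact NC.symm (dj_TE _ _ _ _ h h1.toE fun c hc hc' => hd c hc (h2 c hc'))

theorem r_J1_P5 (h : J1.TyJs F g) (h' : P5DS F' g') (hd : ∀ c ∈ F, c ∉ F') (hs : EdIn F' g) : NC g g' := by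
  obtain ⟨S, h'⟩ := h'
  exact NC.symm (h'.r_J1 h (dsymm hd) hs)

theorem r_J4_P5 (h : J1.TyJt F g) (h' : P5DS F' g') (hd : ∀ c ∈ F, c ∉ F') (hs : EdIn F' g) : NC g g' := by
  obtain ⟨S, h'⟩ := h'
  exact NC.symm (h'.r_J4 h (dsymm hd) hs)

theorem r_E_P5m (h : TyE F g) (h' : P5MS F' g') (hd : ∀ c ∈ F, c ∉ F') : NC g g' := by
  obtain ⟨S, h'⟩ := h'
  exact NC.symm (h'.disj_E h (dsymm hd))

theorem r_Ed_P5m (h : TyEd F g) (h' : P5MS F' g') (hd : ∀ c ∈ F, c ∉ F') : NC g g' := by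
  obtain ⟨S, h'⟩ := h'
  exact NC.symm (h'.disj_Ed h (dsymm hd))

theorem r_L_P5m (h : TyL F g) (h' : P5MS F' g') (hd : ∀ c ∈ F, c ∉ F') : NC g g' := by
  obtain ⟨S, h'⟩ := h'
  exact NC.symm (h'.disj_L h (dsymm hd))

theorem r_K_P5m (h : TyKh F g) (h' : P5MS F' g') (hd : ∀ c ∈ F, c ∉ F') : NC g g' := by
  obtain ⟨S, h'⟩ := h'
  obtain ⟨U, _, h⟩ := h
  exact NC.symm (h'.disj_K h (dsymm hd))

theorem r_Km_P5m (h : KmS F g) (h' : P5MS F' g') (hd : ∀ c ∈ F, c ∉ F') : NC g g' := by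
  obtain ⟨S, h'⟩ := h'
  obtain ⟨U, _, _, _, _, _, h⟩ := h
  exact NC.symm (h'.disj_K' h (dsymm hd))

theorem r_Cr_P5m (h : TyCr F g) (h' : P5MS F' g') (hd : ∀ c ∈ F, c ∉ F') : NC g g' := by
  obtain ⟨S, h'⟩ := h'
  exact NC.symm (h'.disj_Cr h (dsymm hd))

theorem r_Cl_P5m (h : TyCl F g) (h' : P5MS F' g') (hd : ∀ c ∈ F, c ∉ F') : NC g g' := by
  obtain ⟨S, h'⟩ := h'
  exact NC.symm (h'.disj_Cl h (dsymm hd))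

theorem r_Dn_P5m (h : TyDn F g) (h' : P5MS F' g') (hd : ∀ c ∈ F, c ∉ F') : NC g g' := by
  obtain ⟨S, h'⟩ := h'
  obtain ⟨U, _, h⟩ := h
  exact NC.symm (h'.disj_C (by norm_num) h (dsymm hd))

theorem r_Fz_P5m (h : TyFz F g) (h' : P5MS F' g') (hd : ∀ c ∈ F, c ∉ F') : NC g g' := by
  obtain ⟨S, h'⟩ := h'
  obtain ⟨c, U, h1, h⟩ := h
  exact NC.symm (h'.disj_C (by have := h1.c3; omega) h (dsymm hd))

theorem r_A_P5m (h : TyA F g) (h' : P5MS F' g') (hd : ∀ c ∈ F, c ∉ F') (hs : EdIn F' g ∧ A3 F) : NC g g' := by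
  obtain ⟨S, h'⟩ := h'
  exact NC.symm (h'.r_A h (dsymm hd) hs.1 hs.2)

theorem r_R_P5m (h : RqS F g) (h' : P5MS F' g') (hd : ∀ c ∈ F, c ∉ F') (hs : EdIn F' g) : NC g g' := by
  obtain ⟨S, h'⟩ := h'
  obtain ⟨q, h⟩ := h.rq
  exact NC.symm (h'.r_Rq h (dsymm hd) hs)

theorem r_RE_P5m (h : RES F g) (h' : P5MS F' g') (hd : ∀ c ∈ F, c ∉ F') (hs : EdIn F' g) : NC g g' := by
  obtain ⟨c, g1, h1, ⟨q, h2, h3⟩, h4⟩ := h.toR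
  have h5 : EdIn F' g1 := fun FE gE h6 h7 w hw hw' => hs FE gE h6 h7 w hw ((h4 w).2 hw')
  intro w hw
  exact r_R_P5m (Or.inr ⟨q, h2, h3⟩) h' (single_hd h1 hd) h5 w ((h4 w).1 hw)

theorem r_T_P5m (h : TyT F g) (h' : P5MS F' g') (hd : ∀ c ∈ F, c ∉ F') : NC g g' := by
  obtain ⟨S, h'⟩ := h'
  refine NC.symm (h'.r_T h (dsymm hd) ?_)
  intro FE gE h1 h2
  exact NC.symm (dj_TE _ _ _ _ h h1.toE fun c hc hc' => hd c hc (h2 c hc'))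

theorem r_J1_P5m (h : J1.TyJs F g) (h' : P5MS F' g') (hd : ∀ c ∈ F, c ∉ F') (hs : EdIn F' g) : NC g g' := by
  obtain ⟨S, h'⟩ := h'
  exact NC.symm (h'.r_J1 h (dsymm hd) hs)

theorem r_J4_P5m (h : J1.TyJt F g) (h' : P5MS F' g') (hd : ∀ c ∈ F, c ∉ F') (hs : EdIn F' g) : NC g g' := by
  obtain ⟨S, h'⟩ := h'
  exact NC.symm (h'.r_J4 h (dsymm hd) hs)

/-- JE against P5 -/
def sJE_P5 (F F' : Set (Cyc k)) (g g' : DG k) : Prop :=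
  EdIn F' g ∧ ∃ S Z, TyP5D S F' g' ∧ TyJE Z F g ∧ xT Z ≠ app S (P5.o △ .nil)

theorem r_JE_P5 (hd : ∀ c ∈ F, c ∉ F') (hs : sJE_P5 F F' g g') : NC g g' := by
  obtain ⟨h0, S, Z, h1, h2, h3⟩ := hs
  exact NC.symm (h1.r_JE h2 (dsymm hd) h0 h3)

theorem r_JE_P5m (h : JES F g) (h' : P5MS F' g') (hd : ∀ c ∈ F, c ∉ F') (hs : EdIn F' g) : NC g g' := by
  obtain ⟨S, h'⟩ := h'
  obtain ⟨Z, h⟩ := h
  exact NC.symm (h'.r_JE h (dsymm hd) hs)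

theorem r_JEm_P5 (h : JEMS F g) (h' : P5DS F' g') (hd : ∀ c ∈ F, c ∉ F') (hs : EdIn F' g) : NC g g' := by
  obtain ⟨S, h'⟩ := h'
  obtain ⟨Z, h⟩ := h
  exact NC.symm (h'.r_JEM h (dsymm hd) hs)

/-- JE mirrored against P5 mirrored -/
def sJEm_P5m (F F' : Set (Cyc k)) (g g' : DG k) : Prop :=
  EdIn F' g ∧ ∃ S Z, TyP5MD S F' g' ∧ TyJEM Z F g ∧ xTM Z ≠ P5.o △ S

theorem r_JEm_P5m (hd : ∀ c ∈ F, c ∉ F') (hs : sJEm_P5m F F' g g') : NC g g' := by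
  obtain ⟨h0, S, Z, h1, h2, h3⟩ := hs
  exact NC.symm (h1.r_JEM h2 (dsymm hd) h0 h3)

/-- JV against P5 -/
def sJV_P5 (F F' : Set (Cyc k)) (g g' : DG k) : Prop :=
  EdIn F' g ∧ ∃ S Z, TyP5D S F' g' ∧ Is9 .nil .nil Z F g ∧ (xT Z ≠ app S (P5.o △ .nil) ∨ JVW.NE2 Z)

theorem r_JV_P5 (hd : ∀ c ∈ F, c ∉ F') (hs : sJV_P5 F F' g g') : NC g g' := by
  obtain ⟨h0, S, Z, h1, h2, h3 | h3⟩ := hs
  · exact NC.symm (h1.r_JV h2 (dsymm hd) h0 h3)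
  · exact NC.symm (h1.r_JV' h2 (dsymm hd) h0 h3)

theorem r_JV_P5m (h : JVS F g) (h' : P5MS F' g') (hd : ∀ c ∈ F, c ∉ F') (hs : EdIn F' g) : NC g g' := by
  obtain ⟨S, h'⟩ := h'
  obtain ⟨Z, _, _, h⟩ := h
  exact NC.symm (h'.r_JV h (dsymm hd) hs)

theorem r_JVm_P5 (h : JVMS F g) (h' : P5DS F' g') (hd : ∀ c ∈ F, c ∉ F') (hs : EdIn F' g) : NC g g' := by
  obtain ⟨S, h'⟩ := h'
  obtain ⟨Z, h1, h2, h⟩ := h
  exact NC.symm (h'.r_JVm h h2 h1 (dsymm hd) hs)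

/-- JV mirrored against P5 mirrored -/
def sJVm_P5m (F F' : Set (Cyc k)) (g g' : DG k) : Prop :=
  EdIn F' g ∧ ∃ S Z, TyP5MD S F' g' ∧ JVMD F g Z ∧ xTM Z ≠ P5.o △ S

theorem r_JVm_P5m (hd : ∀ c ∈ F, c ∉ F') (hs : sJVm_P5m F F' g g') : NC g g' := by
  obtain ⟨h0, S, Z, h1, ⟨h2, h3, h4⟩, h5⟩ := hs
  exact NC.symm (h1.r_JVm h4 h3 h2 (dsymm hd) h0 h5)

theorem r_P5_P5 (h : P5DS F g) (h' : P5DS F' g') (hd : ∀ c ∈ F, c ∉ F') : NC g g' := by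
  obtain ⟨S, h⟩ := h
  obtain ⟨S', h'⟩ := h'
  exact h.r_P5 h' hd

theorem r_P5_P5m (h : P5DS F g) (h' : P5MS F' g') (hd : ∀ c ∈ F, c ∉ F') : NC g g' := by
  obtain ⟨S, h⟩ := h
  obtain ⟨S', h'⟩ := h'
  exact h.r_P5M h' hd

theorem r_P5m_P5m (h : P5MS F g) (h' : P5MS F' g') (hd : ∀ c ∈ F, c ∉ F') : NC g g' := by
  obtain ⟨S, h⟩ := h
  obtain ⟨S', h'⟩ := h'
  exact h.r_P5M h' hd

end MW

end Pool.OddHC
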