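import Pool.Agent.Work.MP_8f87b2_fin.MatIS
import Pool.Agent.Work.MP_8f87b2_fin.MatIA
import Pool.Agent.Work.MP_8f87b2_fin.MatP5
import Pool.Agent.Work.MP_8f87b2_h3.L1T
import Pool.Agent.Work.MP_8f87b2_h3.L1Rq
import Pool.Agent.Work.MP_8f87b2_h3.RqL1
import Pool.Agent.Work.MP_8f87b2_h3.RqEL1
import Pool.Agent.Work.MP_8f87b2_h13.RqFz
import Pool.Agent.Work.MP_8f87b2_h14.P5S
import Pool.Agent.Work.MP_8f87b2_h15.P5G
import Pool.Agent.Work.MP_8f87b2_h63.BWg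
import Pool.Agent.Work.MP_8f87b2_h77.DT
import Pool.Agent.Work.MP_8f87b2_h59.J33
import Pool.Agent.Work.MP_8f87b2_h3.L1T2
import Pool.Agent.Work.MP_8f87b2_h10.L1In
import Pool.Agent.Work.MP_8f87b2_h11.L1Rows
import Pool.Agent.Work.MP_8f87b2_h21.JVi
import Pool.Agent.Work.MP_8f87b2_h25.MatIJV
import Pool.Agent.Work.MP_8f87b2_h25.MatIJE
import Pool.Agent.Work.MP_8f87b2_h34.J3VJ3
import Pool.Agent.Work.MP_8f87b2_h34.J3VS5
import Pool.Agent.Work.MP_8f87b2_h40.HInn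
import Pool.Agent.Work.MP_8f87b2_h41.InAJ
import Pool.Agent.Work.MP_8f87b2_h50.J3Rows
import Pool.Agent.Work.MP_8f87b2_h54.JVmw
import Pool.Agent.Work.MP_8f87b2_h57.J3Rows2
import Pool.Agent.Work.MP_8f87b2_h57.J5three
import Pool.Agent.Work.MP_8f87b2_h59.RqEJ
import Pool.Agent.Work.MP_8f87b2_h68.J1I
import Pool.Agent.Work.MP_8f87b2_h68.J3R
import Pool.Agent.Work.MP_8f87b2_h68.JVI
import Pool.Agent.Work.MP_8f87b2_h68.JI

/-!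
# MP_8f87b2_co: further rows of the inner matrix
-/

set_option autoImplicit false

namespace Pool.OddHC

open Finset Equiv BinaryTree Pool.Agent.Work.MP_8f87b2_co

namespace MW

variable {k : ℕ} {F F' : Set (Cyc k)} {g g' : DG k}

/-- no inner word outside the T-cycles of `F` is a word of `g'` -/
def NF (F : Set (Cyc k)) (g g' : DG k) : Prop := ∀ p ∈ g.arcs, ∀ w ∈ innA p, cyc w ∉ F → w ∉ g'.B

theorem NI.nf (h : NI g g') : NF F g g' := fun p hp w hw _ => h p hp w hw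

/-! ### A -/

theorem i_A_RE (h : TyAp F g) (h' : RES F' g') : NI g g' := by
  obtain ⟨q, h'⟩ := h'
  intro p hp w hw hw'
  obtain ⟨q', n, a, B1, s, B', w0', i, h1', hn, hi, e1⟩ := h.inn60 p hp
  obtain ⟨R, B, S, w0, j, h1, hj, e2, -⟩ := h'.words' w hw'
  have hw2 : w = TT p.1 := hw
  rw [e1] at hw2
  exact h1.rinner_G' w0 hj h1' w0' hn hi (hw2.symm.trans e2)

theorem iw_Aq_R (h : TyAq F g) (h' : RqS F' g') : NF F g g' := by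
  obtain ⟨q, h'⟩ := h'.rq
  exact fun p hp w hw hn hw' => hn (h.inner_Rq h' p hp w hw hw')

theorem iw_Aq_RE (h : TyAq F g) (h' : RES F' g') : NF F g g' := by
  obtain ⟨q, h'⟩ := h'
  intro p hp w hw hn hw'
  apply hn
  obtain ⟨a, B1, s, B', w0', i, h1', hi, e2, hm⟩ := h.inn p hp
  obtain ⟨R, B, S, w0, j, h1, hj, e1, -⟩ := h'.words' w hw'
  have hw2 : w = TT p.1 := hw
  have hw3 := hw2
  rw [e2] at hw3
  obtain ⟨rfl, -⟩ := h1.rinner_G2' w0 hj h1' w0' hi (hw3.symm.trans e1)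
  rw [HM.cyc_T0 hw2 e2]
  exact hm

/-! ### R, RE -/

theorem i_R_RE (h : RqS F g) (h' : RES F' g') (hd : ∀ c ∈ F, c ∉ F') : NI g g' := by
  obtain ⟨q, h⟩ := h.rq
  obtain ⟨q', h'⟩ := h'
  intro p hp w hw hw'
  obtain ⟨R, B, S, w0, i, h1, hi, rfl, m1⟩ := h.inn0 p hp w hw
  obtain ⟨R', B', S', w0', j, h1', hj, e2, m2⟩ := h'.words' _ hw'
  obtain ⟨-, e3⟩ := HM.core_RR h1 h1' hi hj e2
  exact hd _ m1 (e3 ▸ m2)

theorem i_R_H (h' : Hole2.TyH F' g') (hs : (∃ q, 1 ≤ q ∧ TyRq q F g) ∨ (RqS F g ∧ ClJ g)) : NI g g' := by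
  obtain ⟨n, hn, P, U, M, hJ⟩ := h'.jg
  rcases hs with ⟨q, hq, h⟩ | ⟨h, hc⟩
  · exact fun p hp w hw => TyRq.inner_JG (Or.inl h) (fun e => absurd e (by omega)) hn hJ p hp w hw
  · obtain ⟨q, h⟩ := h.rq
    exact fun p hp w hw => TyRq.inner_JG (Or.inl h) (fun _ => hc) hn hJ p hp w hw

theorem mem_E_R9 {i : ℕ} (hi : i ∈ [3, 6, 8, 9]) : i ∈ [0, 1, 3, 6, 8, 9] := by
  simp only [List.mem_cons, List.not_mem_nil, or_false] at hi ⊢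
  omega

theorem ne_E0_9 {i : ℕ} (hi : i ∈ [3, 6, 8, 9]) : i ≠ 0 := by
  simp only [List.mem_cons, List.not_mem_nil, or_false] at hi
  omega

theorem i_RE_L (h : RES F g) (h' : TyL F' g') : NI g g' := by
  obtain ⟨q, h⟩ := h
  exact fun p hp w hw => (h.innP p hp w hw).1.not_L h'

theorem i_RE_K (h : RES F g) (h' : TyKh F' g') : NI g g' := by
  obtain ⟨q, h⟩ := h
  obtain ⟨S, _, h2⟩ := h'
  exact fun p hp w hw => (h.innP p hp w hw).1.not_K h2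

theorem i_RE_Km (h : RES F g) (h' : KmS F' g') : NI g g' := by
  obtain ⟨q, h⟩ := h
  obtain ⟨S, _, _, _, _, _, h2⟩ := h'
  exact fun p hp w hw => (h.innP p hp w hw).1.not_K' h2

theorem i_RE_C (hs : ∃ q c U, TyRqE q F g ∧ TyC c U F' g' ∧ 1 ≤ c ∧ c ≤ q + 1) : NI g g' := by
  obtain ⟨q, c, U, h, h', hc, hq⟩ := hs
  intro p hp w hw hw'
  obtain ⟨R, B, S, w0, i, h1, hi, rfl, -⟩ := h.inn0 p hp w hw
  exact h1.inn_C w0 (mem_E_R9 hi) hc hq h' hw'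

theorem i_RE_C' (hs : ∃ q c U, TyRqE q F g ∧ TyC' c U F' g' ∧ 1 ≤ c ∧ c ≤ q + 1) : NI g g' := by
  obtain ⟨q, c, U, h, h', hc, hq⟩ := hs
  intro p hp w hw hw'
  obtain ⟨R, B, S, w0, i, h1, hi, rfl, -⟩ := h.inn0 p hp w hw
  exact h1.inn_C' w0 (mem_E_R9 hi) hc hq h' hw'

theorem i_RE_A (h : RES F g) (h' : TyAp F' g') : NI g g' := by
  obtain ⟨q, h⟩ := h
  intro p hp w hw hw'
  obtain ⟨R, B, S, w0, i, h1, hi, rfl, -⟩ := h.inn0 p hp w hw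
  obtain ⟨q', n, a, B1, s, B', w0', j, h1', hn, hj, e2⟩ := h'.words60 _ hw'
  exact h1.rinner_G w0 (mem_E_R9 hi) h1' w0' hn hj e2

theorem i_RE_Aq (h : RES F g) (h' : TyAq F' g') : NI g g' := by
  obtain ⟨q, h⟩ := h
  intro p hp w hw hw'
  obtain ⟨R, B, S, w0, i, h1, hi, rfl, -⟩ := h.inn0 p hp w hw
  obtain ⟨a, B1, s, B', w0', j, h1', hj, e2⟩ := h'.words _ hw'
  exact h1.rinner_G2 w0 (mem_E_R9 hi) h1' w0' hj e2

theorem i_RE_R (h : RES F g) (h' : RqS F' g') : NI g g' := by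
  obtain ⟨q, h⟩ := h
  obtain ⟨q', h'⟩ := h'.rq
  intro p hp w hw hw'
  obtain ⟨R, B, S, w0, i, h1, hi, rfl, -⟩ := h.inn0 p hp w hw
  obtain ⟨R', B', S', w0', j, h1', hj, e2, -⟩ := h'.words _ hw'
  obtain ⟨e3, -⟩ := HM.core_RR h1 h1' (mem_E_R9 hi) hj e2
  exact ne_E0_9 hi e3

theorem i_RE_RE (h : RES F g) (h' : RES F' g') : NI g g' := by
  obtain ⟨q, h⟩ := h
  obtain ⟨q', h'⟩ := h'
  intro p hp w hw hw'
  obtain ⟨R, B, S, w0, i, h1, hi, rfl, -⟩ := h.inn0 p hp w hw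
  obtain ⟨R', B', S', w0', j, h1', hj, e2, -⟩ := h'.words' _ hw'
  obtain ⟨e3, -⟩ := HM.core_RR h1 h1' (mem_E_R9 hi) hj e2
  exact ne_E0_9 hi e3

theorem i_RE_JV (h : RES F g) (hle : ∀ c ∈ F, ∀ d ∈ F', htc c ≤ htc d)
    (hs : ∃ Z, JVw Z ∧ Is9 .nil .nil Z F' g') : NI g g' := by
  obtain ⟨q, h⟩ := h
  obtain ⟨Z, h1, h2⟩ := hs
  exact h.inner_JV h2 h1 hle

theorem i_RE_JE (h : RES F g) (hle : ∀ c ∈ F, ∀ d ∈ F', htc c ≤ htc d)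
    (hs : ∃ Z, JVw Z ∧ TyJE Z F' g') : NI g g' := by
  obtain ⟨q, h⟩ := h
  obtain ⟨Z, h1, h2⟩ := hs
  exact h.inner_JE h2 h1 hle

/-! ### T -/

/-! ### J1, J4 -/

theorem i_J4_Cl (hk : 13 ≤ k) (h : J1.TyJt F g) (h' : ClS F' g') : NI g g' := by
  obtain ⟨c, R, h1, _, _, _, _, _, h3⟩ := h'
  exact h.inner_C' hk h3 (by omega)

theorem i_J4_R3 (h : J1.TyJt F g) (h' : TyR3 F' g') : NI g g' := by
  obtain ⟨s, h5, _, _, hA⟩ := h.isJ1M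
  exact J.J1M.inner_R3 (by omega) (by omega) (by omega) hA h'

theorem i_J4_J1 (hk : 13 ≤ k) (h : J1.TyJt F g) (h' : J1.TyJs F' g') : NI g g' := by
  obtain ⟨s, h5, h6, _, hA⟩ := h.isJ1M
  obtain ⟨s', h1, _, h2⟩ := js_isJ1 h'
  obtain rfl : s' = s + 1 := by omega
  exact J.J1M.inner_J1 (by omega) hA h2

/-! ### J3V -/

theorem i_J3V_Ed (h : TyJ3V F g) (h' : TyEd F' g') (hs : ∀ c ∈ F, 2 ≤ (contc c).count 2 ∧ 4 ≤ htc c) : NI g g' :=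
  h.inner_Ed hs h'

theorem i_J3V_L (h : TyJ3V F g) (h' : TyL F' g') : NI g g' := h.inner_L h'

theorem i_J3V_S5 (h : TyJ3V F g) (h' : TyS5l F' g') : NI g g' := h.inner_S5 h'.toS5

theorem i_J3V_R (h : TyJ3V F g) (h' : RqS F' g') : NI g g' := by
  obtain ⟨q, h'⟩ := h'.rq
  intro p hp w hw hw'
  obtain ⟨R, B, S, w0, j, h1, hj, e2, -⟩ := h'.words _ hw'
  exact h.inner_bareR h1 p hp w hw j hj e2

theorem i_J3V_T (h : TyJ3V F g) (h' : TyT F' g') (hle : ∀ c ∈ F, ∀ d ∈ F', htc c ≤ htc d) (hs : ∀ c ∈ F, 4 ≤ htc c) :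
    NI g g' := h.inner_T hs h' hle

theorem i_J3V_J1 (h : TyJ3V F g) (h' : J1.TyJs F' g') : NI g g' := by
  obtain ⟨s, h1, _, h2⟩ := js_isJ1 h'
  exact h.inner_J1s (s := s) (c := 3) (by omega) (by omega) fun w hw => Or.inl (h2 w hw)

theorem i_J3V_J4 (h : TyJ3V F g) (h' : J1.TyJt F' g') : NI g g' := by
  obtain ⟨s, h5, h6, h2, hA⟩ := h'.isJ1M
  exact h.inner_J1s (s := s) (c := 4) (by omega) (by omega) fun w hw => Or.inr (h2 w hw)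

/-! ### JV, JE against Fz -/

theorem i_JV_Fz0 (h' : TyFz F' g') (hs : ∃ S, JZ F g S ∧ sJV_Fz k S F' g') : NI g g' := by
  obtain ⟨S, ⟨h0, h3, h⟩, hn⟩ := hs
  exact i_JV_Fz h (JV.two_le h0) h3 h' hn

theorem i_JE_Fz0 (h' : TyFz F' g') (hs : ∃ S, TyJE S F g ∧ sJV_Fz k S F' g') : NI g g' := by
  obtain ⟨S, h, hn⟩ := hs
  exact i_JE_Fz h h' hn

/-! ### L1 -/

theorem i_L1_JV (hk : 13 ≤ k) (h : TyL1 F g) (h' : JVS F' g') : NI g g' := by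
  obtain ⟨Z, h1, h2, h3⟩ := h'
  exact TyL1.inner_JV (by omega) h h3 h1

/-! ### H -/

theorem i_H_JES (h : Hole2.TyH F g) (h' : JES F' g') : NI g g' := by
  obtain ⟨R, h'⟩ := h'
  exact h.inner_JE h'

theorem i_H_JVS (h : Hole2.TyH F g) (h' : JVS F' g') : NI g g' := by
  obtain ⟨Z, h1, h2, h3⟩ := h'
  exact h.inner_JV (Or.inl h3) h2 h1

/-! ### more -/

theorem i_R_Fz1 (h : RqS F g) (h' : TyFz F' g') (hd : ∀ c ∈ F, c ∉ F') (hle : ∀ c ∈ F, ∀ d ∈ F', htc c ≤ htc d) :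
    NI g g' := by
  rcases h with h | ⟨q, hq, h⟩
  · exact i_R3_Fz h.toR3 h' hd hle
  · exact h.inner_Fz hq h' hd

theorem i_R_L1 (h : RqS F g) (h' : TyL1 F' g') : NI g g' := by
  obtain ⟨q, h⟩ := h.rq
  exact h.inner_L1 h'

theorem i_R_J33 (h : RqS F g) (h' : TyJ33Q F' g') : NI g g' := by
  obtain ⟨q, h⟩ := h.rq
  exact TyRq.inner_J33 (Or.inl h) h'

theorem i_RE_L1 (h : RES F g) (h' : TyL1 F' g') : NI g g' := by
  obtain ⟨q, h⟩ := h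
  exact h.inner_L1 h'

theorem i_L1_R (h : TyL1 F g) (h' : RqS F' g') : NI g g' := by
  obtain ⟨q, h'⟩ := h'.rq
  exact h.inner_Rq h'

theorem i_L1_RE (h : TyL1 F g) (h' : RES F' g') : NI g g' := by
  obtain ⟨q, h'⟩ := h'
  exact h.inner_RqE h'

theorem i_L1_P5 (h : TyL1 F g) (h' : P5DS F' g') : NI g g' := by
  obtain ⟨S, h'⟩ := h'
  exact h.inner_P5 h'

theorem i_L1_P5m (h : TyL1 F g) (h' : P5MS F' g') : NI g g' := by
  obtain ⟨S, h'⟩ := h'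
  exact h.inner_P5M h'

theorem i_H_P5 (h : Hole2.TyH F g) (h' : P5DS F' g') : NI g g' := by
  obtain ⟨S, h'⟩ := h'
  exact h.inner_P5 h'

theorem i_H_P5m (h : Hole2.TyH F g) (h' : P5MS F' g') : NI g g' := by
  obtain ⟨S, h'⟩ := h'
  exact h.inner_P5M h'

theorem i_H_R (h : Hole2.TyH F g) (h' : RqS F' g') : NI g g' := by
  obtain ⟨q, h'⟩ := h'.rq
  exact i_H_Rq h (Or.inl h')

theorem i_J4_H (hk : 10 ≤ k) (h : J1.TyJt F g) (h' : Hole2.TyH F' g') : NI g g' := by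
  obtain ⟨n, hn, P, U, M, hj⟩ := h'.jg
  obtain ⟨s, h5, _, _, hA⟩ := h.isJ1M
  exact J.J1M.inner_J hn (by omega) (by omega) hA hj

theorem i_JV_H0 (h' : Hole2.TyH F' g') (hs : ∃ S, JZ F g S ∧ 2 ≤ J.c3 (OddHC.cont S) ∧ (JVI.TE S ∨ 3 ∉ OddHC.cont S)) :
    NI g g' := by
  obtain ⟨S, ⟨h0, h3, h⟩, h2, h4 | h4⟩ := hs
  · exact i_JV_H h h3 h0 h2 h4 h'
  · exact i_JV_H5 h h3 h0 h2 h4 h'

theorem i_JE_H0 (h' : Hole2.TyH F' g') (hs : ∃ R, TyJE R F g ∧ 2 ≤ J.c3 (OddHC.cont R) ∧ JVI.TE R) : NI g g' := by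
  obtain ⟨R, h, h2, h3⟩ := hs
  exact i_JE_H h h2 h3 h'

theorem i_JV_J33 (h : JVS F g) (h' : TyJ33Q F' g') (hs : ∃ z ∈ F', 2 ≤ (contc z).count (htc z)) : NI g g' := by
  obtain ⟨Z, h1, h2, h3⟩ := h
  exact h3.inner_J33 h2 h1 h'.toJ3V hs

theorem i_JV_L1 (hk : 13 ≤ k) (h : JVS F g) (h' : TyL1 F' g') : NI g g' := by
  obtain ⟨Z, h1, h2, h3⟩ := h
  exact Is9.inner_L1 (by omega) h3 h1 h'

end MW

end Pool.OddHC
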