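import Pool.Agent.Work.MP_8f87b2_fin.MatIT
import Pool.Agent.Work.MP_8f87b2_h76.BwP5
import Pool.Agent.Work.MP_8f87b2_h32.L1In
import Pool.Agent.Work.MP_8f87b2_h19.InL1

/-!
# MP_8f87b2_co: more rows of the inner matrix
-/

set_option autoImplicit false

namespace Pool.OddHC

open Finset Equiv BinaryTree Pool.Agent.Work.MP_8f87b2_co

namespace MW

variable {k : ℕ} {F F' : Set (Cyc k)} {g g' : DG k}

theorem RES.pw (h : RES F g) : PWb g := by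
  obtain ⟨q, R, S, w0, h1, h2, h3, rfl, rfl⟩ := h
  exact TyRqE.pw ⟨R, S, w0, h1, h2, h3, rfl, rfl⟩ h2

theorem i_RE_P5 (h : RES F g) (h' : P5DS F' g') : NI g g' := by
  obtain ⟨S, h'⟩ := h'
  exact h.pw.i_P5 h'

theorem i_RE_P5m (h : RES F g) (h' : P5MS F' g') : NI g g' := by
  obtain ⟨S, h'⟩ := h'
  exact h.pw.i_P5M h'

theorem i_R_P5 (h : ∃ q, 1 ≤ q ∧ TyRq q F g) (h' : P5DS F' g') : NI g g' := by
  obtain ⟨q, hq, h⟩ := h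
  obtain ⟨S, h'⟩ := h'
  exact (h.pw hq).i_P5 h'

theorem i_R_P5m (h : ∃ q, 1 ≤ q ∧ TyRq q F g) (h' : P5MS F' g') : NI g g' := by
  obtain ⟨q, hq, h⟩ := h
  obtain ⟨S, h'⟩ := h'
  exact (h.pw hq).i_P5M h'

theorem i_L1_L (hk : 9 ≤ k) (h : TyL1 F g) (h' : TyL F' g') : NI g g' := by
  obtain ⟨R', e, _, _, _, _, h'⟩ := h'
  exact fun p hp w hw => TyL1.inner_L hk h h' p hp w hw

theorem i_L1_K (hk : 9 ≤ k) (h : TyL1 F g)
    (hs : ∃ S, TyK S F' g' ∧ ((OddHC.cont S).count 2 = 0 ∨ (OddHC.cont S).count 1 = 0)) : NI g g' := by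
  obtain ⟨S, h', hc⟩ := hs
  exact fun p hp w hw => TyL1.inner_K hk h hc h' p hp w hw

theorem i_L1_Km (hk : 9 ≤ k) (h : TyL1 F g) (hs : sKm_L1 F' g') : NI g g' := by
  obtain ⟨U, _, hU, h'⟩ := hs
  exact fun p hp w hw => TyL1.inner_Km hk h hU h' p hp w hw

theorem i_L1_Cl (hk : 9 ≤ k) (h : TyL1 F g) (hle : ∀ c ∈ F, ∀ d ∈ F', htc c ≤ htc d)
    (hs : ∃ c U, 2 ≤ c ∧ 3 ≤ OddHC.ht U ∧ TyC' c U F' g' ∧ (c = 2 → 2 ≤ L1C.fc 3 (OddHC.cont U) ∨ Ft.ClI U)) :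
    NI g g' := by
  obtain ⟨c, U, hc, hU, h', hs⟩ := hs
  exact fun p hp w hw => TyL1.inner_C' hk h hc hU h' hs hle p hp w hw

end MW

end Pool.OddHC
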