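import Pool.Agent.Work.MP_8f87b2_mid.Types

/-!
# MP_8f87b2_co: no inner word of `g` is a word of `g'`
-/

set_option autoImplicit false

namespace Pool.OddHC

open Finset Equiv BinaryTree Pool.Agent.Work.MP_8f87b2_co

namespace MW

variable {k : ℕ}

/-- no inner word of an arc of `g` is a word of `g'` -/
def NI (g g' : DG k) : Prop := ∀ p ∈ g.arcs, ∀ w ∈ innA p, w ∉ g'.B

theorem NI.of_empty {g g' : DG k} (h : g.arcs = ∅) : NI g g' := by
  intro p hp
  rw [h] at hp
  exact absurd hp (by simp)

end MW

end Pool.OddHC
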