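import Pool.Agent.Work.MP_8f87b2_fin.MatW
import Pool.Agent.Work.MP_8f87b2_fin.MatIT
import Pool.Agent.Work.MP_8f87b2_fin.MatIU
import Pool.Agent.Work.MP_8f87b2_h25.MatIJ2b
import Pool.Agent.Work.MP_8f87b2_h40.HInn
import Pool.Agent.Work.MP_8f87b2_h40.HCl
import Pool.Agent.Work.MP_8f87b2_h49.L1InS5
import Pool.Agent.Work.MP_8f87b2_h90.InAJ2B
import Pool.Agent.Work.MP_8f87b2_h59.J33W
import Pool.Agent.Work.MP_8f87b2_h19.InL1
import Pool.Agent.Work.MP_8f87b2_h15.P5G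

/-!
# The matrix of the inner words (helper9; generated from a table of rows)

`NF F g g'` : no inner word of `g` outside the T-cycles of `F` is a word of `g'`. `SideI t t' F F' g g'` : the literal side
condition of the row (`True` if there is none; always `.. ∨ NI g g'`, the statement itself if the row is missing).
`matI` : the matrix.
-/

set_option autoImplicit false

namespace Pool.OddHC

open Finset Equiv BinaryTree Pool.Agent.Work.MP_8f87b2_co

namespace MW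

variable {k : ℕ} {F F' : Set (Cyc k)} {g g' : DG k}

theorem NI.or {s : Prop} (f : s → NI g g') (h : s ∨ NI g g') : NI g g' := h.elim f id

theorem NF.or {s : Prop} (f : s → NF F g g') (h : s ∨ NI g g') : NF F g g' := h.elim f NI.nf

/-- side conditions of the row `A` -/
def sIA : WT → Set (Cyc k) → Set (Cyc k) → DG k → DG k → Prop
  | .En, F, F', g, g' => (siA_E F g g') ∨ NI g g'
  | .Ed, F, F', g, g' => (siA_Ed F g g') ∨ NI g g'
  | .L, _, _, _, _ => True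
  | .K, F, F', g, g' => (siA_K F) ∨ NI g g'
  | .Km, _, _, _, _ => True
  | .Cr, F, F', g, g' => (siA_Cr F' g') ∨ NI g g'
  | .Cl, F, F', g, g' => (siA_Cl F' g') ∨ NI g g'
  | .Dn, F, F', g, g' => (siA_Cr F' g') ∨ NI g g'
  | .Fz, _, _, _, _ => True
  | .S5, _, _, _, _ => True
  | .A, _, _, _, _ => True
  | .Aq, _, _, _, _ => True
  | .Az, _, _, _, _ => True
  | .R, _, _, _, _ => True
  | .RE, _, _, _, _ => True
  | .T, _, _, _, _ => True
  | .J1, _, _, _, _ => True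
  | .J4, _, _, _, _ => True
  | .J33, F, F', g, g' => ((∀ c ∈ F, 5 ≤ htc c) ∧ ∀ c ∈ F, 1 ∈ contc c) ∨ NI g g'
  | .JE, F, F', g, g' => ((∀ c ∈ F, 1 ∈ contc c) ∧ ∃ R, JVw R ∧ TyJE R F' g') ∨ NI g g'
  | .JV, F, F', g, g' => (siA_JV F F' g') ∨ NI g g'
  | .J2, F, F', g, g' => (siA_J2 F g g') ∨ NI g g'
  | .H, F, F', g, g' => (sH_A F) ∨ NI g g'
  | _, _, _, g, g' => NI g g'

theorem niA (hk : 13 ≤ k) (t' : WT) (h : TyAp F g) (h' : WP t' F' g') (hd : ∀ c ∈ F, c ∉ F')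
    (hle : ∀ c ∈ F, ∀ d ∈ F', htc c ≤ htc d) (hs : sIA t' F F' g g') : NF F g g' := by
  cases t' with
  | En =>
    have h0' : TyEnG F' g' := h'
    have h' : TyEn F' g' := h0'.1
    have hs : (siA_E F g g') ∨ NI g g' := hs
    exact NI.nf (NI.or (fun hs => i_A_En h' hle hs) hs)
  | Ed =>
    have h' : TyEd F' g' := h'
    have hs : (siA_Ed F g g') ∨ NI g g' := hs
    exact NI.nf (NI.or (fun hs => i_A_Ed h.toA h' hle hs) hs)
  | L =>
    have h0' : TyLG F' g' := h'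
    have h' : TyL F' g' := h0'.1
    exact NI.nf (i_A_L h.toA h')
  | K =>
    have h' : TyKh F' g' := h'
    have hs : (siA_K F) ∨ NI g g' := hs
    exact NI.nf (NI.or (fun hs => i_A_K h.toA h' hs) hs)
  | Km =>
    have h' : KmS F' g' := h'
    exact NI.nf (i_A_Km h.toA h')
  | Cr =>
    have h' : CrS F' g' := h'
    have hs : (siA_Cr F' g') ∨ NI g g' := hs
    exact NI.nf (NI.or (fun hs => i_A_C h.toA hd hle hs) hs)
  | Cl =>
    have h' : ClS F' g' := h'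
    have hs : (siA_Cl F' g') ∨ NI g g' := hs
    exact NI.nf (NI.or (fun hs => i_A_C' h.toA hd hle hs) hs)
  | Dn =>
    have h' : TyDn F' g' := h'
    have hs : (siA_Cr F' g') ∨ NI g g' := hs
    exact NI.nf (NI.or (fun hs => i_A_C h.toA hd hle hs) hs)
  | Fz =>
    have h' : TyFz F' g' := h'
    exact NI.nf (i_A_Fz h.toA h')
  | S5 =>
    have h' : TyS5l F' g' := h'
    exact NI.nf (i_A_S5 h.toA h' hd hle)
  | A =>
    have h' : TyAp F' g' := h'
    exact NI.nf (i_A_A (by omega) h.toA h'.toA hle)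
  | Aq =>
    have h' : TyAq F' g' := h'
    exact NI.nf (i_A_A (by omega) h.toA h'.toA hle)
  | Az =>
    have h' : TyAz F' g' := h'
    exact NI.nf (i_A_A (by omega) h.toA h'.toA hle)
  | R =>
    have h' : RqS F' g' := h'
    exact NI.nf (i_A_R h h')
  | RE =>
    have h' : RES F' g' := h'
    exact NI.nf (i_A_RE h h')
  | T =>
    have h' : TyT F' g' := h'
    exact NI.nf (fun p hp w hw => h.toA.inner_T h' hle p hp w hw)
  | J1 =>
    have h' : J1.TyJs F' g' := h'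
    exact NI.nf (fun p hp w hw => h.toA.inner_Js h' hk p hp w hw)
  | J4 =>
    have h' : J1.TyJt F' g' := h'
    exact NI.nf (fun p hp w hw => h.toA.inner_Jt h' hk p hp w hw)
  | J33 =>
    have h' : TyJ33Q F' g' := h'
    have hs : ((∀ c ∈ F, 5 ≤ htc c) ∧ ∀ c ∈ F, 1 ∈ contc c) ∨ NI g g' := hs
    exact NI.nf (NI.or (fun hs => h.toA.inner_J3V5 h'.toJ3V hs.1 hs.2) hs)
  | JE =>
    have h' : JES F' g' := h'
    have hs : ((∀ c ∈ F, 1 ∈ contc c) ∧ ∃ R, JVw R ∧ TyJE R F' g') ∨ NI g g' := hs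
    exact NI.nf (NI.or (fun hs => i_A_JE h.toA hle hs) hs)
  | JV =>
    have h' : JVS F' g' := h'
    have hs : (siA_JV F F' g') ∨ NI g g' := hs
    exact NI.nf (NI.or (fun hs => i_A_JV h.toA hle hs) hs)
  | J2 =>
    have h' : J2S F' g' := h'
    have hs : (siA_J2 F g g') ∨ NI g g' := hs
    exact NI.nf (NI.or (fun hs => i_Ap_J2 h (J2S.x h') hs) hs)
  | L1 => exact NI.nf hs
  | H =>
    have h' : Hole2.TyH F' g' := h'
    have hs : (sH_A F) ∨ NI g g' := hs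
    exact NI.nf (NI.or (fun hs => i_A_H (by omega) h.toA h' hs) hs)
  | P5 => exact NI.nf hs
  | P5m => exact NI.nf hs

/-- side conditions of the row `Aq` -/
def sIAq : WT → Set (Cyc k) → Set (Cyc k) → DG k → DG k → Prop
  | .En, F, F', g, g' => (siA_E F g g') ∨ NI g g'
  | .Ed, F, F', g, g' => (siA_Ed F g g') ∨ NI g g'
  | .L, _, _, _, _ => True
  | .K, F, F', g, g' => (siA_K F) ∨ NI g g'
  | .Km, _, _, _, _ => True
  | .Cr, F, F', g, g' => (siA_Cr F' g') ∨ NI g g'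
  | .Cl, F, F', g, g' => (siA_Cl F' g') ∨ NI g g'
  | .Dn, F, F', g, g' => (siA_Cr F' g') ∨ NI g g'
  | .Fz, _, _, _, _ => True
  | .S5, _, _, _, _ => True
  | .A, _, _, _, _ => True
  | .Aq, _, _, _, _ => True
  | .Az, _, _, _, _ => True
  | .R, _, _, _, _ => True
  | .RE, _, _, _, _ => True
  | .T, _, _, _, _ => True
  | .J1, _, _, _, _ => True
  | .J4, _, _, _, _ => True
  | .J33, F, F', g, g' => ((∀ c ∈ F, 5 ≤ htc c) ∧ ∀ c ∈ F, 1 ∈ contc c) ∨ NI g g'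
  | .JE, F, F', g, g' => ((∀ c ∈ F, 1 ∈ contc c) ∧ ∃ R, JVw R ∧ TyJE R F' g') ∨ NI g g'
  | .JV, F, F', g, g' => (siA_JV F F' g') ∨ NI g g'
  | .J2, F, F', g, g' => (siA_J2 F g g') ∨ NI g g'
  | .H, F, F', g, g' => (sH_A F) ∨ NI g g'
  | _, _, _, g, g' => NI g g'

theorem niAq (hk : 13 ≤ k) (t' : WT) (h : TyAq F g) (h' : WP t' F' g') (hd : ∀ c ∈ F, c ∉ F')
    (hle : ∀ c ∈ F, ∀ d ∈ F', htc c ≤ htc d) (hs : sIAq t' F F' g g') : NF F g g' := by
  cases t' with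
  | En =>
    have h0' : TyEnG F' g' := h'
    have h' : TyEn F' g' := h0'.1
    have hs : (siA_E F g g') ∨ NI g g' := hs
    exact NI.nf (NI.or (fun hs => i_A_En h' hle hs) hs)
  | Ed =>
    have h' : TyEd F' g' := h'
    have hs : (siA_Ed F g g') ∨ NI g g' := hs
    exact NI.nf (NI.or (fun hs => i_A_Ed h.toA h' hle hs) hs)
  | L =>
    have h0' : TyLG F' g' := h'
    have h' : TyL F' g' := h0'.1
    exact NI.nf (i_A_L h.toA h')
  | K =>
    have h' : TyKh F' g' := h'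
    have hs : (siA_K F) ∨ NI g g' := hs
    exact NI.nf (NI.or (fun hs => i_A_K h.toA h' hs) hs)
  | Km =>
    have h' : KmS F' g' := h'
    exact NI.nf (i_A_Km h.toA h')
  | Cr =>
    have h' : CrS F' g' := h'
    have hs : (siA_Cr F' g') ∨ NI g g' := hs
    exact NI.nf (NI.or (fun hs => i_A_C h.toA hd hle hs) hs)
  | Cl =>
    have h' : ClS F' g' := h'
    have hs : (siA_Cl F' g') ∨ NI g g' := hs
    exact NI.nf (NI.or (fun hs => i_A_C' h.toA hd hle hs) hs)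
  | Dn =>
    have h' : TyDn F' g' := h'
    have hs : (siA_Cr F' g') ∨ NI g g' := hs
    exact NI.nf (NI.or (fun hs => i_A_C h.toA hd hle hs) hs)
  | Fz =>
    have h' : TyFz F' g' := h'
    exact NI.nf (i_A_Fz h.toA h')
  | S5 =>
    have h' : TyS5l F' g' := h'
    exact NI.nf (i_A_S5 h.toA h' hd hle)
  | A =>
    have h' : TyAp F' g' := h'
    exact NI.nf (i_A_A (by omega) h.toA h'.toA hle)
  | Aq =>
    have h' : TyAq F' g' := h'
    exact NI.nf (i_A_A (by omega) h.toA h'.toA hle)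
  | Az =>
    have h' : TyAz F' g' := h'
    exact NI.nf (i_A_A (by omega) h.toA h'.toA hle)
  | R =>
    have h' : RqS F' g' := h'
    exact iw_Aq_R h h'
  | RE =>
    have h' : RES F' g' := h'
    exact iw_Aq_RE h h'
  | T =>
    have h' : TyT F' g' := h'
    exact NI.nf (fun p hp w hw => h.toA.inner_T h' hle p hp w hw)
  | J1 =>
    have h' : J1.TyJs F' g' := h'
    exact NI.nf (fun p hp w hw => h.toA.inner_Js h' hk p hp w hw)
  | J4 =>
    have h' : J1.TyJt F' g' := h'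
    exact NI.nf (fun p hp w hw => h.toA.inner_Jt h' hk p hp w hw)
  | J33 =>
    have h' : TyJ33Q F' g' := h'
    have hs : ((∀ c ∈ F, 5 ≤ htc c) ∧ ∀ c ∈ F, 1 ∈ contc c) ∨ NI g g' := hs
    exact NI.nf (NI.or (fun hs => h.toA.inner_J3V5 h'.toJ3V hs.1 hs.2) hs)
  | JE =>
    have h' : JES F' g' := h'
    have hs : ((∀ c ∈ F, 1 ∈ contc c) ∧ ∃ R, JVw R ∧ TyJE R F' g') ∨ NI g g' := hs
    exact NI.nf (NI.or (fun hs => i_A_JE h.toA hle hs) hs)
  | JV =>
    have h' : JVS F' g' := h'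
    have hs : (siA_JV F F' g') ∨ NI g g' := hs
    exact NI.nf (NI.or (fun hs => i_A_JV h.toA hle hs) hs)
  | J2 =>
    have h' : J2S F' g' := h'
    have hs : (siA_J2 F g g') ∨ NI g g' := hs
    exact NI.nf (NI.or (fun hs => i_Aq_J2 h (J2S.x h') hs) hs)
  | L1 => exact NI.nf hs
  | H =>
    have h' : Hole2.TyH F' g' := h'
    have hs : (sH_A F) ∨ NI g g' := hs
    exact NI.nf (NI.or (fun hs => i_A_H (by omega) h.toA h' hs) hs)
  | P5 => exact NI.nf hs
  | P5m => exact NI.nf hs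

/-- side conditions of the row `Az` -/
def sIAz : WT → Set (Cyc k) → Set (Cyc k) → DG k → DG k → Prop
  | .En, F, F', g, g' => (siA_E F g g') ∨ NI g g'
  | .Ed, F, F', g, g' => (siA_Ed F g g') ∨ NI g g'
  | .L, _, _, _, _ => True
  | .K, F, F', g, g' => (siA_K F) ∨ NI g g'
  | .Km, _, _, _, _ => True
  | .Cr, F, F', g, g' => (siA_Cr F' g') ∨ NI g g'
  | .Cl, F, F', g, g' => (siA_Cl F' g') ∨ NI g g'
  | .Dn, F, F', g, g' => (siA_Cr F' g') ∨ NI g g'
  | .Fz, _, _, _, _ => True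
  | .S5, _, _, _, _ => True
  | .A, _, _, _, _ => True
  | .Aq, _, _, _, _ => True
  | .Az, _, _, _, _ => True
  | .T, _, _, _, _ => True
  | .J1, _, _, _, _ => True
  | .J4, _, _, _, _ => True
  | .J33, F, F', g, g' => ((∀ c ∈ F, 5 ≤ htc c) ∧ ∀ c ∈ F, 1 ∈ contc c) ∨ NI g g'
  | .JE, F, F', g, g' => ((∀ c ∈ F, 1 ∈ contc c) ∧ ∃ R, JVw R ∧ TyJE R F' g') ∨ NI g g'
  | .JV, F, F', g, g' => (siA_JV F F' g') ∨ NI g g'
  | .H, F, F', g, g' => (sH_A F) ∨ NI g g'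
  | _, _, _, g, g' => NI g g'

theorem niAz (hk : 13 ≤ k) (t' : WT) (h : TyAz F g) (h' : WP t' F' g') (hd : ∀ c ∈ F, c ∉ F')
    (hle : ∀ c ∈ F, ∀ d ∈ F', htc c ≤ htc d) (hs : sIAz t' F F' g g') : NF F g g' := by
  cases t' with
  | En =>
    have h0' : TyEnG F' g' := h'
    have h' : TyEn F' g' := h0'.1
    have hs : (siA_E F g g') ∨ NI g g' := hs
    exact NI.nf (NI.or (fun hs => i_A_En h' hle hs) hs)
  | Ed =>
    have h' : TyEd F' g' := h'
    have hs : (siA_Ed F g g') ∨ NI g g' := hs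
    exact NI.nf (NI.or (fun hs => i_A_Ed h.toA h' hle hs) hs)
  | L =>
    have h0' : TyLG F' g' := h'
    have h' : TyL F' g' := h0'.1
    exact NI.nf (i_A_L h.toA h')
  | K =>
    have h' : TyKh F' g' := h'
    have hs : (siA_K F) ∨ NI g g' := hs
    exact NI.nf (NI.or (fun hs => i_A_K h.toA h' hs) hs)
  | Km =>
    have h' : KmS F' g' := h'
    exact NI.nf (i_A_Km h.toA h')
  | Cr =>
    have h' : CrS F' g' := h'
    have hs : (siA_Cr F' g') ∨ NI g g' := hs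
    exact NI.nf (NI.or (fun hs => i_A_C h.toA hd hle hs) hs)
  | Cl =>
    have h' : ClS F' g' := h'
    have hs : (siA_Cl F' g') ∨ NI g g' := hs
    exact NI.nf (NI.or (fun hs => i_A_C' h.toA hd hle hs) hs)
  | Dn =>
    have h' : TyDn F' g' := h'
    have hs : (siA_Cr F' g') ∨ NI g g' := hs
    exact NI.nf (NI.or (fun hs => i_A_C h.toA hd hle hs) hs)
  | Fz =>
    have h' : TyFz F' g' := h'
    exact NI.nf (i_A_Fz h.toA h')
  | S5 =>
    have h' : TyS5l F' g' := h'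
    exact NI.nf (i_A_S5 h.toA h' hd hle)
  | A =>
    have h' : TyAp F' g' := h'
    exact NI.nf (i_A_A (by omega) h.toA h'.toA hle)
  | Aq =>
    have h' : TyAq F' g' := h'
    exact NI.nf (i_A_A (by omega) h.toA h'.toA hle)
  | Az =>
    have h' : TyAz F' g' := h'
    exact NI.nf (i_A_A (by omega) h.toA h'.toA hle)
  | R => exact NI.nf hs
  | RE => exact NI.nf hs
  | T =>
    have h' : TyT F' g' := h'
    exact NI.nf (fun p hp w hw => h.toA.inner_T h' hle p hp w hw)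
  | J1 =>
    have h' : J1.TyJs F' g' := h'
    exact NI.nf (fun p hp w hw => h.toA.inner_Js h' hk p hp w hw)
  | J4 =>
    have h' : J1.TyJt F' g' := h'
    exact NI.nf (fun p hp w hw => h.toA.inner_Jt h' hk p hp w hw)
  | J33 =>
    have h' : TyJ33Q F' g' := h'
    have hs : ((∀ c ∈ F, 5 ≤ htc c) ∧ ∀ c ∈ F, 1 ∈ contc c) ∨ NI g g' := hs
    exact NI.nf (NI.or (fun hs => h.toA.inner_J3V5 h'.toJ3V hs.1 hs.2) hs)
  | JE =>
    have h' : JES F' g' := h'
    have hs : ((∀ c ∈ F, 1 ∈ contc c) ∧ ∃ R, JVw R ∧ TyJE R F' g') ∨ NI g g' := hs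
    exact NI.nf (NI.or (fun hs => i_A_JE h.toA hle hs) hs)
  | JV =>
    have h' : JVS F' g' := h'
    have hs : (siA_JV F F' g') ∨ NI g g' := hs
    exact NI.nf (NI.or (fun hs => i_A_JV h.toA hle hs) hs)
  | J2 => exact NI.nf hs
  | L1 => exact NI.nf hs
  | H =>
    have h' : Hole2.TyH F' g' := h'
    have hs : (sH_A F) ∨ NI g g' := hs
    exact NI.nf (NI.or (fun hs => i_A_H (by omega) h.toA h' hs) hs)
  | P5 => exact NI.nf hs
  | P5m => exact NI.nf hs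

/-- side conditions of the row `R` -/
def sIR : WT → Set (Cyc k) → Set (Cyc k) → DG k → DG k → Prop
  | .Ed, F, F', g, g' => (TyR3c F g) ∨ NI g g'
  | .L, _, _, _, _ => True
  | .K, _, _, _, _ => True
  | .Km, _, _, _, _ => True
  | .Cr, F, F', g, g' => (siRq_Cr F F' g g') ∨ NI g g'
  | .Cl, F, F', g, g' => (siRq_Cl F F' g g') ∨ NI g g'
  | .Dn, F, F', g, g' => ((∀ q, TyRq q F g → 1 ≤ q) ∨ siR_Dn F' g') ∨ NI g g'
  | .Fz, _, _, _, _ => True
  | .S5, _, _, _, _ => True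
  | .A, _, _, _, _ => True
  | .Aq, _, _, _, _ => True
  | .R, _, _, _, _ => True
  | .RE, _, _, _, _ => True
  | .T, _, _, _, _ => True
  | .J1, F, F', g, g' => (TyR3 F g ∨ ∀ c ∈ F, 3 ≤ H1.n2 (contc c)) ∨ NI g g'
  | .J4, F, F', g, g' => (TyR3 F g ∨ ∀ c ∈ F, 3 ≤ H1.n2 (contc c)) ∨ NI g g'
  | .J33, _, _, _, _ => True
  | .JE, F, F', g, g' => (∃ Z, JVw Z ∧ TyJE Z F' g') ∨ NI g g'
  | .JV, F, F', g, g' => (TyR3 F g ∨ ∃ Z, JVw Z ∧ Is9 .nil .nil Z F' g') ∨ NI g g'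
  | .J2, F, F', g, g' => (siR_J2 F' g g') ∨ NI g g'
  | .L1, _, _, _, _ => True
  | .H, F, F', g, g' => ((∃ q, 1 ≤ q ∧ TyRq q F g) ∨ ClJ g) ∨ NI g g'
  | .P5, F, F', g, g' => (∃ q, 1 ≤ q ∧ TyRq q F g) ∨ NI g g'
  | .P5m, F, F', g, g' => (∃ q, 1 ≤ q ∧ TyRq q F g) ∨ NI g g'
  | _, _, _, g, g' => NI g g'

theorem niR (hk : 13 ≤ k) (t' : WT) (h : RqS F g) (h' : WP t' F' g') (hd : ∀ c ∈ F, c ∉ F')
    (hle : ∀ c ∈ F, ∀ d ∈ F', htc c ≤ htc d) (hs : sIR t' F F' g g') : NF F g g' := by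
  cases t' with
  | En => exact NI.nf hs
  | Ed =>
    have h' : TyEd F' g' := h'
    have hs : (TyR3c F g) ∨ NI g g' := hs
    exact NI.nf (NI.or (fun hs => i_R3_Ed hs.toR3 h') hs)
  | L =>
    have h0' : TyLG F' g' := h'
    have h' : TyL F' g' := h0'.1
    exact NI.nf (i_R_L h h')
  | K =>
    have h' : TyKh F' g' := h'
    exact NI.nf (i_R_K h h')
  | Km =>
    have h' : KmS F' g' := h'
    exact NI.nf (i_R_Km h h')
  | Cr =>
    have h' : CrS F' g' := h'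
    have hs : (siRq_Cr F F' g g') ∨ NI g g' := hs
    exact NI.nf (NI.or (fun hs => i_R_C h hd hle hs) hs)
  | Cl =>
    have h' : ClS F' g' := h'
    have hs : (siRq_Cl F F' g g') ∨ NI g g' := hs
    exact NI.nf (NI.or (fun hs => i_R_C' h hd hle hs) hs)
  | Dn =>
    have h' : TyDn F' g' := h'
    have hs : ((∀ q, TyRq q F g → 1 ≤ q) ∨ siR_Dn F' g') ∨ NI g g' := hs
    exact NI.nf (NI.or (fun hs => i_R_Dn h h' hd hs) hs)
  | Fz =>
    have h' : TyFz F' g' := h'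
    exact NI.nf (i_R_Fz1 h h' hd hle)
  | S5 =>
    have h' : TyS5l F' g' := h'
    exact NI.nf (i_R_S5 h h')
  | A =>
    have h' : TyAp F' g' := h'
    exact NI.nf (i_R_A h h')
  | Aq =>
    have h' : TyAq F' g' := h'
    exact NI.nf (i_R_Aq h h')
  | Az => exact NI.nf hs
  | R =>
    have h' : RqS F' g' := h'
    exact NI.nf (i_R_R h h' hd)
  | RE =>
    have h' : RES F' g' := h'
    exact NI.nf (i_R_RE h h' hd)
  | T =>
    have h' : TyT F' g' := h'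
    exact NI.nf (i_R_T h h' hle)
  | J1 =>
    have h' : J1.TyJs F' g' := h'
    have hs : (TyR3 F g ∨ ∀ c ∈ F, 3 ≤ H1.n2 (contc c)) ∨ NI g g' := hs
    exact NI.nf (NI.or (fun hs => i_R_J1 hk h h' hs) hs)
  | J4 =>
    have h' : J1.TyJt F' g' := h'
    have hs : (TyR3 F g ∨ ∀ c ∈ F, 3 ≤ H1.n2 (contc c)) ∨ NI g g' := hs
    exact NI.nf (NI.or (fun hs => i_R_J4 hk h h' hs) hs)
  | J33 =>
    have h' : TyJ33Q F' g' := h'
    exact NI.nf (i_R_J33 h h')
  | JE =>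
    have h' : JES F' g' := h'
    have hs : (∃ Z, JVw Z ∧ TyJE Z F' g') ∨ NI g g' := hs
    exact NI.nf (NI.or (fun hs => i_R_JE h hle hs) hs)
  | JV =>
    have h' : JVS F' g' := h'
    have hs : (TyR3 F g ∨ ∃ Z, JVw Z ∧ Is9 .nil .nil Z F' g') ∨ NI g g' := hs
    exact NI.nf (NI.or (fun hs => i_R_JV h h' hle hs) hs)
  | J2 =>
    have h' : J2S F' g' := h'
    have hs : (siR_J2 F' g g') ∨ NI g g' := hs
    exact NI.nf (NI.or (fun hs => i_R_J2 h hle hs) hs)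
  | L1 =>
    have h' : TyL1 F' g' := h'
    exact NI.nf (i_R_L1 h h')
  | H =>
    have h' : Hole2.TyH F' g' := h'
    have hs : ((∃ q, 1 ≤ q ∧ TyRq q F g) ∨ ClJ g) ∨ NI g g' := hs
    exact NI.nf (NI.or (fun hs => i_R_H h' (hs.imp_right fun x => ⟨h, x⟩)) hs)
  | P5 =>
    have h' : P5DS F' g' := h'
    have hs : (∃ q, 1 ≤ q ∧ TyRq q F g) ∨ NI g g' := hs
    exact NI.nf (NI.or (fun hs => i_R_P5 hs h') hs)
  | P5m =>
    have h' : P5MS F' g' := h'
    have hs : (∃ q, 1 ≤ q ∧ TyRq q F g) ∨ NI g g' := hs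
    exact NI.nf (NI.or (fun hs => i_R_P5m hs h') hs)

/-- side conditions of the row `RE` -/
def sIRE : WT → Set (Cyc k) → Set (Cyc k) → DG k → DG k → Prop
  | .L, _, _, _, _ => True
  | .K, _, _, _, _ => True
  | .Km, _, _, _, _ => True
  | .Cr, F, F', g, g' => (∃ q c U, TyRqE q F g ∧ TyC c U F' g' ∧ 1 ≤ c ∧ c ≤ q + 1) ∨ NI g g'
  | .Cl, F, F', g, g' => (∃ q c U, TyRqE q F g ∧ TyC' c U F' g' ∧ 1 ≤ c ∧ c ≤ q + 1) ∨ NI g g'
  | .Dn, F, F', g, g' => (∃ q c U, TyRqE q F g ∧ TyC c U F' g' ∧ 1 ≤ c ∧ c ≤ q + 1) ∨ NI g g'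
  | .A, _, _, _, _ => True
  | .Aq, _, _, _, _ => True
  | .R, _, _, _, _ => True
  | .RE, _, _, _, _ => True
  | .JE, F, F', g, g' => (∃ Z, JVw Z ∧ TyJE Z F' g') ∨ NI g g'
  | .JV, F, F', g, g' => (∃ Z, JVw Z ∧ Is9 .nil .nil Z F' g') ∨ NI g g'
  | .J2, F, F', g, g' => (siR_J2 F' g g') ∨ NI g g'
  | .L1, _, _, _, _ => True
  | .P5, _, _, _, _ => True
  | .P5m, _, _, _, _ => True
  | _, _, _, g, g' => NI g g'

theorem niRE (hk : 13 ≤ k) (t' : WT) (h : RES F g) (h' : WP t' F' g') (hd : ∀ c ∈ F, c ∉ F')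
    (hle : ∀ c ∈ F, ∀ d ∈ F', htc c ≤ htc d) (hs : sIRE t' F F' g g') : NF F g g' := by
  cases t' with
  | En => exact NI.nf hs
  | Ed => exact NI.nf hs
  | L =>
    have h0' : TyLG F' g' := h'
    have h' : TyL F' g' := h0'.1
    exact NI.nf (i_RE_L h h')
  | K =>
    have h' : TyKh F' g' := h'
    exact NI.nf (i_RE_K h h')
  | Km =>
    have h' : KmS F' g' := h'
    exact NI.nf (i_RE_Km h h')
  | Cr =>
    have h' : CrS F' g' := h'
    have hs : (∃ q c U, TyRqE q F g ∧ TyC c U F' g' ∧ 1 ≤ c ∧ c ≤ q + 1) ∨ NI g g' := hs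
    exact NI.nf (NI.or (fun hs => i_RE_C hs) hs)
  | Cl =>
    have h' : ClS F' g' := h'
    have hs : (∃ q c U, TyRqE q F g ∧ TyC' c U F' g' ∧ 1 ≤ c ∧ c ≤ q + 1) ∨ NI g g' := hs
    exact NI.nf (NI.or (fun hs => i_RE_C' hs) hs)
  | Dn =>
    have h' : TyDn F' g' := h'
    have hs : (∃ q c U, TyRqE q F g ∧ TyC c U F' g' ∧ 1 ≤ c ∧ c ≤ q + 1) ∨ NI g g' := hs
    exact NI.nf (NI.or (fun hs => i_RE_C hs) hs)
  | Fz => exact NI.nf hs
  | S5 => exact NI.nf hs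
  | A =>
    have h' : TyAp F' g' := h'
    exact NI.nf (i_RE_A h h')
  | Aq =>
    have h' : TyAq F' g' := h'
    exact NI.nf (i_RE_Aq h h')
  | Az => exact NI.nf hs
  | R =>
    have h' : RqS F' g' := h'
    exact NI.nf (i_RE_R h h')
  | RE =>
    have h' : RES F' g' := h'
    exact NI.nf (i_RE_RE h h')
  | T => exact NI.nf hs
  | J1 => exact NI.nf hs
  | J4 => exact NI.nf hs
  | J33 => exact NI.nf hs
  | JE =>
    have h' : JES F' g' := h'
    have hs : (∃ Z, JVw Z ∧ TyJE Z F' g') ∨ NI g g' := hs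
    exact NI.nf (NI.or (fun hs => i_RE_JE h hle hs) hs)
  | JV =>
    have h' : JVS F' g' := h'
    have hs : (∃ Z, JVw Z ∧ Is9 .nil .nil Z F' g') ∨ NI g g' := hs
    exact NI.nf (NI.or (fun hs => i_RE_JV h hle hs) hs)
  | J2 =>
    have h' : J2S F' g' := h'
    have hs : (siR_J2 F' g g') ∨ NI g g' := hs
    exact NI.nf (NI.or (fun hs => i_RE_J2 h hle hs) hs)
  | L1 =>
    have h' : TyL1 F' g' := h'
    exact NI.nf (i_RE_L1 h h')
  | H => exact NI.nf hs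
  | P5 =>
    have h' : P5DS F' g' := h'
    exact NI.nf (i_RE_P5 h h')
  | P5m =>
    have h' : P5MS F' g' := h'
    exact NI.nf (i_RE_P5m h h')

/-- side conditions of the row `T` -/
def sIT : WT → Set (Cyc k) → Set (Cyc k) → DG k → DG k → Prop
  | .En, _, _, _, _ => True
  | .Ed, _, _, _, _ => True
  | .L, _, _, _, _ => True
  | .K, _, _, _, _ => True
  | .Km, _, _, _, _ => True
  | .Cr, _, _, _, _ => True
  | .Cl, _, _, _, _ => True
  | .Dn, F, F', g, g' => (siT_Dn F' g') ∨ NI g g'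
  | .Fz, _, _, _, _ => True
  | .S5, _, _, _, _ => True
  | .A, _, _, _, _ => True
  | .Aq, _, _, _, _ => True
  | .Az, _, _, _, _ => True
  | .R, _, _, _, _ => True
  | .T, _, _, _, _ => True
  | .J1, _, _, _, _ => True
  | .J4, _, _, _, _ => True
  | .JE, F, F', g, g' => (∃ R, JVw R ∧ TyJE R F' g') ∨ NI g g'
  | .JV, F, F', g, g' => (∃ Z : BinaryTree Unit, JVw Z ∧ Is9 .nil .nil Z F' g') ∨ NI g g'
  | .J2, _, _, _, _ => True
  | .L1, _, _, _, _ => True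
  | .H, _, _, _, _ => True
  | _, _, _, g, g' => NI g g'

theorem niT (hk : 13 ≤ k) (t' : WT) (h : TyT F g) (h' : WP t' F' g') (hd : ∀ c ∈ F, c ∉ F')
    (hle : ∀ c ∈ F, ∀ d ∈ F', htc c ≤ htc d) (hs : sIT t' F F' g g') : NF F g g' := by
  cases t' with
  | En =>
    have h0' : TyEnG F' g' := h'
    have h' : TyEn F' g' := h0'.1
    exact NI.nf (i_T_En h h')
  | Ed =>
    have h' : TyEd F' g' := h'
    exact NI.nf (i_T_Ed h h')
  | L =>
    have h0' : TyLG F' g' := h'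
    have h' : TyL F' g' := h0'.1
    exact NI.nf (i_T_L h h')
  | K =>
    have h' : TyKh F' g' := h'
    exact NI.nf (i_T_K h h')
  | Km =>
    have h' : KmS F' g' := h'
    exact NI.nf (i_T_Km h h')
  | Cr =>
    have h' : CrS F' g' := h'
    exact NI.nf (i_T_Cr h h')
  | Cl =>
    have h' : ClS F' g' := h'
    exact NI.nf (i_T_Cl h h')
  | Dn =>
    have h' : TyDn F' g' := h'
    have hs : (siT_Dn F' g') ∨ NI g g' := hs
    exact NI.nf (NI.or (fun hs => i_T_Dn h hs) hs)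
  | Fz =>
    have h' : TyFz F' g' := h'
    exact NI.nf (i_T_Fz h h')
  | S5 =>
    have h' : TyS5l F' g' := h'
    exact NI.nf (i_T_S5 h h')
  | A =>
    have h' : TyAp F' g' := h'
    exact NI.nf (i_T_A h h'.toA)
  | Aq =>
    have h' : TyAq F' g' := h'
    exact NI.nf (i_T_A h h'.toA)
  | Az =>
    have h' : TyAz F' g' := h'
    exact NI.nf (i_T_A h h'.toA)
  | R =>
    have h' : RqS F' g' := h'
    exact NI.nf (i_T_R h h')
  | RE => exact NI.nf hs
  | T =>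
    have h' : TyT F' g' := h'
    exact NI.nf (i_T_T h h')
  | J1 =>
    have h' : J1.TyJs F' g' := h'
    exact NI.nf (i_T_J1 hk h h')
  | J4 =>
    have h' : J1.TyJt F' g' := h'
    exact NI.nf (fun p hp w hw => h.inner_Jt h' hk p hp w hw)
  | J33 => exact NI.nf hs
  | JE =>
    have h' : JES F' g' := h'
    have hs : (∃ R, JVw R ∧ TyJE R F' g') ∨ NI g g' := hs
    exact NI.nf (NI.or (fun hs => i_T_JE h hs) hs)
  | JV =>
    have h' : JVS F' g' := h'
    have hs : (∃ Z : BinaryTree Unit, JVw Z ∧ Is9 .nil .nil Z F' g') ∨ NI g g' := hs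
    exact NI.nf (NI.or (fun hs => i_T_JV h hs) hs)
  | J2 =>
    have h' : J2S F' g' := h'
    exact NI.nf (i_T_J2 h (J2S.x h'))
  | L1 =>
    have h' : TyL1 F' g' := h'
    exact NI.nf (fun p hp w hw => h.inner_L1 h' (by omega) p hp w hw)
  | H =>
    have h' : Hole2.TyH F' g' := h'
    exact NI.nf (i_T_H h h')
  | P5 => exact NI.nf hs
  | P5m => exact NI.nf hs

/-- side conditions of the row `J1` -/
def sIJ1 : WT → Set (Cyc k) → Set (Cyc k) → DG k → DG k → Prop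
  | .En, _, _, _, _ => True
  | .Ed, _, _, _, _ => True
  | .L, _, _, _, _ => True
  | .K, _, _, _, _ => True
  | .Km, _, _, _, _ => True
  | .Cr, _, _, _, _ => True
  | .Cl, _, _, _, _ => True
  | .Dn, _, _, _, _ => True
  | .Fz, _, _, _, _ => True
  | .S5, _, _, _, _ => True
  | .A, _, _, _, _ => True
  | .Aq, _, _, _, _ => True
  | .Az, _, _, _, _ => True
  | .R, F, F', g, g' => (TyR3 F' g') ∨ NI g g'
  | .T, _, _, _, _ => True
  | .J4, _, _, _, _ => True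
  | .JE, F, F', g, g' => (siJ1_JV k F') ∨ NI g g'
  | .JV, F, F', g, g' => (siJ1_JV k F') ∨ NI g g'
  | .J2, F, F', g, g' => (siJ1_JV k F') ∨ NI g g'
  | .H, _, _, _, _ => True
  | _, _, _, g, g' => NI g g'

theorem niJ1 (hk : 13 ≤ k) (t' : WT) (h : J1.TyJs F g) (h' : WP t' F' g') (hd : ∀ c ∈ F, c ∉ F')
    (hle : ∀ c ∈ F, ∀ d ∈ F', htc c ≤ htc d) (hs : sIJ1 t' F F' g g') : NF F g g' := by
  cases t' with
  | En =>
    have h0' : TyEnG F' g' := h'
    have h' : TyEn F' g' := h0'.1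
    exact NI.nf (i_J1_E hk h h'.toE)
  | Ed =>
    have h' : TyEd F' g' := h'
    exact NI.nf (i_J1_E hk h h'.toE)
  | L =>
    have h0' : TyLG F' g' := h'
    have h' : TyL F' g' := h0'.1
    exact NI.nf (i_J1_L hk h h')
  | K =>
    have h' : TyKh F' g' := h'
    exact NI.nf (i_J1_K hk h h')
  | Km =>
    have h' : KmS F' g' := h'
    exact NI.nf (i_J1_Km hk h h')
  | Cr =>
    have h' : CrS F' g' := h'
    exact NI.nf (i_J1_Cr hk h h')
  | Cl =>
    have h' : ClS F' g' := h'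
    exact NI.nf (i_J1_Cl hk h h')
  | Dn =>
    have h' : TyDn F' g' := h'
    exact NI.nf (i_J1_Dn hk h h')
  | Fz =>
    have h' : TyFz F' g' := h'
    exact NI.nf (i_J1_Fz hk h h')
  | S5 =>
    have h' : TyS5l F' g' := h'
    exact NI.nf (i_J1_S5 h h')
  | A =>
    have h' : TyAp F' g' := h'
    exact NI.nf (i_J1_A hk h h'.toA)
  | Aq =>
    have h' : TyAq F' g' := h'
    exact NI.nf (i_J1_A hk h h'.toA)
  | Az =>
    have h' : TyAz F' g' := h'
    exact NI.nf (i_J1_A hk h h'.toA)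
  | R =>
    have h' : RqS F' g' := h'
    have hs : (TyR3 F' g') ∨ NI g g' := hs
    exact NI.nf (NI.or (fun hs => i_J1_R3 hk h hs) hs)
  | RE => exact NI.nf hs
  | T =>
    have h' : TyT F' g' := h'
    exact NI.nf (i_J1_T hk h h')
  | J1 => exact NI.nf hs
  | J4 =>
    have h' : J1.TyJt F' g' := h'
    exact NI.nf (i_J1_J4 hk h h')
  | J33 => exact NI.nf hs
  | JE =>
    have h' : JES F' g' := h'
    have hs : (siJ1_JV k F') ∨ NI g g' := hs
    exact NI.nf (NI.or (fun hs => i_J1_JE (by omega) h h' hs) hs)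
  | JV =>
    have h' : JVS F' g' := h'
    have hs : (siJ1_JV k F') ∨ NI g g' := hs
    exact NI.nf (NI.or (fun hs => i_J1_JV hk h h' hs) hs)
  | J2 =>
    have h' : J2S F' g' := h'
    have hs : (siJ1_JV k F') ∨ NI g g' := hs
    exact NI.nf (NI.or (fun hs => i_J1_J2 (by omega) h (J2S.x h') hs) hs)
  | L1 => exact NI.nf hs
  | H =>
    have h' : Hole2.TyH F' g' := h'
    exact NI.nf (i_J1_H (by omega) h h')
  | P5 => exact NI.nf hs
  | P5m => exact NI.nf hs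

/-- side conditions of the row `J4` -/
def sIJ4 : WT → Set (Cyc k) → Set (Cyc k) → DG k → DG k → Prop
  | .En, F, F', g, g' => (siJ4_E k F' g') ∨ NI g g'
  | .Ed, F, F', g, g' => (siJ4_E k F' g') ∨ NI g g'
  | .L, _, _, _, _ => True
  | .K, _, _, _, _ => True
  | .Km, _, _, _, _ => True
  | .Cr, _, _, _, _ => True
  | .Cl, _, _, _, _ => True
  | .Dn, _, _, _, _ => True
  | .Fz, _, _, _, _ => True
  | .S5, _, _, _, _ => True
  | .A, _, _, _, _ => True
  | .Aq, _, _, _, _ => True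
  | .Az, _, _, _, _ => True
  | .R, F, F', g, g' => (TyR3 F' g') ∨ NI g g'
  | .T, _, _, _, _ => True
  | .J1, _, _, _, _ => True
  | .JE, F, F', g, g' => (∀ z ∈ F', contc z ≠ {4} + {k - 6} + {2}) ∨ NI g g'
  | .JV, F, F', g, g' => (∀ z ∈ F', contc z ≠ {4} + {k - 6} + {2}) ∨ NI g g'
  | .J2, F, F', g, g' => (∀ z ∈ F', contc z ≠ {4} + {k - 6} + {2}) ∨ NI g g'
  | .L1, _, _, _, _ => True
  | .H, _, _, _, _ => True
  | _, _, _, g, g' => NI g g'

theorem niJ4 (hk : 13 ≤ k) (t' : WT) (h : J1.TyJt F g) (h' : WP t' F' g') (hd : ∀ c ∈ F, c ∉ F')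
    (hle : ∀ c ∈ F, ∀ d ∈ F', htc c ≤ htc d) (hs : sIJ4 t' F F' g g') : NF F g g' := by
  cases t' with
  | En =>
    have h0' : TyEnG F' g' := h'
    have h' : TyEn F' g' := h0'.1
    have hs : (siJ4_E k F' g') ∨ NI g g' := hs
    exact NI.nf (NI.or (fun hs => i_J4_E hk h h'.toE hs) hs)
  | Ed =>
    have h' : TyEd F' g' := h'
    have hs : (siJ4_E k F' g') ∨ NI g g' := hs
    exact NI.nf (NI.or (fun hs => i_J4_E hk h h'.toE hs) hs)
  | L =>
    have h0' : TyLG F' g' := h'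
    have h' : TyL F' g' := h0'.1
    exact NI.nf (i_J4_L hk h h')
  | K =>
    have h' : TyKh F' g' := h'
    exact NI.nf (i_J4_K hk h h')
  | Km =>
    have h' : KmS F' g' := h'
    exact NI.nf (i_J4_Km hk h h')
  | Cr =>
    have h' : CrS F' g' := h'
    exact NI.nf (i_J4_Cr hk h h')
  | Cl =>
    have h' : ClS F' g' := h'
    exact NI.nf (i_J4_Cl hk h h')
  | Dn =>
    have h' : TyDn F' g' := h'
    exact NI.nf (i_J4_Dn hk h h')
  | Fz =>
    have h' : TyFz F' g' := h'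
    exact NI.nf (i_J4_Fz hk h h')
  | S5 =>
    have h' : TyS5l F' g' := h'
    exact NI.nf (i_J4_S5 h h')
  | A =>
    have h' : TyAp F' g' := h'
    exact NI.nf (i_J4_A hk h h'.toA)
  | Aq =>
    have h' : TyAq F' g' := h'
    exact NI.nf (i_J4_A hk h h'.toA)
  | Az =>
    have h' : TyAz F' g' := h'
    exact NI.nf (i_J4_A hk h h'.toA)
  | R =>
    have h' : RqS F' g' := h'
    have hs : (TyR3 F' g') ∨ NI g g' := hs
    exact NI.nf (NI.or (fun hs => i_J4_R3 h hs) hs)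
  | RE => exact NI.nf hs
  | T =>
    have h' : TyT F' g' := h'
    exact NI.nf (i_J4_T hk h h')
  | J1 =>
    have h' : J1.TyJs F' g' := h'
    exact NI.nf (i_J4_J1 hk h h')
  | J4 => exact NI.nf hs
  | J33 => exact NI.nf hs
  | JE =>
    have h' : JES F' g' := h'
    have hs : (∀ z ∈ F', contc z ≠ {4} + {k - 6} + {2}) ∨ NI g g' := hs
    exact NI.nf (NI.or (fun hs => i_J4_JE (by omega) h h' hs) hs)
  | JV =>
    have h' : JVS F' g' := h'
    have hs : (∀ z ∈ F', contc z ≠ {4} + {k - 6} + {2}) ∨ NI g g' := hs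
    exact NI.nf (NI.or (fun hs => i_J4_JV (by omega) h h' hs) hs)
  | J2 =>
    have h' : J2S F' g' := h'
    have hs : (∀ z ∈ F', contc z ≠ {4} + {k - 6} + {2}) ∨ NI g g' := hs
    exact NI.nf (NI.or (fun hs => i_J4_J2 (by omega) h (J2S.x h') hs) hs)
  | L1 =>
    have h' : TyL1 F' g' := h'
    exact NI.nf (fun p hp w hw => J1.TyJt.inner_L1 (by omega) h h' p hp w hw)
  | H =>
    have h' : Hole2.TyH F' g' := h'
    exact NI.nf (i_J4_H (by omega) h h')
  | P5 => exact NI.nf hs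
  | P5m => exact NI.nf hs

/-- side conditions of the row `J33` -/
def sIJ33 : WT → Set (Cyc k) → Set (Cyc k) → DG k → DG k → Prop
  | .Ed, F, F', g, g' => (∀ c ∈ F, 2 ≤ (contc c).count 2 ∧ 4 ≤ htc c) ∨ NI g g'
  | .L, _, _, _, _ => True
  | .Fz, _, _, _, _ => True
  | .S5, _, _, _, _ => True
  | .R, _, _, _, _ => True
  | .T, F, F', g, g' => (∀ c ∈ F, 4 ≤ htc c) ∨ NI g g'
  | .J1, _, _, _, _ => True
  | .J4, _, _, _, _ => True
  | .J33, _, _, _, _ => True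
  | .JE, _, _, _, _ => True
  | .JV, _, _, _, _ => True
  | .J2, _, _, _, _ => True
  | .L1, _, _, _, _ => True
  | .H, _, _, _, _ => True
  | _, _, _, g, g' => NI g g'

theorem niJ33 (hk : 13 ≤ k) (t' : WT) (h : TyJ33Q F g) (h' : WP t' F' g') (hd : ∀ c ∈ F, c ∉ F')
    (hle : ∀ c ∈ F, ∀ d ∈ F', htc c ≤ htc d) (hs : sIJ33 t' F F' g g') : NF F g g' := by
  cases t' with
  | En => exact NI.nf hs
  | Ed =>
    have h' : TyEd F' g' := h'
    have hs : (∀ c ∈ F, 2 ≤ (contc c).count 2 ∧ 4 ≤ htc c) ∨ NI g g' := hs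
    exact NI.nf (NI.or (fun hs => i_J3V_Ed h.toJ3V h' hs) hs)
  | L =>
    have h0' : TyLG F' g' := h'
    have h' : TyL F' g' := h0'.1
    exact NI.nf (i_J3V_L h.toJ3V h')
  | K => exact NI.nf hs
  | Km => exact NI.nf hs
  | Cr => exact NI.nf hs
  | Cl => exact NI.nf hs
  | Dn => exact NI.nf hs
  | Fz =>
    have h' : TyFz F' g' := h'
    exact NI.nf (i_J3V_Fz h.toJ3V h')
  | S5 =>
    have h' : TyS5l F' g' := h'
    exact NI.nf (i_J3V_S5 h.toJ3V h')
  | A => exact NI.nf hs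
  | Aq => exact NI.nf hs
  | Az => exact NI.nf hs
  | R =>
    have h' : RqS F' g' := h'
    exact NI.nf (i_J3V_R h.toJ3V h')
  | RE => exact NI.nf hs
  | T =>
    have h' : TyT F' g' := h'
    have hs : (∀ c ∈ F, 4 ≤ htc c) ∨ NI g g' := hs
    exact NI.nf (NI.or (fun hs => i_J3V_T h.toJ3V h' hle hs) hs)
  | J1 =>
    have h' : J1.TyJs F' g' := h'
    exact NI.nf (h.inner_J1 hk h')
  | J4 =>
    have h' : J1.TyJt F' g' := h'
    exact NI.nf (h.inner_J4 hk h')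
  | J33 =>
    have h' : TyJ33Q F' g' := h'
    exact NI.nf (fun p hp w hw => h.toJ3V.inner_J3V h'.toJ3V p hp w hw)
  | JE =>
    have h' : JES F' g' := h'
    exact NI.nf (i_J3V_JE h.toJ3V h')
  | JV =>
    have h' : JVS F' g' := h'
    exact NI.nf (i_J3V_JV h.toJ3V h')
  | J2 =>
    have h' : J2S F' g' := h'
    exact NI.nf (i_J33_J2 h (J2S.x h'))
  | L1 =>
    have h' : TyL1 F' g' := h'
    exact NI.nf (fun p hp w hw => h.toJ3V.inner_L1 (by omega) h' p hp w hw)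
  | H =>
    have h' : Hole2.TyH F' g' := h'
    exact NI.nf (fun p hp w hw => h.toJ3V.inner_H h' p hp w hw)
  | P5 => exact NI.nf hs
  | P5m => exact NI.nf hs

/-- side conditions of the row `JE` -/
def sIJE : WT → Set (Cyc k) → Set (Cyc k) → DG k → DG k → Prop
  | .En, F, F', g, g' => (sI_JE_E F F' g g') ∨ NI g g'
  | .Ed, F, F', g, g' => (sI_JE_Ed F F' g g') ∨ NI g g'
  | .L, _, _, _, _ => True
  | .K, F, F', g, g' => (sI_JE_K F F' g g') ∨ NI g g'
  | .Km, _, _, _, _ => True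
  | .Cr, F, F', g, g' => (sI_JE_Cr F F' g g') ∨ NI g g'
  | .Cl, F, F', g, g' => (sI_JE_Cl F F' g g') ∨ NI g g'
  | .Dn, F, F', g, g' => (sI_JE_Cr F F' g g') ∨ NI g g'
  | .Fz, F, F', g, g' => (∃ S, TyJE S F g ∧ sJV_Fz k S F' g') ∨ NI g g'
  | .S5, _, _, _, _ => True
  | .A, F, F', g, g' => (sI_JE_A F F' g g') ∨ NI g g'
  | .Aq, F, F', g, g' => (sI_JE_A F F' g g') ∨ NI g g'
  | .Az, F, F', g, g' => (sI_JE_A F F' g g') ∨ NI g g'
  | .T, F, F', g, g' => (∃ R, TyJE R F g ∧ 4 ≤ OddHC.ht R) ∨ NI g g'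
  | .J1, F, F', g, g' => (sI_JE_J1 F g) ∨ NI g g'
  | .J4, F, F', g, g' => (sI_JE_J4 F g) ∨ NI g g'
  | .JE, F, F', g, g' => (sI_JE_JE F F' g g') ∨ NI g g'
  | .JV, F, F', g, g' => (sI_JE_JV F F' g g') ∨ NI g g'
  | .J2, F, F', g, g' => (sI_JV_J2 F F' g g') ∨ NI g g'
  | .H, F, F', g, g' => (∃ R, TyJE R F g ∧ 2 ≤ J.c3 (OddHC.cont R) ∧ JVI.TE R) ∨ NI g g'
  | _, _, _, g, g' => NI g g'

theorem niJE (hk : 13 ≤ k) (t' : WT) (h : JES F g) (h' : WP t' F' g') (hd : ∀ c ∈ F, c ∉ F')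
    (hle : ∀ c ∈ F, ∀ d ∈ F', htc c ≤ htc d) (hs : sIJE t' F F' g g') : NF F g g' := by
  cases t' with
  | En =>
    have h0' : TyEnG F' g' := h'
    have h' : TyEn F' g' := h0'.1
    have hs : (sI_JE_E F F' g g') ∨ NI g g' := hs
    exact NI.nf (NI.or (fun hs => i_JE_En h h' hs) hs)
  | Ed =>
    have h' : TyEd F' g' := h'
    have hs : (sI_JE_Ed F F' g g') ∨ NI g g' := hs
    exact NI.nf (NI.or (fun hs => i_JE_Ed h h' hs) hs)
  | L =>
    have h0' : TyLG F' g' := h'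
    have h' : TyL F' g' := h0'.1
    exact NI.nf (i_JE_L h h')
  | K =>
    have h' : TyKh F' g' := h'
    have hs : (sI_JE_K F F' g g') ∨ NI g g' := hs
    exact NI.nf (NI.or (fun hs => i_JE_K hs) hs)
  | Km =>
    have h' : KmS F' g' := h'
    exact NI.nf (i_JE_Km h h')
  | Cr =>
    have h' : CrS F' g' := h'
    have hs : (sI_JE_Cr F F' g g') ∨ NI g g' := hs
    exact NI.nf (NI.or (fun hs => i_JE_Cr hs) hs)
  | Cl =>
    have h' : ClS F' g' := h'
    have hs : (sI_JE_Cl F F' g g') ∨ NI g g' := hs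
    exact NI.nf (NI.or (fun hs => i_JE_Cl hs) hs)
  | Dn =>
    have h' : TyDn F' g' := h'
    have hs : (sI_JE_Cr F F' g g') ∨ NI g g' := hs
    exact NI.nf (NI.or (fun hs => i_JE_Dn hs) hs)
  | Fz =>
    have h' : TyFz F' g' := h'
    have hs : (∃ S, TyJE S F g ∧ sJV_Fz k S F' g') ∨ NI g g' := hs
    exact NI.nf (NI.or (fun hs => i_JE_Fz0 h' hs) hs)
  | S5 =>
    have h' : TyS5l F' g' := h'
    exact NI.nf (i_JE_S5 h h')
  | A =>
    have h' : TyAp F' g' := h'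
    have hs : (sI_JE_A F F' g g') ∨ NI g g' := hs
    exact NI.nf (NI.or (fun hs => i_JE_A h'.toA hs) hs)
  | Aq =>
    have h' : TyAq F' g' := h'
    have hs : (sI_JE_A F F' g g') ∨ NI g g' := hs
    exact NI.nf (NI.or (fun hs => i_JE_A h'.toA hs) hs)
  | Az =>
    have h' : TyAz F' g' := h'
    have hs : (sI_JE_A F F' g g') ∨ NI g g' := hs
    exact NI.nf (NI.or (fun hs => i_JE_A h'.toA hs) hs)
  | R => exact NI.nf hs
  | RE => exact NI.nf hs
  | T =>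
    have h' : TyT F' g' := h'
    have hs : (∃ R, TyJE R F g ∧ 4 ≤ OddHC.ht R) ∨ NI g g' := hs
    exact NI.nf (NI.or (fun hs => i_JE_T h' hle hs) hs)
  | J1 =>
    have h' : J1.TyJs F' g' := h'
    have hs : (sI_JE_J1 F g) ∨ NI g g' := hs
    exact NI.nf (NI.or (fun hs => i_JE_J1 (by omega) h' hs) hs)
  | J4 =>
    have h' : J1.TyJt F' g' := h'
    have hs : (sI_JE_J4 F g) ∨ NI g g' := hs
    exact NI.nf (NI.or (fun hs => i_JE_J4 (by omega) h' hs) hs)
  | J33 => exact NI.nf hs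
  | JE =>
    have h' : JES F' g' := h'
    have hs : (sI_JE_JE F F' g g') ∨ NI g g' := hs
    exact NI.nf (NI.or (fun hs => i_JE_JE hs) hs)
  | JV =>
    have h' : JVS F' g' := h'
    have hs : (sI_JE_JV F F' g g') ∨ NI g g' := hs
    exact NI.nf (NI.or (fun hs => i_JE_JV hs) hs)
  | J2 =>
    have h' : J2S F' g' := h'
    have hs : (sI_JV_J2 F F' g g') ∨ NI g g' := hs
    exact NI.nf (NI.or (fun hs => i_JE_J2 hs) hs)
  | L1 => exact NI.nf hs
  | H =>
    have h' : Hole2.TyH F' g' := h'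
    have hs : (∃ R, TyJE R F g ∧ 2 ≤ J.c3 (OddHC.cont R) ∧ JVI.TE R) ∨ NI g g' := hs
    exact NI.nf (NI.or (fun hs => i_JE_H0 h' hs) hs)
  | P5 => exact NI.nf hs
  | P5m => exact NI.nf hs

/-- side conditions of the row `JV` -/
def sIJV : WT → Set (Cyc k) → Set (Cyc k) → DG k → DG k → Prop
  | .En, F, F', g, g' => (sI_JV_E F F' g g') ∨ NI g g'
  | .Ed, F, F', g, g' => (sI_JV_Ed F F' g g') ∨ NI g g'
  | .L, _, _, _, _ => True
  | .K, F, F', g, g' => (sI_JV_K F F' g g') ∨ NI g g'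
  | .Km, _, _, _, _ => True
  | .Cr, F, F', g, g' => (sI_JV_Cr F F' g g') ∨ NI g g'
  | .Cl, F, F', g, g' => (sI_JV_Cl F F' g g') ∨ NI g g'
  | .Dn, F, F', g, g' => (sI_JV_Cr F F' g g') ∨ NI g g'
  | .Fz, F, F', g, g' => (∃ S, JZ F g S ∧ sJV_Fz k S F' g') ∨ NI g g'
  | .S5, _, _, _, _ => True
  | .A, F, F', g, g' => (sI_JV_A F F' g g') ∨ NI g g'
  | .Aq, F, F', g, g' => (sI_JV_A F F' g g') ∨ NI g g'
  | .Az, F, F', g, g' => (sI_JV_A F F' g g') ∨ NI g g'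
  | .T, F, F', g, g' => (∃ Z, JZ F g Z ∧ 4 ≤ OddHC.ht Z) ∨ NI g g'
  | .J1, F, F', g, g' => (sI_JV_J1 F g) ∨ NI g g'
  | .J4, F, F', g, g' => (sI_JV_J4 F g) ∨ NI g g'
  | .J33, F, F', g, g' => (∃ z ∈ F', 2 ≤ (contc z).count (htc z)) ∨ NI g g'
  | .JE, F, F', g, g' => (sI_JV_JE F F' g g') ∨ NI g g'
  | .JV, F, F', g, g' => (sI_JV_JV F F' g g') ∨ NI g g'
  | .J2, F, F', g, g' => (sI_JV_J2 F F' g g') ∨ NI g g'
  | .L1, _, _, _, _ => True
  | .H, F, F', g, g' => (∃ S, JZ F g S ∧ 2 ≤ J.c3 (OddHC.cont S) ∧ (JVI.TE S ∨ 3 ∉ OddHC.cont S)) ∨ NI g g'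
  | _, _, _, g, g' => NI g g'

theorem niJV (hk : 13 ≤ k) (t' : WT) (h : JVS F g) (h' : WP t' F' g') (hd : ∀ c ∈ F, c ∉ F')
    (hle : ∀ c ∈ F, ∀ d ∈ F', htc c ≤ htc d) (hs : sIJV t' F F' g g') : NF F g g' := by
  cases t' with
  | En =>
    have h0' : TyEnG F' g' := h'
    have h' : TyEn F' g' := h0'.1
    have hs : (sI_JV_E F F' g g') ∨ NI g g' := hs
    exact NI.nf (NI.or (fun hs => i_JV_En h h' hs) hs)
  | Ed =>
    have h' : TyEd F' g' := h'
    have hs : (sI_JV_Ed F F' g g') ∨ NI g g' := hs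
    exact NI.nf (NI.or (fun hs => i_JV_Ed h h' hs) hs)
  | L =>
    have h0' : TyLG F' g' := h'
    have h' : TyL F' g' := h0'.1
    exact NI.nf (i_JV_L h h')
  | K =>
    have h' : TyKh F' g' := h'
    have hs : (sI_JV_K F F' g g') ∨ NI g g' := hs
    exact NI.nf (NI.or (fun hs => i_JV_K hs) hs)
  | Km =>
    have h' : KmS F' g' := h'
    exact NI.nf (i_JV_Km h h')
  | Cr =>
    have h' : CrS F' g' := h'
    have hs : (sI_JV_Cr F F' g g') ∨ NI g g' := hs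
    exact NI.nf (NI.or (fun hs => i_JV_Cr hs) hs)
  | Cl =>
    have h' : ClS F' g' := h'
    have hs : (sI_JV_Cl F F' g g') ∨ NI g g' := hs
    exact NI.nf (NI.or (fun hs => i_JV_Cl hs) hs)
  | Dn =>
    have h' : TyDn F' g' := h'
    have hs : (sI_JV_Cr F F' g g') ∨ NI g g' := hs
    exact NI.nf (NI.or (fun hs => i_JV_Dn hs) hs)
  | Fz =>
    have h' : TyFz F' g' := h'
    have hs : (∃ S, JZ F g S ∧ sJV_Fz k S F' g') ∨ NI g g' := hs
    exact NI.nf (NI.or (fun hs => i_JV_Fz0 h' hs) hs)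
  | S5 =>
    have h' : TyS5l F' g' := h'
    exact NI.nf (i_JV_S5 h h')
  | A =>
    have h' : TyAp F' g' := h'
    have hs : (sI_JV_A F F' g g') ∨ NI g g' := hs
    exact NI.nf (NI.or (fun hs => i_JV_A h'.toA hs) hs)
  | Aq =>
    have h' : TyAq F' g' := h'
    have hs : (sI_JV_A F F' g g') ∨ NI g g' := hs
    exact NI.nf (NI.or (fun hs => i_JV_A h'.toA hs) hs)
  | Az =>
    have h' : TyAz F' g' := h'
    have hs : (sI_JV_A F F' g g') ∨ NI g g' := hs
    exact NI.nf (NI.or (fun hs => i_JV_A h'.toA hs) hs)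
  | R => exact NI.nf hs
  | RE => exact NI.nf hs
  | T =>
    have h' : TyT F' g' := h'
    have hs : (∃ Z, JZ F g Z ∧ 4 ≤ OddHC.ht Z) ∨ NI g g' := hs
    exact NI.nf (NI.or (fun hs => i_JV_T h' hle hs) hs)
  | J1 =>
    have h' : J1.TyJs F' g' := h'
    have hs : (sI_JV_J1 F g) ∨ NI g g' := hs
    exact NI.nf (NI.or (fun hs => i_JV_J1 (by omega) h' hs) hs)
  | J4 =>
    have h' : J1.TyJt F' g' := h'
    have hs : (sI_JV_J4 F g) ∨ NI g g' := hs
    exact NI.nf (NI.or (fun hs => i_JV_J4 (by omega) h' hs) hs)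
  | J33 =>
    have h' : TyJ33Q F' g' := h'
    have hs : (∃ z ∈ F', 2 ≤ (contc z).count (htc z)) ∨ NI g g' := hs
    exact NI.nf (NI.or (fun hs => i_JV_J33 h h' hs) hs)
  | JE =>
    have h' : JES F' g' := h'
    have hs : (sI_JV_JE F F' g g') ∨ NI g g' := hs
    exact NI.nf (NI.or (fun hs => i_JV_JE hs) hs)
  | JV =>
    have h' : JVS F' g' := h'
    have hs : (sI_JV_JV F F' g g') ∨ NI g g' := hs
    exact NI.nf (NI.or (fun hs => i_JV_JV hs) hs)
  | J2 =>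
    have h' : J2S F' g' := h'
    have hs : (sI_JV_J2 F F' g g') ∨ NI g g' := hs
    exact NI.nf (NI.or (fun hs => i_JV_J2 hs) hs)
  | L1 =>
    have h' : TyL1 F' g' := h'
    exact NI.nf (i_JV_L1 hk h h')
  | H =>
    have h' : Hole2.TyH F' g' := h'
    have hs : (∃ S, JZ F g S ∧ 2 ≤ J.c3 (OddHC.cont S) ∧ (JVI.TE S ∨ 3 ∉ OddHC.cont S)) ∨ NI g g' := hs
    exact NI.nf (NI.or (fun hs => i_JV_H0 h' hs) hs)
  | P5 => exact NI.nf hs
  | P5m => exact NI.nf hs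

/-- side conditions of the row `J2` -/
def sIJ2 : WT → Set (Cyc k) → Set (Cyc k) → DG k → DG k → Prop
  | .En, F, F', g, g' => (sI_J2_E F F' g g') ∨ NI g g'
  | .Ed, F, F', g, g' => (sI_J2_E F F' g g') ∨ NI g g'
  | .L, _, _, _, _ => True
  | .K, _, _, _, _ => True
  | .Km, _, _, _, _ => True
  | .Cr, F, F', g, g' => (siJ2_Cr F' g') ∨ NI g g'
  | .Cl, F, F', g, g' => (siJ2_Cl F' g') ∨ NI g g'
  | .Dn, F, F', g, g' => (∃ U : BinaryTree Unit, J3.bv 0 U ∧ TyC 2 U F' g') ∨ NI g g'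
  | .Fz, _, _, _, _ => True
  | .S5, _, _, _, _ => True
  | .A, F, F', g, g' => (siJ2_A F F' g) ∨ NI g g'
  | .Aq, F, F', g, g' => (siJ2_A F F' g) ∨ NI g g'
  | .Az, F, F', g, g' => (siJ2_A F F' g) ∨ NI g g'
  | .R, _, _, _, _ => True
  | .RE, _, _, _, _ => True
  | .T, F, F', g, g' => (∀ c ∈ F, 4 ≤ htc c) ∨ NI g g'
  | .J1, _, _, _, _ => True
  | .J4, _, _, _, _ => True
  | .J33, _, _, _, _ => True
  | .JE, _, _, _, _ => True
  | .JV, _, _, _, _ => True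
  | .J2, _, _, _, _ => True
  | .L1, _, _, _, _ => True
  | .H, _, _, _, _ => True
  | .P5, _, _, _, _ => True
  | .P5m, _, _, _, _ => True

theorem niJ2 (hk : 13 ≤ k) (t' : WT) (h : J2S F g) (h' : WP t' F' g') (hd : ∀ c ∈ F, c ∉ F')
    (hle : ∀ c ∈ F, ∀ d ∈ F', htc c ≤ htc d) (hs : sIJ2 t' F F' g g') : NF F g g' := by
  cases t' with
  | En =>
    have h0' : TyEnG F' g' := h'
    have h' : TyEn F' g' := h0'.1
    have hs : (sI_J2_E F F' g g') ∨ NI g g' := hs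
    exact NI.nf (NI.or (fun hs => i_J2_E (J2S.x h) h'.toE hle hs) hs)
  | Ed =>
    have h' : TyEd F' g' := h'
    have hs : (sI_J2_E F F' g g') ∨ NI g g' := hs
    exact NI.nf (NI.or (fun hs => i_J2_Ed (J2S.x h) h' hle hs) hs)
  | L =>
    have h0' : TyLG F' g' := h'
    have h' : TyL F' g' := h0'.1
    exact NI.nf (i_J2_L (J2S.x h) h')
  | K =>
    have h' : TyKh F' g' := h'
    exact NI.nf (i_J2_K (J2S.x h) h')
  | Km =>
    have h' : KmS F' g' := h'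
    exact NI.nf (i_J2_Km (J2S.x h) h')
  | Cr =>
    have h' : CrS F' g' := h'
    have hs : (siJ2_Cr F' g') ∨ NI g g' := hs
    exact NI.nf (NI.or (fun hs => i_J2_C (J2S.x h) hs) hs)
  | Cl =>
    have h' : ClS F' g' := h'
    have hs : (siJ2_Cl F' g') ∨ NI g g' := hs
    exact NI.nf (NI.or (fun hs => i_J2_C' (J2S.x h) hs) hs)
  | Dn =>
    have h' : TyDn F' g' := h'
    have hs : (∃ U : BinaryTree Unit, J3.bv 0 U ∧ TyC 2 U F' g') ∨ NI g g' := hs
    exact NI.nf (NI.or (fun hs => i_J2_Dn (J2S.x h) hs) hs)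
  | Fz =>
    have h' : TyFz F' g' := h'
    exact NI.nf (i_J2_Fz (J2S.x h) h')
  | S5 =>
    have h' : TyS5l F' g' := h'
    exact NI.nf (i_J2_S5 (J2S.x h) h')
  | A =>
    have h' : TyAp F' g' := h'
    have hs : (siJ2_A F F' g) ∨ NI g g' := hs
    exact NI.nf (NI.or (fun hs => i_J2_A (J2S.x h) h'.toA hs) hs)
  | Aq =>
    have h' : TyAq F' g' := h'
    have hs : (siJ2_A F F' g) ∨ NI g g' := hs
    exact NI.nf (NI.or (fun hs => i_J2_A (J2S.x h) h'.toA hs) hs)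
  | Az =>
    have h' : TyAz F' g' := h'
    have hs : (siJ2_A F F' g) ∨ NI g g' := hs
    exact NI.nf (NI.or (fun hs => i_J2_A (J2S.x h) h'.toA hs) hs)
  | R =>
    have h' : RqS F' g' := h'
    exact NI.nf (i_J2_R (J2S.x h) h')
  | RE =>
    have h' : RES F' g' := h'
    exact NI.nf (i_J2_RE (J2S.x h) h')
  | T =>
    have h' : TyT F' g' := h'
    have hs : (∀ c ∈ F, 4 ≤ htc c) ∨ NI g g' := hs
    exact NI.nf (NI.or (fun hs => i_J2_T (J2S.x h) hs h' hle) hs)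
  | J1 =>
    have h' : J1.TyJs F' g' := h'
    exact NI.nf (i_J2_J1 (J2S.x h) h')
  | J4 =>
    have h' : J1.TyJt F' g' := h'
    exact NI.nf (i_J2_J4 (J2S.x h) h')
  | J33 =>
    have h' : TyJ33Q F' g' := h'
    exact NI.nf (i_J2_J33 (J2S.x h) h')
  | JE =>
    have h' : JES F' g' := h'
    exact NI.nf (i_J2_JE (J2S.x h) h')
  | JV =>
    have h' : JVS F' g' := h'
    exact NI.nf (i_J2_JV (J2S.x h) h')
  | J2 =>
    have h' : J2S F' g' := h'
    exact NI.nf (i_J2_J2 (J2S.x h) (J2S.x h'))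
  | L1 =>
    have h' : TyL1 F' g' := h'
    exact NI.nf (i_J2_L1 (by omega) (J2S.x h) h')
  | H =>
    have h' : Hole2.TyH F' g' := h'
    exact NI.nf (i_J2_H (J2S.x h) h')
  | P5 =>
    have h' : P5DS F' g' := h'
    exact NI.nf (i_J2_P5 (J2S.x h) h')
  | P5m =>
    have h' : P5MS F' g' := h'
    exact NI.nf (i_J2_P5m (J2S.x h) h')

/-- side conditions of the row `L1` -/
def sIL1 : WT → Set (Cyc k) → Set (Cyc k) → DG k → DG k → Prop
  | .Ed, _, _, _, _ => True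
  | .L, _, _, _, _ => True
  | .K, F, F', g, g' => (∃ S, TyK S F' g' ∧ ((OddHC.cont S).count 2 = 0 ∨ (OddHC.cont S).count 1 = 0)) ∨ NI g g'
  | .Km, F, F', g, g' => (sKm_L1 F' g') ∨ NI g g'
  | .Cr, _, _, _, _ => True
  | .Cl, F, F', g, g' => (∃ c U, 2 ≤ c ∧ 3 ≤ OddHC.ht U ∧ TyC' c U F' g' ∧ (c = 2 → 2 ≤ L1C.fc 3 (OddHC.cont U) ∨ Ft.ClI U)) ∨ NI g g'
  | .S5, _, _, _, _ => True
  | .R, _, _, _, _ => True
  | .RE, _, _, _, _ => True
  | .T, _, _, _, _ => True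
  | .J4, _, _, _, _ => True
  | .J33, _, _, _, _ => True
  | .JV, _, _, _, _ => True
  | .J2, _, _, _, _ => True
  | .L1, _, _, _, _ => True
  | .H, _, _, _, _ => True
  | .P5, _, _, _, _ => True
  | .P5m, _, _, _, _ => True
  | _, _, _, g, g' => NI g g'

theorem niL1 (hk : 13 ≤ k) (t' : WT) (h : TyL1 F g) (h' : WP t' F' g') (hd : ∀ c ∈ F, c ∉ F')
    (hle : ∀ c ∈ F, ∀ d ∈ F', htc c ≤ htc d) (hs : sIL1 t' F F' g g') : NF F g g' := by
  cases t' with
  | En => exact NI.nf hs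
  | Ed =>
    have h' : TyEd F' g' := h'
    exact NI.nf (fun p hp w hw => h.inner_Ed h' p hp w hw)
  | L =>
    have h0' : TyLG F' g' := h'
    have h' : TyL F' g' := h0'.1
    exact NI.nf (i_L1_L (by omega) h h')
  | K =>
    have h' : TyKh F' g' := h'
    have hs : (∃ S, TyK S F' g' ∧ ((OddHC.cont S).count 2 = 0 ∨ (OddHC.cont S).count 1 = 0)) ∨ NI g g' := hs
    exact NI.nf (NI.or (fun hs => i_L1_K (by omega) h hs) hs)
  | Km =>
    have h' : KmS F' g' := h'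
    have hs : (sKm_L1 F' g') ∨ NI g g' := hs
    exact NI.nf (NI.or (fun hs => i_L1_Km (by omega) h hs) hs)
  | Cr =>
    have h' : CrS F' g' := h'
    exact NI.nf (fun p hp w hw => TyL1.inner_Cr (by omega) h (CrS.cr h') p hp w hw)
  | Cl =>
    have h' : ClS F' g' := h'
    have hs : (∃ c U, 2 ≤ c ∧ 3 ≤ OddHC.ht U ∧ TyC' c U F' g' ∧ (c = 2 → 2 ≤ L1C.fc 3 (OddHC.cont U) ∨ Ft.ClI U)) ∨ NI g g' := hs
    exact NI.nf (NI.or (fun hs => i_L1_Cl (by omega) h hle hs) hs)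
  | Dn => exact NI.nf hs
  | Fz => exact NI.nf hs
  | S5 =>
    have h' : TyS5l F' g' := h'
    exact NI.nf (fun p hp w hw => L1S5.inner_L1S5 (by omega) h h'.toS5 p hp w hw)
  | A => exact NI.nf hs
  | Aq => exact NI.nf hs
  | Az => exact NI.nf hs
  | R =>
    have h' : RqS F' g' := h'
    exact NI.nf (i_L1_R h h')
  | RE =>
    have h' : RES F' g' := h'
    exact NI.nf (i_L1_RE h h')
  | T =>
    have h' : TyT F' g' := h'
    exact NI.nf (fun p hp w hw => h.inner_T h' hle p hp w hw)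
  | J1 => exact NI.nf hs
  | J4 =>
    have h' : J1.TyJt F' g' := h'
    exact NI.nf (fun p hp w hw => TyL1.inner_Jt (by omega) h h' p hp w hw)
  | J33 =>
    have h' : TyJ33Q F' g' := h'
    exact NI.nf (fun p hp w hw => TyL1.inner_J3V (by omega) h h'.toJ3V p hp w hw)
  | JE => exact NI.nf hs
  | JV =>
    have h' : JVS F' g' := h'
    exact NI.nf (i_L1_JV hk h h')
  | J2 =>
    have h' : J2S F' g' := h'
    exact NI.nf (i_L1_J2 (by omega) h (J2S.x h'))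
  | L1 =>
    have h' : TyL1 F' g' := h'
    exact NI.nf (fun p hp w hw => TyL1.inner_L1 (by omega) h h' p hp w hw)
  | H =>
    have h' : Hole2.TyH F' g' := h'
    exact NI.nf (fun p hp w hw => TyL1.inner_H (by omega) h h' p hp w hw)
  | P5 =>
    have h' : P5DS F' g' := h'
    exact NI.nf (i_L1_P5 h h')
  | P5m =>
    have h' : P5MS F' g' := h'
    exact NI.nf (i_L1_P5m h h')

/-- side conditions of the row `H` -/
def sIH : WT → Set (Cyc k) → Set (Cyc k) → DG k → DG k → Prop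
  | .En, F, F', g, g' => ((∀ d ∈ F, htc d = 3) ∨ (∃ c ∈ F', ¬ H1.FarC c) ∨ ∃ c ∈ F', ∀ d ∈ F, ∀ a, contc c ≠ {htc d} + (Multiset.replicate a 2 + {1} + {1})) ∨ NI g g'
  | .Ed, F, F', g, g' => ((∀ d ∈ F, htc d = 3) ∨ (∃ c ∈ F', ¬ H1.FarC c) ∨ ∃ c ∈ F', ∀ d ∈ F, ∀ a, contc c ≠ {htc d} + (Multiset.replicate a 2 + {1} + {1})) ∨ NI g g'
  | .L, _, _, _, _ => True
  | .K, _, _, _, _ => True
  | .Km, _, _, _, _ => True
  | .Cr, _, _, _, _ => True
  | .Cl, F, F', g, g' => (siH_Cl2 F' g') ∨ NI g g'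
  | .Dn, _, _, _, _ => True
  | .S5, _, _, _, _ => True
  | .A, _, _, _, _ => True
  | .Aq, _, _, _, _ => True
  | .Az, _, _, _, _ => True
  | .R, _, _, _, _ => True
  | .T, _, _, _, _ => True
  | .J1, _, _, _, _ => True
  | .J4, _, _, _, _ => True
  | .J33, _, _, _, _ => True
  | .JE, _, _, _, _ => True
  | .JV, _, _, _, _ => True
  | .J2, _, _, _, _ => True
  | .L1, _, _, _, _ => True
  | .H, _, _, _, _ => True
  | .P5, _, _, _, _ => True
  | .P5m, _, _, _, _ => True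
  | _, _, _, g, g' => NI g g'

theorem niH (hk : 13 ≤ k) (t' : WT) (h : Hole2.TyH F g) (h' : WP t' F' g') (hd : ∀ c ∈ F, c ∉ F')
    (hle : ∀ c ∈ F, ∀ d ∈ F', htc c ≤ htc d) (hs : sIH t' F F' g g') : NF F g g' := by
  cases t' with
  | En =>
    have h0' : TyEnG F' g' := h'
    have h' : TyEn F' g' := h0'.1
    have hs : ((∀ d ∈ F, htc d = 3) ∨ (∃ c ∈ F', ¬ H1.FarC c) ∨ ∃ c ∈ F', ∀ d ∈ F, ∀ a, contc c ≠ {htc d} + (Multiset.replicate a 2 + {1} + {1})) ∨ NI g g' := hs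
    exact NI.nf (NI.or (fun hs => i_H_E (by omega) h h'.toE hle hs) hs)
  | Ed =>
    have h' : TyEd F' g' := h'
    have hs : ((∀ d ∈ F, htc d = 3) ∨ (∃ c ∈ F', ¬ H1.FarC c) ∨ ∃ c ∈ F', ∀ d ∈ F, ∀ a, contc c ≠ {htc d} + (Multiset.replicate a 2 + {1} + {1})) ∨ NI g g' := hs
    exact NI.nf (NI.or (fun hs => i_H_E (by omega) h h'.toE hle hs) hs)
  | L =>
    have h0' : TyLG F' g' := h'
    have h' : TyL F' g' := h0'.1
    exact NI.nf (i_H_L h h')
  | K =>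
    have h' : TyKh F' g' := h'
    exact NI.nf (i_H_K h h')
  | Km =>
    have h' : KmS F' g' := h'
    exact NI.nf (i_H_Km h h')
  | Cr =>
    have h' : CrS F' g' := h'
    exact NI.nf (i_H_Cr h h')
  | Cl =>
    have h' : ClS F' g' := h'
    have hs : (siH_Cl2 F' g') ∨ NI g g' := hs
    exact NI.nf (NI.or (fun hs => i_H_Cl2 h hs) hs)
  | Dn =>
    have h' : TyDn F' g' := h'
    exact NI.nf (i_H_Dn h h')
  | Fz => exact NI.nf hs
  | S5 =>
    have h' : TyS5l F' g' := h'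
    exact NI.nf (i_H_S5 h h')
  | A =>
    have h' : TyAp F' g' := h'
    exact NI.nf (i_H_A (by omega) h h'.toA)
  | Aq =>
    have h' : TyAq F' g' := h'
    exact NI.nf (i_H_A (by omega) h h'.toA)
  | Az =>
    have h' : TyAz F' g' := h'
    exact NI.nf (i_H_A (by omega) h h'.toA)
  | R =>
    have h' : RqS F' g' := h'
    exact NI.nf (i_H_R h h')
  | RE => exact NI.nf hs
  | T =>
    have h' : TyT F' g' := h'
    exact NI.nf (i_H_T h h')
  | J1 =>
    have h' : J1.TyJs F' g' := h'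
    exact NI.nf (i_H_J1 h h')
  | J4 =>
    have h' : J1.TyJt F' g' := h'
    exact NI.nf (i_H_J4 h h')
  | J33 =>
    have h' : TyJ33Q F' g' := h'
    exact NI.nf (i_H_J3V h h'.toJ3V)
  | JE =>
    have h' : JES F' g' := h'
    exact NI.nf (i_H_JES h h')
  | JV =>
    have h' : JVS F' g' := h'
    exact NI.nf (i_H_JVS h h')
  | J2 =>
    have h' : J2S F' g' := h'
    exact NI.nf (i_H_J2 h (J2S.x h'))
  | L1 =>
    have h' : TyL1 F' g' := h'
    exact NI.nf (i_H_L1 (by omega) h h')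
  | H =>
    have h' : Hole2.TyH F' g' := h'
    exact NI.nf (i_H_H h h')
  | P5 =>
    have h' : P5DS F' g' := h'
    exact NI.nf (i_H_P5 h h')
  | P5m =>
    have h' : P5MS F' g' := h'
    exact NI.nf (i_H_P5m h h')

/-- the side condition of a pair of types -/
def SideI : WT → WT → Set (Cyc k) → Set (Cyc k) → DG k → DG k → Prop
  | .En => fun _ _ _ _ _ => True
  | .Ed => fun _ _ _ _ _ => True
  | .L => fun _ _ _ _ _ => True
  | .K => fun _ _ _ _ _ => True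
  | .Km => fun _ _ _ _ _ => True
  | .Cr => fun _ _ _ _ _ => True
  | .Cl => fun _ _ _ _ _ => True
  | .Dn => fun _ _ _ _ _ => True
  | .Fz => fun _ _ _ _ _ => True
  | .S5 => fun _ _ _ _ _ => True
  | .A => sIA
  | .Aq => sIAq
  | .Az => sIAz
  | .R => sIR
  | .RE => sIRE
  | .T => sIT
  | .J1 => sIJ1
  | .J4 => sIJ4
  | .J33 => sIJ33
  | .JE => sIJE
  | .JV => sIJV
  | .J2 => sIJ2
  | .L1 => sIL1
  | .H => sIH
  | .P5 => fun _ _ _ _ _ => True
  | .P5m => fun _ _ _ _ _ => True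

/-- **the matrix of the inner words** -/
theorem matI (hk : 13 ≤ k) (t t' : WT) (h : WP t F g) (h' : WP t' F' g') (hd : ∀ c ∈ F, c ∉ F')
    (hle : ∀ c ∈ F, ∀ d ∈ F', htc c ≤ htc d) (hs : SideI t t' F F' g g') : NF F g g' := by
  cases t with
  | En =>
    have h : TyEnG F g := h
    obtain ⟨⟨j, r, f, _, _, _, h⟩, _⟩ := h
    exact NI.nf (NI.of_empty h.arcs)
  | Ed =>
    have h : TyEd F g := h
    obtain ⟨j, r, f, _, _, h⟩ := h
    exact NI.nf (NI.of_empty h.arcs)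
  | L =>
    have h : TyLG F g := h
    obtain ⟨⟨R', e, _, _, _, _, h⟩, _⟩ := h
    exact NI.nf (NI.of_empty h.arcs)
  | K =>
    have h : TyKh F g := h
    obtain ⟨S, _, h⟩ := h
    exact NI.nf (NI.of_empty h.arcs)
  | Km =>
    have h : KmS F g := h
    obtain ⟨S, _, _, _, _, _, h⟩ := h
    exact NI.nf (NI.of_empty h.arcs)
  | Cr =>
    have h : CrS F g := h
    obtain ⟨c, R, _, _, _, _, _, _, _, h⟩ := h
    exact NI.nf (NI.of_empty h.arcs)
  | Cl =>
    have h : ClS F g := h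
    obtain ⟨c, R, _, _, _, _, _, _, h⟩ := h
    exact NI.nf (NI.of_empty h.arcs)
  | Dn =>
    have h : TyDn F g := h
    obtain ⟨U, _, h⟩ := h
    exact NI.nf (NI.of_empty h.arcs)
  | Fz =>
    have h : TyFz F g := h
    exact NI.nf (i_Fz h)
  | S5 =>
    have h : TyS5l F g := h
    obtain ⟨P, Q, R, h⟩ := (TyS5l.toS5 h).tri
    exact NI.nf (NI.of_empty h.arcs)
  | A => exact niA hk t' h h' hd hle hs
  | Aq => exact niAq hk t' h h' hd hle hs
  | Az => exact niAz hk t' h h' hd hle hs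
  | R => exact niR hk t' h h' hd hle hs
  | RE => exact niRE hk t' h h' hd hle hs
  | T => exact niT hk t' h h' hd hle hs
  | J1 => exact niJ1 hk t' h h' hd hle hs
  | J4 => exact niJ4 hk t' h h' hd hle hs
  | J33 => exact niJ33 hk t' h h' hd hle hs
  | JE => exact niJE hk t' h h' hd hle hs
  | JV => exact niJV hk t' h h' hd hle hs
  | J2 => exact niJ2 hk t' h h' hd hle hs
  | L1 => exact niL1 hk t' h h' hd hle hs
  | H => exact niH hk t' h h' hd hle hs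
  | P5 =>
    have h : P5DS F g := h
    obtain ⟨S, h⟩ := h
    exact NI.nf (NI.of_empty h.2.arcs)
  | P5m =>
    have h : P5MS F g := h
    obtain ⟨S, h⟩ := h
    exact NI.nf (NI.of_empty h.2.arcs)

end MW

end Pool.OddHC
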