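import Pool.Agent.Work.MP_8f87b2_fin.MatN
import Pool.Agent.Work.MP_8f87b2_fin.MatJ
import Pool.Agent.Work.MP_8f87b2_fin.MatS
import Pool.Agent.Work.MP_8f87b2_h10.EdJ
import Pool.Agent.Work.MP_8f87b2_h13.N3
import Pool.Agent.Work.MP_8f87b2_h13.R3In
import Pool.Agent.Work.MP_8f87b2_h13.R3Ed
import Pool.Agent.Work.MP_8f87b2_h52.R3JV
import Pool.Agent.Work.MP_8f87b2_h59.R3J1
import Pool.Agent.Work.MP_8f87b2_h60.InRT
import Pool.Agent.Work.MP_8f87b2_h61.JsI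
import Pool.Agent.Work.MP_8f87b2_h63.J4I
import Pool.Agent.Work.MP_8f87b2_h74.InJs
import Pool.Agent.Work.MP_8f87b2_h76.TS5
import Pool.Agent.Work.MP_8f87b2_h77.JVJ1
import Pool.Agent.Work.MP_8f87b2_h84.Inn2
import Pool.Agent.Work.MP_8f87b2_h84.Rows
import Pool.Agent.Work.MP_8f87b2_h89.R3I
import Pool.Agent.Work.MP_8f87b2_h89.R3T
import Pool.Agent.Work.MP_8f87b2_h33.InJV
import Pool.Agent.Work.MP_8f87b2_h13.R3DnB
import Pool.Agent.Work.MP_8f87b2_h29.DnRows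

/-!
# MP_8f87b2_co: the inner words of the windows `R3`, `S3`, `T` and of the gadgets `J1`, `J4` against all types
-/

set_option autoImplicit false

namespace Pool.OddHC

open Finset Equiv BinaryTree Pool.Agent.Work.MP_8f87b2_co

namespace MW

variable {k : ℕ} {F F' : Set (Cyc k)} {g g' : DG k}

/-! ### R3 and S3 -/

/-- right content links against the inner words of bare windows -/
def siR_Cr (F F' : Set (Cyc k)) (g' : DG k) : Prop :=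
  (∃ c U, TyC c U F' g' ∧ 1 ≤ c ∧ H1.vb 0 U ∧ (∀ x ∈ cont U, x = 1 ∨ c + 1 ≤ x) ∧ c + 1 ≤ OddHC.ht U) ∨
    ((∃ c ∈ F, 4 ≤ OddHC.np3 (contc c)) ∧ ∃ c U, TyC c U F' g' ∧ OddHC.np3 (cont U) ≤ 1)

/-- left content links against the inner words of bare windows -/
def siR_Cl (F F' : Set (Cyc k)) (g' : DG k) : Prop :=
  (∃ c U, TyC' c U F' g' ∧ 1 ≤ c ∧ H1.vb 0 U ∧ (∀ x ∈ cont U, x = 1 ∨ c + 1 ≤ x) ∧ c + 1 ≤ OddHC.ht U) ∨
    ((∃ c ∈ F, 4 ≤ OddHC.np3 (contc c)) ∧ ∃ c U, TyC' c U F' g' ∧ OddHC.np3 (cont U) ≤ 1) ∨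
    ∃ (U : BinaryTree Unit) (n : ℕ) (v : List Bool), TyC' 2 U F' g' ∧ n ≤ 2 ∧
      wd U = v ++ true :: List.replicate n false

theorem i_R3_Ed (h : TyR3 F g) (h' : TyEd F' g') : NI g g' := h.inner_Ed h'
theorem i_S3_Ed (h : TyS3 F g) (h' : TyEd F' g') : NI g g' := h.inner_Ed h'
theorem i_R3_L (h : TyR3 F g) (h' : TyL F' g') : NI g g' := h.inner_L h'
theorem i_S3_L (h : TyS3 F g) (h' : TyL F' g') : NI g g' := h.inner_L h'

theorem i_R3_K (h : TyR3 F g) (h' : TyKh F' g') : NI g g' := by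
  obtain ⟨S, _, h2⟩ := h'
  exact h.inner_K h2

theorem i_S3_K (h : TyS3 F g) (h' : TyKh F' g') : NI g g' := by
  obtain ⟨S, _, h2⟩ := h'
  exact h.inner_K h2

theorem i_R3_Km (h : TyR3 F g) (h' : KmS F' g') : NI g g' := by
  obtain ⟨S, _, _, _, _, _, h2⟩ := h'
  exact h.inner_K' h2

theorem i_S3_Km (h : TyS3 F g) (h' : KmS F' g') : NI g g' := by
  obtain ⟨S, _, _, _, _, _, h2⟩ := h'
  exact h.inner_K' h2

theorem i_R3_C (h : TyR3 F g) (hd : ∀ c ∈ F, c ∉ F') (hle : ∀ c ∈ F, ∀ d ∈ F', htc c ≤ htc d)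
    (hs : siR_Cr F F' g') : NI g g' := by
  rcases hs with ⟨c, U, h1, h2, h3, h4, h5⟩ | ⟨hn, c, U, h1, h2⟩
  · exact h.inner_Cr h1 h2 h3 h4 h5 hd hle
  · exact (h.np3_Cr hn h2 h1).2

theorem i_S3_C (h : TyS3 F g) (hd : ∀ c ∈ F, c ∉ F') (hle : ∀ c ∈ F, ∀ d ∈ F', htc c ≤ htc d)
    (hs : siR_Cr F F' g') : NI g g' := by
  rcases hs with ⟨c, U, h1, h2, h3, h4, h5⟩ | ⟨hn, c, U, h1, h2⟩
  · exact h.inner_Cr h1 h2 h3 h4 h5 hd hle
  · exact (h.np3_Cr hn h2 h1).2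

theorem i_R3_C' (h : TyR3 F g) (hd : ∀ c ∈ F, c ∉ F') (hle : ∀ c ∈ F, ∀ d ∈ F', htc c ≤ htc d)
    (hs : siR_Cl F F' g') : NI g g' := by
  rcases hs with ⟨c, U, h1, h2, h3, h4, h5⟩ | ⟨hn, c, U, h1, h2⟩ | ⟨U, n, v, h1, h2, h3⟩
  · exact h.inner_Cl h1 h2 h3 h4 h5 hd hle
  · exact (h.np3_Cl hn h2 h1).2
  · exact h.inner_Cl2 h1 h2 h3

theorem i_S3_C' (h : TyS3 F g) (hd : ∀ c ∈ F, c ∉ F') (hle : ∀ c ∈ F, ∀ d ∈ F', htc c ≤ htc d)
    (hs : siR_Cl F F' g') : NI g g' := by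
  rcases hs with ⟨c, U, h1, h2, h3, h4, h5⟩ | ⟨hn, c, U, h1, h2⟩ | ⟨U, n, v, h1, h2, h3⟩
  · exact h.inner_Cl h1 h2 h3 h4 h5 hd hle
  · exact (h.np3_Cl hn h2 h1).2
  · exact h.inner_Cl2 h1 h2 h3

/-- DOWN links against bare windows -/
def siR_Dn (F' : Set (Cyc k)) (g' : DG k) : Prop := ∃ U, DnB U ∧ TyC 2 U F' g'

theorem i_R3_Dn (h : TyR3 F g) (hd : ∀ c ∈ F, c ∉ F') (hs : siR_Dn F' g') : NI g g' := by
  obtain ⟨U, h1, h2⟩ := hs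
  exact h.inner_DnB h1 h2 hd

theorem i_S3_Dn (h : TyS3 F g) (hs : siR_Dn F' g') : NI g g' := by
  obtain ⟨U, h1, h2⟩ := hs
  exact h.inner_DnB h1 h2

theorem i_R3_S5 (h : TyR3 F g) (h' : TyS5l F' g') : NI g g' := h.inner_S5 h'.toS5
theorem i_S3_S5 (h : TyS3 F g) (h' : TyS5l F' g') : NI g g' := h.inner_S5 h'.toS5
theorem i_R3_A (h : TyR3 F g) (h' : TyAp F' g') : NI g g' := h.inner_Ap h'
theorem i_S3_A (h : TyS3 F g) (h' : TyAp F' g') : NI g g' := h.inner_Ap h'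
theorem i_R3_A0 (h : TyR3 F g) (h' : TyA0 F' g') (hd : ∀ c ∈ F, c ∉ F') : NI g g' := h.inner_A0 h' hd
theorem i_S3_A0 (h : TyS3 F g) (h' : TyA0 F' g') : NI g g' := h.inner_A0 h'
theorem i_R3_B0 (h : TyR3 F g) (h' : TyB0 F' g') (hd : ∀ c ∈ F, c ∉ F') : NI g g' := h.inner_B0 h' hd
theorem i_S3_B0 (h : TyS3 F g) (h' : TyB0 F' g') : NI g g' := h.inner_B0 h'
theorem i_R3_R3 (h : TyR3 F g) (h' : TyR3 F' g') (hd : ∀ c ∈ F, c ∉ F') : NI g g' := h.inner_R3 h' hd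
theorem i_S3_R3 (h : TyS3 F g) (h' : TyR3 F' g') : NI g g' := h.inner_R3 h'
theorem i_R3_S3 (h : TyR3 F g) (h' : TyS3 F' g') (hd : ∀ c ∈ F, c ∉ F') : NI g g' := h.inner_S3 h' hd
theorem i_S3_S3 (h : TyS3 F g) (h' : TyS3 F' g') : NI g g' := h.inner_S3 h'
theorem i_R3_T (h : TyR3 F g) (h' : TyT F' g') (hle : ∀ c ∈ F, ∀ d ∈ F', htc c ≤ htc d) : NI g g' := h.inner_T h' hle
theorem i_S3_T (h : TyS3 F g) (h' : TyT F' g') (hle : ∀ c ∈ F, ∀ d ∈ F', htc c ≤ htc d) : NI g g' := h.inner_T h' hle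

theorem i_R3_J1 (h : TyR3 F g) (h' : J1.TyJs F' g') : NI g g' := by
  obtain ⟨s, h1, _, h2⟩ := js_isJ1 h'
  exact h.inner_J1 h1 h2

theorem i_S3_J1 (h : TyS3 F g) (h' : J1.TyJs F' g') : NI g g' := by
  obtain ⟨s, h1, _, h2⟩ := js_isJ1 h'
  exact h.inner_J1 h1 h2

theorem i_R3_J4 (h : TyR3 F g) (h' : J1.TyJt F' g') : NI g g' := by
  obtain ⟨s, h1, _, h2⟩ := jt_isJ1M h'
  exact h.inner_J1M (by omega) h2

theorem i_S3_J4 (h : TyS3 F g) (h' : J1.TyJt F' g') : NI g g' := by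
  obtain ⟨s, h1, _, h2⟩ := jt_isJ1M h'
  exact h.inner_J1M (by omega) h2

theorem i_R3_JV (h : TyR3 F g) (h' : JVS F' g') (hle : ∀ c ∈ F, ∀ d ∈ F', htc c ≤ htc d) : NI g g' := by
  obtain ⟨Z, h1, h2, h3⟩ := h'
  exact h.inner_JV (Or.inl h3) h1 h2 hle

theorem i_S3_JV (h : TyS3 F g) (h' : JVS F' g') (hle : ∀ c ∈ F, ∀ d ∈ F', htc c ≤ htc d) : NI g g' := by
  obtain ⟨Z, h1, h2, h3⟩ := h'
  exact h.inner_JV (Or.inl h3) h1 h2 hle

theorem i_R3_self (h : TyR3 F g) : NI g g := by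
  obtain ⟨R, B, S, w0, h1, hne, _, _, rfl, rfl⟩ := h
  have key : ∀ i ∈ [0, 1, 3, 6, 8, 9], TT (H1.wX R B S 0 w0 i) ∉ (gad20 (H1.wX R B S 0 w0)).B := by
    intro i hi hw
    obtain ⟨j, hj, e⟩ := mem_gad20.1 hw
    obtain ⟨rfl, h2⟩ := h1.inner_raw h1 w0 hi hj e.symm
    have h10 := h1.rlink w0 (i := 0) (j := 10) (by simp)
    rcases h2 with rfl | rfl
    · apply hne
      rw [← h10, ← e, ← e]
    · apply hne
      have e2 : TT (H1.wX R B S 0 w0 0) = TT (TT (H1.wX R B S 0 w0 0)) := by rw [h10, ← e]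
      have e3 := TT.injective e2
      rw [← h10, ← e3, ← e3]
  intro p hp w hw
  obtain ⟨i, hi, e⟩ : ∃ i ∈ [0, 1, 3, 6, 8, 9], innA p = {TT (H1.wX R B S 0 w0 i)} := by
    have hp' : p = (H1.wX R B S 0 w0 0, H1.wX R B S 0 w0 10) ∨
        p = (H1.wX R B S 0 w0 1, H1.wX R B S 0 w0 11) ∨
        p = (H1.wX R B S 0 w0 3, H1.wX R B S 0 w0 12) ∨
        p = (H1.wX R B S 0 w0 6, H1.wX R B S 0 w0 15) ∨
        p = (H1.wX R B S 0 w0 8, H1.wX R B S 0 w0 14) ∨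
        p = (H1.wX R B S 0 w0 9, H1.wX R B S 0 w0 17) := hp
    rcases hp' with rfl | rfl | rfl | rfl | rfl | rfl
    · exact ⟨0, by simp, rfl⟩
    · exact ⟨1, by simp, rfl⟩
    · exact ⟨3, by simp, rfl⟩
    · exact ⟨6, by simp, rfl⟩
    · exact ⟨8, by simp, rfl⟩
    · exact ⟨9, by simp, rfl⟩
  rw [e] at hw
  have e1 : w = TT (H1.wX R B S 0 w0 i) := hw
  rw [e1]
  exact key i hi

theorem i_S3_self (h : TyS3 F g) : NI g g := h.inner_S3 h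

/-! ### T -/

theorem i_T_En (h : TyT F g) (h' : TyEn F' g') : NI g g' := h.inner_E h'.toE
theorem i_T_Ed (h : TyT F g) (h' : TyEd F' g') : NI g g' := h.inner_E h'.toE

theorem i_T_L (h : TyT F g) (h' : TyL F' g') : NI g g' := by
  obtain ⟨R', e, _, _, _, _, h2⟩ := h'
  exact h.inner_L (p := 0) (q := 0) h2

theorem i_T_K (h : TyT F g) (h' : TyKh F' g') : NI g g' := by
  obtain ⟨S, _, h2⟩ := h'
  exact h.inner_K h2

theorem i_T_Km (h : TyT F g) (h' : KmS F' g') : NI g g' := by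
  obtain ⟨S, _, _, _, _, _, h2⟩ := h'
  refine h.inner_hd h2 ?_
  rintro Y (rfl | rfl | rfl)
  · left; rfl
  · right; left
    rw [w1, H1.lastB_app (by simp)]
    rfl
  · right; right; right; right; right
    exact ⟨1, rfl⟩

theorem i_T_Cr (h : TyT F g) (h' : CrS F' g') : NI g g' := by
  obtain ⟨c, R, h1, _, _, _, h2, _, _, h3⟩ := h'
  exact h.inner_C h3 h1 h2

theorem i_T_Cl (h : TyT F g) (h' : ClS F' g') : NI g g' := by
  obtain ⟨c, R, h1, _, _, _, h2, _, h3⟩ := h'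
  exact h.inner_Cl h3 h1 h2

/-- the shape of a DOWN link against `T` -/
def siT_Dn (F' : Set (Cyc k)) (g' : DG k) : Prop := ∃ U, H1.Hf U ∧ TyC 2 U F' g'

theorem i_T_Dn (h : TyT F g) (hs : siT_Dn F' g') : NI g g' := by
  obtain ⟨U, h1, h2⟩ := hs
  exact h.inner_C h2 le_rfl h1

theorem i_T_S5 (h : TyT F g) (h' : TyS5l F' g') : NI g g' := h.inner_S5 h'.toS5
theorem i_T_A (h : TyT F g) (h' : TyA F' g') : NI g g' := h.inner_A h'
theorem i_T_A0 (h : TyT F g) (h' : TyA0 F' g') : NI g g' := h.inner_A0 h'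
theorem i_T_B0 (h : TyT F g) (h' : TyB0 F' g') : NI g g' := h.inner_B0 h'
theorem i_T_R3 (h : TyT F g) (h' : TyR3 F' g') : NI g g' := h.inner_R3 h'
theorem i_T_S3 (h : TyT F g) (h' : TyS3 F' g') : NI g g' := h.inner_S3 h'
theorem i_T_T (h : TyT F g) (h' : TyT F' g') : NI g g' := h.inner_T h'
theorem i_T_J1 (hk : 13 ≤ k) (h : TyT F g) (h' : J1.TyJs F' g') : NI g g' := h.inner_Js h' hk

theorem i_T_JV (h : TyT F g) (hs : ∃ Z : BinaryTree Unit, JVw Z ∧ Is9 .nil .nil Z F' g') : NI g g' := by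
  obtain ⟨Z, h2, h3⟩ := hs
  exact h.inner_JV h3 h2

/-! ### J1 -/

theorem i_J1_E (hk : 13 ≤ k) (h : J1.TyJs F g) (h' : TyE F' g') : NI g g' := h.inner_E hk h'
theorem i_J1_L (hk : 13 ≤ k) (h : J1.TyJs F g) (h' : TyL F' g') : NI g g' := h.inner_L hk h'

theorem i_J1_K (hk : 13 ≤ k) (h : J1.TyJs F g) (h' : TyKh F' g') : NI g g' := by
  obtain ⟨S, _, h2⟩ := h'
  exact h.inner_K hk h2

theorem i_J1_Km (hk : 13 ≤ k) (h : J1.TyJs F g) (h' : KmS F' g') : NI g g' := by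
  obtain ⟨S, _, _, _, _, _, h2⟩ := h'
  exact h.inner_K' hk h2

theorem i_J1_Cr (hk : 13 ≤ k) (h : J1.TyJs F g) (h' : CrS F' g') : NI g g' := by
  obtain ⟨c, R, h1, _, _, _, _, _, _, h3⟩ := h'
  exact h.inner_C hk h3 (by omega)

theorem i_J1_Cl (hk : 13 ≤ k) (h : J1.TyJs F g) (h' : ClS F' g') : NI g g' := by
  obtain ⟨c, R, h1, _, _, _, _, _, h3⟩ := h'
  exact h.inner_C' hk h3 (by omega)

theorem i_J1_Dn (hk : 13 ≤ k) (h : J1.TyJs F g) (h' : TyDn F' g') : NI g g' := by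
  obtain ⟨U, _, h2⟩ := h'
  exact h.inner_C hk h2 (by omega)

theorem i_J1_S5 (h : J1.TyJs F g) (h' : TyS5l F' g') : NI g g' := by
  obtain ⟨s, h1, _, h2⟩ := js_isJ1 h
  exact J.J1.inner_S5 (by omega) le_rfl h.toJ1.path h2 h'.toS5 (s5_cnt h')

theorem i_J1_T (hk : 13 ≤ k) (h : J1.TyJs F g) (h' : TyT F' g') : NI g g' := h.inner_T hk h'
theorem i_J1_A (hk : 13 ≤ k) (h : J1.TyJs F g) (h' : TyA F' g') : NI g g' := h.inner_A hk h'
theorem i_J1_A0 (hk : 13 ≤ k) (h : J1.TyJs F g) (h' : TyA0 F' g') : NI g g' := h.inner_A0 hk h'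
theorem i_J1_B0 (hk : 13 ≤ k) (h : J1.TyJs F g) (h' : TyB0 F' g') : NI g g' := h.inner_B0 hk h'

theorem i_J1_R3 (hk : 13 ≤ k) (h : J1.TyJs F g) (h' : TyR3 F' g') : NI g g' := by
  obtain ⟨s, h1, _, hA⟩ := h.isJ1
  exact J.J1.inner_R3 (by omega) le_rfl (by omega) hA h'

theorem i_J1_S3 (hk : 13 ≤ k) (h : J1.TyJs F g) (h' : TyS3 F' g') : NI g g' := by
  obtain ⟨s, h1, _, hA⟩ := h.isJ1
  exact J.J1.inner_S3 (by omega) le_rfl (by omega) hA h'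

theorem i_J1_J4 (hk : 13 ≤ k) (h : J1.TyJs F g) (h' : J1.TyJt F' g') : NI g g' := by
  obtain ⟨s, h1, _, hA⟩ := h.isJ1
  obtain ⟨s', h1', h2', h3'⟩ := jt_isJ1M h'
  obtain rfl : s = s' + 1 := by omega
  exact J.J1.inner_J1M (by omega) hA h3'

/-- contents of `JV` against `J1` -/
def siJ1_JV (k : ℕ) (F' : Set (Cyc k)) : Prop := ∀ z ∈ F', contc z ≠ {3} + {k - 5} + {2}

theorem i_J1_JV (hk : 13 ≤ k) (h : J1.TyJs F g) (h' : JVS F' g') (hs : siJ1_JV k F') : NI g g' := by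
  obtain ⟨Z, h1, h2, h3⟩ := h'
  exact h.inner_JV (by omega) (Or.inl h3) h2 h1 hs

/-! ### J4 -/

/-- `J4` against E: the contents, or the word is no exceptional word -/
def siJ4_E (k : ℕ) (F' : Set (Cyc k)) (g' : DG k) : Prop :=
  (∃ c ∈ F', 2 ∈ contc c ∨ 3 ∈ contc c) ∨
    ∀ X, IsTri .nil X .nil F' g' → ∀ i ∈ [1, 3, 6, 8, 9], Tsq.mir X ≠ J1.nst (k - 11) (app (H1.ch 4) (J1.zz 3 i))

theorem i_J4_E (hk : 13 ≤ k) (h : J1.TyJt F g) (h' : TyE F' g') (hs : siJ4_E k F' g') : NI g g' := by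
  obtain ⟨j, r, f, _, _, h2⟩ := h'
  rcases hs with hs | hs
  · exact h.inner_E hk h2 hs
  · exact h.inner_E' hk h2 (hs _ h2)

theorem i_J4_L (hk : 13 ≤ k) (h : J1.TyJt F g) (h' : TyL F' g') : NI g g' := h.inner_L hk h'

theorem i_J4_K (hk : 13 ≤ k) (h : J1.TyJt F g) (h' : TyKh F' g') : NI g g' := by
  obtain ⟨S, _, h2⟩ := h'
  exact h.inner_K hk h2

theorem i_J4_Km (hk : 13 ≤ k) (h : J1.TyJt F g) (h' : KmS F' g') : NI g g' := by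
  obtain ⟨S, _, _, _, _, _, h2⟩ := h'
  exact h.inner_K' hk h2

theorem i_J4_Cr (hk : 13 ≤ k) (h : J1.TyJt F g) (h' : CrS F' g') : NI g g' := by
  obtain ⟨c, R, h1, _, _, _, _, _, _, h3⟩ := h'
  exact h.inner_C hk h3 (by omega)

theorem i_J4_Dn (hk : 13 ≤ k) (h : J1.TyJt F g) (h' : TyDn F' g') : NI g g' := by
  obtain ⟨U, _, h2⟩ := h'
  exact h.inner_C hk h2 (by omega)

theorem i_J4_S5 (h : J1.TyJt F g) (h' : TyS5l F' g') : NI g g' := by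
  obtain ⟨s, h1, _, h2⟩ := jt_isJ1M h
  exact J.J1M.inner_S5 (by omega) (by omega) h.path h2 h'.toS5 (s5_cnt h')

theorem i_J4_T (hk : 13 ≤ k) (h : J1.TyJt F g) (h' : TyT F' g') : NI g g' := h.inner_T hk h'
theorem i_J4_A (hk : 13 ≤ k) (h : J1.TyJt F g) (h' : TyA F' g') : NI g g' := h.inner_A hk h'
theorem i_J4_A0 (hk : 13 ≤ k) (h : J1.TyJt F g) (h' : TyA0 F' g') : NI g g' := h.inner_A0 hk h'
theorem i_J4_B0 (hk : 13 ≤ k) (h : J1.TyJt F g) (h' : TyB0 F' g') : NI g g' := h.inner_B0 hk h'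

end MW

end Pool.OddHC
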