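import Pool.Agent.Work.MP_8f87b2_h13.TyRq
import Pool.Agent.Work.MP_8f87b2_h60.InRT
import Pool.Agent.Work.MP_8f87b2_h60.InAr

/-!
# MP_8f87b2_co: inner rows of the right windows `TyRq q`, `TySq q` (every `q`) against `Ap`, `Aq`, `Rq`, `Sq`, both directions
-/

set_option autoImplicit false

namespace Pool.OddHC

open HM Equiv BinaryTree Pool.Agent.Work.MP_8f87b2_co

variable {k : ℕ} {F F' : Set (Cyc k)} {g g' : DG k} {q q' : ℕ}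

theorem mem_S_R9 {i : ℕ} (hi : i ∈ [3, 6, 8]) : i ∈ [0, 1, 3, 6, 8, 9] := by
  simp only [List.mem_cons, List.not_mem_nil, or_false] at hi ⊢
  omega

theorem ne_S0_9 {i : ℕ} (hi : i ∈ [3, 6, 8]) : i ≠ 0 := by
  simp only [List.mem_cons, List.not_mem_nil, or_false] at hi
  omega

/-! ### Ap -/

theorem TyRq.inner_Ap (h : TyRq q F g) (h' : TyAp F' g') : ∀ p ∈ g.arcs, ∀ w ∈ innA p, w ∉ g'.B := by
  intro p hp w hw hw'
  obtain ⟨R, B, S, w0, i, h1, hi, rfl, -⟩ := h.inn0 p hp w hw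
  obtain ⟨q', n, a, B1, s, B', w0', j, h1', hn, hj, e2⟩ := h'.words60 _ hw'
  exact h1.rinner_G w0 hi h1' w0' hn hj e2

theorem TySq.inner_Ap (h : TySq q F g) (h' : TyAp F' g') : ∀ p ∈ g.arcs, ∀ w ∈ innA p, w ∉ g'.B := by
  intro p hp w hw hw'
  obtain ⟨R, B, S, w0, i, h1, hi, rfl, -⟩ := h.inn0 p hp w hw
  obtain ⟨q', n, a, B1, s, B', w0', j, h1', hn, hj, e2⟩ := h'.words60 _ hw'
  exact h1.rinner_G w0 (mem_S_R9 hi) h1' w0' hn hj e2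

theorem TyAp.inner_Rq (h : TyAp F g) (h' : TyRq q F' g') : ∀ p ∈ g.arcs, ∀ w ∈ innA p, w ∉ g'.B := by
  intro p hp w hw hw'
  obtain ⟨q', n, a, B1, s, B', w0', i, h1', hn, hi, e1⟩ := h.inn60 p hp
  obtain ⟨R, B, S, w0, j, h1, hj, e2, -⟩ := h'.words w hw'
  have hw2 : w = TT p.1 := hw
  rw [e1] at hw2
  exact h1.rinner_G' w0 hj h1' w0' hn hi (hw2.symm.trans e2)

theorem TyAp.inner_Sq (h : TyAp F g) (h' : TySq q F' g') : ∀ p ∈ g.arcs, ∀ w ∈ innA p, w ∉ g'.B := by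
  intro p hp w hw hw'
  obtain ⟨q', n, a, B1, s, B', w0', i, h1', hn, hi, e1⟩ := h.inn60 p hp
  obtain ⟨R, B, S, w0, j, h1, hj, e2, -⟩ := h'.words' w hw'
  have hw2 : w = TT p.1 := hw
  rw [e1] at hw2
  exact h1.rinner_G' w0 hj h1' w0' hn hi (hw2.symm.trans e2)

/-! ### Aq -/

theorem TyRq.inner_Aq (h : TyRq q F g) (h' : TyAq F' g') : ∀ p ∈ g.arcs, ∀ w ∈ innA p, w ∉ g'.B := by
  intro p hp w hw hw'
  obtain ⟨R, B, S, w0, i, h1, hi, rfl, -⟩ := h.inn0 p hp w hw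
  obtain ⟨a, B1, s, B', w0', j, h1', hj, e2⟩ := h'.words _ hw'
  exact h1.rinner_G2 w0 hi h1' w0' hj e2

theorem TySq.inner_Aq (h : TySq q F g) (h' : TyAq F' g') : ∀ p ∈ g.arcs, ∀ w ∈ innA p, w ∉ g'.B := by
  intro p hp w hw hw'
  obtain ⟨R, B, S, w0, i, h1, hi, rfl, -⟩ := h.inn0 p hp w hw
  obtain ⟨a, B1, s, B', w0', j, h1', hj, e2⟩ := h'.words _ hw'
  exact h1.rinner_G2 w0 (mem_S_R9 hi) h1' w0' hj e2

/-- inner words of Aq: only `T` of the word 0, which lies on the new T-cycle -/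
theorem TyAq.inner_Rq (h : TyAq F g) (h' : TyRq q F' g') :
    ∀ p ∈ g.arcs, ∀ w ∈ innA p, w ∈ g'.B → cyc w ∈ F := by
  intro p hp w hw hw'
  obtain ⟨a, B1, s, B', w0', i, h1', hi, e2, hm⟩ := h.inn p hp
  obtain ⟨R, B, S, w0, j, h1, hj, e1, -⟩ := h'.words w hw'
  have hw2 : w = TT p.1 := hw
  have hw3 := hw2
  rw [e2] at hw3
  obtain ⟨rfl, -⟩ := h1.rinner_G2' w0 hj h1' w0' hi (hw3.symm.trans e1)
  rw [cyc_T0 hw2 e2]
  exact hm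

theorem TyAq.inner_Sq (h : TyAq F g) (h' : TySq q F' g') :
    ∀ p ∈ g.arcs, ∀ w ∈ innA p, w ∈ g'.B → cyc w ∈ F := by
  intro p hp w hw hw'
  obtain ⟨a, B1, s, B', w0', i, h1', hi, e2, hm⟩ := h.inn p hp
  obtain ⟨R, B, S, w0, j, h1, hj, e1, -⟩ := h'.words' w hw'
  have hw2 : w = TT p.1 := hw
  have hw3 := hw2
  rw [e2] at hw3
  obtain ⟨rfl, -⟩ := h1.rinner_G2' w0 hj h1' w0' hi (hw3.symm.trans e1)
  rw [cyc_T0 hw2 e2]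
  exact hm

/-! ### Rq, Sq -/

theorem TyRq.inner_Rq (h : TyRq q F g) (h' : TyRq q' F' g') (hd : ∀ c ∈ F, c ∉ F') :
    ∀ p ∈ g.arcs, ∀ w ∈ innA p, w ∉ g'.B := by
  intro p hp w hw hw'
  obtain ⟨R, B, S, w0, i, h1, hi, rfl, m1⟩ := h.inn0 p hp w hw
  obtain ⟨R', B', S', w0', j, h1', hj, e2, m2⟩ := h'.words _ hw'
  obtain ⟨-, e3⟩ := core_RR h1 h1' hi hj e2
  exact hd _ m1 (e3 ▸ m2)

theorem TyRq.inner_Sq (h : TyRq q F g) (h' : TySq q' F' g') (hd : ∀ c ∈ F, c ∉ F') :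
    ∀ p ∈ g.arcs, ∀ w ∈ innA p, w ∉ g'.B := by
  intro p hp w hw hw'
  obtain ⟨R, B, S, w0, i, h1, hi, rfl, m1⟩ := h.inn0 p hp w hw
  obtain ⟨R', B', S', w0', j, h1', hj, e2, m2⟩ := h'.words' _ hw'
  obtain ⟨-, e3⟩ := core_RR h1 h1' hi hj e2
  exact hd _ m1 (e3 ▸ m2)

theorem TySq.inner_Rq (h : TySq q F g) (h' : TyRq q' F' g') : ∀ p ∈ g.arcs, ∀ w ∈ innA p, w ∉ g'.B := by
  intro p hp w hw hw'
  obtain ⟨R, B, S, w0, i, h1, hi, rfl, -⟩ := h.inn0 p hp w hw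
  obtain ⟨R', B', S', w0', j, h1', hj, e2, -⟩ := h'.words _ hw'
  obtain ⟨e3, -⟩ := core_RR h1 h1' (mem_S_R9 hi) hj e2
  exact ne_S0_9 hi e3

theorem TySq.inner_Sq (h : TySq q F g) (h' : TySq q' F' g') : ∀ p ∈ g.arcs, ∀ w ∈ innA p, w ∉ g'.B := by
  intro p hp w hw hw'
  obtain ⟨R, B, S, w0, i, h1, hi, rfl, -⟩ := h.inn0 p hp w hw
  obtain ⟨R', B', S', w0', j, h1', hj, e2, -⟩ := h'.words' _ hw'
  obtain ⟨e3, -⟩ := core_RR h1 h1' (mem_S_R9 hi) hj e2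
  exact ne_S0_9 hi e3

end Pool.OddHC
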