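import Pool.Agent.Work.MP_8f87b2_h2.KHp
import Pool.Agent.Work.MP_8f87b2_h3.A0T2
import Pool.Agent.Work.MP_8f87b2_h4.TJ3V
import Pool.Agent.Work.MP_8f87b2_h4.Links
import Pool.Agent.Work.MP_8f87b2_h4.Ends
import Pool.Agent.Work.MP_8f87b2_h4.J3VE
import Pool.Agent.Work.MP_8f87b2_h4.J3VP
import Pool.Agent.Work.MP_8f87b2_h13.R3D
import Pool.Agent.Work.MP_8f87b2_h20.S5Link
import Pool.Agent.Work.MP_8f87b2_h13.R3E
import Pool.Agent.Work.MP_8f87b2_h13.R3K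
import Pool.Agent.Work.MP_8f87b2_h13.A0Dn
import Pool.Agent.Work.MP_8f87b2_h13.A0Km
import Pool.Agent.Work.MP_8f87b2_h13.R3Km
import Pool.Agent.Work.MP_8f87b2_h13.R3Ed
import Pool.Agent.Work.MP_8f87b2_h27.Ed
import Pool.Agent.Work.MP_8f87b2_h49.JVJs
import Pool.Agent.Work.MP_8f87b2_h49.JVS5
import Pool.Agent.Work.MP_8f87b2_h60.InAq
import Pool.Agent.Work.MP_8f87b2_h61.JsA
import Pool.Agent.Work.MP_8f87b2_h61.JsA0
import Pool.Agent.Work.MP_8f87b2_h61.JsC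
import Pool.Agent.Work.MP_8f87b2_h61.JsE
import Pool.Agent.Work.MP_8f87b2_h61.JsPl
import Pool.Agent.Work.MP_8f87b2_h61.JsT
import Pool.Agent.Work.MP_8f87b2_h63.J4C
import Pool.Agent.Work.MP_8f87b2_h63.J4Pl
import Pool.Agent.Work.MP_8f87b2_h71ae.ALT
import Pool.Agent.Work.MP_8f87b2_h76.TS5
import Pool.Agent.Work.MP_8f87b2_h84.Rows
import Pool.Agent.Work.MP_8f87b2_h89.R3T

/-!
# The rows of the word matrix, on strong predicates (helper36)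

`NC g g'` : no common word. One strong predicate per group type; one theorem per done row.
-/

set_option autoImplicit false

namespace Pool.OddHC

open Finset Equiv BinaryTree Pool.Agent.Work.MP_8f87b2_co

namespace MW

variable {k : ℕ} {F F' : Set (Cyc k)} {g g' : DG k}

/-- no common word -/
def NC (g g' : DG k) : Prop := ∀ w ∈ g.B, w ∉ g'.B

theorem NC.symm (h : NC g g') : NC g' g := fun w hw hw' => h w hw' hw

theorem dsymm (h : ∀ c ∈ F, c ∉ F') : ∀ c ∈ F', c ∉ F := fun c hc hc' => h c hc' hc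

/-! ### The strong predicates -/

/-- left K links: `K'` with the conditions of all rows -/
def KmS (F : Set (Cyc k)) (g : DG k) : Prop :=
  ∃ S : BinaryTree Unit, 2 ≤ OddHC.ht S ∧ (∀ A, S ≠ A △ .nil) ∧ (∀ c m, S ≠ app (H1.ch c) (lp m)) ∧ H1.UM S ∧
    KmSh S ∧ TyK' S F g

theorem KmS.km (h : KmS F g) : TyKm F g := by
  obtain ⟨S, h1, h2, _, _, _, h5⟩ := h
  exact ⟨S, h1, h2, h5⟩

/-- right content links with the conditions of all rows -/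
def CrS (F : Set (Cyc k)) (g : DG k) : Prop :=
  ∃ (c : ℕ) (R : BinaryTree Unit), 2 ≤ c ∧ c + 1 ≤ OddHC.ht R ∧ Odd c ∧ H1.UM R ∧ H1.Hf R ∧ H1.fb R = false ∧
    (∀ n, R ≠ (.nil △ H1.ch (n + 1)) △ .nil) ∧ TyC c R F g

theorem CrS.cr (h : CrS F g) : TyCr F g := by
  obtain ⟨c, R, h1, h2, h3, _, _, _, _, h5⟩ := h
  exact ⟨c, R, h1, h2, h3, h5⟩

/-- left content links with the conditions of all rows -/
def ClS (F : Set (Cyc k)) (g : DG k) : Prop :=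
  ∃ (c : ℕ) (R : BinaryTree Unit), 2 ≤ c ∧ c + 1 ≤ OddHC.ht R ∧ Even c ∧ H1.UM R ∧ H1.Hf R ∧ H1.fb R = false ∧
    TyC' c R F g

theorem ClS.cl (h : ClS F g) : TyCl F g := by
  obtain ⟨c, R, h1, h2, h3, _, _, _, h5⟩ := h
  exact ⟨c, R, h1, h2, h3, h5⟩

/-- the window `A` with the conditions of the row `E` -/
def AEok (F : Set (Cyc k)) (g : DG k) : Prop :=
  ∃ (q : ℕ) (B1 H s B : BinaryTree Unit) (w0 : X k), H1.NodeG k q B1 H s B ∧
    (∀ x ∈ cont B1, q + 3 ≤ x) ∧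
    (1 ≤ (cont (H1.gR B1 H s B)).count 2 ∨
      (1 ≤ q ∧ (q ≤ 2 ∨ 1 ≤ (cont (H1.gR B1 H s B)).count 3))) ∧
    (B ≠ .nil ∨ (q ≠ 1 ∧ (q ≠ 2 ∨ 1 ≤ (cont (H1.gR B1 H s B)).count 2))) ∧
    F = {cyc (H1.gX q B1 H s B w0 0)} ∧ g = gad20 (H1.gX q B1 H s B w0)

/-- every `A` window against every `A` window -/
theorem r_A_A (h : TyA F g) (h' : TyA F' g') (hd : ∀ c ∈ F, c ∉ F') : NC g g' := by
  obtain ⟨q, B1, H, s, B, w0, h1, rfl, rfl⟩ := h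
  obtain ⟨q', B1', H', s', B', w0', h1', rfl, rfl⟩ := h'
  intro w hw hw'
  obtain ⟨i, hi, rfl⟩ := mem_gad20.1 hw
  obtain ⟨j, hj, e⟩ := mem_gad20.1 hw'
  have e0 : H1.gX q' B1' H' s' B' w0' j = H1.gX q' B1' H' s' B' w0 j := by
    apply Subtype.ext
    rw [h1'.word w0' hj, h1'.word w0 hj]
  have e00 : H1.gX q' B1' H' s' B' w0' 0 = H1.gX q' B1' H' s' B' w0 0 := by
    apply Subtype.ext
    rw [h1'.word w0' (by norm_num), h1'.word w0 (by norm_num)]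
  rw [e0] at e
  apply hd _ rfl
  change cyc _ = cyc _
  rw [e00, h1.disj' h1' w0 hi hj e.symm]

/-- `A` against every E triple -/
theorem r_A_E (h : AEok F g) (h' : TyE F' g') : NC g g' := by
  obtain ⟨q, B1, H, s, B, w0, h1, h2, h3, h4, rfl, rfl⟩ := h
  exact NodeG_disj_E' h1 h2 h3 h' w0 h4

theorem r_A_L (h : TyA F g) (h' : TyL F' g') : NC g g' := by
  obtain ⟨R', e, h1, h2, h3, h4, h5⟩ := h'
  have h6 := ht_ins_ge R' e h1
  have : ins R' e ≠ .nil := by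
    intro e0
    rw [e0, OddHC.ht] at h6
    omega
  exact h.disj_L h5 this h3 h4

theorem r_A_K (h : TyA F g) (h' : TyKh F' g') (hd : ∀ c ∈ F, c ∉ F') : NC g g' := dj_AKh _ _ _ _ h h' hd

theorem r_A_Km (h : TyA F g) (h' : KmS F' g') : NC g g' := by
  obtain ⟨S, _, _, _, h1, _, h2⟩ := h'
  exact h.disj_K' h2 h1

theorem r_A_Cr (h : TyA F g) (h' : CrS F' g') : NC g g' := by
  obtain ⟨c, R, _, _, _, h1, _, _, _, h2⟩ := h'
  exact h.disj_C h2 h1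

theorem r_A_Cl (h : TyA F g) (h' : ClS F' g') : NC g g' := by
  obtain ⟨c, R, _, _, _, h1, _, _, h2⟩ := h'
  exact h.disj_C' h2 h1

theorem r_A0_K (h : TyA0 F g) (h' : TyKh F' g') (hd : ∀ c ∈ F, c ∉ F') : NC g g' := dj_A0Kh _ _ _ _ h h' hd

theorem r_B0_K (h : TyB0 F g) (h' : TyKh F' g') (hd : ∀ c ∈ F, c ∉ F') : NC g g' := dj_B0Kh _ _ _ _ h h' hd

theorem r_R3_K (h : TyR3 F g) (h' : TyKh F' g') : NC g g' := by
  obtain ⟨S, h1, h2⟩ := h'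
  exact h.disj_K h1.ksh h2

theorem r_S3_K (h : TyS3 F g) (h' : TyKh F' g') : NC g g' := by
  obtain ⟨S, h1, h2⟩ := h'
  exact h.disj_K h1.ksh h2

theorem r_A0_Km (h : TyA0 F g) (h' : KmS F' g') : NC g g' := by
  obtain ⟨S, _, _, _, _, h1, h2⟩ := h'
  exact h.disj_Km h1 h2

theorem r_B0_Km (h : TyB0 F g) (h' : KmS F' g') : NC g g' := by
  obtain ⟨S, _, _, _, _, h1, h2⟩ := h'
  exact h.disj_Km h1 h2

theorem r_R3_Km (h : TyR3 F g) (h' : KmS F' g') : NC g g' := by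
  obtain ⟨S, _, _, _, _, h1, h2⟩ := h'
  exact h.disj_Km h1 h2

theorem r_S3_Km (h : TyS3 F g) (h' : KmS F' g') : NC g g' := by
  obtain ⟨S, _, _, _, _, h1, h2⟩ := h'
  exact h.disj_Km h1 h2

theorem r_T_Cr (h : TyT F g) (h' : CrS F' g') : NC g g' := by
  obtain ⟨c, R, h1, _, _, _, h2, _, _, h3⟩ := h'
  exact dj_TC' h h3 h1 h2

theorem r_T_Cl (h : TyT F g) (h' : ClS F' g') (hd : ∀ c ∈ F, c ∉ F') : NC g g' := by
  obtain ⟨c, R, h1, _, _, _, h2, _, h3⟩ := h'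
  exact dj_TCl' h h3 h1 h2 hd

theorem r_Kh_ks (h : TyKh F g) : TyKs F g := by
  obtain ⟨S, h1, h2⟩ := h
  refine ⟨S, by have := h1.ht3; omega, ?_, h2⟩
  rintro Y rfl
  have key : ∀ S1 X : BinaryTree Unit, H1.hv S1 → S1 ≠ .nil → (.nil : BinaryTree Unit) △ Y ≠ app S1 X := by
    intro S1 X h3 h4 e
    cases S1 with
    | nil => exact h4 rfl
    | node _ A Z =>
      have e1 : (.nil : BinaryTree Unit) △ Y = A △ app Z X := e
      have e2 := (H1.node_inj e1).1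
      rcases h3.1 with h5 | ⟨h5, _⟩
      · rw [h5] at e2
        exact absurd e2 (by simp)
      · exact h5 e2.symm
  rcases h1 with h1 | h1 | h1 | h1 | h1 | h1
  · obtain ⟨S1, q, e, h3, h4, _⟩ := h1
    exact key _ _ h3 h4 e
  · obtain ⟨S1, q, e, h3, h4⟩ := h1
    exact key _ _ h3 h4 e
  · obtain ⟨S1, q, e, h3, h4⟩ := h1
    exact key _ _ h3 h4 e
  · obtain ⟨S1, q, e, h3, h4⟩ := h1
    exact key _ _ h3 h4 e
  · obtain ⟨S1, A, m, e, h3, h5⟩ := h1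
    by_cases h4 : S1 = .nil
    · rw [h4] at e
      have e1 : (.nil : BinaryTree Unit) △ Y = app A (lp 1) △ lp (m + 1) := e
      have e2 := (H1.node_inj e1).1
      cases A with
      | nil => exact absurd e2 (by intro e3; cases e3)
      | node _ _ _ => exact absurd e2 (by intro e3; cases e3)
    · exact key _ _ h3 h4 e
  · obtain ⟨S1, q, e, h3, h4⟩ := h1
    exact key _ _ h3 h4 e

theorem r_K_S5 (h : TyKh F g) (h' : TyS5 F' g') (hd : ∀ c ∈ F, c ∉ F') : NC g g' :=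
  dj_KsS5 _ _ _ _ (r_Kh_ks h) h' hd

theorem KmS.kms (h : KmS F g) : TyKms F g := by
  obtain ⟨S, h1, _, h2, _, _, h3⟩ := h
  exact ⟨S, h1, h2, h3⟩

theorem r_Km_S5 (h : KmS F g) (h' : TyS5 F' g') (hd : ∀ c ∈ F, c ∉ F') : NC g g' :=
  dj_KmS5 _ _ _ _ h.kms h' hd

theorem r_J1_K (h : J1.TyJs F g) (h' : TyKh F' g') (hd : ∀ c ∈ F, c ∉ F') : NC g g' := by
  obtain ⟨S, h1, h2⟩ := h'
  exact NC.symm (J1.js_K h2 h (dsymm hd) h1.ne)

theorem r_J1_Km (h : J1.TyJs F g) (h' : KmS F' g') (hd : ∀ c ∈ F, c ∉ F') : NC g g' := by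
  obtain ⟨S, h1, _, _, _, _, h2⟩ := h'
  refine NC.symm (J1.js_K' h2 h (dsymm hd) ?_)
  rintro rfl
  rw [OddHC.ht] at h1
  omega

theorem r_J1_L (h : J1.TyJs F g) (h' : TyL F' g') (hd : ∀ c ∈ F, c ∉ F') : NC g g' :=
  NC.symm (J1.js_L h' h (dsymm hd))

theorem r_J1_Cr (h : J1.TyJs F g) (h' : CrS F' g') (hd : ∀ c ∈ F, c ∉ F') : NC g g' := by
  obtain ⟨c, R, h1, h2, _, _, _, h3, h4, h5⟩ := h'
  exact NC.symm (J1.js_C h5 h (dsymm hd) h1 h2 h3 h4)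

theorem r_J1_Cl (hk : 13 ≤ k) (h : J1.TyJs F g) (h' : ClS F' g') (hd : ∀ c ∈ F, c ∉ F') : NC g g' := by
  obtain ⟨c, R, h1, h2, _, _, _, h3, h5⟩ := h'
  exact NC.symm (J1.js_C' h5 h (dsymm hd) h1 h2 h3 hk)

theorem r_J1_A0 (hk : 13 ≤ k) (h : J1.TyJs F g) (h' : TyA0 F' g') (hm : M2 F') : NC g g' :=
  NC.symm (J1.js_A0 h' h hk hm)

theorem r_J1_T (hk : 13 ≤ k) (h : J1.TyJs F g) (h' : TyT F' g') : NC g g' := NC.symm (J1.js_T h' h hk)

/-- the nine word gadget `JV` over `Z` without part 1 -/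
def JVS (F : Set (Cyc k)) (g : DG k) : Prop :=
  ∃ Z : BinaryTree Unit, (OddHC.cont Z).count 1 = 0 ∧ 3 ≤ OddHC.ht Z ∧ Is9 .nil .nil Z F g

theorem r_J1_JV (hk : 11 ≤ k) (h : J1.TyJs F g) (h' : JVS F' g') (hd : ∀ c ∈ F, c ∉ F') : NC g g' := by
  obtain ⟨Z, h1, h2, h3⟩ := h'
  exact Finset.disjoint_left.1 (h.disj_JV hk h3 (Set.disjoint_left.2 hd) h1 h2)

theorem r_S5_JV (h : TyS5 F g) (h' : JVS F' g') : NC g g' := by
  obtain ⟨Z, h1, h2, h3⟩ := h'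
  exact Finset.disjoint_left.1 (h.disj_JV h3 h1 (by omega))

/-- `S5` (helper20's links) against `S5` -/
theorem r_S5_S5 (h : TyS5l F g) (h' : TyS5l F' g') (hd : ∀ c ∈ F, c ∉ F') : NC g g' := by
  obtain ⟨s, n, hs, hn, h | ⟨_, h⟩⟩ := h
  · obtain ⟨s', n', hs', hn', h' | ⟨_, h'⟩⟩ := h'
    · exact dj_LoLo (by omega) (by omega) (by omega) (by omega) h h' hd
    · exact dj_LoK2 (by omega) hs hs' h h' hd
  · obtain ⟨s', n', hs', hn', h' | ⟨_, h'⟩⟩ := h'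
    · exact NC.symm (dj_LoK2 (by omega) hs' hs h' h (dsymm hd))
    · exact dj_K2K2 hs hs' h h' hd

/-- deep E triples against LONG: the hop pair of `()^n([s])` is not matched -/
def sEdLo (F F' : Set (Cyc k)) (g' : DG k) : Prop :=
  ∃ n s, 3 ≤ s ∧ 2 ≤ n ∧ (TyK2 n s F' g' ∨ (TyLo (n + 2) s F' g' ∧ ∀ w w' : X k,
      w.1 = .nil △ w1 (lp (n + 1)) (H1.ch s) .nil →
      w'.1 = app (w1 (lp (n + 1)) (H1.ch s) .nil) (.nil △ .nil) → F ≠ {cyc w', cyc w}))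

theorem r_Ed_S5 (h : TyEd F g) (hd : ∀ c ∈ F, c ∉ F') (h1 : sEdLo F F' g') : NC g g' := by
  obtain ⟨j, r, f, hj, hD, ht⟩ := h
  obtain ⟨n, s, hs, hn, h' | ⟨h', h1⟩⟩ := h1
  · refine E_K2 (by omega) ht h' ?_ hd
    intro e
    have hl : (lf f).length = 2 * r.1.numNodes + 1 := by rw [lf_length, X_num]
    have e2 : (cont (ins r.1 (lf f))).count 2 = 0 := by
      rw [H1.count_ins hl 0]; exact hD.1
    rw [e, cont_node, Multiset.count_add] at e2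
    have : (cont (H1.ch 2)).count 2 = 1 := by decide
    omega
  · refine E_Lo (by omega) (by omega) ht h' ?_ hd
    intro e
    rw [e] at ht
    obtain ⟨a, b, c, ha, hb, hc, q1, q2, q3, q4, q5⟩ := ht
    exact h1 c b hc hb q4

theorem r_J4_K (h : J1.TyJt F g) (h' : TyKh F' g') (hd : ∀ c ∈ F, c ∉ F') : NC g g' := by
  obtain ⟨S, h1, h2⟩ := h'
  exact NC.symm (J1.jt_K h2 h (dsymm hd) h1.ne)

theorem r_J4_Km (h : J1.TyJt F g) (h' : KmS F' g') (hd : ∀ c ∈ F, c ∉ F') : NC g g' := by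
  obtain ⟨S, h1, _, _, _, _, h2⟩ := h'
  refine NC.symm (J1.jt_K' h2 h (dsymm hd) ?_)
  rintro rfl
  rw [OddHC.ht] at h1
  omega

theorem r_J4_L (h : J1.TyJt F g) (h' : TyL F' g') (hd : ∀ c ∈ F, c ∉ F') : NC g g' :=
  NC.symm (J1.jt_L h' h (dsymm hd))

/-- the content links against `J1` mirrored, `c = 4`: the exceptional content -/
def sJ4C (F : Set (Cyc k)) : Prop := ∀ c ∈ F, contc c ≠ {k - 4} + {3} + {1} ∧ 4 ∉ contc c

/-- E against J1 -/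
def sE_J1 (k : ℕ) (F : Set (Cyc k)) (g : DG k) : Prop :=
  ∃ X, IsTri .nil X .nil F g ∧ ∀ n, 3 ≤ n → n + 6 = k → ¬ J1.CrX n X

/-- E against J1 mirrored -/
def sE_J4 (k : ℕ) (F : Set (Cyc k)) (g : DG k) : Prop :=
  ∃ X, IsTri .nil X .nil F g ∧ ∀ n, 4 ≤ n → n + 7 = k → ¬ J1.CrY n (Tsq.mir X)

/-- **an E triple against the words of J1** -/
theorem r_J1_E' (h : J1.TyJs F g) (h' : TyE F' g') (hd : ∀ c ∈ F, c ∉ F')
    (hs : (∃ c ∈ F', 2 ∈ contc c ∨ 3 ∈ contc c) ∨ sE_J1 k F' g') : NC g g' := by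
  rcases hs with hs | ⟨X, ht, hs⟩
  · exact NC.symm (J1.js_E h' h (dsymm hd) hs)
  · exact NC.symm (J1.js_E' ht h (dsymm hd) hs)

theorem r_J4_E' (h : J1.TyJt F g) (h' : TyE F' g') (hd : ∀ c ∈ F, c ∉ F')
    (hs : (∃ c ∈ F', 2 ∈ contc c ∨ 3 ∈ contc c) ∨ sE_J4 k F' g') : NC g g' := by
  rcases hs with hs | ⟨X, ht, hs⟩
  · obtain ⟨j, r, f, _, _, ht⟩ := h'
    exact NC.symm (J1.jt_E ht h (dsymm hd) hs)
  · exact NC.symm (J1.jt_E' ht h (dsymm hd) hs)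

/-- the hop pair of `(S)` is not matched, `S` a left K word of `F'` -/
def hneKm (F F' : Set (Cyc k)) (g' : DG k) : Prop :=
  ∃ S, 2 ≤ OddHC.ht S ∧ TyK' S F' g' ∧ ∀ w w' : X k, w.1 = .nil △ (S △ .nil) →
    w'.1 = app (S △ .nil) (.nil △ .nil) → F ≠ {cyc w', cyc w}

/-- the hop pair of `(S)` is not matched, `S` a right K word of `F'` -/
def hneK (F F' : Set (Cyc k)) (g' : DG k) : Prop :=
  ∃ S, 2 ≤ OddHC.ht S ∧ TyK S F' g' ∧ ∀ w w' : X k, w.1 = .nil △ (S △ .nil) →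
    w'.1 = app (S △ .nil) (.nil △ .nil) → F ≠ {cyc w', cyc w}

/-- E triples against left K links -/
theorem r_E_Km (h : TyE F g) (hd : ∀ c ∈ F, c ∉ F') (hs : hneKm F F' g') : NC g g' := by
  obtain ⟨j, r, f, _, _, ht⟩ := h
  obtain ⟨S, h1, h2, hne⟩ := hs
  refine conflict_EKm ht h2 h1 hd ?_
  intro e
  rw [e] at ht
  obtain ⟨a, b, c, ha, hb, hc, q1, q2, q3, q4, q5⟩ := ht
  exact hne c b hc hb q4

/-- E triples against right K links -/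
theorem r_E_K (h : TyE F g) (hd : ∀ c ∈ F, c ∉ F') (hs : hneK F F' g') : NC g g' := by
  obtain ⟨j, r, f, _, _, ht⟩ := h
  obtain ⟨S, h1, h2, hne⟩ := hs
  exact E_K ht h2 h1 hd hne

end MW

end Pool.OddHC
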