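import Pool.Agent.Work.MP_8f87b2_fin.MatY
import Pool.Agent.Work.MP_8f87b2_h14.P5S
import Pool.Agent.Work.MP_8f87b2_h35.TyRqE
import Pool.Agent.Work.MP_8f87b2_h76.FyRows
import Pool.Agent.Work.MP_8f87b2_h13.RqC
import Pool.Agent.Work.MP_8f87b2_h19.ClL1
import Pool.Agent.Work.MP_8f87b2_h32.L1K2
import Pool.Agent.Work.MP_8f87b2_h32.L1K3
import Pool.Agent.Work.MP_8f87b2_h84.TyJEM
import Pool.Agent.Work.MP_8f87b2_h86.LEx

/-!
# The word matrix: further types (helper36)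

`TyEnG`, `RES`, `JEMS`, `P5D`, `P5M`; rows of `TyFz`.
-/

set_option autoImplicit false

namespace Pool.OddHC

open Finset Equiv BinaryTree Pool.Agent.Work.MP_8f87b2_co

section

variable {S : BinaryTree Unit}

theorem fb_appc {S1 : BinaryTree Unit} (h : S1 ≠ .nil) (X : BinaryTree Unit) : H1.fb (app S1 X) = H1.fb S1 := by
  cases S1 with
  | nil => exact absurd rfl h
  | node _ A Y => rfl

theorem KHp.fb0 (h : KHp S) : H1.fb S = false := by
  rcases h with ⟨S1, q, rfl, h1, h2, h3⟩ | ⟨S1, q, rfl, h1, h2⟩ | ⟨S1, m, rfl, h1, h2⟩ | ⟨S1, q, rfl, h1, h2⟩ |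
    ⟨S1, A, m, rfl, h1, h3⟩ | ⟨S1, a, rfl, h1, h2⟩
  · rw [fb_appc h2, H1.hv_fb h1]
  · rw [fb_appc h2, H1.hv_fb h1]
  · rw [fb_appc h2, H1.hv_fb h1]
  · rw [fb_appc h2, H1.hv_fb h1]
  · by_cases h4 : S1 = .nil
    · subst h4
      rcases h3 with ⟨h3, _⟩ | ⟨_, h3⟩
      · exact absurd rfl h3
      · change H1.fb (app A (lp 1) △ lp (m + 1)) = false
        exact H1.isNil_f.2 (fun e => h3 (H1.app_eq_nil.1 e).1)
    · rw [fb_appc h4, H1.hv_fb h1]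
  · rw [fb_appc h2, H1.hv_fb h1]

theorem KHp.c12 (h : KHp S) : (cont S).count 2 = 0 ∨ (cont S).count 1 = 0 := by
  have c2 : ∀ {S1 : BinaryTree Unit}, H1.hv S1 → 2 ∉ cont S1 := fun h1 h2 => by
    have := hv_part h1 2 h2
    omega
  have c1 : ∀ {S1 : BinaryTree Unit}, H1.hv S1 → 1 ∉ cont S1 := fun h1 h2 => by
    have := hv_part h1 1 h2
    omega
  have l1 : ∀ m, 2 ∉ cont (lp m) := by
    intro m h
    rw [cont_lp29] at h
    have := Multiset.eq_of_mem_replicate h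
    omega
  have p1 : ∀ q, 2 ∉ cont (pc (q + 3)) := by
    intro q h
    rw [cont_pc, Multiset.mem_singleton] at h
    omega
  have n1 : 2 ∉ raise (cont (.nil : BinaryTree Unit)) := by
    rw [cont_nil, raise_zero, Multiset.mem_singleton]
    omega
  rcases h with ⟨S1, q, rfl, h1, h2, h3⟩ | ⟨S1, q, rfl, h1, h2⟩ | ⟨S1, m, rfl, h1, h2⟩ | ⟨S1, q, rfl, h1, h2⟩ |
    ⟨S1, A, m, rfl, h1, h3⟩ | ⟨S1, a, rfl, h1, h2⟩
  · left
    rw [Multiset.count_eq_zero]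
    intro h2
    have := h3 2 h2
    omega
  · left
    rw [Multiset.count_eq_zero, cont_app, cont_node, Multiset.mem_add, Multiset.mem_add]
    rintro (h | h | h)
    · exact c2 h1 h
    · exact n1 h
    · exact p1 q h
  · left
    rw [Multiset.count_eq_zero, cont_app, Multiset.mem_add]
    rintro (h | h)
    · exact c2 h1 h
    · exact l1 _ h
  · left
    rw [Multiset.count_eq_zero, cont_app, cont_node, cont_app, Multiset.mem_add, Multiset.mem_add, Multiset.mem_add]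
    rintro (h | h | h | h)
    · exact c2 h1 h
    · exact n1 h
    · exact p1 q h
    · exact l1 _ h
  · left
    rw [Multiset.count_eq_zero, cont_app, cont_node, cont_app, Multiset.mem_add, Multiset.mem_add]
    rintro (h | h | h)
    · exact c2 h1 h
    · unfold raise at h
      rw [Multiset.mem_cons] at h
      rcases h with h | h
      · have h5 : 2 ≤ (cont A + cont (lp 1)).sup := by
          rcases h3 with ⟨_, rfl⟩ | ⟨h3, h4⟩
          · exact Multiset.le_sup (Multiset.mem_add.2 (Or.inl (by rw [cont_pc]; exact Multiset.mem_singleton_self _)))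
          · have h6 := hv_ht_kh h3 h4
            rw [ht_eq] at h6
            rw [Multiset.sup_add]
            exact le_trans (by omega) le_sup_left
        omega
      · rcases h3 with ⟨_, rfl⟩ | ⟨h3, h4⟩
        · have e : (cont (pc 2) + cont (lp 1)) = {2} + {1} := rfl
          rw [e] at h
          revert h
          decide
        · rcases Multiset.mem_add.1 (Multiset.mem_of_mem_erase h) with h | h
          · exact c2 h3 h
          · exact l1 _ h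
    · exact l1 _ h
  · right
    rw [Multiset.count_eq_zero, cont_app, Multiset.mem_add]
    rintro (h | h)
    · exact c1 h1 h
    · rw [cont_lv2, cont_nil, add_zero] at h
      have := Multiset.eq_of_mem_replicate h
      omega

end

namespace MW

variable {k : ℕ} {F F' : Set (Cyc k)} {g g' : DG k}

/-- early E triples, not bad for L1 -/
def TyEnG (F : Set (Cyc k)) (g : DG k) : Prop := TyEn F g ∧ ∀ Y, IsTri .nil Y .nil F g → ¬ L1.BadE Y

/-- right windows merged with an E pair -/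
def RES (F : Set (Cyc k)) (g : DG k) : Prop := ∃ q, TyRqE q F g

/-- the gadget JE, mirrored -/
def JEMS (F : Set (Cyc k)) (g : DG k) : Prop := ∃ S : BinaryTree Unit, TyJEM S F g

/-- the plain 5-cycle -/
def P5DS (F : Set (Cyc k)) (g : DG k) : Prop := ∃ S : BinaryTree Unit, TyP5D S F g

/-- the plain 5-cycle, mirrored -/
def P5MS (F : Set (Cyc k)) (g : DG k) : Prop := ∃ S : BinaryTree Unit, TyP5MD S F g

/-! ### merged right windows: transfer -/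

/-- the words of a merged window are the words of the window -/
theorem RES.toR (h : RES F g) : ∃ (c : Cyc k) (g1 : DG k), c ∈ F ∧ (∃ q, 1 ≤ q ∧ TyRq q {c} g1) ∧
    ∀ w, w ∈ g.B ↔ w ∈ g1.B := by
  obtain ⟨q, R, S, w0, h1, h2, h3, rfl, rfl⟩ := h
  refine ⟨_, _, Or.inl rfl, ⟨q, h2, R, .nil, S, w0, h1, h3, rfl, rfl⟩, ?_⟩
  intro w
  exact mem_gadB11.trans mem_gad20.symm

theorem RES.nc (h : RES F g) (row : ∀ (c : Cyc k) (g1 : DG k), c ∈ F → RqS {c} g1 → NC g1 g') : NC g g' := by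
  obtain ⟨c, g1, h1, ⟨q, h2, h3⟩, h4⟩ := h.toR
  intro w hw
  exact row c g1 h1 (Or.inr ⟨q, h2, h3⟩) w ((h4 w).1 hw)

theorem single_hd {c : Cyc k} (hc : c ∈ F) (hd : ∀ c ∈ F, c ∉ F') : ∀ d ∈ ({c} : Set (Cyc k)), d ∉ F' := by
  rintro d rfl
  exact hd _ hc

theorem r_R_J33 (h : RqS F g) (h' : TyJ33Q F' g') : NC g g' := by
  obtain ⟨q, h⟩ := h.rq
  exact TyRq.dis_J33 (Or.inl h) h'

/-- E triples against the merged windows: no condition -/
theorem r_E_RE (h : TyE F g) (h' : RES F' g') (hd : ∀ c ∈ F, c ∉ F') : NC g g' := by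
  obtain ⟨q, R, S, w0, h1, h2, h3, rfl, rfl⟩ := h'
  intro w hw hw'
  obtain ⟨i, hi, rfl⟩ := mem_gadB11.1 hw'
  rcases h1.rE_low h2 h w0 hi hw with ⟨-, -, -, rfl⟩ | ⟨-, -, -, rfl⟩
  · exact hd _ (Or.inl rfl) (Or.inr (Or.inl rfl))
  · exact hd _ (Or.inr rfl) (Or.inr (Or.inr rfl))

/-- the side of the merged windows against JV -/
def sRE_JV (F' : Set (Cyc k)) (g' : DG k) : Prop :=
  ∃ Z : BinaryTree Unit, Is9 .nil .nil Z F' g' ∧ (OddHC.cont Z).count 1 = 0 ∧ 3 ≤ OddHC.ht Z ∧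
    (2 ∈ OddHC.cont Z ∨ ∀ Y, Z ≠ Y △ .nil)

theorem r_RE_JV (h : RES F g) (hs : sRE_JV F' g') : NC g g' := by
  obtain ⟨Z, h1, h2, h3, h4⟩ := hs
  obtain ⟨c, g1, _, ⟨q, h5, h6⟩, h7⟩ := h.toR
  intro w hw
  rcases h4 with h4 | h4
  · exact Finset.disjoint_left.1 (J1V.tyRq_JV2 h6 h1 h2 h4 h3) ((h7 w).1 hw)
  · rcases Nat.lt_or_ge 1 q with h8 | h8
    · exact Finset.disjoint_left.1 (J1V.tyRq_JV5 h8 h6 h1 h2 (by omega)) ((h7 w).1 hw)
    · obtain rfl : q = 1 := by omega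
      exact Finset.disjoint_left.1 (J1V.tyRq_JV4 h6 h1 h2 (by omega) h4) ((h7 w).1 hw)

/-- the side of the merged windows against JV mirrored -/
def sRE_JVm (F' : Set (Cyc k)) (g' : DG k) : Prop :=
  ∃ Z : BinaryTree Unit, Is9M .nil .nil Z F' g' ∧ (OddHC.cont Z).count 1 = 0 ∧ 3 ≤ OddHC.ht Z ∧
    (2 ∈ OddHC.cont Z ∨ ∀ Y, Z ≠ Y △ .nil)

theorem r_RE_JVm (h : RES F g) (hs : sRE_JVm F' g') : NC g g' := by
  obtain ⟨Z, h1, h2, h3, h4⟩ := hs
  obtain ⟨c, g1, _, ⟨q, h5, h6⟩, h7⟩ := h.toR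
  intro w hw
  rcases h4 with h4 | h4
  · exact Finset.disjoint_left.1 (J1V.tyRq_JVm2 h6 h1 h2 h4 h3) ((h7 w).1 hw)
  · rcases Nat.lt_or_ge 1 q with h8 | h8
    · exact Finset.disjoint_left.1 (J1V.tyRq_JVm5 h8 h6 h1 h2 (by omega)) ((h7 w).1 hw)
    · obtain rfl : q = 1 := by omega
      exact Finset.disjoint_left.1 (J1V.tyRq_JVm4 h6 h1 h2 (by omega) h4) ((h7 w).1 hw)

/-! ### Fz -/

/-- the window is no child of a link: smallest part at least twice, or `R` not prime, or no part one larger -/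
def sFz_R (F' : Set (Cyc k)) (g' : DG k) : Prop :=
  M2 F' ∨ ∃ (q : ℕ) (R B S : BinaryTree Unit) (w0 : X k), 1 ≤ q ∧ HM.NodeM k q R B S ∧
    F' = {cyc (H1.wX R B S q w0 0)} ∧ g' = gad20 (H1.wX R B S q w0) ∧
    ((∀ A, R ≠ A △ .nil) ∨ (q + 4 ∉ cont R ∧ 2 ≤ Multiset.card (cont R)))

theorem r_Fz_R (h : TyFz F g) (h' : RqS F' g') (hs : sFz_R F' g') (hd : ∀ c ∈ F, c ∉ F') : NC g g' := by
  obtain ⟨c, U, h1, h2⟩ := h
  have := h1.c3
  rcases hs with hs | ⟨q, R, B, S, w0, hq, h3, rfl, rfl, h4⟩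
  · rcases h' with h' | ⟨q, hq, h'⟩
    · exact NC.symm (h'.toR3.disj_Cr h2 h1.c3 h1.ht fun x hx => Or.inr (h1.part x hx))
    · obtain ⟨R, B, S, w0, h3, h4, rfl, rfl⟩ := h'
      intro w hw hw'
      obtain ⟨i, hi, rfl⟩ := mem_gad20.1 hw'
      exact hd _ (h3.rq_Cb hq (by omega) h1.part h1.mem (Or.inl (hs.memr h3 rfl)) h2 w0 hi hw) rfl
  · intro w hw hw'
    obtain ⟨i, hi, rfl⟩ := mem_gad20.1 hw'
    exact hd _ (h3.rq_Cb hq (by omega) h1.part h1.mem (Or.inr h4) h2 w0 hi hw) rfl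

/-- the words of JE -/
theorem JE_wds {R : BinaryTree Unit} (h : TyJE R F g) : ∀ w ∈ g.B, ∃ (B S : BinaryTree Unit) (i : ℕ), i < 20 ∧
    w.1 = H1.W R .nil B S i := by
  obtain ⟨B, S, w0, h1, hp, -, rfl⟩ := h
  intro w hw
  unfold gadG13 at hw
  obtain ⟨i, hi, rfl⟩ := mem_gadOf_B.1 hw
  have hall : ∀ i ∈ ixG13, i < 20 := by decide
  exact ⟨B, S, i, hall i hi, h1.word w0 (hall i hi)⟩

theorem r_Fz_JEm (h : TyFz F g) (h' : JEMS F' g') : NC g g' := by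
  obtain ⟨S, h'⟩ := h'
  obtain ⟨F0, g0, h1, h2, _, _⟩ := h'.mirr
  intro w hw hw'
  obtain ⟨B, S', i, hi, e⟩ := JE_wds h1 _ ((h2 w).1 hw')
  exact (h.fyp w hw).mir.not_W hi e

theorem r_Fz_JVm (h : TyFz F g) (h' : JVMS F' g') : NC g g' := by
  obtain ⟨Z, _, _, h'⟩ := h'
  intro w hw hw'
  obtain ⟨j, hj, e, _⟩ := h'.words w hw'
  have e1 : Tsq.mir (w9LM .nil .nil Z (xTM Z) j) = w9L .nil .nil (Tsq.mir Z) (xT (Tsq.mir Z)) j :=
    mir_w9LM .nil .nil Z (xT (Tsq.mir Z)) j hj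
  have e2 : w9L .nil .nil (Tsq.mir Z) (xT (Tsq.mir Z)) j = w9 (Tsq.mir Z) (xT (Tsq.mir Z)) j := by
    interval_cases j <;> rfl
  have h3 := (h.fyp w hw).mir
  rw [e, e1, e2] at h3
  exact h3.not_w9 hj rfl

theorem r_Fz_L1 (h : TyFz F g) (h' : TyL1 F' g') : NC g g' := by
  intro w hw hw'
  obtain ⟨n, R, B, S, i, _, hi, _, _, e | e⟩ := h'.word hw'
  · exact (h.fyp w hw).not_W hi e
  · exact (h.fyp w hw).not_Wm hi e

/-! ### L1 -/

theorem r_K_L1 (h : TyKh F g) (h' : TyL1 F' g') : NC g g' := by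
  obtain ⟨S, h1, h2⟩ := h
  intro w hw hw'
  exact h'.disj_K h1.ne h1.fb0 h1.c12 h2 hw' hw

/-- left K links against L1 -/
def sKm_L1 (F : Set (Cyc k)) (g : DG k) : Prop := ∃ U, U ≠ .nil ∧ L1.KmOK U ∧ TyK' U F g

theorem r_Km_L1 (h' : TyL1 F' g') (hs : sKm_L1 F g) : NC g g' := by
  obtain ⟨U, h1, h2, h3⟩ := hs
  intro w hw hw'
  exact h'.disj_Km h1 h2 h3 hw' hw

/-- left content links against L1 -/
def sCl_L1 (F : Set (Cyc k)) (g : DG k) : Prop :=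
  ∃ c U, TyC' c U F g ∧ 2 ≤ c ∧ c + 1 ≤ OddHC.ht U ∧ Even c ∧ (c = 2 → L1C.ClOk U)

theorem r_Cl_L1 (h' : TyL1 F' g') (hd : ∀ c ∈ F, c ∉ F') (hs : sCl_L1 F g) : NC g g' := by
  obtain ⟨c, U, h1, h2, h3, h4, h5⟩ := hs
  exact NC.symm (h'.disj_Cl h2 h3 h4 h1 h5 (dsymm hd))

/-! ### DOWN links against the right windows with `q ≥ 1` -/

/-- DOWN links against the right windows -/
def sDn_Rq (F F' : Set (Cyc k)) (g g' : DG k) : Prop :=
  sDn_R F F' g g' ∨ ∃ (q : ℕ) (U R B S : BinaryTree Unit) (w0 : X k), 1 ≤ q ∧ TyC 2 U F g ∧ HM.NodeM k q R B S ∧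
    F' = {cyc (H1.wX R B S q w0 0)} ∧ g' = gad20 (H1.wX R B S q w0) ∧
    ((DnSh U ∧ (q = 1 → ∀ n, B = pc n → ∃ x ∈ cont S, x ≤ n)) ∨ (((∀ x ∈ cont U, 3 ≤ x) ∧ 3 ∈ cont U) ∧
      (q + 3 ∈ cont R ∨ (∀ A, R ≠ A △ .nil) ∨ (q + 4 ∉ cont R ∧ 2 ≤ Multiset.card (cont R)))))

theorem r_Dn_Rq (hd : ∀ c ∈ F, c ∉ F') (hs : sDn_Rq F F' g g') : NC g g' := by
  rcases hs with hs | ⟨q, U, R, B, S, w0, hq, h1, h2, rfl, rfl, h3 | ⟨⟨h3, h4⟩, h5⟩⟩
  · exact r_Dn_R hd hs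
  · intro w hw hw'
    obtain ⟨i, hi, rfl⟩ := mem_gad20.1 hw'
    exact h2.rq_Dn hq h3.1 h3.2 h1 w0 hi hw
  · intro w hw hw'
    obtain ⟨i, hi, rfl⟩ := mem_gad20.1 hw'
    exact hd _ (h2.rq_Cb hq (le_refl 2) h3 h4 h5 h1 w0 hi hw) rfl

end MW

end Pool.OddHC
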