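import Pool.Agent.Work.MP_8f87b2_fin.MatIR
import Pool.Agent.Work.MP_8f87b2_fin.MatIRq
import Pool.Agent.Work.MP_8f87b2_fin.MatZ
import Pool.Agent.Work.MP_8f87b2_h13.RqI
import Pool.Agent.Work.MP_8f87b2_h25.JEM
import Pool.Agent.Work.MP_8f87b2_h33.InRq
import Pool.Agent.Work.MP_8f87b2_h59.RqJ
import Pool.Agent.Work.MP_8f87b2_h63.RqJ
import Pool.Agent.Work.MP_8f87b2_h74.InJt
import Pool.Agent.Work.MP_8f87b2_h76.FyRows
import Pool.Agent.Work.MP_8f87b2_h89.RqC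
import Pool.Agent.Work.MP_8f87b2_h89.RqT
import Pool.Agent.Work.MP_8f87b2_h89.RqW

/-!
# MP_8f87b2_co: the inner words of the right windows `RqS` (`c = 3`: `TyR3c`; `q ≥ 1`: `TyRq`) against all types
-/

set_option autoImplicit false

namespace Pool.OddHC

open Finset Equiv BinaryTree Pool.Agent.Work.MP_8f87b2_co

namespace MW

variable {k : ℕ} {F F' : Set (Cyc k)} {g g' : DG k}

theorem i_R_Ed (h' : TyEd F' g') (hs : TyR3c F g ∨ NI g g') : NI g g' := by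
  rcases hs with hs | hs
  · exact i_R3_Ed hs.toR3 h'
  · exact hs

theorem i_R_L (h : RqS F g) (h' : TyL F' g') : NI g g' := by
  obtain ⟨q, h⟩ := h.rq
  exact h.inner_L h'

theorem i_R_K (h : RqS F g) (h' : TyKh F' g') : NI g g' := by
  obtain ⟨q, h⟩ := h.rq
  obtain ⟨S, _, h2⟩ := h'
  exact h.inner_K h2

theorem i_R_Km (h : RqS F g) (h' : KmS F' g') : NI g g' := by
  obtain ⟨q, h⟩ := h.rq
  obtain ⟨S, _, _, _, _, _, h2⟩ := h'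
  exact h.inner_K' h2

/-- right content links against the inner words of right windows -/
def siRq_Cr (F F' : Set (Cyc k)) (g g' : DG k) : Prop :=
  (∃ c U, TyC c U F' g' ∧ 1 ≤ c ∧ H1.vb 0 U ∧ (∀ x ∈ cont U, x = 1 ∨ c + 1 ≤ x) ∧ c + 1 ≤ OddHC.ht U) ∨
    (∃ q c U, TyRq q F g ∧ TyC c U F' g' ∧ 1 ≤ c ∧ c ≤ q + 1) ∨ (TyR3 F g ∧ siR_Cr F F' g')

/-- left content links against the inner words of right windows -/
def siRq_Cl (F F' : Set (Cyc k)) (g g' : DG k) : Prop :=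
  (∃ c U, TyC' c U F' g' ∧ 1 ≤ c ∧ H1.vb 0 U ∧ (∀ x ∈ cont U, x = 1 ∨ c + 1 ≤ x) ∧ c + 1 ≤ OddHC.ht U) ∨
    (∃ q c U, TyRq q F g ∧ TyC' c U F' g' ∧ 1 ≤ c ∧ c ≤ q + 1) ∨ (TyR3 F g ∧ siR_Cl F F' g') ∨
    ∃ (U : BinaryTree Unit) (n : ℕ) (v : List Bool), TyC' 2 U F' g' ∧ n ≤ 2 ∧
      wd U = v ++ true :: List.replicate n false

theorem TyRq.inner_Cc {q c : ℕ} {U : BinaryTree Unit} (h : TyRq q F g) (h' : TyC c U F' g') (hc : 1 ≤ c)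
    (hq : c ≤ q + 1) : NI g g' := by
  intro p hp w hw hw'
  obtain ⟨R, B, S, w0, i, h1, hi, rfl, -⟩ := h.inn0 p hp w hw
  exact h1.inn_C w0 hi hc hq h' hw'

theorem TyRq.inner_Cc' {q c : ℕ} {U : BinaryTree Unit} (h : TyRq q F g) (h' : TyC' c U F' g') (hc : 1 ≤ c)
    (hq : c ≤ q + 1) : NI g g' := by
  intro p hp w hw hw'
  obtain ⟨R, B, S, w0, i, h1, hi, rfl, -⟩ := h.inn0 p hp w hw
  exact h1.inn_C' w0 hi hc hq h' hw'

theorem i_R_C (h : RqS F g) (hd : ∀ c ∈ F, c ∉ F') (hle : ∀ c ∈ F, ∀ d ∈ F', htc c ≤ htc d)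
    (hs : siRq_Cr F F' g g') : NI g g' := by
  rcases hs with ⟨c, U, h1, h2, h3, h4, h5⟩ | ⟨q, c, U, h1, h2, h3, h4⟩ | ⟨h1, h2⟩
  · obtain ⟨q, h⟩ := h.rq
    exact h.inner_Cr h1 h2 h3 h4 h5 hd hle
  · exact TyRq.inner_Cc h1 h2 h3 h4
  · exact i_R3_C h1 hd hle h2

theorem i_R_C' (h : RqS F g) (hd : ∀ c ∈ F, c ∉ F') (hle : ∀ c ∈ F, ∀ d ∈ F', htc c ≤ htc d)
    (hs : siRq_Cl F F' g g') : NI g g' := by
  rcases hs with ⟨c, U, h1, h2, h3, h4, h5⟩ | ⟨q, c, U, h1, h2, h3, h4⟩ | ⟨h1, h2⟩ | ⟨U, n, v, h1, h2, h3⟩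
  · obtain ⟨q, h⟩ := h.rq
    exact h.inner_Cl h1 h2 h3 h4 h5 hd hle
  · exact TyRq.inner_Cc' h1 h2 h3 h4
  · exact i_R3_C' h1 hd hle h2
  · obtain ⟨q, h⟩ := h.rq
    exact h.inner_Cl2 h1 h2 h3

theorem i_R_Dn (h : RqS F g) (h' : TyDn F' g') (hd : ∀ c ∈ F, c ∉ F') (hs : (∀ q, TyRq q F g → 1 ≤ q) ∨ siR_Dn F' g') :
    NI g g' := by
  rcases h with h | ⟨q, hq, h⟩
  · rcases hs with hs | hs
    · exact absurd (hs 0 h.toR3.toRq) (by omega)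
    · exact i_R3_Dn h.toR3 hd hs
  · obtain ⟨U, _, h2⟩ := h'
    exact TyRq.inner_Cc h h2 (by omega) (by omega)

theorem i_R_Fz (h : RqS F g) (h' : TyFz F' g') (hd : ∀ c ∈ F, c ∉ F') (hle : ∀ c ∈ F, ∀ d ∈ F', htc c ≤ htc d)
    (hs : TyR3c F g ∨ NI g g') : NI g g' := by
  rcases hs with hs | hs
  · exact i_R3_Fz hs.toR3 h' hd hle
  · exact hs

theorem i_R_S5 (h : RqS F g) (h' : TyS5l F' g') : NI g g' := by
  obtain ⟨q, h⟩ := h.rq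
  exact h.inner_S5 h'.toS5

theorem i_R_A (h : RqS F g) (h' : TyAp F' g') : NI g g' := by
  obtain ⟨q, h⟩ := h.rq
  exact h.inner_Ap h'

theorem i_R_Aq (h : RqS F g) (h' : TyAq F' g') : NI g g' := by
  obtain ⟨q, h⟩ := h.rq
  exact h.inner_Aq h'

theorem i_R_R (h : RqS F g) (h' : RqS F' g') (hd : ∀ c ∈ F, c ∉ F') : NI g g' := by
  obtain ⟨q, h⟩ := h.rq
  obtain ⟨q', h'⟩ := h'.rq
  exact h.inner_Rq h' hd

theorem i_R_T (h : RqS F g) (h' : TyT F' g') (hle : ∀ c ∈ F, ∀ d ∈ F', htc c ≤ htc d) : NI g g' := by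
  obtain ⟨q, h⟩ := h.rq
  exact h.inner_T h' hle

theorem i_R_J1 (hk : 13 ≤ k) (h : RqS F g) (h' : J1.TyJs F' g') (hs : TyR3 F g ∨ ∀ c ∈ F, 3 ≤ H1.n2 (contc c)) :
    NI g g' := by
  rcases hs with hs | hs
  · exact hs.inner_Js h' hk
  · rcases h with h | ⟨q, hq, h⟩
    · exact h.toR3.inner_Js h' hk
    · exact h.inn_Js hq hs hk h'

theorem i_R_J4 (hk : 13 ≤ k) (h : RqS F g) (h' : J1.TyJt F' g') (hs : TyR3 F g ∨ ∀ c ∈ F, 3 ≤ H1.n2 (contc c)) :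
    NI g g' := by
  rcases hs with hs | hs
  · exact hs.inner_Jt h' hk
  · rcases h with h | ⟨q, hq, h⟩
    · exact h.toR3.inner_Jt h' hk
    · exact h.inn_Jt hq hs hk h'

theorem i_R_JV (h : RqS F g) (h' : JVS F' g') (hle : ∀ c ∈ F, ∀ d ∈ F', htc c ≤ htc d)
    (hs : TyR3 F g ∨ ∃ Z, JVw Z ∧ Is9 .nil .nil Z F' g') : NI g g' := by
  rcases hs with hs | ⟨Z, h1, h2⟩
  · exact i_R3_JV hs h' hle
  · obtain ⟨q, h⟩ := h.rq
    exact h.inner_JV h2 h1 hle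

theorem i_R_JVm (h : RqS F g) (h' : JVMS F' g') (hle : ∀ c ∈ F, ∀ d ∈ F', htc c ≤ htc d)
    (hs : TyR3 F g ∨ ∃ Z, JVw Z ∧ JVw (Tsq.mir Z) ∧ Is9M .nil .nil Z F' g') : NI g g' := by
  rcases hs with hs | ⟨Z, h1, h3, h2⟩
  · obtain ⟨Z, h1, h2, h3⟩ := h'
    exact hs.inner_JV (Or.inr h3) h1 h2 hle
  · obtain ⟨q, h⟩ := h.rq
    exact h.inner_JVm h2 h1 h3 hle

theorem i_R_JE (h : RqS F g) (hle : ∀ c ∈ F, ∀ d ∈ F', htc c ≤ htc d)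
    (hs : ∃ Z, JVw Z ∧ TyJE Z F' g') : NI g g' := by
  obtain ⟨Z, h1, h2⟩ := hs
  obtain ⟨q, h⟩ := h.rq
  exact h.inner_JE h2 h1 hle

theorem i_R_JEm (h : RqS F g) (hle : ∀ c ∈ F, ∀ d ∈ F', htc c ≤ htc d)
    (hs : ∃ Z, JVw Z ∧ JVw (Tsq.mir Z) ∧ TyJEM Z F' g') : NI g g' := by
  obtain ⟨Z, h1, h3, h2⟩ := hs
  obtain ⟨q, h⟩ := h.rq
  exact h.inner_JEM h2 h1 h3 hle

theorem i_Rq_self {q : ℕ} (h : TyRq q F g) : NI g g := by
  obtain ⟨R, B, S, w0, h1, hne, rfl, rfl⟩ := h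
  have key : ∀ i ∈ [0, 1, 3, 6, 8, 9], TT (H1.wX R B S q w0 i) ∉ (gad20 (H1.wX R B S q w0)).B := by
    intro i hi hw
    obtain ⟨j, hj, e⟩ := mem_gad20.1 hw
    obtain ⟨rfl, h2⟩ := h1.inner_raw h1 w0 hi hj e.symm
    have h10 := h1.rlink w0 (i := 0) (j := 10) (by simp)
    rcases h2 with rfl | rfl
    · apply hne
      rw [← h10, ← e, ← e]
    · apply hne
      have e2 : TT (H1.wX R B S q w0 0) = TT (TT (H1.wX R B S q w0 0)) := by rw [h10, ← e]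
      have e3 := TT.injective e2
      rw [← h10, ← e3, ← e3]
  intro p hp w hw
  have hp' : p = (H1.wX R B S q w0 0, H1.wX R B S q w0 10) ∨
      p = (H1.wX R B S q w0 1, H1.wX R B S q w0 11) ∨
      p = (H1.wX R B S q w0 3, H1.wX R B S q w0 12) ∨
      p = (H1.wX R B S q w0 6, H1.wX R B S q w0 15) ∨
      p = (H1.wX R B S q w0 8, H1.wX R B S q w0 14) ∨
      p = (H1.wX R B S q w0 9, H1.wX R B S q w0 17) := hp
  have hw' : w = TT p.1 := hw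
  rcases hp' with rfl | rfl | rfl | rfl | rfl | rfl
  · rw [hw']; exact key 0 (by simp)
  · rw [hw']; exact key 1 (by simp)
  · rw [hw']; exact key 3 (by simp)
  · rw [hw']; exact key 6 (by simp)
  · rw [hw']; exact key 8 (by simp)
  · rw [hw']; exact key 9 (by simp)

theorem i_R_self (h : RqS F g) : NI g g := by
  obtain ⟨q, h⟩ := h.rq
  exact i_Rq_self h

/-! ### the right windows as targets -/

theorem i_A_R (h : TyAp F g) (h' : RqS F' g') : NI g g' := by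
  obtain ⟨q, h'⟩ := h'.rq
  exact h.inner_Rq h'

theorem i_T_R (h : TyT F g) (h' : RqS F' g') : NI g g' := by
  obtain ⟨q, h'⟩ := h'.rq
  exact h.inner_Rq h'

end MW

end Pool.OddHC
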