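import Pool.Agent.Work.MP_8f87b2_fin.MatP5
import Pool.Agent.Work.MP_8f87b2_h16.JBW
import Pool.Agent.Work.MP_8f87b2_h15.P5F
import Pool.Agent.Work.MP_8f87b2_h41.TL3
import Pool.Agent.Work.MP_8f87b2_h17.TyJ2v
import Pool.Agent.Work.MP_8f87b2_h21.J2Rows
import Pool.Agent.Work.MP_8f87b2_h43.J2BW
import Pool.Agent.Work.MP_8f87b2_h49.J2BR
import Pool.Agent.Work.MP_8f87b2_h84.J2W

/-!
# The word matrix: the pair gadget J2B and its merges with E pairs (helper36)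
-/

set_option autoImplicit false

namespace Pool.OddHC

open Finset Equiv BinaryTree Pool.Agent.Work.MP_8f87b2_co

namespace MW

open J3

variable {k : ℕ} {F F' : Set (Cyc k)} {g g' : DG k} {R B S : BinaryTree Unit}

/-- the group J2 over the phase `R`, merged with E pairs or not -/
def J2P (R B S : BinaryTree Unit) (F : Set (Cyc k)) (g : DG k) : Prop := ∃ v, v < 24 ∧ TyJ2Rv v R B S F g

/-- **TYPE J2** (merged or not), over at least two solitons, height at least 4 -/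
def J2S (F : Set (Cyc k)) (g : DG k) : Prop :=
  ∃ R B S : BinaryTree Unit, J2P R B S F g ∧ 4 ≤ OddHC.ht R ∧ 2 ≤ J3.cc R

theorem J2P.sqd (h : J2P R B S F g) : SqD k R B S := by
  obtain ⟨v, _, h⟩ := h
  exact h.sqd

theorem J2P.wds (h : J2P R B S F g) : ∀ w ∈ g.B, ∃ i < 20, w.1 = H1.W R .nil B S i := by
  obtain ⟨v, _, h⟩ := h
  exact h.words

theorem J2P.hd (h : J2P R B S F g) (hd : ∀ c ∈ F', c ∉ F) (w0 : X k) : J2B.HD F' R B S w0 := by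
  obtain ⟨v, hv, h⟩ := h
  obtain ⟨h1, h2⟩ := h.memF hv w0
  intro c hc
  exact ⟨fun e => hd c hc (e ▸ h1), fun e => hd c hc (e ▸ h2)⟩

/-- the underlying unmerged group -/
theorem J2P.base (h : J2P R B S F g) : ∃ (F0 : Set (Cyc k)) (g0 : DG k), TyJ2R R B S F0 g0 ∧ (∀ c ∈ F0, c ∈ F) ∧
    ∀ x, x ∈ g.B ↔ x ∈ g0.B := by
  obtain ⟨v, hv, h⟩ := h
  obtain ⟨F0, g0, h1, h2, _⟩ := h.base
  refine ⟨F0, g0, h1, ?_, h2⟩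
  obtain ⟨w0, _, _, h3, _⟩ := id h1
  obtain ⟨h4, h5⟩ := h.memF hv w0
  rw [h3]
  rintro c (rfl | rfl)
  · exact h4
  · exact h5

/-- transfer from the unmerged group -/
theorem J2P.nc (h : J2P R B S F g) (hd : ∀ c ∈ F, c ∉ F')
    (row : ∀ (F0 : Set (Cyc k)) (g0 : DG k), TyJ2R R B S F0 g0 → (∀ c ∈ F0, c ∉ F') → NC g0 g') : NC g g' := by
  obtain ⟨F0, g0, h1, h2, h3⟩ := h.base
  intro w hw
  exact row F0 g0 h1 (fun c hc => hd c (h2 c hc)) w ((h3 w).1 hw)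

/-! ### E -/

def sE_J2 (F F' : Set (Cyc k)) (g g' : DG k) : Prop :=
  ∃ Y R B S, IsTri .nil Y .nil F g ∧ J2P R B S F' g' ∧
    ¬ (Y = app R (.nil △ .nil) ∨ Y = .nil △ R ∨ Y = R △ .nil ∨ Y = S △ B ∨ Y = app S (B △ .nil) ∨
      (B = .nil ∧ Y = .nil △ S))

theorem r_E_J2 (hs : sE_J2 F F' g g') : NC g g' := by
  obtain ⟨Y, R, B, S, h1, h2, h3⟩ := hs
  intro w hw hw'
  obtain ⟨i, hi, e⟩ := h2.wds w hw'
  exact h3 (J2B.eW h2.sqd h1 hw hi e)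

/-! ### L -/

def sL_J2 (F F' : Set (Cyc k)) (g g' : DG k) : Prop :=
  ∃ Y R B S, Y ≠ .nil ∧ H1.fb Y = false ∧ H1.lastB Y = false ∧ IsTri (lp 1) Y (lp 1) F g ∧ J2P R B S F' g' ∧
    ¬ (R = Y △ .nil ∨ (B = .nil ∧ S = Y △ .nil) ∨ ∃ Y', Y = S △ Y' ∧ B = app Y' ((.nil △ .nil) △ .nil))

theorem r_L_J2 (hs : sL_J2 F F' g g') : NC g g' := by
  obtain ⟨Y, R, B, S, a, b, c, h1, h2, h3⟩ := hs
  intro w hw hw'
  obtain ⟨i, hi, e⟩ := h2.wds w hw'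
  apply h3
  rcases J2B.lW h2.sqd h1 a b c hw hi e with q | q | q
  · exact Or.inl q.2
  · exact Or.inr (Or.inl q.2)
  · exact Or.inr (Or.inr q.2)

/-! ### K -/

def sK_J2 (F F' : Set (Cyc k)) (g g' : DG k) : Prop :=
  ∃ Y R B S, Y ≠ .nil ∧ IsTri .nil Y (.nil △ .nil) F g ∧ J2P R B S F' g' ∧
    ¬ ((B = .nil ∧ Y = S) ∨
    (∃ R', R = app R' ((.nil △ .nil) △ .nil) ∧ Y = .nil △ (.nil △ R')) ∨
    (∃ S', S = app S' ((.nil △ .nil) △ .nil) ∧ Y = app B (.nil △ (.nil △ S'))) ∨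
    (∃ B', B = app B' ((.nil △ .nil) △ .nil) ∧ Y = (.nil △ S) △ B') ∨
    (∃ B', B = app B' ((.nil △ .nil) △ .nil) ∧ Y = .nil △ (S △ B')))

theorem r_K_J2 (hd : ∀ c ∈ F, c ∉ F') (hs : sK_J2 F F' g g') : NC g g' := by
  obtain ⟨Y, R, B, S, a, h1, h2, h3⟩ := hs
  intro w hw hw'
  obtain ⟨i, hi, e⟩ := h2.wds w hw'
  apply h3
  rcases J2B.kW (w0 := w) h2.sqd h1 a (h2.hd hd w) hw hi e with q | q | q | q | q
  · exact Or.inl q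
  · exact Or.inr (Or.inl q.2)
  · exact Or.inr (Or.inr (Or.inl q.2))
  · exact Or.inr (Or.inr (Or.inr (Or.inl q.2)))
  · exact Or.inr (Or.inr (Or.inr (Or.inr q.2)))

def sKm_J2 (F F' : Set (Cyc k)) (g g' : DG k) : Prop :=
  ∃ Y R B S, Y ≠ .nil ∧ IsTri (.nil △ .nil) Y .nil F g ∧ J2P R B S F' g' ∧
    ¬ ((B = .nil ∧ Y = S) ∨
    (∃ R', R = (.nil △ .nil) △ R' ∧ Y = app R' (.nil △ (.nil △ .nil))) ∨
    (∃ B', B = (.nil △ .nil) △ B' ∧ Y = app B' (.nil △ (.nil △ S))))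

theorem r_Km_J2 (hd : ∀ c ∈ F, c ∉ F') (hs : sKm_J2 F F' g g') : NC g g' := by
  obtain ⟨Y, R, B, S, a, h1, h2, h3⟩ := hs
  intro w hw hw'
  obtain ⟨i, hi, e⟩ := h2.wds w hw'
  apply h3
  rcases J2B.kmW (w0 := w) h2.sqd h1 a (h2.hd hd w) hw hi e with q | q | q
  · exact Or.inl q
  · exact Or.inr (Or.inl q.2)
  · exact Or.inr (Or.inr q.2)

/-! ### content links -/

def sCr_J2 (F F' : Set (Cyc k)) (g g' : DG k) : Prop :=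
  ∃ c Y R B S, 2 ≤ c ∧ c + 1 ≤ OddHC.ht Y ∧ Odd c ∧ TyC c Y F g ∧ J2P R B S F' g' ∧
    ¬ ((B = H1.ch c ∧ Y = .nil △ S) ∨
    (∃ R', R = app R' (H1.ch c △ .nil) ∧ Y = .nil △ (.nil △ R')) ∨
    (∃ S', S = app S' (H1.ch c △ .nil) ∧ Y = app B (.nil △ (.nil △ S'))) ∨
    (∃ B', B = app B' (H1.ch c △ .nil) ∧ Y = (.nil △ S) △ B') ∨
    (∃ B', B = app B' (H1.ch c △ .nil) ∧ Y = .nil △ (S △ B')))

theorem r_Cr_J2 (hd : ∀ c ∈ F, c ∉ F') (hs : sCr_J2 F F' g g') : NC g g' := by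
  obtain ⟨c, Y, R, B, S, a1, a2, a3, h1, h2, h3⟩ := hs
  intro w hw hw'
  obtain ⟨i, hi, e⟩ := h2.wds w hw'
  apply h3
  rcases J2B.crW (w0 := w) h2.sqd a1 a2 a3 h1 (h2.hd hd w) hw hi e with q | q | q | q | q
  · exact Or.inl q
  · exact Or.inr (Or.inl q.2)
  · exact Or.inr (Or.inr (Or.inl q.2))
  · exact Or.inr (Or.inr (Or.inr (Or.inl q.2)))
  · exact Or.inr (Or.inr (Or.inr (Or.inr q.2)))

def sCl_J2 (F F' : Set (Cyc k)) (g g' : DG k) : Prop :=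
  ∃ c Y R B S, 2 ≤ c ∧ c + 1 ≤ OddHC.ht Y ∧ TyC' c Y F g ∧ J2P R B S F' g' ∧
    ¬ ((c = 2 ∧ R = Y △ .nil) ∨ (c = 2 ∧ B = .nil ∧ S = Y △ .nil) ∨
    (∃ S', S = H1.ch c △ S' ∧ Y = app S' ((app B (.nil △ .nil)) △ .nil)) ∨
    (∃ S', S = H1.ch c △ S' ∧ Y = app S' (B △ (.nil △ .nil))) ∨
    (∃ R', R = H1.ch c △ R' ∧ Y = app R' (.nil △ (.nil △ .nil))) ∨
    (∃ B', B = H1.ch c △ B' ∧ Y = app B' (.nil △ (.nil △ S))))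

theorem r_Cl_J2 (hd : ∀ c ∈ F, c ∉ F') (hs : sCl_J2 F F' g g') : NC g g' := by
  obtain ⟨c, Y, R, B, S, a1, a2, h1, h2, h3⟩ := hs
  intro w hw hw'
  obtain ⟨i, hi, e⟩ := h2.wds w hw'
  apply h3
  rcases J2B.clW (w0 := w) h2.sqd a1 a2 h1 (h2.hd hd w) hw hi e with q | q | q | q | q | q
  · exact Or.inl q.2
  · exact Or.inr (Or.inl q.2)
  · exact Or.inr (Or.inr (Or.inl q.2))
  · exact Or.inr (Or.inr (Or.inr (Or.inl q.2)))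
  · exact Or.inr (Or.inr (Or.inr (Or.inr (Or.inl q.2))))
  · exact Or.inr (Or.inr (Or.inr (Or.inr (Or.inr q.2))))

def sDn_J2 (F F' : Set (Cyc k)) (g g' : DG k) : Prop :=
  ∃ U R B S, DnU U ∧ TyC 2 U F g ∧ J2P R B S F' g' ∧ R ≠ U △ .nil ∧ (B = .nil → S ≠ U △ .nil)

theorem r_Dn_J2 (hd : ∀ c ∈ F, c ∉ F') (hs : sDn_J2 F F' g g') : NC g g' := by
  obtain ⟨U, R, B, S, hU, h1, h2, h3, h4⟩ := hs
  refine NC.symm (h2.nc (dsymm hd) fun F0 g0 h5 h6 => ?_)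
  exact h5.dj_Dn21 hU h1 (dsymm h6) h3 h4

theorem r_Fz_J2 (h : TyFz F g) (h' : J2S F' g') : NC g g' := by
  obtain ⟨R, B, S, h1, _⟩ := h'
  intro w hw hw'
  obtain ⟨i, hi, e⟩ := h1.wds w hw'
  exact (h.fyp w hw).not_W hi e

theorem r_S5_J2 (h : TyS5l F g) (h' : J2S F' g') : NC g g' := by
  obtain ⟨R, B, S, h1, _, h2⟩ := h'
  intro w hw hw'
  obtain ⟨i, hi, e⟩ := h1.wds w hw'
  exact h1.sqd.not_S5 h2 h.toS5 hi e hw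

/-! ### windows -/

/-- the right windows against J2 -/
def sR_J2 (F F' : Set (Cyc k)) (g g' : DG k) : Prop :=
  ∃ R B S, J2P R B S F' g' ∧ (2 ∈ OddHC.cont R ∨ (B ≠ .nil ∧ ∀ x ∈ OddHC.cont B, x ≤ 2) ∨
    (∀ c ∈ F', ∀ c' ∈ F, htc c < htc c') ∨ (∃ q, 2 ≤ q ∧ TyRq q F g) ∨
    ∀ q R' B' S' w0, HM.NodeM k q R' B' S' → g = gad20 (H1.wX R' B' S' q w0) → ¬ MV.Con q R B S R' B' S')

theorem r_Rq_J2 {q : ℕ} (h : TyRq q F g) (hd : ∀ c ∈ F, c ∉ F') (hs : sR_J2 F F' g g') : NC g g' := by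
  obtain ⟨R, B, S, h1, h2⟩ := hs
  obtain ⟨F0, g0, h5, h6, h7⟩ := h1.base
  suffices h8 : NC g0 g by
    intro w hw hw'
    exact h8 w ((h7 w).1 hw') hw
  rcases h2 with h2 | ⟨h2, h3⟩ | h2 | ⟨q', h2, h3⟩ | h2
  · exact h5.w_Rq_a h h2
  · exact h5.w_Rq_s h h2 h3
  · exact h5.w_Rq_ht h fun c hc c' hc' => h2 c (h6 c hc) c' hc'
  · exact h5.w_Rq2 h3 h2
  · exact h5.w_Rq h fun R' B' S' w0 h8 h9 => h2 q R' B' S' w0 h8 h9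

theorem r_R_J2 (h : RqS F g) (hd : ∀ c ∈ F, c ∉ F') (hs : sR_J2 F F' g g') : NC g g' := by
  obtain ⟨q, h⟩ := h.rq
  exact r_Rq_J2 h hd hs

/-- the merged windows against J2 -/
def sRE_J2 (F F' : Set (Cyc k)) (g' : DG k) : Prop :=
  ∃ R B S, J2P R B S F' g' ∧ (2 ∈ OddHC.cont R ∨ (B ≠ .nil ∧ ∀ x ∈ OddHC.cont B, x ≤ 2) ∨
    ∀ c ∈ F', ∀ c' ∈ F, htc c < htc c')

theorem r_RE_J2 (h : RES F g) (hd : ∀ c ∈ F, c ∉ F') (hs : sRE_J2 F F' g') : NC g g' := by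
  obtain ⟨R, B, S, h1, h2⟩ := hs
  obtain ⟨c, g1, h3, ⟨q, _, h4⟩, h5⟩ := h.toR
  intro w hw
  refine r_Rq_J2 h4 (single_hd h3 hd) ⟨R, B, S, h1, ?_⟩ w ((h5 w).1 hw)
  rcases h2 with h2 | h2 | h2
  · exact Or.inl h2
  · exact Or.inr (Or.inl h2)
  · refine Or.inr (Or.inr (Or.inl fun d hd1 d' hd2 => ?_))
    rw [Set.mem_singleton_iff] at hd2
    subst hd2
    exact h2 d hd1 _ h3

/-- the windows A against J2 -/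
def sA_J2 (F F' : Set (Cyc k)) (g g' : DG k) : Prop :=
  ∃ R B S, J2P R B S F' g' ∧ ((B ≠ .nil ∧ ∀ x ∈ OddHC.cont B, x ≤ 2) ∨
    ((∀ x ∈ OddHC.cont B, x ≤ 2) ∧ ∀ c ∈ F', ∀ c' ∈ F, htc c < htc c') ∨
    ((∀ (q : ℕ) (B' : BinaryTree Unit), (∀ x ∈ OddHC.cont B', q + 3 ≤ x) → B ≠ app B' (H1.ch (q + 3))) ∧
      ∀ q B1 H s B2 w0, H1.NodeG k q B1 H s B2 → 1 ∉ OddHC.cont (H1.gR B1 H s B2) →
        g = gad20 (H1.gX q B1 H s B2 w0) → ¬ MV.Con q R B S (H1.gR B1 H s B2) B2 (Tsq.sq (H1.gR B1 H s B2)).1))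

theorem r_A_J2 (h : TyA F g) (hs : sA_J2 F F' g g') : NC g g' := by
  obtain ⟨R, B, S, h1, h2⟩ := hs
  obtain ⟨F0, g0, h5, h6, h7⟩ := h1.base
  suffices h8 : NC g0 g by
    intro w hw hw'
    exact h8 w ((h7 w).1 hw') hw
  rcases h2 with ⟨h2, h3⟩ | ⟨h2, h3⟩ | ⟨h2, h3⟩
  · exact h5.w_A_s h h2 h3
  · exact h5.w_A_ht h h2 fun c hc c' hc' => h3 c (h6 c hc) c' hc'
  · exact h5.w_A h h2 h3

theorem r_T_J2 (h : TyT F g) (h' : J2S F' g') : NC g g' := by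
  obtain ⟨R, B, S, h1, _⟩ := h'
  intro w hw hw'
  obtain ⟨i, hi, e⟩ := h1.wds w hw'
  exact h.dis20 h1.sqd hi e hw

theorem r_J1_J2 (hk : 13 ≤ k) (h : J1.TyJs F g) (h' : J2S F' g') (hd : ∀ c ∈ F, c ∉ F') : NC g g' := by
  obtain ⟨R, B, S, h1, _, h2⟩ := h'
  exact NC.symm (h1.nc (dsymm hd) fun F0 g0 h5 h6 => h5.dis_Js (by omega) h2 h h6)

theorem r_J4_J2 (hk : 13 ≤ k) (h : J1.TyJt F g) (h' : J2S F' g') (hd : ∀ c ∈ F, c ∉ F') : NC g g' := by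
  obtain ⟨R, B, S, h1, _⟩ := h'
  exact NC.symm (h1.nc (dsymm hd) fun F0 g0 h5 h6 => h5.dis_Jt hk h h6)

/-! ### pair gadgets -/

def sJ2_J2 (F F' : Set (Cyc k)) (g g' : DG k) : Prop :=
  ∃ R B S R' B' S', J2P R B S F g ∧ J2P R' B' S' F' g' ∧
    ¬ ((S △ B = app S' (B' △ .nil) ∧ OddHC.ht R' = OddHC.ht R + 1 ∧ B ≠ .nil ∧ B' ≠ .nil) ∨
    (S' △ B' = app S (B △ .nil) ∧ OddHC.ht R = OddHC.ht R' + 1 ∧ B ≠ .nil ∧ B' ≠ .nil))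

theorem r_J2_J2 (hd : ∀ c ∈ F, c ∉ F') (hs : sJ2_J2 F F' g g') : NC g g' := by
  obtain ⟨R, B, S, R', B', S', h1, h2, h3⟩ := hs
  refine h1.nc hd fun F0 g0 h5 h6 => ?_
  refine NC.symm (h2.nc (dsymm h6) fun F1 g1 h7 h8 => ?_)
  intro w hw hw'
  exact h3 (h5.meet_J2 h7 (dsymm h8) hw' hw)

def sJV_J2 (F F' : Set (Cyc k)) (g g' : DG k) : Prop :=
  ∃ Z R B S, JVD F g Z ∧ 3 ≤ OddHC.ht Z ∧ J2P R B S F' g' ∧
    ¬ ((Tsq.sq Z).1 △ (Tsq.sq Z).2 = app S (B △ .nil) ∧ OddHC.ht R = OddHC.ht Z + 1 ∧ B ≠ .nil ∧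
    (Tsq.sq Z).2 ≠ .nil)

theorem r_JV_J2 (hd : ∀ c ∈ F, c ∉ F') (hs : sJV_J2 F F' g g') : NC g g' := by
  obtain ⟨Z, R, B, S, ⟨a, b⟩, c, h1, h2⟩ := hs
  refine NC.symm (h1.nc (dsymm hd) fun F0 g0 h5 h6 => ?_)
  intro w hw hw'
  exact h2 (h5.meet_JV b a c h6 hw hw')

def sJE_J2 (F F' : Set (Cyc k)) (g g' : DG k) : Prop :=
  ∃ Z R B S, TyJE Z F g ∧ J2P R B S F' g' ∧
    ¬ ((Tsq.sq Z).1 △ (Tsq.sq Z).2 = app S (B △ .nil) ∧ OddHC.ht R = OddHC.ht Z + 1 ∧ B ≠ .nil ∧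
    (Tsq.sq Z).2 ≠ .nil)

theorem r_JE_J2 (hd : ∀ c ∈ F, c ∉ F') (hs : sJE_J2 F F' g g') : NC g g' := by
  obtain ⟨Z, R, B, S, a, h1, h2⟩ := hs
  refine NC.symm (h1.nc (dsymm hd) fun F0 g0 h5 h6 => ?_)
  intro w hw hw'
  exact h2 (h5.meet_JE a h6 hw hw')

theorem r_J2_L1 (hk : 9 ≤ k) (h : J2S F g) (h' : TyL1 F' g') (hd : ∀ c ∈ F, c ∉ F') : NC g g' := by
  obtain ⟨R, B, S, h1, _⟩ := h
  exact h1.nc hd fun F0 g0 h5 h6 => NC.symm (h'.disj_J2B hk ⟨R, B, S, h5⟩)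

def sJ2_P5 (F F' : Set (Cyc k)) (g g' : DG k) : Prop :=
  ∃ R B S P, J2P R B S F g ∧ TyP5D P F' g' ∧ R ≠ P △ .nil ∧ (B = .nil → S ≠ P △ .nil) ∧
    (∀ B', B = app B' ((.nil △ .nil) △ .nil) → P ≠ S △ B')

theorem r_J2_P5 (hd : ∀ c ∈ F, c ∉ F') (hs : sJ2_P5 F F' g g') : NC g g' := by
  obtain ⟨R, B, S, P, h1, h2, h3, h4, h5⟩ := hs
  exact h1.nc hd fun F0 g0 h6 _ => h6.dj_P5 h2 h3 h4 h5

def sJ2_P5m (F F' : Set (Cyc k)) (g g' : DG k) : Prop :=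
  ∃ R B S P, J2P R B S F g ∧ TyP5MD P F' g' ∧ R ≠ P △ .nil ∧ (B = .nil → S ≠ P △ .nil) ∧
    (∀ S', S = (.nil △ .nil) △ S' → P ≠ app S' (B △ .nil))

theorem r_J2_P5m (hd : ∀ c ∈ F, c ∉ F') (hs : sJ2_P5m F F' g g') : NC g g' := by
  obtain ⟨R, B, S, P, h1, h2, h3, h4, h5⟩ := hs
  exact h1.nc hd fun F0 g0 h6 _ => h6.dj_P5M h2 h3 h4 h5

/-! ### S5, L1, H against P5 -/

theorem r_S5_P5 (h : TyS5l F g) (h' : P5DS F' g') : NC g g' := by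
  obtain ⟨S, h'⟩ := h'
  exact NC.symm (h'.disj_S5 h.toS5)

theorem r_S5_P5m (h : TyS5l F g) (h' : P5MS F' g') : NC g g' := by
  obtain ⟨S, h'⟩ := h'
  exact NC.symm (h'.disj_S5 h.toS5)

theorem r_L1_P5 (h : TyL1 F g) (h' : P5DS F' g') : NC g g' := by
  obtain ⟨S, h'⟩ := h'
  exact NC.symm (h'.disj_L1 h)

theorem r_L1_P5m (h : TyL1 F g) (h' : P5MS F' g') : NC g g' := by
  obtain ⟨S, h'⟩ := h'
  exact NC.symm (h'.disj_L1 h)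

theorem r_H_P5 (h : Hole2.TyH F g) (h' : P5DS F' g') : NC g g' := by
  obtain ⟨S, h'⟩ := h'
  exact NC.symm (h'.disj_H h)

theorem r_H_P5m (h : Hole2.TyH F g) (h' : P5MS F' g') : NC g g' := by
  obtain ⟨S, h'⟩ := h'
  exact NC.symm (h'.disj_H h)

end MW

end Pool.OddHC
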