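import Pool.Agent.Work.MP_8f87b2_fin.MatH
import Pool.Agent.Work.MP_8f87b2_h59.J33W
import Pool.Agent.Work.MP_8f87b2_h21.AJ3V
import Pool.Agent.Work.MP_8f87b2_h84.JEW5
import Pool.Agent.Work.MP_8f87b2_h86.EJ

/-!
# The word matrix: J33, the pair gadgets of height at least 4, E with helper86's `TyEf` (helper36)
-/

set_option autoImplicit false

namespace Pool.OddHC

open Finset Equiv BinaryTree Pool.Agent.Work.MP_8f87b2_co

namespace MW

open Hole2 J3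

variable {k : ℕ} {F F' : Set (Cyc k)} {g g' : DG k} {R B S R' B' S' : BinaryTree Unit}

/-- early E triples, admissible for J1, J4, L1 -/
def TyEnf (F : Set (Cyc k)) (g : DG k) : Prop := TyEn F g ∧ TyEf F g

/-- deep E triples, admissible for J1, J4, L1 -/
def TyEdf (F : Set (Cyc k)) (g : DG k) : Prop := TyEd F g ∧ TyEf F g

/-- JE over at least two solitons, height at least 4 -/
def JE4 (F : Set (Cyc k)) (g : DG k) : Prop :=
  ∃ R : BinaryTree Unit, TyJE R F g ∧ 4 ≤ OddHC.ht R ∧ 2 ≤ J3.cc R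

/-- JV over at least two solitons, height at least 4 -/
def JV4 (F : Set (Cyc k)) (g : DG k) : Prop :=
  ∃ Z : BinaryTree Unit, (OddHC.cont Z).count 1 = 0 ∧ 4 ≤ OddHC.ht Z ∧ 2 ≤ J3.cc Z ∧ Is9 .nil .nil Z F g

theorem JE4.je (h : JE4 F g) : JES F g := ⟨h.choose, h.choose_spec.1⟩

theorem JV4.jv (h : JV4 F g) : JVS F g := by
  obtain ⟨Z, h1, h2, _, h3⟩ := h
  exact ⟨Z, h1, by omega, h3⟩

theorem r_JE4_H (h : JE4 F g) (h' : TyH F' g') : NC g g' := by
  obtain ⟨R, h1, h2, h3⟩ := h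
  exact NC.symm (r_H_JE h' ⟨R, h1, h2, h3⟩)

theorem r_JV4_H (h : JV4 F g) (h' : TyH F' g') : NC g g' := by
  obtain ⟨Z, h1, h2, h3, h4⟩ := h
  exact NC.symm (r_H_JV h' ⟨Z, h1, by omega, h3, h4⟩)

/-! ### J33 -/

/-- J33 against the pair gadgets of height at least 4: only the square of J33 moves -/
theorem _root_.Pool.OddHC.J59.D33.meet4 {w0 : X k} (h : J59.D33 F g R B S w0) (h' : SqD k R' B' S')
    (h4 : 4 ≤ OddHC.ht R') {i j : ℕ} (hi : i < 20) (hj : j < 20)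
    (e : H1.W R .nil B S i = H1.W R' .nil B' S' j) :
    S △ B = app S' (B' △ .nil) ∧ (j = 18 ∨ j = 16 ∨ j = 19) := by
  have h3 := h.hts.1
  have hB : B ≠ .nil := by
    rintro rfl
    exact absurd h.hts.2.1 (by decide)
  rcases h.1.meetN h' hi hj e with h2 | ⟨h2, h5⟩ | ⟨h2, _⟩ | ⟨h2, h5⟩ | ⟨h2, _⟩ | ⟨h2, h5, _⟩
  · subst h2
    omega
  · have h6 := h'.htS
    rw [← h5] at h6
    omega
  · exact absurd h2 hB
  · exact ⟨h2, by omega⟩
  · have := (h'.sh h.1 h2).1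
    omega
  · have k1 := h.1.cont_cls h2
    rw [e, h'.cont_cls h5] at k1
    have k2 := add_right_cancel k1
    rw [OddHC.ht_eq] at h3 h4
    rw [k2] at h4
    omega

theorem r_J33_JE (h : TyJ33Q F g) (h' : JE4 F' g') : NC g g' := by
  obtain ⟨R, B, S, w0, hD⟩ := h.data
  obtain ⟨R', h1, h2, _⟩ := h'
  obtain ⟨B', S', w0', h3, _, hB', _, _⟩ := h1.inn
  have lt : ∀ i ∈ ixG13, i < 20 ∧ i ≠ 18 ∧ i ≠ 16 ∧ i ≠ 19 := by decide
  intro w hw hw'
  obtain ⟨i, hi, _, e⟩ := hD.word hw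
  obtain ⟨j, hj, e'⟩ := hB' w hw'
  obtain ⟨j1, j2, j3, j4⟩ := lt j hj
  have e1 := congrArg Subtype.val e'
  rw [e, h3.word w0' j1] at e1
  rcases (hD.meet4 h3 h2 hi j1 e1).2 with h5 | h5 | h5
  · exact j2 h5
  · exact j3 h5
  · exact j4 h5

theorem r_J33_JV (h : TyJ33Q F g) (h' : JV4 F' g') : NC g g' := by
  obtain ⟨R, B, S, w0, hD⟩ := h.data
  obtain ⟨Z, h1, h2, _, v, hV, hF', rfl⟩ := h'
  have hq := hV.sqD h1 (by omega)
  have lt : ∀ i ∈ ixG13, i < 20 ∧ i ≠ 18 ∧ i ≠ 16 ∧ i ≠ 19 := by decide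
  intro w hw hw'
  obtain ⟨i, hi, _, e⟩ := hD.word hw
  obtain ⟨j, hj, rfl⟩ := mem_gad9.1 hw'
  have hj13 : ix9E j ∈ ixG13 := (by decide : ∀ i < 9, ix9E i ∈ ixG13) j hj
  obtain ⟨j1, j2, j3, j4⟩ := lt _ hj13
  rw [hV.wordE j hj] at e
  rcases (hD.meet4 hq h2 hi j1 e.symm).2 with h5 | h5 | h5
  · exact j2 h5
  · exact j3 h5
  · exact j4 h5

/-- J33 against J2: the square does not move from J33 to J2 -/
def sJ33_J2 (F F' : Set (Cyc k)) (g g' : DG k) : Prop :=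
  ∃ R B S w0 R' B' S', J59.D33 F g R B S w0 ∧ J2P R' B' S' F' g' ∧ 4 ≤ OddHC.ht R' ∧ S △ B ≠ app S' (B' △ .nil)

theorem r_J33_J2 (hs : sJ33_J2 F F' g g') : NC g g' := by
  obtain ⟨R, B, S, w0, R', B', S', h1, h2, h3, h4⟩ := hs
  intro w hw hw'
  obtain ⟨i, hi, _, e⟩ := h1.word hw
  obtain ⟨j, hj, e'⟩ := h2.wds w hw'
  exact h4 (h1.meet4 h2.sqd h3 hi hj (e.symm.trans e')).1

theorem r_J33_P5 (h : TyJ33Q F g) (h' : P5DS F' g') : NC g g' := by
  obtain ⟨R, B, S, w0, hD⟩ := h.data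
  obtain ⟨P, h'⟩ := h'
  intro w hw hw'
  obtain ⟨i, hi, _, e⟩ := hD.word hw
  have hP := h'.1.ht
  rcases h'.j2w hD.1 hw' hi e with e1 | ⟨e1, _⟩ | ⟨_, B', e1, _⟩
  · have h3 := hD.hts.1
    rw [e1, ht_node] at h3
    omega
  · have h3 := hD.hts.2.1
    rw [e1] at h3
    exact absurd h3 (by decide)
  · obtain ⟨B0, e2⟩ := hD.lastC
    exact J59.app_pc_ne (e1.symm.trans e2)

theorem c4_raise {M : Multiset ℕ} (h : ∀ x ∈ M, x ≤ 3) : (raise M).countP (4 ≤ ·) ≤ 1 := by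
  unfold raise
  rw [Multiset.countP_cons]
  have h1 : (M.erase M.sup).countP (4 ≤ ·) = 0 := by
    rw [Multiset.countP_eq_zero]
    intro x hx
    have := h x (Multiset.mem_of_mem_erase hx)
    omega
  rw [h1]
  split <;> omega

theorem r_J33_P5m (h : TyJ33Q F g) (h' : P5MS F' g') : NC g g' := by
  obtain ⟨R, B, S, w0, hD⟩ := h.data
  obtain ⟨P, h'⟩ := h'
  intro w hw hw'
  obtain ⟨i, hi, _, e⟩ := hD.word hw
  have hP := h'.1.ht
  rcases h'.j2w hD.1 hw' hi e with e1 | ⟨e1, _⟩ | ⟨_, S', e1, e2⟩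
  · have h3 := hD.hts.1
    rw [e1, ht_node] at h3
    omega
  · have h3 := hD.hts.2.1
    rw [e1] at h3
    exact absurd h3 (by decide)
  · have h4 := h'.1.c4
    obtain ⟨_, hB3, hS3⟩ := hD.hts
    rw [OddHC.ht_eq] at hB3 hS3
    have h5 : (OddHC.cont S').countP (4 ≤ ·) = 0 := by
      rw [Multiset.countP_eq_zero]
      intro x hx
      have h6 : x ∈ OddHC.cont S := by
        rw [e1, cont_node]
        exact Multiset.mem_add.2 (Or.inr hx)
      have := Multiset.le_sup h6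
      omega
    have h7 : (OddHC.cont (B △ .nil)).countP (4 ≤ ·) ≤ 1 := by
      rw [cont_node, cont_nil, add_zero]
      refine c4_raise fun x hx => ?_
      have := Multiset.le_sup hx
      omega
    rw [e2, cont_app, Multiset.countP_add, h5] at h4
    omega

/-- the words of a square are at least as high as the square -/
theorem ht_W_ge (hS : OddHC.ht S = OddHC.ht R) {j : ℕ} (hj : j < 20) :
    OddHC.ht R ≤ OddHC.ht (H1.W R .nil B S j) := by
  have hn : OddHC.ht (BinaryTree.nil : BinaryTree Unit) = 0 := rfl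
  interval_cases j <;>
    simp only [H1.W, H1.app_nil, app, ht_app, ht_node, hn] <;> omega

/-- the windows with a bead against J33: two beads, or not height 4 -/
def sA_J33 (F : Set (Cyc k)) : Prop :=
  (∀ c ∈ F, 2 ≤ (contc c).count 1) ∨ ((∀ c ∈ F, 1 ∈ contc c) ∧ ∀ c ∈ F, htc c ≠ 4)

theorem r_A_J33 (h : TyA F g) (h' : TyJ33Q F' g') (hs : sA_J33 F) : NC g g' := by
  rcases hs with hs | ⟨hs, h4⟩
  · exact h.w_J3V2 h'.toJ3V hs
  · obtain ⟨R, B, S, w0, hD⟩ := h'.data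
    intro w hw hw'
    obtain ⟨q, V, E, T, h1, _, h3, h7, h5, _⟩ := h.w_J3V h'.toJ3V hs hw hw'
    have h8 : sX R B S w0 0 ∈ g'.B := by
      obtain ⟨_, _, _, _, _, rfl⟩ := hD
      exact mem_gadS.2 ⟨0, by norm_num, by norm_num, rfl⟩
    obtain ⟨i, hi, _, e⟩ := h7 _ h8
    have h9 := ht_W_ge (B := app E (H1.ch (q + 3))) h1.htS hi
    have h13 : OddHC.ht (sX R B S w0 0).1 = 3 := by
      rw [OddHC.ht_eq, hD.1.cont0, hD.1.supz, hD.hts.1]
    rw [← e, h13] at h9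
    have h10 := h1.h3
    have h11 := h1.htS
    have h12 := h1.htB
    refine h4 _ h5 ?_
    change (OddHC.cont w.1).sup = 4
    rw [← OddHC.ht_eq, h3, ht_node, ht_node]
    have hn : OddHC.ht (BinaryTree.nil : BinaryTree Unit) = 0 := rfl
    omega

end MW

end Pool.OddHC
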