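import Pool.Agent.Work.MP_8f87b2_fin.MatW
import Pool.Agent.Work.MP_8f87b2_fin.MatN

/-!
# MP_8f87b2_co: the general properties of all group types `WT`

`WP.hF`, `WP.new`, `WP.old`, `WP.abs` : the fields which `GrpOK.hasSys` needs; `WP.tri`, `WP.noArcs` for the plain types.
-/

set_option autoImplicit false

namespace Pool.OddHC

open Finset Equiv BinaryTree Pool.Agent.Work.MP_8f87b2_co

namespace MW

variable {k : ℕ} {F F' : Set (Cyc k)} {g g' : DG k}

/-- the plain types -/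
def WT.plain : WT → Prop
  | .En | .Ed | .L | .K | .Km | .Cr | .Cl | .Dn | .S5 => True
  | _ => False

/-- a plain group is a triple -/
theorem WP.tri {t : WT} (ht : t.plain) (h : WP t F g) : ∃ P Q R, IsTri P Q R F g := by
  cases t
  case En => obtain ⟨j, r, f, _, _, _, h⟩ := h; exact ⟨_, _, _, h⟩
  case Ed => obtain ⟨j, r, f, _, _, h⟩ := h; exact ⟨_, _, _, h⟩
  case L => obtain ⟨R', e, _, _, _, _, h⟩ := h; exact ⟨_, _, _, h⟩
  case K => obtain ⟨S, _, h⟩ := h; exact ⟨_, _, _, h⟩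
  case Km => obtain ⟨S, _, _, _, _, _, h⟩ := h; exact ⟨_, _, _, h⟩
  case Cr => obtain ⟨c, R, _, _, _, _, _, _, _, h⟩ := h; exact ⟨_, _, _, h⟩
  case Cl => obtain ⟨c, R, _, _, _, _, _, _, h⟩ := h; exact ⟨_, _, _, h⟩
  case Dn => obtain ⟨U, _, h⟩ := h; exact ⟨_, _, _, h⟩
  case S5 => exact (TyS5l.toS5 h).tri
  all_goals exact ht.elim

theorem WP.noArcs {t : WT} (ht : t.plain) (h : WP t F g) : g.arcs = ∅ := by
  obtain ⟨P, Q, R, h⟩ := WP.tri ht h
  exact h.arcs

theorem WP.hF {t : WT} (h : WP t F g) : ∀ w, w ∈ g.F ↔ cyc w ∈ F := by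
  by_cases ht : t.plain
  · obtain ⟨P, Q, R, h⟩ := WP.tri ht h
    exact h.hF
  cases t
  case A => exact (TyAp.toA h).hF
  case A0 => exact (TyA0c.toA0 h).hF
  case B0 => exact (TyB0c.toB0 h).hF
  case R3 => exact TyR3.hF h
  case S3 => exact TyS3.hF h
  case T => exact TyT.hF h
  case J1 => exact (J1.TyJs.toJ1 h).hF
  case J4 => exact J1.TyJt.hF h
  case J3V => exact TyJ3V.hF h
  case JE => obtain ⟨R, h⟩ := h; exact h.hF
  case JV => obtain ⟨Z, _, _, h⟩ := h; exact h.hF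
  all_goals exact absurd trivial ht

theorem WP.new {t : WT} (h : WP t F g) : ∀ c ∈ F, ∃ u ∈ g.B, cyc u = c := by
  by_cases ht : t.plain
  · obtain ⟨P, Q, R, h⟩ := WP.tri ht h
    exact h.new
  cases t
  case A => exact (TyAp.toA h).new
  case A0 => exact (TyA0c.toA0 h).new
  case B0 => exact (TyB0c.toB0 h).new
  case R3 => exact TyR3.new h
  case S3 => exact TyS3.new h
  case T => exact TyT.new h
  case J1 => exact (J1.TyJs.toJ1 h).new
  case J4 => exact J1.TyJt.new h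
  case J3V => exact TyJ3V.new h
  case JE => obtain ⟨R, h⟩ := h; exact h.new
  case JV => obtain ⟨Z, _, _, h⟩ := h; exact h.new
  all_goals exact absurd trivial ht

theorem WP.old {t : WT} (h : WP t F g) : ∃ u ∈ g.B, cyc u ∉ F := by
  by_cases ht : t.plain
  · obtain ⟨P, Q, R, h⟩ := WP.tri ht h
    exact h.old
  cases t
  case A => exact (TyAp.toA h).old
  case A0 => exact (TyA0c.toA0 h).old
  case B0 => exact (TyB0c.toB0 h).old
  case R3 => exact TyR3.old h
  case S3 => exact TyS3.old h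
  case T => exact TyT.old h
  case J1 => exact (J1.TyJs.toJ1 h).old
  case J4 => exact J1.TyJt.old h
  case J3V => exact TyJ3V.old h
  case JE => obtain ⟨R, h⟩ := h; exact h.old
  case JV => obtain ⟨Z, _, _, h⟩ := h; exact h.old
  all_goals exact absurd trivial ht

theorem WP.abs {t : WT} (h : WP t F g) : g.Abs := by
  by_cases ht : t.plain
  · obtain ⟨P, Q, R, h⟩ := WP.tri ht h
    exact h.abs
  cases t
  case A => exact (TyAp.toA h).abs
  case A0 => exact (TyA0c.toA0 h).abs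
  case B0 => exact (TyB0c.toB0 h).abs
  case R3 => exact TyR3.abs h
  case S3 => exact TyS3.abs h
  case T => exact TyT.abs h
  case J1 => exact (J1.TyJs.toJ1 h).abs
  case J4 => exact J1.TyJt.abs h
  case J3V => exact TyJ3V.abs h
  case JE => obtain ⟨R, h⟩ := h; exact h.abs
  case JV => obtain ⟨Z, _, _, h⟩ := h; exact h.abs
  all_goals exact absurd trivial ht

/-- a general form of the arcs -/
def PathI (g : DG k) : Prop := ∀ a ∈ g.arcs, ∃ n : ℕ, (TT ^ (n + 1)) a.1 = a.2 ∧ a.1 ∈ g.B ∧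
    ∀ i < n, (TT ^ (i + 1)) a.1 ∈ innA a

/-- the path field of `GrpOK.hasSys` from `PathI` and the row `g` against itself -/
theorem PathI.path (h : PathI g) (hs : NI g g) : ∀ a ∈ g.arcs, ∃ n : ℕ, (TT ^ (n + 1)) a.1 = a.2 ∧ a.1 ∈ g.B ∧
    ∀ i < n, (TT ^ (i + 1)) a.1 ∉ g.B ∧ (TT ^ (i + 1)) a.1 ∈ innA a := by
  intro a ha
  obtain ⟨n, h1, h2, h3⟩ := h a ha
  exact ⟨n, h1, h2, fun i hi => ⟨hs a ha _ (h3 i hi), h3 i hi⟩⟩

end MW

end Pool.OddHC
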