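import Pool.Agent.Work.MP_8f87b2_fin.MatR
import Pool.Agent.Work.MP_8f87b2_fin.MatJ
import Pool.Agent.Work.MP_8f87b2_h10.EdJ
import Pool.Agent.Work.MP_8f87b2_h10.EdJ1
import Pool.Agent.Work.MP_8f87b2_h13.N3
import Pool.Agent.Work.MP_8f87b2_h29.DnRows
import Pool.Agent.Work.MP_8f87b2_h60.InAr
import Pool.Agent.Work.MP_8f87b2_h76.TyB9
import Pool.Agent.Work.MP_8f87b2_fin.MatS
import Pool.Agent.Work.MP_8f87b2_h61.JtA
import Pool.Agent.Work.MP_8f87b2_h61.JtA0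
import Pool.Agent.Work.MP_8f87b2_h61.JtW
import Pool.Agent.Work.MP_8f87b2_h74.A0S5
import Pool.Agent.Work.MP_8f87b2_h89.R3S

/-!
# Rows of the word matrix: side conditions (helper36)
-/

set_option autoImplicit false

namespace Pool.OddHC

open Finset Equiv BinaryTree Pool.Agent.Work.MP_8f87b2_co

namespace MW

variable {k : ℕ} {F F' : Set (Cyc k)} {g g' : DG k}

theorem r_Ed_K (h : TyEd F g) (hd : ∀ c ∈ F, c ∉ F')
    (hs : (TyEp F g ∧ TyKg F' g') ∨ hneK F F' g') : NC g g' := by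
  rcases hs with hs | hs
  · exact dj_EpKg _ _ _ _ hs.1 hs.2 hd
  · exact r_E_K h.toE hd hs

theorem r_Ed_A (h : TyEd F g) (h' : TyAp F' g') (hs : AEok F' g' ∨ ∀ c ∈ F', 2 ∈ contc c) : NC g g' := by
  rcases hs with hs | hs
  · exact NC.symm (r_A_E hs h.toE)
  · exact dj_EdA h h'.toA hs

/-- deep E against J1 -/
def sEd_J1 (k : ℕ) (F : Set (Cyc k)) : Prop :=
  ∀ n, 3 ≤ n → n + 6 = k → ∀ w : X k, w.1 = .nil △ app (H1.ch (n + 1)) (H1.ch 4) → cyc w ∉ F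

theorem r_Ed_J1 (h : TyEd F g) (h' : J1.TyJs F' g') (hd : ∀ c ∈ F, c ∉ F')
    (hs : (∃ c ∈ F, 2 ∈ contc c ∨ 3 ∈ contc c) ∨ sE_J1 k F g ∨ sEd_J1 k F) : NC g g' := by
  rcases hs with hs | hs | hs
  · exact NC.symm (r_J1_E' h' h.toE (dsymm hd) (Or.inl hs))
  · exact NC.symm (r_J1_E' h' h.toE (dsymm hd) (Or.inr hs))
  · exact J1.js_Ed h h' hd hs

/-- deep E against JV -/
def sEd_JV (F' : Set (Cyc k)) (g' : DG k) : Prop :=
  ∃ Z : BinaryTree Unit, C23 Z ∧ 4 ≤ OddHC.ht Z ∧ Is9 .nil .nil Z F' g'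

theorem r_Ed_JV (h : TyEd F g) (hd : ∀ c ∈ F, c ∉ F') (hs : sEd_JV F' g' ∨ sJV_E F F' g g') : NC g g' := by
  rcases hs with ⟨Z, h1, h2, h3⟩ | hs
  · exact NC.symm (h3.disj_Ed h1 h2 h)
  · exact r_E_JV hd hs

/-- right content links over one soliton against the bare windows with four big parts -/
def sCr_n (F F' : Set (Cyc k)) (g : DG k) : Prop :=
  ∃ c U, TyC c U F g ∧ np3 (cont U) ≤ 1 ∧ ∃ d ∈ F', 4 ≤ np3 (contc d)

/-- left content links over one soliton against the bare windows with four big parts -/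
def sCl_n (F F' : Set (Cyc k)) (g : DG k) : Prop :=
  ∃ c U, TyC' c U F g ∧ np3 (cont U) ≤ 1 ∧ ∃ d ∈ F', 4 ≤ np3 (contc d)

theorem r_Cr_A0 (h' : TyA0 F' g') (hs : sCr_n F F' g) : NC g g' := by
  obtain ⟨c, U, h1, h2, h3⟩ := hs
  exact NC.symm (h'.np3_Cr h3 h2 h1).1

theorem r_Cr_B0 (h' : TyB0 F' g') (hs : sCr_n F F' g) : NC g g' := by
  obtain ⟨c, U, h1, h2, h3⟩ := hs
  exact NC.symm (h'.np3_Cr h3 h2 h1).1

theorem r_Cr_R3 (h' : TyR3 F' g') (hs : sCr_n F F' g) : NC g g' := by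
  obtain ⟨c, U, h1, h2, h3⟩ := hs
  exact NC.symm (h'.np3_Cr h3 h2 h1).1

theorem r_Cr_S3 (h' : TyS3 F' g') (hs : sCr_n F F' g) : NC g g' := by
  obtain ⟨c, U, h1, h2, h3⟩ := hs
  exact NC.symm (h'.np3_Cr h3 h2 h1).1

theorem r_Cl_A0 (h' : TyA0 F' g') (hs : sCl_n F F' g) : NC g g' := by
  obtain ⟨c, U, h1, h2, h3⟩ := hs
  exact NC.symm (h'.np3_Cl h3 h2 h1).1

theorem r_Cl_B0 (h' : TyB0 F' g') (hs : sCl_n F F' g) : NC g g' := by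
  obtain ⟨c, U, h1, h2, h3⟩ := hs
  exact NC.symm (h'.np3_Cl h3 h2 h1).1

theorem r_Cl_R3 (h' : TyR3 F' g') (hs : sCl_n F F' g) : NC g g' := by
  obtain ⟨c, U, h1, h2, h3⟩ := hs
  exact NC.symm (h'.np3_Cl h3 h2 h1).1

theorem r_Cl_S3 (h' : TyS3 F' g') (hs : sCl_n F F' g) : NC g g' := by
  obtain ⟨c, U, h1, h2, h3⟩ := hs
  exact NC.symm (h'.np3_Cl h3 h2 h1).1

/-- right content links against J1 mirrored -/
def sCr_J4 (F : Set (Cyc k)) (g : DG k) : Prop :=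
  ∃ c U, TyC c U F g ∧ 2 ≤ c ∧ c + 1 ≤ OddHC.ht U ∧ ∀ s, ¬ (c = 3 ∧ U = app (H1.ch s) (.nil △ (.nil △ .nil)))

/-- left content links against J1 mirrored -/
def sCl_J4 (F : Set (Cyc k)) (g : DG k) : Prop :=
  ∃ c U, TyC' c U F g ∧ 2 ≤ c ∧ c + 1 ≤ OddHC.ht U ∧ c ≠ 3 ∧ ∀ s, ¬ (c = 4 ∧ U = app (H1.ch s) (.nil △ .nil))

theorem r_Cr_J4 (hk : 13 ≤ k) (h' : J1.TyJt F' g') (hd : ∀ c ∈ F, c ∉ F') (hs : sCr_J4 F g) : NC g g' := by
  obtain ⟨c, U, h1, h2, h3, h4⟩ := hs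
  exact J1.jt_C h1 h' hd h2 h3 hk h4

theorem r_Cl_J4 (hk : 13 ≤ k) (h' : J1.TyJt F' g') (hd : ∀ c ∈ F, c ∉ F') (hs : sCl_J4 F g) : NC g g' := by
  obtain ⟨c, U, h1, h2, h3, h4, h5⟩ := hs
  exact J1.jt_C' h1 h' hd h2 h3 hk h4 h5

theorem r_Ed_Aq (h : TyEd F g) (h' : TyAq F' g') (hs : AEok F' g' ∨ ∀ c ∈ F', 2 ∈ contc c) : NC g g' := by
  rcases hs with hs | hs
  · exact NC.symm (r_A_E hs h.toE)
  · exact dj_EdA h h'.toA hs

theorem r_B9_K (h : TyB9 F g) (h' : TyKh F' g') : NC g g' := by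
  obtain ⟨S, h1, h2⟩ := h'
  exact h.nc fun _ _ _ h3 => h3.disj_K h1.ksh h2

theorem r_B9_S5 (h : TyB9 F g) (h' : TyS5l F' g') : NC g g' := h.nc fun _ _ _ h3 => h3.disS5 h'.toS5

theorem r_S5_JE (h : TyS5l F g) (h' : JES F' g') : NC g g' := by
  obtain ⟨R, h5⟩ := h'
  exact NC.symm (h5.dis_S5 h.toS5 (s5_cnt h))

end MW

end Pool.OddHC
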