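import Pool.Agent.Work.MP_8f87b2_fin.MatX
import Pool.Agent.Work.MP_8f87b2_h11.L1Rows
import Pool.Agent.Work.MP_8f87b2_h12.R3A
import Pool.Agent.Work.MP_8f87b2_h13.TyRq
import Pool.Agent.Work.MP_8f87b2_h16.MVA
import Pool.Agent.Work.MP_8f87b2_h26.L1L1
import Pool.Agent.Work.MP_8f87b2_h32.L1E
import Pool.Agent.Work.MP_8f87b2_h49.JVA
import Pool.Agent.Work.MP_8f87b2_h49.JVR3
import Pool.Agent.Work.MP_8f87b2_h54.JVmj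
import Pool.Agent.Work.MP_8f87b2_h84.JEW4
import Pool.Agent.Work.MP_8f87b2_h84.JEW5
import Pool.Agent.Work.MP_8f87b2_h99.JVmx
import Pool.Agent.Work.MP_8f87b2_h89.R3D
import Pool.Agent.Work.MP_8f87b2_h10.L1w
import Pool.Agent.Work.MP_8f87b2_h13.RqK
import Pool.Agent.Work.MP_8f87b2_h13.R3DnB
import Pool.Agent.Work.MP_8f87b2_h16.MVT
import Pool.Agent.Work.MP_8f87b2_h16.MVJ
import Pool.Agent.Work.MP_8f87b2_h16.MVK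
import Pool.Agent.Work.MP_8f87b2_h16.MVR
import Pool.Agent.Work.MP_8f87b2_h29.DnJ
import Pool.Agent.Work.MP_8f87b2_h32.L1L
import Pool.Agent.Work.MP_8f87b2_h49.JVRq
import Pool.Agent.Work.MP_8f87b2_h63.RqJ
import Pool.Agent.Work.MP_8f87b2_h84.JEW6
import Pool.Agent.Work.MP_8f87b2_h86.EEx
import Pool.Agent.Work.MP_8f87b2_h89.RqW
import Pool.Agent.Work.MP_8f87b2_h12.RqA
import Pool.Agent.Work.MP_8f87b2_h16.MVW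
import Pool.Agent.Work.MP_8f87b2_h19.CrL1
import Pool.Agent.Work.MP_8f87b2_h29.KmRows
import Pool.Agent.Work.MP_8f87b2_h49.L1S5
import Pool.Agent.Work.MP_8f87b2_h59.J33
import Pool.Agent.Work.MP_8f87b2_h89.RqT
import Pool.Agent.Work.MP_8f87b2_h89.RqC
import Pool.Agent.Work.MP_8f87b2_h13.RqE

/-!
# Rows of the word matrix: right windows, JV mirrored, L1 (helper36)
-/

set_option autoImplicit false

namespace Pool.OddHC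

open Finset Equiv BinaryTree Pool.Agent.Work.MP_8f87b2_co

namespace MW

variable {k : ℕ} {F F' : Set (Cyc k)} {g g' : DG k}

/-! ### right bare windows -/

/-- the right bare windows, every smallest part (`c = 3`: `R` does not start with `[3]`, `ClR`) -/
def RqS (F : Set (Cyc k)) (g : DG k) : Prop := TyR3c F g ∨ ∃ q, 1 ≤ q ∧ TyRq q F g

theorem RqS.rq (h : RqS F g) : ∃ q, TyRq q F g := by
  rcases h with h | ⟨q, _, h⟩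
  · exact ⟨0, h.toR3.toRq⟩
  · exact ⟨q, h⟩

theorem r_L_R (h : TyL F g) (h' : RqS F' g') : NC g g' := by
  obtain ⟨q, h'⟩ := h'.rq
  exact NC.symm (h'.disj_L h)

theorem r_K_R (h : TyKh F g) (h' : RqS F' g') : NC g g' := by
  rcases h' with h' | ⟨q, hq, h'⟩
  · exact NC.symm (r_R3_K h'.toR3 h)
  · obtain ⟨S, h1, h2⟩ := h
    exact NC.symm (h'.disj_K hq h1.ksh h2)

theorem r_Km_R (h : KmS F g) (h' : RqS F' g') : NC g g' := by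
  rcases h' with h' | ⟨q, hq, h'⟩
  · exact NC.symm (r_R3_Km h'.toR3 h)
  · obtain ⟨S, _, _, _, _, h1, h2⟩ := h
    exact NC.symm (h'.disj_Km hq h1 h2)

theorem r_S5_R (h : TyS5l F g) (h' : RqS F' g') : NC g g' := by
  obtain ⟨q, h'⟩ := h'.rq
  exact NC.symm (h'.disj_S5 h.toS5)

theorem r_R_R (h : RqS F g) (h' : RqS F' g') (hm : M2 F) (hm' : M2 F') (hd : ∀ c ∈ F, c ∉ F') :
    NC g g' := by
  obtain ⟨q, h⟩ := h.rq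
  obtain ⟨q', h'⟩ := h'.rq
  exact h.dis h' (fun _ => hm) (fun _ => hm') hd

/-- DOWN links against the right windows -/
def sDn_R (F F' : Set (Cyc k)) (g g' : DG k) : Prop :=
  TyR3 F' g' ∧ ∃ U, (DnSh U ∨ DnB U) ∧ TyC 2 U F g

theorem r_Dn_R (hd : ∀ c ∈ F, c ∉ F') (hs : sDn_R F F' g g') : NC g g' := by
  obtain ⟨h, U, hU | hU, h1⟩ := hs
  · exact NC.symm (h.disj_Dn hU h1)
  · exact NC.symm (h.disj_DnB hU h1 (dsymm hd))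

/-- the right windows against J1 -/
def sR_J1 (F : Set (Cyc k)) (g : DG k) : Prop :=
  TyR3 F g ∨ ∀ c ∈ F, 3 ≤ H1.n2 (contc c)

theorem r_R_J1 (hk : 13 ≤ k) (h : RqS F g) (h' : J1.TyJs F' g') (hs : sR_J1 F g) : NC g g' := by
  rcases hs with hs | hs
  · exact r_R3_J1 hs h'
  · rcases h with h | ⟨q, hq, h⟩
    · exact r_R3_J1 h.toR3 h'
    · exact h.dis_Js hq hs hk h'

theorem r_R_J4 (hk : 13 ≤ k) (h : RqS F g) (h' : J1.TyJt F' g') (hs : sR_J1 F g) : NC g g' := by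
  rcases hs with hs | hs
  · exact r_R3_J4 hs h'
  · rcases h with h | ⟨q, hq, h⟩
    · exact r_R3_J4 h.toR3 h'
    · exact h.dis_Jt hq hs hk h'

/-- right content links against R3 -/
def sCr_R (F F' : Set (Cyc k)) (g g' : DG k) : Prop :=
  TyR3 F' g' ∧ (sCr_n F F' g ∨
    ∃ c U, TyC c U F g ∧ 3 ≤ c ∧ c + 1 ≤ OddHC.ht U ∧ ∀ x ∈ cont U, x = 1 ∨ c + 1 ≤ x)

theorem r_Cr_R (hs : sCr_R F F' g g') : NC g g' := by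
  rcases hs with ⟨h, hs | ⟨c, U, h1, h2, h3, h4⟩⟩
  · exact r_Cr_R3 h hs
  · exact NC.symm (h.disj_Cr h1 h2 h3 h4)

/-- left content links against the right windows -/
def sCl_R (F F' : Set (Cyc k)) (g g' : DG k) : Prop :=
  (TyR3 F' g' ∧ (sCl_n F F' g ∨
    ∃ c U, TyC' c U F g ∧ 2 ≤ c ∧ c ≠ 3 ∧ c + 1 ≤ OddHC.ht U ∧ (3 ≤ c → ∀ x ∈ cont U, x = 1 ∨ c + 1 ≤ x) ∧
      (c = 2 → NoT U))) ∨ ∃ U, TyC' 2 U F g ∧ 3 ≤ OddHC.ht U ∧ ClC U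

theorem r_Cl_R (h' : RqS F' g') (hd : ∀ c ∈ F, c ∉ F') (hs : sCl_R F F' g g') : NC g g' := by
  rcases hs with ⟨h, hs | ⟨c, U, h1, h2, h3, h4, h5, h6⟩⟩ | ⟨U, h1, h2, h3⟩
  · exact r_Cl_R3 h hs
  · exact NC.symm (h.disj_Cl h1 h2 h3 h4 h5 h6 (dsymm hd))
  · obtain ⟨q, h'⟩ := h'.rq
    exact NC.symm (h'.disj_Cl2 h1 h2 h3 (dsymm hd))

/-- E triples against the right windows -/
def sE_R (F F' : Set (Cyc k)) (g' : DG k) : Prop :=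
  TyR3c F' g' ∨ ∃ q, 1 ≤ q ∧ TyRq q F' g' ∧ ∀ R B S w0, HM.NodeM k q R B S → g' = gad20 (H1.wX R B S q w0) →
    ¬ (3 ≤ q ∧ F = {cyc (H1.wX R B S q w0 1), cyc (H1.wX R B S q w0 2)}) ∧
    ¬ (B = .nil ∧ F = {cyc (H1.wX R B S q w0 11), cyc (H1.wX R B S q w0 18)})

theorem r_E_R (h : TyE F g) (hs : sE_R F F' g') : NC g g' := by
  rcases hs with hs | ⟨q, h1, h2, h3⟩
  · exact NC.symm (hs.disj_E h)
  · intro w hw hw'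
    obtain ⟨R, B, S, w0, h4, h5, h6, h7⟩ := h2.common_E h1 h hw' hw
    obtain ⟨h8, h9⟩ := h3 R B S w0 h4 h6
    rcases h7 with ⟨e1, -, e2⟩ | ⟨e1, -, e2⟩
    · exact h8 ⟨e1, e2⟩
    · exact h9 ⟨e1, e2⟩

theorem r_Ed_R (h : TyEd F g) (hs : sE_R F F' g' ∨ TyR3 F' g') : NC g g' := by
  rcases hs with hs | hs
  · exact r_E_R h.toE hs
  · exact NC.symm (hs.disj_Ed h)

theorem r_A_R (h : TyAp F g) (h' : RqS F' g') : NC g g' := by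
  obtain ⟨q, h'⟩ := h'.rq
  exact NC.symm (h'.disAp h)

theorem r_Aq_R (h : TyAq F g) (h' : RqS F' g') : NC g g' := by
  obtain ⟨q, h'⟩ := h'.rq
  exact NC.symm (h'.disAq h)

theorem r_R_T (h : RqS F g) (h' : TyT F' g') (hd : ∀ c ∈ F, c ∉ F') : NC g g' := by
  obtain ⟨q, h⟩ := h.rq
  exact NC.symm (dj_TRq _ _ _ _ h' h (dsymm hd))

/-! ### the windows without a bead -/

/-- the window `H = (())^(a+1)` -/
def TyAz (F : Set (Cyc k)) (g : DG k) : Prop :=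
  ∃ (q a : ℕ) (B1 s B : BinaryTree Unit) (w0 : X k), H1.NodeG k q B1 (lv2 (a + 1) .nil) s B ∧
    F = {cyc (H1.gX q B1 (lv2 (a + 1) .nil) s B w0 0)} ∧
    g = gad20 (H1.gX q B1 (lv2 (a + 1) .nil) s B w0)

theorem TyAz.toA (h : TyAz F g) : TyA F g := by
  obtain ⟨q, a, B1, s, B, w0, h1, h2, h3⟩ := h
  exact ⟨q, B1, _, s, B, w0, h1, h2, h3⟩

theorem TyAz.toAo (h : TyAz F g) : TyAo F g := by
  obtain ⟨q, a, B1, s, B, w0, h1, h2, h3⟩ := h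
  exact ⟨q, B1, _, s, B, w0, h1, fun q' => HM.Hok_two (m := 0) (Nat.succ_pos a) h1.hs, h2, h3⟩

theorem r_Az_R (h : TyAz F g) (h' : RqS F' g') : NC g g' := by
  obtain ⟨q, h'⟩ := h'.rq
  exact NC.symm (h'.disA h.toAo)

theorem r_Ed_Az (h : TyEd F g) (h' : TyAz F' g') (hs : AEok F' g' ∨ ∀ c ∈ F', 2 ∈ contc c) : NC g g' := by
  rcases hs with hs | hs
  · exact NC.symm (r_A_E hs h.toE)
  · exact dj_EdA h h'.toA hs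

/-! ### JV -/

/-- the gadget JV, mirrored -/
def JVMS (F : Set (Cyc k)) (g : DG k) : Prop :=
  ∃ Z : BinaryTree Unit, (OddHC.cont Z).count 1 = 0 ∧ 3 ≤ OddHC.ht Z ∧ Is9M .nil .nil Z F g

/-- data -/
def JVMD (F : Set (Cyc k)) (g : DG k) (Z : BinaryTree Unit) : Prop :=
  (OddHC.cont Z).count 1 = 0 ∧ 3 ≤ OddHC.ht Z ∧ Is9M .nil .nil Z F g

/-- a bead in the window -/
def sA1 (F : Set (Cyc k)) : Prop := ∀ c ∈ F, 1 ≤ (contc c).count 1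

/-- the windows A against JV -/
def sAz_JV (F F' : Set (Cyc k)) (g g' : DG k) : Prop :=
  sA1 F ∨ ∃ Z, JVD F' g' Z ∧ 3 ≤ OddHC.ht Z ∧ ∀ q B1 H s B w0, H1.NodeG k q B1 H s B → g = gad20 (H1.gX q B1 H s B w0) →
    ¬ MV.Cb q (H1.gR B1 H s B) B (Tsq.sq (H1.gR B1 H s B)).1 Z (xT Z)

theorem r_A_JV (h : TyA F g) (h' : JVS F' g') (hs : sAz_JV F F' g g') : NC g g' := by
  rcases hs with hs | ⟨Z, ⟨h1, h2⟩, h3, h4⟩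
  · obtain ⟨Z, h1, h2, h3⟩ := h'
    exact Finset.disjoint_left.1 (JVA.tyA_JV h hs h3 h1 (by omega))
  · exact NC.symm (MV.A_JV h2 h3 h1 h h4)

theorem r_T_JV (h : TyT F g) (h' : JVS F' g') : NC g g' := by
  obtain ⟨Z, h1, h2, h3⟩ := h'
  exact Finset.disjoint_left.1 (JVA.tyT_JV h h3 h1 (by omega))

/-- the right windows against JV -/
def sR_JV (F F' : Set (Cyc k)) (g g' : DG k) : Prop :=
  ∃ Z : BinaryTree Unit, Is9 .nil .nil Z F' g' ∧ (OddHC.cont Z).count 1 = 0 ∧ 3 ≤ OddHC.ht Z ∧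
    (2 ∈ OddHC.cont Z ∨ (TyR3c F g ∧ 3 < OddHC.ht Z ∧ J1V.Start3 Z) ∨ (TyRq 1 F g ∧ ∀ Y, Z ≠ Y △ .nil) ∨
      (∃ q, 2 ≤ q ∧ TyRq q F g) ∨
      ∃ q, TyRq q F g ∧ ∀ R B S w0, HM.NodeM k q R B S → g = gad20 (H1.wX R B S q w0) →
        J1V.NoQ q R B S Z (xT Z) ∧ J1V.NoQ9 q R Z (xT Z))

theorem r_R_JV (h : RqS F g) (hs : sR_JV F F' g g') : NC g g' := by
  obtain ⟨Z, h1, h2, h3, h4 | ⟨h4, h5, h6⟩ | ⟨h4, h5⟩ | ⟨q, h4, h5⟩ | ⟨q, h4, h5⟩⟩ := hs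
  · obtain ⟨q, h⟩ := h.rq
    exact Finset.disjoint_left.1 (J1V.tyRq_JV2 h h1 h2 h4 h3)
  · exact Finset.disjoint_left.1 (J1V.tyR3c_JV h4 h1 h2 h5 h6)
  · exact Finset.disjoint_left.1 (J1V.tyRq_JV4 h4 h1 h2 (by omega) h5)
  · exact Finset.disjoint_left.1 (J1V.tyRq_JV5 h4 h5 h1 h2 (by omega))
  · exact Finset.disjoint_left.1 (J1V.tyRq_JVg h4 h1 h2 (by omega) h5)

/-- the right windows against JV mirrored -/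
def sR_JVm (F F' : Set (Cyc k)) (g g' : DG k) : Prop :=
  ∃ Z : BinaryTree Unit, Is9M .nil .nil Z F' g' ∧ (OddHC.cont Z).count 1 = 0 ∧ 3 ≤ OddHC.ht Z ∧
    (2 ∈ OddHC.cont Z ∨ (TyRq 1 F g ∧ ∀ Y, Z ≠ Y △ .nil) ∨ (∃ q, 2 ≤ q ∧ TyRq q F g) ∨
      ∃ q, TyRq q F g ∧ ∀ R B S w0, HM.NodeM k q R B S → g = gad20 (H1.wX R B S q w0) →
        J1V.NoQ q R B S Z (xTM Z) ∧ J1V.NoQ9 q R Z (xTM Z))

theorem r_R_JVm (h : RqS F g) (hs : sR_JVm F F' g g') : NC g g' := by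
  obtain ⟨Z, h1, h2, h3, h4 | ⟨h4, h5⟩ | ⟨q, h4, h5⟩ | ⟨q, h4, h5⟩⟩ := hs
  · obtain ⟨q, h⟩ := h.rq
    exact Finset.disjoint_left.1 (J1V.tyRq_JVm2 h h1 h2 h4 h3)
  · exact Finset.disjoint_left.1 (J1V.tyRq_JVm4 h4 h1 h2 (by omega) h5)
  · exact Finset.disjoint_left.1 (J1V.tyRq_JVm5 h4 h5 h1 h2 (by omega))
  · exact Finset.disjoint_left.1 (J1V.tyRq_JVmg h4 h1 h2 (by omega) h5)

theorem r_T_JVm (h : TyT F g) (h' : JVMS F' g') : NC g g' := by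
  obtain ⟨Z, h1, h2, h3⟩ := h'
  exact NC.symm (MV.dis_T h3 h2 h1 h)

theorem r_S5_JVm (h : TyS5l F g) (h' : JVMS F' g') : NC g g' := by
  obtain ⟨Z, h1, h2, h3⟩ := h'
  exact NC.symm (MV.dis_S5 h3 h2 h1 h.toS5)

/-- J1 against JV mirrored -/
def sJ1_JVm (F F' : Set (Cyc k)) (g g' : DG k) : Prop :=
  ∃ Z, JVMD F' g' Z ∧ (2 ∈ OddHC.cont Z ∨ ∀ R B S w0, J1.JDat k R B S → g = gadJA (J1.jX R B S w0) →
    OddHC.cont R = OddHC.cont Z → ¬ MV.T4 R Z)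

theorem r_J1_JVm (h : J1.TyJs F g) (hd : ∀ c ∈ F, c ∉ F') (hs : sJ1_JVm F F' g g') : NC g g' := by
  obtain ⟨Z, ⟨h1, h2, h3⟩, h4 | h4⟩ := hs
  · exact NC.symm ((J1.TyJs.toJ1 h).dis_JVm2 h3 h2 h1 h4 (dsymm hd))
  · exact NC.symm ((J1.TyJs.toJ1 h).dis_JVm h3 h2 h1 (dsymm hd) h4)

/-- JE against JV mirrored -/
def sJE_JVm (F F' : Set (Cyc k)) (g g' : DG k) : Prop :=
  ∃ R Z, TyJE R F g ∧ JVMD F' g' Z ∧ (OddHC.cont R = OddHC.cont Z →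
    ¬ MV.T4 R Z ∧ ∀ Q, ¬ (Z = (.nil △ .nil) △ Q ∧ R = app Q ((.nil △ .nil) △ .nil)))

theorem r_JE_JVm (hd : ∀ c ∈ F, c ∉ F') (hs : sJE_JVm F F' g g') : NC g g' := by
  obtain ⟨R, Z, h, ⟨h1, h2, h3⟩, h4⟩ := hs
  exact NC.symm (h.dis_JVm h3 h2 h1 (dsymm hd) h4)

/-- J3V against JV mirrored -/
def sJ3V_JVm (F F' : Set (Cyc k)) (g g' : DG k) : Prop :=
  ∃ Z, JVMD F' g' Z ∧ ∀ R B S w0, J3.SqD k R B S → g = gadS (J3.sX R B S w0) → OddHC.cont R = OddHC.cont Z →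
    ¬ MV.T4 R Z ∧ ∀ Q, ¬ (Z = (.nil △ .nil) △ Q ∧ R = app Q ((.nil △ .nil) △ .nil))

theorem r_J3V_JVm (h : TyJ3V F g) (hd : ∀ c ∈ F, c ∉ F') (hs : sJ3V_JVm F F' g g') : NC g g' := by
  obtain ⟨Z, ⟨h1, h2, h3⟩, h4⟩ := hs
  exact NC.symm (h.dis_JVm h3 h2 h1 (dsymm hd) h4)

theorem r_A_JE (h : TyA F g) (hs : sA1 F) (h' : JES F' g') : NC g g' := by
  obtain ⟨R, h'⟩ := h'
  exact NC.symm (h'.dis_A h hs)

/-- DOWN links against JV -/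
def sDn_JV (F F' : Set (Cyc k)) (g g' : DG k) : Prop :=
  ∃ U Z, TyC 2 U F g ∧ DnU U ∧ JVD F' g' Z ∧ Z ≠ U △ .nil

theorem r_Dn_JV (hd : ∀ c ∈ F, c ∉ F') (hs : sDn_JV F F' g g') : NC g g' := by
  obtain ⟨U, Z, h1, h2, ⟨h3, h4⟩, h5⟩ := hs
  exact JVW.dnW h1 h2 h4 (nbc_of h3) hd h5

/-- DOWN links against JE -/
def sDn_JE (F F' : Set (Cyc k)) (g g' : DG k) : Prop :=
  ∃ U R, TyC 2 U F g ∧ DnU U ∧ TyJE R F' g' ∧ R ≠ U △ .nil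

theorem r_Dn_JE (hd : ∀ c ∈ F, c ∉ F') (hs : sDn_JE F F' g g') : NC g g' := by
  obtain ⟨U, R, h1, h2, h3, h4⟩ := hs
  exact NC.symm (h3.disj_Dn29 h2 h1 hd h4)

theorem r_J4_JV (h : J1.TyJt F g) (h' : JVS F' g') (hd : ∀ c ∈ F, c ∉ F') : NC g g' := by
  obtain ⟨Z, h1, h2, h3⟩ := h'
  exact NC.symm (h3.dis_Jt h1 h2 h (dsymm hd))

/-! ### JE -/

theorem r_J4_JE (h : J1.TyJt F g) (h' : JES F' g') (hd : ∀ c ∈ F, c ∉ F') : NC g g' := by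
  obtain ⟨R, h5⟩ := h'
  exact NC.symm (h5.dis_Jt h (dsymm hd))

theorem r_JE_JE (h : JES F g) (h' : JES F' g') (hd : ∀ c ∈ F, c ∉ F') : NC g g' := by
  obtain ⟨R, h⟩ := h
  obtain ⟨R', h'⟩ := h'
  exact h.dis_JE h' hd

theorem r_JE_JV (h : JES F g) (h' : JVS F' g') (hd : ∀ c ∈ F, c ∉ F') : NC g g' := by
  obtain ⟨R, h⟩ := h
  obtain ⟨Z, h1, h2, h3⟩ := h'
  exact h.dis_JV h3 h1 h2 hd

/-! ### JV mirrored -/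

def sJVm_E (F F' : Set (Cyc k)) (g g' : DG k) : Prop :=
  ∃ X Z, IsTri .nil X .nil F g ∧ JVMD F' g' Z ∧ X ≠ app Z (.nil △ .nil) ∧ X ≠ Z △ .nil ∧ X ≠ .nil △ Z ∧ X ≠ xTM Z

theorem r_E_JVm (hd : ∀ c ∈ F, c ∉ F') (hs : sJVm_E F F' g g') : NC g g' := by
  obtain ⟨X, Z, h1, ⟨h2, h3, h4⟩, a1, a2, a3, a4⟩ := hs
  exact NC.symm (MV.dis_E h4 h3 h2 h1 (dsymm hd) a1 a2 a3 a4)

/-- deep E against JV mirrored -/
def sEd_JVm (F' : Set (Cyc k)) (g' : DG k) : Prop :=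
  ∃ Z : BinaryTree Unit, C23 Z ∧ 4 ≤ OddHC.ht Z ∧ Is9M .nil .nil Z F' g'

theorem r_Ed_JVm (h : TyEd F g) (hd : ∀ c ∈ F, c ∉ F') (hs : sEd_JVm F' g' ∨ sJVm_E F F' g g') : NC g g' := by
  rcases hs with ⟨Z, h1, h2, h3⟩ | hs
  · exact NC.symm (h3.disj_Ed h1 h2 h)
  · exact r_E_JVm hd hs

def sJVm_L (F F' : Set (Cyc k)) (g g' : DG k) : Prop :=
  ∃ R Z, R ≠ .nil ∧ IsTri (lp 1) R (lp 1) F g ∧ JVMD F' g' Z ∧ ∀ Y, xTM Z ≠ (.nil △ .nil) △ Y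

theorem r_L_JVm (hd : ∀ c ∈ F, c ∉ F') (hs : sJVm_L F F' g g') : NC g g' := by
  obtain ⟨X, Z, h0, h1, ⟨h2, h3, h4⟩, a1⟩ := hs
  exact NC.symm (MV.dis_L h4 h3 h2 h0 h1 (dsymm hd) a1)

def sJVm_K (F F' : Set (Cyc k)) (g g' : DG k) : Prop :=
  ∃ Y Z, 2 ≤ OddHC.ht Y ∧ TyK Y F g ∧ JVMD F' g' Z ∧ xTM Z ≠ Y △ .nil

theorem r_K_JVm (hd : ∀ c ∈ F, c ∉ F') (hs : sJVm_K F F' g g') : NC g g' := by
  obtain ⟨X, Z, h0, h1, ⟨h2, h3, h4⟩, a1⟩ := hs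
  exact NC.symm (MV.dis_K h4 h3 h2 h0 h1 (dsymm hd) a1)

def sJVm_Cr (F F' : Set (Cyc k)) (g g' : DG k) : Prop :=
  ∃ c R Z, 2 ≤ c ∧ 2 ≤ OddHC.ht R ∧ TyC c R F g ∧ JVMD F' g' Z ∧ (c = 2 → Z ≠ R △ .nil) ∧
    (∀ Y, R = .nil △ Y → xTM Z ≠ app Y (H1.ch c △ .nil))

theorem r_Cr_JVm (hd : ∀ c ∈ F, c ∉ F') (hs : sJVm_Cr F F' g g') : NC g g' := by
  obtain ⟨c, R, Z, h1, h2, ht, ⟨h3, h4, h5⟩, a1, a2⟩ := hs
  exact NC.symm (MV.dis_Cr h5 h4 h3 h1 h2 ht (dsymm hd) a1 a2)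

def sJVm_Cl (F F' : Set (Cyc k)) (g g' : DG k) : Prop :=
  ∃ c R Z, 2 ≤ c ∧ 2 ≤ OddHC.ht R ∧ TyC' c R F g ∧ JVMD F' g' Z ∧ (c = 2 → Z ≠ R △ .nil) ∧
    (∀ Y, R = app Y (.nil △ .nil) → xTM Z ≠ H1.ch c △ Y)

theorem r_Cl_JVm (hd : ∀ c ∈ F, c ∉ F') (hs : sJVm_Cl F F' g g') : NC g g' := by
  obtain ⟨c, R, Z, h1, h2, ht, ⟨h3, h4, h5⟩, a1, a2⟩ := hs
  exact NC.symm (MV.dis_Cl h5 h4 h3 h1 h2 ht (dsymm hd) a1 a2)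

/-- the windows A against JV mirrored -/
def sAz_JVm (F F' : Set (Cyc k)) (g g' : DG k) : Prop :=
  sA1 F ∨ ∃ Z, JVMD F' g' Z ∧ ∀ q B1 H s B w0, H1.NodeG k q B1 H s B → g = gad20 (H1.gX q B1 H s B w0) →
    ¬ MV.Cb q (H1.gR B1 H s B) B (Tsq.sq (H1.gR B1 H s B)).1 Z (xTM Z)

theorem r_A_JVm (h : TyA F g) (h' : JVMS F' g') (hs : sAz_JVm F F' g g') : NC g g' := by
  rcases hs with hs | ⟨Z, ⟨h1, h2, h3⟩, h4⟩
  · obtain ⟨Z, h1, h2, h3⟩ := h'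
    exact NC.symm (MV.dis_A h3 h2 h1 h hs)
  · exact NC.symm (MV.A_JVm h3 h2 h1 h h4)

def sJV_JVm (F F' : Set (Cyc k)) (g g' : DG k) : Prop :=
  ∃ Z Z', JVD F g Z ∧ JVMD F' g' Z' ∧ xT Z ≠ xTM Z'

theorem r_JV_JVm (hd : ∀ c ∈ F, c ∉ F') (hs : sJV_JVm F F' g g') : NC g g' := by
  obtain ⟨Z, Z', ⟨h1, h2⟩, ⟨h3, h4, h5⟩, hx⟩ := hs
  exact JVX.dj_JVm h2 h5 h4 h1 h3 hd hx

theorem r_JVm_JVm (h : JVMS F g) (h' : JVMS F' g') (hd : ∀ c ∈ F, c ∉ F') : NC g g' := by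
  obtain ⟨Z, h1, _, h2⟩ := h
  obtain ⟨Z', h1', _, h2'⟩ := h'
  exact JVX.dj_JVmm h2 h2' h1 h1' hd

/-! ### Km -/

theorem r_Km_T (h : KmS F g) (h' : TyT F' g') : NC g g' := by
  obtain ⟨S, _, _, _, _, h1, h2⟩ := h
  exact NC.symm (h'.disj_Km29 h1 h2)

/-! ### L1 -/

/-- E triples against L1 -/
def sE_L1 (F : Set (Cyc k)) (g : DG k) : Prop :=
  (∃ Z r : BinaryTree Unit, ∃ f : List ℕ, Z = ins r f ∧ f.length = 2 * r.numNodes + 1 ∧ Low r ∧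
    IsTri .nil Z .nil F g ∧ ¬ L1.BadE Z) ∨ ∀ Y, IsTri .nil Y .nil F g → ¬ L1.BadE Y

theorem r_E_L1 (hk : 10 ≤ k) (h : TyE F g) (h' : TyL1 F' g') (hs : sE_L1 F g) : NC g g' := by
  rcases hs with ⟨Z, r, f, h1, h2, h3, h4, h5⟩ | hs
  · intro w hw hw'
    exact h5 (h'.badE hk h1 h2 h3 h4 hw' hw)
  · exact h.dis_L1 hk hs h'

/-- L triples against L1 -/
def sL_L1 (F : Set (Cyc k)) (g : DG k) : Prop :=
  ∃ Z : BinaryTree Unit, Z ≠ .nil ∧ H1.fb Z = false ∧ H1.lastB Z = false ∧ IsTri (lp 1) Z (lp 1) F g ∧ ¬ L1.BadL Z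

theorem r_L_L1 (h' : TyL1 F' g') (hs : sL_L1 F g) : NC g g' := by
  obtain ⟨Z, h1, h2, h3, h4, h5⟩ := hs
  intro w hw hw'
  exact h5 (h'.badL h1 h2 h3 h4 hw' hw)

theorem r_L1_JE (hk : 9 ≤ k) (h : TyL1 F g) (h' : JES F' g') (hd : ∀ c ∈ F, c ∉ F') : NC g g' := by
  obtain ⟨R, h'⟩ := h'
  exact dj_L1_JE hk R _ _ _ _ h h' hd

theorem r_L1_JV (hk : 9 ≤ k) (h : TyL1 F g) (h' : JVS F' g') : NC g g' := by
  obtain ⟨Z, h1, _, h2⟩ := h'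
  exact h.disj_JV hk h2 h1

theorem r_L1_JVm (hk : 9 ≤ k) (h : TyL1 F g) (h' : JVMS F' g') : NC g g' := by
  obtain ⟨Z, h1, _, h2⟩ := h'
  exact h.disj_JVm hk h2 h1

end MW

end Pool.OddHC
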