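import Pool.Agent.Work.MP_8f87b2_fin.MatR
import Pool.Agent.Work.MP_8f87b2_fin.MatS
import Pool.Agent.Work.MP_8f87b2_fin.MatJ
import Pool.Agent.Work.MP_8f87b2_fin.MatX
import Pool.Agent.Work.MP_8f87b2_fin.MatY
import Pool.Agent.Work.MP_8f87b2_fin.MatZ
import Pool.Agent.Work.MP_8f87b2_fin.MatP5
import Pool.Agent.Work.MP_8f87b2_fin.MatJ2
import Pool.Agent.Work.MP_8f87b2_fin.MatH
import Pool.Agent.Work.MP_8f87b2_fin.MatJ3

/-!
# The word matrix (helper36; generated from the table of rows)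

`WT` : the group types; `WP t F g` : the (strong) predicate; `Side t t' F F' g g'` : the literal side condition of the row
(`True` if there is none, the statement itself if the row is missing). `matW` : no common word.
-/

set_option autoImplicit false

namespace Pool.OddHC

open Finset Equiv BinaryTree Pool.Agent.Work.MP_8f87b2_co

namespace MW

variable {k : ℕ} {F F' : Set (Cyc k)} {g g' : DG k}

/-- the group types -/
inductive WT

  | En
  | Ed
  | L
  | K
  | Km
  | Cr
  | Cl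
  | Dn
  | Fz
  | S5
  | A
  | Aq
  | Az
  | R
  | RE
  | T
  | J1
  | J4
  | J33
  | JE
  | JV
  | J2
  | L1
  | H
  | P5
  | P5m
  deriving DecidableEq

/-- the predicate of a type -/
def WP : WT → Set (Cyc k) → DG k → Prop
  | .En => TyEnf
  | .Ed => TyEdf
  | .L => TyLG
  | .K => TyKh
  | .Km => KmS
  | .Cr => CrS
  | .Cl => ClS
  | .Dn => TyDn
  | .Fz => TyFz
  | .S5 => TyS5l
  | .A => TyAp
  | .Aq => TyAq
  | .Az => TyAz
  | .R => RqS
  | .RE => RES
  | .T => TyT
  | .J1 => J1.TyJs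
  | .J4 => J1.TyJt
  | .J33 => TyJ33Q
  | .JE => JE4
  | .JV => JV4
  | .J2 => J2S
  | .L1 => TyL1
  | .H => Hole2.TyH
  | .P5 => P5DS
  | .P5m => P5MS

/-- side conditions of the row `En` -/
def sEn : WT → Set (Cyc k) → Set (Cyc k) → DG k → DG k → Prop
  | .En, _, _, _, _ => True
  | .Ed, _, _, _, _ => True
  | .L, _, _, _, _ => True
  | .K, _, _, _, _ => True
  | .Km, _, _, _, _ => True
  | .Cr, _, _, _, _ => True
  | .Cl, _, _, _, _ => True
  | .Dn, _, _, _, _ => True
  | .Fz, _, _, _, _ => True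
  | .S5, _, _, _, _ => True
  | .A, F, F', g, g' => AEok F' g'
  | .Aq, F, F', g, g' => AEok F' g'
  | .Az, F, F', g, g' => AEok F' g'
  | .R, F, F', g, g' => sE_R F F' g'
  | .RE, _, _, _, _ => True
  | .T, _, _, _, _ => True
  | .J1, _, _, _, _ => True
  | .J4, _, _, _, _ => True
  | .J33, F, F', g, g' => sJ3V_E F F' g g'
  | .JE, F, F', g, g' => sJE_E F F' g g'
  | .JV, F, F', g, g' => sJV_E F F' g g'
  | .J2, F, F', g, g' => sE_J2 F F' g g'
  | .L1, _, _, _, _ => True
  | .H, F, F', g, g' => sH_E F' F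
  | .P5, _, _, _, _ => True
  | .P5m, _, _, _, _ => True

theorem wEn (hk : 13 ≤ k) (t' : WT) (h0 : TyEnf F g) (h' : WP t' F' g') (hd : ∀ c ∈ F, c ∉ F')
    (hs : sEn t' F F' g g') : NC g g' := by
  have h : TyEn F g := h0.1
  cases t' with
  | En =>
    have h0' : TyEnf F' g' := h'
    have h' : TyEn F' g' := h0'.1
    exact dj_EE _ _ _ _ h.toE h'.toE hd
  | Ed =>
    have h0' : TyEdf F' g' := h'
    have h' : TyEd F' g' := h0'.1
    exact NC.symm (dj_EdE _ _ _ _ h' h.toE (dsymm hd))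
  | L =>
    have h0' : TyLG F' g' := h'
    have h' : TyL F' g' := h0'.1
    exact dj_EnL _ _ _ _ h h' hd
  | K =>
    have h' : TyKh F' g' := h'
    exact dj_EnK _ _ _ _ h h'.kk hd
  | Km =>
    have h' : KmS F' g' := h'
    exact dj_EnKm _ _ _ _ h h'.km hd
  | Cr =>
    have h' : CrS F' g' := h'
    exact dj_ECr _ _ _ _ h.toE h'.cr hd
  | Cl =>
    have h' : ClS F' g' := h'
    exact dj_ECl _ _ _ _ h.toE h'.cl hd
  | Dn =>
    have h' : TyDn F' g' := h'
    exact dj_EDn _ _ _ _ h.toE h' hd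
  | Fz =>
    have h' : TyFz F' g' := h'
    exact r_E_Fz h.toE h'
  | S5 =>
    have h' : TyS5l F' g' := h'
    exact dj_EnS5 _ _ _ _ h h'.toS5 hd
  | A =>
    have h' : TyAp F' g' := h'
    have hs : AEok F' g' := hs
    exact NC.symm (r_A_E hs h.toE)
  | Aq =>
    have h' : TyAq F' g' := h'
    have hs : AEok F' g' := hs
    exact NC.symm (r_A_E hs h.toE)
  | Az =>
    have h' : TyAz F' g' := h'
    have hs : AEok F' g' := hs
    exact NC.symm (r_A_E hs h.toE)
  | R =>
    have h' : RqS F' g' := h'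
    have hs : sE_R F F' g' := hs
    exact r_E_R h.toE hs
  | RE =>
    have h' : RES F' g' := h'
    exact r_E_RE h.toE h' hd
  | T =>
    have h' : TyT F' g' := h'
    exact NC.symm (dj_TE _ _ _ _ h' h.toE (dsymm hd))
  | J1 =>
    have h' : J1.TyJs F' g' := h'
    exact h0.2.dis_J1 h' hd
  | J4 =>
    have h' : J1.TyJt F' g' := h'
    exact h0.2.dis_J4 h' hd
  | J33 =>
    have h0' : TyJ33Q F' g' := h'
    have h' : TyJ3V F' g' := h0'.toJ3V
    have hs : sJ3V_E F F' g g' := hs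
    exact r_E_J3V hd hs
  | JE =>
    have h0' : JE4 F' g' := h'
    have h' : JES F' g' := h0'.je
    have hs : sJE_E F F' g g' := hs
    exact r_E_JE hd hs
  | JV =>
    have h0' : JV4 F' g' := h'
    have h' : JVS F' g' := h0'.jv
    have hs : sJV_E F F' g g' := hs
    exact r_E_JV hd hs
  | J2 =>
    have h' : J2S F' g' := h'
    have hs : sE_J2 F F' g g' := hs
    exact r_E_J2 hs
  | L1 =>
    have h' : TyL1 F' g' := h'
    exact h0.2.dis_L1 (by omega) h'
  | H =>
    have h' : Hole2.TyH F' g' := h'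
    have hs : sH_E F' F := hs
    exact NC.symm (r_H_E h' h.toE hs)
  | P5 =>
    have h' : P5DS F' g' := h'
    exact r_E_P5 h.toE h' hd
  | P5m =>
    have h' : P5MS F' g' := h'
    exact r_E_P5m h.toE h' hd

/-- side conditions of the row `Ed` -/
def sEd : WT → Set (Cyc k) → Set (Cyc k) → DG k → DG k → Prop
  | .Ed, _, _, _, _ => True
  | .L, F, F', g, g' => TyEp F g ∧ TyLg F' g'
  | .K, F, F', g, g' => (TyEp F g ∧ TyKg F' g') ∨ hneK F F' g'
  | .Km, F, F', g, g' => hneKm F F' g'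
  | .Cr, _, _, _, _ => True
  | .Cl, _, _, _, _ => True
  | .Dn, _, _, _, _ => True
  | .Fz, _, _, _, _ => True
  | .S5, F, F', g, g' => sEdLo F F' g'
  | .A, F, F', g, g' => AEok F' g' ∨ ∀ c ∈ F', 2 ∈ contc c
  | .Aq, F, F', g, g' => AEok F' g' ∨ ∀ c ∈ F', 2 ∈ contc c
  | .Az, F, F', g, g' => AEok F' g' ∨ ∀ c ∈ F', 2 ∈ contc c
  | .R, F, F', g, g' => sE_R F F' g' ∨ TyR3 F' g'
  | .RE, _, _, _, _ => True
  | .T, _, _, _, _ => True
  | .J1, _, _, _, _ => True
  | .J4, _, _, _, _ => True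
  | .J33, F, F', g, g' => (∀ c ∈ F', 2 ≤ (contc c).count 2 ∧ 4 ≤ htc c) ∨ sJ3V_E F F' g g'
  | .JE, F, F', g, g' => sJE_E F F' g g'
  | .JV, F, F', g, g' => sEd_JV F' g' ∨ sJV_E F F' g g'
  | .J2, F, F', g, g' => sE_J2 F F' g g'
  | .L1, _, _, _, _ => True
  | .H, F, F', g, g' => sH_E F' F
  | .P5, _, _, _, _ => True
  | .P5m, _, _, _, _ => True
  | _, _, _, g, g' => NC g g'

theorem wEd (hk : 13 ≤ k) (t' : WT) (h0 : TyEdf F g) (h' : WP t' F' g') (hd : ∀ c ∈ F, c ∉ F')
    (hs : sEd t' F F' g g') : NC g g' := by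
  have h : TyEd F g := h0.1
  cases t' with
  | En => exact hs
  | Ed =>
    have h0' : TyEdf F' g' := h'
    have h' : TyEd F' g' := h0'.1
    exact dj_EdEd _ _ _ _ h h' hd
  | L =>
    have h0' : TyLG F' g' := h'
    have h' : TyL F' g' := h0'.1
    have hs : TyEp F g ∧ TyLg F' g' := hs
    exact dj_EpLg _ _ _ _ hs.1 hs.2 hd
  | K =>
    have h' : TyKh F' g' := h'
    have hs : (TyEp F g ∧ TyKg F' g') ∨ hneK F F' g' := hs
    exact r_Ed_K h hd hs
  | Km =>
    have h' : KmS F' g' := h'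
    have hs : hneKm F F' g' := hs
    exact r_E_Km h.toE hd hs
  | Cr =>
    have h' : CrS F' g' := h'
    exact dj_EdCr _ _ _ _ h h'.cr hd
  | Cl =>
    have h' : ClS F' g' := h'
    exact dj_EdCl _ _ _ _ h h'.cl hd
  | Dn =>
    have h' : TyDn F' g' := h'
    exact dj_EDn _ _ _ _ h.toE h' hd
  | Fz =>
    have h' : TyFz F' g' := h'
    exact r_Ed_Fz h h'
  | S5 =>
    have h' : TyS5l F' g' := h'
    have hs : sEdLo F F' g' := hs
    exact r_Ed_S5 h hd hs
  | A =>
    have h' : TyAp F' g' := h'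
    have hs : AEok F' g' ∨ ∀ c ∈ F', 2 ∈ contc c := hs
    exact r_Ed_A h h' hs
  | Aq =>
    have h' : TyAq F' g' := h'
    have hs : AEok F' g' ∨ ∀ c ∈ F', 2 ∈ contc c := hs
    exact r_Ed_Aq h h' hs
  | Az =>
    have h' : TyAz F' g' := h'
    have hs : AEok F' g' ∨ ∀ c ∈ F', 2 ∈ contc c := hs
    exact r_Ed_Az h h' hs
  | R =>
    have h' : RqS F' g' := h'
    have hs : sE_R F F' g' ∨ TyR3 F' g' := hs
    exact r_Ed_R h hs
  | RE =>
    have h' : RES F' g' := h'
    exact r_E_RE h.toE h' hd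
  | T =>
    have h' : TyT F' g' := h'
    exact NC.symm (dj_TE _ _ _ _ h' h.toE (dsymm hd))
  | J1 =>
    have h' : J1.TyJs F' g' := h'
    exact h0.2.dis_J1 h' hd
  | J4 =>
    have h' : J1.TyJt F' g' := h'
    exact h0.2.dis_J4 h' hd
  | J33 =>
    have h0' : TyJ33Q F' g' := h'
    have h' : TyJ3V F' g' := h0'.toJ3V
    have hs : (∀ c ∈ F', 2 ≤ (contc c).count 2 ∧ 4 ≤ htc c) ∨ sJ3V_E F F' g g' := hs
    exact r_Ed_J3V h h' hd hs
  | JE =>
    have h0' : JE4 F' g' := h'
    have h' : JES F' g' := h0'.je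
    have hs : sJE_E F F' g g' := hs
    exact r_E_JE hd hs
  | JV =>
    have h0' : JV4 F' g' := h'
    have h' : JVS F' g' := h0'.jv
    have hs : sEd_JV F' g' ∨ sJV_E F F' g g' := hs
    exact r_Ed_JV h hd hs
  | J2 =>
    have h' : J2S F' g' := h'
    have hs : sE_J2 F F' g g' := hs
    exact r_E_J2 hs
  | L1 =>
    have h' : TyL1 F' g' := h'
    exact h0.2.dis_L1 (by omega) h'
  | H =>
    have h' : Hole2.TyH F' g' := h'
    have hs : sH_E F' F := hs
    exact NC.symm (r_H_E h' h.toE hs)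
  | P5 =>
    have h' : P5DS F' g' := h'
    exact r_Ed_P5 h h' hd
  | P5m =>
    have h' : P5MS F' g' := h'
    exact r_Ed_P5m h h' hd

/-- side conditions of the row `L` -/
def sL : WT → Set (Cyc k) → Set (Cyc k) → DG k → DG k → Prop
  | .L, _, _, _, _ => True
  | .K, _, _, _, _ => True
  | .Km, _, _, _, _ => True
  | .Cr, _, _, _, _ => True
  | .Cl, _, _, _, _ => True
  | .Dn, _, _, _, _ => True
  | .Fz, _, _, _, _ => True
  | .S5, _, _, _, _ => True
  | .A, _, _, _, _ => True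
  | .Aq, _, _, _, _ => True
  | .Az, _, _, _, _ => True
  | .R, _, _, _, _ => True
  | .RE, _, _, _, _ => True
  | .T, _, _, _, _ => True
  | .J1, _, _, _, _ => True
  | .J4, _, _, _, _ => True
  | .J33, F, F', g, g' => sJ3V_L F F' g g'
  | .JE, F, F', g, g' => sJE_L F F' g g'
  | .JV, F, F', g, g' => sJV_L F F' g g'
  | .J2, F, F', g, g' => sL_J2 F F' g g'
  | .L1, _, _, _, _ => True
  | .H, F, F', g, g' => sH_L F
  | .P5, _, _, _, _ => True
  | .P5m, _, _, _, _ => True
  | _, _, _, g, g' => NC g g'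

theorem wL (hk : 13 ≤ k) (t' : WT) (h0 : TyLG F g) (h' : WP t' F' g') (hd : ∀ c ∈ F, c ∉ F')
    (hs : sL t' F F' g g') : NC g g' := by
  have h : TyL F g := h0.1
  cases t' with
  | En => exact hs
  | Ed => exact hs
  | L =>
    have h0' : TyLG F' g' := h'
    have h' : TyL F' g' := h0'.1
    exact dj_LL _ _ _ _ h h' hd
  | K =>
    have h' : TyKh F' g' := h'
    exact dj_LK _ _ _ _ h h'.kk hd
  | Km =>
    have h' : KmS F' g' := h'
    exact dj_LKm _ _ _ _ h h'.km hd
  | Cr =>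
    have h' : CrS F' g' := h'
    exact dj_LCr _ _ _ _ h h'.cr hd
  | Cl =>
    have h' : ClS F' g' := h'
    exact dj_LCl _ _ _ _ h h'.cl hd
  | Dn =>
    have h' : TyDn F' g' := h'
    exact dj_LDn _ _ _ _ h h' hd
  | Fz =>
    have h' : TyFz F' g' := h'
    exact r_L_Fz h h'
  | S5 =>
    have h' : TyS5l F' g' := h'
    exact dj_LS5 _ _ _ _ h h'.toS5 hd
  | A =>
    have h' : TyAp F' g' := h'
    exact NC.symm (r_A_L h'.toA h)
  | Aq =>
    have h' : TyAq F' g' := h'
    exact NC.symm (r_A_L h'.toA h)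
  | Az =>
    have h' : TyAz F' g' := h'
    exact NC.symm (r_A_L h'.toA h)
  | R =>
    have h' : RqS F' g' := h'
    exact r_L_R h h'
  | RE =>
    have h' : RES F' g' := h'
    exact NC.symm (h'.nc fun c g1 hc h1 => NC.symm (r_L_R h h1))
  | T =>
    have h' : TyT F' g' := h'
    exact NC.symm (dj_TL _ _ _ _ h' h (dsymm hd))
  | J1 =>
    have h' : J1.TyJs F' g' := h'
    exact NC.symm (r_J1_L h' h (dsymm hd))
  | J4 =>
    have h' : J1.TyJt F' g' := h'
    exact NC.symm (r_J4_L h' h (dsymm hd))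
  | J33 =>
    have h0' : TyJ33Q F' g' := h'
    have h' : TyJ3V F' g' := h0'.toJ3V
    have hs : sJ3V_L F F' g g' := hs
    exact r_L_J3V hs
  | JE =>
    have h0' : JE4 F' g' := h'
    have h' : JES F' g' := h0'.je
    have hs : sJE_L F F' g g' := hs
    exact r_L_JE hs
  | JV =>
    have h0' : JV4 F' g' := h'
    have h' : JVS F' g' := h0'.jv
    have hs : sJV_L F F' g g' := hs
    exact r_L_JV hd hs
  | J2 =>
    have h' : J2S F' g' := h'
    have hs : sL_J2 F F' g g' := hs
    exact r_L_J2 hs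
  | L1 =>
    have h' : TyL1 F' g' := h'
    exact h.dis_L1 h0.2 h'
  | H =>
    have h' : Hole2.TyH F' g' := h'
    have hs : sH_L F := hs
    exact NC.symm (r_H_L h' h hs)
  | P5 =>
    have h' : P5DS F' g' := h'
    exact r_L_P5 h h' hd
  | P5m =>
    have h' : P5MS F' g' := h'
    exact r_L_P5m h h' hd

/-- side conditions of the row `K` -/
def sK : WT → Set (Cyc k) → Set (Cyc k) → DG k → DG k → Prop
  | .K, _, _, _, _ => True
  | .Km, _, _, _, _ => True
  | .Cr, _, _, _, _ => True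
  | .Cl, _, _, _, _ => True
  | .Dn, _, _, _, _ => True
  | .Fz, _, _, _, _ => True
  | .S5, _, _, _, _ => True
  | .A, _, _, _, _ => True
  | .Aq, _, _, _, _ => True
  | .Az, _, _, _, _ => True
  | .R, _, _, _, _ => True
  | .RE, _, _, _, _ => True
  | .T, _, _, _, _ => True
  | .J1, _, _, _, _ => True
  | .J4, _, _, _, _ => True
  | .J33, F, F', g, g' => sJ3V_K F F' g g'
  | .JE, F, F', g, g' => sJE_K F F' g g'
  | .JV, F, F', g, g' => sJV_K F F' g g'
  | .J2, F, F', g, g' => sK_J2 F F' g g'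
  | .L1, _, _, _, _ => True
  | .H, F, F', g, g' => sH_K F' F g
  | .P5, _, _, _, _ => True
  | .P5m, _, _, _, _ => True
  | _, _, _, g, g' => NC g g'

theorem wK (hk : 13 ≤ k) (t' : WT) (h : TyKh F g) (h' : WP t' F' g') (hd : ∀ c ∈ F, c ∉ F')
    (hs : sK t' F F' g g') : NC g g' := by
  cases t' with
  | En => exact hs
  | Ed => exact hs
  | L => exact hs
  | K =>
    have h' : TyKh F' g' := h'
    exact dj_KK _ _ _ _ h.kk h'.kk hd
  | Km =>
    have h' : KmS F' g' := h'
    exact dj_KhKm _ _ _ _ h h'.km hd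
  | Cr =>
    have h' : CrS F' g' := h'
    exact dj_KCr _ _ _ _ h.kk h'.cr hd
  | Cl =>
    have h' : ClS F' g' := h'
    exact dj_KCl _ _ _ _ h.kk h'.cl hd
  | Dn =>
    have h' : TyDn F' g' := h'
    exact dj_KhDn _ _ _ _ h h' hd
  | Fz =>
    have h' : TyFz F' g' := h'
    exact r_TyKh_Fz h h'
  | S5 =>
    have h' : TyS5l F' g' := h'
    exact r_K_S5 h h'.toS5 hd
  | A =>
    have h' : TyAp F' g' := h'
    exact NC.symm (r_A_K h'.toA h (dsymm hd))
  | Aq =>
    have h' : TyAq F' g' := h'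
    exact NC.symm (r_A_K h'.toA h (dsymm hd))
  | Az =>
    have h' : TyAz F' g' := h'
    exact NC.symm (r_A_K h'.toA h (dsymm hd))
  | R =>
    have h' : RqS F' g' := h'
    exact r_K_R h h'
  | RE =>
    have h' : RES F' g' := h'
    exact NC.symm (h'.nc fun c g1 hc h1 => NC.symm (r_K_R h h1))
  | T =>
    have h' : TyT F' g' := h'
    exact NC.symm (dj_TKh _ _ _ _ h' h (dsymm hd))
  | J1 =>
    have h' : J1.TyJs F' g' := h'
    exact NC.symm (r_J1_K h' h (dsymm hd))
  | J4 =>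
    have h' : J1.TyJt F' g' := h'
    exact NC.symm (r_J4_K h' h (dsymm hd))
  | J33 =>
    have h0' : TyJ33Q F' g' := h'
    have h' : TyJ3V F' g' := h0'.toJ3V
    have hs : sJ3V_K F F' g g' := hs
    exact r_K_J3V hd hs
  | JE =>
    have h0' : JE4 F' g' := h'
    have h' : JES F' g' := h0'.je
    have hs : sJE_K F F' g g' := hs
    exact r_K_JE hd hs
  | JV =>
    have h0' : JV4 F' g' := h'
    have h' : JVS F' g' := h0'.jv
    have hs : sJV_K F F' g g' := hs
    exact r_K_JV hd hs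
  | J2 =>
    have h' : J2S F' g' := h'
    have hs : sK_J2 F F' g g' := hs
    exact r_K_J2 hd hs
  | L1 =>
    have h' : TyL1 F' g' := h'
    exact r_K_L1 h h'
  | H =>
    have h' : Hole2.TyH F' g' := h'
    have hs : sH_K F' F g := hs
    exact NC.symm (r_H_K h' hs)
  | P5 =>
    have h' : P5DS F' g' := h'
    exact r_K_P5 h h' hd
  | P5m =>
    have h' : P5MS F' g' := h'
    exact r_K_P5m h h' hd

/-- side conditions of the row `Km` -/
def sKm : WT → Set (Cyc k) → Set (Cyc k) → DG k → DG k → Prop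
  | .Km, _, _, _, _ => True
  | .Cr, _, _, _, _ => True
  | .Cl, _, _, _, _ => True
  | .Dn, _, _, _, _ => True
  | .Fz, _, _, _, _ => True
  | .S5, _, _, _, _ => True
  | .A, _, _, _, _ => True
  | .Aq, _, _, _, _ => True
  | .Az, _, _, _, _ => True
  | .R, _, _, _, _ => True
  | .RE, _, _, _, _ => True
  | .T, _, _, _, _ => True
  | .J1, _, _, _, _ => True
  | .J4, _, _, _, _ => True
  | .J33, F, F', g, g' => sJ3V_Km F F' g g'
  | .JE, _, _, _, _ => True
  | .JV, F, F', g, g' => sJV_Km F F' g g'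
  | .J2, F, F', g, g' => sKm_J2 F F' g g'
  | .L1, F, F', g, g' => sKm_L1 F g
  | .H, F, F', g, g' => sH_Km F' F g
  | .P5, _, _, _, _ => True
  | .P5m, _, _, _, _ => True
  | _, _, _, g, g' => NC g g'

theorem wKm (hk : 13 ≤ k) (t' : WT) (h : KmS F g) (h' : WP t' F' g') (hd : ∀ c ∈ F, c ∉ F')
    (hs : sKm t' F F' g g') : NC g g' := by
  cases t' with
  | En => exact hs
  | Ed => exact hs
  | L => exact hs
  | K => exact hs
  | Km =>
    have h' : KmS F' g' := h'
    exact dj_KmKm _ _ _ _ h.km h'.km hd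
  | Cr =>
    have h' : CrS F' g' := h'
    exact dj_KmCr _ _ _ _ h.km h'.cr hd
  | Cl =>
    have h' : ClS F' g' := h'
    exact dj_KmCl _ _ _ _ h.km h'.cl hd
  | Dn =>
    have h' : TyDn F' g' := h'
    exact dj_KmDn _ _ _ _ h.km h' hd
  | Fz =>
    have h' : TyFz F' g' := h'
    exact r_KmS_Fz h h'
  | S5 =>
    have h' : TyS5l F' g' := h'
    exact r_Km_S5 h h'.toS5 hd
  | A =>
    have h' : TyAp F' g' := h'
    exact NC.symm (r_A_Km h'.toA h)
  | Aq =>
    have h' : TyAq F' g' := h'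
    exact NC.symm (r_A_Km h'.toA h)
  | Az =>
    have h' : TyAz F' g' := h'
    exact NC.symm (r_A_Km h'.toA h)
  | R =>
    have h' : RqS F' g' := h'
    exact r_Km_R h h'
  | RE =>
    have h' : RES F' g' := h'
    exact NC.symm (h'.nc fun c g1 hc h1 => NC.symm (r_Km_R h h1))
  | T =>
    have h' : TyT F' g' := h'
    exact r_Km_T h h'
  | J1 =>
    have h' : J1.TyJs F' g' := h'
    exact NC.symm (r_J1_Km h' h (dsymm hd))
  | J4 =>
    have h' : J1.TyJt F' g' := h'
    exact NC.symm (r_J4_Km h' h (dsymm hd))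
  | J33 =>
    have h0' : TyJ33Q F' g' := h'
    have h' : TyJ3V F' g' := h0'.toJ3V
    have hs : sJ3V_Km F F' g g' := hs
    exact r_Km_J3V hd hs
  | JE =>
    have h0' : JE4 F' g' := h'
    have h' : JES F' g' := h0'.je
    exact r_Km_JE h h' hd
  | JV =>
    have h0' : JV4 F' g' := h'
    have h' : JVS F' g' := h0'.jv
    have hs : sJV_Km F F' g g' := hs
    exact r_Km_JV hd hs
  | J2 =>
    have h' : J2S F' g' := h'
    have hs : sKm_J2 F F' g g' := hs
    exact r_Km_J2 hd hs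
  | L1 =>
    have h' : TyL1 F' g' := h'
    have hs : sKm_L1 F g := hs
    exact r_Km_L1 h' hs
  | H =>
    have h' : Hole2.TyH F' g' := h'
    have hs : sH_Km F' F g := hs
    exact NC.symm (r_H_Km h' hs)
  | P5 =>
    have h' : P5DS F' g' := h'
    exact r_Km_P5 h h' hd
  | P5m =>
    have h' : P5MS F' g' := h'
    exact r_Km_P5m h h' hd

/-- side conditions of the row `Cr` -/
def sCr : WT → Set (Cyc k) → Set (Cyc k) → DG k → DG k → Prop
  | .Cr, _, _, _, _ => True
  | .Cl, _, _, _, _ => True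
  | .Dn, _, _, _, _ => True
  | .Fz, F, F', g, g' => sC1 F g
  | .S5, _, _, _, _ => True
  | .A, _, _, _, _ => True
  | .Aq, _, _, _, _ => True
  | .Az, _, _, _, _ => True
  | .R, F, F', g, g' => sCr_R F F' g g'
  | .T, _, _, _, _ => True
  | .J1, _, _, _, _ => True
  | .J4, F, F', g, g' => sCr_J4 F g
  | .J33, F, F', g, g' => sJ3V_Cr F F' g g'
  | .JE, F, F', g, g' => sJE_Cr F F' g g'
  | .JV, _, _, _, _ => True
  | .J2, F, F', g, g' => sCr_J2 F F' g g'
  | .L1, _, _, _, _ => True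
  | .H, _, _, _, _ => True
  | .P5, _, _, _, _ => True
  | .P5m, _, _, _, _ => True
  | _, _, _, g, g' => NC g g'

theorem wCr (hk : 13 ≤ k) (t' : WT) (h : CrS F g) (h' : WP t' F' g') (hd : ∀ c ∈ F, c ∉ F')
    (hs : sCr t' F F' g g') : NC g g' := by
  cases t' with
  | En => exact hs
  | Ed => exact hs
  | L => exact hs
  | K => exact hs
  | Km => exact hs
  | Cr =>
    have h' : CrS F' g' := h'
    exact dj_CrCr _ _ _ _ h.cr h'.cr hd
  | Cl =>
    have h' : ClS F' g' := h'
    exact dj_CrCl _ _ _ _ h.cr h'.cl hd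
  | Dn =>
    have h' : TyDn F' g' := h'
    exact dj_CrDn _ _ _ _ h.cr h' hd
  | Fz =>
    have h' : TyFz F' g' := h'
    have hs : sC1 F g := hs
    exact r_C_Fz hs h'
  | S5 =>
    have h' : TyS5l F' g' := h'
    exact dj_CrS5 _ _ _ _ h.cr h'.toS5 hd
  | A =>
    have h' : TyAp F' g' := h'
    exact NC.symm (r_A_Cr h'.toA h)
  | Aq =>
    have h' : TyAq F' g' := h'
    exact NC.symm (r_A_Cr h'.toA h)
  | Az =>
    have h' : TyAz F' g' := h'
    exact NC.symm (r_A_Cr h'.toA h)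
  | R =>
    have h' : RqS F' g' := h'
    have hs : sCr_R F F' g g' := hs
    exact r_Cr_R hs
  | RE => exact hs
  | T =>
    have h' : TyT F' g' := h'
    exact NC.symm (r_T_Cr h' h)
  | J1 =>
    have h' : J1.TyJs F' g' := h'
    exact NC.symm (r_J1_Cr h' h (dsymm hd))
  | J4 =>
    have h' : J1.TyJt F' g' := h'
    have hs : sCr_J4 F g := hs
    exact r_Cr_J4 hk h' hd hs
  | J33 =>
    have h0' : TyJ33Q F' g' := h'
    have h' : TyJ3V F' g' := h0'.toJ3V
    have hs : sJ3V_Cr F F' g g' := hs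
    exact r_Cr_J3V hd hs
  | JE =>
    have h0' : JE4 F' g' := h'
    have h' : JES F' g' := h0'.je
    have hs : sJE_Cr F F' g g' := hs
    exact r_Cr_JE hd hs
  | JV =>
    have h0' : JV4 F' g' := h'
    have h' : JVS F' g' := h0'.jv
    exact r_Cr_JV h h' hd
  | J2 =>
    have h' : J2S F' g' := h'
    have hs : sCr_J2 F F' g g' := hs
    exact r_Cr_J2 hd hs
  | L1 =>
    have h' : TyL1 F' g' := h'
    exact NC.symm (h'.disj_Cr h.cr)
  | H =>
    have h' : Hole2.TyH F' g' := h'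
    exact NC.symm (r_H_Cr h' h)
  | P5 =>
    have h' : P5DS F' g' := h'
    exact r_Cr_P5 h.cr h' hd
  | P5m =>
    have h' : P5MS F' g' := h'
    exact r_Cr_P5m h.cr h' hd

/-- side conditions of the row `Cl` -/
def sCl : WT → Set (Cyc k) → Set (Cyc k) → DG k → DG k → Prop
  | .Cl, _, _, _, _ => True
  | .Dn, _, _, _, _ => True
  | .Fz, F, F', g, g' => sC1 F g
  | .S5, _, _, _, _ => True
  | .A, _, _, _, _ => True
  | .Aq, _, _, _, _ => True
  | .Az, _, _, _, _ => True
  | .R, F, F', g, g' => sCl_R F F' g g'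
  | .RE, F, F', g, g' => ∃ U, TyC' 2 U F g ∧ 3 ≤ OddHC.ht U ∧ ClC U
  | .T, _, _, _, _ => True
  | .J1, _, _, _, _ => True
  | .J4, F, F', g, g' => sCl_J4 F g
  | .J33, F, F', g, g' => sJ3V_Cl F F' g g'
  | .JE, F, F', g, g' => sJE_Cl F F' g g'
  | .JV, F, F', g, g' => sJV_Cl F F' g g'
  | .J2, F, F', g, g' => sCl_J2 F F' g g'
  | .L1, F, F', g, g' => sCl_L1 F g
  | .H, F, F', g, g' => sH_Cl F g
  | .P5, _, _, _, _ => True
  | .P5m, _, _, _, _ => True
  | _, _, _, g, g' => NC g g'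

theorem wCl (hk : 13 ≤ k) (t' : WT) (h : ClS F g) (h' : WP t' F' g') (hd : ∀ c ∈ F, c ∉ F')
    (hs : sCl t' F F' g g') : NC g g' := by
  cases t' with
  | En => exact hs
  | Ed => exact hs
  | L => exact hs
  | K => exact hs
  | Km => exact hs
  | Cr => exact hs
  | Cl =>
    have h' : ClS F' g' := h'
    exact dj_ClCl _ _ _ _ h.cl h'.cl hd
  | Dn =>
    have h' : TyDn F' g' := h'
    exact dj_ClDn _ _ _ _ h.cl h' hd
  | Fz =>
    have h' : TyFz F' g' := h'
    have hs : sC1 F g := hs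
    exact r_C_Fz hs h'
  | S5 =>
    have h' : TyS5l F' g' := h'
    exact dj_ClS5 _ _ _ _ h.cl h'.toS5 hd
  | A =>
    have h' : TyAp F' g' := h'
    exact NC.symm (r_A_Cl h'.toA h)
  | Aq =>
    have h' : TyAq F' g' := h'
    exact NC.symm (r_A_Cl h'.toA h)
  | Az =>
    have h' : TyAz F' g' := h'
    exact NC.symm (r_A_Cl h'.toA h)
  | R =>
    have h' : RqS F' g' := h'
    have hs : sCl_R F F' g g' := hs
    exact r_Cl_R h' hd hs
  | RE =>
    have h' : RES F' g' := h'
    have hs : ∃ U, TyC' 2 U F g ∧ 3 ≤ OddHC.ht U ∧ ClC U := hs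
    exact NC.symm (h'.nc fun c g1 hc h1 => NC.symm (r_Cl_R h1 (dsymm (single_hd hc (dsymm hd))) (Or.inr hs)))
  | T =>
    have h' : TyT F' g' := h'
    exact NC.symm (r_T_Cl h' h (dsymm hd))
  | J1 =>
    have h' : J1.TyJs F' g' := h'
    exact NC.symm (r_J1_Cl hk h' h (dsymm hd))
  | J4 =>
    have h' : J1.TyJt F' g' := h'
    have hs : sCl_J4 F g := hs
    exact r_Cl_J4 hk h' hd hs
  | J33 =>
    have h0' : TyJ33Q F' g' := h'
    have h' : TyJ3V F' g' := h0'.toJ3V
    have hs : sJ3V_Cl F F' g g' := hs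
    exact r_Cl_J3V hd hs
  | JE =>
    have h0' : JE4 F' g' := h'
    have h' : JES F' g' := h0'.je
    have hs : sJE_Cl F F' g g' := hs
    exact r_Cl_JE hd hs
  | JV =>
    have h0' : JV4 F' g' := h'
    have h' : JVS F' g' := h0'.jv
    have hs : sJV_Cl F F' g g' := hs
    exact r_Cl_JV hd hs
  | J2 =>
    have h' : J2S F' g' := h'
    have hs : sCl_J2 F F' g g' := hs
    exact r_Cl_J2 hd hs
  | L1 =>
    have h' : TyL1 F' g' := h'
    have hs : sCl_L1 F g := hs
    exact r_Cl_L1 h' hd hs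
  | H =>
    have h' : Hole2.TyH F' g' := h'
    have hs : sH_Cl F g := hs
    exact NC.symm (r_H_Cl h' hs)
  | P5 =>
    have h' : P5DS F' g' := h'
    exact r_Cl_P5 h.cl h' hd
  | P5m =>
    have h' : P5MS F' g' := h'
    exact r_Cl_P5m h.cl h' hd

/-- side conditions of the row `Dn` -/
def sDn : WT → Set (Cyc k) → Set (Cyc k) → DG k → DG k → Prop
  | .Dn, _, _, _, _ => True
  | .Fz, _, _, _, _ => True
  | .S5, _, _, _, _ => True
  | .A, _, _, _, _ => True
  | .Aq, _, _, _, _ => True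
  | .Az, _, _, _, _ => True
  | .R, F, F', g, g' => sDn_Rq F F' g g'
  | .T, _, _, _, _ => True
  | .J1, _, _, _, _ => True
  | .J4, _, _, _, _ => True
  | .J33, _, _, _, _ => True
  | .JE, F, F', g, g' => sDn_JE F F' g g'
  | .JV, F, F', g, g' => sDn_JV F F' g g'
  | .J2, F, F', g, g' => sDn_J2 F F' g g'
  | .H, _, _, _, _ => True
  | .P5, _, _, _, _ => True
  | .P5m, _, _, _, _ => True
  | _, _, _, g, g' => NC g g'

theorem wDn (hk : 13 ≤ k) (t' : WT) (h : TyDn F g) (h' : WP t' F' g') (hd : ∀ c ∈ F, c ∉ F')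
    (hs : sDn t' F F' g g') : NC g g' := by
  cases t' with
  | En => exact hs
  | Ed => exact hs
  | L => exact hs
  | K => exact hs
  | Km => exact hs
  | Cr => exact hs
  | Cl => exact hs
  | Dn =>
    have h' : TyDn F' g' := h'
    exact dj_DnDn _ _ _ _ h h' hd
  | Fz =>
    have h' : TyFz F' g' := h'
    exact r_Dn_Fz h h'
  | S5 =>
    have h' : TyS5l F' g' := h'
    exact dj_DnS5 _ _ _ _ h h'.toS5 hd
  | A =>
    have h' : TyAp F' g' := h'
    exact NC.symm (dj_ADn _ _ _ _ h'.toA h (dsymm hd))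
  | Aq =>
    have h' : TyAq F' g' := h'
    exact NC.symm (dj_ADn _ _ _ _ h'.toA h (dsymm hd))
  | Az =>
    have h' : TyAz F' g' := h'
    exact NC.symm (dj_ADn _ _ _ _ h'.toA h (dsymm hd))
  | R =>
    have h' : RqS F' g' := h'
    have hs : sDn_Rq F F' g g' := hs
    exact r_Dn_Rq hd hs
  | RE => exact hs
  | T =>
    have h' : TyT F' g' := h'
    exact NC.symm (dj_TDn _ _ _ _ h' h (dsymm hd))
  | J1 =>
    have h' : J1.TyJs F' g' := h'
    exact dj_DnJs h h' hd
  | J4 =>
    have h' : J1.TyJt F' g' := h'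
    exact dj_DnJt h h' hk hd
  | J33 =>
    have h0' : TyJ33Q F' g' := h'
    have h' : TyJ3V F' g' := h0'.toJ3V
    exact NC.symm (h0'.dis_Dn h)
  | JE =>
    have h0' : JE4 F' g' := h'
    have h' : JES F' g' := h0'.je
    have hs : sDn_JE F F' g g' := hs
    exact r_Dn_JE hd hs
  | JV =>
    have h0' : JV4 F' g' := h'
    have h' : JVS F' g' := h0'.jv
    have hs : sDn_JV F F' g g' := hs
    exact r_Dn_JV hd hs
  | J2 =>
    have h' : J2S F' g' := h'
    have hs : sDn_J2 F F' g g' := hs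
    exact r_Dn_J2 hd hs
  | L1 => exact hs
  | H =>
    have h' : Hole2.TyH F' g' := h'
    exact NC.symm (r_H_Dn h' h)
  | P5 =>
    have h' : P5DS F' g' := h'
    exact r_Dn_P5 h h' hd
  | P5m =>
    have h' : P5MS F' g' := h'
    exact r_Dn_P5m h h' hd

/-- side conditions of the row `Fz` -/
def sFz : WT → Set (Cyc k) → Set (Cyc k) → DG k → DG k → Prop
  | .Fz, _, _, _, _ => True
  | .S5, _, _, _, _ => True
  | .A, _, _, _, _ => True
  | .Aq, _, _, _, _ => True
  | .Az, _, _, _, _ => True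
  | .R, F, F', g, g' => sFz_R F' g'
  | .RE, F, F', g, g' => M2 F'
  | .T, _, _, _, _ => True
  | .J1, _, _, _, _ => True
  | .J4, _, _, _, _ => True
  | .J33, _, _, _, _ => True
  | .JE, _, _, _, _ => True
  | .JV, _, _, _, _ => True
  | .J2, _, _, _, _ => True
  | .L1, _, _, _, _ => True
  | .H, _, _, _, _ => True
  | .P5, _, _, _, _ => True
  | .P5m, _, _, _, _ => True
  | _, _, _, g, g' => NC g g'

theorem wFz (hk : 13 ≤ k) (t' : WT) (h : TyFz F g) (h' : WP t' F' g') (hd : ∀ c ∈ F, c ∉ F')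
    (hs : sFz t' F F' g g') : NC g g' := by
  cases t' with
  | En => exact hs
  | Ed => exact hs
  | L => exact hs
  | K => exact hs
  | Km => exact hs
  | Cr => exact hs
  | Cl => exact hs
  | Dn => exact hs
  | Fz =>
    have h' : TyFz F' g' := h'
    exact r_Fz_Fz h h' hd
  | S5 =>
    have h' : TyS5l F' g' := h'
    exact NC.symm (r_S5_Fz h'.toS5 h)
  | A =>
    have h' : TyAp F' g' := h'
    exact NC.symm (r_A_Fz h'.toA h)
  | Aq =>
    have h' : TyAq F' g' := h'
    exact NC.symm (r_A_Fz h'.toA h)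
  | Az =>
    have h' : TyAz F' g' := h'
    exact NC.symm (r_A_Fz h'.toA h)
  | R =>
    have h' : RqS F' g' := h'
    have hs : sFz_R F' g' := hs
    exact r_Fz_R h h' hs hd
  | RE =>
    have h' : RES F' g' := h'
    have hs : M2 F' := hs
    exact NC.symm (h'.nc fun c g1 hc h1 => NC.symm (r_Fz_R h h1 (Or.inl (hs.one hc)) (dsymm (single_hd hc (dsymm hd)))))
  | T =>
    have h' : TyT F' g' := h'
    exact NC.symm (r_T_Fz h' h)
  | J1 =>
    have h' : J1.TyJs F' g' := h'
    exact NC.symm (r_J1_Fz h' h (dsymm hd))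
  | J4 =>
    have h' : J1.TyJt F' g' := h'
    exact NC.symm (r_J4_Fz hk h' h (dsymm hd))
  | J33 =>
    have h0' : TyJ33Q F' g' := h'
    have h' : TyJ3V F' g' := h0'.toJ3V
    exact NC.symm (r_J3V_Fz h' h)
  | JE =>
    have h0' : JE4 F' g' := h'
    have h' : JES F' g' := h0'.je
    exact NC.symm (r_JE_Fz h' h)
  | JV =>
    have h0' : JV4 F' g' := h'
    have h' : JVS F' g' := h0'.jv
    exact NC.symm ((h'.elim fun _ hz => r_JV_Fz hz.2.2 h))
  | J2 =>
    have h' : J2S F' g' := h'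
    exact r_Fz_J2 h h'
  | L1 =>
    have h' : TyL1 F' g' := h'
    exact r_Fz_L1 h h'
  | H =>
    have h' : Hole2.TyH F' g' := h'
    exact r_Fz_H h h'
  | P5 =>
    have h' : P5DS F' g' := h'
    exact r_Fz_P5 h h' hd
  | P5m =>
    have h' : P5MS F' g' := h'
    exact r_Fz_P5m h h' hd

/-- side conditions of the row `S5` -/
def sS5 : WT → Set (Cyc k) → Set (Cyc k) → DG k → DG k → Prop
  | .S5, _, _, _, _ => True
  | .A, _, _, _, _ => True
  | .Aq, _, _, _, _ => True
  | .Az, _, _, _, _ => True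
  | .R, _, _, _, _ => True
  | .RE, _, _, _, _ => True
  | .T, _, _, _, _ => True
  | .J1, _, _, _, _ => True
  | .J4, _, _, _, _ => True
  | .J33, F, F', g, g' => ∀ c ∈ F', 2 ≤ (contc c).countP (3 ≤ ·)
  | .JE, _, _, _, _ => True
  | .JV, _, _, _, _ => True
  | .J2, _, _, _, _ => True
  | .L1, _, _, _, _ => True
  | .H, _, _, _, _ => True
  | .P5, _, _, _, _ => True
  | .P5m, _, _, _, _ => True
  | _, _, _, g, g' => NC g g'

theorem wS5 (hk : 13 ≤ k) (t' : WT) (h : TyS5l F g) (h' : WP t' F' g') (hd : ∀ c ∈ F, c ∉ F')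
    (hs : sS5 t' F F' g g') : NC g g' := by
  cases t' with
  | En => exact hs
  | Ed => exact hs
  | L => exact hs
  | K => exact hs
  | Km => exact hs
  | Cr => exact hs
  | Cl => exact hs
  | Dn => exact hs
  | Fz => exact hs
  | S5 =>
    have h' : TyS5l F' g' := h'
    exact r_S5_S5 h h' hd
  | A =>
    have h' : TyAp F' g' := h'
    exact NC.symm (dj_AS5 _ _ _ _ h'.toA h.toS5 (dsymm hd))
  | Aq =>
    have h' : TyAq F' g' := h'
    exact NC.symm (dj_AS5 _ _ _ _ h'.toA h.toS5 (dsymm hd))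
  | Az =>
    have h' : TyAz F' g' := h'
    exact NC.symm (dj_AS5 _ _ _ _ h'.toA h.toS5 (dsymm hd))
  | R =>
    have h' : RqS F' g' := h'
    exact r_S5_R h h'
  | RE =>
    have h' : RES F' g' := h'
    exact NC.symm (h'.nc fun c g1 hc h1 => NC.symm (r_S5_R h h1))
  | T =>
    have h' : TyT F' g' := h'
    exact NC.symm (dj_TS5 _ _ _ _ h' h.toS5 (dsymm hd))
  | J1 =>
    have h' : J1.TyJs F' g' := h'
    exact r_S5_J1 h h'
  | J4 =>
    have h' : J1.TyJt F' g' := h'
    exact r_S5_J4 h h'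
  | J33 =>
    have h0' : TyJ33Q F' g' := h'
    have h' : TyJ3V F' g' := h0'.toJ3V
    have hs : ∀ c ∈ F', 2 ≤ (contc c).countP (3 ≤ ·) := hs
    exact r_S5_J3V h h' hd hs
  | JE =>
    have h0' : JE4 F' g' := h'
    have h' : JES F' g' := h0'.je
    exact r_S5_JE h h'
  | JV =>
    have h0' : JV4 F' g' := h'
    have h' : JVS F' g' := h0'.jv
    exact r_S5_JV h.toS5 h'
  | J2 =>
    have h' : J2S F' g' := h'
    exact r_S5_J2 h h'
  | L1 =>
    have h' : TyL1 F' g' := h'
    exact NC.symm (L1S5.dj_L1S5 h' h.toS5)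
  | H =>
    have h' : Hole2.TyH F' g' := h'
    exact NC.symm (r_H_S5 h' h)
  | P5 =>
    have h' : P5DS F' g' := h'
    exact r_S5_P5 h h'
  | P5m =>
    have h' : P5MS F' g' := h'
    exact r_S5_P5m h h'

/-- side conditions of the row `A` -/
def sA : WT → Set (Cyc k) → Set (Cyc k) → DG k → DG k → Prop
  | .A, _, _, _, _ => True
  | .Aq, _, _, _, _ => True
  | .Az, _, _, _, _ => True
  | .R, _, _, _, _ => True
  | .RE, _, _, _, _ => True
  | .T, _, _, _, _ => True
  | .J1, F, F', g, g' => ∀ c ∈ F, contc c ≠ {k - 4} + {3} + {1}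
  | .J4, _, _, _, _ => True
  | .J33, F, F', g, g' => sA_J33 F
  | .JE, F, F', g, g' => sA1 F
  | .JV, F, F', g, g' => sAz_JV F F' g g'
  | .J2, F, F', g, g' => sA_J2 F F' g g'
  | .H, F, F', g, g' => sH_A F
  | .P5, F, F', g, g' => EdIn F' g ∧ A3 F
  | .P5m, F, F', g, g' => EdIn F' g ∧ A3 F
  | _, _, _, g, g' => NC g g'

theorem wA (hk : 13 ≤ k) (t' : WT) (h : TyAp F g) (h' : WP t' F' g') (hd : ∀ c ∈ F, c ∉ F')
    (hs : sA t' F F' g g') : NC g g' := by
  cases t' with
  | En => exact hs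
  | Ed => exact hs
  | L => exact hs
  | K => exact hs
  | Km => exact hs
  | Cr => exact hs
  | Cl => exact hs
  | Dn => exact hs
  | Fz => exact hs
  | S5 => exact hs
  | A =>
    have h' : TyAp F' g' := h'
    exact r_A_A h.toA h'.toA hd
  | Aq =>
    have h' : TyAq F' g' := h'
    exact r_A_A h.toA h'.toA hd
  | Az =>
    have h' : TyAz F' g' := h'
    exact r_A_A h.toA h'.toA hd
  | R =>
    have h' : RqS F' g' := h'
    exact r_A_R h h'
  | RE =>
    have h' : RES F' g' := h'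
    exact NC.symm (h'.nc fun c g1 hc h1 => NC.symm (r_A_R h h1))
  | T =>
    have h' : TyT F' g' := h'
    exact NC.symm (dj_TA _ _ _ _ h' h.toA (dsymm hd))
  | J1 =>
    have h' : J1.TyJs F' g' := h'
    have hs : ∀ c ∈ F, contc c ≠ {k - 4} + {3} + {1} := hs
    exact J1.js_A h.toA h' hk hs
  | J4 =>
    have h' : J1.TyJt F' g' := h'
    exact J1.jt_A h.toA h' hk
  | J33 =>
    have h0' : TyJ33Q F' g' := h'
    have h' : TyJ3V F' g' := h0'.toJ3V
    have hs : sA_J33 F := hs
    exact r_A_J33 h.toA h0' hs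
  | JE =>
    have h0' : JE4 F' g' := h'
    have h' : JES F' g' := h0'.je
    have hs : sA1 F := hs
    exact r_A_JE h.toA hs h'
  | JV =>
    have h0' : JV4 F' g' := h'
    have h' : JVS F' g' := h0'.jv
    have hs : sAz_JV F F' g g' := hs
    exact r_A_JV h.toA h' hs
  | J2 =>
    have h' : J2S F' g' := h'
    have hs : sA_J2 F F' g g' := hs
    exact r_A_J2 h.toA hs
  | L1 => exact hs
  | H =>
    have h' : Hole2.TyH F' g' := h'
    have hs : sH_A F := hs
    exact NC.symm (r_H_A h' h.toA hs)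
  | P5 =>
    have h' : P5DS F' g' := h'
    have hs : EdIn F' g ∧ A3 F := hs
    exact r_A_P5 h.toA h' hd hs
  | P5m =>
    have h' : P5MS F' g' := h'
    have hs : EdIn F' g ∧ A3 F := hs
    exact r_A_P5m h.toA h' hd hs

/-- side conditions of the row `Aq` -/
def sAq : WT → Set (Cyc k) → Set (Cyc k) → DG k → DG k → Prop
  | .Aq, _, _, _, _ => True
  | .Az, _, _, _, _ => True
  | .R, _, _, _, _ => True
  | .RE, _, _, _, _ => True
  | .T, _, _, _, _ => True
  | .J1, F, F', g, g' => ∀ c ∈ F, contc c ≠ {k - 4} + {3} + {1}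
  | .J4, _, _, _, _ => True
  | .J33, F, F', g, g' => sA_J33 F
  | .JE, F, F', g, g' => sA1 F
  | .JV, F, F', g, g' => sAz_JV F F' g g'
  | .J2, F, F', g, g' => sA_J2 F F' g g'
  | .H, F, F', g, g' => sH_A F
  | .P5, F, F', g, g' => EdIn F' g ∧ A3 F
  | .P5m, F, F', g, g' => EdIn F' g ∧ A3 F
  | _, _, _, g, g' => NC g g'

theorem wAq (hk : 13 ≤ k) (t' : WT) (h : TyAq F g) (h' : WP t' F' g') (hd : ∀ c ∈ F, c ∉ F')
    (hs : sAq t' F F' g g') : NC g g' := by
  cases t' with
  | En => exact hs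
  | Ed => exact hs
  | L => exact hs
  | K => exact hs
  | Km => exact hs
  | Cr => exact hs
  | Cl => exact hs
  | Dn => exact hs
  | Fz => exact hs
  | S5 => exact hs
  | A => exact hs
  | Aq =>
    have h' : TyAq F' g' := h'
    exact r_A_A h.toA h'.toA hd
  | Az =>
    have h' : TyAz F' g' := h'
    exact r_A_A h.toA h'.toA hd
  | R =>
    have h' : RqS F' g' := h'
    exact r_Aq_R h h'
  | RE =>
    have h' : RES F' g' := h'
    exact NC.symm (h'.nc fun c g1 hc h1 => NC.symm (r_Aq_R h h1))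
  | T =>
    have h' : TyT F' g' := h'
    exact NC.symm (dj_TA _ _ _ _ h' h.toA (dsymm hd))
  | J1 =>
    have h' : J1.TyJs F' g' := h'
    have hs : ∀ c ∈ F, contc c ≠ {k - 4} + {3} + {1} := hs
    exact J1.js_A h.toA h' hk hs
  | J4 =>
    have h' : J1.TyJt F' g' := h'
    exact J1.jt_A h.toA h' hk
  | J33 =>
    have h0' : TyJ33Q F' g' := h'
    have h' : TyJ3V F' g' := h0'.toJ3V
    have hs : sA_J33 F := hs
    exact r_A_J33 h.toA h0' hs
  | JE =>
    have h0' : JE4 F' g' := h'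
    have h' : JES F' g' := h0'.je
    have hs : sA1 F := hs
    exact r_A_JE h.toA hs h'
  | JV =>
    have h0' : JV4 F' g' := h'
    have h' : JVS F' g' := h0'.jv
    have hs : sAz_JV F F' g g' := hs
    exact r_A_JV h.toA h' hs
  | J2 =>
    have h' : J2S F' g' := h'
    have hs : sA_J2 F F' g g' := hs
    exact r_A_J2 h.toA hs
  | L1 => exact hs
  | H =>
    have h' : Hole2.TyH F' g' := h'
    have hs : sH_A F := hs
    exact NC.symm (r_H_A h' h.toA hs)
  | P5 =>
    have h' : P5DS F' g' := h'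
    have hs : EdIn F' g ∧ A3 F := hs
    exact r_A_P5 h.toA h' hd hs
  | P5m =>
    have h' : P5MS F' g' := h'
    have hs : EdIn F' g ∧ A3 F := hs
    exact r_A_P5m h.toA h' hd hs

/-- side conditions of the row `Az` -/
def sAz : WT → Set (Cyc k) → Set (Cyc k) → DG k → DG k → Prop
  | .Az, _, _, _, _ => True
  | .R, _, _, _, _ => True
  | .RE, _, _, _, _ => True
  | .T, _, _, _, _ => True
  | .J1, F, F', g, g' => ∀ c ∈ F, contc c ≠ {k - 4} + {3} + {1}
  | .J4, _, _, _, _ => True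
  | .J33, F, F', g, g' => sA_J33 F
  | .JE, F, F', g, g' => sA1 F
  | .JV, F, F', g, g' => sAz_JV F F' g g'
  | .J2, F, F', g, g' => sA_J2 F F' g g'
  | .H, F, F', g, g' => sH_A F
  | .P5, F, F', g, g' => EdIn F' g ∧ A3 F
  | .P5m, F, F', g, g' => EdIn F' g ∧ A3 F
  | _, _, _, g, g' => NC g g'

theorem wAz (hk : 13 ≤ k) (t' : WT) (h : TyAz F g) (h' : WP t' F' g') (hd : ∀ c ∈ F, c ∉ F')
    (hs : sAz t' F F' g g') : NC g g' := by
  cases t' with
  | En => exact hs
  | Ed => exact hs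
  | L => exact hs
  | K => exact hs
  | Km => exact hs
  | Cr => exact hs
  | Cl => exact hs
  | Dn => exact hs
  | Fz => exact hs
  | S5 => exact hs
  | A => exact hs
  | Aq => exact hs
  | Az =>
    have h' : TyAz F' g' := h'
    exact r_A_A h.toA h'.toA hd
  | R =>
    have h' : RqS F' g' := h'
    exact r_Az_R h h'
  | RE =>
    have h' : RES F' g' := h'
    exact NC.symm (h'.nc fun c g1 hc h1 => NC.symm (r_Az_R h h1))
  | T =>
    have h' : TyT F' g' := h'
    exact NC.symm (dj_TA _ _ _ _ h' h.toA (dsymm hd))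
  | J1 =>
    have h' : J1.TyJs F' g' := h'
    have hs : ∀ c ∈ F, contc c ≠ {k - 4} + {3} + {1} := hs
    exact J1.js_A h.toA h' hk hs
  | J4 =>
    have h' : J1.TyJt F' g' := h'
    exact J1.jt_A h.toA h' hk
  | J33 =>
    have h0' : TyJ33Q F' g' := h'
    have h' : TyJ3V F' g' := h0'.toJ3V
    have hs : sA_J33 F := hs
    exact r_A_J33 h.toA h0' hs
  | JE =>
    have h0' : JE4 F' g' := h'
    have h' : JES F' g' := h0'.je
    have hs : sA1 F := hs
    exact r_A_JE h.toA hs h'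
  | JV =>
    have h0' : JV4 F' g' := h'
    have h' : JVS F' g' := h0'.jv
    have hs : sAz_JV F F' g g' := hs
    exact r_A_JV h.toA h' hs
  | J2 =>
    have h' : J2S F' g' := h'
    have hs : sA_J2 F F' g g' := hs
    exact r_A_J2 h.toA hs
  | L1 => exact hs
  | H =>
    have h' : Hole2.TyH F' g' := h'
    have hs : sH_A F := hs
    exact NC.symm (r_H_A h' h.toA hs)
  | P5 =>
    have h' : P5DS F' g' := h'
    have hs : EdIn F' g ∧ A3 F := hs
    exact r_A_P5 h.toA h' hd hs
  | P5m =>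
    have h' : P5MS F' g' := h'
    have hs : EdIn F' g ∧ A3 F := hs
    exact r_A_P5m h.toA h' hd hs

/-- side conditions of the row `R` -/
def sR : WT → Set (Cyc k) → Set (Cyc k) → DG k → DG k → Prop
  | .R, F, F', g, g' => M2 F ∧ M2 F'
  | .RE, F, F', g, g' => M2 F ∧ M2 F'
  | .T, _, _, _, _ => True
  | .J1, _, _, _, _ => True
  | .J4, _, _, _, _ => True
  | .J33, _, _, _, _ => True
  | .JV, F, F', g, g' => sR_JV F F' g g'
  | .J2, F, F', g, g' => sR_J2 F F' g g'
  | .L1, _, _, _, _ => True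
  | .H, _, _, _, _ => True
  | .P5, F, F', g, g' => EdIn F' g
  | .P5m, F, F', g, g' => EdIn F' g
  | _, _, _, g, g' => NC g g'

theorem wR (hk : 13 ≤ k) (t' : WT) (h : RqS F g) (h' : WP t' F' g') (hd : ∀ c ∈ F, c ∉ F')
    (hs : sR t' F F' g g') : NC g g' := by
  cases t' with
  | En => exact hs
  | Ed => exact hs
  | L => exact hs
  | K => exact hs
  | Km => exact hs
  | Cr => exact hs
  | Cl => exact hs
  | Dn => exact hs
  | Fz => exact hs
  | S5 => exact hs
  | A => exact hs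
  | Aq => exact hs
  | Az => exact hs
  | R =>
    have h' : RqS F' g' := h'
    have hs : M2 F ∧ M2 F' := hs
    exact r_R_R h h' hs.1 hs.2 hd
  | RE =>
    have h' : RES F' g' := h'
    have hs : M2 F ∧ M2 F' := hs
    exact NC.symm (h'.nc fun c g1 hc h1 => r_R_R h1 h (hs.2.one hc) hs.1 (single_hd hc (dsymm hd)))
  | T =>
    have h' : TyT F' g' := h'
    exact r_R_T h h' hd
  | J1 =>
    have h' : J1.TyJs F' g' := h'
    exact r_R_J1c hk h h'
  | J4 =>
    have h' : J1.TyJt F' g' := h'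
    exact r_R_J4c hk h h'
  | J33 =>
    have h0' : TyJ33Q F' g' := h'
    have h' : TyJ3V F' g' := h0'.toJ3V
    exact r_R_J33 h h0'
  | JE => exact hs
  | JV =>
    have h0' : JV4 F' g' := h'
    have h' : JVS F' g' := h0'.jv
    have hs : sR_JV F F' g g' := hs
    exact r_R_JV h hs
  | J2 =>
    have h' : J2S F' g' := h'
    have hs : sR_J2 F F' g g' := hs
    exact r_R_J2 h hd hs
  | L1 =>
    have h' : TyL1 F' g' := h'
    exact r_R_L1 h h'
  | H =>
    have h' : Hole2.TyH F' g' := h'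
    exact NC.symm (r_H_R h' h)
  | P5 =>
    have h' : P5DS F' g' := h'
    have hs : EdIn F' g := hs
    exact r_R_P5 h h' hd hs
  | P5m =>
    have h' : P5MS F' g' := h'
    have hs : EdIn F' g := hs
    exact r_R_P5m h h' hd hs

/-- side conditions of the row `RE` -/
def sRE : WT → Set (Cyc k) → Set (Cyc k) → DG k → DG k → Prop
  | .RE, F, F', g, g' => M2 F ∧ M2 F'
  | .T, _, _, _, _ => True
  | .J1, _, _, _, _ => True
  | .J4, _, _, _, _ => True
  | .J33, _, _, _, _ => True
  | .JV, F, F', g, g' => sRE_JV F' g'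
  | .J2, F, F', g, g' => sRE_J2 F F' g'
  | .L1, _, _, _, _ => True
  | .H, _, _, _, _ => True
  | .P5, F, F', g, g' => EdIn F' g
  | .P5m, F, F', g, g' => EdIn F' g
  | _, _, _, g, g' => NC g g'

theorem wRE (hk : 13 ≤ k) (t' : WT) (h : RES F g) (h' : WP t' F' g') (hd : ∀ c ∈ F, c ∉ F')
    (hs : sRE t' F F' g g') : NC g g' := by
  cases t' with
  | En => exact hs
  | Ed => exact hs
  | L => exact hs
  | K => exact hs
  | Km => exact hs
  | Cr => exact hs
  | Cl => exact hs
  | Dn => exact hs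
  | Fz => exact hs
  | S5 => exact hs
  | A => exact hs
  | Aq => exact hs
  | Az => exact hs
  | R => exact hs
  | RE =>
    have h' : RES F' g' := h'
    have hs : M2 F ∧ M2 F' := hs
    exact h.nc fun c g1 hc h1 => NC.symm (h'.nc fun c' g1' hc' h1' => r_R_R h1' h1 (hs.2.one hc') (hs.1.one hc) (single_hd hc' (dsymm (single_hd hc hd))))
  | T =>
    have h' : TyT F' g' := h'
    exact h.nc fun c g1 hc h1 => r_R_T h1 h' (single_hd hc hd)
  | J1 =>
    have h' : J1.TyJs F' g' := h'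
    exact h.nc fun c g1 hc h1 => r_R_J1c hk h1 h'
  | J4 =>
    have h' : J1.TyJt F' g' := h'
    exact h.nc fun c g1 hc h1 => r_R_J4c hk h1 h'
  | J33 =>
    have h0' : TyJ33Q F' g' := h'
    have h' : TyJ3V F' g' := h0'.toJ3V
    exact h.nc fun c g1 hc h1 => r_R_J33 h1 h0'
  | JE => exact hs
  | JV =>
    have h0' : JV4 F' g' := h'
    have h' : JVS F' g' := h0'.jv
    have hs : sRE_JV F' g' := hs
    exact r_RE_JV h hs
  | J2 =>
    have h' : J2S F' g' := h'
    have hs : sRE_J2 F F' g' := hs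
    exact r_RE_J2 h hd hs
  | L1 =>
    have h' : TyL1 F' g' := h'
    exact r_RE_L1 h h'
  | H =>
    have h' : Hole2.TyH F' g' := h'
    exact NC.symm (r_H_RE h' h)
  | P5 =>
    have h' : P5DS F' g' := h'
    have hs : EdIn F' g := hs
    exact r_RE_P5 h h' hd hs
  | P5m =>
    have h' : P5MS F' g' := h'
    have hs : EdIn F' g := hs
    exact r_RE_P5m h h' hd hs

/-- side conditions of the row `T` -/
def sT : WT → Set (Cyc k) → Set (Cyc k) → DG k → DG k → Prop
  | .T, _, _, _, _ => True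
  | .J1, _, _, _, _ => True
  | .J4, _, _, _, _ => True
  | .J33, _, _, _, _ => True
  | .JE, _, _, _, _ => True
  | .JV, _, _, _, _ => True
  | .J2, _, _, _, _ => True
  | .L1, _, _, _, _ => True
  | .H, _, _, _, _ => True
  | .P5, _, _, _, _ => True
  | .P5m, _, _, _, _ => True
  | _, _, _, g, g' => NC g g'

theorem wT (hk : 13 ≤ k) (t' : WT) (h : TyT F g) (h' : WP t' F' g') (hd : ∀ c ∈ F, c ∉ F')
    (hs : sT t' F F' g g') : NC g g' := by
  cases t' with
  | En => exact hs
  | Ed => exact hs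
  | L => exact hs
  | K => exact hs
  | Km => exact hs
  | Cr => exact hs
  | Cl => exact hs
  | Dn => exact hs
  | Fz => exact hs
  | S5 => exact hs
  | A => exact hs
  | Aq => exact hs
  | Az => exact hs
  | R => exact hs
  | RE => exact hs
  | T =>
    have h' : TyT F' g' := h'
    exact dj_TT _ _ _ _ h h' hd
  | J1 =>
    have h' : J1.TyJs F' g' := h'
    exact NC.symm (r_J1_T hk h' h)
  | J4 =>
    have h' : J1.TyJt F' g' := h'
    exact J1.jt_T h h' hk
  | J33 =>
    have h0' : TyJ33Q F' g' := h'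
    have h' : TyJ3V F' g' := h0'.toJ3V
    exact dj_TJ3V _ _ _ _ h h' hd
  | JE =>
    have h0' : JE4 F' g' := h'
    have h' : JES F' g' := h0'.je
    exact r_T_JE h h'
  | JV =>
    have h0' : JV4 F' g' := h'
    have h' : JVS F' g' := h0'.jv
    exact r_T_JV h h'
  | J2 =>
    have h' : J2S F' g' := h'
    exact r_T_J2 h h'
  | L1 =>
    have h' : TyL1 F' g' := h'
    exact h.disj_L1 (by omega) h'
  | H =>
    have h' : Hole2.TyH F' g' := h'
    exact NC.symm (r_H_T h' h)
  | P5 =>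
    have h' : P5DS F' g' := h'
    exact r_T_P5 h h' hd
  | P5m =>
    have h' : P5MS F' g' := h'
    exact r_T_P5m h h' hd

/-- side conditions of the row `J1` -/
def sJ1 : WT → Set (Cyc k) → Set (Cyc k) → DG k → DG k → Prop
  | .J1, _, _, _, _ => True
  | .J4, _, _, _, _ => True
  | .J33, _, _, _, _ => True
  | .JE, _, _, _, _ => True
  | .JV, _, _, _, _ => True
  | .J2, _, _, _, _ => True
  | .L1, _, _, _, _ => True
  | .H, _, _, _, _ => True
  | .P5, F, F', g, g' => EdIn F' g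
  | .P5m, F, F', g, g' => EdIn F' g
  | _, _, _, g, g' => NC g g'

theorem wJ1 (hk : 13 ≤ k) (t' : WT) (h : J1.TyJs F g) (h' : WP t' F' g') (hd : ∀ c ∈ F, c ∉ F')
    (hs : sJ1 t' F F' g g') : NC g g' := by
  cases t' with
  | En => exact hs
  | Ed => exact hs
  | L => exact hs
  | K => exact hs
  | Km => exact hs
  | Cr => exact hs
  | Cl => exact hs
  | Dn => exact hs
  | Fz => exact hs
  | S5 => exact hs
  | A => exact hs
  | Aq => exact hs
  | Az => exact hs
  | R => exact hs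
  | RE => exact hs
  | T => exact hs
  | J1 =>
    have h' : J1.TyJs F' g' := h'
    exact r_J1_J1 h h' hd
  | J4 =>
    have h' : J1.TyJt F' g' := h'
    exact r_J1_J4 h h'
  | J33 =>
    have h0' : TyJ33Q F' g' := h'
    have h' : TyJ3V F' g' := h0'.toJ3V
    exact NC.symm (h0'.dis_J1 hk h)
  | JE =>
    have h0' : JE4 F' g' := h'
    have h' : JES F' g' := h0'.je
    exact r_J1_JE (by omega) h h' hd
  | JV =>
    have h0' : JV4 F' g' := h'
    have h' : JVS F' g' := h0'.jv
    exact r_J1_JV (by omega) h h' hd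
  | J2 =>
    have h' : J2S F' g' := h'
    exact r_J1_J2 hk h h' hd
  | L1 =>
    have h' : TyL1 F' g' := h'
    exact NC.symm (dj_L1_J1 (by omega) _ _ _ _ h' (J1.TyJs.toJ1 h) (dsymm hd))
  | H =>
    have h' : Hole2.TyH F' g' := h'
    exact NC.symm (r_H_J1 h' h)
  | P5 =>
    have h' : P5DS F' g' := h'
    have hs : EdIn F' g := hs
    exact r_J1_P5 h h' hd hs
  | P5m =>
    have h' : P5MS F' g' := h'
    have hs : EdIn F' g := hs
    exact r_J1_P5m h h' hd hs

/-- side conditions of the row `J4` -/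
def sJ4 : WT → Set (Cyc k) → Set (Cyc k) → DG k → DG k → Prop
  | .J4, _, _, _, _ => True
  | .J33, _, _, _, _ => True
  | .JE, _, _, _, _ => True
  | .JV, _, _, _, _ => True
  | .J2, _, _, _, _ => True
  | .L1, _, _, _, _ => True
  | .H, _, _, _, _ => True
  | .P5, F, F', g, g' => EdIn F' g
  | .P5m, F, F', g, g' => EdIn F' g
  | _, _, _, g, g' => NC g g'

theorem wJ4 (hk : 13 ≤ k) (t' : WT) (h : J1.TyJt F g) (h' : WP t' F' g') (hd : ∀ c ∈ F, c ∉ F')
    (hs : sJ4 t' F F' g g') : NC g g' := by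
  cases t' with
  | En => exact hs
  | Ed => exact hs
  | L => exact hs
  | K => exact hs
  | Km => exact hs
  | Cr => exact hs
  | Cl => exact hs
  | Dn => exact hs
  | Fz => exact hs
  | S5 => exact hs
  | A => exact hs
  | Aq => exact hs
  | Az => exact hs
  | R => exact hs
  | RE => exact hs
  | T => exact hs
  | J1 => exact hs
  | J4 =>
    have h' : J1.TyJt F' g' := h'
    exact r_J4_J4 h h' hd
  | J33 =>
    have h0' : TyJ33Q F' g' := h'
    have h' : TyJ3V F' g' := h0'.toJ3V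
    exact NC.symm (h0'.dis_J4 hk h)
  | JE =>
    have h0' : JE4 F' g' := h'
    have h' : JES F' g' := h0'.je
    exact r_J4_JE h h' hd
  | JV =>
    have h0' : JV4 F' g' := h'
    have h' : JVS F' g' := h0'.jv
    exact r_J4_JV h h' hd
  | J2 =>
    have h' : J2S F' g' := h'
    exact r_J4_J2 hk h h' hd
  | L1 =>
    have h' : TyL1 F' g' := h'
    exact NC.symm (dj_L1_Jt (by omega) _ _ _ _ h' h (dsymm hd))
  | H =>
    have h' : Hole2.TyH F' g' := h'
    exact NC.symm (r_H_J4 h' h)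
  | P5 =>
    have h' : P5DS F' g' := h'
    have hs : EdIn F' g := hs
    exact r_J4_P5 h h' hd hs
  | P5m =>
    have h' : P5MS F' g' := h'
    have hs : EdIn F' g := hs
    exact r_J4_P5m h h' hd hs

/-- side conditions of the row `J33` -/
def sJ33 : WT → Set (Cyc k) → Set (Cyc k) → DG k → DG k → Prop
  | .J33, F, F', g, g' => (∀ c ∈ F, ∀ c' ∈ F', contc c ≠ contc c') ∨ J59.sJ33J33 F F' g g'
  | .JE, _, _, _, _ => True
  | .JV, _, _, _, _ => True
  | .J2, F, F', g, g' => sJ33_J2 F F' g g'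
  | .L1, _, _, _, _ => True
  | .H, F, F', g, g' => sH_J3V F
  | .P5, _, _, _, _ => True
  | .P5m, _, _, _, _ => True
  | _, _, _, g, g' => NC g g'

theorem wJ33 (hk : 13 ≤ k) (t' : WT) (h0 : TyJ33Q F g) (h' : WP t' F' g') (hd : ∀ c ∈ F, c ∉ F')
    (hs : sJ33 t' F F' g g') : NC g g' := by
  have h : TyJ3V F g := h0.toJ3V
  cases t' with
  | En => exact hs
  | Ed => exact hs
  | L => exact hs
  | K => exact hs
  | Km => exact hs
  | Cr => exact hs
  | Cl => exact hs
  | Dn => exact hs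
  | Fz => exact hs
  | S5 => exact hs
  | A => exact hs
  | Aq => exact hs
  | Az => exact hs
  | R => exact hs
  | RE => exact hs
  | T => exact hs
  | J1 => exact hs
  | J4 => exact hs
  | J33 =>
    have h0' : TyJ33Q F' g' := h'
    have h' : TyJ3V F' g' := h0'.toJ3V
    have hs : (∀ c ∈ F, ∀ c' ∈ F', contc c ≠ contc c') ∨ J59.sJ33J33 F F' g g' := hs
    exact h0.dis_J33 h0' hd hs
  | JE =>
    have h0' : JE4 F' g' := h'
    have h' : JES F' g' := h0'.je
    exact r_J33_JE h0 h0'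
  | JV =>
    have h0' : JV4 F' g' := h'
    have h' : JVS F' g' := h0'.jv
    exact r_J33_JV h0 h0'
  | J2 =>
    have h' : J2S F' g' := h'
    have hs : sJ33_J2 F F' g g' := hs
    exact r_J33_J2 hs
  | L1 =>
    have h' : TyL1 F' g' := h'
    exact NC.symm (dj_L1_J3V (by omega) _ _ _ _ h' h (dsymm hd))
  | H =>
    have h' : Hole2.TyH F' g' := h'
    have hs : sH_J3V F := hs
    exact NC.symm (r_H_J3V h' h hs)
  | P5 =>
    have h' : P5DS F' g' := h'
    exact r_J33_P5 h0 h'
  | P5m =>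
    have h' : P5MS F' g' := h'
    exact r_J33_P5m h0 h'

/-- side conditions of the row `JE` -/
def sJE : WT → Set (Cyc k) → Set (Cyc k) → DG k → DG k → Prop
  | .JE, _, _, _, _ => True
  | .JV, _, _, _, _ => True
  | .J2, F, F', g, g' => sJE_J2 F F' g g'
  | .L1, _, _, _, _ => True
  | .H, _, _, _, _ => True
  | .P5, F, F', g, g' => sJE_P5 F F' g g'
  | .P5m, F, F', g, g' => EdIn F' g
  | _, _, _, g, g' => NC g g'

theorem wJE (hk : 13 ≤ k) (t' : WT) (h0 : JE4 F g) (h' : WP t' F' g') (hd : ∀ c ∈ F, c ∉ F')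
    (hs : sJE t' F F' g g') : NC g g' := by
  have h : JES F g := h0.je
  cases t' with
  | En => exact hs
  | Ed => exact hs
  | L => exact hs
  | K => exact hs
  | Km => exact hs
  | Cr => exact hs
  | Cl => exact hs
  | Dn => exact hs
  | Fz => exact hs
  | S5 => exact hs
  | A => exact hs
  | Aq => exact hs
  | Az => exact hs
  | R => exact hs
  | RE => exact hs
  | T => exact hs
  | J1 => exact hs
  | J4 => exact hs
  | J33 => exact hs
  | JE =>
    have h0' : JE4 F' g' := h'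
    have h' : JES F' g' := h0'.je
    exact r_JE_JE h h' hd
  | JV =>
    have h0' : JV4 F' g' := h'
    have h' : JVS F' g' := h0'.jv
    exact r_JE_JV h h' hd
  | J2 =>
    have h' : J2S F' g' := h'
    have hs : sJE_J2 F F' g g' := hs
    exact r_JE_J2 hd hs
  | L1 =>
    have h' : TyL1 F' g' := h'
    exact NC.symm (r_L1_JE (by omega) h' h (dsymm hd))
  | H =>
    have h' : Hole2.TyH F' g' := h'
    exact r_JE4_H h0 h'
  | P5 =>
    have h' : P5DS F' g' := h'
    have hs : sJE_P5 F F' g g' := hs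
    exact r_JE_P5 hd hs
  | P5m =>
    have h' : P5MS F' g' := h'
    have hs : EdIn F' g := hs
    exact r_JE_P5m h h' hd hs

/-- side conditions of the row `JV` -/
def sJV : WT → Set (Cyc k) → Set (Cyc k) → DG k → DG k → Prop
  | .JV, _, _, _, _ => True
  | .J2, F, F', g, g' => sJV_J2 F F' g g'
  | .L1, _, _, _, _ => True
  | .H, _, _, _, _ => True
  | .P5, F, F', g, g' => sJV_P5 F F' g g'
  | .P5m, F, F', g, g' => EdIn F' g
  | _, _, _, g, g' => NC g g'

theorem wJV (hk : 13 ≤ k) (t' : WT) (h0 : JV4 F g) (h' : WP t' F' g') (hd : ∀ c ∈ F, c ∉ F')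
    (hs : sJV t' F F' g g') : NC g g' := by
  have h : JVS F g := h0.jv
  cases t' with
  | En => exact hs
  | Ed => exact hs
  | L => exact hs
  | K => exact hs
  | Km => exact hs
  | Cr => exact hs
  | Cl => exact hs
  | Dn => exact hs
  | Fz => exact hs
  | S5 => exact hs
  | A => exact hs
  | Aq => exact hs
  | Az => exact hs
  | R => exact hs
  | RE => exact hs
  | T => exact hs
  | J1 => exact hs
  | J4 => exact hs
  | J33 => exact hs
  | JE => exact hs
  | JV =>
    have h0' : JV4 F' g' := h'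
    have h' : JVS F' g' := h0'.jv
    exact r_JV_JV h h' hd
  | J2 =>
    have h' : J2S F' g' := h'
    have hs : sJV_J2 F F' g g' := hs
    exact r_JV_J2 hd hs
  | L1 =>
    have h' : TyL1 F' g' := h'
    exact NC.symm (r_L1_JV (by omega) h' h)
  | H =>
    have h' : Hole2.TyH F' g' := h'
    exact r_JV4_H h0 h'
  | P5 =>
    have h' : P5DS F' g' := h'
    have hs : sJV_P5 F F' g g' := hs
    exact r_JV_P5 hd hs
  | P5m =>
    have h' : P5MS F' g' := h'
    have hs : EdIn F' g := hs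
    exact r_JV_P5m h h' hd hs

/-- side conditions of the row `J2` -/
def sJ2 : WT → Set (Cyc k) → Set (Cyc k) → DG k → DG k → Prop
  | .J2, F, F', g, g' => sJ2_J2 F F' g g'
  | .L1, _, _, _, _ => True
  | .H, _, _, _, _ => True
  | .P5, F, F', g, g' => sJ2_P5 F F' g g'
  | .P5m, F, F', g, g' => sJ2_P5m F F' g g'
  | _, _, _, g, g' => NC g g'

theorem wJ2 (hk : 13 ≤ k) (t' : WT) (h : J2S F g) (h' : WP t' F' g') (hd : ∀ c ∈ F, c ∉ F')
    (hs : sJ2 t' F F' g g') : NC g g' := by
  cases t' with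
  | En => exact hs
  | Ed => exact hs
  | L => exact hs
  | K => exact hs
  | Km => exact hs
  | Cr => exact hs
  | Cl => exact hs
  | Dn => exact hs
  | Fz => exact hs
  | S5 => exact hs
  | A => exact hs
  | Aq => exact hs
  | Az => exact hs
  | R => exact hs
  | RE => exact hs
  | T => exact hs
  | J1 => exact hs
  | J4 => exact hs
  | J33 => exact hs
  | JE => exact hs
  | JV => exact hs
  | J2 =>
    have h' : J2S F' g' := h'
    have hs : sJ2_J2 F F' g g' := hs
    exact r_J2_J2 hd hs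
  | L1 =>
    have h' : TyL1 F' g' := h'
    exact r_J2_L1 (by omega) h h' hd
  | H =>
    have h' : Hole2.TyH F' g' := h'
    exact r_J2_H h h'
  | P5 =>
    have h' : P5DS F' g' := h'
    have hs : sJ2_P5 F F' g g' := hs
    exact r_J2_P5 hd hs
  | P5m =>
    have h' : P5MS F' g' := h'
    have hs : sJ2_P5m F F' g g' := hs
    exact r_J2_P5m hd hs

/-- side conditions of the row `L1` -/
def sL1 : WT → Set (Cyc k) → Set (Cyc k) → DG k → DG k → Prop
  | .L1, _, _, _, _ => True
  | .H, _, _, _, _ => True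
  | .P5, _, _, _, _ => True
  | .P5m, _, _, _, _ => True
  | _, _, _, g, g' => NC g g'

theorem wL1 (hk : 13 ≤ k) (t' : WT) (h : TyL1 F g) (h' : WP t' F' g') (hd : ∀ c ∈ F, c ∉ F')
    (hs : sL1 t' F F' g g') : NC g g' := by
  cases t' with
  | En => exact hs
  | Ed => exact hs
  | L => exact hs
  | K => exact hs
  | Km => exact hs
  | Cr => exact hs
  | Cl => exact hs
  | Dn => exact hs
  | Fz => exact hs
  | S5 => exact hs
  | A => exact hs
  | Aq => exact hs
  | Az => exact hs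
  | R => exact hs
  | RE => exact hs
  | T => exact hs
  | J1 => exact hs
  | J4 => exact hs
  | J33 => exact hs
  | JE => exact hs
  | JV => exact hs
  | J2 => exact hs
  | L1 =>
    have h' : TyL1 F' g' := h'
    exact dis_L1_L1 h h' hd
  | H =>
    have h' : Hole2.TyH F' g' := h'
    exact dj_L1_H (by omega) _ _ _ _ h h' hd
  | P5 =>
    have h' : P5DS F' g' := h'
    exact r_L1_P5 h h'
  | P5m =>
    have h' : P5MS F' g' := h'
    exact r_L1_P5m h h'

/-- side conditions of the row `H` -/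
def sH : WT → Set (Cyc k) → Set (Cyc k) → DG k → DG k → Prop
  | .H, _, _, _, _ => True
  | .P5, _, _, _, _ => True
  | .P5m, _, _, _, _ => True
  | _, _, _, g, g' => NC g g'

theorem wH (hk : 13 ≤ k) (t' : WT) (h : Hole2.TyH F g) (h' : WP t' F' g') (hd : ∀ c ∈ F, c ∉ F')
    (hs : sH t' F F' g g') : NC g g' := by
  cases t' with
  | En => exact hs
  | Ed => exact hs
  | L => exact hs
  | K => exact hs
  | Km => exact hs
  | Cr => exact hs
  | Cl => exact hs
  | Dn => exact hs
  | Fz => exact hs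
  | S5 => exact hs
  | A => exact hs
  | Aq => exact hs
  | Az => exact hs
  | R => exact hs
  | RE => exact hs
  | T => exact hs
  | J1 => exact hs
  | J4 => exact hs
  | J33 => exact hs
  | JE => exact hs
  | JV => exact hs
  | J2 => exact hs
  | L1 => exact hs
  | H =>
    have h' : Hole2.TyH F' g' := h'
    exact r_H_H h h' hd
  | P5 =>
    have h' : P5DS F' g' := h'
    exact r_H_P5 h h'
  | P5m =>
    have h' : P5MS F' g' := h'
    exact r_H_P5m h h'

/-- side conditions of the row `P5` -/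
def sP5 : WT → Set (Cyc k) → Set (Cyc k) → DG k → DG k → Prop
  | .P5, _, _, _, _ => True
  | .P5m, _, _, _, _ => True
  | _, _, _, g, g' => NC g g'

theorem wP5 (hk : 13 ≤ k) (t' : WT) (h : P5DS F g) (h' : WP t' F' g') (hd : ∀ c ∈ F, c ∉ F')
    (hs : sP5 t' F F' g g') : NC g g' := by
  cases t' with
  | En => exact hs
  | Ed => exact hs
  | L => exact hs
  | K => exact hs
  | Km => exact hs
  | Cr => exact hs
  | Cl => exact hs
  | Dn => exact hs
  | Fz => exact hs
  | S5 => exact hs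
  | A => exact hs
  | Aq => exact hs
  | Az => exact hs
  | R => exact hs
  | RE => exact hs
  | T => exact hs
  | J1 => exact hs
  | J4 => exact hs
  | J33 => exact hs
  | JE => exact hs
  | JV => exact hs
  | J2 => exact hs
  | L1 => exact hs
  | H => exact hs
  | P5 =>
    have h' : P5DS F' g' := h'
    exact r_P5_P5 h h' hd
  | P5m =>
    have h' : P5MS F' g' := h'
    exact r_P5_P5m h h' hd

/-- side conditions of the row `P5m` -/
def sP5m : WT → Set (Cyc k) → Set (Cyc k) → DG k → DG k → Prop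
  | .P5m, _, _, _, _ => True
  | _, _, _, g, g' => NC g g'

theorem wP5m (hk : 13 ≤ k) (t' : WT) (h : P5MS F g) (h' : WP t' F' g') (hd : ∀ c ∈ F, c ∉ F')
    (hs : sP5m t' F F' g g') : NC g g' := by
  cases t' with
  | En => exact hs
  | Ed => exact hs
  | L => exact hs
  | K => exact hs
  | Km => exact hs
  | Cr => exact hs
  | Cl => exact hs
  | Dn => exact hs
  | Fz => exact hs
  | S5 => exact hs
  | A => exact hs
  | Aq => exact hs
  | Az => exact hs
  | R => exact hs
  | RE => exact hs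
  | T => exact hs
  | J1 => exact hs
  | J4 => exact hs
  | J33 => exact hs
  | JE => exact hs
  | JV => exact hs
  | J2 => exact hs
  | L1 => exact hs
  | H => exact hs
  | P5 => exact hs
  | P5m =>
    have h' : P5MS F' g' := h'
    exact r_P5m_P5m h h' hd

/-- upper half -/
def sideU : WT → WT → Set (Cyc k) → Set (Cyc k) → DG k → DG k → Prop
  | .En => sEn
  | .Ed => sEd
  | .L => sL
  | .K => sK
  | .Km => sKm
  | .Cr => sCr
  | .Cl => sCl
  | .Dn => sDn
  | .Fz => sFz
  | .S5 => sS5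
  | .A => sA
  | .Aq => sAq
  | .Az => sAz
  | .R => sR
  | .RE => sRE
  | .T => sT
  | .J1 => sJ1
  | .J4 => sJ4
  | .J33 => sJ33
  | .JE => sJE
  | .JV => sJV
  | .J2 => sJ2
  | .L1 => sL1
  | .H => sH
  | .P5 => sP5
  | .P5m => sP5m

/-- the side condition of a pair of types, in one of the two orders, or the statement itself (last-step merges) -/
def Side (t t' : WT) (F F' : Set (Cyc k)) (g g' : DG k) : Prop :=
  sideU t t' F F' g g' ∨ sideU t' t F' F g' g ∨ NC g g'

theorem matU (hk : 13 ≤ k) (t t' : WT) (h : WP t F g) (h' : WP t' F' g') (hd : ∀ c ∈ F, c ∉ F')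
    (hs : sideU t t' F F' g g') : NC g g' := by
  cases t with
  | En => exact wEn hk t' h h' hd hs
  | Ed => exact wEd hk t' h h' hd hs
  | L => exact wL hk t' h h' hd hs
  | K => exact wK hk t' h h' hd hs
  | Km => exact wKm hk t' h h' hd hs
  | Cr => exact wCr hk t' h h' hd hs
  | Cl => exact wCl hk t' h h' hd hs
  | Dn => exact wDn hk t' h h' hd hs
  | Fz => exact wFz hk t' h h' hd hs
  | S5 => exact wS5 hk t' h h' hd hs
  | A => exact wA hk t' h h' hd hs
  | Aq => exact wAq hk t' h h' hd hs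
  | Az => exact wAz hk t' h h' hd hs
  | R => exact wR hk t' h h' hd hs
  | RE => exact wRE hk t' h h' hd hs
  | T => exact wT hk t' h h' hd hs
  | J1 => exact wJ1 hk t' h h' hd hs
  | J4 => exact wJ4 hk t' h h' hd hs
  | J33 => exact wJ33 hk t' h h' hd hs
  | JE => exact wJE hk t' h h' hd hs
  | JV => exact wJV hk t' h h' hd hs
  | J2 => exact wJ2 hk t' h h' hd hs
  | L1 => exact wL1 hk t' h h' hd hs
  | H => exact wH hk t' h h' hd hs
  | P5 => exact wP5 hk t' h h' hd hs
  | P5m => exact wP5m hk t' h h' hd hs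

/-- **the word matrix** -/
theorem matW (hk : 13 ≤ k) (t t' : WT) (h : WP t F g) (h' : WP t' F' g') (hd : ∀ c ∈ F, c ∉ F')
    (hs : Side t t' F F' g g') : ∀ w ∈ g.B, w ∉ g'.B := by
  rcases hs with hs | hs | hs
  · exact matU hk t t' h h' hd hs
  · exact NC.symm (matU hk t' t h' h (dsymm hd) hs)
  · exact hs

end MW

end Pool.OddHC
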