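import Pool.Agent.Work.MP_8f87b2_fin.Blk2

/-!
# The middle block: regions put together

`ClsReg.restr`: only the classes whose height has a property `H`. `cover`: from a family of sets of classes and the regions
over the good `V` to the groups of all T-cycles of height `lo .. k - hi`. `cover_mid`: heights `4 .. k - 5`, good = at least
two solitons, height at least `2`, at least two beads.
-/

set_option autoImplicit false

namespace Pool.OddHC

open Finset BinaryTree Multiset Pool.OddHop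

variable {k j2 : ℕ} {τ : Type} {P : τ → Set (Cyc k) → DG k → Prop}

/-- the height depends only on the class -/
theorem htc_cl {p q : Cyc k} (h : cl p = cl q) : htc p = htc q :=
  congrArg (fun κ : RD × Multiset ℕ => κ.2.sup) h

theorem cl_sup (p : Cyc k) : (cl p).2.sup = htc p := rfl

/-- the height of the reduced T-cycle -/
theorem htc_Rd (p : Cyc k) (h : 2 ≤ htc p) : htc p = htc (Rd p).2 + 1 := by
  have e := contc_eq p
  have e1 : htc p = (contc p).sup := rfl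
  have e2 : htc (Rd p).2 = (contc (Rd p).2).sup := rfl
  obtain ⟨M, hM⟩ : ∃ M, M = contc (Rd p).2 := ⟨_, rfl⟩
  obtain ⟨n, hn⟩ : ∃ n, n = (contc p).count 1 := ⟨_, rfl⟩
  rw [← hM, ← hn] at e
  rw [e1] at h ⊢
  rw [e2, ← hM]
  rw [e] at h ⊢
  rw [Multiset.sup_add] at h ⊢
  have h1 : (Multiset.replicate n 1).sup ≤ 1 := by
    apply Multiset.sup_le.2
    intro b hb
    exact (Multiset.eq_of_mem_replicate hb).le
  have h2 : (M.map (· + 1)).sup ≤ M.sup + 1 := by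
    apply Multiset.sup_le.2
    intro b hb
    obtain ⟨a, ha, rfl⟩ := Multiset.mem_map.1 hb
    exact Nat.succ_le_succ (Multiset.le_sup ha)
  have h3 : M ≠ 0 := by
    rintro rfl
    have h4 : ((0 : Multiset ℕ).map (· + 1)).sup = 0 := rfl
    rw [h4] at h
    have h5 : (0 : ℕ) ⊔ (Multiset.replicate n 1).sup = (Multiset.replicate n 1).sup := by simp
    rw [h5] at h
    omega
  have h4 : M.sup + 1 ≤ (M.map (· + 1)).sup := by
    obtain ⟨a, ha⟩ := Multiset.exists_mem_of_ne_zero h3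
    obtain ⟨x, hx, hxs⟩ : ∃ x ∈ M, M.sup ≤ x := by
      by_contra hcon
      push Not at hcon
      have h5 : M.sup ≤ M.sup - 1 := by
        apply Multiset.sup_le.2
        intro b hb
        have := hcon b hb
        omega
      have h6 := hcon a ha
      omega
    calc M.sup + 1 ≤ x + 1 := Nat.succ_le_succ hxs
      _ ≤ _ := Multiset.le_sup (Multiset.mem_map.2 ⟨x, hx, rfl⟩)
  have h5 : (M.map (· + 1)).sup ⊔ (Multiset.replicate n 1).sup = M.sup + 1 := by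
    apply le_antisymm
    · apply sup_le h2
      omega
    · exact le_trans h4 le_sup_left
  exact h5

/-- the height of the doubly reduced T-cycle -/
theorem htc_Rd2 (p : Cyc k) (h : 3 ≤ htc p) : htc p = htc (Rd (Rd p).2).2 + 2 := by
  have h1 := htc_Rd p (by omega)
  have h2 := htc_Rd (Rd p).2 (by omega)
  omega

/-- **only the classes of certain heights** -/
theorem ClsReg.restr {K : Set (RD × Multiset ℕ)} (h : ClsReg P K)
    (hp : ∀ t F g, P t F g → ∀ c ∈ F, ∀ d ∈ F, htc c = htc d) (H : ℕ → Prop) :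
    ClsReg P {κ | κ ∈ K ∧ H κ.2.sup} := by
  obtain ⟨Xs, h1, h2, h3⟩ := h
  have hF : ∀ F ∈ Xs, ∀ c ∈ F, ∀ d ∈ F, htc c = htc d := by
    intro F hF
    obtain ⟨_, a2, _⟩ := h1 F hF
    rcases a2 with ⟨t, g, a2⟩ | ⟨t, g, a2⟩
    · exact hp t F g a2
    · exact hp t F g a2
  refine ⟨{F | F ∈ Xs ∧ ∀ c ∈ F, H (htc c)}, ?_, ?_, ?_⟩
  · rintro F ⟨hX, hH⟩
    obtain ⟨a1, a2, a3⟩ := h1 F hX
    exact ⟨a1, a2, fun c hc => ⟨a3 c hc, hH c hc⟩⟩
  · rintro F ⟨hX, _⟩ F' ⟨hX', _⟩ c hc hc'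
    exact h2 F hX F' hX' c hc hc'
  · rintro p0 ⟨hp0, hH⟩
    obtain ⟨Gp, Gw, hC⟩ := h3 p0 hp0
    refine ⟨Gp, Gw, hC.congr fun c hc => ?_⟩
    constructor
    · rintro ⟨F, hX, hcF⟩
      refine ⟨F, ⟨hX, fun d hd => ?_⟩, hcF⟩
      rw [hF F hX d hd c hcF, htc_cl hc]
      exact hH
    · rintro ⟨F, ⟨hX, _⟩, hcF⟩
      exact ⟨F, hX, hcF⟩

/-- **THE COVER.** `good d`: the region over `d` is given; `K i`: the other sets of classes -/
theorem cover (hp : ∀ t F g, P t F g → ∀ c ∈ F, ∀ d ∈ F, htc c = htc d) {ι : Type}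
    (good : RD → Prop) (reg : ∀ d, good d → RegOK P {d}) (K : ι → Set (RD × Multiset ℕ))
    (hK : ∀ i, ∀ κ ∈ K i, ¬ good κ.1) (hd : ∀ i i' κ, κ ∈ K i → κ ∈ K i' → i = i')
    (h : ∀ i, ClsReg P (K i)) (H : ℕ → Prop)
    (cov : ∀ p : Cyc k, H (htc p) → good (Rd (Rd p).2) ∨ ∃ i, cl p ∈ K i) :
    ∃ G, GrpOK {p : Cyc k | H (htc p)} G P := by
  have r1 : ClsReg P {κ : RD × Multiset ℕ | good κ.1} := by
    refine (ClsReg.iUnion (P := P) (K := fun d : {d : RD // good d} =>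
      {κ : RD × Multiset ℕ | κ.1 ∈ ({d.1} : Set RD)}) ?_ ?_).congr ?_
    · rintro ⟨i, hi⟩ ⟨i', hi'⟩ κ h1 h2
      have e1 : κ.1 = i := h1
      have e2 : κ.1 = i' := h2
      exact Subtype.ext (e1.symm.trans e2)
    · rintro ⟨i, hi⟩
      exact reg i hi
    · intro p
      constructor
      · rintro ⟨⟨i, hi⟩, h1⟩
        have e1 : (cl p).1 = i := h1
        change good (cl p).1
        rw [e1]
        exact hi
      · intro h1
        exact ⟨⟨(cl p).1, h1⟩, rfl⟩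
  have r2 : ClsReg P {κ | ∃ i, κ ∈ K i} := ClsReg.iUnion hd h
  have r3 := (r1.union r2 (by
    rintro κ h1 ⟨i, hi⟩
    exact hK i κ hi h1)).restr hp H
  obtain ⟨G, hG⟩ := r3.grp
  refine ⟨G, ?_⟩
  have e : {p : Cyc k | H (htc p)} = {p : Cyc k | cl p ∈ {κ : RD × Multiset ℕ |
      κ ∈ {κ : RD × Multiset ℕ | good κ.1} ∪ {κ | ∃ i, κ ∈ K i} ∧ H κ.2.sup}} := by
    ext p
    constructor
    · intro h1
      refine ⟨?_, h1⟩
      rcases cov p h1 with h2 | h2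
      · exact Or.inl h2
      · exact Or.inr h2
    · rintro ⟨_, h1⟩
      exact h1
  rw [e]
  exact hG

/-- the good doubly reduced T-cycles: two solitons, height at least `2`, two beads -/
def GoodV (k : ℕ) (d : RD) : Prop := 2 ≤ htc d.2 ∧ 2 ≤ pkc d.2 ∧ d.1 + 2 * pkc d.2 + 2 ≤ k

/-- **THE MIDDLE**: heights `4 .. k - 5` -/
theorem cover_mid (hp : ∀ t F g, P t F g → ∀ c ∈ F, ∀ d ∈ F, htc c = htc d)
    (reg : ∀ (j2 : ℕ) (V : Cyc j2), 2 ≤ htc V → 2 ≤ pkc V → j2 + 2 * pkc V + 2 ≤ k →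
      RegOK P {(⟨j2, V⟩ : RD)})
    {ι : Type} (K : ι → Set (RD × Multiset ℕ)) (hK : ∀ i, ∀ κ ∈ K i, ¬ GoodV k κ.1)
    (hd : ∀ i i' κ, κ ∈ K i → κ ∈ K i' → i = i') (h : ∀ i, ClsReg P (K i))
    (cov : ∀ p : Cyc k, 4 ≤ htc p → htc p + 5 ≤ k → ¬ GoodV k (Rd (Rd p).2) → ∃ i, cl p ∈ K i) :
    ∃ G, GrpOK {p : Cyc k | 4 ≤ htc p ∧ htc p + 5 ≤ k} G P := by
  refine cover hp (GoodV k) ?_ K hK hd h (fun n => 4 ≤ n ∧ n + 5 ≤ k) ?_
  · rintro ⟨j2, V⟩ ⟨h1, h2, h3⟩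
    exact reg j2 V h1 h2 h3
  · rintro p ⟨h1, h2⟩
    by_cases h3 : GoodV k (Rd (Rd p).2)
    · exact Or.inl h3
    · exact Or.inr (cov p h1 h2 h3)

/-- the T-cycles which are not over a good `V`: one soliton, or at most one bead -/
theorem not_good {p : Cyc k} (h : 4 ≤ htc p) (hg : ¬ GoodV k (Rd (Rd p).2)) :
    pkc (Rd (Rd p).2).2 = 1 ∨ (2 ≤ pkc (Rd (Rd p).2).2 ∧ aa p = 0 ∧ (contc p).count 1 ≤ 1) := by
  obtain ⟨j2, V, hV⟩ : ∃ j2, ∃ V : Cyc j2, Rd (Rd p).2 = ⟨j2, V⟩ := ⟨_, _, rfl⟩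
  have h1 := htc_Rd2 p (by omega)
  have h2 := ov_total hV
  rw [hV] at h1 hg ⊢
  change htc p = htc V + 2 at h1
  change ¬ (2 ≤ htc V ∧ 2 ≤ pkc V ∧ j2 + 2 * pkc V + 2 ≤ k) at hg
  change pkc V = 1 ∨ (2 ≤ pkc V ∧ aa p = 0 ∧ (contc p).count 1 ≤ 1)
  have h3 : pkc V ≠ 0 := by
    intro h4
    have h5 : contc V = 0 := Multiset.card_eq_zero.1 h4
    have h6 : htc V = (contc V).sup := rfl
    rw [h5, Multiset.sup_zero] at h6
    change htc V = 0 at h6
    omega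
  by_cases h4 : pkc V = 1
  · exact Or.inl h4
  · right
    by_contra hcon
    apply hg
    refine ⟨by omega, by omega, ?_⟩
    by_contra h5
    apply hcon
    refine ⟨by omega, by omega, by omega⟩

end Pool.OddHC
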