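import Pool.Agent.Work.MP_8f87b2_fin.PV

/-!
# All classes over one `V`, every member of `(V; a, 0)` with its own window

`VEnvO`: what is needed over one `V` when every T-cycle of the classes `(V; a, 0)`, `a ≥ 1`, has its own window (`own`).
`VEnvO.reg`: the region `{V}`. No pairs over the hops of level 2, no windows `m = 0` over piles.
-/

set_option autoImplicit false

namespace Pool.OddHC.PV

open Finset BinaryTree Multiset Pool.OddHop

variable {i j j2 k : ℕ} {τ : Type} {P : τ → Set (Cyc k) → DG k → Prop} {V : Cyc j2}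
  {KS : BinaryTree Unit → Prop}

/-- **a class whose members have their own windows**: any set may be left out -/
theorem jvc_own {a : ℕ} (own : ∀ z : Cyc k, Rd (Rd z).2 = ⟨j2, V⟩ → aa z = a → Typd P P {z})
    (Y : Set (Cyc k)) : JVC P V a Y := by
  intro p0 Xs hp0 hX
  have hin : ∀ c : Cyc k, cl c = cl p0 → c ∉ Xs →
      c ∈ inG {F : Set (Cyc k) | ∃ z : Cyc k, cl z = cl p0 ∧ z ∉ Xs ∧ F = {z}} :=
    fun c hc hcX => ⟨{c}, ⟨c, hc, hcX, rfl⟩, rfl⟩
  have H : ∃ Gp Gw, Gp ∪ Gw = {F : Set (Cyc k) | ∃ z : Cyc k, cl z = cl p0 ∧ z ∉ Xs ∧ F = {z}} ∧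
      ClsOK (AEP P) (cl p0) Xs Gp Gw P P := by
    refine cls_of_set _ ?_ ?_ ?_ ?_ ?_
    · rintro F ⟨z, h1, h2, rfl⟩
      exact ⟨z, rfl⟩
    · rintro F ⟨z, h1, h2, rfl⟩ c hc
      rw [Set.mem_singleton_iff] at hc
      subst hc
      exact ⟨h1, h2⟩
    · rintro F ⟨z, h1, h2, rfl⟩ F' ⟨z', h1', h2', rfl⟩ c hc hc'
      rw [Set.mem_singleton_iff] at hc hc'
      rw [← hc, ← hc']
    · rintro F ⟨z, h1, h2, rfl⟩
      have h3 : cl z ∈ vcl k V a := by rw [h1]; exact hp0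
      exact own z (mem_vcl.1 h3).1 (mem_vcl.1 h3).2
    · intro p hp
      refine remA_all _ _ _ fun q hq => ?_
      have hc : cl q = cl p0 := (cl_fam hq).trans hp
      by_cases hq' : q ∈ Xs
      · exact Or.inr hq'
      · exact Or.inl (hin q hc hq')
  obtain ⟨Gp, Gw, _, h⟩ := H
  exact ⟨Gp, Gw, h⟩

/-- **what is needed over one `V`** -/
structure VEnvO (P : τ → Set (Cyc k) → DG k → Prop) (V : Cyc j2) (KS : BinaryTree Unit → Prop) : Prop where
  /-- hops of the families are E pairs, L pairs exist -/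
  env : ∀ p0 : Cyc k, Rd (Rd p0).2 = ⟨j2, V⟩ → ClsEnv (AEP P) P P (cl p0)
  /-- windows, `m ≥ 1` -/
  win : ∀ a m, 1 ≤ a → 1 ≤ m → j2 + 2 * pkc V + 2 * a + m = k → NodeW k V (Typd P P) a m
  /-- K links have a type -/
  kty : ∀ S F g, KS S → TyK S F g → (∀ c ∈ F, Rd (Rd c).2 = ⟨j2, V⟩) → Typd P P F
  /-- K0, `M = 2` -/
  k0 : j2 + 2 * pkc V + 2 = k → oddF (j2 + pkc V) 2 → KPh V KS 0 0 0 0 0
  /-- K1, `M = 3` -/
  k1 : j2 + 2 * pkc V + 3 = k → oddF (j2 + pkc V) 3 →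
    ∃ x, x < 2 * (j2 + pkc V) + 1 ∧ KPh V KS 0 x 1 0 0
  /-- K2', `M = 4` : level at least 2 -/
  k2 : j2 + 2 * pkc V + 4 = k → oddF (j2 + pkc V) 4 → oddF (j2 + pkc V + 1) 2 →
    ∃ x l, 1 ≤ l ∧ 2 * l ≤ j2 + pkc V + 1 ∧ x + 2 * l = 2 * (j2 + pkc V) ∧
      KPh V KS 0 x 1 (2 * (j2 + pkc V)) 1
  /-- K2, `M ≥ 5` -/
  kp : ∀ m, 3 ≤ m → j2 + 2 * pkc V + m + 2 = k → oddF (j2 + pkc V) (m + 2) →
    oddF (j2 + pkc V + 1) m → ∃ x b y c, x < 2 * (j2 + pkc V) + 1 ∧ y < 2 * (j2 + pkc V) + 1 ∧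
      b + c = m ∧ KPh V KS 0 x b y c
  /-- K3, `M ≥ 4` -/
  kn : ∀ m, 2 ≤ m → j2 + 2 * pkc V + m + 2 = k → oddF (j2 + pkc V) (m + 2) →
    ¬ oddF (j2 + pkc V + 1) m → KNr V KS m
  /-- the class `(V; a, 0)` : every member has its own window -/
  own : ∀ a, 1 ≤ a → j2 + 2 * pkc V + 2 * a = k → ∀ z : Cyc k, Rd (Rd z).2 = ⟨j2, V⟩ → aa z = a →
    Typd P P {z}

/-- **the classes `(V; a, m)`, `lo ≤ a ≤ hi`, `m ≥ 1`** -/
theorem VEnvO.wins (E : VEnvO P V KS) (lo hi : ℕ) (h0 : 1 ≤ lo)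
    (h : j2 + 2 * pkc V + 2 * hi + 1 ≤ k ∨ hi < lo) :
    ClsReg P ({κ | ∃ a, lo ≤ a ∧ a ≤ hi ∧ κ ∈ vcl k V a} : Set (RD × Multiset ℕ)) := by
  refine ClsReg.single fun p0 hp0 => ?_
  obtain ⟨a, ha1, ha2, hp0⟩ := hp0
  have h' : j2 + 2 * pkc V + 2 * hi + 1 ≤ k := by
    rcases h with h | h
    · exact h
    · omega
  obtain ⟨m, hm⟩ : ∃ m, j2 + 2 * pkc V + 2 * a + m = k := ⟨k - (j2 + 2 * pkc V + 2 * a), by omega⟩
  have hm1 : 1 ≤ m := by omega
  obtain ⟨U1, a1, a2, a3, a4, a5⟩ := vcl_data (j := j2 + pkc V + a) hm hp0 rfl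
  obtain ⟨v, x2, u, x, w, b1, b2, b3, b4, b5, b6, b7, b8⟩ :=
    (E.win a m (by omega) hm1 hm).data (j := j2 + pkc V + a) rfl
  have hRU : Rd (cyc u) = Rd U1 := by rw [b6, a2]
  refine r1_win (E.env p0 (mem_vcl.1 hp0).1) a1 hm1 a5 (fun c hc => absurd hc (Set.notMem_empty _))
    (cyc w) (cyc u) hRU b5 (fun h => b7.two h) (fun h => b8.two ?_) b4
  rw [count_class a1 a5 b5 hRU, h]

/-- the class `(V; a, 0)` with any set left to other groups -/
theorem VEnvO.jvc (E : VEnvO P V KS) (a : ℕ) (ha : 1 ≤ a) (hk : j2 + 2 * pkc V + 2 * a = k)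
    (Y : Set (Cyc k)) : JVC P V a Y :=
  jvc_own (E.own a ha hk) Y

/-- the class `(V; a, 0)` -/
theorem VEnvO.top (E : VEnvO P V KS) (a : ℕ) (ha : 1 ≤ a) (hk : j2 + 2 * pkc V + 2 * a = k) :
    ClsReg P (vcl k V a : Set (RD × Multiset ℕ)) :=
  ClsReg.single fun p0 hp0 => E.jvc a ha hk ∅ p0 ∅ hp0 fun _ _ => Iff.rfl

/-- **the low block**: the classes `(V; 0, m + 2)`, `(V; 1, m)`, `m ≥ 1` -/
theorem VEnvO.low (E : VEnvO P V KS) (hi : 1 ≤ j2 + pkc V) (m : ℕ) (hm : 1 ≤ m)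
    (hk : j2 + 2 * pkc V + m + 2 = k) :
    ClsReg P (vcl k V 0 ∪ vcl k V 1 : Set (RD × Multiset ℕ)) := by
  by_cases hA : oddF (j2 + pkc V) (m + 2)
  · by_cases hB : oddF (j2 + pkc V + 1) m
    · obtain rfl | rfl | hm3 : m = 1 ∨ m = 2 ∨ 3 ≤ m := by omega
      · obtain ⟨x, hx, hph⟩ := E.k1 (by omega) hA
        exact part_kk 1 le_rfl (by omega) hi E.env E.kty hA hB hx (y := 0) (by omega) rfl hph
          (fun h => by omega)
      · obtain ⟨x, l, hl, hlj, hxl, hph⟩ := E.k2 (by omega) hA hB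
        exact part_kk 2 (by norm_num) (by omega) hi E.env E.kty hA hB (by omega) (by omega) rfl hph
          (fun _ => ⟨rfl, rfl, l, hlj, hxl⟩)
      · obtain ⟨x, b, y, c, hx, hy, hbc, hph⟩ := E.kp m hm3 (by omega) hA hB
        exact part_kk m hm (by omega) hi E.env E.kty hA hB hx hy hbc hph (fun h => by omega)
    · have hm2 : 2 ≤ m := by
        by_contra h
        obtain rfl : m = 1 := by omega
        exact hB (oddF_one _)
      exact part_k3 m hm2 (by omega) hi E.env E.kty hA hB (E.kn m hm2 (by omega) hA hB)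
        (E.win 1 m le_rfl hm (by omega))
  · refine (part_even (m + 2) (by omega) (by omega) E.env hA).union
      (part_win 1 m le_rfl hm (by omega) E.env (E.win 1 m le_rfl hm (by omega))) ?_
    intro κ h1 h2
    exact vcl_no (by norm_num) h1 h2

/-- `M = 2` -/
theorem VEnvO.two (E : VEnvO P V KS) (hi : 1 ≤ j2 + pkc V) (hk : j2 + 2 * pkc V + 2 = k) :
    ClsReg P (vcl k V 0 ∪ vcl k V 1 : Set (RD × Multiset ℕ)) := by
  by_cases hA : oddF (j2 + pkc V) 2
  · exact part_k0 hi hk E.env E.kty hA (E.k0 hk hA)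
      (fun j v x u z _ _ _ _ => E.jvc 1 le_rfl (by omega) {z})
  · refine (part_even 2 (by norm_num) (by omega) E.env hA).union (E.top 1 le_rfl (by omega)) ?_
    intro κ h1 h2
    exact vcl_no (by norm_num) h1 h2

/-- **ALL CLASSES OVER `V`** -/
theorem VEnvO.reg (E : VEnvO P V KS) (hi : 1 ≤ j2 + pkc V) (hk : j2 + 2 * pkc V + 2 ≤ k) :
    RegOK P ({⟨j2, V⟩} : Set RD) := by
  obtain ⟨M, hM⟩ : ∃ M, j2 + 2 * pkc V + M = k := ⟨k - (j2 + 2 * pkc V), by omega⟩
  have hM2 : 2 ≤ M := by omega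
  have hcase : ∀ p : Cyc k, Rd (Rd p).2 = ⟨j2, V⟩ → cl p ∈ vcl k V (aa p) ∧ 2 * aa p ≤ M := by
    intro p hp
    have := ov_total hp
    exact ⟨mem_vcl.2 ⟨hp, rfl⟩, by omega⟩
  obtain rfl | h4 : M = 2 ∨ M ≠ 2 := by omega
  · refine (E.two hi (by omega)).congr fun p => ?_
    constructor
    · rintro (h | h)
      · exact (mem_vcl.1 h).1
      · exact (mem_vcl.1 h).1
    · intro h
      obtain ⟨h1, h2⟩ := hcase p h
      obtain h3 | h3 : aa p = 0 ∨ aa p = 1 := by omega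
      · rw [h3] at h1; exact Or.inl h1
      · rw [h3] at h1; exact Or.inr h1
  · obtain ⟨m, rfl⟩ : ∃ m, M = m + 2 := ⟨M - 2, by omega⟩
    have hlow := E.low hi m (by omega) (by omega)
    rcases Nat.even_or_odd' m with ⟨c, rfl | rfl⟩
    · -- `M` even
      have h1 := hlow.union (E.wins 2 c (by norm_num) (by omega)) ?_
      · have h2 := h1.union (E.top (c + 1) (by omega) (by omega)) ?_
        · refine h2.congr fun p => ?_
          constructor
          · rintro (((h | h) | ⟨a, _, _, h⟩) | h)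
            · exact (mem_vcl.1 h).1
            · exact (mem_vcl.1 h).1
            · exact (mem_vcl.1 h).1
            · exact (mem_vcl.1 h).1
          · intro h
            obtain ⟨h3, h4⟩ := hcase p h
            obtain h5 | h5 | h5 | h5 : aa p = 0 ∨ aa p = 1 ∨ (2 ≤ aa p ∧ aa p ≤ c) ∨
              aa p = c + 1 := by omega
            · rw [h5] at h3; exact Or.inl (Or.inl (Or.inl h3))
            · rw [h5] at h3; exact Or.inl (Or.inl (Or.inr h3))
            · exact Or.inl (Or.inr ⟨aa p, h5.1, h5.2, h3⟩)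
            · rw [h5] at h3; exact Or.inr h3
        · rintro κ ((h1 | h1) | ⟨a, ha1, ha2, h1⟩) h2
          · exact vcl_no (by omega) h1 h2
          · exact vcl_no (by omega) h1 h2
          · exact vcl_no (by omega) h1 h2
      · rintro κ (h1 | h1) ⟨a, ha1, ha2, h2⟩
        · exact vcl_no (by omega) h1 h2
        · exact vcl_no (by omega) h1 h2
    · -- `M` odd
      have h1 := hlow.union (E.wins 2 (c + 1) (by norm_num) (by omega)) ?_
      · refine h1.congr fun p => ?_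
        constructor
        · rintro ((h | h) | ⟨a, _, _, h⟩)
          · exact (mem_vcl.1 h).1
          · exact (mem_vcl.1 h).1
          · exact (mem_vcl.1 h).1
        · intro h
          obtain ⟨h3, h4⟩ := hcase p h
          obtain h5 | h5 | h5 : aa p = 0 ∨ aa p = 1 ∨ (2 ≤ aa p ∧ aa p ≤ c + 1) := by omega
          · rw [h5] at h3; exact Or.inl (Or.inl h3)
          · rw [h5] at h3; exact Or.inl (Or.inr h3)
          · exact Or.inr ⟨aa p, h5.1, h5.2, h3⟩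
      · rintro κ (h1 | h1) ⟨a, ha1, ha2, h2⟩
        · exact vcl_no (by omega) h1 h2
        · exact vcl_no (by omega) h1 h2

end Pool.OddHC.PV
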