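import Pool.Agent.Work.MP_8f87b2_fin.BlkV

/-!
# The classes over one `V` with a provider for the L pairs

Copies of the theorems of `fin/R1Gen`, `fin/R1`, `fin/Blk2`, `fin/PartK`, `fin/PartTop`, `fin/PartK3`, `fin/BlkV` where the L pair
over a hop is given by the hypothesis `LEx` instead of 'every L triple has a type'.
-/

set_option autoImplicit false

namespace Pool.OddHC.PV

open Finset BinaryTree Multiset Pool.OddHop Pool.OddHC

variable {i j j2 k : ℕ}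

section gen

variable {τp τw : Type} {Pp : τp → Set (Cyc k) → DG k → Prop} {Pw : τw → Set (Cyc k) → DG k → Prop}
  {AE : Cyc k → Cyc k → Prop}

/-- **L pairs exist** over every hop of the second level of the class `κ`; `m = 2`: both members in the top row -/
def LEx (Pp : τp → Set (Cyc k) → DG k → Prop) (Pw : τw → Set (Cyc k) → DG k → Prop)
    (κ : RD × Multiset ℕ) : Prop :=
  ∀ (j m : ℕ) (U U₂ : Cyc j), 1 ≤ m → j + pkc U + m = k → (∀ p : Cyc k, Rd p = ⟨j, U⟩ → cl p = κ) →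
    (∀ p : Cyc k, Rd p = ⟨j, U₂⟩ → cl p = κ) → U ≠ U₂ → HopC U U₂ → ∃ p q : Cyc k, Rd p = ⟨j, U⟩ ∧
      Rd q = ⟨j, U₂⟩ ∧ (m = 2 → j % 2 = 0 → TopTwo p ∧ TopTwo q) ∧ Typd Pp Pw {p, q}

/-- all L triples have a type -/
theorem LEx.of_tyL {κ : RD × Multiset ℕ}
    (h : ∀ p q g, cl p = κ → cl q = κ → TyL {p, q} g → Typd Pp Pw {p, q}) : LEx Pp Pw κ := by
  intro j m U U₂ hm hk h1 h2 hne hop
  obtain ⟨p, q, g, hp, hq, ht, hLg⟩ := tyL_top (k := k) hne hop hm hk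
  exact ⟨p, q, hp, hq, ht, h p q g (h1 p hp) (h2 q hq) hLg⟩

/-- **THE CLASS OF A NODE, GENERAL STEP** -/
theorem r1_gen {p0 : Cyc k} {U1 : Cyc j} (hp0 : Rd p0 = ⟨j, U1⟩) (X : Set (Cyc k)) {m : ℕ}
    (hm : 1 ≤ m) (hk : j + pkc U1 + m = k)
    (hL : LEx Pp Pw (cl p0))
    (U0 : Cyc j) (hU0 : Rd U0 = Rd U1)
    (h2 : (contc U0).count 1 = 2 → oddF (Rd U0).1 2 → IsTwo U0)
    (hX : ∀ U, Rd U = Rd U1 → ¬ (U = U0 ∧ oddF (Rd U0).1 ((contc U0).count 1)) →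
      (¬ oddF j m → RemA AE ⟨j, U⟩ X) ∧
      (oddF j m → ∀ p, Rd p = ⟨j, U⟩ → (m = 2 → TopTwo p) → p ∉ X ∧ RemA AE ⟨j, U⟩ ({p} ∪ X)))
    (h0 : oddF (Rd U0).1 ((contc U0).count 1) → ∃ G : Set (Set (Cyc k)), (∀ F ∈ G, F.Nonempty ∧
      Typd Pp Pw F ∧ ∀ c ∈ F, Rd c = ⟨j, U0⟩ ∧ c ∉ X) ∧
      (∀ F ∈ G, ∀ F' ∈ G, ∀ c, c ∈ F → c ∈ F' → F = F') ∧ RemA AE ⟨j, U0⟩ (inG G ∪ X)) :
    ∃ Gp Gw, ClsOK AE (cl p0) X Gp Gw Pp Pw := by
  obtain ⟨I, hI⟩ := remOK_lo (Rd U0) U0 rfl h2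
  rw [hU0] at hI
  have hmem : ∀ U, Rd U = Rd U1 → I U ≠ U → ¬ (U = U0 ∧ oddF (Rd U0).1 ((contc U0).count 1)) := by
    intro U hU hne h
    apply hne
    rw [(hI U hU).2.2.2]
    change U = U0 ∧ _
    rw [← hU0]
    exact h
  refine cls_of_inv' hp0 X I (fun U hU => ⟨(hI U hU).1, (hI U hU).2.1⟩) ?_ ?_
  · intro U hU hne
    obtain ⟨e1, e2, e3, e4⟩ := hI U hU
    have hne' : I (I U) ≠ I U := by
      rw [e2]
      exact fun h => hne h.symm
    have f1 := hX U hU (hmem U hU hne)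
    have f2 := hX (I U) e1 (hmem (I U) e1 hne')
    by_cases ho : oddF j m
    · right
      have hhop : HopC U (I U) := by
        rcases e3 with e3 | e3
        · exact absurd e3 hne
        · exact e3
      obtain ⟨p, q, hp, hq, ht, hty⟩ := hL j m U (I U) hm (by rw [pkc_Rd hU]; exact hk)
        (fun p hp => cl_same hp0 hp hU) (fun p hp => cl_same hp0 hp e1) (fun h => hne h.symm) hhop
      have htt : m = 2 → TopTwo p ∧ TopTwo q := by
        intro h3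
        apply ht h3
        rw [h3] at ho
        exact oddF_two_even ho
      obtain ⟨a1, a2⟩ := f1.2 ho p hp (fun h => (htt h).1)
      obtain ⟨b1, b2⟩ := f2.2 ho q hq (fun h => (htt h).2)
      exact ⟨p, q, hp, hq, a1, b1, hty, a2, b2⟩
    · exact Or.inl ⟨f1.1 ho, f2.1 ho⟩
  · intro U hU hf
    have h3 := (hI U hU).2.2.2.1 hf
    change U = U0 ∧ _ at h3
    rw [← hU0] at h3
    obtain ⟨rfl, h4⟩ := h3
    exact h0 h4

/-- the hops of a class are plain pairs, the L pairs have a type -/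
structure ClsEnv (AE : Cyc k → Cyc k → Prop) (Pp : τp → Set (Cyc k) → DG k → Prop)
    (Pw : τw → Set (Cyc k) → DG k → Prop) (κ : RD × Multiset ℕ) : Prop where
  e : ∀ p q : Cyc k, cl p = κ → cl q = κ → p ≠ q → HopC p q → AE p q
  l : LEx Pp Pw κ

variable {p0 : Cyc k} {U1 : Cyc j} {X : Set (Cyc k)} {m : ℕ}

theorem ClsEnv.rem (hEnv : ClsEnv AE Pp Pw (cl p0)) (hp0 : Rd p0 = ⟨j, U1⟩) {U : Cyc j}
    (hU : Rd U = Rd U1) {D : Set (Cyc k)} (h : RemOK ⟨j, U⟩ D) : RemA AE ⟨j, U⟩ D :=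
  h.remA.mono fun p q hp hq hne hop => hEnv.e p q (cl_same hp0 hp hU) (cl_same hp0 hq hU) hne hop

/-- no guest in the family: nothing or one member is left out -/
theorem rem_plain (hEnv : ClsEnv AE Pp Pw (cl p0)) (hp0 : Rd p0 = ⟨j, U1⟩)
    (hk : j + pkc U1 + m = k) {U : Cyc j} (hU : Rd U = Rd U1)
    (hX : ∀ c ∈ X, Rd c ≠ ⟨j, U⟩) :
    (¬ oddF j m → RemA AE ⟨j, U⟩ X) ∧
      (oddF j m → ∀ p, Rd p = ⟨j, U⟩ → (m = 2 → IsTwo p) → p ∉ X ∧ RemA AE ⟨j, U⟩ ({p} ∪ X)) := by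
  constructor
  · intro ho
    refine (hEnv.rem hp0 hU (remOK_even ⟨j, U⟩ m (fun p hp => count_class hp0 hk hp hU) ho)).congr
      fun c hc => ?_
    constructor
    · intro h; exact absurd h (Set.notMem_empty _)
    · intro h; exact absurd hc (hX c h)
  · intro ho p hp h2
    refine ⟨fun h => hX p h hp, ?_⟩
    have hc := count_class hp0 hk hp hU
    refine (hEnv.rem hp0 hU (remOK_lo ⟨j, U⟩ p hp (fun h3 _ => h2 (by rw [← hc, h3])))).congr
      fun c hc' => ?_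
    rw [Set.mem_setOf_eq, hc]
    constructor
    · rintro ⟨rfl, _⟩; exact Or.inl rfl
    · rintro (h | h)
      · exact ⟨h, ho⟩
      · exact absurd hc' (hX c h)

/-- **CORE**: all guests of the class over `Uf` -/
theorem r1_core (hEnv : ClsEnv AE Pp Pw (cl p0)) (hp0 : Rd p0 = ⟨j, U1⟩)
    (hm : 1 ≤ m) (hk : j + pkc U1 + m = k) (Uf : Cyc j)
    (hXf : ∀ c ∈ X, ∀ U, Rd c = ⟨j, U⟩ → Rd U = Rd U1 → U = Uf)
    (U0 : Cyc j) (hU0 : Rd U0 = Rd U1)
    (h2 : (contc U0).count 1 = 2 → oddF (Rd U0).1 2 → IsTwo U0)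
    (hf : Rd Uf = Rd U1 → ¬ (Uf = U0 ∧ oddF (Rd U0).1 ((contc U0).count 1)) →
      (¬ oddF j m → RemA AE ⟨j, Uf⟩ X) ∧
      (oddF j m → ∀ p, Rd p = ⟨j, Uf⟩ → (m = 2 → TopTwo p) → p ∉ X ∧ RemA AE ⟨j, Uf⟩ ({p} ∪ X)))
    (h0 : oddF (Rd U0).1 ((contc U0).count 1) → ∃ G : Set (Set (Cyc k)), (∀ F ∈ G, F.Nonempty ∧
      Typd Pp Pw F ∧ ∀ c ∈ F, Rd c = ⟨j, U0⟩ ∧ c ∉ X) ∧
      (∀ F ∈ G, ∀ F' ∈ G, ∀ c, c ∈ F → c ∈ F' → F = F') ∧ RemA AE ⟨j, U0⟩ (inG G ∪ X)) :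
    ∃ Gp Gw, ClsOK AE (cl p0) X Gp Gw Pp Pw := by
  refine r1_gen hp0 X hm hk hEnv.l U0 hU0 h2 ?_ h0
  intro U hU hne
  by_cases hUf : U = Uf
  · subst hUf
    exact hf hU hne
  · have h3 := rem_plain (X := X) hEnv hp0 hk hU (fun c hc h => hUf (hXf c hc U h hU))
    exact ⟨h3.1, fun ho p hp hT => h3.2 ho p hp (fun h => (hT h).two)⟩

/-- **no guest, window at the pile over the pile** -/
theorem r1_win (hEnv : ClsEnv AE Pp Pw (cl p0)) (hp0 : Rd p0 = ⟨j, U1⟩)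
    (hm : 1 ≤ m) (hk : j + pkc U1 + m = k) (hX : ∀ c ∈ X, cl c ≠ cl p0)
    (w : Cyc k) (U0 : Cyc j) (hU0 : Rd U0 = Rd U1) (hw : Rd w = ⟨j, U0⟩)
    (h2 : (contc U0).count 1 = 2 → IsTwo U0) (hw2 : m = 2 → IsTwo w) (hty : Typd Pp Pw {w}) :
    ∃ Gp Gw, ClsOK AE (cl p0) X Gp Gw Pp Pw := by
  have hXU : ∀ U, Rd U = Rd U1 → ∀ c ∈ X, Rd c ≠ ⟨j, U⟩ := by
    intro U hU c hc h
    exact hX c hc (cl_same hp0 h hU)
  have hpl := rem_plain (X := X) hEnv hp0 hk hU0 (hXU U0 hU0)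
  refine r1_core hEnv hp0 hm hk U0 ?_ U0 hU0 (fun h _ => h2 h) ?_ ?_
  · intro c hc U h hU
    exact absurd h (hXU U hU c hc)
  · intro _ _
    exact ⟨hpl.1, fun ho p hp hT => hpl.2 ho p hp (fun h => (hT h).two)⟩
  · intro _
    by_cases ho : oddF j m
    · obtain ⟨h3, h4⟩ := hpl.2 ho w hw hw2
      refine ⟨{{w}}, ?_, ?_, ?_⟩
      · rintro F hF
        rw [Set.mem_singleton_iff] at hF
        subst hF
        refine ⟨⟨w, rfl⟩, hty, ?_⟩
        rintro c hc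
        rw [Set.mem_singleton_iff] at hc
        subst hc
        exact ⟨hw, h3⟩
      · rintro F hF F' hF' c _ _
        rw [Set.mem_singleton_iff] at hF hF'
        rw [hF, hF']
      · rw [inG_single]
        exact h4
    · refine ⟨∅, fun F h => absurd h (Set.notMem_empty _), fun F h => absurd h (Set.notMem_empty _), ?_⟩
      rw [inG_empty', Set.empty_union]
      exact hpl.1 ho

/-- **one guest, both levels odd** -/
theorem r1_guest (hEnv : ClsEnv AE Pp Pw (cl p0)) (hp0 : Rd p0 = ⟨j, U1⟩)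
    (hm : 1 ≤ m) (hk : j + pkc U1 + m = k) (ho : oddF j m)
    (z : Cyc k) (U0 : Cyc j) (hU0 : Rd U0 = Rd U1) (hz : Rd z = ⟨j, U0⟩)
    (ho2 : oddF (Rd U0).1 ((contc U0).count 1))
    (hX : ∀ c, cl c = cl p0 → (c ∈ X ↔ c = z))
    (h2 : (contc U0).count 1 = 2 → IsTwo U0) (hz2 : m = 2 → IsTwo z) :
    ∃ Gp Gw, ClsOK AE (cl p0) X Gp Gw Pp Pw := by
  refine r1_core hEnv hp0 hm hk U0 ?_ U0 hU0 (fun h _ => h2 h) ?_ ?_
  · intro c hc U h hU
    have h3 := (hX c (cl_same hp0 h hU)).1 hc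
    rw [h3, hz] at h
    exact (eq_of_heq (Sigma.mk.inj_iff.1 h).2).symm
  · intro _ h3
    exact absurd ⟨rfl, ho2⟩ h3
  · intro _
    refine ⟨∅, fun F h => absurd h (Set.notMem_empty _), fun F h => absurd h (Set.notMem_empty _), ?_⟩
    rw [inG_empty', Set.empty_union]
    have hc := count_class hp0 hk hz hU0
    refine (hEnv.rem hp0 hU0 (remOK_lo ⟨j, U0⟩ z hz (fun h3 _ => hz2 (by rw [← hc, h3])))).congr
      fun c hc' => ?_
    rw [Set.mem_setOf_eq, hc, hX c (cl_same hp0 hc' hU0)]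
    exact ⟨fun h => h.1, fun h => ⟨h, ho⟩⟩

/-- **`|F(U,m)|` even**: guests `D` and possibly a window `w` over the same reduced cycle -/
theorem r1_set_even (hEnv : ClsEnv AE Pp Pw (cl p0)) (hp0 : Rd p0 = ⟨j, U1⟩)
    (hm : 1 ≤ m) (hk : j + pkc U1 + m = k) (ho : ¬ oddF j m)
    (D : Set (Cyc k)) (U0 : Cyc j) (hU0 : Rd U0 = Rd U1) (hD : ∀ c ∈ D, Rd c = ⟨j, U0⟩)
    (hX : ∀ c, cl c = cl p0 → (c ∈ X ↔ c ∈ D))
    (h2 : (contc U0).count 1 = 2 → IsTwo U0) (W : Set (Cyc k)) (hWD : ∀ c ∈ W, c ∉ D)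
    (hW : W = ∅ ∨ ∃ w, W = {w} ∧ Rd w = ⟨j, U0⟩ ∧ Typd Pp Pw {w})
    (hrem : RemOK ⟨j, U0⟩ (W ∪ D)) :
    ∃ Gp Gw, ClsOK AE (cl p0) X Gp Gw Pp Pw := by
  have hremX : RemA AE ⟨j, U0⟩ (W ∪ X) := by
    refine (hEnv.rem hp0 hU0 hrem).congr fun c hc => ?_
    have := hX c (cl_same hp0 hc hU0)
    constructor
    · rintro (h | h)
      · exact Or.inl h
      · exact Or.inr (this.2 h)
    · rintro (h | h)
      · exact Or.inl h
      · exact Or.inr (this.1 h)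
  -- the family of `U0` is left to the groups: no L pairs at all
  refine cls_of_inv' hp0 X id (fun U hU => ⟨hU, rfl⟩) (fun U _ h => absurd rfl h) ?_
  intro U hU _
  by_cases hUf : U = U0
  · subst hUf
    rcases hW with rfl | ⟨w, rfl, hw, hty⟩
    · refine ⟨∅, fun F h => absurd h (Set.notMem_empty _), fun F h => absurd h (Set.notMem_empty _), ?_⟩
      rw [inG_empty']
      exact hremX
    · refine ⟨{{w}}, ?_, ?_, ?_⟩
      · rintro F hF
        rw [Set.mem_singleton_iff] at hF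
        subst hF
        refine ⟨⟨w, rfl⟩, hty, ?_⟩
        rintro c hc
        rw [Set.mem_singleton_iff] at hc
        subst hc
        refine ⟨hw, fun h => ?_⟩
        exact hWD c rfl ((hX c (cl_same hp0 hw hU)).1 h)
      · rintro F hF F' hF' c _ _
        rw [Set.mem_singleton_iff] at hF hF'
        rw [hF, hF']
      · rw [inG_single]
        exact hremX
  · refine ⟨∅, fun F h => absurd h (Set.notMem_empty _), fun F h => absurd h (Set.notMem_empty _), ?_⟩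
    rw [inG_empty', Set.empty_union]
    refine (rem_plain (X := X) hEnv hp0 hk hU ?_).1 ho
    intro c hc h
    have h3 := (hX c (cl_same hp0 h hU)).1 hc
    rw [hD c h3] at h
    exact hUf (eq_of_heq (Sigma.mk.inj_iff.1 h).2).symm

end gen

variable {τ : Type} {P : τ → Set (Cyc k) → DG k → Prop} {V : Cyc j2} {KS : BinaryTree Unit → Prop}

/-- **PART: one class with a window or nothing** -/
theorem part_win (a m : ℕ) (ha : 1 ≤ a) (hm : 1 ≤ m) (hk : j2 + 2 * pkc V + 2 * a + m = k)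
    (env : ∀ p0 : Cyc k, Rd (Rd p0).2 = ⟨j2, V⟩ → ClsEnv (AEP P) P P (cl p0))
    (win : NodeW k V (Typd P P) a m) : ClsReg P (vcl k V a : Set (RD × Multiset ℕ)) := by
  refine ClsReg.single fun p0 hp0 => ?_
  obtain ⟨U1, a1, a2, a3, a4, a5⟩ := vcl_data (j := j2 + pkc V + a) hk hp0 rfl
  obtain ⟨v, x2, u, x, w, b1, b2, b3, b4, b5, b6, b7, b8⟩ := win.data (j := j2 + pkc V + a) rfl
  have hE := env p0 (mem_vcl.1 hp0).1
  have hRU : Rd (cyc u) = Rd U1 := by rw [b6, a2]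
  refine r1_win hE a1 hm a5 (fun c hc => absurd hc (Set.notMem_empty _)) (cyc w) (cyc u) hRU b5
    (fun h => b7.two h) (fun h => b8.two ?_) b4
  rw [count_class a1 a5 b5 hRU, h]

/-- **PART: the class `(V; 0, m)` of even size** -/
theorem part_even (m : ℕ) (hm : 1 ≤ m) (hk : j2 + 2 * pkc V + m = k)
    (env : ∀ p0 : Cyc k, Rd (Rd p0).2 = ⟨j2, V⟩ → ClsEnv (AEP P) P P (cl p0))
    (ho : ¬ oddF (j2 + pkc V) m) : ClsReg P (vcl k V 0 : Set (RD × Multiset ℕ)) := by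
  refine ClsReg.single fun p0 hp0 => ?_
  obtain ⟨U1, a1, a2, a3, a4, a5⟩ := vcl_data (j := j2 + pkc V) (m := m) (by omega) hp0 rfl
  have hE := env p0 (mem_vcl.1 hp0).1
  refine r1_set_even hE a1 hm a5 ho ∅ U1 rfl (fun c hc => absurd hc (Set.notMem_empty _))
    (fun c _ => Iff.rfl) (fun h => by omega) ∅ (fun c hc => absurd hc (Set.notMem_empty _)) (Or.inl rfl) ?_
  rw [Set.empty_union]
  exact remOK_even _ m (fun p hp => count_class a1 a5 hp rfl) ho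

/-- a K guest `t` in the class `(V; 0, m)`, `m` odd in number -/
theorem cls_t0 {m : ℕ} (hm : 1 ≤ m) (hk : j2 + 2 * pkc V + m = k)
    (env : ∀ p0 : Cyc k, Rd (Rd p0).2 = ⟨j2, V⟩ → ClsEnv (AEP P) P P (cl p0))
    (ho : oddF (j2 + pkc V) m) {t : Cyc k} {U : Cyc (j2 + pkc V)} (ht : Rd t = ⟨j2 + pkc V, U⟩)
    (hU : Rd U = ⟨j2, V⟩) (ht2 : m = 2 → IsTwo t) {p0 : Cyc k} (hp0 : cl p0 ∈ vcl k V 0)
    {Xs : Set (Cyc k)} (hX : ∀ q, cl q = cl p0 → (q ∈ Xs ↔ q = t)) :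
    ∃ Gp Gw, ClsOK (AEP P) (cl p0) Xs Gp Gw P P := by
  obtain ⟨U1, a1, a2, a3, a4, a5⟩ := vcl_data (j := j2 + pkc V) (m := m) (by omega) hp0 rfl
  have hRU : Rd U = Rd U1 := by rw [hU, a2]
  have hc : (contc U).count 1 = 0 := by rw [Rd_contc hRU, a3]
  refine r1_guest (env p0 (mem_vcl.1 hp0).1) a1 hm a5 ho t U hRU ht ?_ hX ?_ ht2
  · rw [hc]
    exact oddF_zero _
  · intro h
    rw [hc] at h
    exact absurd h (by norm_num)

/-- a K guest `z` in the class `(V; 1, m)`, odd -/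
theorem cls_z1 {m : ℕ} (hm : 1 ≤ m) (hk : j2 + 2 * pkc V + m + 2 = k)
    (env : ∀ p0 : Cyc k, Rd (Rd p0).2 = ⟨j2, V⟩ → ClsEnv (AEP P) P P (cl p0))
    (ho : oddF (j2 + pkc V + 1) m) {z : Cyc k} {U : Cyc (j2 + pkc V + 1)}
    (hz : Rd z = ⟨j2 + pkc V + 1, U⟩) (hU : Rd U = ⟨j2, V⟩) (hz2 : m = 2 → IsTwo z) {p0 : Cyc k}
    (hp0 : cl p0 ∈ vcl k V 1) {Xs : Set (Cyc k)} (hX : ∀ q, cl q = cl p0 → (q ∈ Xs ↔ q = z)) :
    ∃ Gp Gw, ClsOK (AEP P) (cl p0) Xs Gp Gw P P := by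
  obtain ⟨U1, a1, a2, a3, a4, a5⟩ := vcl_data (j := j2 + pkc V + 1) (m := m) (by omega) hp0 rfl
  have hRU : Rd U = Rd U1 := by rw [hU, a2]
  have hc : (contc U).count 1 = 1 := by rw [Rd_contc hRU, a3]
  refine r1_guest (env p0 (mem_vcl.1 hp0).1) a1 hm a5 ho z U hRU hz ?_ hX ?_ hz2
  · rw [hc]
    exact oddF_one _
  · intro h
    rw [hc] at h
    exact absurd h (by norm_num)

/-- **PART: K link, both classes odd** -/
theorem part_kk (m : ℕ) (hm : 1 ≤ m) (hk : j2 + 2 * pkc V + m + 2 = k) (hi : 1 ≤ j2 + pkc V)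
    (env : ∀ p0 : Cyc k, Rd (Rd p0).2 = ⟨j2, V⟩ → ClsEnv (AEP P) P P (cl p0))
    (kty : ∀ S F g, KS S → TyK S F g → (∀ c ∈ F, Rd (Rd c).2 = ⟨j2, V⟩) → Typd P P F)
    (h1 : oddF (j2 + pkc V) (m + 2)) (h2 : oddF (j2 + pkc V + 1) m) {x b y c : ℕ}
    (hx : x < 2 * (j2 + pkc V) + 1) (hy : y < 2 * (j2 + pkc V) + 1) (hbc : b + c = m)
    (hph : KPh V KS 0 x b y c)
    (hm2 : m = 2 → b = 1 ∧ c = 1 ∧ ∃ l, 2 * l ≤ j2 + pkc V + 1 ∧ x + 2 * l = y) :
    ClsReg P (vcl k V 0 ∪ vcl k V 1 : Set (RD × Multiset ℕ)) := by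
  obtain ⟨v, hv, hS⟩ := hph
  obtain ⟨r, r', wz, wt, g1, g2, g3, g4, g5, g6, g7, g8, g9, g10, g11, g12⟩ :=
    k_group (k := k) (P := P) (a := 0) hbc (by omega) (by omega) (by omega) (by omega) v hv hS kty
  refine two_classes (by norm_num) g9 g10 g12 ?_ ?_
  · intro p0 hp0 hX
    exact cls_t0 (m := m + 2) (by omega) (by omega) env h1 g6 g8 (fun h => by omega) hp0 hX
  · intro p0 hp0 hX
    refine cls_z1 hm hk env h2 g5 g7 (fun h => ?_) hp0 hX
    obtain ⟨rfl, rfl, l, hl, hxl⟩ := hm2 h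
    exact ev_two (l := l) (by omega) (by omega) hxl g3

/-- **PART: the K link without beads**, any `a` -/
theorem part_ktop (a : ℕ) (hi : 1 ≤ j2 + pkc V + a) (hk : j2 + 2 * pkc V + 2 * a + 2 = k)
    (env : ∀ p0 : Cyc k, Rd (Rd p0).2 = ⟨j2, V⟩ → ClsEnv (AEP P) P P (cl p0))
    (kty : ∀ S F g, KS S → TyK S F g → (∀ c ∈ F, Rd (Rd c).2 = ⟨j2, V⟩) → Typd P P F)
    (h1 : oddF j2 (a + 1)) (h2 : oddF j2 a ∧ oddF (j2 + pkc V + a) 2) (k4 : KPh V KS a 0 0 0 0)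
    (jvk : JVK P V (a + 1)) :
    ClsReg P (vcl k V a ∪ vcl k V (a + 1) : Set (RD × Multiset ℕ)) := by
  obtain ⟨v, hv, hS⟩ := k4
  have hpv : pkn v.1 = pkc V := by rw [← pkc_cyc, hv]
  have hsum : ∑ z : ZMod (2 * j2 + 1), (if z = -1 then a else 0) = a := by
    rw [Finset.sum_ite_eq' univ (-1 : ZMod (2 * j2 + 1)) (fun _ => a), if_pos (mem_univ _)]
  have hnum := ins_num v.1 (lf fun z : ZMod (2 * j2 + 1) => if z = -1 then a else 0)
    (by rw [lf_length, X_num])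
  rw [lf_sum, hsum, X_num, hpv] at hnum
  obtain ⟨r, hr⟩ : ∃ r : X (j2 + pkc V + a),
      r.1 = ins v.1 (lf fun z : ZMod (2 * j2 + 1) => if z = -1 then a else 0) :=
    ⟨⟨_, mem_treesOfNumNodesEq.2 hnum.1⟩, rfl⟩
  have hpr : pkn r.1 = pkc V + a := by rw [hr, hnum.2]
  obtain ⟨r', wz, wt, g, b1, b2, b3, b4, b5, b6, b7, b8, b9⟩ :=
    k_link (k := k) v a hi r hr (x := 0) (b := 0) (y := 0) (c := 0) (by omega) (by omega)
      (by rw [hpr]; omega)
  rw [hv] at b8 b9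
  rw [← hr] at hS
  have cz : cl (cyc wz) ∈ vcl k V (a + 1) := (vcl_iff b6 b8).2 (by omega)
  have ct : cl (cyc wt) ∈ vcl k V a := (vcl_iff b7 b9).2 rfl
  have hmem : ∀ c, c ∈ ({cyc wz, cyc wt} : Set (Cyc k)) ↔ c = cyc wz ∨ c = cyc wt := fun c => Iff.rfl
  have hty : Typd P P {cyc wz, cyc wt} := by
    refine kty _ _ g hS b3 ?_
    rintro c (rfl | rfl)
    · exact (mem_vcl.1 cz).1
    · exact (mem_vcl.1 ct).1
  have hpt : IsPile (cyc wt) := by
    refine ⟨_, r, 0, 2, wt, rfl, ?_⟩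
    rw [b5]
    congr 2
    funext z
    simp [ev]
  have hpr' : IsPile (cyc r) := ⟨j2, v, -1, a, r, rfl, hr⟩
  refine ⟨{{cyc wz, cyc wt}}, ?_, ?_, ?_⟩
  · intro F hF
    rw [Set.mem_singleton_iff] at hF
    subst hF
    refine ⟨⟨cyc wz, Or.inl rfl⟩, hty, ?_⟩
    rintro c (rfl | rfl)
    · exact Or.inr cz
    · exact Or.inl ct
  · intro F hF F' hF' c _ _
    rw [Set.mem_singleton_iff] at hF hF'
    rw [hF, hF']
  · rw [inG_single]
    rintro p0 (hp0 | hp0)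
    · obtain ⟨U1, a1, a2, a3, a4, a5⟩ := vcl_data (j := j2 + pkc V + a) hk hp0 rfl
      have hE := env p0 (mem_vcl.1 hp0).1
      have hRU : Rd (cyc r) = Rd U1 := by rw [b9, a2]
      have hcr : (contc (cyc r)).count 1 = a := by rw [Rd_count hRU, a3]
      refine r1_guest hE a1 (m := 2) (by norm_num) a5 h2.2 (cyc wt) (cyc r) hRU b7 ?_ ?_
        (fun h => hpr'.two h) (fun _ => hpt.two ?_)
      · rw [b9, hcr]
        exact h2.1
      · intro c hc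
        rw [hmem]
        constructor
        · rintro (rfl | rfl)
          · exact absurd hc (vcl_ne cz hp0 (by omega))
          · rfl
        · intro h
          exact Or.inr h
      · exact count_class a1 a5 b7 hRU
    · refine jvk (j2 + pkc V + a + 1) v (-1) r' (cyc wz) hv b1 b6 h1 p0 _ hp0 ?_
      intro c hc
      rw [hmem, Set.mem_singleton_iff]
      constructor
      · rintro (rfl | rfl)
        · rfl
        · exact absurd hc (vcl_ne ct hp0 (by omega))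
      · intro h
        exact Or.inl h

/-- **PART K0**: `M = 2`, the level `j2 + pkc V` is even -/
theorem part_k0 (hi : 1 ≤ j2 + pkc V) (hk : j2 + 2 * pkc V + 2 = k)
    (env : ∀ p0 : Cyc k, Rd (Rd p0).2 = ⟨j2, V⟩ → ClsEnv (AEP P) P P (cl p0))
    (kty : ∀ S F g, KS S → TyK S F g → (∀ c ∈ F, Rd (Rd c).2 = ⟨j2, V⟩) → Typd P P F)
    (h1 : oddF (j2 + pkc V) 2) (k0 : KPh V KS 0 0 0 0 0) (jvk : JVK P V 1) :
    ClsReg P (vcl k V 0 ∪ vcl k V 1 : Set (RD × Multiset ℕ)) := by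
  have h0 : oddF j2 1 := by
    unfold oddF
    have e1 : Nat.card (Ms (2 * j2 + 1) 1) = 2 * j2 + 1 := by
      have e2 : Nat.card (Ms (2 * j2 + 1) 1) = Nat.card (Sym (ZMod (2 * j2 + 1)) 1) :=
        (Nat.card_congr (Sym.equivNatSumOfFintype (ZMod (2 * j2 + 1)) 1)).symm
      rw [e2, Nat.card_eq_fintype_card, Sym.card_sym_eq_choose, ZMod.card]
      simp
    rw [e1]
    exact ⟨j2, rfl⟩
  exact part_ktop 0 (by omega) (by omega) env kty h0 ⟨oddF_zero j2, h1⟩ k0 jvk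

/-- **PART K3**: the class `(V; 0, m+2)` is odd, the class `(V; 1, m)` is even -/
theorem part_k3 (m : ℕ) (hm : 2 ≤ m) (hk : j2 + 2 * pkc V + m + 2 = k) (hi : 1 ≤ j2 + pkc V)
    (env : ∀ p0 : Cyc k, Rd (Rd p0).2 = ⟨j2, V⟩ → ClsEnv (AEP P) P P (cl p0))
    (kty : ∀ S F g, KS S → TyK S F g → (∀ c ∈ F, Rd (Rd c).2 = ⟨j2, V⟩) → Typd P P F)
    (h1 : oddF (j2 + pkc V) (m + 2)) (h2 : ¬ oddF (j2 + pkc V + 1) m) (kn : KNr V KS m)
    (win : NodeW k V (Typd P P) 1 m) :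
    ClsReg P (vcl k V 0 ∪ vcl k V 1 : Set (RD × Multiset ℕ)) := by
  obtain ⟨v, x2, u, x, w, b1, b2, b3, b4, b5, b6, b7, b8⟩ := win.data (j := j2 + pkc V + 1) rfl
  obtain ⟨t, v', u', hv', hu', hu1, hx⟩ := bead_phase v u 1 x2 b2 x (-3)
  have hcv : cyc v' = V := by rw [hv', cyc_pow', b1]
  have hcu : cyc u' = cyc u := by rw [hu', cyc_pow']
  obtain ⟨w', hw'⟩ : ∃ w' : X k, w' = (TT ^ t) w := ⟨_, rfl⟩
  have hcw : cyc w' = cyc w := by rw [hw', cyc_pow']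
  have hw1 : w'.1 = ins u'.1 (lf fun z : ZMod (2 * (j2 + pkc V + 1) + 1) => if z = -3 then m else 0) := by
    rw [hw', word_pow b3, ← hu']
    congr 2
    funext z
    have : (z + sp u t = x) ↔ z = -3 := by
      rw [← hx]
      constructor
      · intro h
        linear_combination h
      · intro h
        rw [h]
        ring
    simp only [this]
  obtain ⟨r, r', wz, wt, g1, g2, g3, g4, g5, g6, g7, g8, g9, g10, g11, g12⟩ :=
    k_group (k := k) (P := P) (a := 0) (x := 2 * (j2 + pkc V) - 1) (b := 1) (y := 2 * (j2 + pkc V))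
      (c := m - 1) (m := m) (by omega) (by omega) (by omega) (by omega) (by omega) v' hcv (kn v' hcv) kty
  have hru : r' = u' := by
    apply Subtype.ext
    rw [g2, hu1]
  subst hru
  -- the near pile
  have e3 : ((2 * (j2 + pkc V) : ℕ) : ZMod (2 * (j2 + pkc V + 1) + 1)) = -3 := by
    have h3 : ((2 * (j2 + pkc V) + 3 : ℕ) : ZMod (2 * (j2 + pkc V + 1) + 1)) = 0 := by
      have h4 : 2 * (j2 + pkc V) + 3 = 2 * (j2 + pkc V + 1) + 1 := by ring
      rw [h4]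
      exact ZMod.natCast_self _
    rw [Nat.cast_add] at h3
    have h5 : ((3 : ℕ) : ZMod (2 * (j2 + pkc V + 1) + 1)) = 3 := by norm_num
    rw [h5] at h3
    linear_combination h3
  have e4 : ((2 * (j2 + pkc V) - 1 : ℕ) : ZMod (2 * (j2 + pkc V + 1) + 1)) = -3 - 1 := by
    have h3 : ((2 * (j2 + pkc V) - 1 + 1 : ℕ) : ZMod (2 * (j2 + pkc V + 1) + 1)) = -3 := by
      rw [← e3]
      congr 1
      omega
    rw [Nat.cast_add, Nat.cast_one] at h3
    linear_combination h3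
  have hwz : wz.1 = ins r'.1 (lf fun z : ZMod (2 * (j2 + pkc V + 1) + 1) =>
      (if z = -3 then m - 1 else 0) + if z = -3 - 1 then 1 else 0) := by
    rw [g3, ev_cast _ _ _ _ (by omega) (by omega), e3, e4]
    congr 2
    funext z
    exact add_comm _ _
  have hone : (-3 - 1 : ZMod (2 * (j2 + pkc V + 1) + 1)) ≠ -3 := by
    intro h
    haveI : Fact (1 < 2 * (j2 + pkc V + 1) + 1) := ⟨by omega⟩
    have h3 : (1 : ZMod (2 * (j2 + pkc V + 1) + 1)) = 0 := by linear_combination -h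
    exact one_ne_zero h3
  have hRu : Rd (cyc r') = ⟨j2, V⟩ := g7
  have hRw : Rd (cyc w) = ⟨j2 + pkc V + 1, cyc r'⟩ := by rw [b5, hcu]
  -- removal set and inequality
  have hrem : cyc w ≠ cyc wz ∧ RemOK ⟨j2 + pkc V + 1, cyc r'⟩ ({cyc w} ∪ {cyc wz}) := by
    rcases Nat.lt_or_ge m 3 with h3 | h3
    · obtain rfl : m = 2 := by omega
      have hkr : (j2 + pkc V + 1) + pkn r'.1 + 2 = k := by
        have h4 := word_phi hw1
        rw [Finset.sum_ite_eq' univ _ (fun _ => 2), if_pos (mem_univ _)] at h4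
        exact h4
      have hjo : (j2 + pkc V + 1) % 2 = 1 := by
        by_contra h
        exact h2 (oddF_two_iff.2 (by omega))
      have hz : cyc wz = tc r' hkr ((2 * (j2 + pkc V) - 1 : ℕ) : ZMod (2 * (j2 + pkc V + 1) + 1)) 1 :=
        ev_tc hkr (by omega) (by omega) g3
      have hwt : cyc w = tc r' hkr (-3) 0 := by
        rw [← hcw]
        refine tc_word r' hkr _ _ ?_
        rw [hw1]
        congr 2
        funext z
        by_cases hz : z = -3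
        · simp [hz]
        · simp [hz]
      rw [hwt, hz]
      refine ⟨tc_ne (by omega) hkr hkr (by omega) (by omega) (by norm_num), ?_⟩
      rw [Set.singleton_union]
      exact rem_ab (by omega) r' hkr hjo _ _
    · rw [← hcw]
      refine ⟨cyc_pile_ne_near (by omega) h3 hone hw1 hwz, ?_⟩
      rw [Set.singleton_union]
      exact remOK_py (by omega) h3 (Or.inr rfl) hw1 hwz h2
  refine two_classes (by norm_num) g9 g10 g12 ?_ ?_
  · intro p0 hp0 hX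
    exact cls_t0 (m := m + 2) (by omega) (by omega) env h1 g6 g8 (fun h => by omega) hp0 hX
  · intro p0 hp0 hX
    obtain ⟨U1, a1, a2, a3, a4, a5⟩ := vcl_data (j := j2 + pkc V + 1) (m := m) (by omega) hp0 rfl
    have hRU : Rd (cyc r') = Rd U1 := by rw [hRu, a2]
    refine r1_set_even (env p0 (mem_vcl.1 hp0).1) a1 (by omega) a5 h2 {cyc wz} (cyc r') hRU ?_ ?_ ?_
      {cyc w} ?_ (Or.inr ⟨cyc w, rfl, hRw, b4⟩) hrem.2
    · rintro c rfl
      exact g5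
    · intro q hq
      rw [hX q hq]
      exact Iff.rfl
    · intro h
      rw [Rd_contc hRU, a3] at h
      exact absurd h (by norm_num)
    · rintro c rfl h
      exact hrem.1 h

/-- **PART W0**: the class `(V; a, 2)` is even, the class `(V; a + 1, 0)` is odd: a window `m = 0` -/
theorem part_w0 (a : ℕ) (hk : j2 + 2 * pkc V + 2 * a + 2 = k)
    (env : ∀ p0 : Cyc k, Rd (Rd p0).2 = ⟨j2, V⟩ → ClsEnv (AEP P) P P (cl p0))
    (h1 : oddF j2 (a + 1)) (h2 : a = 0 → ¬ oddF (j2 + pkc V) 2)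
    (win : 1 ≤ a → NodeW k V (Typd P P) a 2) (win0 : NodeW k V (Typd P P) (a + 1) 0)
    (jvk : JVK P V (a + 1)) : ClsReg P (vcl k V a ∪ vcl k V (a + 1) : Set (RD × Multiset ℕ)) := by
  refine ClsReg.union ?_ (cls_w0 (by omega) h1 win0 jvk) ?_
  · rcases Nat.eq_zero_or_pos a with ha | ha
    · subst ha
      exact part_even 2 (by norm_num) (by omega) env (h2 rfl)
    · exact part_win a 2 ha (by norm_num) hk env (win ha)
  · rintro κ ⟨p, rfl, h3, h4⟩ ⟨q, h5, h6, h7⟩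
    have h8 : cl p ∈ vcl k V a := ⟨p, rfl, h3, h4⟩
    have h9 : cl q ∈ vcl k V (a + 1) := ⟨q, rfl, h6, h7⟩
    exact vcl_ne h9 h8 (by omega) h5

/-- **what is needed over one `V`** -/
structure VEnv (P : τ → Set (Cyc k) → DG k → Prop) (V : Cyc j2) (KS : BinaryTree Unit → Prop) : Prop where
  /-- hops of the families are E pairs, L pairs exist -/
  env : ∀ p0 : Cyc k, Rd (Rd p0).2 = ⟨j2, V⟩ → ClsEnv (AEP P) P P (cl p0)
  /-- windows, `m ≥ 0` -/
  win : ∀ a m, 1 ≤ a → j2 + 2 * pkc V + 2 * a + m = k → NodeW k V (Typd P P) a m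
  /-- K links have a type -/
  kty : ∀ S F g, KS S → TyK S F g → (∀ c ∈ F, Rd (Rd c).2 = ⟨j2, V⟩) → Typd P P F
  /-- K0, `M = 2` -/
  k0 : j2 + 2 * pkc V + 2 = k → oddF (j2 + pkc V) 2 → KPh V KS 0 0 0 0 0
  /-- K1, `M = 3` -/
  k1 : j2 + 2 * pkc V + 3 = k → oddF (j2 + pkc V) 3 →
    ∃ x, x < 2 * (j2 + pkc V) + 1 ∧ KPh V KS 0 x 1 0 0
  /-- K2', `M = 4` : level at least 2 -/
  k2 : j2 + 2 * pkc V + 4 = k → oddF (j2 + pkc V) 4 → oddF (j2 + pkc V + 1) 2 →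
    ∃ x l, 1 ≤ l ∧ 2 * l ≤ j2 + pkc V + 1 ∧ x + 2 * l = 2 * (j2 + pkc V) ∧
      KPh V KS 0 x 1 (2 * (j2 + pkc V)) 1
  /-- K2, `M ≥ 5` -/
  kp : ∀ m, 3 ≤ m → j2 + 2 * pkc V + m + 2 = k → oddF (j2 + pkc V) (m + 2) →
    oddF (j2 + pkc V + 1) m → ∃ x b y c, x < 2 * (j2 + pkc V) + 1 ∧ y < 2 * (j2 + pkc V) + 1 ∧
      b + c = m ∧ KPh V KS 0 x b y c
  /-- K3, `M ≥ 4` -/
  kn : ∀ m, 2 ≤ m → j2 + 2 * pkc V + m + 2 = k → oddF (j2 + pkc V) (m + 2) →
    ¬ oddF (j2 + pkc V + 1) m → KNr V KS m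
  /-- the class `(V; a, 0)` -/
  jv : ∀ (a j : ℕ) (U U' : Cyc j), 1 ≤ a → j2 + 2 * pkc V + 2 * a = k → Rd U = ⟨j2, V⟩ →
    Rd U' = ⟨j2, V⟩ → j = j2 + pkc V + a → U ≠ U' → HopC U U' →
    ∃ p q : Cyc k, Rd p = ⟨j, U⟩ ∧ Rd q = ⟨j, U'⟩ ∧ Typd P P {p, q}

/-- **the classes `(V; a, m)`, `lo ≤ a ≤ hi`, `m ≥ 1`** -/
theorem VEnv.wins (E : VEnv P V KS) (lo hi : ℕ) (h0 : 1 ≤ lo)
    (h : j2 + 2 * pkc V + 2 * hi + 1 ≤ k ∨ hi < lo) :
    ClsReg P ({κ | ∃ a, lo ≤ a ∧ a ≤ hi ∧ κ ∈ vcl k V a} : Set (RD × Multiset ℕ)) := by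
  refine ClsReg.single fun p0 hp0 => ?_
  obtain ⟨a, ha1, ha2, hp0⟩ := hp0
  have h' : j2 + 2 * pkc V + 2 * hi + 1 ≤ k := by
    rcases h with h | h
    · exact h
    · omega
  obtain ⟨m, hm⟩ : ∃ m, j2 + 2 * pkc V + 2 * a + m = k := ⟨k - (j2 + 2 * pkc V + 2 * a), by omega⟩
  have hm1 : 1 ≤ m := by omega
  obtain ⟨U1, a1, a2, a3, a4, a5⟩ := vcl_data (j := j2 + pkc V + a) hm hp0 rfl
  obtain ⟨v, x2, u, x, w, b1, b2, b3, b4, b5, b6, b7, b8⟩ :=
    (E.win a m (by omega) hm).data (j := j2 + pkc V + a) rfl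
  have hRU : Rd (cyc u) = Rd U1 := by rw [b6, a2]
  refine r1_win (E.env p0 (mem_vcl.1 hp0).1) a1 hm1 a5 (fun c hc => absurd hc (Set.notMem_empty _))
    (cyc w) (cyc u) hRU b5 (fun h => b7.two h) (fun h => b8.two ?_) b4
  rw [count_class a1 a5 b5 hRU, h]

/-- the class `(V; a, 0)` -/
theorem VEnv.top (E : VEnv P V KS) (a : ℕ) (ha : 1 ≤ a) (hk : j2 + 2 * pkc V + 2 * a = k) :
    ClsReg P (vcl k V a : Set (RD × Multiset ℕ)) := by
  have jv := fun (j : ℕ) (U U' : Cyc j) h1 h2 h3 h4 h5 => E.jv a j U U' ha hk h1 h2 h3 h4 h5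
  by_cases hC : oddF j2 a
  · exact cls_w0 hk hC (E.win a 0 ha (by omega)) (jvk_of_hops a ha hk jv)
  · refine ClsReg.single fun p0 hp0 => ?_
    exact jv0_of_hops a ha hk jv hC p0 ∅ hp0 fun _ _ => Iff.rfl

/-- **the low block**: the classes `(V; 0, m + 2)`, `(V; 1, m)`, `m ≥ 1` -/
theorem VEnv.low (E : VEnv P V KS) (hi : 1 ≤ j2 + pkc V) (m : ℕ) (hm : 1 ≤ m)
    (hk : j2 + 2 * pkc V + m + 2 = k) :
    ClsReg P (vcl k V 0 ∪ vcl k V 1 : Set (RD × Multiset ℕ)) := by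
  by_cases hA : oddF (j2 + pkc V) (m + 2)
  · by_cases hB : oddF (j2 + pkc V + 1) m
    · obtain rfl | rfl | hm3 : m = 1 ∨ m = 2 ∨ 3 ≤ m := by omega
      · obtain ⟨x, hx, hph⟩ := E.k1 (by omega) hA
        exact part_kk 1 le_rfl (by omega) hi E.env E.kty hA hB hx (y := 0) (by omega) rfl hph
          (fun h => by omega)
      · obtain ⟨x, l, hl, hlj, hxl, hph⟩ := E.k2 (by omega) hA hB
        exact part_kk 2 (by norm_num) (by omega) hi E.env E.kty hA hB (by omega) (by omega) rfl hph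
          (fun _ => ⟨rfl, rfl, l, hlj, hxl⟩)
      · obtain ⟨x, b, y, c, hx, hy, hbc, hph⟩ := E.kp m hm3 (by omega) hA hB
        exact part_kk m hm (by omega) hi E.env E.kty hA hB hx hy hbc hph (fun h => by omega)
    · have hm2 : 2 ≤ m := by
        by_contra h
        obtain rfl : m = 1 := by omega
        exact hB (oddF_one _)
      exact part_k3 m hm2 (by omega) hi E.env E.kty hA hB (E.kn m hm2 (by omega) hA hB)
        (E.win 1 m le_rfl (by omega))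
  · refine (part_even (m + 2) (by omega) (by omega) E.env hA).union
      (part_win 1 m le_rfl hm (by omega) E.env (E.win 1 m le_rfl (by omega))) ?_
    intro κ h1 h2
    exact vcl_no (by norm_num) h1 h2

/-- `M = 2` -/
theorem VEnv.two (E : VEnv P V KS) (hi : 1 ≤ j2 + pkc V) (hk : j2 + 2 * pkc V + 2 = k) :
    ClsReg P (vcl k V 0 ∪ vcl k V 1 : Set (RD × Multiset ℕ)) := by
  have jv := fun (j : ℕ) (U U' : Cyc j) h1 h2 h3 h4 h5 =>
    E.jv 1 j U U' le_rfl (by omega) h1 h2 h3 h4 h5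
  by_cases hA : oddF (j2 + pkc V) 2
  · exact part_k0 hi hk E.env E.kty hA (E.k0 hk hA) (jvk_of_hops 1 le_rfl (by omega) jv)
  · exact part_w0 0 (by omega) E.env (oddF_one _) (fun _ => hA) (fun h => by omega)
      (E.win 1 0 le_rfl (by omega)) (jvk_of_hops 1 le_rfl (by omega) jv)

/-- **ALL CLASSES OVER `V`** -/
theorem VEnv.reg (E : VEnv P V KS) (hi : 1 ≤ j2 + pkc V) (hk : j2 + 2 * pkc V + 2 ≤ k) :
    RegOK P ({⟨j2, V⟩} : Set RD) := by
  obtain ⟨M, hM⟩ : ∃ M, j2 + 2 * pkc V + M = k := ⟨k - (j2 + 2 * pkc V), by omega⟩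
  have hM2 : 2 ≤ M := by omega
  have hcase : ∀ p : Cyc k, Rd (Rd p).2 = ⟨j2, V⟩ → cl p ∈ vcl k V (aa p) ∧ 2 * aa p ≤ M := by
    intro p hp
    have := ov_total hp
    exact ⟨mem_vcl.2 ⟨hp, rfl⟩, by omega⟩
  obtain rfl | h4 : M = 2 ∨ M ≠ 2 := by omega
  · refine (E.two hi (by omega)).congr fun p => ?_
    constructor
    · rintro (h | h)
      · exact (mem_vcl.1 h).1
      · exact (mem_vcl.1 h).1
    · intro h
      obtain ⟨h1, h2⟩ := hcase p h
      obtain h3 | h3 : aa p = 0 ∨ aa p = 1 := by omega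
      · rw [h3] at h1; exact Or.inl h1
      · rw [h3] at h1; exact Or.inr h1
  · obtain ⟨m, rfl⟩ : ∃ m, M = m + 2 := ⟨M - 2, by omega⟩
    have hlow := E.low hi m (by omega) (by omega)
    rcases Nat.even_or_odd' m with ⟨c, rfl | rfl⟩
    · -- `M` even
      have h1 := hlow.union (E.wins 2 c (by norm_num) (by omega)) ?_
      · have h2 := h1.union (E.top (c + 1) (by omega) (by omega)) ?_
        · refine h2.congr fun p => ?_
          constructor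
          · rintro (((h | h) | ⟨a, _, _, h⟩) | h)
            · exact (mem_vcl.1 h).1
            · exact (mem_vcl.1 h).1
            · exact (mem_vcl.1 h).1
            · exact (mem_vcl.1 h).1
          · intro h
            obtain ⟨h3, h4⟩ := hcase p h
            obtain h5 | h5 | h5 | h5 : aa p = 0 ∨ aa p = 1 ∨ (2 ≤ aa p ∧ aa p ≤ c) ∨
              aa p = c + 1 := by omega
            · rw [h5] at h3; exact Or.inl (Or.inl (Or.inl h3))
            · rw [h5] at h3; exact Or.inl (Or.inl (Or.inr h3))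
            · exact Or.inl (Or.inr ⟨aa p, h5.1, h5.2, h3⟩)
            · rw [h5] at h3; exact Or.inr h3
        · rintro κ ((h1 | h1) | ⟨a, ha1, ha2, h1⟩) h2
          · exact vcl_no (by omega) h1 h2
          · exact vcl_no (by omega) h1 h2
          · exact vcl_no (by omega) h1 h2
      · rintro κ (h1 | h1) ⟨a, ha1, ha2, h2⟩
        · exact vcl_no (by omega) h1 h2
        · exact vcl_no (by omega) h1 h2
    · -- `M` odd
      have h1 := hlow.union (E.wins 2 (c + 1) (by norm_num) (by omega)) ?_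
      · refine h1.congr fun p => ?_
        constructor
        · rintro ((h | h) | ⟨a, _, _, h⟩)
          · exact (mem_vcl.1 h).1
          · exact (mem_vcl.1 h).1
          · exact (mem_vcl.1 h).1
        · intro h
          obtain ⟨h3, h4⟩ := hcase p h
          obtain h5 | h5 | h5 : aa p = 0 ∨ aa p = 1 ∨ (2 ≤ aa p ∧ aa p ≤ c + 1) := by omega
          · rw [h5] at h3; exact Or.inl (Or.inl h3)
          · rw [h5] at h3; exact Or.inl (Or.inr h3)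
          · exact Or.inr ⟨aa p, h5.1, h5.2, h3⟩
      · rintro κ (h1 | h1) ⟨a, ha1, ha2, h2⟩
        · exact vcl_no (by omega) h1 h2
        · exact vcl_no (by omega) h1 h2

/-- the old environment gives the new one -/
theorem ClsEnv.of_old {τp τw : Type} {Pp : τp → Set (Cyc k) → DG k → Prop}
    {Pw : τw → Set (Cyc k) → DG k → Prop} {AE : Cyc k → Cyc k → Prop} {κ : RD × Multiset ℕ}
    (h : Pool.OddHC.ClsEnv AE Pp Pw κ) : ClsEnv AE Pp Pw κ := ⟨h.e, LEx.of_tyL h.l⟩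

end Pool.OddHC.PV
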