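import Pool.Agent.Work.MP_8f87b2_fin.PV
import Pool.Agent.Work.MP_8f87b2_fin.BlkAll

/-!
# The classes over one `V` with links J3V, K4, J1 and a provider for the L pairs

Copies of the theorems of `fin/R1b`, `fin/PartTop`, `fin/PartM4`, `fin/BlkAll` where the L pair over a hop is given by the
hypothesis `LEx`. `PV.NodeEnv.reg`: the region `{V}` (for the two solitons with smallest part `3` or `4`).
-/

set_option autoImplicit false

namespace Pool.OddHC.PV

open Finset BinaryTree Multiset Pool.OddHop Pool.OddHC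

variable {i j j2 k : ℕ}

section gen

variable {τp τw : Type} {Pp : τp → Set (Cyc k) → DG k → Prop} {Pw : τw → Set (Cyc k) → DG k → Prop}
  {AE : Cyc k → Cyc k → Prop} {p0 : Cyc k} {U1 : Cyc j} {Xs : Set (Cyc k)} {m : ℕ}

/-- **the edge is the only guest**, the class is even -/
theorem r1_edge (hEnv : ClsEnv AE Pp Pw (cl p0)) (hp0 : Rd p0 = ⟨j, U1⟩) (hj : 1 ≤ j)
    (hk1 : j + pkc U1 + 2 = k) (hev : ¬ (oddF j 2 ∧ oddF (Rd U1).1 ((contc U1).count 1)))
    (u : X j) (hu : Rd (cyc u) = Rd U1) (hk : j + pkn u.1 + 2 = k) (x : ZMod (2 * j + 1)) (s : Bool)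
    (h2 : (contc (cyc u)).count 1 = 2 → IsTwo (cyc u))
    (hX : ∀ c, cl c = cl p0 → (c ∈ Xs ↔ c = tc u hk x 0 ∨ c = tc u hk (mate s x) 1)) :
    ∃ Gp Gw, ClsOK AE (cl p0) Xs Gp Gw Pp Pw := by
  have hR := Rd_tc u hk
  have hcu : (contc (cyc u)).count 1 = (contc U1).count 1 := by rw [Rd_contc hu]
  by_cases ho : oddF j 2
  · have ho2 : ¬ oddF (Rd (cyc u)).1 ((contc (cyc u)).count 1) := by
      rw [hu, hcu]
      exact fun h => hev ⟨ho, h⟩
    have hjo := oddF_two_even ho
    refine r1_core hEnv hp0 (m := 2) (by norm_num) hk1 (cyc u) ?_ (cyc u) hu (fun h _ => h2 h) ?_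
      (fun h => absurd h ho2)
    · intro c hc U h hU
      have h3 := (hX c (cl_same hp0 h hU)).1 hc
      have h4 : Rd c = ⟨j, cyc u⟩ := by
        rcases h3 with rfl | rfl
        · exact hR _ _
        · exact hR _ _
      rw [h] at h4
      exact eq_of_heq (Sigma.mk.inj_iff.1 h4).2
    · intro _ _
      refine ⟨fun h => absurd ho h, fun _ p hp hT => ?_⟩
      obtain ⟨c, rfl⟩ := topTwo_tc (hT rfl) hp hk
      obtain ⟨hF1, hF2, hF3, hF4⟩ := two_family hj u hk
      have hj2 : 2 ≤ j := by omega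
      constructor
      · intro h3
        rcases (hX _ (cl_same hp0 (hR _ _) hu)).1 h3 with h4 | h4
        · have := hF2 _ _ _ _ le_rfl (by omega) h4
          omega
        · have := hF2 _ _ _ _ le_rfl (by omega) h4
          omega
      · refine (hEnv.rem hp0 hu (rem_top_edge hj u hk hjo c x s)).congr fun q hq => ?_
        have h3 := hX q (cl_same hp0 hq hu)
        constructor
        · rintro (h | h)
          · exact Or.inl h
          · exact Or.inr (h3.2 h)
        · rintro (h | h)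
          · exact Or.inl h
          · exact Or.inr (h3.1 h)
  · have hjo : j % 2 = 1 := by
      by_contra h
      exact ho (oddF_two_iff.2 (by omega))
    refine r1_set_even hEnv hp0 (by norm_num) hk1 ho {tc u hk x 0, tc u hk (mate s x) 1} (cyc u) hu
      ?_ hX h2 ∅ (fun c hc => absurd hc (Set.notMem_empty _)) (Or.inl rfl) ?_
    · rintro c (rfl | rfl)
      · exact hR _ _
      · exact hR _ _
    · rw [Set.empty_union]
      exact rem_edge hj u hk hjo x s

/-- **edge and one more guest in an even row `≥ 2`**, both levels odd -/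
theorem r1_guest_edge (hEnv : ClsEnv AE Pp Pw (cl p0)) (hp0 : Rd p0 = ⟨j, U1⟩) (hj : 1 ≤ j)
    (hk1 : j + pkc U1 + 2 = k) (ho : oddF j 2) (ho2 : oddF (Rd U1).1 ((contc U1).count 1))
    (u : X j) (hu : Rd (cyc u) = Rd U1) (hk : j + pkn u.1 + 2 = k) (x : ZMod (2 * j + 1)) (s : Bool)
    (u0 : X j) (hu0 : Rd (cyc u0) = Rd U1) (hk0 : j + pkn u0.1 + 2 = k) (a : ZMod (2 * j + 1)) {l : ℕ}
    (hl : 1 ≤ l) (hlj : 2 * l ≤ j)
    (h2 : (contc (cyc u0)).count 1 = 2 → IsTwo (cyc u0))
    (hX : ∀ c, cl c = cl p0 → (c ∈ Xs ↔ c = tc u0 hk0 a (2 * l) ∨ c = tc u hk x 0 ∨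
      c = tc u hk (mate s x) 1)) :
    ∃ Gp Gw, ClsOK AE (cl p0) Xs Gp Gw Pp Pw := by
  have hR := Rd_tc u hk
  have hR0 := Rd_tc u0 hk0
  have hcu : (contc (cyc u0)).count 1 = (contc U1).count 1 := by rw [Rd_contc hu0]
  have hjo := oddF_two_even ho
  obtain ⟨hF1, hF2, hF3, hF4⟩ := two_family hj u hk
  refine r1_gen hp0 Xs (m := 2) (by norm_num) hk1 hEnv.l (cyc u0) hu0 (fun h _ => h2 h) ?_ ?_
  · intro U hU hne
    have hU0 : U ≠ cyc u0 := by
      rintro rfl
      exact hne ⟨rfl, by rw [hu0, hcu]; exact ho2⟩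
    by_cases hUf : U = cyc u
    · subst hUf
      refine ⟨fun h => absurd ho h, fun _ p hp hT => ?_⟩
      obtain ⟨c, rfl⟩ := topTwo_tc (hT rfl) hp hk
      have hne0 : ∀ q : Cyc k, Rd q = ⟨j, cyc u⟩ → q ≠ tc u0 hk0 a (2 * l) := by
        rintro q hq rfl
        rw [hR0] at hq
        exact hU0 (eq_of_heq (Sigma.mk.inj_iff.1 hq).2).symm
      constructor
      · intro h3
        rcases (hX _ (cl_same hp0 (hR _ _) hu)).1 h3 with h4 | h4 | h4
        · exact hne0 _ hp h4
        · have := hF2 _ _ _ _ le_rfl (by omega) h4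
          omega
        · have := hF2 _ _ _ _ le_rfl (by omega) h4
          omega
      · refine (hEnv.rem hp0 hu (rem_top_edge hj u hk hjo c x s)).congr fun q hq => ?_
        have h3 := hX q (cl_same hp0 hq hu)
        constructor
        · rintro (h | h)
          · exact Or.inl h
          · exact Or.inr (h3.2 (Or.inr h))
        · rintro (h | h)
          · exact Or.inl h
          · exact Or.inr ((h3.1 h).resolve_left (hne0 q hq))
    · have h3 := rem_plain (X := Xs) hEnv hp0 hk1 hU (fun c hc h => by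
        rcases (hX c (cl_same hp0 h hU)).1 hc with rfl | rfl | rfl
        · rw [hR0] at h
          exact hU0 (eq_of_heq (Sigma.mk.inj_iff.1 h).2).symm
        · rw [hR] at h
          exact hUf (eq_of_heq (Sigma.mk.inj_iff.1 h).2).symm
        · rw [hR] at h
          exact hUf (eq_of_heq (Sigma.mk.inj_iff.1 h).2).symm)
      exact ⟨h3.1, fun ho p hp hT => h3.2 ho p hp (fun h => (hT h).two)⟩
  · intro _
    refine ⟨∅, fun F h => absurd h (Set.notMem_empty _), fun F h => absurd h (Set.notMem_empty _), ?_⟩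
    rw [inG_empty', Set.empty_union]
    by_cases hUf : cyc u0 = cyc u
    · obtain ⟨t, ht⟩ := tc_phase hUf hk hk0
      refine RemA.congr (D := {tc u hk (a + t) (2 * l), tc u hk x 0, tc u hk (mate s x) 1}) ?_ ?_
      · rw [hUf]
        exact hEnv.rem hp0 hu (rem_mid_edge hj u hk hjo hl hlj (a + t) x s)
      · intro q hq
        rw [hX q (cl_same hp0 hq hu0), ht]
        exact Iff.rfl
    · refine RemA.congr (D := {tc u0 hk0 a (2 * l)}) ?_ ?_
      · have h3 := count_class hp0 hk1 (hR0 a (2 * l)) hu0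
        refine (hEnv.rem hp0 hu0 (remOK_lo ⟨j, cyc u0⟩ (tc u0 hk0 a (2 * l)) (hR0 _ _)
          (fun _ _ => ?_))).congr fun q _ => ?_
        · obtain ⟨w, hw, hw1⟩ := tc_exists u0 hk0 a (2 * l)
          exact ⟨j, u0, a, 2 * l, w, hlj, by omega, hw, hw1⟩
        · rw [Set.mem_setOf_eq, h3]
          exact ⟨fun h => h.1, fun h => ⟨h, ho⟩⟩
      · intro q hq
        rw [hX q (cl_same hp0 hq hu0)]
        constructor
        · intro h
          exact Or.inl h
        · rintro (h | h | h)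
          · exact h
          · rw [h, hR] at hq
            exact absurd (eq_of_heq (Sigma.mk.inj_iff.1 hq).2).symm hUf
          · rw [h, hR] at hq
            exact absurd (eq_of_heq (Sigma.mk.inj_iff.1 hq).2).symm hUf

end gen

variable {τ : Type} {P : τ → Set (Cyc k) → DG k → Prop} {V : Cyc j2} {KS : BinaryTree Unit → Prop}

/-- **PART K4**: both levels odd, `a ≥ 1` -/
theorem part_k4 (a : ℕ) (ha : 1 ≤ a) (hk : j2 + 2 * pkc V + 2 * a + 2 = k)
    (env : ∀ p0 : Cyc k, Rd (Rd p0).2 = ⟨j2, V⟩ → ClsEnv (AEP P) P P (cl p0))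
    (kty : ∀ S F g, KS S → TyK S F g → (∀ c ∈ F, Rd (Rd c).2 = ⟨j2, V⟩) → Typd P P F)
    (h1 : oddF j2 (a + 1)) (h2 : oddF j2 a ∧ oddF (j2 + pkc V + a) 2) (k4 : KPh V KS a 0 0 0 0)
    (jvk : JVK P V (a + 1)) :
    ClsReg P (vcl k V a ∪ vcl k V (a + 1) : Set (RD × Multiset ℕ)) :=
  part_ktop a (by omega) hk env kty h1 h2 k4 jvk

/-- **PART J3V / J5V**: an edge of the rows 0, 1, the class `(V; a, 2)` is even -/
theorem part_j (a : ℕ) (hj : 1 ≤ j2 + pkc V + a) (hk : j2 + 2 * pkc V + 2 * a + 2 = k)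
    (env : ∀ p0 : Cyc k, Rd (Rd p0).2 = ⟨j2, V⟩ → ClsEnv (AEP P) P P (cl p0))
    (h2 : ¬ (oddF (j2 + pkc V + a) 2 ∧ oddF j2 a)) (hT : TopJ P V a) :
    ClsReg P (vcl k V a ∪ vcl k V (a + 1) : Set (RD × Multiset ℕ)) := by
  obtain ⟨F, j, u, hku, x, s, hty, hsub, hRu, rfl, htwo, hF, hJ⟩ := hT
  have hc0 : ∀ y d, cl (tc u hku y d) ∈ vcl k V a := fun y d => (vcl_iff (Rd_tc u hku y d) hRu).2 rfl
  refine ⟨{F}, ?_, ?_, ?_⟩
  · intro F' hF'
    rw [Set.mem_singleton_iff] at hF'
    subst hF'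
    exact ⟨⟨tc u hku x 0, (hF _ (hc0 x 0)).2 (Or.inl rfl)⟩, hty, hsub⟩
  · intro F' hF' F'' hF'' c _ _
    rw [Set.mem_singleton_iff] at hF' hF''
    rw [hF', hF'']
  · rw [inG_single]
    rintro p0 (hp0 | hp0)
    · obtain ⟨U1, a1, a2, a3, a4, a5⟩ := vcl_data (j := j2 + pkc V + a) hk hp0 rfl
      have hE := env p0 (mem_vcl.1 hp0).1
      refine r1_edge hE a1 hj a5 ?_ u (by rw [hRu, a2]) hku x s htwo ?_
      · rw [a2, a3]
        exact h2
      · intro c hc
        refine hF c ?_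
        rw [hc]
        exact hp0
    · exact hJ p0 F hp0 (fun c _ => Iff.rfl)

/-- **PART M = 4, the chain K3 + K4** -/
theorem part4_chain (hk : j2 + 2 * pkc V + 4 = k) (hi : 1 ≤ j2 + pkc V)
    (env : ∀ p0 : Cyc k, Rd (Rd p0).2 = ⟨j2, V⟩ → ClsEnv (AEP P) P P (cl p0))
    (kty : ∀ S F g, KS S → TyK S F g → (∀ c ∈ F, Rd (Rd c).2 = ⟨j2, V⟩) → Typd P P F)
    (hA : oddF (j2 + pkc V) 4) (hB : ¬ oddF (j2 + pkc V + 1) 2) (hC : oddF j2 2)
    (kn : KNr V KS 2) (k4 : KPh V KS 1 0 0 0 0) (jvk : JVK P V 2) :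
    ClsReg P (vcl k V 0 ∪ vcl k V 1 ∪ vcl k V 2 : Set (RD × Multiset ℕ)) := by
  obtain ⟨v, hv, hS⟩ := k4
  obtain ⟨r, r', wz, wt, g1, g2, g3, g4, g5, g6, g7, g8, g9, g10, g11, g12⟩ :=
    k_group (k := k) (P := P) (a := 1) (x := 0) (b := 0) (y := 0) (c := 0) (m := 0) rfl (by omega)
      (by omega) (by omega) (by omega) v hv hS kty
  obtain ⟨r0, r1, wz0, wt0, f1, f2, f3, f4, f5, f6, f7, f8, f9, f10, f11, f12⟩ :=
    k_group (k := k) (P := P) (a := 0) (x := 2 * (j2 + pkc V) - 1) (b := 1) (y := 2 * (j2 + pkc V))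
      (c := 1) (m := 2) rfl (by omega) (by omega) (by omega) (by omega) v hv (kn v hv) kty
  have hr : r1 = r := Subtype.ext (by rw [f2, g1])
  subst hr
  have hpr : pkn r1.1 = pkc V + 1 := by
    have h1 := vcl_data (k := k) (V := V) (a := 1) (m := 2) (j := j2 + pkc V + 1) (by omega) g10 rfl
    obtain ⟨U, a1, a2, a3, a4, a5⟩ := h1
    rw [g6] at a1
    have h2 : cyc r1 = U := eq_of_heq (Sigma.mk.inj_iff.1 a1).2
    rw [← pkc_cyc, h2, a4]
  have hkr : (j2 + pkc V + 1) + pkn r1.1 + 2 = k := by omega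
  -- the two guests of the class `a = 1`
  have ht : cyc wt = tc r1 hkr 0 0 := by
    refine tc_word r1 hkr 0 0 ?_
    rw [g4]
    congr 2
    funext z
    unfold ev
    by_cases hz : z = 0
    · simp [hz]
    · simp [hz]
  have hz0 : cyc wz0 = tc r1 hkr ((2 * (j2 + pkc V) - 1 : ℕ) : ZMod (2 * (j2 + pkc V + 1) + 1)) 1 :=
    ev_tc hkr (by omega) (by omega) f3
  have hne1 : cyc wt ≠ cyc wz0 := by
    rw [ht, hz0]
    exact tc_ne (by omega) hkr hkr (by omega) (by omega) (by norm_num)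
  have hjo : (j2 + pkc V + 1) % 2 = 1 := by
    by_contra h
    exact hB (oddF_two_iff.2 (by omega))
  have ca : ∀ {q : Cyc k} {a b : ℕ}, cl q ∈ vcl k V a → cl q ∈ vcl k V b → a = b := by
    intro q a b h1 h2
    exact (mem_vcl.1 h1).2.symm.trans (mem_vcl.1 h2).2
  refine ⟨{{cyc wz0, cyc wt0}, {cyc wz, cyc wt}}, ?_, ?_, ?_⟩
  · rintro F (rfl | rfl)
    · refine ⟨⟨_, Or.inl rfl⟩, f12, ?_⟩
      rintro q (rfl | rfl)
      · exact Or.inl (Or.inr f9)
      · exact Or.inl (Or.inl f10)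
    · refine ⟨⟨_, Or.inl rfl⟩, g12, ?_⟩
      rintro q (rfl | rfl)
      · exact Or.inr g9
      · exact Or.inl (Or.inr g10)
  · rintro F (rfl | rfl) F' (rfl | rfl) q hq hq'
    · rfl
    · exfalso
      rcases hq with rfl | rfl <;> rcases hq' with h | h
      · rw [h] at f9
        exact absurd (ca f9 g9) (by norm_num)
      · exact hne1 h.symm
      · rw [h] at f10
        exact absurd (ca f10 g9) (by norm_num)
      · rw [h] at f10
        exact absurd (ca f10 g10) (by norm_num)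
    · exfalso
      rcases hq with rfl | rfl <;> rcases hq' with h | h
      · rw [h] at g9
        exact absurd (ca g9 f9) (by norm_num)
      · rw [h] at g9
        exact absurd (ca g9 f10) (by norm_num)
      · exact hne1 h
      · rw [h] at g10
        exact absurd (ca g10 f10) (by norm_num)
    · rfl
  · have hin : ∀ q, q ∈ inG ({{cyc wz0, cyc wt0}, {cyc wz, cyc wt}} : Set (Set (Cyc k))) ↔
        (q = cyc wz0 ∨ q = cyc wt0) ∨ q = cyc wz ∨ q = cyc wt := by
      intro q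
      constructor
      · rintro ⟨F, rfl | rfl, hq⟩
        · exact Or.inl hq
        · exact Or.inr hq
      · rintro (h | h)
        · exact ⟨_, Or.inl rfl, h⟩
        · exact ⟨_, Or.inr rfl, h⟩
    rintro p0 ((hp0 | hp0) | hp0)
    · refine cls_t0 (m := 4) (by norm_num) (by omega) env hA f6 f8 (fun h => by omega) hp0 ?_
      intro q hq
      have hq' := (vcl_same hp0).1 hq
      rw [hin]
      constructor
      · rintro ((rfl | rfl) | rfl | rfl)
        · exact absurd (ca hq' f9) (by norm_num)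
        · rfl
        · exact absurd (ca hq' g9) (by norm_num)
        · exact absurd (ca hq' g10) (by norm_num)
      · rintro rfl
        exact Or.inl (Or.inr rfl)
    · obtain ⟨U1, a1, a2, a3, a4, a5⟩ := vcl_data (j := j2 + pkc V + 1) (m := 2) (by omega) hp0 rfl
      have hRU : Rd (cyc r1) = Rd U1 := by rw [f7, a2]
      refine r1_set_even (env p0 (mem_vcl.1 hp0).1) a1 (by norm_num) a5 hB {cyc wt, cyc wz0} (cyc r1)
        hRU ?_ ?_ ?_ ∅ (fun c hc => absurd hc (Set.notMem_empty _)) (Or.inl rfl) ?_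
      · rintro c (rfl | rfl)
        · exact g6
        · exact f5
      · intro q hq
        have hq' := (vcl_same hp0).1 hq
        rw [hin]
        constructor
        · rintro ((rfl | rfl) | rfl | rfl)
          · exact Or.inr rfl
          · exact absurd (ca hq' f10) (by norm_num)
          · exact absurd (ca hq' g9) (by norm_num)
          · exact Or.inl rfl
        · rintro (rfl | rfl)
          · exact Or.inr (Or.inr rfl)
          · exact Or.inl (Or.inl rfl)
      · intro h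
        rw [Rd_contc hRU, a3] at h
        exact absurd h (by norm_num)
      · rw [Set.empty_union, ht, hz0]
        exact rem_ab (by omega) r1 hkr hjo _ _
    · refine jvk _ v (-1) r' (cyc wz) hv g2 g5 hC p0 _ hp0 ?_
      intro q hq
      have hq' := (vcl_same hp0).1 hq
      rw [hin]
      constructor
      · rintro ((rfl | rfl) | rfl | rfl)
        · exact absurd (ca hq' f9) (by norm_num)
        · exact absurd (ca hq' f10) (by norm_num)
        · rfl
        · exact absurd (ca hq' g10) (by norm_num)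
      · intro h
        exact Or.inr (Or.inl h)

/-- **PART M = 4, K2' and J3V** -/
theorem part4_kj (hk : j2 + 2 * pkc V + 4 = k) (hi : 1 ≤ j2 + pkc V)
    (env : ∀ p0 : Cyc k, Rd (Rd p0).2 = ⟨j2, V⟩ → ClsEnv (AEP P) P P (cl p0))
    (kty : ∀ S F g, KS S → TyK S F g → (∀ c ∈ F, Rd (Rd c).2 = ⟨j2, V⟩) → Typd P P F)
    (hA : oddF (j2 + pkc V) 4) (hB : oddF (j2 + pkc V + 1) 2) {x l : ℕ} (hl : 1 ≤ l)
    (hlj : 2 * l ≤ j2 + pkc V + 1) (hxl : x + 2 * l = 2 * (j2 + pkc V))
    (hph : KPh V KS 0 x 1 (2 * (j2 + pkc V)) 1) (hT : TopJ P V 1) :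
    ClsReg P (vcl k V 0 ∪ vcl k V 1 ∪ vcl k V 2 : Set (RD × Multiset ℕ)) := by
  obtain ⟨v, hv, hS⟩ := hph
  obtain ⟨r, r', wz, wt, g1, g2, g3, g4, g5, g6, g7, g8, g9, g10, g11, g12⟩ :=
    k_group (k := k) (P := P) (a := 0) (m := 2) rfl (by omega) (by omega) (by omega) (by omega) v hv hS
      kty
  obtain ⟨F, j, u, hku, x', s, hF1, hF2, hF3, rfl, hF5, hF6, hF7⟩ := hT
  have hpr : pkn r'.1 = pkc V + 1 := by
    have h1 := vcl_data (k := k) (V := V) (a := 1) (m := 2) (j := j2 + pkc V + 1) (by omega) g9 rfl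
    obtain ⟨U, a1, a2, a3, a4, a5⟩ := h1
    rw [g5] at a1
    have h2 : cyc r' = U := eq_of_heq (Sigma.mk.inj_iff.1 a1).2
    rw [← pkc_cyc, h2, a4]
  have hkr : (j2 + pkc V + 1) + pkn r'.1 + 2 = k := by omega
  have hz : cyc wz = tc r' hkr (x : ZMod (2 * (j2 + pkc V + 1) + 1)) (2 * l) :=
    ev_tc hkr (by omega) hxl g3
  have ca : ∀ {q : Cyc k} {a b : ℕ}, cl q ∈ vcl k V a → cl q ∈ vcl k V b → a = b := by
    intro q a b h1 h2
    exact (mem_vcl.1 h1).2.symm.trans (mem_vcl.1 h2).2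
  have hzF : cyc wz ∉ F := by
    intro h
    rcases (hF6 _ g9).1 h with h1 | h1
    · rw [hz] at h1
      exact tc_ne (by omega) hku hkr (by omega) hlj (by omega) h1
    · rw [hz] at h1
      exact tc_ne (by omega) hku hkr (by omega) hlj (by omega) h1
  have htF : cyc wt ∉ F := by
    intro h
    rcases hF2 _ h with h1 | h1
    · exact absurd (ca g10 h1) (by norm_num)
    · exact absurd (ca g10 h1) (by norm_num)
  have hFne : F.Nonempty := by
    have h1 : cl (tc u hku x' 0) ∈ vcl k V 1 := by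
      rw [vcl_iff (Rd_tc u hku x' 0) hF3]
    exact ⟨_, (hF6 _ h1).2 (Or.inl rfl)⟩
  refine ⟨{{cyc wz, cyc wt}, F}, ?_, ?_, ?_⟩
  · rintro F' (rfl | rfl)
    · refine ⟨⟨_, Or.inl rfl⟩, g12, ?_⟩
      rintro q (rfl | rfl)
      · exact Or.inl (Or.inr g9)
      · exact Or.inl (Or.inl g10)
    · refine ⟨hFne, hF1, fun q hq => ?_⟩
      rcases hF2 q hq with h1 | h1
      · exact Or.inl (Or.inr h1)
      · exact Or.inr h1
  · rintro F1 (rfl | rfl) F2 (rfl | rfl) q hq hq'
    · rfl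
    · exfalso
      rcases hq with rfl | rfl
      · exact hzF hq'
      · exact htF hq'
    · exfalso
      rcases hq' with rfl | rfl
      · exact hzF hq
      · exact htF hq
    · rfl
  · have hin : ∀ q, q ∈ inG ({{cyc wz, cyc wt}, F} : Set (Set (Cyc k))) ↔
        (q = cyc wz ∨ q = cyc wt) ∨ q ∈ F := by
      intro q
      constructor
      · rintro ⟨F', rfl | rfl, hq⟩
        · exact Or.inl hq
        · exact Or.inr hq
      · rintro (h | h)
        · exact ⟨_, Or.inl rfl, h⟩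
        · exact ⟨_, Or.inr rfl, h⟩
    rintro p0 ((hp0 | hp0) | hp0)
    · refine cls_t0 (m := 4) (by norm_num) (by omega) env hA g6 g8 (fun h => by omega) hp0 ?_
      intro q hq
      have hq' := (vcl_same hp0).1 hq
      rw [hin]
      constructor
      · rintro ((rfl | rfl) | h)
        · exact absurd (ca hq' g9) (by norm_num)
        · rfl
        · rcases hF2 _ h with h1 | h1
          · exact absurd (ca hq' h1) (by norm_num)
          · exact absurd (ca hq' h1) (by norm_num)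
      · rintro rfl
        exact Or.inl (Or.inr rfl)
    · obtain ⟨U1, a1, a2, a3, a4, a5⟩ := vcl_data (j := j2 + pkc V + 1) (m := 2) (by omega) hp0 rfl
      have hRU : Rd (cyc r') = Rd U1 := by rw [g7, a2]
      refine r1_guest_edge (env p0 (mem_vcl.1 hp0).1) a1 (by omega) a5 hB (by
        rw [a3]; exact oddF_one _) u (by rw [hF3, a2]) hku x' s r' hRU hkr
        (x : ZMod (2 * (j2 + pkc V + 1) + 1)) hl hlj ?_ ?_
      · intro h
        rw [Rd_contc hRU, a3] at h
        exact absurd h (by norm_num)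
      · intro q hq
        have hq' := (vcl_same hp0).1 hq
        rw [hin, hF6 q hq', ← hz]
        constructor
        · rintro ((rfl | rfl) | h)
          · exact Or.inl rfl
          · exact absurd (ca hq' g10) (by norm_num)
          · exact Or.inr h
        · rintro (rfl | h)
          · exact Or.inl (Or.inl rfl)
          · exact Or.inr h
    · refine hF7 p0 _ hp0 ?_
      intro q hq
      have hq' := (vcl_same hp0).1 hq
      rw [hin]
      constructor
      · rintro ((rfl | rfl) | h)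
        · exact absurd (ca hq' g9) (by norm_num)
        · exact absurd (ca hq' g10) (by norm_num)
        · exact h
      · intro h
        exact Or.inr h

/-- **what is needed over one `V`** -/
structure NodeEnv (P : τ → Set (Cyc k) → DG k → Prop) (V : Cyc j2) (KS : BinaryTree Unit → Prop) : Prop where
  /-- hops of the families are E pairs, L pairs have a type -/
  env : ∀ p0 : Cyc k, Rd (Rd p0).2 = ⟨j2, V⟩ → ClsEnv (AEP P) P P (cl p0)
  /-- windows -/
  win : ∀ a m, 1 ≤ a → 1 ≤ m → j2 + 2 * pkc V + 2 * a + m = k → NodeW k V (Typd P P) a m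
  /-- K links have a type -/
  kty : ∀ S F g, KS S → TyK S F g → (∀ c ∈ F, Rd (Rd c).2 = ⟨j2, V⟩) → Typd P P F
  /-- K0, `M = 2` -/
  k0 : j2 + 2 * pkc V + 2 = k → oddF (j2 + pkc V) 2 → KPh V KS 0 0 0 0 0
  /-- K1, `M = 3` -/
  k1 : j2 + 2 * pkc V + 3 = k → oddF (j2 + pkc V) 3 →
    ∃ x, x < 2 * (j2 + pkc V) + 1 ∧ KPh V KS 0 x 1 0 0
  /-- K2', `M = 4` : level at least 2 -/
  k2 : j2 + 2 * pkc V + 4 = k → oddF (j2 + pkc V) 4 → oddF (j2 + pkc V + 1) 2 →
    ∃ x l, 1 ≤ l ∧ 2 * l ≤ j2 + pkc V + 1 ∧ x + 2 * l = 2 * (j2 + pkc V) ∧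
      KPh V KS 0 x 1 (2 * (j2 + pkc V)) 1
  /-- K2, `M ≥ 5` -/
  kp : ∀ m, 3 ≤ m → j2 + 2 * pkc V + m + 2 = k → oddF (j2 + pkc V) (m + 2) →
    oddF (j2 + pkc V + 1) m → ∃ x b y c, x < 2 * (j2 + pkc V) + 1 ∧ y < 2 * (j2 + pkc V) + 1 ∧
      b + c = m ∧ KPh V KS 0 x b y c
  /-- K3, `M ≥ 4` -/
  kn : ∀ m, 2 ≤ m → j2 + 2 * pkc V + m + 2 = k → oddF (j2 + pkc V) (m + 2) →
    ¬ oddF (j2 + pkc V + 1) m → KNr V KS m
  /-- K4 -/
  k4 : ∀ a, 1 ≤ a → j2 + 2 * pkc V + 2 * a + 2 = k → oddF j2 (a + 1) → KPh V KS a 0 0 0 0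
  /-- the class `(V; a, 0)` -/
  jvk : ∀ a, 1 ≤ a → j2 + 2 * pkc V + 2 * a = k → JVK P V a
  jv0 : ∀ a, 1 ≤ a → j2 + 2 * pkc V + 2 * a = k → ¬ oddF j2 a → JVC P V a ∅
  /-- J3V or J5V -/
  j3 : ∀ a, j2 + 2 * pkc V + 2 * a + 2 = k → oddF j2 (a + 1) →
    (a = 0 → ¬ oddF (j2 + pkc V) 2) → (2 ≤ a → ¬ (oddF j2 a ∧ oddF (j2 + pkc V + a) 2)) →
    (a = 1 → (oddF j2 a ∧ oddF (j2 + pkc V + a) 2 ↔ oddF (j2 + pkc V) 4)) → TopJ P V a

/-- **PART: the classes `(V; a, m)`, `lo ≤ a ≤ hi`, `m ≥ 1`** : windows -/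
theorem part_wins (E : NodeEnv P V KS) (lo hi : ℕ) (h0 : 1 ≤ lo)
    (h : j2 + 2 * pkc V + 2 * hi + 1 ≤ k ∨ hi < lo) :
    ClsReg P ({κ | ∃ a, lo ≤ a ∧ a ≤ hi ∧ κ ∈ vcl k V a} : Set (RD × Multiset ℕ)) := by
  refine ClsReg.single fun p0 hp0 => ?_
  obtain ⟨a, ha1, ha2, hp0⟩ := hp0
  have h' : j2 + 2 * pkc V + 2 * hi + 1 ≤ k := by
    rcases h with h | h
    · exact h
    · omega
  obtain ⟨m, hm⟩ : ∃ m, j2 + 2 * pkc V + 2 * a + m = k := ⟨k - (j2 + 2 * pkc V + 2 * a), by omega⟩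
  have hm1 : 1 ≤ m := by omega
  obtain ⟨U1, a1, a2, a3, a4, a5⟩ := vcl_data (j := j2 + pkc V + a) hm hp0 rfl
  obtain ⟨v, x2, u, x, w, b1, b2, b3, b4, b5, b6, b7, b8⟩ :=
    (E.win a m (by omega) hm1 hm).data (j := j2 + pkc V + a) rfl
  have hRU : Rd (cyc u) = Rd U1 := by rw [b6, a2]
  refine r1_win (E.env p0 (mem_vcl.1 hp0).1) a1 hm1 a5 (fun c hc => absurd hc (Set.notMem_empty _))
    (cyc w) (cyc u) hRU b5 (fun h => b7.two h) (fun h => b8.two ?_) b4
  rw [count_class a1 a5 b5 hRU, h]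

/-- **the low block**: the classes `(V; 0, m + 2)`, `(V; 1, m)`, `m ≥ 1` -/
theorem low_block (E : NodeEnv P V KS) (hi : 1 ≤ j2 + pkc V) (m : ℕ) (hm : 1 ≤ m)
    (hk : j2 + 2 * pkc V + m + 2 = k) :
    ClsReg P (vcl k V 0 ∪ vcl k V 1 : Set (RD × Multiset ℕ)) := by
  by_cases hA : oddF (j2 + pkc V) (m + 2)
  · by_cases hB : oddF (j2 + pkc V + 1) m
    · obtain rfl | rfl | hm3 : m = 1 ∨ m = 2 ∨ 3 ≤ m := by omega
      · obtain ⟨x, hx, hph⟩ := E.k1 (by omega) hA
        exact part_kk 1 le_rfl (by omega) hi E.env E.kty hA hB hx (y := 0) (by omega) rfl hph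
          (fun h => by omega)
      · obtain ⟨x, l, hl, hlj, hxl, hph⟩ := E.k2 (by omega) hA hB
        exact part_kk 2 (by norm_num) (by omega) hi E.env E.kty hA hB (by omega) (by omega) rfl hph
          (fun _ => ⟨rfl, rfl, l, hlj, hxl⟩)
      · obtain ⟨x, b, y, c, hx, hy, hbc, hph⟩ := E.kp m hm3 (by omega) hA hB
        exact part_kk m hm (by omega) hi E.env E.kty hA hB hx hy hbc hph (fun h => by omega)
    · have hm2 : 2 ≤ m := by
        by_contra h
        obtain rfl : m = 1 := by omega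
        exact hB (oddF_one _)
      exact part_k3 m hm2 (by omega) hi E.env E.kty hA hB (E.kn m hm2 (by omega) hA hB)
        (E.win 1 m le_rfl hm (by omega))
  · refine (part_even (m + 2) (by omega) (by omega) E.env hA).union
      (part_win 1 m le_rfl hm (by omega) E.env (E.win 1 m le_rfl hm (by omega))) ?_
    intro κ h1 h2
    exact vcl_disj' (by norm_num) h1 h2

/-- the class `(V; a, 0)` of even size -/
theorem top_even (E : NodeEnv P V KS) (a : ℕ) (ha : 1 ≤ a) (hk : j2 + 2 * pkc V + 2 * a = k)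
    (hC : ¬ oddF j2 a) : ClsReg P (vcl k V a : Set (RD × Multiset ℕ)) := by
  refine ClsReg.single fun p0 hp0 => ?_
  exact E.jv0 a ha hk hC p0 ∅ hp0 fun _ _ => Iff.rfl

/-- **the top block**: the classes `(V; a, 2)`, `(V; a + 1, 0)`, `a ≥ 1` -/
theorem top_block (E : NodeEnv P V KS) (a : ℕ) (ha : 1 ≤ a)
    (hk : j2 + 2 * pkc V + 2 * a + 2 = k) (hA : a = 1 → ¬ oddF (j2 + pkc V) 4) :
    ClsReg P (vcl k V a ∪ vcl k V (a + 1) : Set (RD × Multiset ℕ)) := by
  by_cases hC : oddF j2 (a + 1)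
  · by_cases hN : oddF j2 a ∧ oddF (j2 + pkc V + a) 2
    · exact part_k4 a ha hk E.env E.kty hC hN (E.k4 a ha hk hC) (E.jvk (a + 1) (by omega) (by omega))
    · refine part_j a (by omega) hk E.env (fun h => hN ⟨h.2, h.1⟩) (E.j3 a hk hC (fun h => by omega)
        (fun _ => hN) (fun h => ?_))
      exact ⟨fun h2 => absurd h2 hN, fun h2 => absurd h2 (hA h)⟩
  · refine (part_win a 2 ha (by norm_num) (by omega) E.env (E.win a 2 ha (by norm_num) (by omega))).union
      (top_even E (a + 1) (by omega) (by omega) hC) ?_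
    intro κ h1 h2
    exact vcl_disj' (by omega) h1 h2

/-- `M = 4` -/
theorem block4 (E : NodeEnv P V KS) (hi : 1 ≤ j2 + pkc V) (hk : j2 + 2 * pkc V + 4 = k) :
    ClsReg P (vcl k V 0 ∪ vcl k V 1 ∪ vcl k V 2 : Set (RD × Multiset ℕ)) := by
  by_cases hC : oddF j2 2
  · by_cases hA : oddF (j2 + pkc V) 4
    · by_cases hB : oddF (j2 + pkc V + 1) 2
      · obtain ⟨x, l, hl, hlj, hxl, hph⟩ := E.k2 hk hA hB
        exact part4_kj hk hi E.env E.kty hA hB hl hlj hxl hph (E.j3 1 (by omega) hC (by omega)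
          (by omega) (fun _ => ⟨fun _ => hA, fun _ => ⟨oddF_one _, hB⟩⟩))
      · exact part4_chain hk hi E.env E.kty hA hB hC (E.kn 2 le_rfl (by omega) hA hB)
          (E.k4 1 le_rfl (by omega) hC) (E.jvk 2 (by norm_num) (by omega))
    · have h1 := (part_even 4 (by norm_num) (by omega) E.env hA).union
        (top_block E 1 le_rfl (by omega) (fun _ => hA)) ?_
      · rw [← Set.union_assoc] at h1
        exact h1
      · rintro κ h1 (h2 | h2)
        · exact vcl_disj' (by norm_num) h1 h2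
        · exact vcl_disj' (by norm_num) h1 h2
  · refine (low_block E hi 2 (by norm_num) (by omega)).union (top_even E 2 (by norm_num) (by omega) hC) ?_
    rintro κ (h1 | h1) h2
    · exact vcl_disj' (by norm_num) h1 h2
    · exact vcl_disj' (by norm_num) h1 h2

/-- `M = 2` -/
theorem block2 (E : NodeEnv P V KS) (hi : 1 ≤ j2 + pkc V) (hk : j2 + 2 * pkc V + 2 = k) :
    ClsReg P (vcl k V 0 ∪ vcl k V 1 : Set (RD × Multiset ℕ)) := by
  by_cases hA : oddF (j2 + pkc V) 2
  · exact part_k0 hi hk E.env E.kty hA (E.k0 hk hA) (E.jvk 1 le_rfl (by omega))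
  · exact part_j 0 (by omega) (by omega) E.env (fun h => hA h.1) (E.j3 0 (by omega) (oddF_one _) (fun _ => hA)
      (fun h => by omega) (fun h => by omega))

/-- **ALL CLASSES OVER `V`** -/
theorem NodeEnv.reg (E : NodeEnv P V KS) (hi : 1 ≤ j2 + pkc V) (hk : j2 + 2 * pkc V + 2 ≤ k) :
    RegOK P ({⟨j2, V⟩} : Set RD) := by
  obtain ⟨M, hM⟩ : ∃ M, j2 + 2 * pkc V + M = k := ⟨k - (j2 + 2 * pkc V), by omega⟩
  have hM2 : 2 ≤ M := by omega
  have hcase : ∀ p : Cyc k, Rd (Rd p).2 = ⟨j2, V⟩ → cl p ∈ vcl k V (aa p) ∧ 2 * aa p ≤ M := by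
    intro p hp
    have := ov_total hp
    exact ⟨mem_vcl.2 ⟨hp, rfl⟩, by omega⟩
  obtain rfl | rfl | h4 : M = 2 ∨ M = 4 ∨ (M ≠ 2 ∧ M ≠ 4) := by omega
  · refine (block2 E hi (by omega)).congr fun p => ?_
    constructor
    · rintro (h | h)
      · exact (mem_vcl.1 h).1
      · exact (mem_vcl.1 h).1
    · intro h
      obtain ⟨h1, h2⟩ := hcase p h
      obtain h3 | h3 : aa p = 0 ∨ aa p = 1 := by omega
      · rw [h3] at h1; exact Or.inl h1
      · rw [h3] at h1; exact Or.inr h1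
  · refine (block4 E hi (by omega)).congr fun p => ?_
    constructor
    · rintro ((h | h) | h)
      · exact (mem_vcl.1 h).1
      · exact (mem_vcl.1 h).1
      · exact (mem_vcl.1 h).1
    · intro h
      obtain ⟨h1, h2⟩ := hcase p h
      obtain h3 | h3 | h3 : aa p = 0 ∨ aa p = 1 ∨ aa p = 2 := by omega
      · rw [h3] at h1; exact Or.inl (Or.inl h1)
      · rw [h3] at h1; exact Or.inl (Or.inr h1)
      · rw [h3] at h1; exact Or.inr h1
  · obtain ⟨m, rfl⟩ : ∃ m, M = m + 2 := ⟨M - 2, by omega⟩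
    have hlow := low_block E hi m (by omega) (by omega)
    rcases Nat.even_or_odd' m with ⟨c, rfl | rfl⟩
    · -- `M` even, at least 6
      have hc2 : 2 ≤ c := by omega
      have h1 := hlow.union (part_wins E 2 (c - 1) (by norm_num) (by omega)) ?_
      · have h2 := h1.union (top_block E c (by omega) (by omega) (by omega)) ?_
        · refine h2.congr fun p => ?_
          constructor
          · rintro (((h | h) | ⟨a, _, _, h⟩) | h | h)
            · exact (mem_vcl.1 h).1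
            · exact (mem_vcl.1 h).1
            · exact (mem_vcl.1 h).1
            · exact (mem_vcl.1 h).1
            · exact (mem_vcl.1 h).1
          · intro h
            obtain ⟨h3, h4⟩ := hcase p h
            obtain h5 | h5 | h5 | h5 | h5 : aa p = 0 ∨ aa p = 1 ∨ (2 ≤ aa p ∧ aa p ≤ c - 1) ∨
              aa p = c ∨ aa p = c + 1 := by omega
            · rw [h5] at h3; exact Or.inl (Or.inl (Or.inl h3))
            · rw [h5] at h3; exact Or.inl (Or.inl (Or.inr h3))
            · exact Or.inl (Or.inr ⟨aa p, h5.1, h5.2, h3⟩)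
            · rw [h5] at h3; exact Or.inr (Or.inl h3)
            · rw [h5] at h3; exact Or.inr (Or.inr h3)
        · rintro κ ((h1 | h1) | ⟨a, ha1, ha2, h1⟩) (h2 | h2)
          · exact vcl_disj' (by omega) h1 h2
          · exact vcl_disj' (by omega) h1 h2
          · exact vcl_disj' (by omega) h1 h2
          · exact vcl_disj' (by omega) h1 h2
          · exact vcl_disj' (by omega) h1 h2
          · exact vcl_disj' (by omega) h1 h2
      · rintro κ (h1 | h1) ⟨a, ha1, ha2, h2⟩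
        · exact vcl_disj' (by omega) h1 h2
        · exact vcl_disj' (by omega) h1 h2
    · -- `M` odd
      have h1 := hlow.union (part_wins E 2 (c + 1) (by norm_num) (by omega)) ?_
      · refine h1.congr fun p => ?_
        constructor
        · rintro ((h | h) | ⟨a, _, _, h⟩)
          · exact (mem_vcl.1 h).1
          · exact (mem_vcl.1 h).1
          · exact (mem_vcl.1 h).1
        · intro h
          obtain ⟨h3, h4⟩ := hcase p h
          obtain h5 | h5 | h5 : aa p = 0 ∨ aa p = 1 ∨ (2 ≤ aa p ∧ aa p ≤ c + 1) := by omega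
          · rw [h5] at h3; exact Or.inl (Or.inl h3)
          · rw [h5] at h3; exact Or.inl (Or.inr h3)
          · exact Or.inr ⟨aa p, h5.1, h5.2, h3⟩
      · rintro κ (h1 | h1) ⟨a, ha1, ha2, h2⟩
        · exact vcl_disj' (by omega) h1 h2
        · exact vcl_disj' (by omega) h1 h2

end Pool.OddHC.PV
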