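import Pool.Agent.Work.MP_8f87b2_fin.PVN

/-!
# `M = 2`

`PV.reg_two` : all classes over `V` when `k = j2 + 2 |V| + 2`: the classes `(V; 0, 2)`, `(V; 1, 0)`. K0 if `(V; 0, 2)` is odd,
otherwise any window `{z}` of the class `(V; 1, 0)`.
-/

set_option autoImplicit false

namespace Pool.OddHC.PV

open Finset BinaryTree Multiset Pool.OddHop Pool.OddHC

variable {i j j2 k : ℕ} {τ : Type} {P : τ → Set (Cyc k) → DG k → Prop} {V : Cyc j2}
  {KS : BinaryTree Unit → Prop}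

/-- **`M = 2`** -/
theorem reg_two (hi : 1 ≤ j2 + pkc V) (hk : j2 + 2 * pkc V + 2 = k)
    (env : ∀ p0 : Cyc k, Rd (Rd p0).2 = ⟨j2, V⟩ → ClsEnv (AEP P) P P (cl p0))
    (kty : ∀ S F g, KS S → TyK S F g → (∀ c ∈ F, Rd (Rd c).2 = ⟨j2, V⟩) → Typd P P F)
    (k0 : oddF (j2 + pkc V) 2 → KPh V KS 0 0 0 0 0)
    (win0 : ¬ oddF (j2 + pkc V) 2 → NodeW k V (Typd P P) 1 0)
    (jvk : JVK P V 1) : RegOK P ({⟨j2, V⟩} : Set RD) := by
  have h : ClsReg P (vcl k V 0 ∪ vcl k V 1 : Set (RD × Multiset ℕ)) := by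
    by_cases hA : oddF (j2 + pkc V) 2
    · exact part_k0 hi hk env kty hA (k0 hA) jvk
    · exact part_w0 0 (by omega) env (oddF_one _) (fun _ => hA) (fun h => by omega) (win0 hA) jvk
  refine h.congr fun p => ?_
  constructor
  · rintro (h | h)
    · exact (mem_vcl.1 h).1
    · exact (mem_vcl.1 h).1
  · intro h
    have h0 := ov_total (V := V) h
    have h1 : cl p ∈ vcl k V (aa p) := mem_vcl.2 ⟨h, rfl⟩
    obtain h3 | h3 : aa p = 0 ∨ aa p = 1 := by omega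
    · rw [h3] at h1; exact Or.inl h1
    · rw [h3] at h1; exact Or.inr h1

end Pool.OddHC.PV
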