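import Pool.Agent.Work.MP_8f87b2_fin.Blk2

/-!
# K links over one `V`

`k_group`: the group `{z, t}` of a K link. `part_kk`: the classes `(V; 0, m+2)`, `(V; 1, m)`, both odd.
-/

set_option autoImplicit false

namespace Pool.OddHC

open Finset BinaryTree Multiset Pool.OddHop

variable {i j j2 k : ℕ} {τ : Type} {P : τ → Set (Cyc k) → DG k → Prop} {V : Cyc j2}
  {KS : BinaryTree Unit → Prop}

theorem oddF_one (j : ℕ) : oddF j 1 := by
  have h1 : Nat.card (Ms (2 * j + 1) 1) = 2 * j + 1 := by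
    have e1 : Nat.card (Ms (2 * j + 1) 1) = Nat.card (Sym (ZMod (2 * j + 1)) 1) :=
      (Nat.card_congr (Sym.equivNatSumOfFintype (ZMod (2 * j + 1)) 1)).symm
    rw [e1, Nat.card_eq_fintype_card, Sym.card_sym_eq_choose, ZMod.card]
    simp
  unfold oddF
  rw [h1]
  exact ⟨j, rfl⟩

/-- **THE GROUP OF A K LINK** -/
theorem k_group {a x b y c m : ℕ} (hbc : b + c = m) (hk : j2 + 2 * pkc V + 2 * a + m + 2 = k)
    (hi : 1 ≤ j2 + pkc V + a)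
    (hx : x < 2 * (j2 + pkc V + a) + 1) (hy : y < 2 * (j2 + pkc V + a) + 1) (v : X j2) (hv : cyc v = V)
    (hS : KS (ins (ins v.1 (lf fun z : ZMod (2 * j2 + 1) => if z = -1 then a else 0))
      (lf (ev x b y c : ZMod (2 * (j2 + pkc V + a) + 1) → ℕ))))
    (kty : ∀ S F g, KS S → TyK S F g → (∀ c ∈ F, Rd (Rd c).2 = ⟨j2, V⟩) → Typd P P F) :
    ∃ (r : X (j2 + pkc V + a)) (r' : X (j2 + pkc V + a + 1)) (wz wt : X k),
      r.1 = ins v.1 (lf fun z : ZMod (2 * j2 + 1) => if z = -1 then a else 0) ∧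
      r'.1 = ins v.1 (lf fun z : ZMod (2 * j2 + 1) => if z = -1 then a + 1 else 0) ∧
      wz.1 = ins r'.1 (lf (ev x b y c : ZMod (2 * (j2 + pkc V + a + 1) + 1) → ℕ)) ∧
      wt.1 = ins r.1 (lf fun z : ZMod (2 * (j2 + pkc V + a) + 1) =>
        (ev x b y c : ZMod (2 * (j2 + pkc V + a) + 1) → ℕ) z + if z = 0 then 2 else 0) ∧
      Rd (cyc wz) = ⟨j2 + pkc V + a + 1, cyc r'⟩ ∧ Rd (cyc wt) = ⟨j2 + pkc V + a, cyc r⟩ ∧
      Rd (cyc r') = ⟨j2, V⟩ ∧ Rd (cyc r) = ⟨j2, V⟩ ∧ cl (cyc wz) ∈ vcl k V (a + 1) ∧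
      cl (cyc wt) ∈ vcl k V a ∧ cyc wz ≠ cyc wt ∧ Typd P P {cyc wz, cyc wt} := by
  have hpv : pkn v.1 = pkc V := by rw [← pkc_cyc, hv]
  have hn := ins_num v.1 (lf fun z : ZMod (2 * j2 + 1) => if z = -1 then a else 0)
    (by rw [lf_length, X_num])
  have hs : (lf fun z : ZMod (2 * j2 + 1) => if z = -1 then a else 0).sum = a := by
    rw [lf_sum, Finset.sum_ite_eq' univ (-1 : ZMod (2 * j2 + 1)) (fun _ => a), if_pos (mem_univ _)]
  rw [hs, X_num, hpv] at hn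
  obtain ⟨r, hr⟩ : ∃ r : X (j2 + pkc V + a), r.1 =
      ins v.1 (lf fun z : ZMod (2 * j2 + 1) => if z = -1 then a else 0) :=
    ⟨⟨_, mem_treesOfNumNodesEq.2 hn.1⟩, rfl⟩
  have hpr : pkn r.1 = pkc V + a := by rw [hr]; exact hn.2
  obtain ⟨r', wz, wt, g, h1, h2, h3, h4, h5, h6, h7, h8, h9⟩ := k_link (k := k) v a hi r hr
    (x := x) (b := b) (y := y) (c := c) hx hy (by omega)
  rw [hv] at h8 h9
  have c1 : cl (cyc wz) ∈ vcl k V (a + 1) := (vcl_iff h6 h8).2 (by ring)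
  have c2 : cl (cyc wt) ∈ vcl k V a := (vcl_iff h7 h9).2 rfl
  refine ⟨r, r', wz, wt, hr, h1, h4, h5, h6, h7, h8, h9, c1, c2, h2, ?_⟩
  refine kty _ _ g (by rw [← hr] at hS; exact hS) h3 ?_
  rintro q (rfl | rfl)
  · exact (mem_vcl.1 c1).1
  · exact (mem_vcl.1 c2).1

/-- two classes with one group `{z, t}` -/
theorem two_classes {a a' : ℕ} (haa : a ≠ a') {z t : Cyc k} (hz : cl z ∈ vcl k V a')
    (ht : cl t ∈ vcl k V a) (hty : Typd P P {z, t})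
    (h0 : ∀ p0 : Cyc k, cl p0 ∈ vcl k V a → (∀ q, cl q = cl p0 → (q ∈ ({z, t} : Set (Cyc k)) ↔ q = t)) →
      ∃ Gp Gw, ClsOK (AEP P) (cl p0) {z, t} Gp Gw P P)
    (h1 : ∀ p0 : Cyc k, cl p0 ∈ vcl k V a' → (∀ q, cl q = cl p0 → (q ∈ ({z, t} : Set (Cyc k)) ↔ q = z)) →
      ∃ Gp Gw, ClsOK (AEP P) (cl p0) {z, t} Gp Gw P P) :
    ClsReg P (vcl k V a ∪ vcl k V a' : Set (RD × Multiset ℕ)) := by
  refine ⟨{{z, t}}, ?_, ?_, ?_⟩
  · rintro F hF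
    rw [Set.mem_singleton_iff] at hF
    subst hF
    refine ⟨⟨z, Or.inl rfl⟩, hty, ?_⟩
    rintro q (rfl | rfl)
    · exact Or.inr hz
    · exact Or.inl ht
  · rintro F hF F' hF' q _ _
    rw [Set.mem_singleton_iff] at hF hF'
    rw [hF, hF']
  · rintro p0 (hp0 | hp0)
    · rw [inG_single]
      refine h0 p0 hp0 fun q hq => ?_
      constructor
      · rintro (rfl | rfl)
        · exact absurd ((mem_vcl.1 ((vcl_same hp0).1 hq)).2.symm.trans (mem_vcl.1 hz).2) haa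
        · rfl
      · rintro rfl
        exact Or.inr rfl
    · rw [inG_single]
      refine h1 p0 hp0 fun q hq => ?_
      constructor
      · rintro (rfl | rfl)
        · rfl
        · exact absurd ((mem_vcl.1 ht).2.symm.trans (mem_vcl.1 ((vcl_same hp0).1 hq)).2) haa
      · rintro rfl
        exact Or.inl rfl

/-- a K guest `t` in the class `(V; 0, m)`, `m` odd in number -/
theorem cls_t0 {m : ℕ} (hm : 1 ≤ m) (hk : j2 + 2 * pkc V + m = k)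
    (env : ∀ p0 : Cyc k, Rd (Rd p0).2 = ⟨j2, V⟩ → ClsEnv (AEP P) P P (cl p0))
    (ho : oddF (j2 + pkc V) m) {t : Cyc k} {U : Cyc (j2 + pkc V)} (ht : Rd t = ⟨j2 + pkc V, U⟩)
    (hU : Rd U = ⟨j2, V⟩) (ht2 : m = 2 → IsTwo t) {p0 : Cyc k} (hp0 : cl p0 ∈ vcl k V 0)
    {Xs : Set (Cyc k)} (hX : ∀ q, cl q = cl p0 → (q ∈ Xs ↔ q = t)) :
    ∃ Gp Gw, ClsOK (AEP P) (cl p0) Xs Gp Gw P P := by
  obtain ⟨U1, a1, a2, a3, a4, a5⟩ := vcl_data (j := j2 + pkc V) (m := m) (by omega) hp0 rfl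
  have hRU : Rd U = Rd U1 := by rw [hU, a2]
  have hc : (contc U).count 1 = 0 := by rw [Rd_contc hRU, a3]
  refine r1_guest (env p0 (mem_vcl.1 hp0).1) a1 hm a5 ho t U hRU ht ?_ hX ?_ ht2
  · rw [hc]
    exact oddF_zero _
  · intro h
    rw [hc] at h
    exact absurd h (by norm_num)

/-- a K guest `z` in the class `(V; 1, m)`, odd -/
theorem cls_z1 {m : ℕ} (hm : 1 ≤ m) (hk : j2 + 2 * pkc V + m + 2 = k)
    (env : ∀ p0 : Cyc k, Rd (Rd p0).2 = ⟨j2, V⟩ → ClsEnv (AEP P) P P (cl p0))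
    (ho : oddF (j2 + pkc V + 1) m) {z : Cyc k} {U : Cyc (j2 + pkc V + 1)}
    (hz : Rd z = ⟨j2 + pkc V + 1, U⟩) (hU : Rd U = ⟨j2, V⟩) (hz2 : m = 2 → IsTwo z) {p0 : Cyc k}
    (hp0 : cl p0 ∈ vcl k V 1) {Xs : Set (Cyc k)} (hX : ∀ q, cl q = cl p0 → (q ∈ Xs ↔ q = z)) :
    ∃ Gp Gw, ClsOK (AEP P) (cl p0) Xs Gp Gw P P := by
  obtain ⟨U1, a1, a2, a3, a4, a5⟩ := vcl_data (j := j2 + pkc V + 1) (m := m) (by omega) hp0 rfl
  have hRU : Rd U = Rd U1 := by rw [hU, a2]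
  have hc : (contc U).count 1 = 1 := by rw [Rd_contc hRU, a3]
  refine r1_guest (env p0 (mem_vcl.1 hp0).1) a1 hm a5 ho z U hRU hz ?_ hX ?_ hz2
  · rw [hc]
    exact oddF_one _
  · intro h
    rw [hc] at h
    exact absurd h (by norm_num)

/-- two beads at the gap numbers `x`, `x + 2 l` -/
theorem ev_two {j : ℕ} {u : X j} {w : X k} {x y l : ℕ} (hy : y < 2 * j + 1) (hl : 2 * l ≤ j)
    (h : x + 2 * l = y) (hw : w.1 = ins u.1 (lf (ev x 1 y 1 : ZMod (2 * j + 1) → ℕ))) :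
    IsTwo (cyc w) := by
  refine ⟨j, u, x, 2 * l, w, hl, by omega, rfl, ?_⟩
  rw [hw, ev_cast x 1 y 1 (by omega) hy]
  congr 3
  funext z
  have : ((y : ℕ) : ZMod (2 * j + 1)) = (x : ZMod (2 * j + 1)) + ((2 * l : ℕ) : ZMod (2 * j + 1)) := by
    rw [← h, Nat.cast_add]
  rw [this]

/-- **PART: K link, both classes odd** -/
theorem part_kk (m : ℕ) (hm : 1 ≤ m) (hk : j2 + 2 * pkc V + m + 2 = k) (hi : 1 ≤ j2 + pkc V)
    (env : ∀ p0 : Cyc k, Rd (Rd p0).2 = ⟨j2, V⟩ → ClsEnv (AEP P) P P (cl p0))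
    (kty : ∀ S F g, KS S → TyK S F g → (∀ c ∈ F, Rd (Rd c).2 = ⟨j2, V⟩) → Typd P P F)
    (h1 : oddF (j2 + pkc V) (m + 2)) (h2 : oddF (j2 + pkc V + 1) m) {x b y c : ℕ}
    (hx : x < 2 * (j2 + pkc V) + 1) (hy : y < 2 * (j2 + pkc V) + 1) (hbc : b + c = m)
    (hph : KPh V KS 0 x b y c)
    (hm2 : m = 2 → b = 1 ∧ c = 1 ∧ ∃ l, 2 * l ≤ j2 + pkc V + 1 ∧ x + 2 * l = y) :
    ClsReg P (vcl k V 0 ∪ vcl k V 1 : Set (RD × Multiset ℕ)) := by
  obtain ⟨v, hv, hS⟩ := hph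
  obtain ⟨r, r', wz, wt, g1, g2, g3, g4, g5, g6, g7, g8, g9, g10, g11, g12⟩ :=
    k_group (k := k) (P := P) (a := 0) hbc (by omega) (by omega) (by omega) (by omega) v hv hS kty
  refine two_classes (by norm_num) g9 g10 g12 ?_ ?_
  · intro p0 hp0 hX
    exact cls_t0 (m := m + 2) (by omega) (by omega) env h1 g6 g8 (fun h => by omega) hp0 hX
  · intro p0 hp0 hX
    refine cls_z1 hm hk env h2 g5 g7 (fun h => ?_) hp0 hX
    obtain ⟨rfl, rfl, l, hl, hxl⟩ := hm2 h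
    exact ev_two (l := l) (by omega) (by omega) hxl g3

end Pool.OddHC
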