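import Pool.Agent.Work.MP_8f87b2_fin.PartK

/-!
# The classes `(V; 0, 4)`, `(V; 1, 2)`, `(V; 2, 0)` when `(V; 0, 4)` and `(V; 2, 0)` are odd

`part4_chain`: `(V; 1, 2)` even: K3 and K4. `part4_kj`: `(V; 1, 2)` odd: K2' and J3V.
-/

set_option autoImplicit false

namespace Pool.OddHC

open Finset BinaryTree Multiset Pool.OddHop

variable {i j j2 k : ℕ} {τ : Type} {P : τ → Set (Cyc k) → DG k → Prop} {V : Cyc j2}
  {KS : BinaryTree Unit → Prop}

/-- different rows are different -/
theorem tc_ne {j : ℕ} (hj : 1 ≤ j) {u u0 : X j} (hk : j + pkn u.1 + 2 = k) (hk0 : j + pkn u0.1 + 2 = k)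
    {x a : ZMod (2 * j + 1)} {d l : ℕ} (hd : d ≤ j) (hl : l ≤ j) (hne : l ≠ d) :
    tc u0 hk0 a l ≠ tc u hk x d := by
  intro h
  have h1 := Rd_tc u0 hk0 a l
  rw [h, Rd_tc u hk x d] at h1
  have h2 : cyc u = cyc u0 := eq_of_heq (Sigma.mk.inj_iff.1 h1).2
  obtain ⟨t, ht⟩ := tc_phase h2.symm hk hk0
  rw [ht] at h
  exact hne ((two_family hj u hk).2.1 _ _ _ _ hl hd h)

/-- two beads in neighbouring gaps -/
theorem ev_tc {j : ℕ} {u : X j} (hk : j + pkn u.1 + 2 = k) {w : X k} {x y d : ℕ} (hy : y < 2 * j + 1)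
    (h : x + d = y) (hw : w.1 = ins u.1 (lf (ev x 1 y 1 : ZMod (2 * j + 1) → ℕ))) :
    cyc w = tc u hk (x : ZMod (2 * j + 1)) d := by
  refine tc_word u hk _ _ ?_
  rw [hw, ev_cast x 1 y 1 (by omega) hy]
  congr 3
  funext z
  have : ((y : ℕ) : ZMod (2 * j + 1)) = (x : ZMod (2 * j + 1)) + ((d : ℕ) : ZMod (2 * j + 1)) := by
    rw [← h, Nat.cast_add]
  rw [this]

/-- **PART M = 4, the chain K3 + K4** -/
theorem part4_chain (hk : j2 + 2 * pkc V + 4 = k) (hi : 1 ≤ j2 + pkc V)
    (env : ∀ p0 : Cyc k, Rd (Rd p0).2 = ⟨j2, V⟩ → ClsEnv (AEP P) P P (cl p0))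
    (kty : ∀ S F g, KS S → TyK S F g → (∀ c ∈ F, Rd (Rd c).2 = ⟨j2, V⟩) → Typd P P F)
    (hA : oddF (j2 + pkc V) 4) (hB : ¬ oddF (j2 + pkc V + 1) 2) (hC : oddF j2 2)
    (kn : KNr V KS 2) (k4 : KPh V KS 1 0 0 0 0) (jvk : JVK P V 2) :
    ClsReg P (vcl k V 0 ∪ vcl k V 1 ∪ vcl k V 2 : Set (RD × Multiset ℕ)) := by
  obtain ⟨v, hv, hS⟩ := k4
  obtain ⟨r, r', wz, wt, g1, g2, g3, g4, g5, g6, g7, g8, g9, g10, g11, g12⟩ :=
    k_group (k := k) (P := P) (a := 1) (x := 0) (b := 0) (y := 0) (c := 0) (m := 0) rfl (by omega)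
      (by omega) (by omega) (by omega) v hv hS kty
  obtain ⟨r0, r1, wz0, wt0, f1, f2, f3, f4, f5, f6, f7, f8, f9, f10, f11, f12⟩ :=
    k_group (k := k) (P := P) (a := 0) (x := 2 * (j2 + pkc V) - 1) (b := 1) (y := 2 * (j2 + pkc V))
      (c := 1) (m := 2) rfl (by omega) (by omega) (by omega) (by omega) v hv (kn v hv) kty
  have hr : r1 = r := Subtype.ext (by rw [f2, g1])
  subst hr
  have hpr : pkn r1.1 = pkc V + 1 := by
    have h1 := vcl_data (k := k) (V := V) (a := 1) (m := 2) (j := j2 + pkc V + 1) (by omega) g10 rfl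
    obtain ⟨U, a1, a2, a3, a4, a5⟩ := h1
    rw [g6] at a1
    have h2 : cyc r1 = U := eq_of_heq (Sigma.mk.inj_iff.1 a1).2
    rw [← pkc_cyc, h2, a4]
  have hkr : (j2 + pkc V + 1) + pkn r1.1 + 2 = k := by omega
  -- the two guests of the class `a = 1`
  have ht : cyc wt = tc r1 hkr 0 0 := by
    refine tc_word r1 hkr 0 0 ?_
    rw [g4]
    congr 2
    funext z
    unfold ev
    by_cases hz : z = 0
    · simp [hz]
    · simp [hz]
  have hz0 : cyc wz0 = tc r1 hkr ((2 * (j2 + pkc V) - 1 : ℕ) : ZMod (2 * (j2 + pkc V + 1) + 1)) 1 :=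
    ev_tc hkr (by omega) (by omega) f3
  have hne1 : cyc wt ≠ cyc wz0 := by
    rw [ht, hz0]
    exact tc_ne (by omega) hkr hkr (by omega) (by omega) (by norm_num)
  have hjo : (j2 + pkc V + 1) % 2 = 1 := by
    by_contra h
    exact hB (oddF_two_iff.2 (by omega))
  have ca : ∀ {q : Cyc k} {a b : ℕ}, cl q ∈ vcl k V a → cl q ∈ vcl k V b → a = b := by
    intro q a b h1 h2
    exact (mem_vcl.1 h1).2.symm.trans (mem_vcl.1 h2).2
  refine ⟨{{cyc wz0, cyc wt0}, {cyc wz, cyc wt}}, ?_, ?_, ?_⟩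
  · rintro F (rfl | rfl)
    · refine ⟨⟨_, Or.inl rfl⟩, f12, ?_⟩
      rintro q (rfl | rfl)
      · exact Or.inl (Or.inr f9)
      · exact Or.inl (Or.inl f10)
    · refine ⟨⟨_, Or.inl rfl⟩, g12, ?_⟩
      rintro q (rfl | rfl)
      · exact Or.inr g9
      · exact Or.inl (Or.inr g10)
  · rintro F (rfl | rfl) F' (rfl | rfl) q hq hq'
    · rfl
    · exfalso
      rcases hq with rfl | rfl <;> rcases hq' with h | h
      · rw [h] at f9
        exact absurd (ca f9 g9) (by norm_num)
      · exact hne1 h.symm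
      · rw [h] at f10
        exact absurd (ca f10 g9) (by norm_num)
      · rw [h] at f10
        exact absurd (ca f10 g10) (by norm_num)
    · exfalso
      rcases hq with rfl | rfl <;> rcases hq' with h | h
      · rw [h] at g9
        exact absurd (ca g9 f9) (by norm_num)
      · rw [h] at g9
        exact absurd (ca g9 f10) (by norm_num)
      · exact hne1 h
      · rw [h] at g10
        exact absurd (ca g10 f10) (by norm_num)
    · rfl
  · have hin : ∀ q, q ∈ inG ({{cyc wz0, cyc wt0}, {cyc wz, cyc wt}} : Set (Set (Cyc k))) ↔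
        (q = cyc wz0 ∨ q = cyc wt0) ∨ q = cyc wz ∨ q = cyc wt := by
      intro q
      constructor
      · rintro ⟨F, rfl | rfl, hq⟩
        · exact Or.inl hq
        · exact Or.inr hq
      · rintro (h | h)
        · exact ⟨_, Or.inl rfl, h⟩
        · exact ⟨_, Or.inr rfl, h⟩
    rintro p0 ((hp0 | hp0) | hp0)
    · refine cls_t0 (m := 4) (by norm_num) (by omega) env hA f6 f8 (fun h => by omega) hp0 ?_
      intro q hq
      have hq' := (vcl_same hp0).1 hq
      rw [hin]
      constructor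
      · rintro ((rfl | rfl) | rfl | rfl)
        · exact absurd (ca hq' f9) (by norm_num)
        · rfl
        · exact absurd (ca hq' g9) (by norm_num)
        · exact absurd (ca hq' g10) (by norm_num)
      · rintro rfl
        exact Or.inl (Or.inr rfl)
    · obtain ⟨U1, a1, a2, a3, a4, a5⟩ := vcl_data (j := j2 + pkc V + 1) (m := 2) (by omega) hp0 rfl
      have hRU : Rd (cyc r1) = Rd U1 := by rw [f7, a2]
      refine r1_set_even (env p0 (mem_vcl.1 hp0).1) a1 (by norm_num) a5 hB {cyc wt, cyc wz0} (cyc r1)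
        hRU ?_ ?_ ?_ ∅ (fun c hc => absurd hc (Set.notMem_empty _)) (Or.inl rfl) ?_
      · rintro c (rfl | rfl)
        · exact g6
        · exact f5
      · intro q hq
        have hq' := (vcl_same hp0).1 hq
        rw [hin]
        constructor
        · rintro ((rfl | rfl) | rfl | rfl)
          · exact Or.inr rfl
          · exact absurd (ca hq' f10) (by norm_num)
          · exact absurd (ca hq' g9) (by norm_num)
          · exact Or.inl rfl
        · rintro (rfl | rfl)
          · exact Or.inr (Or.inr rfl)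
          · exact Or.inl (Or.inl rfl)
      · intro h
        rw [Rd_contc hRU, a3] at h
        exact absurd h (by norm_num)
      · rw [Set.empty_union, ht, hz0]
        exact rem_ab (by omega) r1 hkr hjo _ _
    · refine jvk _ v (-1) r' (cyc wz) hv g2 g5 hC p0 _ hp0 ?_
      intro q hq
      have hq' := (vcl_same hp0).1 hq
      rw [hin]
      constructor
      · rintro ((rfl | rfl) | rfl | rfl)
        · exact absurd (ca hq' f9) (by norm_num)
        · exact absurd (ca hq' f10) (by norm_num)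
        · rfl
        · exact absurd (ca hq' g10) (by norm_num)
      · intro h
        exact Or.inr (Or.inl h)

/-- **PART M = 4, K2' and J3V** -/
theorem part4_kj (hk : j2 + 2 * pkc V + 4 = k) (hi : 1 ≤ j2 + pkc V)
    (env : ∀ p0 : Cyc k, Rd (Rd p0).2 = ⟨j2, V⟩ → ClsEnv (AEP P) P P (cl p0))
    (kty : ∀ S F g, KS S → TyK S F g → (∀ c ∈ F, Rd (Rd c).2 = ⟨j2, V⟩) → Typd P P F)
    (hA : oddF (j2 + pkc V) 4) (hB : oddF (j2 + pkc V + 1) 2) {x l : ℕ} (hl : 1 ≤ l)
    (hlj : 2 * l ≤ j2 + pkc V + 1) (hxl : x + 2 * l = 2 * (j2 + pkc V))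
    (hph : KPh V KS 0 x 1 (2 * (j2 + pkc V)) 1) (hT : TopJ P V 1) :
    ClsReg P (vcl k V 0 ∪ vcl k V 1 ∪ vcl k V 2 : Set (RD × Multiset ℕ)) := by
  obtain ⟨v, hv, hS⟩ := hph
  obtain ⟨r, r', wz, wt, g1, g2, g3, g4, g5, g6, g7, g8, g9, g10, g11, g12⟩ :=
    k_group (k := k) (P := P) (a := 0) (m := 2) rfl (by omega) (by omega) (by omega) (by omega) v hv hS
      kty
  obtain ⟨F, j, u, hku, x', s, hF1, hF2, hF3, rfl, hF5, hF6, hF7⟩ := hT
  have hpr : pkn r'.1 = pkc V + 1 := by
    have h1 := vcl_data (k := k) (V := V) (a := 1) (m := 2) (j := j2 + pkc V + 1) (by omega) g9 rfl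
    obtain ⟨U, a1, a2, a3, a4, a5⟩ := h1
    rw [g5] at a1
    have h2 : cyc r' = U := eq_of_heq (Sigma.mk.inj_iff.1 a1).2
    rw [← pkc_cyc, h2, a4]
  have hkr : (j2 + pkc V + 1) + pkn r'.1 + 2 = k := by omega
  have hz : cyc wz = tc r' hkr (x : ZMod (2 * (j2 + pkc V + 1) + 1)) (2 * l) :=
    ev_tc hkr (by omega) hxl g3
  have ca : ∀ {q : Cyc k} {a b : ℕ}, cl q ∈ vcl k V a → cl q ∈ vcl k V b → a = b := by
    intro q a b h1 h2
    exact (mem_vcl.1 h1).2.symm.trans (mem_vcl.1 h2).2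
  have hzF : cyc wz ∉ F := by
    intro h
    rcases (hF6 _ g9).1 h with h1 | h1
    · rw [hz] at h1
      exact tc_ne (by omega) hku hkr (by omega) hlj (by omega) h1
    · rw [hz] at h1
      exact tc_ne (by omega) hku hkr (by omega) hlj (by omega) h1
  have htF : cyc wt ∉ F := by
    intro h
    rcases hF2 _ h with h1 | h1
    · exact absurd (ca g10 h1) (by norm_num)
    · exact absurd (ca g10 h1) (by norm_num)
  have hFne : F.Nonempty := by
    have h1 : cl (tc u hku x' 0) ∈ vcl k V 1 := by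
      rw [vcl_iff (Rd_tc u hku x' 0) hF3]
    exact ⟨_, (hF6 _ h1).2 (Or.inl rfl)⟩
  refine ⟨{{cyc wz, cyc wt}, F}, ?_, ?_, ?_⟩
  · rintro F' (rfl | rfl)
    · refine ⟨⟨_, Or.inl rfl⟩, g12, ?_⟩
      rintro q (rfl | rfl)
      · exact Or.inl (Or.inr g9)
      · exact Or.inl (Or.inl g10)
    · refine ⟨hFne, hF1, fun q hq => ?_⟩
      rcases hF2 q hq with h1 | h1
      · exact Or.inl (Or.inr h1)
      · exact Or.inr h1
  · rintro F1 (rfl | rfl) F2 (rfl | rfl) q hq hq'
    · rfl
    · exfalso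
      rcases hq with rfl | rfl
      · exact hzF hq'
      · exact htF hq'
    · exfalso
      rcases hq' with rfl | rfl
      · exact hzF hq
      · exact htF hq
    · rfl
  · have hin : ∀ q, q ∈ inG ({{cyc wz, cyc wt}, F} : Set (Set (Cyc k))) ↔
        (q = cyc wz ∨ q = cyc wt) ∨ q ∈ F := by
      intro q
      constructor
      · rintro ⟨F', rfl | rfl, hq⟩
        · exact Or.inl hq
        · exact Or.inr hq
      · rintro (h | h)
        · exact ⟨_, Or.inl rfl, h⟩
        · exact ⟨_, Or.inr rfl, h⟩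
    rintro p0 ((hp0 | hp0) | hp0)
    · refine cls_t0 (m := 4) (by norm_num) (by omega) env hA g6 g8 (fun h => by omega) hp0 ?_
      intro q hq
      have hq' := (vcl_same hp0).1 hq
      rw [hin]
      constructor
      · rintro ((rfl | rfl) | h)
        · exact absurd (ca hq' g9) (by norm_num)
        · rfl
        · rcases hF2 _ h with h1 | h1
          · exact absurd (ca hq' h1) (by norm_num)
          · exact absurd (ca hq' h1) (by norm_num)
      · rintro rfl
        exact Or.inl (Or.inr rfl)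
    · obtain ⟨U1, a1, a2, a3, a4, a5⟩ := vcl_data (j := j2 + pkc V + 1) (m := 2) (by omega) hp0 rfl
      have hRU : Rd (cyc r') = Rd U1 := by rw [g7, a2]
      refine r1_guest_edge (env p0 (mem_vcl.1 hp0).1) a1 (by omega) a5 hB (by
        rw [a3]; exact oddF_one _) u (by rw [hF3, a2]) hku x' s r' hRU hkr
        (x : ZMod (2 * (j2 + pkc V + 1) + 1)) hl hlj ?_ ?_
      · intro h
        rw [Rd_contc hRU, a3] at h
        exact absurd h (by norm_num)
      · intro q hq
        have hq' := (vcl_same hp0).1 hq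
        rw [hin, hF6 q hq', ← hz]
        constructor
        · rintro ((rfl | rfl) | h)
          · exact Or.inl rfl
          · exact absurd (ca hq' g10) (by norm_num)
          · exact Or.inr h
        · rintro (rfl | h)
          · exact Or.inl (Or.inl rfl)
          · exact Or.inr h
    · refine hF7 p0 _ hp0 ?_
      intro q hq
      have hq' := (vcl_same hp0).1 hq
      rw [hin]
      constructor
      · rintro ((rfl | rfl) | h)
        · exact absurd (ca hq' g9) (by norm_num)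
        · exact absurd (ca hq' g10) (by norm_num)
        · exact h
      · intro h
        exact Or.inr h

end Pool.OddHC
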