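import Pool.Agent.Work.MP_8f87b2_fin.RemTwo

/-!
# The classes `(V; a, m)`, `m ≥ 1`

`ClsEnv`: hops of the class are plain pairs, L pairs have a type. `r1_core`: all guests over one reduced cycle `Uf`.
`r1_win`: no guest, window at the pile. `r1_guest`: one guest, odd. `r1_set_even`: `|F(U,m)|` even, guests and window over one
reduced cycle. `r1_edge`: an edge of the rows 0, 1 (`m = 2`), even class. `r1_guest_edge`: guest and edge.
-/

set_option autoImplicit false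

namespace Pool.OddHC

open Finset BinaryTree Multiset Pool.OddHop

variable {i j k : ℕ}

variable {τp τw : Type} {Pp : τp → Set (Cyc k) → DG k → Prop} {Pw : τw → Set (Cyc k) → DG k → Prop}
  {AE : Cyc k → Cyc k → Prop}

/-- the hops of a class are plain pairs, the L pairs have a type -/
structure ClsEnv (AE : Cyc k → Cyc k → Prop) (Pp : τp → Set (Cyc k) → DG k → Prop)
    (Pw : τw → Set (Cyc k) → DG k → Prop) (κ : RD × Multiset ℕ) : Prop where
  e : ∀ p q : Cyc k, cl p = κ → cl q = κ → p ≠ q → HopC p q → AE p q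
  l : ∀ p q g, cl p = κ → cl q = κ → TyL {p, q} g → Typd Pp Pw {p, q}

variable {p0 : Cyc k} {U1 : Cyc j} {X : Set (Cyc k)} {m : ℕ}

theorem ClsEnv.rem (hEnv : ClsEnv AE Pp Pw (cl p0)) (hp0 : Rd p0 = ⟨j, U1⟩) {U : Cyc j}
    (hU : Rd U = Rd U1) {D : Set (Cyc k)} (h : RemOK ⟨j, U⟩ D) : RemA AE ⟨j, U⟩ D :=
  h.remA.mono fun p q hp hq hne hop => hEnv.e p q (cl_same hp0 hp hU) (cl_same hp0 hq hU) hne hop

theorem count_class (hp0 : Rd p0 = ⟨j, U1⟩) (hk : j + pkc U1 + m = k) {p : Cyc k} {U : Cyc j}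
    (hp : Rd p = ⟨j, U⟩) (hU : Rd U = Rd U1) : (contc p).count 1 = m := by
  have h1 := Rd_size p
  rw [hp] at h1
  change j + pkc U + _ = k at h1
  rw [pkc_Rd hU] at h1
  omega

/-- no guest in the family: nothing or one member is left out -/
theorem rem_plain (hEnv : ClsEnv AE Pp Pw (cl p0)) (hp0 : Rd p0 = ⟨j, U1⟩)
    (hk : j + pkc U1 + m = k) {U : Cyc j} (hU : Rd U = Rd U1)
    (hX : ∀ c ∈ X, Rd c ≠ ⟨j, U⟩) :
    (¬ oddF j m → RemA AE ⟨j, U⟩ X) ∧
      (oddF j m → ∀ p, Rd p = ⟨j, U⟩ → (m = 2 → IsTwo p) → p ∉ X ∧ RemA AE ⟨j, U⟩ ({p} ∪ X)) := by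
  constructor
  · intro ho
    refine (hEnv.rem hp0 hU (remOK_even ⟨j, U⟩ m (fun p hp => count_class hp0 hk hp hU) ho)).congr
      fun c hc => ?_
    constructor
    · intro h; exact absurd h (Set.notMem_empty _)
    · intro h; exact absurd hc (hX c h)
  · intro ho p hp h2
    refine ⟨fun h => hX p h hp, ?_⟩
    have hc := count_class hp0 hk hp hU
    refine (hEnv.rem hp0 hU (remOK_lo ⟨j, U⟩ p hp (fun h3 _ => h2 (by rw [← hc, h3])))).congr
      fun c hc' => ?_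
    rw [Set.mem_setOf_eq, hc]
    constructor
    · rintro ⟨rfl, _⟩; exact Or.inl rfl
    · rintro (h | h)
      · exact ⟨h, ho⟩
      · exact absurd hc' (hX c h)

/-- **CORE**: all guests of the class over `Uf` -/
theorem r1_core (hEnv : ClsEnv AE Pp Pw (cl p0)) (hp0 : Rd p0 = ⟨j, U1⟩)
    (hm : 1 ≤ m) (hk : j + pkc U1 + m = k) (Uf : Cyc j)
    (hXf : ∀ c ∈ X, ∀ U, Rd c = ⟨j, U⟩ → Rd U = Rd U1 → U = Uf)
    (U0 : Cyc j) (hU0 : Rd U0 = Rd U1)
    (h2 : (contc U0).count 1 = 2 → oddF (Rd U0).1 2 → IsTwo U0)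
    (hf : Rd Uf = Rd U1 → ¬ (Uf = U0 ∧ oddF (Rd U0).1 ((contc U0).count 1)) →
      (¬ oddF j m → RemA AE ⟨j, Uf⟩ X) ∧
      (oddF j m → ∀ p, Rd p = ⟨j, Uf⟩ → (m = 2 → TopTwo p) → p ∉ X ∧ RemA AE ⟨j, Uf⟩ ({p} ∪ X)))
    (h0 : oddF (Rd U0).1 ((contc U0).count 1) → ∃ G : Set (Set (Cyc k)), (∀ F ∈ G, F.Nonempty ∧
      Typd Pp Pw F ∧ ∀ c ∈ F, Rd c = ⟨j, U0⟩ ∧ c ∉ X) ∧
      (∀ F ∈ G, ∀ F' ∈ G, ∀ c, c ∈ F → c ∈ F' → F = F') ∧ RemA AE ⟨j, U0⟩ (inG G ∪ X)) :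
    ∃ Gp Gw, ClsOK AE (cl p0) X Gp Gw Pp Pw := by
  refine r1_gen hp0 X hm hk hEnv.l U0 hU0 h2 ?_ h0
  intro U hU hne
  by_cases hUf : U = Uf
  · subst hUf
    exact hf hU hne
  · have h3 := rem_plain (X := X) hEnv hp0 hk hU (fun c hc h => hUf (hXf c hc U h hU))
    exact ⟨h3.1, fun ho p hp hT => h3.2 ho p hp (fun h => (hT h).two)⟩

theorem inG_single (F : Set (Cyc k)) : inG {F} = F := by
  ext c
  constructor
  · rintro ⟨F', hF', h⟩
    rw [Set.mem_singleton_iff] at hF'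
    rwa [← hF']
  · intro h
    exact ⟨F, rfl, h⟩

theorem inG_empty' : inG (∅ : Set (Set (Cyc k))) = ∅ := by
  ext c
  constructor
  · rintro ⟨F', hF', _⟩
    exact absurd hF' (Set.notMem_empty _)
  · intro h
    exact absurd h (Set.notMem_empty _)

/-- **no guest, window at the pile over the pile** -/
theorem r1_win (hEnv : ClsEnv AE Pp Pw (cl p0)) (hp0 : Rd p0 = ⟨j, U1⟩)
    (hm : 1 ≤ m) (hk : j + pkc U1 + m = k) (hX : ∀ c ∈ X, cl c ≠ cl p0)
    (w : Cyc k) (U0 : Cyc j) (hU0 : Rd U0 = Rd U1) (hw : Rd w = ⟨j, U0⟩)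
    (h2 : (contc U0).count 1 = 2 → IsTwo U0) (hw2 : m = 2 → IsTwo w) (hty : Typd Pp Pw {w}) :
    ∃ Gp Gw, ClsOK AE (cl p0) X Gp Gw Pp Pw := by
  have hXU : ∀ U, Rd U = Rd U1 → ∀ c ∈ X, Rd c ≠ ⟨j, U⟩ := by
    intro U hU c hc h
    exact hX c hc (cl_same hp0 h hU)
  have hpl := rem_plain (X := X) hEnv hp0 hk hU0 (hXU U0 hU0)
  refine r1_core hEnv hp0 hm hk U0 ?_ U0 hU0 (fun h _ => h2 h) ?_ ?_
  · intro c hc U h hU
    exact absurd h (hXU U hU c hc)
  · intro _ _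
    exact ⟨hpl.1, fun ho p hp hT => hpl.2 ho p hp (fun h => (hT h).two)⟩
  · intro _
    by_cases ho : oddF j m
    · obtain ⟨h3, h4⟩ := hpl.2 ho w hw hw2
      refine ⟨{{w}}, ?_, ?_, ?_⟩
      · rintro F hF
        rw [Set.mem_singleton_iff] at hF
        subst hF
        refine ⟨⟨w, rfl⟩, hty, ?_⟩
        rintro c hc
        rw [Set.mem_singleton_iff] at hc
        subst hc
        exact ⟨hw, h3⟩
      · rintro F hF F' hF' c _ _
        rw [Set.mem_singleton_iff] at hF hF'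
        rw [hF, hF']
      · rw [inG_single]
        exact h4
    · refine ⟨∅, fun F h => absurd h (Set.notMem_empty _), fun F h => absurd h (Set.notMem_empty _), ?_⟩
      rw [inG_empty', Set.empty_union]
      exact hpl.1 ho

/-- **one guest, both levels odd** -/
theorem r1_guest (hEnv : ClsEnv AE Pp Pw (cl p0)) (hp0 : Rd p0 = ⟨j, U1⟩)
    (hm : 1 ≤ m) (hk : j + pkc U1 + m = k) (ho : oddF j m)
    (z : Cyc k) (U0 : Cyc j) (hU0 : Rd U0 = Rd U1) (hz : Rd z = ⟨j, U0⟩)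
    (ho2 : oddF (Rd U0).1 ((contc U0).count 1))
    (hX : ∀ c, cl c = cl p0 → (c ∈ X ↔ c = z))
    (h2 : (contc U0).count 1 = 2 → IsTwo U0) (hz2 : m = 2 → IsTwo z) :
    ∃ Gp Gw, ClsOK AE (cl p0) X Gp Gw Pp Pw := by
  refine r1_core hEnv hp0 hm hk U0 ?_ U0 hU0 (fun h _ => h2 h) ?_ ?_
  · intro c hc U h hU
    have h3 := (hX c (cl_same hp0 h hU)).1 hc
    rw [h3, hz] at h
    exact (eq_of_heq (Sigma.mk.inj_iff.1 h).2).symm
  · intro _ h3
    exact absurd ⟨rfl, ho2⟩ h3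
  · intro _
    refine ⟨∅, fun F h => absurd h (Set.notMem_empty _), fun F h => absurd h (Set.notMem_empty _), ?_⟩
    rw [inG_empty', Set.empty_union]
    have hc := count_class hp0 hk hz hU0
    refine (hEnv.rem hp0 hU0 (remOK_lo ⟨j, U0⟩ z hz (fun h3 _ => hz2 (by rw [← hc, h3])))).congr
      fun c hc' => ?_
    rw [Set.mem_setOf_eq, hc, hX c (cl_same hp0 hc' hU0)]
    exact ⟨fun h => h.1, fun h => ⟨h, ho⟩⟩

/-- **`|F(U,m)|` even**: guests `D` and possibly a window `w` over the same reduced cycle -/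
theorem r1_set_even (hEnv : ClsEnv AE Pp Pw (cl p0)) (hp0 : Rd p0 = ⟨j, U1⟩)
    (hm : 1 ≤ m) (hk : j + pkc U1 + m = k) (ho : ¬ oddF j m)
    (D : Set (Cyc k)) (U0 : Cyc j) (hU0 : Rd U0 = Rd U1) (hD : ∀ c ∈ D, Rd c = ⟨j, U0⟩)
    (hX : ∀ c, cl c = cl p0 → (c ∈ X ↔ c ∈ D))
    (h2 : (contc U0).count 1 = 2 → IsTwo U0) (W : Set (Cyc k)) (hWD : ∀ c ∈ W, c ∉ D)
    (hW : W = ∅ ∨ ∃ w, W = {w} ∧ Rd w = ⟨j, U0⟩ ∧ Typd Pp Pw {w})
    (hrem : RemOK ⟨j, U0⟩ (W ∪ D)) :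
    ∃ Gp Gw, ClsOK AE (cl p0) X Gp Gw Pp Pw := by
  have hremX : RemA AE ⟨j, U0⟩ (W ∪ X) := by
    refine (hEnv.rem hp0 hU0 hrem).congr fun c hc => ?_
    have := hX c (cl_same hp0 hc hU0)
    constructor
    · rintro (h | h)
      · exact Or.inl h
      · exact Or.inr (this.2 h)
    · rintro (h | h)
      · exact Or.inl h
      · exact Or.inr (this.1 h)
  -- the family of `U0` is left to the groups: no L pairs at all
  refine cls_of_inv' hp0 X id (fun U hU => ⟨hU, rfl⟩) (fun U _ h => absurd rfl h) ?_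
  intro U hU _
  by_cases hUf : U = U0
  · subst hUf
    rcases hW with rfl | ⟨w, rfl, hw, hty⟩
    · refine ⟨∅, fun F h => absurd h (Set.notMem_empty _), fun F h => absurd h (Set.notMem_empty _), ?_⟩
      rw [inG_empty']
      exact hremX
    · refine ⟨{{w}}, ?_, ?_, ?_⟩
      · rintro F hF
        rw [Set.mem_singleton_iff] at hF
        subst hF
        refine ⟨⟨w, rfl⟩, hty, ?_⟩
        rintro c hc
        rw [Set.mem_singleton_iff] at hc
        subst hc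
        refine ⟨hw, fun h => ?_⟩
        exact hWD c rfl ((hX c (cl_same hp0 hw hU)).1 h)
      · rintro F hF F' hF' c _ _
        rw [Set.mem_singleton_iff] at hF hF'
        rw [hF, hF']
      · rw [inG_single]
        exact hremX
  · refine ⟨∅, fun F h => absurd h (Set.notMem_empty _), fun F h => absurd h (Set.notMem_empty _), ?_⟩
    rw [inG_empty', Set.empty_union]
    refine (rem_plain (X := X) hEnv hp0 hk hU ?_).1 ho
    intro c hc h
    have h3 := (hX c (cl_same hp0 h hU)).1 hc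
    rw [hD c h3] at h
    exact hUf (eq_of_heq (Sigma.mk.inj_iff.1 h).2).symm

end Pool.OddHC
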