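import Pool.Agent.Work.MP_8f87b2_fin.Win
import Pool.Agent.Work.MP_8f87b2_end.Rows2

/-!
# The class of a node with `m ≥ 1`: general step

`TopTwo`: two beads at the distance `j` (top row). `tyL_top`: the L pair over a hop of the reduced cycles, `m = 2`: both
members in the top row. `r1_gen`: `ClsOK` for a class `(V; a, m)`, `m ≥ 1`, from a prescribed leftover `U0` of the second
level, the removal sets `{p} ∪ X` over the moved reduced cycles and the groups over `U0`.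
-/

set_option autoImplicit false

namespace Pool.OddHC

open Finset BinaryTree Multiset Pool.OddHop

variable {i j k : ℕ}

/-- two beads in the top row, `j` even -/
def TopTwo (p : Cyc k) : Prop := ∃ (j : ℕ) (u : X j) (x : ZMod (2 * j + 1)) (w : X k),
  j % 2 = 0 ∧ cyc w = p ∧
    w.1 = ins u.1 (lf (fun z => (if z = x then 1 else 0) + if z = x + (j : ZMod (2 * j + 1)) then 1 else 0))

theorem TopTwo.two {p : Cyc k} (h : TopTwo p) : IsTwo p := by
  obtain ⟨j, u, x, w, h1, h2, h3⟩ := h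
  exact ⟨j, u, x, j, w, le_rfl, h1, h2, h3⟩

theorem topTwo_of_list {u : X j} {w : X k} {e : List ℕ} (he : e.length = 2 * j + 1)
    (hw : w.1 = ins u.1 e) (x y : ℕ) (hx : x < 2 * j + 1) (hy : y < 2 * j + 1)
    (hd : y = x + j ∨ y + j = x + (2 * j + 1)) (hj : j % 2 = 0)
    (h : ∀ z, z < 2 * j + 1 → e.getD z 0 = (if z = x then 1 else 0) + if z = y then 1 else 0) :
    TopTwo (cyc w) := by
  obtain ⟨a, rfl⟩ := exists_lf he
  have ha : ∀ z, a z = (if z.val = x then 1 else 0) + if z.val = y then 1 else 0 := by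
    intro z
    rw [← h z.val (ZMod.val_lt z), lf_getD]
  rcases hd with hd1 | hd1
  · refine ⟨j, u, x, w, hj, rfl, ?_⟩
    rw [hw]
    congr 2
    funext z
    rw [ha]
    simp only [val_eq_iff z hx, val_eq_iff z hy]
    rw [hd1, Nat.cast_add]
  · refine ⟨j, u, y, w, hj, rfl, ?_⟩
    rw [hw]
    congr 2
    funext z
    rw [ha]
    simp only [val_eq_iff z hx, val_eq_iff z hy]
    have h1 : ((y + j : ℕ) : ZMod (2 * j + 1)) = ((x + (2 * j + 1) : ℕ) : ZMod (2 * j + 1)) := by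
      rw [hd1]
    have h2 : ((2 * j + 1 : ℕ) : ZMod (2 * j + 1)) = 0 := ZMod.natCast_self _
    rw [Nat.cast_add, Nat.cast_add, h2, add_zero] at h1
    rw [h1, add_comm]

/-- **L-PAIR** over a hop of the reduced cycles, at the phase `r`, top row for `m = 2` -/
theorem EData.l_pair_top {U U₂ : Cyc j} (hne : U ≠ U₂) {r : X i} {f : ZMod (2 * i + 1) → ℕ}
    (hE : EData U U₂ i r f) {m : ℕ} (hk : j + pkc U + m = k) {e : List ℕ}
    (he : e.length = 2 * (ins r.1 (lf f)).numNodes + 1) (hs : e.sum + 1 = m)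
    (h2 : m = 2 → e = midL (ins r.1 (lf f)).numNodes 1) :
    ∃ (p q : Cyc k) (g : DG k), Rd p = ⟨j, U⟩ ∧ Rd q = ⟨j, U₂⟩ ∧
      (m = 2 → j % 2 = 0 → TopTwo p ∧ TopTwo q) ∧
      IsTri (lp 1) (ins (ins r.1 (lf f)) e) (lp 1) {p, q} g := by
  obtain ⟨R, hR⟩ : ∃ R, R = ins r.1 (lf f) := ⟨_, rfl⟩
  have hw := hE.words
  rw [← hR] at hw he h2 ⊢
  have hnum : R.numNodes + 1 = j := by
    have h1 := (ins_num r.1 (lf f) (by rw [lf_length, X_num])).1
    rw [← hR, lf_sum, X_num] at h1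
    have := hE.size
    omega
  have hRn : R ≠ .nil := by
    rintro h0
    rw [h0] at hnum
    have h1 := hE.size
    have h2 := hE.hj
    change 0 + 1 = j at hnum
    omega
  obtain ⟨v, hv⟩ : ∃ v : X j, v.1 = .nil △ R := ⟨⟨_, mem_treesOfNumNodesEq.2 (by
    change 0 + R.numNodes + 1 = j
    omega)⟩, rfl⟩
  obtain ⟨v', hv'⟩ : ∃ v' : X j, v'.1 = app R (.nil △ .nil) := ⟨⟨_, mem_treesOfNumNodesEq.2 (by
    rw [num_app]
    change R.numNodes + 1 = j
    omega)⟩, rfl⟩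
  have hcvv : (cyc v = U ∧ cyc v' = U₂) ∨ (cyc v = U₂ ∧ cyc v' = U) := by
    rcases hw with hw | hw
    · exact Or.inl (hw v v' hv hv')
    · exact Or.inr (hw v v' hv hv')
  have hpk : pkn v.1 = pkc U := by
    have h4 : pkn v.1 = pkn v'.1 := by
      rw [← cont_card, ← cont_card, hv, hv', cont_app, cont_node]
      rw [cont_node, cont_nil, add_zero, add_comm]
    rcases hcvv with ⟨h5, _⟩ | ⟨_, h5⟩
    · rw [← pkc_cyc, h5]
    · rw [h4, ← pkc_cyc, h5]
  obtain ⟨a, b, c, ha, hb, hc, hbe, hce, hb1, hc1, _, _⟩ := lw_words (k := k) hv hv' he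
    (p := 1) (q := 1) le_rfl le_rfl (by rw [hpk]; omega)
  have hcb : cyc b ≠ cyc c := by
    intro h
    rw [h, hc1] at hb1
    have h5 := eq_of_heq (Sigma.mk.inj_iff.1 hb1).2
    rcases hcvv with ⟨h6, h7⟩ | ⟨h6, h7⟩
    · rw [h6, h7] at h5
      exact hne h5
    · rw [h6, h7] at h5
      exact hne h5.symm
  have hhR := ht_ins_ge R e hRn
  have hlp : ht (lp 1) = 1 := rfl
  have hb2 : htc (cyc b) = ht (ins R e) := by
    rw [htc_cyc, hb, ht_w1, hlp]
    omega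
  have hc2 : htc (cyc c) = ht (ins R e) := by
    rw [htc_cyc, hc, ht_w1, hlp]
    omega
  have ha2 : htc (cyc a) = ht (ins R e) + 1 := by
    rw [htc_cyc, ha, ht_w1, hlp]
    omega
  have htri : IsTri (lp 1) (ins R e) (lp 1) {cyc b, cyc c} (pDG {a, b, c} (cyc b) (cyc c) ∅) :=
    ⟨a, b, c, ha, hb, hc, hcb, by rw [hb2, hc2], by rw [hb2, ha2]; omega, rfl, rfl⟩
  -- two beads
  have htwo : m = 2 → j % 2 = 0 → TopTwo (cyc b) ∧ TopTwo (cyc c) := by
    intro hm hj2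
    have hem := h2 hm
    rw [hem] at hbe hce
    have hlen := midL_length R.numNodes 1
    constructor
    · refine topTwo_of_list (e := midL R.numNodes 1 ++ [1 - 1, 1]) ?_ hbe R.numNodes
        (2 * R.numNodes + 2) (by omega) (by omega) (Or.inr (by omega)) hj2 ?_
      · rw [List.length_append, hlen]
        simp
        omega
      · intro z hz
        by_cases h1 : z < 2 * R.numNodes + 1
        · rw [List.getD_append _ _ _ _ (by rw [hlen]; exact h1), midL_getD,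
            if_neg (show ¬ z = 2 * R.numNodes + 2 by omega), add_zero]
        · rw [List.getD_append_right _ _ _ _ (by rw [hlen]; omega), hlen,
            if_neg (show ¬ z = R.numNodes by omega)]
          have h3 : z = 2 * R.numNodes + 1 ∨ z = 2 * R.numNodes + 2 := by omega
          rcases h3 with rfl | rfl
          · simp
          · simp
    · refine topTwo_of_list (e := 1 :: (1 - 1) :: midL R.numNodes 1) ?_ hce 0
        (R.numNodes + 2) (by omega) (by omega) (Or.inr (by omega)) hj2 ?_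
      · rw [List.length_cons, List.length_cons, hlen]
        omega
      · intro z hz
        rcases z with _ | _ | z
        · simp
        · simp
        · rw [List.getD_cons_succ, List.getD_cons_succ, midL_getD,
            if_neg (show ¬ z + 1 + 1 = 0 by omega), zero_add]
          by_cases h3 : z = R.numNodes
          · rw [if_pos h3, if_pos (by omega)]
          · rw [if_neg h3, if_neg (by omega)]
  rcases hcvv with ⟨h6, h7⟩ | ⟨h6, h7⟩
  · refine ⟨cyc c, cyc b, pDG {a, b, c} (cyc b) (cyc c) ∅, by rw [hc1, h6], by rw [hb1, h7],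
      fun h8 h9 => (htwo h8 h9).symm, ?_⟩
    rw [Set.pair_comm]
    exact htri
  · exact ⟨cyc b, cyc c, _, by rw [hb1, h7], by rw [hc1, h6], htwo, htri⟩

/-- **TYPE L EXISTS**, both members in the top row for `m = 2` -/
theorem tyL_top {U U₂ : Cyc j} (hne : U ≠ U₂) (h : HopC U U₂) {m : ℕ} (hm : 1 ≤ m)
    (hk : j + pkc U + m = k) : ∃ (p q : Cyc k) (g : DG k), Rd p = ⟨j, U⟩ ∧ Rd q = ⟨j, U₂⟩ ∧
      (m = 2 → j % 2 = 0 → TopTwo p ∧ TopTwo q) ∧ TyL {p, q} g := by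
  obtain ⟨i, r, f, hE, -⟩ := h.edata'
  obtain ⟨p, q, g, h1, h2, h3, h4⟩ := hE.l_pair_top hne hk (e := midL (ins r.1 (lf f)).numNodes (m - 1))
    (midL_length _ _) (by rw [midL_sum]; omega) (by rintro rfl; rfl)
  have hnum : (ins r.1 (lf f)).numNodes + 1 = j := by
    have h1 := (ins_num r.1 (lf f) (by rw [lf_length, X_num])).1
    rw [lf_sum, X_num] at h1
    have := hE.size
    omega
  have hRn : ins r.1 (lf f) ≠ .nil := by
    rintro h0
    rw [h0] at hnum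
    have h1 := hE.size
    have h2 := hE.hj
    change 0 + 1 = j at hnum
    omega
  obtain ⟨n, hn⟩ : ∃ n, (ins r.1 (lf f)).numNodes = n + 1 := by
    have h1 := hE.size
    have h2 := hE.hj
    exact ⟨(ins r.1 (lf f)).numNodes - 1, by omega⟩
  refine ⟨p, q, g, h1, h2, h3, _, _, hRn, midL_length _ _, ?_, ?_, h4⟩
  · apply H1.fb_lv0 hRn (midL_length _ _)
    rw [hn]
    rfl
  · apply H1.lastB_ins hRn (midL_length _ _)
    rw [hn]
    unfold midL
    rw [List.replicate_succ' (n := n)]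
    rw [← List.cons_append, ← List.append_assoc, List.getLastD_concat]

variable {τp τw : Type} {Pp : τp → Set (Cyc k) → DG k → Prop} {Pw : τw → Set (Cyc k) → DG k → Prop}
  {AE : Cyc k → Cyc k → Prop}

/-- `cls_of_inv` with the reduced cycle as a variable -/
theorem cls_of_inv' {p0 : Cyc k} {U1 : Cyc j} (hp0 : Rd p0 = ⟨j, U1⟩) (X : Set (Cyc k)) (I : Cyc j → Cyc j)
    (hI : ∀ U, Rd U = Rd U1 → Rd (I U) = Rd U1 ∧ I (I U) = U)
    (mv : ∀ U, Rd U = Rd U1 → I U ≠ U →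
      (RemA AE ⟨j, U⟩ X ∧ RemA AE ⟨j, I U⟩ X) ∨
      ∃ p q : Cyc k, Rd p = ⟨j, U⟩ ∧ Rd q = ⟨j, I U⟩ ∧ p ∉ X ∧ q ∉ X ∧
        Typd Pp Pw {p, q} ∧ RemA AE ⟨j, U⟩ ({p} ∪ X) ∧ RemA AE ⟨j, I U⟩ ({q} ∪ X))
    (fx : ∀ U, Rd U = Rd U1 → I U = U → ∃ G : Set (Set (Cyc k)), (∀ F ∈ G, F.Nonempty ∧
      Typd Pp Pw F ∧ ∀ c ∈ F, Rd c = ⟨j, U⟩ ∧ c ∉ X) ∧
      (∀ F ∈ G, ∀ F' ∈ G, ∀ c, c ∈ F → c ∈ F' → F = F') ∧ RemA AE ⟨j, U⟩ (inG G ∪ X)) :
    ∃ Gp Gw, ClsOK AE (cl p0) X Gp Gw Pp Pw := by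
  obtain rfl : (Rd p0).1 = j := congrArg Sigma.fst hp0
  have h1 : (Rd p0).2 = U1 := eq_of_heq (Sigma.ext_iff.1 hp0).2
  subst h1
  exact cls_of_inv p0 X I hI mv fx

/-- members of one class -/
theorem cl_same {p0 p : Cyc k} {U1 U : Cyc j} (hp0 : Rd p0 = ⟨j, U1⟩) (hp : Rd p = ⟨j, U⟩)
    (h : Rd U = Rd U1) : cl p = cl p0 := by
  rw [cl_iff, hp, hp0]
  exact ⟨rfl, h⟩

theorem pkc_Rd {U U1 : Cyc j} (h : Rd U = Rd U1) : pkc U = pkc U1 := by
  unfold pkc
  rw [Rd_contc h]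

/-- **THE CLASS OF A NODE, GENERAL STEP** -/
theorem r1_gen {p0 : Cyc k} {U1 : Cyc j} (hp0 : Rd p0 = ⟨j, U1⟩) (X : Set (Cyc k)) {m : ℕ}
    (hm : 1 ≤ m) (hk : j + pkc U1 + m = k)
    (hL : ∀ p q g, cl p = cl p0 → cl q = cl p0 → TyL {p, q} g → Typd Pp Pw {p, q})
    (U0 : Cyc j) (hU0 : Rd U0 = Rd U1)
    (h2 : (contc U0).count 1 = 2 → oddF (Rd U0).1 2 → IsTwo U0)
    (hX : ∀ U, Rd U = Rd U1 → ¬ (U = U0 ∧ oddF (Rd U0).1 ((contc U0).count 1)) →
      (¬ oddF j m → RemA AE ⟨j, U⟩ X) ∧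
      (oddF j m → ∀ p, Rd p = ⟨j, U⟩ → (m = 2 → TopTwo p) → p ∉ X ∧ RemA AE ⟨j, U⟩ ({p} ∪ X)))
    (h0 : oddF (Rd U0).1 ((contc U0).count 1) → ∃ G : Set (Set (Cyc k)), (∀ F ∈ G, F.Nonempty ∧
      Typd Pp Pw F ∧ ∀ c ∈ F, Rd c = ⟨j, U0⟩ ∧ c ∉ X) ∧
      (∀ F ∈ G, ∀ F' ∈ G, ∀ c, c ∈ F → c ∈ F' → F = F') ∧ RemA AE ⟨j, U0⟩ (inG G ∪ X)) :
    ∃ Gp Gw, ClsOK AE (cl p0) X Gp Gw Pp Pw := by
  obtain ⟨I, hI⟩ := remOK_lo (Rd U0) U0 rfl h2
  rw [hU0] at hI
  have hmem : ∀ U, Rd U = Rd U1 → I U ≠ U → ¬ (U = U0 ∧ oddF (Rd U0).1 ((contc U0).count 1)) := by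
    intro U hU hne h
    apply hne
    rw [(hI U hU).2.2.2]
    change U = U0 ∧ _
    rw [← hU0]
    exact h
  refine cls_of_inv' hp0 X I (fun U hU => ⟨(hI U hU).1, (hI U hU).2.1⟩) ?_ ?_
  · intro U hU hne
    obtain ⟨e1, e2, e3, e4⟩ := hI U hU
    have hne' : I (I U) ≠ I U := by
      rw [e2]
      exact fun h => hne h.symm
    have f1 := hX U hU (hmem U hU hne)
    have f2 := hX (I U) e1 (hmem (I U) e1 hne')
    by_cases ho : oddF j m
    · right
      have hhop : HopC U (I U) := by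
        rcases e3 with e3 | e3
        · exact absurd e3 hne
        · exact e3
      obtain ⟨p, q, g, hp, hq, ht, hLg⟩ := tyL_top (k := k) (fun h => hne h.symm) hhop hm
        (by rw [pkc_Rd hU]; exact hk)
      have htt : m = 2 → TopTwo p ∧ TopTwo q := by
        intro h3
        apply ht h3
        rw [h3] at ho
        exact oddF_two_even ho
      obtain ⟨a1, a2⟩ := f1.2 ho p hp (fun h => (htt h).1)
      obtain ⟨b1, b2⟩ := f2.2 ho q hq (fun h => (htt h).2)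
      exact ⟨p, q, hp, hq, a1, b1, hL p q g (cl_same hp0 hp hU) (cl_same hp0 hq e1) hLg, a2, b2⟩
    · exact Or.inl ⟨f1.1 ho, f2.1 ho⟩
  · intro U hU hf
    have h3 := (hI U hU).2.2.2.1 hf
    change U = U0 ∧ _ at h3
    rw [← hU0] at h3
    obtain ⟨rfl, h4⟩ := h3
    exact h0 h4

end Pool.OddHC
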