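import Pool.Agent.Work.MP_8f87b2_fin.VInst

/-!
# The classes over one `V` with a general treatment of the classes `(V; a, 0)`, `a ≥ 1`

`VEnvG`: as `PV.VEnv`, the classes `(V; a, 0)` by the fields `top`, `topK`. `cls_own`: a class where every member has a type.
`VEnvG.of_own`: every member of `(V; a, 0)` has its own window. `VEnv.toG`: pairs over the hops. `reg_VsG`, `reg_own`: sets of `V`.
-/

set_option autoImplicit false

namespace Pool.OddHC

open Finset BinaryTree Multiset Pool.OddHop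

variable {i j j2 k : ℕ} {τ : Type} {P : τ → Set (Cyc k) → DG k → Prop}

/-- **every member of the class which is not left to other groups has its own type** -/
theorem cls_own {AE : Cyc k → Cyc k → Prop} {κ : RD × Multiset ℕ} {Xs : Set (Cyc k)}
    (h : ∀ p : Cyc k, cl p = κ → p ∉ Xs → Typd P P {p}) :
    ∃ Gp Gw, ClsOK AE κ Xs Gp Gw P P := by
  classical
  have h1 : ∀ F ∈ {F : Set (Cyc k) | ∃ p : Cyc k, cl p = κ ∧ p ∉ Xs ∧ F = {p}}, F.Nonempty := by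
    rintro F ⟨p, _, _, rfl⟩
    exact ⟨p, rfl⟩
  have h2 : ∀ F ∈ {F : Set (Cyc k) | ∃ p : Cyc k, cl p = κ ∧ p ∉ Xs ∧ F = {p}}, ∀ c ∈ F,
      cl c = κ ∧ c ∉ Xs := by
    rintro F ⟨p, h1, h2, rfl⟩ c hc
    rw [Set.mem_singleton_iff] at hc
    subst hc
    exact ⟨h1, h2⟩
  have h3 : ∀ F ∈ {F : Set (Cyc k) | ∃ p : Cyc k, cl p = κ ∧ p ∉ Xs ∧ F = {p}},
      ∀ F' ∈ {F : Set (Cyc k) | ∃ p : Cyc k, cl p = κ ∧ p ∉ Xs ∧ F = {p}}, ∀ c, c ∈ F → c ∈ F' →
      F = F' := by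
    rintro F ⟨p, _, _, rfl⟩ F' ⟨p', _, _, rfl⟩ c hc hc'
    rw [Set.mem_singleton_iff] at hc hc'
    rw [← hc, ← hc']
  have h4 : ∀ F ∈ {F : Set (Cyc k) | ∃ p : Cyc k, cl p = κ ∧ p ∉ Xs ∧ F = {p}}, Typd P P F := by
    rintro F ⟨p, h1, h2, rfl⟩
    exact h p h1 h2
  have h5 : ∀ p : Cyc k, cl p = κ →
      RemA AE (Rd p) (inG {F : Set (Cyc k) | ∃ p : Cyc k, cl p = κ ∧ p ∉ Xs ∧ F = {p}} ∪ Xs) := by
    intro p hp
    apply remA_all
    intro q hq
    have hcq : cl q = κ := (cl_fam hq).trans hp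
    by_cases hX : q ∈ Xs
    · exact Or.inr hX
    · exact Or.inl ⟨{q}, ⟨q, hcq, hX, rfl⟩, rfl⟩
  obtain ⟨Gp, Gw, _, h6⟩ := cls_of_set _ h1 h2 h3 h4 h5
  exact ⟨Gp, Gw, h6⟩

namespace PV

variable {V : Cyc j2} {KS : BinaryTree Unit → Prop}

/-- **what is needed over one `V`** -/
structure VEnvG (P : τ → Set (Cyc k) → DG k → Prop) (V : Cyc j2) (KS : BinaryTree Unit → Prop) : Prop where
  /-- hops of the families are E pairs, L pairs exist -/
  env : ∀ p0 : Cyc k, Rd (Rd p0).2 = ⟨j2, V⟩ → ClsEnv (AEP P) P P (cl p0)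
  /-- windows, `m ≥ 1` -/
  win : ∀ a m, 1 ≤ a → 1 ≤ m → j2 + 2 * pkc V + 2 * a + m = k → NodeW k V (Typd P P) a m
  /-- K links have a type -/
  kty : ∀ S F g, KS S → TyK S F g → (∀ c ∈ F, Rd (Rd c).2 = ⟨j2, V⟩) → Typd P P F
  /-- K0, `M = 2` -/
  k0 : j2 + 2 * pkc V + 2 = k → oddF (j2 + pkc V) 2 → KPh V KS 0 0 0 0 0
  /-- K1, `M = 3` -/
  k1 : j2 + 2 * pkc V + 3 = k → oddF (j2 + pkc V) 3 →
    ∃ x, x < 2 * (j2 + pkc V) + 1 ∧ KPh V KS 0 x 1 0 0
  /-- K2', `M = 4` : level at least 2 -/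
  k2 : j2 + 2 * pkc V + 4 = k → oddF (j2 + pkc V) 4 → oddF (j2 + pkc V + 1) 2 →
    ∃ x l, 1 ≤ l ∧ 2 * l ≤ j2 + pkc V + 1 ∧ x + 2 * l = 2 * (j2 + pkc V) ∧
      KPh V KS 0 x 1 (2 * (j2 + pkc V)) 1
  /-- K2, `M ≥ 5` -/
  kp : ∀ m, 3 ≤ m → j2 + 2 * pkc V + m + 2 = k → oddF (j2 + pkc V) (m + 2) →
    oddF (j2 + pkc V + 1) m → ∃ x b y c, x < 2 * (j2 + pkc V) + 1 ∧ y < 2 * (j2 + pkc V) + 1 ∧
      b + c = m ∧ KPh V KS 0 x b y c
  /-- K3, `M ≥ 4` -/
  kn : ∀ m, 2 ≤ m → j2 + 2 * pkc V + m + 2 = k → oddF (j2 + pkc V) (m + 2) →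
    ¬ oddF (j2 + pkc V + 1) m → KNr V KS m
  /-- the class `(V; a, 0)` -/
  top : ∀ a, 1 ≤ a → j2 + 2 * pkc V + 2 * a = k →
    ClsReg P (vcl k V a : Set (RD × Multiset ℕ))
  /-- the class `(V; 1, 0)` with a member left to the K0 link -/
  topK : j2 + 2 * pkc V + 2 = k → oddF (j2 + pkc V) 2 → JVK P V 1

/-- **the classes `(V; a, m)`, `lo ≤ a ≤ hi`, `m ≥ 1`** -/
theorem VEnvG.wins (E : VEnvG P V KS) (lo hi : ℕ) (h0 : 1 ≤ lo)
    (h : j2 + 2 * pkc V + 2 * hi + 1 ≤ k ∨ hi < lo) :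
    ClsReg P ({κ | ∃ a, lo ≤ a ∧ a ≤ hi ∧ κ ∈ vcl k V a} : Set (RD × Multiset ℕ)) := by
  refine ClsReg.single fun p0 hp0 => ?_
  obtain ⟨a, ha1, ha2, hp0⟩ := hp0
  have h' : j2 + 2 * pkc V + 2 * hi + 1 ≤ k := by
    rcases h with h | h
    · exact h
    · omega
  obtain ⟨m, hm⟩ : ∃ m, j2 + 2 * pkc V + 2 * a + m = k := ⟨k - (j2 + 2 * pkc V + 2 * a), by omega⟩
  have hm1 : 1 ≤ m := by omega
  obtain ⟨U1, a1, a2, a3, a4, a5⟩ := vcl_data (j := j2 + pkc V + a) hm hp0 rfl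
  obtain ⟨v, x2, u, x, w, b1, b2, b3, b4, b5, b6, b7, b8⟩ :=
    (E.win a m (by omega) hm1 hm).data (j := j2 + pkc V + a) rfl
  have hRU : Rd (cyc u) = Rd U1 := by rw [b6, a2]
  refine r1_win (E.env p0 (mem_vcl.1 hp0).1) a1 hm1 a5 (fun c hc => absurd hc (Set.notMem_empty _))
    (cyc w) (cyc u) hRU b5 (fun h => b7.two h) (fun h => b8.two ?_) b4
  rw [count_class a1 a5 b5 hRU, h]

/-- **the low block**: the classes `(V; 0, m + 2)`, `(V; 1, m)`, `m ≥ 1` -/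
theorem VEnvG.low (E : VEnvG P V KS) (hi : 1 ≤ j2 + pkc V) (m : ℕ) (hm : 1 ≤ m)
    (hk : j2 + 2 * pkc V + m + 2 = k) :
    ClsReg P (vcl k V 0 ∪ vcl k V 1 : Set (RD × Multiset ℕ)) := by
  by_cases hA : oddF (j2 + pkc V) (m + 2)
  · by_cases hB : oddF (j2 + pkc V + 1) m
    · obtain rfl | rfl | hm3 : m = 1 ∨ m = 2 ∨ 3 ≤ m := by omega
      · obtain ⟨x, hx, hph⟩ := E.k1 (by omega) hA
        exact part_kk 1 le_rfl (by omega) hi E.env E.kty hA hB hx (y := 0) (by omega) rfl hph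
          (fun h => by omega)
      · obtain ⟨x, l, hl, hlj, hxl, hph⟩ := E.k2 (by omega) hA hB
        exact part_kk 2 (by norm_num) (by omega) hi E.env E.kty hA hB (by omega) (by omega) rfl hph
          (fun _ => ⟨rfl, rfl, l, hlj, hxl⟩)
      · obtain ⟨x, b, y, c, hx, hy, hbc, hph⟩ := E.kp m hm3 (by omega) hA hB
        exact part_kk m hm (by omega) hi E.env E.kty hA hB hx hy hbc hph (fun h => by omega)
    · have hm2 : 2 ≤ m := by
        by_contra h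
        obtain rfl : m = 1 := by omega
        exact hB (oddF_one _)
      exact part_k3 m hm2 (by omega) hi E.env E.kty hA hB (E.kn m hm2 (by omega) hA hB)
        (E.win 1 m le_rfl hm (by omega))
  · refine (part_even (m + 2) (by omega) (by omega) E.env hA).union
      (part_win 1 m le_rfl hm (by omega) E.env (E.win 1 m le_rfl hm (by omega))) ?_
    intro κ h1 h2
    exact vcl_no (by norm_num) h1 h2

/-- `M = 2` -/
theorem VEnvG.two (E : VEnvG P V KS) (hi : 1 ≤ j2 + pkc V) (hk : j2 + 2 * pkc V + 2 = k) :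
    ClsReg P (vcl k V 0 ∪ vcl k V 1 : Set (RD × Multiset ℕ)) := by
  by_cases hA : oddF (j2 + pkc V) 2
  · exact part_k0 hi hk E.env E.kty hA (E.k0 hk hA) (E.topK hk hA)
  · refine ClsReg.union (part_even 2 (by norm_num) (by omega) E.env hA) (E.top 1 le_rfl (by omega)) ?_
    intro κ h1 h2
    exact vcl_no (by norm_num) h1 h2

/-- **ALL CLASSES OVER `V`** -/
theorem VEnvG.reg (E : VEnvG P V KS) (hi : 1 ≤ j2 + pkc V) (hk : j2 + 2 * pkc V + 2 ≤ k) :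
    RegOK P ({⟨j2, V⟩} : Set RD) := by
  obtain ⟨M, hM⟩ : ∃ M, j2 + 2 * pkc V + M = k := ⟨k - (j2 + 2 * pkc V), by omega⟩
  have hM2 : 2 ≤ M := by omega
  have hcase : ∀ p : Cyc k, Rd (Rd p).2 = ⟨j2, V⟩ → cl p ∈ vcl k V (aa p) ∧ 2 * aa p ≤ M := by
    intro p hp
    have := ov_total hp
    exact ⟨mem_vcl.2 ⟨hp, rfl⟩, by omega⟩
  obtain rfl | h4 : M = 2 ∨ M ≠ 2 := by omega
  · refine (E.two hi (by omega)).congr fun p => ?_
    constructor
    · rintro (h | h)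
      · exact (mem_vcl.1 h).1
      · exact (mem_vcl.1 h).1
    · intro h
      obtain ⟨h1, h2⟩ := hcase p h
      obtain h3 | h3 : aa p = 0 ∨ aa p = 1 := by omega
      · rw [h3] at h1; exact Or.inl h1
      · rw [h3] at h1; exact Or.inr h1
  · obtain ⟨m, rfl⟩ : ∃ m, M = m + 2 := ⟨M - 2, by omega⟩
    have hlow := E.low hi m (by omega) (by omega)
    rcases Nat.even_or_odd' m with ⟨c, rfl | rfl⟩
    · -- `M` even
      have h1 := hlow.union (E.wins 2 c (by norm_num) (by omega)) ?_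
      · have h2 := h1.union (E.top (c + 1) (by omega) (by omega)) ?_
        · refine h2.congr fun p => ?_
          constructor
          · rintro (((h | h) | ⟨a, _, _, h⟩) | h)
            · exact (mem_vcl.1 h).1
            · exact (mem_vcl.1 h).1
            · exact (mem_vcl.1 h).1
            · exact (mem_vcl.1 h).1
          · intro h
            obtain ⟨h3, h4⟩ := hcase p h
            obtain h5 | h5 | h5 | h5 : aa p = 0 ∨ aa p = 1 ∨ (2 ≤ aa p ∧ aa p ≤ c) ∨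
              aa p = c + 1 := by omega
            · rw [h5] at h3; exact Or.inl (Or.inl (Or.inl h3))
            · rw [h5] at h3; exact Or.inl (Or.inl (Or.inr h3))
            · exact Or.inl (Or.inr ⟨aa p, h5.1, h5.2, h3⟩)
            · rw [h5] at h3; exact Or.inr h3
        · rintro κ ((h1 | h1) | ⟨a, ha1, ha2, h1⟩) h2
          · exact vcl_no (by omega) h1 h2
          · exact vcl_no (by omega) h1 h2
          · exact vcl_no (by omega) h1 h2
      · rintro κ (h1 | h1) ⟨a, ha1, ha2, h2⟩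
        · exact vcl_no (by omega) h1 h2
        · exact vcl_no (by omega) h1 h2
    · -- `M` odd
      have h1 := hlow.union (E.wins 2 (c + 1) (by norm_num) (by omega)) ?_
      · refine h1.congr fun p => ?_
        constructor
        · rintro ((h | h) | ⟨a, _, _, h⟩)
          · exact (mem_vcl.1 h).1
          · exact (mem_vcl.1 h).1
          · exact (mem_vcl.1 h).1
        · intro h
          obtain ⟨h3, h4⟩ := hcase p h
          obtain h5 | h5 | h5 : aa p = 0 ∨ aa p = 1 ∨ (2 ≤ aa p ∧ aa p ≤ c + 1) := by omega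
          · rw [h5] at h3; exact Or.inl (Or.inl h3)
          · rw [h5] at h3; exact Or.inl (Or.inr h3)
          · exact Or.inr ⟨aa p, h5.1, h5.2, h3⟩
      · rintro κ (h1 | h1) ⟨a, ha1, ha2, h2⟩
        · exact vcl_no (by omega) h1 h2
        · exact vcl_no (by omega) h1 h2

/-- **own windows** for all members of the classes `(V; a, 0)`, `a ≥ 1` -/
theorem top_own (own : ∀ p : Cyc k, Rd (Rd p).2 = ⟨j2, V⟩ → 1 ≤ aa p → (contc p).count 1 = 0 →
    Typd P P {p}) (a : ℕ) (ha : 1 ≤ a) (hk : j2 + 2 * pkc V + 2 * a = k) (p0 : Cyc k) (Xs : Set (Cyc k))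
    (hp0 : cl p0 ∈ vcl k V a) : ∃ Gp Gw, ClsOK (AEP P) (cl p0) Xs Gp Gw P P := by
  refine cls_own fun p hp _ => ?_
  have h1 := (vcl_same hp0).1 hp
  obtain ⟨h2, h3⟩ := mem_vcl.1 h1
  have h4 := ov_total h2
  exact own p h2 (by omega) (by omega)

/-- the environment with own windows -/
theorem VEnvG.of_own
    (env : ∀ p0 : Cyc k, Rd (Rd p0).2 = ⟨j2, V⟩ → ClsEnv (AEP P) P P (cl p0))
    (h2 : 2 ≤ pkc V) (hq : ∃ x ∈ contc V, 2 ≤ x)
    (hA : ∀ F g, TyAV F g → (∀ c ∈ F, Rd (Rd c).2 = ⟨j2, V⟩ ∧ 1 ≤ (contc c).count 1) → Typd P P F)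
    (hK : ∀ F g, TyKq F g → (∀ c ∈ F, Rd (Rd c).2 = ⟨j2, V⟩) → Typd P P F)
    (own : ∀ p : Cyc k, Rd (Rd p).2 = ⟨j2, V⟩ → 1 ≤ aa p → (contc p).count 1 = 0 → Typd P P {p}) :
    VEnvG P V KHq where
  env := env
  win := by
    intro a m ha hm hk
    obtain ⟨v, x2, u, x, w, g, b1, b2, b3, b4⟩ :=
      win_AV (k := k) (j := j2 + pkc V + a) V h2 hq ha rfl (by omega : j2 + pkc V + a + (pkc V + a) + m = k)
    refine ⟨_, v, x2, u, x, w, b1, b2, b3, hA _ g b4 ?_⟩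
    rintro c rfl
    have hR : Rd (Rd (cyc w)).2 = ⟨j2, V⟩ := by
      rw [Rd_ins (lf_length _) b3]
      change Rd (cyc u) = _
      rw [Rd_ins (lf_length _) b2, b1]
    refine ⟨hR, ?_⟩
    rw [contc_cyc, b3, count_one_ins _ _ (by rw [lf_length, X_num]), lf_sum,
      Finset.sum_ite_eq' univ x (fun _ => m), if_pos (mem_univ _)]
    exact hm
  kty := fun S F g hS hT hF => hK F g ⟨S, hS, hT⟩ hF
  k0 := fun _ _ => kq0 h2
  k1 := fun _ _ => kq1 h2
  k2 := fun _ _ _ => kq2 h2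
  kp := fun m hm _ _ _ => kqp h2 m (by omega)
  kn := fun m hm _ _ _ => kqn h2 m hm
  top := by
    intro a ha hk
    refine ClsReg.single fun p0 hp0 => ?_
    exact top_own own a ha hk p0 ∅ hp0
  topK := by
    intro hk _ j v x u z _ _ _ _ p0 Xs hp0 _
    exact top_own own 1 le_rfl (by omega) p0 Xs hp0

/-- pairs over the hops give the general environment -/
theorem VEnv.toG (E : VEnv P V KS) : VEnvG P V KS where
  env := E.env
  win := fun a m ha _ hk => E.win a m ha hk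
  kty := E.kty
  k0 := E.k0
  k1 := E.k1
  k2 := E.k2
  kp := E.kp
  kn := E.kn
  top := fun a ha hk => E.top a ha hk
  topK := fun hk _ => jvk_of_hops 1 le_rfl (by omega)
    (fun j U U' h1 h2 h3 h4 h5 => E.jv 1 j U U' le_rfl (by omega) h1 h2 h3 h4 h5)

/-- **SETS OF REGIONS** from the environments -/
theorem reg_VsG {S : Set RD} (hE : ∀ (j2 : ℕ) (V : Cyc j2), (⟨j2, V⟩ : RD) ∈ S →
    VEnvG P V KHq ∧ 2 ≤ pkc V ∧ j2 + 2 * pkc V + 2 ≤ k) : RegOK P S := by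
  have key : ∀ d : S, RegOK P ({d.1} : Set RD) := by
    rintro ⟨⟨j2, V⟩, hd⟩
    obtain ⟨E, h2, hk⟩ := hE j2 V hd
    exact E.reg (by omega) hk
  refine (RegOK.iUnion (ι := S) (S := fun d => {d.1}) ?_ key).congr fun p => ?_
  · rintro ⟨d, hd⟩ ⟨d', hd'⟩ x h1 h2
    apply Subtype.ext
    exact (Set.mem_singleton_iff.1 h1).symm.trans (Set.mem_singleton_iff.1 h2)
  · constructor
    · rintro ⟨⟨d, hd⟩, h1⟩
      have h1' : (cl p).1 = d := h1
      change (cl p).1 ∈ S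
      rw [h1']
      exact hd
    · intro h1
      exact ⟨⟨(cl p).1, h1⟩, rfl⟩

/-- **SETS OF REGIONS, OWN WINDOWS** -/
theorem reg_own {S : Set RD} (h2 : ∀ d ∈ S, 2 ≤ pkc d.2) (hq : ∀ d ∈ S, ∃ x ∈ contc d.2, 2 ≤ x)
    (hk : ∀ d ∈ S, d.1 + 2 * pkc d.2 + 2 ≤ k)
    (hE : ∀ p q : Cyc k, Rd (Rd p).2 ∈ S → cl q = cl p → p ≠ q → HopC p q → AEP P p q)
    (hL : ∀ p0 : Cyc k, Rd (Rd p0).2 ∈ S → LEx P P (cl p0))
    (hA : ∀ F g, TyAV F g → (∀ c ∈ F, Rd (Rd c).2 ∈ S ∧ 1 ≤ (contc c).count 1) → Typd P P F)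
    (hK : ∀ F g, TyKq F g → (∀ c ∈ F, Rd (Rd c).2 ∈ S) → Typd P P F)
    (own : ∀ p : Cyc k, Rd (Rd p).2 ∈ S → 1 ≤ aa p → (contc p).count 1 = 0 → Typd P P {p}) :
    RegOK P S := by
  refine reg_VsG fun j2 V hd => ⟨VEnvG.of_own ?_ (h2 _ hd) (hq _ hd) ?_ ?_ ?_, h2 _ hd, hk _ hd⟩
  · intro p0 hp0
    refine ⟨fun p q hp hq' hne hop => ?_, hL p0 (by rw [hp0]; exact hd)⟩
    refine hE p q ?_ (hq'.trans hp.symm) hne hop
    rw [cl_ov hp0 hp]
    exact hd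
  · intro F g hT hF
    exact hA F g hT fun c hc => ⟨by rw [(hF c hc).1]; exact hd, (hF c hc).2⟩
  · intro F g hT hF
    exact hK F g hT fun c hc => by rw [hF c hc]; exact hd
  · intro p hp ha h0
    exact own p (by rw [hp]; exact hd) ha h0

end PV

end Pool.OddHC
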