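import Pool.Agent.Work.MP_8f87b2_fin.VInstO
import Pool.Agent.Work.MP_8f87b2_fin.VOwn
import Pool.Agent.Work.MP_8f87b2_fin.MidBlk
import Pool.Agent.Work.MP_8f87b2_h27.P5D

/-!
# The region over one `V` at one height, given the chosen gadgets above

`TyNL`: typed by a type which is not `isL`. `lex_PHV`: the provider of L pairs. `regH`: `RegOK (PH ..) {V}` from the types.
`cover_h`: the groups of one height from the regions.
-/

set_option autoImplicit false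

namespace Pool.OddHC

open Finset BinaryTree Multiset Pool.OddHop

variable {i j j2 k : ℕ} {τ : Type}

/-- the height over `V` -/
theorem htc_over {V : Cyc j2} {p : Cyc k} (h : Rd (Rd p).2 = ⟨j2, V⟩) (hV : 1 ≤ htc V) :
    htc p = htc V + 2 := by
  have h1 : ∃ x ∈ contc V, htc V ≤ x := by
    by_contra hcon
    push Not at hcon
    have e : htc V = (contc V).sup := rfl
    have h5 : (contc V).sup ≤ (contc V).sup - 1 := by
      apply Multiset.sup_le.2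
      intro b hb
      have := hcon b hb
      omega
    omega
  obtain ⟨x, hx, hx2⟩ := h1
  have h2 : x + 1 ∈ contc (Rd p).2 := by
    rw [contc_eq (Rd p).2, Multiset.mem_add]
    left
    rw [h]
    exact Multiset.mem_map.2 ⟨x, hx, rfl⟩
  have h3 : x + 1 + 1 ∈ contc p := by
    rw [contc_eq p, Multiset.mem_add]
    left
    exact Multiset.mem_map.2 ⟨x + 1, h2, rfl⟩
  have h4 : x + 2 ≤ htc p := Multiset.le_sup h3
  have h5 := htc_Rd2 p (by omega)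
  rw [h] at h5
  exact h5

/-- a group with a type which is not `isL` -/
def TyNL (P : τ → Set (Cyc k) → DG k → Prop) (isL : τ → Prop) (F : Set (Cyc k)) : Prop :=
  ∃ t g, P t F g ∧ ¬ isL t

variable {P : τ → Set (Cyc k) → DG k → Prop} {isE isL : τ → Prop}
  {N : Set (Cyc k)} {G : Set (Set (Cyc k))} {C : τ → Set (Cyc k) → DG k → Prop}

theorem TyNL.ph {F : Set (Cyc k)} (h : TyNL P isL F) (hF : ∀ c ∈ F, ∀ d ∈ F, htc c = htc d) :
    ∃ o g, PH P isE isL (hitLE k τ) (mgLE k τ) C o F g := by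
  obtain ⟨t, g, h1, h2⟩ := h
  exact ⟨some t, g, h1, hF, fun h3 => absurd h3 h2⟩

/-- the provider of L pairs over `V` -/
theorem lex_PHV (hE : ∀ t F g, isE t → P t F g → TyEd F g)
    (hT : ∀ F g, TyLG F g → ∃ t, P t F g)
    (h5 : ∀ S F g, TyP5D S F g → ∃ t, P t F g ∧ ¬ isE t ∧ ¬ isL t)
    (h5m : ∀ S F g, TyP5MD S F g → ∃ t, P t F g ∧ ¬ isE t ∧ ¬ isL t) (hC : Chosen N G P C) (hk0 : 9 ≤ k)
    {V : Cyc j2} (hV : 1 ≤ htc V) {p0 : Cyc k} (hp0 : Rd (Rd p0).2 = ⟨j2, V⟩) :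
    PV.LEx (PH P isE isL (hitLE k τ) (mgLE k τ) C) (PH P isE isL (hitLE k τ) (mgLE k τ) C) (cl p0) := by
  refine lex_PHD P isE isL hE hT h5 h5m hC (h := htc V + 2) (by omega) hk0 ?_
  intro p hp
  exact htc_over (cl_ov hp0 hp) hV

/-- **THE REGION `{V}` AT ITS HEIGHT**. `jv`: a typed pair for every hop of the classes `(V; a, 0)` -/
theorem regH (hE : ∀ t F g, isE t → P t F g → TyEd F g)
    (hT : ∀ F g, TyLG F g → ∃ t, P t F g)
    (h5 : ∀ S F g, TyP5D S F g → ∃ t, P t F g ∧ ¬ isE t ∧ ¬ isL t)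
    (h5m : ∀ S F g, TyP5MD S F g → ∃ t, P t F g ∧ ¬ isE t ∧ ¬ isL t) (hC : Chosen N G P C) (hk0 : 9 ≤ k)
    {V : Cyc j2} (hV : 2 ≤ htc V) (h2 : 2 ≤ pkc V) (hk : j2 + 2 * pkc V + 2 ≤ k)
    (eE : ∀ p q : Cyc k, Rd (Rd p).2 = ⟨j2, V⟩ → Rd (Rd q).2 = ⟨j2, V⟩ → cl p = cl q → p ≠ q →
      HopC p q → TyNL P isL {p, q})
    (eA : ∀ (a m c : ℕ) (B1 s B : BinaryTree Unit) (p : Cyc k) (g : DG k), 1 ≤ a →
      c + 1 ∈ contc V → (∀ x ∈ contc V, c + 1 ≤ x) → WinOf k c a m B1 s B {p} g →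
      Rd (Rd p).2 = ⟨j2, V⟩ → aa p = a → (contc p).count 1 = m → TyNL P isL {p})
    (eK : ∀ F g, TyKq F g → (∀ c ∈ F, Rd (Rd c).2 = ⟨j2, V⟩) → TyNL P isL F)
    (jv : ∀ (a j : ℕ) (U U' : Cyc j), 1 ≤ a → j2 + 2 * pkc V + 2 * a = k → Rd U = ⟨j2, V⟩ →
      Rd U' = ⟨j2, V⟩ → j = j2 + pkc V + a → U ≠ U' → HopC U U' →
      ∃ p q : Cyc k, Rd p = ⟨j, U⟩ ∧ Rd q = ⟨j, U'⟩ ∧
        ∃ o g, PH P isE isL (hitLE k τ) (mgLE k τ) C o {p, q} g) :
    RegOK (PH P isE isL (hitLE k τ) (mgLE k τ) C) ({⟨j2, V⟩} : Set RD) := by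
  have hq : ∃ x ∈ contc V, 2 ≤ x := by
    by_contra hcon
    push Not at hcon
    have e : htc V = (contc V).sup := rfl
    have h5 : (contc V).sup ≤ 1 := by
      apply Multiset.sup_le.2
      intro b hb
      have := hcon b hb
      omega
    omega
  have hh : ∀ F : Set (Cyc k), (∀ c ∈ F, Rd (Rd c).2 = ⟨j2, V⟩) → ∀ c ∈ F, ∀ d ∈ F, htc c = htc d := by
    intro F hF c hc d hd
    rw [htc_over (hF c hc) (by omega), htc_over (hF d hd) (by omega)]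
  have E : PV.VEnv (PH P isE isL (hitLE k τ) (mgLE k τ) C) V KHq := by
    refine ⟨?_, ?_, ?_, fun _ _ => kq0 h2, fun _ _ => kq1 h2, fun _ _ _ => kq2 h2,
      fun m hm _ _ _ => kqp h2 m (by omega), fun m hm _ _ _ => kqn h2 m hm, ?_⟩
    · intro p0 hp0
      refine ⟨fun p q hp hq' hne hop => ⟨hne, ?_⟩, lex_PHV hE hT h5 h5m hC hk0 (by omega) hp0⟩
      have r1 := cl_ov hp0 hp
      have r2 := cl_ov hp0 hq'
      refine (eE p q r1 r2 (hp.trans hq'.symm) hne hop).ph (hh _ ?_)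
      rintro c (rfl | rfl)
      · exact r1
      · exact r2
    · intro a m ha hka
      refine nodeW_of' h2 hq ha hka ?_
      intro c B1 s B p g h6 h7 h8 h9 h10 h11
      refine Or.inl ((eA a m c B1 s B p g ha h6 h7 h8 h9 h10 h11).ph ?_)
      rintro c rfl d rfl
      rfl
    · intro S F g hS hTK hF
      exact Or.inl ((eK F g ⟨S, hS, hTK⟩ hF).ph (hh F hF))
    · intro a j U U' ha hka hU hU' hj hne hop
      obtain ⟨p, q, a1, a2, a3⟩ := jv a j U U' ha hka hU hU' hj hne hop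
      exact ⟨p, q, a1, a2, Or.inl a3⟩
  exact E.reg (by omega) hk

/-- **THE REGION `{V}` AT ITS HEIGHT**, the classes `(V; a, 0)` by sets of groups (`top`, `topK`) -/
theorem regH' (hE : ∀ t F g, isE t → P t F g → TyEd F g)
    (hT : ∀ F g, TyLG F g → ∃ t, P t F g)
    (h5 : ∀ S F g, TyP5D S F g → ∃ t, P t F g ∧ ¬ isE t ∧ ¬ isL t)
    (h5m : ∀ S F g, TyP5MD S F g → ∃ t, P t F g ∧ ¬ isE t ∧ ¬ isL t) (hC : Chosen N G P C) (hk0 : 9 ≤ k)
    {V : Cyc j2} (hV : 2 ≤ htc V) (h2 : 2 ≤ pkc V) (hk : j2 + 2 * pkc V + 2 ≤ k)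
    (eE : ∀ p q : Cyc k, Rd (Rd p).2 = ⟨j2, V⟩ → Rd (Rd q).2 = ⟨j2, V⟩ → cl p = cl q → p ≠ q →
      HopC p q → TyNL P isL {p, q})
    (eA : ∀ (a m c : ℕ) (B1 s B : BinaryTree Unit) (p : Cyc k) (g : DG k), 1 ≤ a → 1 ≤ m →
      c + 1 ∈ contc V → (∀ x ∈ contc V, c + 1 ≤ x) → WinOf k c a m B1 s B {p} g →
      Rd (Rd p).2 = ⟨j2, V⟩ → aa p = a → (contc p).count 1 = m → TyNL P isL {p})
    (eK : ∀ F g, TyKq F g → (∀ c ∈ F, Rd (Rd c).2 = ⟨j2, V⟩) → TyNL P isL F)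
    (top : ∀ a, 1 ≤ a → j2 + 2 * pkc V + 2 * a = k →
      ClsReg (PH P isE isL (hitLE k τ) (mgLE k τ) C) (vcl k V a : Set (RD × Multiset ℕ)))
    (topK : j2 + 2 * pkc V + 2 = k → oddF (j2 + pkc V) 2 →
      JVK (PH P isE isL (hitLE k τ) (mgLE k τ) C) V 1) :
    RegOK (PH P isE isL (hitLE k τ) (mgLE k τ) C) ({⟨j2, V⟩} : Set RD) := by
  have hq : ∃ x ∈ contc V, 2 ≤ x := by
    by_contra hcon
    push Not at hcon
    have e : htc V = (contc V).sup := rfl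
    have h5 : (contc V).sup ≤ 1 := by
      apply Multiset.sup_le.2
      intro b hb
      have := hcon b hb
      omega
    omega
  have hh : ∀ F : Set (Cyc k), (∀ c ∈ F, Rd (Rd c).2 = ⟨j2, V⟩) → ∀ c ∈ F, ∀ d ∈ F, htc c = htc d := by
    intro F hF c hc d hd
    rw [htc_over (hF c hc) (by omega), htc_over (hF d hd) (by omega)]
  have E : PV.VEnvG (PH P isE isL (hitLE k τ) (mgLE k τ) C) V KHq := by
    refine ⟨?_, ?_, ?_, fun _ _ => kq0 h2, fun _ _ => kq1 h2, fun _ _ _ => kq2 h2,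
      fun m hm _ _ _ => kqp h2 m (by omega), fun m hm _ _ _ => kqn h2 m hm, top, topK⟩
    · intro p0 hp0
      refine ⟨fun p q hp hq' hne hop => ⟨hne, ?_⟩, lex_PHV hE hT h5 h5m hC hk0 (by omega) hp0⟩
      have r1 := cl_ov hp0 hp
      have r2 := cl_ov hp0 hq'
      refine (eE p q r1 r2 (hp.trans hq'.symm) hne hop).ph (hh _ ?_)
      rintro c (rfl | rfl)
      · exact r1
      · exact r2
    · intro a m ha hm hka
      refine nodeW_of' h2 hq ha hka ?_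
      intro c B1 s B p g h6 h7 h8 h9 h10 h11
      refine Or.inl ((eA a m c B1 s B p g ha hm h6 h7 h8 h9 h10 h11).ph ?_)
      rintro c rfl d rfl
      rfl
    · intro S F g hS hTK hF
      exact Or.inl ((eK F g ⟨S, hS, hTK⟩ hF).ph (hh F hF))
  exact E.reg (by omega) hk

/-- groups of `PH` are of one height -/
theorem PH.same {o : Option τ} {F : Set (Cyc k)} {g : DG k} {hit : Hit k τ}
    {mg : Set (Cyc k) → τ → Set (Cyc k) → DG k → Prop}
    (h : PH P isE isL hit mg C o F g) : ∀ c ∈ F, ∀ d ∈ F, htc c = htc d := by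
  cases o with
  | none => exact h.1
  | some t => exact h.2.1

/-- **THE GROUPS OF ONE HEIGHT** `h ≥ 4` from the regions over the good `V` and the other sets of classes -/
theorem cover_h {Q : Option τ → Set (Cyc k) → DG k → Prop}
    (hp : ∀ o F g, Q o F g → ∀ c ∈ F, ∀ d ∈ F, htc c = htc d) {h : ℕ} (h4 : 4 ≤ h)
    (reg : ∀ (j2 : ℕ) (V : Cyc j2), htc V + 2 = h → 2 ≤ htc V → 2 ≤ pkc V → j2 + 2 * pkc V + 2 ≤ k →
      RegOK Q {(⟨j2, V⟩ : RD)})
    {ι : Type} (K : ι → Set (RD × Multiset ℕ))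
    (hK : ∀ i, ∀ κ ∈ K i, ¬ (htc κ.1.2 + 2 = h ∧ GoodV k κ.1))
    (hd : ∀ i i' κ, κ ∈ K i → κ ∈ K i' → i = i') (hR : ∀ i, ClsReg Q (K i))
    (cov : ∀ p : Cyc k, htc p = h → ¬ GoodV k (Rd (Rd p).2) → ∃ i, cl p ∈ K i) :
    ∃ G, GrpOK {p : Cyc k | htc p = h} G Q := by
  refine cover hp (fun d => htc d.2 + 2 = h ∧ GoodV k d) ?_ K hK hd hR (fun n => n = h) ?_
  · rintro ⟨j2, V⟩ ⟨h0, h1, h2, h3⟩
    exact reg j2 V h0 h1 h2 h3
  · intro p hp
    have hp' : htc p = h := hp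
    by_cases h3 : GoodV k (Rd (Rd p).2)
    · left
      refine ⟨?_, h3⟩
      have := htc_Rd2 p (by omega)
      omega
    · exact Or.inr (cov p hp' h3)

end Pool.OddHC
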