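import Pool.Agent.Work.MP_8f87b2_fin.R1Gen

/-!
# Removal sets of families with two beads

`rem_ab` (`j` odd), `rem_edge` (`j` odd), `rem_top_edge`, `rem_mid_edge` (`j` even): the rows 0 and 1 of the family.
-/

set_option autoImplicit false

namespace Pool.OddHC

open Finset BinaryTree Multiset Pool.OddHop

variable {j k : ℕ}

/-- one hop between neighbouring rows -/
theorem hopC_tc (hj : 1 ≤ j) (u : X j) (hk : j + pkn u.1 + 2 = k) (x : ZMod (2 * j + 1)) (d : ℕ) :
    HopC (tc u hk x d) (tc u hk x (d + 1)) := by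
  refine ⟨j, hj, u, _, _, by rw [(two x (x + d)).2]; exact hk,
    by rw [(two x (x + (d + 1 : ℕ))).2]; exact hk, ?_, rfl, rfl⟩
  refine ⟨x + d, x + (d + 1 : ℕ), Or.inl (by push_cast; ring), ?_⟩
  intro z
  rw [two_apply, two_apply]
  have e1 : (z = x + (d : ZMod (2 * j + 1))) ↔ (x + (d : ZMod (2 * j + 1)) = z) := eq_comm
  have e2 : (z = x + ((d + 1 : ℕ) : ZMod (2 * j + 1))) ↔ (x + ((d + 1 : ℕ) : ZMod (2 * j + 1)) = z) :=
    eq_comm
  simp only [e1, e2]
  omega

theorem HopC.symm' {p q : Cyc k} (h : HopC p q) : HopC q p := by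
  obtain ⟨j, hj, u, a, b, ha, hb, hop, e1, e2⟩ := h
  exact ⟨j, hj, u, b, a, hb, ha, hop.symm, e2, e1⟩

/-- pairs of left out members may be matched again -/
theorem RemOK.add_pairs {d : RD} {D D0 : Set (Cyc k)} (h : RemOK d D) (h0 : D0 ⊆ D)
    (κ : Cyc k → Cyc k) (hκ : ∀ p, Rd p = d → p ∈ D → p ∉ D0 → Rd (κ p) = d ∧ κ p ∈ D ∧ κ p ∉ D0 ∧
      κ (κ p) = p ∧ κ p ≠ p ∧ HopC p (κ p)) : RemOK d D0 := by
  classical
  obtain ⟨ι, hι⟩ := h
  refine ⟨fun p => if p ∈ D then (if p ∈ D0 then p else κ p) else ι p, fun p hp => ?_⟩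
  obtain ⟨h1, h2, h3, h4⟩ := hι p hp
  by_cases hD : p ∈ D
  · by_cases hD0 : p ∈ D0
    · simp only [hD, hD0, if_true]
      exact ⟨hp, trivial, Or.inl trivial, trivial⟩
    · obtain ⟨k1, k2, k3, k4, k5, k6⟩ := hκ p hp hD hD0
      simp only [hD, hD0, if_true, if_false, k2, k3, k4]
      exact ⟨k1, trivial, Or.inr k6, ⟨fun h => absurd h k5, fun h => h.elim⟩⟩
  · have hD' : ι p ∉ D := by
      intro h
      have h5 := (hι (ι p) h1).2.2.2.2 h
      rw [h2] at h5
      exact hD (h4.1 h5.symm)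
    simp only [hD, hD', if_false]
    refine ⟨h1, h2, h3, ⟨fun h => absurd (h4.1 h) hD, fun h => absurd (h0 h) hD⟩⟩

/-- `j` odd: one member of each of the rows 0, 1 -/
theorem rem_ab (hj : 1 ≤ j) (u : X j) (hk : j + pkn u.1 + 2 = k) (h : j % 2 = 1)
    (a b : ZMod (2 * j + 1)) : RemOK ⟨j, cyc u⟩ {tc u hk a 0, tc u hk b 1} := by
  refine ((two_family hj u hk).2.2.2 (fun i => if i = 0 then some (a, b) else none) (fun _ => true) 0
    (fun _ _ => False)).congr fun p _ => ?_
  constructor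
  · rintro (⟨h1, _⟩ | ⟨i, a', b', h1, h2, h3⟩ | ⟨i, x, _, _, h3, _⟩)
    · omega
    · by_cases hi : i = 0
      · subst hi
        simp only [if_true, Option.some.injEq, Prod.mk.injEq] at h2
        obtain ⟨rfl, rfl⟩ := h2
        exact h3
      · simp only [hi, if_false] at h2
        exact absurd h2 (by simp)
    · exact h3.elim
  · rintro (h1 | h1)
    · exact Or.inr (Or.inl ⟨0, a, b, by omega, by simp, Or.inl h1⟩)
    · exact Or.inr (Or.inl ⟨0, a, b, by omega, by simp, Or.inr h1⟩)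

/-- `j` odd: an edge of the rows 0, 1 -/
theorem rem_edge (hj : 1 ≤ j) (u : X j) (hk : j + pkn u.1 + 2 = k) (h : j % 2 = 1)
    (x : ZMod (2 * j + 1)) (s : Bool) : RemOK ⟨j, cyc u⟩ {tc u hk x 0, tc u hk (mate s x) 1} := by
  exact rem_ab hj u hk h x (mate s x)

/-- `j` even: a member of the top row and an edge of the rows 0, 1 -/
theorem rem_top_edge (hj : 1 ≤ j) (u : X j) (hk : j + pkn u.1 + 2 = k) (h : j % 2 = 0)
    (c x : ZMod (2 * j + 1)) (s : Bool) :
    RemOK ⟨j, cyc u⟩ {tc u hk c j, tc u hk x 0, tc u hk (mate s x) 1} := by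
  refine ((two_family hj u hk).2.2.2 (fun _ => none) (fun _ => s) c
    (fun i y => i = 0 ∧ y = x)).congr fun p _ => ?_
  constructor
  · rintro (⟨_, h1⟩ | ⟨i, a', b', _, h2, _⟩ | ⟨i, y, h1, _, ⟨rfl, rfl⟩, h3⟩)
    · exact Or.inl h1
    · exact absurd h2 (by simp)
    · exact Or.inr h3
  · rintro (h1 | h1)
    · exact Or.inl ⟨h, h1⟩
    · exact Or.inr (Or.inr ⟨0, x, by omega, rfl, ⟨rfl, rfl⟩, h1⟩)

/-- `j` even: a member of the row `2 i ≥ 2` and an edge of the rows 0, 1 -/
theorem rem_mid_edge (hj : 1 ≤ j) (u : X j) (hk : j + pkn u.1 + 2 = k) (h : j % 2 = 0) {i : ℕ}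
    (hi : 1 ≤ i) (hij : 2 * i ≤ j) (a x : ZMod (2 * j + 1)) (s : Bool) :
    RemOK ⟨j, cyc u⟩ {tc u hk a (2 * i), tc u hk x 0, tc u hk (mate s x) 1} := by
  classical
  obtain ⟨hF1, hF2, hF3, hF4⟩ := two_family hj u hk
  -- the big removal set: the column over `a` above row `2 i`
  have hbig : RemOK ⟨j, cyc u⟩ {p | (∃ d, 2 * i ≤ d ∧ d ≤ j ∧ p = tc u hk a d) ∨ p = tc u hk x 0 ∨
      p = tc u hk (mate s x) 1} := by
    refine (hF4 (fun l => if i ≤ l then some (a, a) else none) (fun _ => s) a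
      (fun l y => l = 0 ∧ y = x)).congr fun p _ => ?_
    constructor
    · rintro (⟨_, h1⟩ | ⟨l, a', b', h1, h2, h3⟩ | ⟨l, y, h1, _, ⟨rfl, rfl⟩, h3⟩)
      · exact Or.inl ⟨j, by omega, le_rfl, h1⟩
      · by_cases hl : i ≤ l
        · simp only [hl, if_true, Option.some.injEq, Prod.mk.injEq] at h2
          obtain ⟨rfl, rfl⟩ := h2
          rcases h3 with h3 | h3
          · exact Or.inl ⟨2 * l, by omega, by omega, h3⟩
          · exact Or.inl ⟨2 * l + 1, by omega, by omega, h3⟩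
        · simp only [hl, if_false] at h2
          exact absurd h2 (by simp)
      · exact Or.inr h3
    · rintro (⟨d, h1, h2, h3⟩ | h1)
      · rcases Nat.lt_or_ge d j with h4 | h4
        · right; left
          refine ⟨d / 2, a, a, by omega, ?_, ?_⟩
          · simp only [show i ≤ d / 2 by omega, if_true]
          · rcases Nat.mod_two_eq_zero_or_one d with h5 | h5
            · left; rw [h3]; congr 1; omega
            · right; rw [h3]; congr 1; omega
        · left
          obtain rfl : d = j := by omega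
          exact ⟨h, h3⟩
      · exact Or.inr (Or.inr ⟨0, x, by omega, by simp; omega, ⟨rfl, rfl⟩, h1⟩)
  refine hbig.add_pairs ?_ (fun p => if hp : ∃ d, 2 * i ≤ d ∧ d ≤ j ∧ p = tc u hk a d then
      (if hp.choose % 2 = 1 then tc u hk a (hp.choose + 1) else tc u hk a (hp.choose - 1)) else p) ?_
  · rintro p (h1 | h1)
    · exact Or.inl ⟨2 * i, le_rfl, hij, h1⟩
    · exact Or.inr h1
  · intro p hp h1 h2
    have hcol : ∃ d, 2 * i + 1 ≤ d ∧ d ≤ j ∧ p = tc u hk a d := by
      rcases h1 with ⟨d, g1, g2, g3⟩ | h1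
      · refine ⟨d, ?_, g2, g3⟩
        by_contra hc
        apply h2
        left
        rw [g3]
        congr 1
        omega
      · exact absurd (Or.inr h1) h2
    obtain ⟨d, g1, g2, rfl⟩ := hcol
    have hch : ∀ d', 2 * i ≤ d' → d' ≤ j → ∀ (hp : ∃ d, 2 * i ≤ d ∧ d ≤ j ∧ tc u hk a d' = tc u hk a d),
        hp.choose = d' := by
      intro d' _ g4 hp
      obtain ⟨g5, g6, g7⟩ := hp.choose_spec
      exact (hF2 _ _ _ _ g4 g6 g7).symm
    have hval : ∀ d', 2 * i ≤ d' → d' ≤ j →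
        (if hp : ∃ d, 2 * i ≤ d ∧ d ≤ j ∧ tc u hk a d' = tc u hk a d then
          (if hp.choose % 2 = 1 then tc u hk a (hp.choose + 1) else tc u hk a (hp.choose - 1))
          else tc u hk a d') = if d' % 2 = 1 then tc u hk a (d' + 1) else tc u hk a (d' - 1) := by
      intro d' g3 g4
      rw [dif_pos ⟨d', g3, g4, rfl⟩, hch d' g3 g4]
    have hne0 : ∀ d', 2 ≤ d' → d' ≤ j → ∀ y, tc u hk a d' ≠ tc u hk y 0 ∧ tc u hk a d' ≠ tc u hk y 1 := by
      intro d' g3 g4 y
      constructor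
      · intro hh
        have := hF2 _ _ _ _ g4 (by omega) hh
        omega
      · intro hh
        have := hF2 _ _ _ _ g4 (by omega) hh
        omega
    simp only [hval d (by omega) g2]
    by_cases hd : d % 2 = 1
    · simp only [hd, if_true]
      have g5 : d + 1 ≤ j := by omega
      rw [hval (d + 1) (by omega) g5, if_neg (by omega)]
      refine ⟨Rd_tc u hk a (d + 1), Or.inl ⟨d + 1, by omega, g5, rfl⟩, ?_, rfl, ?_, hopC_tc hj u hk a d⟩
      · rintro (h3 | h3 | h3)
        · have := hF2 _ _ _ _ g5 hij h3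
          omega
        · exact (hne0 (d + 1) (by omega) g5 x).1 h3
        · exact (hne0 (d + 1) (by omega) g5 _).2 h3
      · intro h3
        have := hF2 _ _ _ _ g5 g2 h3
        omega
    · simp only [hd, if_false]
      obtain ⟨d', rfl⟩ : ∃ d', d = d' + 1 := ⟨d - 1, by omega⟩
      have g5 : 2 * i + 1 ≤ d' := by omega
      simp only [Nat.add_sub_cancel]
      rw [hval d' (by omega) (by omega), if_pos (by omega)]
      refine ⟨Rd_tc u hk a d', Or.inl ⟨d', by omega, by omega, rfl⟩, ?_, rfl, ?_, ?_⟩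
      · rintro (h3 | h3 | h3)
        · have := hF2 _ _ _ _ (by omega) hij h3
          omega
        · exact (hne0 d' (by omega) (by omega) x).1 h3
        · exact (hne0 d' (by omega) (by omega) _).2 h3
      · intro h3
        have := hF2 _ _ _ _ (by omega) (by omega) h3
        omega
      · exact (hopC_tc hj u hk a d').symm'

end Pool.OddHC
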