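import Pool.Agent.Work.MP_8f87b2_fin.PV
import Pool.Agent.Work.MP_8f87b2_fin.Win
import Pool.Agent.Work.MP_8f87b2_h2.KHj
import Pool.Agent.Work.MP_8f87b2_h60.InAq

/-!
# The environment over one `V` from the types

`TyAV`: window of type A with the full data `NodeA`, `1 ≤ a` (`m ≥ 0`). `win_AV`: it exists at the pile over the pile.
`PV.VEnv.of_types`: `VEnv` from the inclusions of the types. `reg_V`: the region `{V}`; `reg_Vs`: sets of `V`.
-/

set_option autoImplicit false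

namespace Pool.OddHC

open Finset BinaryTree Multiset Pool.OddHop

variable {i j j2 k : ℕ} {τ : Type} {P : τ → Set (Cyc k) → DG k → Prop}

/-- TYPE A, windows of the nodes `(V; a, m)`, `a ≥ 1`, `m ≥ 0`: `H = ()^m (())^a` -/
def TyAV (F : Set (Cyc k)) (g : DG k) : Prop :=
  ∃ (q a m : ℕ) (R0 B1 s B : BinaryTree Unit) (w0 : X k), H1.NodeA k q a m R0 B1 s B ∧ 1 ≤ a ∧
    F = {cyc (H1.gX q B1 (lv m (lv2 a .nil)) s B w0 0)} ∧
    g = gad20 (H1.gX q B1 (lv m (lv2 a .nil)) s B w0)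

theorem TyAV.toA {F : Set (Cyc k)} {g : DG k} (h : TyAV F g) : TyA F g := by
  obtain ⟨q, a, m, R0, B1, s, B, w0, h1, _, h2, h3⟩ := h
  exact ⟨q, B1, _, s, B, w0, h1.toG, h2, h3⟩

/-- `m ≥ 1` -/
theorem TyAV.toAp {q a m : ℕ} {R0 B1 s B : BinaryTree Unit} {w0 : X k}
    (h1 : H1.NodeA k q a (m + 1) R0 B1 s B) (ha : 1 ≤ a) :
    TyAp {cyc (H1.gX q B1 (lv (m + 1) (lv2 a .nil)) s B w0 0)}
      (gad20 (H1.gX q B1 (lv (m + 1) (lv2 a .nil)) s B w0)) :=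
  ⟨q, m, a, B1, s, B, w0, h1.toG, Or.inr ha, rfl, rfl⟩

/-- **THE WINDOW** at the pile over the pile, with the data -/
theorem win_AV (V : Cyc j2) {a m : ℕ} (h2 : 2 ≤ pkc V) (hq : ∃ x ∈ contc V, 2 ≤ x)
    (ha : 1 ≤ a) (e1 : j2 + pkc V + a = j) (e0 : j + (pkc V + a) + m = k) :
    ∃ (v : X j2) (x2 : ZMod (2 * j2 + 1)) (u : X j) (x : ZMod (2 * j + 1)) (w : X k) (g : DG k),
      cyc v = V ∧ u.1 = ins v.1 (lf fun y => if y = x2 then a else 0) ∧
      w.1 = ins u.1 (lf fun y => if y = x then m else 0) ∧ TyAV {cyc w} g := by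
  obtain ⟨z, rfl⟩ : ∃ z : X j2, cyc z = V := Quotient.exists_rep V
  rw [pkc_cyc] at h2 e1 e0
  rw [contc_cyc] at hq
  have hne : cont z.1 ≠ 0 := by
    obtain ⟨x, hx, _⟩ := hq
    intro h
    rw [h] at hx
    exact absurd hx (Multiset.notMem_zero _)
  obtain ⟨b, hb, hmin⟩ := exists_min hne
  have hb1 : 1 ≤ b := cont_pos _ _ hb
  obtain ⟨c, rfl⟩ : ∃ c, b = c + 1 := ⟨b - 1, by omega⟩
  obtain ⟨R0, B1, s, B, w2, w1, w, x2, x1, g1, g2, g3, g4, g5, g6⟩ :=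
    node_pile (k := k) z hb hmin h2 e1 e0
  have hN : H1.NodeA k c a m R0 B1 s B := by
    refine ⟨g1, ?_, ?_, by omega, ?_⟩
    · intro x hx
      rw [g2, Multiset.mem_map] at hx
      obtain ⟨y, hy, rfl⟩ := hx
      have := hmin y (Multiset.mem_of_mem_erase hy)
      omega
    · have h3 : ∃ y ∈ (cont z.1).erase (c + 1), 2 ≤ y := by
        rcases Nat.lt_or_ge 1 (c + 1) with h4 | h4
        · have h5 : 0 < Multiset.card ((cont z.1).erase (c + 1)) := by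
            rw [Multiset.card_erase_of_mem hb, cont_card]
            change 0 < pkn z.1 - 1
            omega
          obtain ⟨y, hy⟩ := Multiset.card_pos_iff_exists_mem.1 h5
          have := hmin y (Multiset.mem_of_mem_erase hy)
          exact ⟨y, hy, by omega⟩
        · obtain ⟨y, hy, hy2⟩ := hq
          exact ⟨y, (Multiset.mem_erase_of_ne (by omega)).2 hy, hy2⟩
      obtain ⟨y, hy, hy2⟩ := h3
      have h4 : y + 2 ∈ cont R0 := by
        rw [g2]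
        exact Multiset.mem_map_of_mem _ hy
      have h5 : y + 2 ≤ (cont R0).sup := Multiset.le_sup h4
      have h6 : (cont R0).sup = ht R0 := (OddHC.ht_eq R0).symm
      omega
    · have h3 := X_num w
      rw [g6, num_app, pc_num] at h3
      change _ + (c + 3) = k at h3
      unfold H1.nR
      omega
  refine ⟨w2, x2, w1, x1, w, gad20 (H1.gX c B1 (lv m (lv2 a .nil)) s B w), (cyc_eq.2 g3).symm, g4, g5,
    c, a, m, R0, B1, s, B, w, hN, ha, ?_, rfl⟩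
  have h3 := hN.toG.word w (i := 0) (by norm_num)
  have h4 : w = H1.gX c B1 (lv m (lv2 a .nil)) s B w 0 := by
    apply Subtype.ext
    rw [h3, g6]
    change _ = app (H1.gR B1 (lv m (lv2 a .nil)) s B) (H1.ch (c + 3))
    rw [H1.ch_eq]
    congr 1
    exact H1.nR_eq B1 s B a m
  rw [← h4]

/-- the window as a `NodeW` -/
theorem nodeW_AV {V : Cyc j2} {Ty : Set (Cyc k) → Prop} {a m : ℕ} (h2 : 2 ≤ pkc V)
    (hq : ∃ x ∈ contc V, 2 ≤ x) (ha : 1 ≤ a) (hk : j2 + 2 * pkc V + 2 * a + m = k)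
    (hT : ∀ F g, TyAV F g → (∀ c ∈ F, Rd (Rd c).2 = ⟨j2, V⟩) → Ty F) : NodeW k V Ty a m := by
  obtain ⟨v, x2, u, x, w, g, b1, b2, b3, b4⟩ :=
    win_AV (k := k) (j := j2 + pkc V + a) V h2 hq ha rfl (by omega : j2 + pkc V + a + (pkc V + a) + m = k)
  refine ⟨_, v, x2, u, x, w, b1, b2, b3, hT _ g b4 ?_⟩
  rintro c rfl
  rw [Rd_ins (lf_length _) b3]
  change Rd (cyc u) = _
  rw [Rd_ins (lf_length _) b2, b1]

namespace PV

/-- **THE ENVIRONMENT OVER ONE `V` FROM THE TYPES** -/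
theorem VEnv.of_types {V : Cyc j2} (h2 : 2 ≤ pkc V) (hq : ∃ x ∈ contc V, 2 ≤ x)
    (hE : ∀ p0 : Cyc k, Rd (Rd p0).2 = ⟨j2, V⟩ → ∀ p q : Cyc k, cl p = cl p0 → cl q = cl p0 →
      p ≠ q → HopC p q → AEP P p q)
    (hL : ∀ p0 : Cyc k, Rd (Rd p0).2 = ⟨j2, V⟩ → LEx P P (cl p0))
    (hA : ∀ F g, TyAV F g → (∀ c ∈ F, Rd (Rd c).2 = ⟨j2, V⟩) → Typd P P F)
    (hK : ∀ F g, TyKq F g → (∀ c ∈ F, Rd (Rd c).2 = ⟨j2, V⟩) → Typd P P F)
    (jv : ∀ (a j : ℕ) (U U' : Cyc j), 1 ≤ a → j2 + 2 * pkc V + 2 * a = k → Rd U = ⟨j2, V⟩ →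
      Rd U' = ⟨j2, V⟩ → j = j2 + pkc V + a → U ≠ U' → HopC U U' →
      ∃ p q : Cyc k, Rd p = ⟨j, U⟩ ∧ Rd q = ⟨j, U'⟩ ∧ Typd P P {p, q}) :
    VEnv P V KHq where
  env := fun p0 hp0 => ⟨fun p q hp hq' hne hop => hE p0 hp0 p q hp hq' hne hop, hL p0 hp0⟩
  win := fun a m ha hk => nodeW_AV h2 hq ha hk hA
  kty := fun S F g hS hT hF => hK F g ⟨S, hS, hT⟩ hF
  k0 := fun _ _ => kq0 h2
  k1 := fun _ _ => kq1 h2
  k2 := fun _ _ _ => kq2 h2
  kp := fun m hm _ _ _ => kqp h2 m (by omega)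
  kn := fun m hm _ _ _ => kqn h2 m hm
  jv := jv

/-- **A SET OF REGIONS** -/
theorem reg_Vs {S : Set RD} (h2 : ∀ d ∈ S, 2 ≤ pkc d.2) (hq : ∀ d ∈ S, ∃ x ∈ contc d.2, 2 ≤ x)
    (hk : ∀ d ∈ S, d.1 + 2 * pkc d.2 + 2 ≤ k)
    (hE : ∀ p q : Cyc k, Rd (Rd p).2 ∈ S → cl q = cl p → p ≠ q → HopC p q → AEP P p q)
    (hL : ∀ p0 : Cyc k, Rd (Rd p0).2 ∈ S → LEx P P (cl p0))
    (hA : ∀ F g, TyAV F g → (∀ c ∈ F, Rd (Rd c).2 ∈ S) → Typd P P F)
    (hK : ∀ F g, TyKq F g → (∀ c ∈ F, Rd (Rd c).2 ∈ S) → Typd P P F)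
    (jv : ∀ (a j : ℕ) (U U' : Cyc j), 1 ≤ a → Rd U ∈ S → Rd U' = Rd U →
      j + pkc U = k → (contc U).count 1 = a → U ≠ U' → HopC U U' →
      ∃ p q : Cyc k, Rd p = ⟨j, U⟩ ∧ Rd q = ⟨j, U'⟩ ∧ Typd P P {p, q}) : RegOK P S := by
  have key : ∀ d : S, RegOK P ({d.1} : Set RD) := by
    rintro ⟨⟨j2, V⟩, hd⟩
    have E : VEnv P V KHq := by
      refine VEnv.of_types (h2 _ hd) (hq _ hd) ?_ ?_ ?_ ?_ ?_
      · intro p0 hp0 p q hp hq' hne hop
        refine hE p q ?_ (hq'.trans hp.symm) hne hop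
        have := cl_ov hp0 hp
        rw [this]
        exact hd
      · intro p0 hp0
        exact hL p0 (by rw [hp0]; exact hd)
      · intro F g hT hF
        exact hA F g hT fun c hc => by rw [hF c hc]; exact hd
      · intro F g hT hF
        exact hK F g hT fun c hc => by rw [hF c hc]; exact hd
      · intro a j U U' ha hka hU hU' hj hne hop
        have h3 := pkc_eq U
        have h4 := Rd_size U
        rw [hU] at h3 h4
        change pkc U = pkc V + _ at h3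
        change j2 + pkc V + _ = j at h4
        exact jv a j U U' ha (by rw [hU]; exact hd) (hU'.trans hU.symm) (by omega) (by omega) hne hop
    refine E.reg ?_ (hk _ hd)
    have := h2 _ hd
    change 2 ≤ pkc V at this
    omega
  refine (RegOK.iUnion (ι := S) (S := fun d => {d.1}) ?_ key).congr fun p => ?_
  · rintro ⟨d, hd⟩ ⟨d', hd'⟩ x h1 h2
    apply Subtype.ext
    exact (Set.mem_singleton_iff.1 h1).symm.trans (Set.mem_singleton_iff.1 h2)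
  · constructor
    · rintro ⟨⟨d, hd⟩, h1⟩
      have h1' : (cl p).1 = d := h1
      change (cl p).1 ∈ S
      rw [h1']
      exact hd
    · intro h1
      exact ⟨⟨(cl p).1, h1⟩, rfl⟩

end PV

end Pool.OddHC
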