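import Pool.Agent.Work.MP_8f87b2_fin.BlkV

/-!
# The window of a node with its data

`win_G`: `fin/Win` `win_A` with the data `H1.NodeG k c B1 (()^m (())^a) s B`, `c + 1` the least part of `V`.
`nodeW_of`: `NodeW` from a type for these groups.
-/

set_option autoImplicit false

namespace Pool.OddHC

open Finset BinaryTree Multiset Pool.OddHop

variable {i j j2 k : ℕ}

/-- the group of the window `R [c+3]`, `R = B1 (()^m (())^a s) B` -/
def WinOf (k c a m : ℕ) (B1 s B : BinaryTree Unit) (F : Set (Cyc k)) (g : DG k) : Prop :=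
  ∃ w0 : X k, H1.NodeG k c B1 (lv m (lv2 a .nil)) s B ∧
    F = {cyc (H1.gX c B1 (lv m (lv2 a .nil)) s B w0 0)} ∧
    g = gad20 (H1.gX c B1 (lv m (lv2 a .nil)) s B w0)

/-- **THE WINDOW WITH ITS DATA** -/
theorem win_G {j2 : ℕ} (V : Cyc j2) {a m : ℕ} (h2 : 2 ≤ pkc V) (hq : ∃ x ∈ contc V, 2 ≤ x)
    (ham : 0 < a + m) (e1 : j2 + pkc V + a = j) (e0 : j + (pkc V + a) + m = k) :
    ∃ (v : X j2) (x2 : ZMod (2 * j2 + 1)) (u : X j) (x : ZMod (2 * j + 1)) (w : X k) (g : DG k)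
      (c : ℕ) (B1 s B : BinaryTree Unit),
      cyc v = V ∧ u.1 = ins v.1 (lf fun y => if y = x2 then a else 0) ∧
      w.1 = ins u.1 (lf fun y => if y = x then m else 0) ∧ WinOf k c a m B1 s B {cyc w} g ∧
      c + 1 ∈ contc V ∧ (∀ x ∈ contc V, c + 1 ≤ x) := by
  obtain ⟨z, rfl⟩ : ∃ z : X j2, cyc z = V := Quotient.exists_rep V
  rw [pkc_cyc] at h2 e1 e0
  rw [contc_cyc] at hq
  have hne : cont z.1 ≠ 0 := by
    obtain ⟨x, hx, _⟩ := hq
    intro h
    rw [h] at hx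
    exact absurd hx (Multiset.notMem_zero _)
  obtain ⟨b, hb, hmin⟩ := exists_min hne
  have hb1 : 1 ≤ b := cont_pos _ _ hb
  obtain ⟨c, rfl⟩ : ∃ c, b = c + 1 := ⟨b - 1, by omega⟩
  obtain ⟨R0, B1, s, B, w2, w1, w, x2, x1, g1, g2, g3, g4, g5, g6⟩ :=
    node_pile (k := k) z hb hmin h2 e1 e0
  have hN : H1.NodeA k c a m R0 B1 s B := by
    refine ⟨g1, ?_, ?_, ham, ?_⟩
    · intro x hx
      rw [g2, Multiset.mem_map] at hx
      obtain ⟨y, hy, rfl⟩ := hx
      have := hmin y (Multiset.mem_of_mem_erase hy)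
      omega
    · have h3 : ∃ y ∈ (cont z.1).erase (c + 1), 2 ≤ y := by
        rcases Nat.lt_or_ge 1 (c + 1) with h4 | h4
        · have h5 : 0 < Multiset.card ((cont z.1).erase (c + 1)) := by
            rw [Multiset.card_erase_of_mem hb, cont_card]
            change 0 < pkn z.1 - 1
            omega
          obtain ⟨y, hy⟩ := Multiset.card_pos_iff_exists_mem.1 h5
          have := hmin y (Multiset.mem_of_mem_erase hy)
          exact ⟨y, hy, by omega⟩
        · obtain ⟨y, hy, hy2⟩ := hq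
          exact ⟨y, (Multiset.mem_erase_of_ne (by omega)).2 hy, hy2⟩
      obtain ⟨y, hy, hy2⟩ := h3
      have h4 : y + 2 ∈ cont R0 := by
        rw [g2]
        exact Multiset.mem_map_of_mem _ hy
      have h5 : y + 2 ≤ (cont R0).sup := Multiset.le_sup h4
      have h6 : (cont R0).sup = ht R0 := (OddHC.ht_eq R0).symm
      omega
    · have h3 := X_num w
      rw [g6, num_app, pc_num] at h3
      change _ + (c + 3) = k at h3
      unfold H1.nR
      omega
  refine ⟨w2, x2, w1, x1, w, gad20 (H1.gX c B1 (lv m (lv2 a .nil)) s B w), c, B1, s, B,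
    (cyc_eq.2 g3).symm, g4, g5, ⟨w, hN.toG, ?_, rfl⟩, by rw [contc_cyc]; exact hb,
    by rw [contc_cyc]; exact hmin⟩
  have h3 := hN.toG.word w (i := 0) (by norm_num)
  have h4 : w = H1.gX c B1 (lv m (lv2 a .nil)) s B w 0 := by
    apply Subtype.ext
    rw [h3, g6]
    change _ = app (H1.gR B1 (lv m (lv2 a .nil)) s B) (H1.ch (c + 3))
    rw [H1.ch_eq]
    congr 1
    exact H1.nR_eq B1 s B a m
  rw [← h4]

/-- `NodeW` from a type for the windows -/
theorem nodeW_of {V : Cyc j2} {Ty : Set (Cyc k) → Prop} {a m : ℕ} (h2 : 2 ≤ pkc V)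
    (hq : ∃ x ∈ contc V, 2 ≤ x) (ha : 1 ≤ a) (hk : j2 + 2 * pkc V + 2 * a + m = k)
    (hty : ∀ (c : ℕ) (B1 s B : BinaryTree Unit) (p : Cyc k) (g : DG k), c + 1 ∈ contc V →
      (∀ x ∈ contc V, c + 1 ≤ x) → WinOf k c a m B1 s B {p} g → Ty {p}) : NodeW k V Ty a m := by
  obtain ⟨v, x2, u, x, w, g, c, B1, s, B, h1, h3, h4, h5, h6, h7⟩ :=
    win_G (j := j2 + pkc V + a) (k := k) (a := a) (m := m) V h2 hq (by omega) rfl (by omega)
  exact ⟨_, v, x2, u, x, w, h1, h3, h4, hty c B1 s B (cyc w) g h6 h7 h5⟩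

end Pool.OddHC
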