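import Pool.Agent.Work.MP_8f87b2_fin.Own
import Pool.Agent.Work.MP_8f87b2_fin.WinG
import Pool.Agent.Work.MP_8f87b2_fin.VInst

/-!
# The environment over one `V` from the types, own windows for `(V; a, 0)`

`WinOf.toAp`: the windows of the nodes with `m ≥ 1` are of type `TyAp`. `VEnvO.of_types`, `reg_VsO`: regions for sets of `V`.
-/

set_option autoImplicit false

namespace Pool.OddHC

open Finset BinaryTree Multiset Pool.OddHop

variable {i j j2 k : ℕ} {τ : Type} {P : τ → Set (Cyc k) → DG k → Prop}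

theorem WinOf.toAp {c a m : ℕ} {B1 s B : BinaryTree Unit} {F : Set (Cyc k)} {g : DG k}
    (h : WinOf k c a m B1 s B F g) (ha : 1 ≤ a) (hm : 1 ≤ m) : TyAp F g := by
  obtain ⟨w0, h1, h2, h3⟩ := h
  obtain ⟨n, rfl⟩ : ∃ n, m = n + 1 := ⟨m - 1, by omega⟩
  exact ⟨c, n, a, B1, s, B, w0, h1, Or.inr ha, h2, h3⟩

theorem WinOf.toA {c a m : ℕ} {B1 s B : BinaryTree Unit} {F : Set (Cyc k)} {g : DG k}
    (h : WinOf k c a m B1 s B F g) : TyA F g := by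
  obtain ⟨w0, h1, h2, h3⟩ := h
  exact ⟨c, B1, _, s, B, w0, h1, h2, h3⟩

/-- the window is over the pile over the pile -/
theorem nodeW_of' {V : Cyc j2} {Ty : Set (Cyc k) → Prop} {a m : ℕ} (h2 : 2 ≤ pkc V)
    (hq : ∃ x ∈ contc V, 2 ≤ x) (ha : 1 ≤ a) (hk : j2 + 2 * pkc V + 2 * a + m = k)
    (hty : ∀ (c : ℕ) (B1 s B : BinaryTree Unit) (p : Cyc k) (g : DG k), c + 1 ∈ contc V →
      (∀ x ∈ contc V, c + 1 ≤ x) → WinOf k c a m B1 s B {p} g → Rd (Rd p).2 = ⟨j2, V⟩ →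
      aa p = a → (contc p).count 1 = m → Ty {p}) : NodeW k V Ty a m := by
  obtain ⟨v, x2, u, x, w, g, c, B1, s, B, h1, h3, h4, h5, h6, h7⟩ :=
    win_G (j := j2 + pkc V + a) (k := k) (a := a) (m := m) V h2 hq (by omega) rfl (by omega)
  have hR : Rd (cyc w) = ⟨j2 + pkc V + a, cyc u⟩ := Rd_ins (lf_length _) h4
  have hR2 : Rd (cyc u) = ⟨j2, V⟩ := by
    have h8 := Rd_ins (lf_length _) h3
    rw [h1] at h8
    exact h8
  have hR3 : Rd (Rd (cyc w)).2 = ⟨j2, V⟩ := by rw [hR]; exact hR2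
  have hc : (contc (cyc w)).count 1 = m := by
    rw [contc_cyc, h4, count_one_ins _ _ (by rw [lf_length, X_num]), lf_sum,
      Finset.sum_ite_eq' univ x (fun _ => m), if_pos (mem_univ _)]
  have ht := ov_total hR3
  exact ⟨_, v, x2, u, x, w, h1, h3, h4, hty c B1 s B (cyc w) g h6 h7 h5 hR3 (by omega) hc⟩

namespace PV

/-- **THE ENVIRONMENT OVER ONE `V` FROM THE TYPES, OWN WINDOWS** -/
theorem VEnvO.of_types {V : Cyc j2} (h2 : 2 ≤ pkc V) (hq : ∃ x ∈ contc V, 2 ≤ x)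
    (hE : ∀ p0 : Cyc k, Rd (Rd p0).2 = ⟨j2, V⟩ → ∀ p q : Cyc k, cl p = cl p0 → cl q = cl p0 →
      p ≠ q → HopC p q → AEP P p q)
    (hL : ∀ p0 : Cyc k, Rd (Rd p0).2 = ⟨j2, V⟩ → LEx P P (cl p0))
    (hA : ∀ (a m c : ℕ) (B1 s B : BinaryTree Unit) (p : Cyc k) (g : DG k), 1 ≤ a → 1 ≤ m →
      c + 1 ∈ contc V → (∀ x ∈ contc V, c + 1 ≤ x) → WinOf k c a m B1 s B {p} g →
      Rd (Rd p).2 = ⟨j2, V⟩ → aa p = a → (contc p).count 1 = m → Typd P P {p})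
    (hK : ∀ F g, TyKq F g → (∀ c ∈ F, Rd (Rd c).2 = ⟨j2, V⟩) → Typd P P F)
    (own : ∀ p : Cyc k, Rd (Rd p).2 = ⟨j2, V⟩ → 1 ≤ aa p → (contc p).count 1 = 0 → Typd P P {p}) :
    VEnvO P V KHq where
  env := fun p0 hp0 => ⟨fun p q hp hq' hne hop => hE p0 hp0 p q hp hq' hne hop, hL p0 hp0⟩
  win := fun a m ha hm hk => nodeW_of' h2 hq ha hk
    (fun c B1 s B p g h3 h4 h5 h6 h7 h8 => hA a m c B1 s B p g ha hm h3 h4 h5 h6 h7 h8)
  kty := fun S F g hS hT hF => hK F g ⟨S, hS, hT⟩ hF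
  k0 := fun _ _ => kq0 h2
  k1 := fun _ _ => kq1 h2
  k2 := fun _ _ _ => kq2 h2
  kp := fun m hm _ _ _ => kqp h2 m (by omega)
  kn := fun m hm _ _ _ => kqn h2 m hm
  own := by
    intro a ha hk z hz haz
    have h4 := ov_total hz
    exact own z hz (by omega) (by omega)

/-- regions for the elements of `S` give the region `S` -/
theorem reg_of_singles {S : Set RD} (h : ∀ (j2 : ℕ) (V : Cyc j2), (⟨j2, V⟩ : RD) ∈ S →
    RegOK P ({⟨j2, V⟩} : Set RD)) : RegOK P S := by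
  have key : ∀ d : S, RegOK P ({d.1} : Set RD) := by
    rintro ⟨⟨j2, V⟩, hd⟩
    exact h j2 V hd
  refine (RegOK.iUnion (ι := S) (S := fun d => {d.1}) ?_ key).congr fun p => ?_
  · rintro ⟨d, hd⟩ ⟨d', hd'⟩ x h1 h2
    apply Subtype.ext
    exact (Set.mem_singleton_iff.1 h1).symm.trans (Set.mem_singleton_iff.1 h2)
  · constructor
    · rintro ⟨⟨d, hd⟩, h1⟩
      have h1' : (cl p).1 = d := h1
      change (cl p).1 ∈ S
      rw [h1']
      exact hd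
    · intro h1
      exact ⟨⟨(cl p).1, h1⟩, rfl⟩

/-- **SETS OF REGIONS, OWN WINDOWS** (`V` with at least two solitons, `M ≥ 2`) -/
theorem reg_VsO {S : Set RD} (h2 : ∀ d ∈ S, 2 ≤ pkc d.2) (hq : ∀ d ∈ S, ∃ x ∈ contc d.2, 2 ≤ x)
    (hk : ∀ d ∈ S, d.1 + 2 * pkc d.2 + 2 ≤ k)
    (hE : ∀ p q : Cyc k, Rd (Rd p).2 ∈ S → cl q = cl p → p ≠ q → HopC p q → AEP P p q)
    (hL : ∀ p0 : Cyc k, Rd (Rd p0).2 ∈ S → LEx P P (cl p0))
    (hA : ∀ (a m c : ℕ) (B1 s B : BinaryTree Unit) (p : Cyc k) (g : DG k), 1 ≤ a → 1 ≤ m →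
      Rd (Rd p).2 ∈ S → c + 1 ∈ contc (Rd (Rd p).2).2 → (∀ x ∈ contc (Rd (Rd p).2).2, c + 1 ≤ x) →
      aa p = a → (contc p).count 1 = m → WinOf k c a m B1 s B {p} g → Typd P P {p})
    (hK : ∀ F g, TyKq F g → (∀ c ∈ F, Rd (Rd c).2 ∈ S) → Typd P P F)
    (own : ∀ p : Cyc k, Rd (Rd p).2 ∈ S → 1 ≤ aa p → (contc p).count 1 = 0 → Typd P P {p}) :
    RegOK P S := by
  refine reg_of_singles fun j2 V hd => ?_
  have E : VEnvO P V KHq := by
    refine VEnvO.of_types (h2 _ hd) (hq _ hd) ?_ ?_ ?_ ?_ ?_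
    · intro p0 hp0 p q hp hq' hne hop
      refine hE p q ?_ (hq'.trans hp.symm) hne hop
      rw [cl_ov hp0 hp]
      exact hd
    · intro p0 hp0
      exact hL p0 (by rw [hp0]; exact hd)
    · intro a m c B1 s B p g ha hm h3 h4 h5 h6 h7 h8
      refine hA a m c B1 s B p g ha hm ?_ ?_ ?_ h7 h8 h5
      · rw [h6]; exact hd
      · rw [h6]; exact h3
      · rw [h6]; exact h4
    · intro F g hT hF
      exact hK F g hT fun c hc => by rw [hF c hc]; exact hd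
    · intro p hp ha h0
      exact own p (by rw [hp]; exact hd) ha h0
  refine E.reg ?_ (hk _ hd)
  have := h2 _ hd
  change 2 ≤ pkc V at this
  omega

end PV

end Pool.OddHC
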